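import Mathlib
import Pool.Agent.Helper26.VC.Move

/-!
# Light copies of results on places of function fields (from Helper70/VP/Basic, Helper70/VP/Pencil)

They are copied so that the section conjecture files do not import the whole chain on zero cycles.
-/

namespace SCVP

open VC Function IntermediateField Polynomial WithZero

universe u

section basic

variable {k F : Type u} [Field k] [IsAlgClosed k] [CharZero k] [Field F] [Algebra k F]

lemma ord_pow (hF : IsFunctionField k F) (P : Place k F) {f : F} (hf : f ≠ 0) (n : ℕ) :
    ord P.ring (f ^ n) = n * ord P.ring f := by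
  induction n with
  | zero => rw [pow_zero, ord_one hF P]; simp
  | succ n ih =>
    rw [pow_succ, ord_mul hF P (pow_ne_zero n hf) hf, ih]
    push_cast
    ring

/-- The value of a regular function at a point. -/
theorem exists_residue (hF : IsFunctionField k F) (P : Place k F) {x : F} (hx : x ∈ P.ring) :
    ∃ c : k, x - algebraMap k F c ∈ P.ring.nonunits := by
  by_contra hcon
  push Not at hcon
  have hunit : ∀ c : k, x - algebraMap k F c ≠ 0 ∧ (x - algebraMap k F c)⁻¹ ∈ P.ring := by
    intro c
    have h := hcon c
    rw [ValuationSubring.mem_nonunits_iff_or] at h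
    push Not at h
    exact h
  by_cases ht : Transcendental k x
  · have hfin := hF.finiteDimensional ht
    have hpoly : ∀ p : k[X], aeval x p ∈ P.ring := by
      intro p
      induction p using Polynomial.induction_on with
      | C a => rw [aeval_C]; exact P.algebraMap_mem a
      | add p q hp hq => rw [map_add]; exact P.ring.add_mem _ _ hp hq
      | monomial n a ih =>
        rw [pow_succ, ← mul_assoc, map_mul, aeval_X]
        exact P.ring.mul_mem _ _ ih hx
    have hinv : ∀ p : k[X], p ≠ 0 → (aeval x p)⁻¹ ∈ P.ring := by
      intro p hp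
      have hs := (IsAlgClosed.splits p).eq_prod_roots
      rw [hs, map_mul, aeval_C, mul_inv]
      apply P.ring.mul_mem
      · rw [← map_inv₀]; exact P.algebraMap_mem _
      · have : ∀ s : Multiset k, (aeval x (s.map (fun a => X - C a)).prod)⁻¹ ∈ P.ring := by
          intro s
          induction s using Multiset.induction_on with
          | empty => simp only [Multiset.map_zero, Multiset.prod_zero, map_one, inv_one]; exact P.ring.one_mem
          | cons a s ih =>
            rw [Multiset.map_cons, Multiset.prod_cons, map_mul, mul_inv, map_sub, aeval_X, aeval_C]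
            exact P.ring.mul_mem _ _ (hunit a).2 ih
        exact this _
    have hmem : ∀ y : k⟮x⟯, (y : F) ∈ P.ring := by
      intro y
      obtain ⟨r, s, hrs⟩ := (IntermediateField.mem_adjoin_simple_iff k (y : F)).mp y.2
      rw [hrs, div_eq_mul_inv]
      rcases eq_or_ne s 0 with hs | hs
      · rw [hs, map_zero, inv_zero, mul_zero]; exact P.ring.zero_mem
      · exact P.ring.mul_mem _ _ (hpoly r) (hinv s hs)
    apply P.ne_top
    rw [eq_top_iff]
    intro y _
    let f : k⟮x⟯ →+* P.ring := (algebraMap k⟮x⟯ F).codRestrict P.ring hmem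
    obtain ⟨p, hp, hp'⟩ := Algebra.IsIntegral.isIntegral (R := k⟮x⟯) y
    have h1 : IsIntegral P.ring y := by
      refine ⟨p.map f, hp.map f, ?_⟩
      rw [Polynomial.eval₂_map]
      exact hp'
    obtain ⟨z, hz⟩ := IsIntegrallyClosed.isIntegral_iff.mp h1
    rw [← hz]
    exact z.2
  · have hint : IsIntegral k x := (not_not.mp ht : IsAlgebraic k x).isIntegral
    obtain ⟨b, hb⟩ : ∃ b : k, algebraMap k F b = x := by
      have hdeg := IsAlgClosed.degree_eq_one_of_irreducible k (minpoly.irreducible hint)
      exact (minpoly.mem_range_of_degree_eq_one k x hdeg)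
    exact (hunit b).1 (by rw [hb, sub_self])

omit [IsAlgClosed k] [CharZero k] in
lemma residue_unique (P : Place k F) {x : F} {c d : k}
    (hc : x - algebraMap k F c ∈ P.ring.nonunits) (hd : x - algebraMap k F d ∈ P.ring.nonunits) :
    c = d := by
  by_contra hne
  have h1 : algebraMap k F (d - c) ∈ P.ring.nonunits := by
    have e : algebraMap k F (d - c) = (x - algebraMap k F c) - (x - algebraMap k F d) := by
      rw [map_sub]; ring
    rw [e]
    obtain ⟨ha, ha'⟩ := (ValuationSubring.mem_nonunits_iff_exists_mem_maximalIdeal).mp hc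
    obtain ⟨hb, hb'⟩ := (ValuationSubring.mem_nonunits_iff_exists_mem_maximalIdeal).mp hd
    rw [ValuationSubring.mem_nonunits_iff_exists_mem_maximalIdeal]
    refine ⟨P.ring.sub_mem ha hb, ?_⟩
    exact (IsLocalRing.maximalIdeal P.ring).sub_mem ha' hb'
  rcases (ValuationSubring.mem_nonunits_iff_or _).mp h1 with h | h
  · rw [map_eq_zero, sub_eq_zero] at h
    exact hne h.symm
  · apply h
    rw [← map_inv₀]
    exact P.algebraMap_mem _


/-- A function with no zero at any place is constant; conversely constants have order zero. -/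
lemma exists_const_of_not_transcendental {f : F} (hf : ¬ Transcendental k f) :
    ∃ b : k, algebraMap k F b = f := by
  have hint : IsIntegral k f := (not_not.mp hf : IsAlgebraic k f).isIntegral
  have hdeg := IsAlgClosed.degree_eq_one_of_irreducible k (minpoly.irreducible hint)
  exact (minpoly.mem_range_of_degree_eq_one k f hdeg)

lemma transcendental_inv {f : F} (hf : Transcendental k f) : Transcendental k f⁻¹ := by
  intro h
  apply hf
  have := h.inv
  rwa [inv_inv] at this

lemma adjoin_inv (f : F) : k⟮f⁻¹⟯ = k⟮f⟯ := by
  apply le_antisymm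
  · rw [IntermediateField.adjoin_simple_le_iff]
    exact inv_mem (IntermediateField.mem_adjoin_simple_self k _)
  · rw [IntermediateField.adjoin_simple_le_iff]
    have h := inv_mem (IntermediateField.mem_adjoin_simple_self k f⁻¹)
    rwa [inv_inv] at h

theorem degree_zero (hF : IsFunctionField k F) {f : F} (hf : f ≠ 0) :
    ∑ v ∈ (finite_support_ord hF hf).toFinset, ord v.ring f = 0 := by
  classical
  by_cases ht : Transcendental k f
  swap
  · obtain ⟨b, rfl⟩ := exists_const_of_not_transcendental ht
    apply Finset.sum_eq_zero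
    intro v _
    exact ord_algebraMap hF v (by rintro rfl; simp at hf)
  · obtain ⟨K, _, _, _, _, hK, G, _, _, _, hG⟩ := exists_cover hF f ht
    have hfinv := transcendental_inv ht
    have hG' : IsGaloisGroup G k⟮algebraMap F K f⁻¹⟯ K := by rw [map_inv₀, adjoin_inv]; exact hG
    let Φ := {φ : F →ₐ[k] K // φ f = algebraMap F K f}
    have hΦ : Finite Φ := finite_homs f (hF.finiteDimensional ht)
    have : Fintype Φ := Fintype.ofFinite Φ
    have hιtr : Transcendental k (algebraMap F K f) :=
      (transcendental_algebraMap_iff (algebraMap F K).injective).mpr ht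
    have hTtr : Transcendental k (algebraMap F K f⁻¹) :=
      (transcendental_algebraMap_iff (algebraMap F K).injective).mpr hfinv
    obtain ⟨v0, hv0⟩ := exists_place hK hιtr
    obtain ⟨v1, hv1⟩ := exists_place hK hTtr
    set S := (finite_support_ord hF hf).toFinset with hS
    have cnt0 : ∀ P : Place k F, max (ord P.ring f) 0 =
        ∑ φ : Φ, if Place.comap hF hK φ.1 v0 = P then (1 : ℤ) else 0 := by
      intro P
      rw [← card_cover hF hK f ht G hG v0 hv0 P, Finset.sum_boole]
      congr 1
      rw [← Fintype.card_subtype, ← Nat.card_eq_fintype_card]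
      exact Nat.card_congr ⟨fun φ => ⟨⟨φ.1, φ.2.1⟩, φ.2.2⟩, fun φ => ⟨φ.1.1, φ.1.2, φ.2⟩,
        fun φ => rfl, fun φ => rfl⟩
    have cnt1 : ∀ P : Place k F, max (- ord P.ring f) 0 =
        ∑ φ : Φ, if Place.comap hF hK φ.1 v1 = P then (1 : ℤ) else 0 := by
      intro P
      rw [← ord_inv hF P hf, ← card_cover hF hK f⁻¹ hfinv G hG' v1 hv1 P, Finset.sum_boole]
      congr 1
      rw [← Fintype.card_subtype, ← Nat.card_eq_fintype_card]
      refine Nat.card_congr ⟨fun φ => ⟨⟨φ.1, ?_⟩, φ.2.2⟩, fun φ => ⟨φ.1.1, ?_, φ.2⟩,
        fun φ => rfl, fun φ => rfl⟩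
      · have h := (map_inv₀ φ.1 f).symm.trans (φ.2.1.trans (map_inv₀ (algebraMap F K) f))
        exact inv_injective h
      · rw [map_inv₀, φ.1.2, map_inv₀]
    have hmem : ∀ (P : Place k F), ord P.ring f ≠ 0 → P ∈ S := by
      intro P hP
      rw [hS, Set.Finite.mem_toFinset]
      exact hP
    have s0 : ∑ P ∈ S, max (ord P.ring f) 0 = Fintype.card Φ := by
      rw [Finset.sum_congr rfl (fun P _ => cnt0 P), Finset.sum_comm]
      have : ∀ φ : Φ, ∑ P ∈ S, (if Place.comap hF hK φ.1 v0 = P then (1 : ℤ) else 0) = 1 := by
        intro φ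
        rw [Finset.sum_ite_eq, if_pos]
        apply hmem
        have h1 : f ∈ (Place.comap hF hK φ.1 v0).ring.nonunits := by
          change f ∈ (v0.ring.comap φ.1.toRingHom).nonunits
          rw [mem_nonunits_comap]
          change φ.1 f ∈ _
          rw [φ.2]
          exact hv0
        rw [← ord_pos_iff hF _ hf] at h1
        omega
      rw [Finset.sum_congr rfl (fun φ _ => this φ), Finset.sum_const, Finset.card_univ]
      simp
    have s1 : ∑ P ∈ S, max (- ord P.ring f) 0 = Fintype.card Φ := by
      rw [Finset.sum_congr rfl (fun P _ => cnt1 P), Finset.sum_comm]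
      have : ∀ φ : Φ, ∑ P ∈ S, (if Place.comap hF hK φ.1 v1 = P then (1 : ℤ) else 0) = 1 := by
        intro φ
        rw [Finset.sum_ite_eq, if_pos]
        apply hmem
        have h1 : f⁻¹ ∈ (Place.comap hF hK φ.1 v1).ring.nonunits := by
          change f⁻¹ ∈ (v1.ring.comap φ.1.toRingHom).nonunits
          rw [mem_nonunits_comap]
          change φ.1 f⁻¹ ∈ _
          rw [map_inv₀, φ.2, ← map_inv₀]
          exact hv1
        rw [← ord_pos_iff hF _ (inv_ne_zero hf), ord_inv hF _ hf] at h1
        omega
      rw [Finset.sum_congr rfl (fun φ _ => this φ), Finset.sum_const, Finset.card_univ]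
      simp
    have h2 : ∀ P : Place k F, ord P.ring f = max (ord P.ring f) 0 - max (- ord P.ring f) 0 := by
      intro P
      rcases le_total (ord P.ring f) 0 with h | h
      · rw [max_eq_right h, max_eq_left (by omega)]; ring
      · rw [max_eq_left h, max_eq_right (by omega)]; ring
    rw [Finset.sum_congr rfl (fun P _ => h2 P), Finset.sum_sub_distrib, s0, s1, sub_self]

end basic

end SCVP
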