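import Mathlib
import Pool.Agent.SC.VP0

/-!
# Derivations of function fields at places

`F` is a function field over the algebraically closed field `k` of characteristic zero and `d` is
an additive derivation of `F` which need not vanish on `k`. If `d` maps `k` and one uniformizer at
the place `P` to functions regular at `P`, then `d` preserves the local ring of `P`.
-/

namespace SC

open VC SCVP Polynomial IsDedekindDomain

universe u

variable {k F : Type u} [Field k] [IsAlgClosed k] [CharZero k] [Field F] [Algebra k F]

lemma exists_pow_mul_mem (hF : IsFunctionField k F) (P : Place k F) {t : F} (ht0 : t ≠ 0)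
    (ht : t ∈ P.ring.nonunits) (x : F) : ∃ n : ℕ, ∀ m : ℕ, n ≤ m → t ^ m * x ∈ P.ring := by
  have h1 := (ord_pos_iff hF P ht0).mpr ht
  rcases eq_or_ne x 0 with hx | hx
  · exact ⟨0, fun m _ => by rw [hx, mul_zero]; exact P.ring.zero_mem⟩
  · refine ⟨(-ord P.ring x).toNat, fun m hm => ?_⟩
    rw [← ord_nonneg_iff hF P (mul_ne_zero (pow_ne_zero _ ht0) hx), ord_mul hF P
      (pow_ne_zero _ ht0) hx, ord_pow hF P ht0]
    have h2 : (m : ℤ) ≤ m * ord P.ring t := by
      have : (0 : ℤ) ≤ m := by positivity
      nlinarith
    omega

/-- A derivation which is regular on the constants and on one nonunit is bounded at the place. -/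
theorem deriv_bounded (hF : IsFunctionField k F) (P : Place k F) (d : Derivation ℤ F F)
    (hk : ∀ a : k, d (algebraMap k F a) ∈ P.ring) {t : F} (ht0 : t ≠ 0)
    (ht : t ∈ P.ring.nonunits) (hdt : d t ∈ P.ring) :
    ∃ n : ℕ, ∀ f ∈ P.ring, t ^ n * d f ∈ P.ring := by
  have htr : Transcendental k t := transcendental_of_mem_nonunits P ht0 ht
  have hfin := hF.finiteDimensional htr
  let i1 : Algebra k[X] F := polyAlg t
  let i3 : Algebra (RatFunc k) F := ratAlg t htr
  have s1 : IsScalarTower k k[X] F := IsScalarTower.of_algebraMap_eq (fun x =>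
    (aeval t : k[X] →ₐ[k] F).commutes x |>.symm)
  have s3 : IsScalarTower k[X] (RatFunc k) F := IsScalarTower.of_algebraMap_eq (fun x =>
    (ratAlg_poly t htr x).symm)
  have f1 : FiniteDimensional (RatFunc k) F := finiteDimensional_ratAlg t htr hfin
  have hc0 : CharZero (RatFunc k) :=
    charZero_of_injective_algebraMap (algebraMap k (RatFunc k)).injective
  have hBd : IsDedekindDomain (integralClosure k[X] F) :=
    integralClosure.isDedekindDomain k[X] (RatFunc k) F
  have hBf : IsFractionRing (integralClosure k[X] F) F :=
    integralClosure.isFractionRing_of_finite_extension (RatFunc k) F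
  have hBfin : Module.Finite k[X] (integralClosure k[X] F) :=
    IsIntegralClosure.finite k[X] (RatFunc k) F (integralClosure k[X] F)
  have f1 : FaithfulSMul k[X] (integralClosure k[X] F) := by
    rw [faithfulSMul_iff_algebraMap_injective]
    intro x y hxy
    have h := congrArg (algebraMap (integralClosure k[X] F) F) hxy
    rw [← IsScalarTower.algebraMap_apply, ← IsScalarTower.algebraMap_apply,
      IsScalarTower.algebraMap_apply k[X] (RatFunc k) F,
      IsScalarTower.algebraMap_apply k[X] (RatFunc k) F] at h
    exact IsFractionRing.injective k[X] (RatFunc k) ((algebraMap (RatFunc k) F).injective h)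
  have hP : OverZero P := by
    unfold OverZero
    have : algebraMap k[X] F X = t := by
      change aeval t X = t
      simp
    rw [this]
    exact ht
  have htP : t ∈ P.ring := ValuationSubring.nonunits_subset ht
  -- polynomials in `t`
  have hpoly : ∀ p : k[X], aeval t p ∈ P.ring ∧ d (aeval t p) ∈ P.ring := by
    intro p
    induction p using Polynomial.induction_on with
    | C a => rw [aeval_C]; exact ⟨P.algebraMap_mem a, hk a⟩
    | add p q hp hq =>
      rw [map_add, map_add]
      exact ⟨P.ring.add_mem _ _ hp.1 hq.1, P.ring.add_mem _ _ hp.2 hq.2⟩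
    | monomial n a ih =>
      rw [pow_succ, ← mul_assoc, map_mul, aeval_X, Derivation.leibniz, smul_eq_mul, smul_eq_mul]
      exact ⟨P.ring.mul_mem _ _ ih.1 htP, P.ring.add_mem _ _ (P.ring.mul_mem _ _ ih.1 hdt)
        (P.ring.mul_mem _ _ htP ih.2)⟩
  obtain ⟨S, hS⟩ := hBfin.fg_top
  -- a common bound for the generators
  obtain ⟨n, hn⟩ : ∃ n : ℕ, ∀ b ∈ S, t ^ n * d (b : F) ∈ P.ring := by
    choose N hN using fun b : integralClosure k[X] F => exists_pow_mul_mem hF P ht0 ht (d (b : F))
    exact ⟨S.sup N, fun b hb => hN b _ (Finset.le_sup hb)⟩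
  have hB : ∀ b : integralClosure k[X] F, t ^ n * d (b : F) ∈ P.ring := by
    intro b
    have hb : b ∈ Submodule.span k[X] (S : Set (integralClosure k[X] F)) := by
      rw [hS]; exact Submodule.mem_top
    induction hb using Submodule.span_induction with
    | mem x hx => exact hn x hx
    | zero => simp
    | add x y _ _ hx hy =>
      have : ((x + y : integralClosure k[X] F) : F) = (x : F) + (y : F) := rfl
      rw [this, map_add, mul_add]
      exact P.ring.add_mem _ _ hx hy
    | smul p x _ hx =>
      have e : ((p • x : integralClosure k[X] F) : F) = aeval t p * (x : F) := by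
        rw [show ((p • x : integralClosure k[X] F) : F) = p • (x : F) from rfl, Algebra.smul_def]
        rfl
      rw [e, Derivation.leibniz, smul_eq_mul, smul_eq_mul]
      have hxP : (x : F) ∈ P.ring := integral_mem P hP _ x.2
      have h3 : t ^ n * (aeval t p * d (x : F) + (x : F) * d (aeval t p)) =
          aeval t p * (t ^ n * d (x : F)) + t ^ n * ((x : F) * d (aeval t p)) := by ring
      rw [h3]
      exact P.ring.add_mem _ _ (P.ring.mul_mem _ _ (hpoly p).1 hx)
        (P.ring.mul_mem _ _ (pow_mem htP n) (P.ring.mul_mem _ _ hxP (hpoly p).2))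
  refine ⟨n, fun f hf => ?_⟩
  have hf' : (hos (integralClosure k[X] F) P hP).valuation F f ≤ 1 := by
    rw [← valuationSubring_hos (integralClosure k[X] F) P hP] at hf
    exact hf
  obtain ⟨a, s, has⟩ := HeightOneSpectrum.exists_primeCompl_mul_eq_of_integer
    (hos (integralClosure k[X] F) P hP) f hf'
  have hs : algebraMap (integralClosure k[X] F) F s ∉ P.ring.nonunits := by
    rw [← mem_center (integralClosure k[X] F) P hP]
    exact s.2
  have hs0 : algebraMap (integralClosure k[X] F) F s ≠ 0 := by
    intro h
    rw [h] at hs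
    exact hs ((ValuationSubring.mem_nonunits_iff_or _).mpr (Or.inl rfl))
  have hsinv : (algebraMap (integralClosure k[X] F) F s)⁻¹ ∈ P.ring := by
    by_contra hcon
    exact hs ((ValuationSubring.mem_nonunits_iff_or _).mpr (Or.inr hcon))
  set sF : F := algebraMap (integralClosure k[X] F) F s with hsF
  have h4 : d (f * sF) = f * d sF + sF * d f := by
    rw [Derivation.leibniz, smul_eq_mul, smul_eq_mul]
  have h5 : t ^ n * d f = sF⁻¹ * (t ^ n * d (algebraMap (integralClosure k[X] F) F a)
      - f * (t ^ n * d sF)) := by
    rw [← has, h4]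
    field_simp
    ring
  rw [h5]
  exact P.ring.mul_mem _ _ hsinv (P.ring.sub_mem (hB a) (P.ring.mul_mem _ _ hf (hB s.1)))

/-- **Regularity of derivations.** If the derivation `d` maps the constants and one uniformizer
`t` at the place `P` to the local ring of `P`, then it preserves this local ring. -/
theorem deriv_mem (hF : IsFunctionField k F) (P : Place k F) (d : Derivation ℤ F F)
    (hk : ∀ a : k, d (algebraMap k F a) ∈ P.ring) {t : F} (ht0 : t ≠ 0)
    (ht : ord P.ring t = 1) (hdt : d t ∈ P.ring) : ∀ f ∈ P.ring, d f ∈ P.ring := by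
  have htn : t ∈ P.ring.nonunits := by rw [← ord_pos_iff hF P ht0]; omega
  have htP : t ∈ P.ring := ValuationSubring.nonunits_subset htn
  obtain ⟨n, hn⟩ := deriv_bounded hF P d hk ht0 htn hdt
  induction n with
  | zero =>
    intro f hf
    have := hn f hf
    rwa [pow_zero, one_mul] at this
  | succ n ih =>
    apply ih
    intro f hf
    obtain ⟨c, hc⟩ := exists_residue hF P hf
    -- `f = c + t g`
    set g : F := (f - algebraMap k F c) / t with hg
    have hgt : f = algebraMap k F c + t * g := by rw [hg]; field_simp; ring
    have hgP : g ∈ P.ring := by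
      rcases eq_or_ne (f - algebraMap k F c) 0 with h0 | h0
      · rw [hg, h0, zero_div]; exact P.ring.zero_mem
      · rw [← ord_nonneg_iff hF P (div_ne_zero h0 ht0), div_eq_mul_inv,
          ord_mul hF P h0 (inv_ne_zero ht0), ord_inv hF P ht0, ht]
        rw [← ord_pos_iff hF P h0] at hc
        omega
    have h1 : t ^ n * d f = t ^ n * d (algebraMap k F c) + (t ^ (n + 1) * d g
        + t ^ n * (g * d t)) := by
      conv_lhs => rw [hgt]
      rw [map_add, Derivation.leibniz, smul_eq_mul, smul_eq_mul]
      ring
    rw [h1]
    exact P.ring.add_mem _ _ (P.ring.mul_mem _ _ (pow_mem htP n) (hk c))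
      (P.ring.add_mem _ _ (hn g hgP)
        (P.ring.mul_mem _ _ (pow_mem htP n) (P.ring.mul_mem _ _ hgP hdt)))

end SC
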