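import Mathlib

/-!
# One-point rings

`k` is a field and `B` a `k`-algebra: the ring of functions on a smooth projective curve over `k`
which are regular away from one rational point.  `deg b` is the order of the pole of `b`.
-/

universe u v

namespace Pool.Agent.SC

open Module

/-- The degree function (pole order at the point at infinity) of a one-point ring. -/
structure OnePt (k : Type u) (B : Type v) [Field k] [CommRing B] [Algebra k B]
    (deg : B → ℕ) : Prop where
  deg_const : ∀ c : k, deg (algebraMap k B c) = 0
  deg_mul : ∀ a b : B, a ≠ 0 → b ≠ 0 → deg (a * b) = deg a + deg b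
  deg_add : ∀ a b : B, deg (a + b) ≤ max (deg a) (deg b)
  lead : ∀ a b : B, a ≠ 0 → b ≠ 0 → deg a = deg b →
    ∃ c : k, a = c • b ∨ deg (a - c • b) < deg b
  large : ∃ N : ℕ, ∀ n, N ≤ n → ∃ b : B, b ≠ 0 ∧ deg b = n

/-- The semigroup of degrees. -/
def degSet {B : Type v} [CommRing B] (deg : B → ℕ) : Set ℕ := {m | ∃ b : B, b ≠ 0 ∧ deg b = m}

/-- An ideal is nonzero and its class is killed by a power of `ℓ`. -/
def PowTor {B : Type v} [CommRing B] (ℓ : ℕ) (I : Ideal B) : Prop :=
  I ≠ ⊥ ∧ ∃ n : ℕ, (I ^ ℓ ^ n).IsPrincipal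

/-- Two ideals are in the same class. -/
def SameClass {B : Type v} [CommRing B] (I J : Ideal B) : Prop :=
  ∃ a b : B, a ≠ 0 ∧ b ≠ 0 ∧ Ideal.span {a} * I = Ideal.span {b} * J

/-- A graded basis of a one-point ring which is integral with respect to the valuation ring `O`
of the constants: `E m` has degree `m`, the structure constants are in `O` and the leading
structure constants are units of `O`. -/
structure IntBasis {k : Type u} {B : Type v} [Field k] [CommRing B] [Algebra k B]
    (O : ValuationSubring k) (deg : B → ℕ) (E : Basis (degSet deg) k B) : Prop where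
  deg_E : ∀ m, deg (E m) = m
  one : ∀ m : degSet deg, (m : ℕ) = 0 → E m = 1
  int : ∀ m m' i, E.repr (E m * E m') i ∈ O
  lead : ∀ m m' i : degSet deg, (i : ℕ) = m + m' → (E.repr (E m * E m') i)⁻¹ ∈ O

section Reduction

variable {k : Type u} {B : Type v} [Field k] [CommRing B] [Algebra k B]
  {O : ValuationSubring k} {deg : B → ℕ} {E : Basis (degSet deg) k B}

theorem zero_mem_degSet [Nontrivial B] (h : OnePt k B deg) : 0 ∈ degSet deg :=
  ⟨1, one_ne_zero, by have := h.deg_const 1; rwa [map_one] at this⟩

theorem IntBasis.repr_one [Nontrivial B] (h : OnePt k B deg) (hE : IntBasis O deg E)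
    (i : degSet deg) : E.repr 1 i ∈ O := by
  classical
  have h1 := hE.one ⟨0, zero_mem_degSet h⟩ rfl
  rw [← h1, E.repr_self, Finsupp.single_apply]
  split_ifs
  · exact O.one_mem
  · exact O.zero_mem

theorem IntBasis.repr_mul_mem (hE : IntBasis O deg E) {a b : B}
    (ha : ∀ i, E.repr a i ∈ O) (hb : ∀ i, E.repr b i ∈ O) (i : degSet deg) :
    E.repr (a * b) i ∈ O := by
  classical
  have h1 : a * b = ∑ x ∈ (E.repr a).support, ∑ y ∈ (E.repr b).support,
      (E.repr a x * E.repr b y) • (E x * E y) := by
    conv_lhs => rw [← E.linearCombination_repr a, ← E.linearCombination_repr b]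
    rw [Finsupp.linearCombination_apply, Finsupp.linearCombination_apply, Finsupp.sum, Finsupp.sum,
      Finset.sum_mul_sum]
    refine Finset.sum_congr rfl fun x _ => Finset.sum_congr rfl fun y _ => ?_
    rw [smul_mul_smul_comm]
  rw [h1, map_sum, Finsupp.finsetSum_apply]
  refine O.toSubring.sum_mem fun x _ => ?_
  rw [map_sum, Finsupp.finsetSum_apply]
  refine O.toSubring.sum_mem fun y _ => ?_
  rw [map_smul, Finsupp.smul_apply, smul_eq_mul]
  exact O.mul_mem _ _ (O.mul_mem _ _ (ha x) (hb y)) (hE.int x y i)

/-- The subring of the integral elements of `B`. -/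
def BO [Nontrivial B] (h : OnePt k B deg) (hE : IntBasis O deg E) : Subring B where
  carrier := {b | ∀ i, E.repr b i ∈ O}
  mul_mem' := fun ha hb i => hE.repr_mul_mem ha hb i
  one_mem' := fun i => hE.repr_one h i
  add_mem' := fun ha hb i => by
    rw [map_add, Finsupp.add_apply]; exact O.add_mem _ _ (ha i) (hb i)
  zero_mem' := fun i => by rw [map_zero]; exact O.zero_mem
  neg_mem' := fun ha i => by rw [map_neg, Finsupp.neg_apply]; exact O.neg_mem _ (ha i)

theorem mem_BO [Nontrivial B] {h : OnePt k B deg} {hE : IntBasis O deg E} {b : B} :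
    b ∈ BO h hE ↔ ∀ i, E.repr b i ∈ O := Iff.rfl

/-- The ideal of the elements with coefficients in the maximal ideal of `O`. -/
def mB [Nontrivial B] (h : OnePt k B deg) (hE : IntBasis O deg E) : Ideal (BO h hE) where
  carrier := {b | ∀ i, O.valuation (E.repr (b : B) i) < 1}
  add_mem' := fun {a b} ha hb i => by
    have h1 : E.repr ((a + b : BO h hE) : B) i = E.repr (a : B) i + E.repr (b : B) i := by
      rw [Subring.coe_add, map_add, Finsupp.add_apply]
    change O.valuation (E.repr ((a + b : BO h hE) : B) i) < 1
    rw [h1]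
    exact O.valuation.map_add_lt (ha i) (hb i)
  zero_mem' := fun i => by simp
  smul_mem' := fun c b hb i => by
    classical
    rw [smul_eq_mul, Subring.coe_mul]
    have h1 : (c : B) * (b : B) = ∑ x ∈ (E.repr (c : B)).support, ∑ y ∈ (E.repr (b : B)).support,
        (E.repr (c : B) x * E.repr (b : B) y) • (E x * E y) := by
      conv_lhs => rw [← E.linearCombination_repr (c : B), ← E.linearCombination_repr (b : B)]
      rw [Finsupp.linearCombination_apply, Finsupp.linearCombination_apply, Finsupp.sum,
        Finsupp.sum, Finset.sum_mul_sum]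
      refine Finset.sum_congr rfl fun x _ => Finset.sum_congr rfl fun y _ => ?_
      rw [smul_mul_smul_comm]
    rw [h1, map_sum, Finsupp.finsetSum_apply]
    refine Valuation.map_sum_lt _ one_ne_zero fun x _ => ?_
    rw [map_sum, Finsupp.finsetSum_apply]
    refine Valuation.map_sum_lt _ one_ne_zero fun y _ => ?_
    rw [map_smul, Finsupp.smul_apply, smul_eq_mul, map_mul, map_mul]
    have h2 := (O.valuation_le_one_iff _).2 (c.2 x)
    have h3 := (O.valuation_le_one_iff _).2 (hE.int x y i)
    have h4 := hb y
    calc O.valuation (E.repr (c : B) x) * O.valuation (E.repr (b : B) y) *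
          O.valuation (E.repr (E x * E y) i)
        ≤ 1 * O.valuation (E.repr (b : B) y) * 1 := by gcongr
      _ = O.valuation (E.repr (b : B) y) := by rw [one_mul, mul_one]
      _ < 1 := h4

theorem mem_mB [Nontrivial B] {h : OnePt k B deg} {hE : IntBasis O deg E} {b : BO h hE} :
    b ∈ mB h hE ↔ ∀ i, O.valuation (E.repr (b : B) i) < 1 := Iff.rfl

/-- The reduction of `B`. -/
abbrev Bbar [Nontrivial B] (h : OnePt k B deg) (hE : IntBasis O deg E) : Type v :=
  BO h hE ⧸ mB h hE

/-- The inclusion of the constants. -/
def constBO [Nontrivial B] (h : OnePt k B deg) (hE : IntBasis O deg E) : O →+* BO h hE :=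
  ((algebraMap k B).comp O.subtype).codRestrict (BO h hE) fun c i => by
    classical
    have h1 := hE.one ⟨0, zero_mem_degSet h⟩ rfl
    change E.repr (algebraMap k B (c : k)) i ∈ O
    rw [Algebra.algebraMap_eq_smul_one, map_smul, Finsupp.smul_apply, smul_eq_mul]
    exact O.mul_mem _ _ c.2 (hE.repr_one h i)

/-- The structure of an algebra over the residue field. -/
noncomputable def resMap [Nontrivial B] (h : OnePt k B deg) (hE : IntBasis O deg E) :
    IsLocalRing.ResidueField O →+* Bbar h hE :=
  Ideal.Quotient.lift (IsLocalRing.maximalIdeal O)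
    ((Ideal.Quotient.mk (mB h hE)).comp (constBO h hE)) fun c hc => by
      rw [RingHom.comp_apply, Ideal.Quotient.eq_zero_iff_mem, mem_mB]
      intro i
      change O.valuation (E.repr (algebraMap k B (c : k)) i) < 1
      rw [Algebra.algebraMap_eq_smul_one, map_smul, Finsupp.smul_apply, smul_eq_mul, map_mul]
      have h2 := (O.valuation_lt_one_iff c).1 hc
      have h3 := (O.valuation_le_one_iff _).2 (hE.repr_one h i)
      calc O.valuation (c : k) * O.valuation (E.repr 1 i) ≤ O.valuation (c : k) * 1 := by gcongr
        _ < 1 := by rwa [mul_one]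

noncomputable instance [Nontrivial B] (h : OnePt k B deg) (hE : IntBasis O deg E) :
    Algebra (IsLocalRing.ResidueField O) (Bbar h hE) := (resMap h hE).toAlgebra

/-- The reduction of an ideal of `B`. -/
noncomputable def redI [Nontrivial B] (h : OnePt k B deg) (hE : IntBasis O deg E) (I : Ideal B) :
    Ideal (Bbar h hE) :=
  (I.comap (BO h hE).subtype).map (Ideal.Quotient.mk (mB h hE))

end Reduction

end Pool.Agent.SC
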