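import Mathlib
import Pool.Agent.Helper26.VC.Cycles
import Pool.Agent.Helper91.Section.Basic
import Pool.Agent.SC.Defs

/-!
# Function fields over an algebraically closed field: definitions for MP_e66f84_ag

Language: `VC.Place`, `VC.ord`, `VC.IsFunctionField`, `VC.riemannRochSpace` (Helper26/VC).
-/

universe u

namespace Pool.Agent.SC

open VC

section Ring

variable {k F : Type u} [Field k] [Field F] [Algebra k F]

/-- The ring of the functions regular away from the point `P0`. -/
def ringAway (P0 : Place k F) : Subalgebra k F where
  carrier := {f | ∀ P : Place k F, P ≠ P0 → f ∈ P.ring}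
  mul_mem' := fun ha hb P hP => P.ring.mul_mem _ _ (ha P hP) (hb P hP)
  add_mem' := fun ha hb P hP => P.ring.add_mem _ _ (ha P hP) (hb P hP)
  algebraMap_mem' := fun c P _ => P.algebraMap_mem c

/-- The order of the pole at `P0`. -/
noncomputable def degAway (P0 : Place k F) (b : ringAway P0) : ℕ := (-ord P0.ring (b : F)).toNat

/-- Riemann's inequality. -/
def Riemann (k F : Type u) [Field k] [Field F] [Algebra k F] : Prop :=
  ∃ g : ℕ, ∀ D : Place k F →₀ ℤ,
    (D.sum fun _ m => m) + 1 ≤ (Module.finrank k (riemannRochSpace k F D) : ℤ) + g

/-- The group of divisor classes of degree zero is divisible. -/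
def PicDiv (k F : Type u) [Field k] [Field F] [Algebra k F] : Prop :=
  ∀ n : ℕ, 0 < n → ∀ D : Place k F →₀ ℤ, (D.sum fun _ m => m) = 0 →
    ∃ (D' : Place k F →₀ ℤ) (c : F), c ≠ 0 ∧ ∀ P, D P = n * D' P + ord P.ring c

end Ring

section Cover

/-- `U` is a maximal unramified extension of the function field `M` over the algebraically closed
field `E` (in the form in which this is used): `U / M` is Galois, its valuation rings containing
`E` have the same values as `M`, and an element of `U` all of whose values are `n`-th powers is an
`n`-th power. -/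
structure IsCover {E U : Type u} [Field E] [Field U] [Algebra E U] (M : IntermediateField E U) :
    Prop where
  ff : IsFunctionField E M
  gal : IsGalois M U
  unr : ∀ W : ValuationSubring U, (∀ c : E, algebraMap E U c ∈ W) → ∀ u : U,
    ∃ m ∈ M, W.valuation u = W.valuation m
  root : ∀ (u : U) (n : ℕ), 0 < n →
    (∀ W : ValuationSubring U, (∀ c : E, algebraMap E U c ∈ W) →
      ∃ v : U, W.valuation u = W.valuation (v ^ n)) → ∃ w : U, w ^ n = u

end Cover

end Pool.Agent.SC
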