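import Mathlib

/-!
# Extending derivations to algebraic extensions, and kernels of derivations
-/

namespace SC

open Polynomial TensorProduct

/-- Derivations extend along formally etale algebras. -/
theorem exists_deriv_ext {A B : Type*} [CommRing A] [CommRing B] [Algebra A B]
    [Algebra.FormallyEtale A B] (d : Derivation ℤ A A) :
    ∃ d' : Derivation ℤ B B, ∀ a : A, d' (algebraMap A B a) = algebraMap A B (d a) := by
  -- the linear map `Ω[A/ℤ] → B`
  let φ : Ω[A⁄ℤ] →ₗ[A] B := (Algebra.linearMap A B).comp d.liftKaehlerDifferential
  let ψ : B ⊗[A] Ω[A⁄ℤ] →ₗ[B] B := LinearMap.liftBaseChange B φ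
  let e := KaehlerDifferential.tensorKaehlerEquivOfFormallyEtale ℤ A B
  let χ : Ω[B⁄ℤ] →ₗ[B] B := ψ.comp e.symm.toLinearMap
  refine ⟨χ.compDer (KaehlerDifferential.D ℤ B), fun a => ?_⟩
  change ψ (e.symm (KaehlerDifferential.D ℤ B (algebraMap A B a))) = _
  rw [KaehlerDifferential.tensorKaehlerEquivOfFormallyEtale_symm_D_algebraMap]
  change LinearMap.liftBaseChange B φ _ = _
  rw [LinearMap.liftBaseChange_tmul, one_smul]
  change algebraMap A B (d.liftKaehlerDifferential (KaehlerDifferential.D ℤ A a)) = _
  rw [Derivation.liftKaehlerDifferential_comp_D]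

section kernel

variable {B : Type*} [Field B]

/-- The kernel of a derivation of a field is a subfield. -/
def kerDer (d : Derivation ℤ B B) : Subfield B where
  carrier := {x | d x = 0}
  mul_mem' := by
    intro a b ha hb
    change d (a * b) = 0
    rw [Derivation.leibniz, show d a = 0 from ha, show d b = 0 from hb]
    simp
  one_mem' := d.map_one_eq_zero
  add_mem' := by
    intro a b ha hb
    change d (a + b) = 0
    rw [map_add, show d a = 0 from ha, show d b = 0 from hb, add_zero]
  zero_mem' := map_zero d
  neg_mem' := by
    intro a ha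
    change d (-a) = 0
    rw [map_neg, show d a = 0 from ha, neg_zero]
  inv_mem' := by
    intro a ha
    change d (a⁻¹) = 0
    rw [Derivation.leibniz_inv, show d a = 0 from ha, smul_zero]

lemma mem_kerDer (d : Derivation ℤ B B) (x : B) : x ∈ kerDer d ↔ d x = 0 := Iff.rfl

/-- In characteristic zero an element algebraic over a field of constants of a derivation is a
constant. -/
theorem deriv_eq_zero_of_isAlgebraic [CharZero B] (d : Derivation ℤ B B) {C : Type*} [Field C]
    [Algebra C B] (hC : ∀ c : C, d (algebraMap C B c) = 0) {b : B} (hb : IsAlgebraic C b) :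
    d b = 0 := by
  have hcz : CharZero C := by
    refine ⟨fun m n h => ?_⟩
    have h1 := congrArg (algebraMap C B) h
    rw [map_natCast, map_natCast] at h1
    exact Nat.cast_injective h1
  let d' : Derivation C B B :=
    { toFun := d
      map_add' := map_add d
      map_smul' := by
        intro c x
        rw [Algebra.smul_def, Derivation.leibniz, hC, RingHom.id_apply, smul_zero, add_zero,
          smul_eq_mul]
        exact (Algebra.smul_def c (d x)).symm
      map_one_eq_zero' := d.map_one_eq_zero
      leibniz' := fun a b => d.leibniz a b }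
  have hint : IsIntegral C b := hb.isIntegral
  have h1 : d' (aeval b (minpoly C b)) = 0 := by rw [minpoly.aeval, map_zero]
  rw [Derivation.map_aeval] at h1
  have h2 : aeval b (derivative (minpoly C b)) ≠ 0 := by
    apply Polynomial.Separable.aeval_derivative_ne_zero (minpoly.irreducible hint).separable
    exact minpoly.aeval C b
  rw [smul_eq_mul] at h1
  exact (mul_eq_zero.mp h1).resolve_left h2

/-- A version for subfields. -/
theorem deriv_eq_zero_of_isAlgebraic' [CharZero B] (d : Derivation ℤ B B) {b : B}
    (hb : IsAlgebraic (kerDer d) b) : d b = 0 :=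
  deriv_eq_zero_of_isAlgebraic d (fun c : kerDer d => c.2) hb

end kernel

end SC
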