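import Mathlib
import Pool.Agent.SC.DerivExt

/-!
# The derivations of an extension of algebraically closed fields have the small field as constants
-/

namespace SC

open IntermediateField
open scoped algebraAdjoinAdjoin

/-- In characteristic zero every transcendental element is moved by a derivation. -/
theorem exists_deriv_ne_zero {k L : Type*} [Field k] [Field L] [Algebra k L] [CharZero k] {c : L}
    (hc : Transcendental k c) :
    ∃ d : Derivation ℤ L L, (∀ a : k, d (algebraMap k L a) = 0) ∧ d c ≠ 0 := by
  have h0 : AlgebraicIndepOn k id ({c} : Set L) := by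
    have := (algebraicIndependent_unique_type_iff (R := k) (x := fun i : ({c} : Set L) => (i : L)))
    rw [AlgebraicIndepOn]
    exact this.mpr hc
  obtain ⟨t, hct, ht⟩ := exists_isTranscendenceBasis_superset h0
  have hcm : c ∈ t := hct rfl
  let x : t → L := fun i => (i : L)
  let e := ht.1.aevalEquiv
  let i1 : Differential (MvPolynomial t k) :=
    ⟨(MvPolynomial.pderiv (⟨c, hcm⟩ : t)).restrictScalars ℤ⟩
  let i2 : Differential (Algebra.adjoin k (Set.range ((↑) : t → L))) :=
    Differential.equiv e.symm.toRingEquiv
  have halg := ht.isAlgebraic_field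
  have hcz : CharZero (IntermediateField.adjoin k (Set.range ((↑) : t → L))) :=
    charZero_of_injective_algebraMap (algebraMap k _).injective
  have e2 : Algebra.FormallyEtale (IntermediateField.adjoin k (Set.range ((↑) : t → L))) L :=
    Algebra.FormallyEtale.of_isSeparable _ _
  have e1 : Algebra.FormallyEtale (Algebra.adjoin k (Set.range ((↑) : t → L)))
      (IntermediateField.adjoin k (Set.range ((↑) : t → L))) :=
    Algebra.FormallyEtale.of_isLocalization (nonZeroDivisors _)
  have e3 : Algebra.FormallyEtale (Algebra.adjoin k (Set.range ((↑) : t → L))) L :=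
    Algebra.FormallyEtale.comp _ (IntermediateField.adjoin k (Set.range ((↑) : t → L))) _
  obtain ⟨d, hd⟩ := exists_deriv_ext (B := L) i2.deriv
  have hval : ∀ p : MvPolynomial t k, d (e p : L) = (e (MvPolynomial.pderiv (⟨c, hcm⟩ : t) p) : L) := by
    intro p
    refine (hd (e p)).trans ?_
    change ((e ((MvPolynomial.pderiv (⟨c, hcm⟩ : t)) (e.symm (e p))) : Algebra.adjoin k _) : L) = _
    rw [e.symm_apply_apply]
  refine ⟨d, fun a => ?_, ?_⟩
  · have h1 := hval (MvPolynomial.C a)
    rw [MvPolynomial.pderiv_C, map_zero] at h1
    have h2 : (e (MvPolynomial.C a) : L) = algebraMap k L a := by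
      change ((ht.1.aevalEquiv (MvPolynomial.C a) : Algebra.adjoin k _) : L) = _
      have := e.commutes a
      rw [← MvPolynomial.algebraMap_eq]
      rw [this]
      rfl
    rw [h2] at h1
    rw [h1]
    rfl
  · have h1 := hval (MvPolynomial.X ⟨c, hcm⟩)
    rw [MvPolynomial.pderiv_X_self, map_one] at h1
    have h2 : (e (MvPolynomial.X ⟨c, hcm⟩) : L) = c := by
      have := ht.1.algebraMap_aevalEquiv (MvPolynomial.X ⟨c, hcm⟩)
      rw [MvPolynomial.aeval_X] at this
      exact this
    rw [h2] at h1
    rw [h1]
    simp

/-- All derivations of `L` which vanish on `k`. -/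
abbrev AllDer (k L : Type*) [Field k] [Field L] [Algebra k L] : Type _ :=
  {d : Derivation ℤ L L // ∀ a : k, d (algebraMap k L a) = 0}

/-- If `k` is algebraically closed of characteristic zero, the common constants of all
derivations of `L / k` are the elements of `k`. -/
theorem exists_of_forall_deriv_eq_zero {k L : Type*} [Field k] [IsAlgClosed k] [CharZero k]
    [Field L] [Algebra k L] {c : L} (hc : ∀ d : AllDer k L, d.1 c = 0) :
    ∃ b : k, algebraMap k L b = c := by
  by_contra hcon
  have hct : Transcendental k c := by
    intro h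
    exact hcon (minpoly.mem_range_of_degree_eq_one k c
      (IsAlgClosed.degree_eq_one_of_irreducible k (minpoly.irreducible h.isIntegral)))
  obtain ⟨d, hd1, hd2⟩ := exists_deriv_ne_zero hct
  exact hd2 (hc ⟨d, hd1⟩)

end SC
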