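import Mathlib

/-!
# Differential submodules of trivial differential modules

A subspace of `ι → K`, `ι` finite, which is stable under a family of derivations of `K` acting on
the coordinates is spanned by vectors with constant coordinates.
-/

namespace SC

open Function

variable {K : Type*} [Field K] {J : Type*} (d0 : J → Derivation ℤ K K)

theorem le_span_horizontal {ι : Type*} [Finite ι] (V : Submodule K (ι → K))
    (hV : ∀ j, ∀ v ∈ V, (fun i => d0 j (v i)) ∈ V) :
    V ≤ Submodule.span K {v | v ∈ V ∧ ∀ j i, d0 j (v i) = 0} := by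
  classical
  have : Fintype ι := Fintype.ofFinite ι
  -- the size of the support
  let sz : (ι → K) → ℕ := fun v => (Finset.univ.filter (fun i => v i ≠ 0)).card
  have hsz : ∀ v w : ι → K, (∀ i, v i = 0 → w i = 0) → (∃ i, v i ≠ 0 ∧ w i = 0) → sz w < sz v := by
    rintro v w h ⟨i, h1, h2⟩
    apply Finset.card_lt_card
    rw [Finset.ssubset_iff_of_subset]
    · exact ⟨i, by simp [h1], by simp [h2]⟩
    · intro j hj
      simp only [Finset.mem_filter, Finset.mem_univ, true_and] at hj ⊢
      exact fun h0 => hj (h j h0)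
  have key : ∀ n : ℕ, ∀ v ∈ V, sz v ≤ n →
      v ∈ Submodule.span K {v | v ∈ V ∧ ∀ j i, d0 j (v i) = 0} := by
    intro n
    induction n with
    | zero =>
      intro v _ hn
      have hv0 : v = 0 := by
        funext i
        by_contra hne
        have h1 : 0 < sz v := Finset.card_pos.mpr ⟨i, by simpa using hne⟩
        omega
      rw [hv0]
      exact Submodule.zero_mem _
    | succ n ih =>
      intro v hv hn
      by_cases hv0 : v = 0
      · rw [hv0]; exact Submodule.zero_mem _
      -- a nonzero vector of minimal support inside the support of `v`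
      let P : ℕ → Prop := fun m => ∃ w ∈ V, w ≠ 0 ∧ (∀ i, v i = 0 → w i = 0) ∧ sz w = m
      have hP : ∃ m, P m := ⟨sz v, v, hv, hv0, fun i h => h, rfl⟩
      obtain ⟨w, hwV, hw0, hwv, hwsz⟩ := Nat.find_spec hP
      obtain ⟨i, hi⟩ : ∃ i, w i ≠ 0 := by
        by_contra hcon
        push Not at hcon
        exact hw0 (funext hcon)
      set w' : ι → K := (w i)⁻¹ • w with hw'
      have hw'V : w' ∈ V := V.smul_mem _ hwV
      have hw'i : w' i = 1 := by
        rw [hw', Pi.smul_apply, smul_eq_mul, inv_mul_cancel₀ hi]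
      have hw'supp : ∀ j, w j = 0 → w' j = 0 := by
        intro j hj
        rw [hw', Pi.smul_apply, hj, smul_zero]
      have hdw : ∀ l, (fun j => d0 l (w' j)) = 0 := by
        intro l
        by_contra hne
        have h1 : sz (fun j => d0 l (w' j)) < sz w := by
          apply hsz
          · intro j hj
            rw [hw'supp j hj, map_zero]
          · refine ⟨i, hi, ?_⟩
            rw [hw'i]
            exact (d0 l).map_one_eq_zero
        rw [hwsz] at h1
        exact Nat.find_min hP h1 ⟨_, hV l w' hw'V, hne, fun j hj => by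
          rw [hw'supp j (hwv j hj), map_zero], rfl⟩
      have hvi : v i ≠ 0 := fun h => hi (hwv i h)
      have h2 : v - v i • w' ∈ Submodule.span K {v | v ∈ V ∧ ∀ j i, d0 j (v i) = 0} := by
        apply ih _ (V.sub_mem hv (V.smul_mem _ hw'V))
        have h3 : sz (v - v i • w') < sz v := by
          apply hsz
          · intro j hj
            rw [Pi.sub_apply, Pi.smul_apply, hj, hw'supp j (hwv j hj), smul_zero, sub_zero]
          · refine ⟨i, hvi, ?_⟩
            rw [Pi.sub_apply, Pi.smul_apply, hw'i, smul_eq_mul, mul_one, sub_self]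
        omega
      have h4 : v = (v - v i • w') + v i • w' := by abel
      rw [h4]
      refine Submodule.add_mem _ h2 (Submodule.smul_mem _ _ (Submodule.subset_span ⟨hw'V, ?_⟩))
      exact fun l j => congrFun (hdw l) j
  intro v hv
  exact key _ v hv le_rfl

/-- A submodule of a differential module which embeds into a finite trivial differential module
is spanned by its constants. -/
theorem le_span_horizontal' {ι : Type*} [Finite ι] {N : Type*} [AddCommGroup N] [Module K N]
    (δ : J → N → N) (V : Submodule K N) (hV : ∀ j, ∀ v ∈ V, δ j v ∈ V) (ev : V →ₗ[K] (ι → K))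
    (hinj : Injective ev)
    (hev : ∀ (j : J) (v : V) (i : ι), ev ⟨δ j v, hV j v v.2⟩ i = d0 j (ev v i)) :
    V ≤ Submodule.span K {v | v ∈ V ∧ ∀ j, δ j v = 0} := by
  intro v hv
  have h1 : ev ⟨v, hv⟩ ∈ LinearMap.range ev := ⟨_, rfl⟩
  have h2 := le_span_horizontal d0 (LinearMap.range ev) (by
    rintro j _ ⟨w, rfl⟩
    exact ⟨⟨δ j w, hV j w w.2⟩, funext fun i => hev j w i⟩) h1
  have h3 : {w | w ∈ LinearMap.range ev ∧ ∀ j i, d0 j (w i) = 0} ⊆
      ev '' {w : V | ∀ j, δ j w = 0} := by
    rintro _ ⟨⟨w, rfl⟩, hw⟩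
    refine ⟨w, fun j => ?_, rfl⟩
    have h4 : (⟨δ j w, hV j w w.2⟩ : V) = 0 := by
      apply hinj
      rw [map_zero]
      funext i
      rw [hev j w i, hw j i]
      rfl
    exact congrArg Subtype.val h4
  have h5 := Submodule.span_mono (R := K) h3 h2
  rw [Submodule.span_image] at h5
  obtain ⟨w, hw, hwe⟩ := h5
  have h6 : w = ⟨v, hv⟩ := hinj hwe
  subst h6
  have h7 : ((⟨v, hv⟩ : V) : N) ∈ (Submodule.span K {w : V | ∀ j, δ j w = 0}).map V.subtype :=
    ⟨_, hw, rfl⟩
  rw [Submodule.map_span] at h7
  refine Submodule.span_mono ?_ h7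
  rintro _ ⟨w, hw, rfl⟩
  exact ⟨w.2, hw⟩

end SC
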