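import Mathlib
import Pool.Agent.SC.Horiz
import Pool.Agent.SC.DerivExt
import Pool.Agent.Helper26.VC.Main3

/-!
# Constants of families of derivations

`L` is a field with a family of derivations with field of constants `k`, extended to the function
field `N` over `L`. Constants of `N` which are linearly independent over `k` are linearly
independent over `L`. If `F` is a field of constants of `N` which is transcendental over `k`,
then the field of all constants of `N` is algebraic over `F`.
-/

namespace SC

open VC Polynomial IntermediateField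

section lin

variable {k L N J ι : Type*} [Field k] [Field L] [Field N] [Algebra k L] [Algebra k N]
  [Algebra L N] [IsScalarTower k L N]

theorem linearIndependent_const (d0 : J → Derivation ℤ L L) (d : J → Derivation ℤ N N)
    (hd : ∀ (j : J) (a : L), d j (algebraMap L N a) = algebraMap L N (d0 j a))
    (hk : ∀ c : L, (∀ j, d0 j c = 0) → ∃ b : k, algebraMap k L b = c)
    (v : ι → N) (hv : ∀ j i, d j (v i) = 0) (hli : LinearIndependent k v) :
    LinearIndependent L v := by
  classical
  rw [linearIndependent_iff_finset_linearIndependent] at hli ⊢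
  intro s
  have hs := hli s
  rw [Fintype.linearIndependent_iff] at hs
  let Φ : (s → L) →ₗ[L] N := Fintype.linearCombination L (fun i : s => v i)
  have hΦ : ∀ w : s → L, Φ w = ∑ i : s, algebraMap L N (w i) * v i := by
    intro w
    change Fintype.linearCombination L (fun i : s => v i) w = _
    rw [Fintype.linearCombination_apply]
    exact Finset.sum_congr rfl fun i _ => Algebra.smul_def _ _
  have h1 := le_span_horizontal d0 (LinearMap.ker Φ) (by
    intro j w hw
    rw [LinearMap.mem_ker, hΦ] at hw ⊢
    have h2 := congrArg (d j) hw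
    rw [map_sum, map_zero] at h2
    rw [← h2]
    refine Finset.sum_congr rfl fun i _ => ?_
    rw [Derivation.leibniz, hv, hd]
    simp [mul_comm])
  have h3 : LinearMap.ker Φ = ⊥ := by
    rw [eq_bot_iff]
    refine h1.trans (Submodule.span_le.mpr ?_)
    rintro w ⟨hw, hw'⟩
    choose b hb using fun i : s => hk (w i) (fun j => hw' j i)
    rw [LinearMap.mem_ker, hΦ] at hw
    have h4 : ∑ i : s, b i • v i = 0 := by
      rw [← hw]
      refine Finset.sum_congr rfl fun i _ => ?_
      rw [← hb i, ← IsScalarTower.algebraMap_apply, Algebra.smul_def]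
    have h5 := hs b h4
    have h6 : w = 0 := by
      funext i
      rw [← hb i, h5 i, map_zero]
      rfl
    rw [h6]
    exact Submodule.zero_mem _
  rw [Fintype.linearIndependent_iff]
  intro g hg i
  have h7 : Φ g = 0 := by
    rw [hΦ, ← hg]
    exact Finset.sum_congr rfl fun i _ => (Algebra.smul_def _ _).symm
  have h8 : g ∈ LinearMap.ker Φ := h7
  rw [h3] at h8
  exact congrFun ((Submodule.mem_bot L).mp h8) i

end lin

lemma linearIndependent_pow_of_transcendental {R A : Type*} [Field R] [Field A] [Algebra R A]
    {t : A} (ht : Transcendental R t) : LinearIndependent R (fun i : ℕ => t ^ i) := by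
  have h1 := (Polynomial.basisMonomials R).linearIndependent.map'
    (aeval t : R[X] →ₐ[R] A).toLinearMap (by
      rw [LinearMap.ker_eq_bot]
      exact transcendental_iff_injective.mp ht)
  have e : (fun i : ℕ => t ^ i) =
      (⇑(aeval t : R[X] →ₐ[R] A).toLinearMap ∘ ⇑(basisMonomials R)) := by
    funext i
    simp
  rw [e]
  exact h1

lemma transcendental_of_linearIndependent_pow {R A : Type*} [Field R] [Field A] [Algebra R A]
    {t : A} (h : LinearIndependent R (fun i : ℕ => t ^ i)) : Transcendental R t := by
  rw [transcendental_iff]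
  intro p hp
  have h1 := linearIndependent_iff'.mp h p.support (fun i => p.coeff i) (by
    rw [← hp, aeval_def, eval₂_eq_sum, Polynomial.sum]
    exact Finset.sum_congr rfl fun i _ => Algebra.smul_def _ _)
  ext i
  rw [coeff_zero]
  by_contra hne
  exact hne (h1 i (mem_support_iff.mpr hne))

/-- **The field of constants is algebraic over `F`.** -/
theorem isAlgebraic_of_const {k L F N J : Type*} [Field k] [Field L] [Field F] [Field N]
    [Algebra k L] [Algebra k F] [Algebra k N] [Algebra L N] [Algebra F N] [IsScalarTower k L N]
    [IsScalarTower k F N] (hN : IsFunctionField L N) (d0 : J → Derivation ℤ L L)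
    (d : J → Derivation ℤ N N)
    (hd : ∀ (j : J) (a : L), d j (algebraMap L N a) = algebraMap L N (d0 j a))
    (hk : ∀ c : L, (∀ j, d0 j c = 0) → ∃ b : k, algebraMap k L b = c)
    (hF : ∀ (j : J) (a : F), d j (algebraMap F N a) = 0) {x : F} (hx : Transcendental k x)
    {z : N} (hz : ∀ j, d j z = 0) : IsAlgebraic F z := by
  classical
  by_contra hcon
  set y : N := algebraMap F N x with hy
  -- the monomials are independent over `k`
  have h1 : LinearIndependent k (fun p : ℕ × ℕ => y ^ p.1 * z ^ p.2) := by
    have h2 := _root_.linearIndependent_smul (linearIndependent_pow_of_transcendental hx)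
      (linearIndependent_pow_of_transcendental (R := F) hcon)
    have e : (fun p : ℕ × ℕ => y ^ p.1 * z ^ p.2) = fun p : ℕ × ℕ => (x ^ p.1) • z ^ p.2 := by
      funext p
      rw [Algebra.smul_def, map_pow]
    rw [e]
    exact h2
  have h3 : LinearIndependent L (fun p : ℕ × ℕ => y ^ p.1 * z ^ p.2) := by
    refine linearIndependent_const d0 d hd hk _ (fun j p => ?_) h1
    rw [Derivation.leibniz, Derivation.leibniz_pow, Derivation.leibniz_pow, hz, hy, hF]
    simp
  -- `y` is transcendental over `L`
  have hyt : Transcendental L y := by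
    apply transcendental_of_linearIndependent_pow
    have h4 := h3.comp (fun i : ℕ => (i, 0)) (fun i j hij => by simpa using hij)
    have e : (fun i : ℕ => y ^ i) = (fun p : ℕ × ℕ => y ^ p.1 * z ^ p.2) ∘ fun i : ℕ => (i, 0) := by
      funext i
      simp
    rw [e]
    exact h4
  -- a relation
  have hfin := hN.finiteDimensional hyt
  let i1 : Algebra L[X] N := polyAlg y
  let i3 : Algebra (RatFunc L) N := ratAlg y hyt
  have s3 : IsScalarTower L[X] (RatFunc L) N := IsScalarTower.of_algebraMap_eq (fun p =>
    (ratAlg_poly y hyt p).symm)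
  have f1 : FiniteDimensional (RatFunc L) N := finiteDimensional_ratAlg y hyt hfin
  have halg : IsAlgebraic L[X] z :=
    (IsFractionRing.isAlgebraic_iff L[X] (RatFunc L) N).mpr (Algebra.IsAlgebraic.isAlgebraic z)
  obtain ⟨P, hP0, hP⟩ := halg
  have hX : ∀ p : L[X], algebraMap L[X] N p = aeval y p := fun p => rfl
  apply hP0
  -- all coefficients vanish
  have h6 : ∑ p ∈ (P.support.sigma fun b => (P.coeff b).support).image
      (fun q : (_ : ℕ) × ℕ => (q.2, q.1)), ((P.coeff p.2).coeff p.1) • (y ^ p.1 * z ^ p.2) = 0 := by
    rw [Finset.sum_image (by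
      rintro ⟨a, b⟩ _ ⟨a', b'⟩ _ h
      simp only [Prod.mk.injEq] at h
      obtain ⟨h1, h2⟩ := h
      subst h1; subst h2; rfl), Finset.sum_sigma]
    rw [← hP, aeval_eq_sum_range]
    have h7 : ∀ b, algebraMap L[X] N (P.coeff b) * z ^ b =
        ∑ a ∈ (P.coeff b).support, ((P.coeff b).coeff a) • (y ^ a * z ^ b) := by
      intro b
      rw [hX, aeval_def, eval₂_eq_sum, Polynomial.sum, Finset.sum_mul]
      refine Finset.sum_congr rfl fun a _ => ?_
      rw [Algebra.smul_def]
      ring
    simp only [Algebra.smul_def (R := L[X])]
    symm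
    have h8 : ∑ i ∈ Finset.range (P.natDegree + 1), algebraMap L[X] N (P.coeff i) * z ^ i =
        ∑ i ∈ P.support, algebraMap L[X] N (P.coeff i) * z ^ i := by
      symm
      apply Finset.sum_subset
      · intro i hi
        rw [Finset.mem_range]
        exact Nat.lt_succ_of_le (le_natDegree_of_mem_supp i hi)
      · intro i _ hi
        rw [notMem_support_iff.mp hi, map_zero, zero_mul]
    rw [h8]
    exact Finset.sum_congr rfl fun b _ => h7 b
  have h9 := linearIndependent_iff'.mp h3 _ (fun p => (P.coeff p.2).coeff p.1) h6
  ext b a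
  rw [coeff_zero, coeff_zero]
  by_contra hne
  apply hne
  refine h9 (a, b) ?_
  rw [Finset.mem_image]
  refine ⟨⟨b, a⟩, ?_, rfl⟩
  rw [Finset.mem_sigma, mem_support_iff, mem_support_iff]
  refine ⟨fun h => hne (by rw [h, coeff_zero]), hne⟩

end SC
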