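import Mathlib
import Pool.Agent.Helper17.FF.Degree

/-!
# Places extend to overfields
-/

namespace SC

open VC

/-- Places extend to overfields. -/
theorem exists_place_over {K M N : Type*} [Field K] [Field M] [Algebra K M] [Field N] [Algebra K N]
    [Algebra M N] [IsScalarTower K M N] (P : Place K M) :
    ∃ Q : Place K N, ∀ z : M, algebraMap M N z ∈ Q.ring ↔ z ∈ P.ring := by
  let A : Subring N := P.ring.toSubring.map (algebraMap M N)
  let f : P.ring →+* A := ((algebraMap M N).comp P.ring.subtype).codRestrict A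
    (fun x => ⟨x, x.2, rfl⟩)
  have hfs : Function.Surjective f := by
    rintro ⟨_, x, hx, rfl⟩
    exact ⟨⟨x, hx⟩, rfl⟩
  have hfi : Function.Injective f := by
    intro x y hxy
    apply Subtype.ext
    exact (algebraMap M N).injective (congrArg Subtype.val hxy)
  obtain ⟨t, htP⟩ : ∃ t : M, t ∉ P.ring := by
    by_contra hcon
    push Not at hcon
    exact P.ne_top (eq_top_iff.mpr fun x _ => hcon x)
  have ht0 : t ≠ 0 := by
    rintro rfl
    exact htP P.ring.zero_mem
  have hnon : ∀ x : P.ring, x ∈ IsLocalRing.maximalIdeal P.ring ↔ (x : M) ∈ P.ring.nonunits :=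
    fun x => (ValuationSubring.coe_mem_nonunits_iff).symm
  have htn : t⁻¹ ∈ P.ring.nonunits := by
    rw [ValuationSubring.mem_nonunits_iff_or, inv_inv]; exact Or.inr htP
  obtain ⟨Q, hQ1, hQ2⟩ := FF.exists_place_of_subring (k := K) A
    (fun a => ⟨algebraMap K M a, P.algebraMap_mem a, (IsScalarTower.algebraMap_apply K M N a).symm⟩)
    ((IsLocalRing.maximalIdeal P.ring).map f) (by
      intro h
      rw [Ideal.eq_top_iff_one, Ideal.mem_map_iff_of_surjective f hfs] at h
      obtain ⟨x, hx, hx1⟩ := h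
      have : x = 1 := hfi (by rw [hx1, map_one])
      rw [this] at hx
      exact (Ideal.ne_top_iff_one _).mp (IsLocalRing.maximalIdeal.isMaximal P.ring).ne_top hx)
    ⟨f ⟨t⁻¹, ValuationSubring.nonunits_subset htn⟩, Ideal.mem_map_of_mem f ((hnon _).mpr htn), by
      intro h
      have h2 : (⟨t⁻¹, ValuationSubring.nonunits_subset htn⟩ : P.ring) = 0 := by
        apply hfi; rw [h, map_zero]
      exact inv_ne_zero ht0 (congrArg Subtype.val h2)⟩
  refine ⟨Q, fun z => ⟨fun h => ?_, fun h => hQ1 _ ⟨z, h, rfl⟩⟩⟩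
  by_contra hz
  have hzn : z⁻¹ ∈ P.ring.nonunits := by
    rw [ValuationSubring.mem_nonunits_iff_or, inv_inv]; exact Or.inr hz
  have h3 : algebraMap M N z⁻¹ ∈ Q.ring.nonunits := hQ2 (f ⟨z⁻¹, ValuationSubring.nonunits_subset hzn⟩)
    (Ideal.mem_map_of_mem f ((hnon _).mpr hzn))
  rw [ValuationSubring.mem_nonunits_iff_or, map_inv₀, inv_inv] at h3
  rcases h3 with h3 | h3
  · rw [inv_eq_zero, map_eq_zero] at h3
    rw [h3] at hz
    exact hz P.ring.zero_mem
  · exact h3 h

end SC
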