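import Mathlib
import Pool.Agent.SC.VP0
import Pool.Agent.SC.Deriv
import Pool.Agent.SC.DerivExt

/-!
# The projective line is simply connected (characteristic zero)

A finite extension of `k(u)`, `k` algebraically closed of characteristic zero, which is unramified
at all places is equal to `k(u)`. The proof uses the derivation `d/du`.
-/

namespace SC

open VC SCVP Polynomial IntermediateField

universe u

variable {k F : Type u} [Field k] [IsAlgClosed k] [CharZero k] [Field F] [Algebra k F]

omit [IsAlgClosed k] in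
/-- Existence of derivations of function fields with given values on the constants and on one
transcendental element. -/
theorem exists_deriv (hF : IsFunctionField k F) {u : F} (hu : Transcendental k u)
    (d0 : Derivation ℤ k k) (w : k[X]) :
    ∃ d : Derivation ℤ F F, (∀ a : k, d (algebraMap k F a) = algebraMap k F (d0 a)) ∧
      d u = aeval u w := by
  have hfin := hF.finiteDimensional hu
  let i1 : Algebra k[X] F := polyAlg u
  let i3 : Algebra (RatFunc k) F := ratAlg u hu
  have s1 : IsScalarTower k k[X] F := IsScalarTower.of_algebraMap_eq (fun x =>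
    (aeval u : k[X] →ₐ[k] F).commutes x |>.symm)
  have s3 : IsScalarTower k[X] (RatFunc k) F := IsScalarTower.of_algebraMap_eq (fun x =>
    (ratAlg_poly u hu x).symm)
  have f1 : FiniteDimensional (RatFunc k) F := finiteDimensional_ratAlg u hu hfin
  have hc0 : CharZero (RatFunc k) :=
    charZero_of_injective_algebraMap (algebraMap k (RatFunc k)).injective
  have e1 : Algebra.FormallyEtale k[X] (RatFunc k) :=
    Algebra.FormallyEtale.of_isLocalization (nonZeroDivisors k[X])
  have e2 : Algebra.FormallyEtale (RatFunc k) F := Algebra.FormallyEtale.of_isSeparable _ _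
  have e3 : Algebra.FormallyEtale k[X] F := Algebra.FormallyEtale.comp k[X] (RatFunc k) F
  let i5 : Differential k := ⟨d0⟩
  obtain ⟨d, hd⟩ := exists_deriv_ext (B := F) (Differential.implicitDeriv w)
  have hX : ∀ p : k[X], algebraMap k[X] F p = aeval u p := fun p => rfl
  refine ⟨d, fun a => ?_, ?_⟩
  · have h := (hd (C a)).trans (congrArg (algebraMap k[X] F)
      (Differential.implicitDeriv_C w a))
    rw [hX, hX, aeval_C, aeval_C] at h
    exact h
  · have h := (hd X).trans (congrArg (algebraMap k[X] F) (Differential.implicitDeriv_X w))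
    rw [hX, hX, aeval_X] at h
    exact h

/-- The constants of a derivation of a function field over `k` which is nonzero and vanishes on
`k` are the elements of `k`. -/
theorem exists_const_of_deriv_eq_zero (hF : IsFunctionField k F) (d : Derivation ℤ F F)
    (hk : ∀ a : k, d (algebraMap k F a) = 0) {u : F} (hu : d u ≠ 0) {f : F} (hf : d f = 0) :
    ∃ c : k, algebraMap k F c = f := by
  by_contra hcon
  have hft : Transcendental k f := by
    by_contra h
    exact hcon (exists_const_of_not_transcendental h)
  have hfin := hF.finiteDimensional hft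
  have hle : ∀ x ∈ k⟮f⟯, d x = 0 := by
    intro x hx
    obtain ⟨r, s, hrs⟩ := (IntermediateField.mem_adjoin_simple_iff k x).mp hx
    have hpoly : ∀ p : k[X], d (aeval f p) = 0 := by
      intro p
      induction p using Polynomial.induction_on with
      | C a => rw [aeval_C]; exact hk a
      | add p q hp hq => rw [map_add, map_add, hp, hq, add_zero]
      | monomial n a ih =>
        rw [pow_succ, ← mul_assoc, map_mul, aeval_X, Derivation.leibniz, hf, ih]
        simp
    rw [hrs, Derivation.leibniz_div, hpoly, hpoly]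
    simp
  have hcF : CharZero F := charZero_of_injective_algebraMap (algebraMap k F).injective
  have h1 : IsAlgebraic k⟮f⟯ u := Algebra.IsAlgebraic.isAlgebraic u
  exact hu (deriv_eq_zero_of_isAlgebraic d (fun c : k⟮f⟯ => hle c c.2) h1)

omit [IsAlgClosed k] [CharZero k] in
lemma aeval_mem (Q : Place k F) {u : F} (hu : u ∈ Q.ring) (p : k[X]) : aeval u p ∈ Q.ring := by
  induction p using Polynomial.induction_on with
  | C a => rw [aeval_C]; exact Q.algebraMap_mem a
  | add p q hp hq => rw [map_add]; exact Q.ring.add_mem _ _ hp hq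
  | monomial n a ih =>
    rw [pow_succ, ← mul_assoc, map_mul, aeval_X]
    exact Q.ring.mul_mem _ _ ih hu

omit [IsAlgClosed k] [CharZero k] in
/-- Elements integral over `k[u]` are regular where `u` is. -/
lemma mem_of_isIntegral (Q : Place k F) {u : F} (hu : u ∈ Q.ring) {p : k[X][X]} (hp : p.Monic)
    {f : F} (hf : eval₂ (aeval u : k[X] →ₐ[k] F).toRingHom f p = 0) : f ∈ Q.ring := by
  let φ : k[X] →+* Q.ring := ((aeval u : k[X] →ₐ[k] F).toRingHom).codRestrict Q.ring
    (fun p => aeval_mem Q hu p)
  have h1 : IsIntegral Q.ring f := by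
    refine ⟨p.map φ, hp.map φ, ?_⟩
    rw [Polynomial.eval₂_map]
    exact hf
  obtain ⟨y, hy⟩ := IsIntegrallyClosed.isIntegral_iff.mp h1
  rw [← hy]
  exact y.2

/-- A function regular at all places is constant. -/
lemma exists_const_of_forall_mem (hF : IsFunctionField k F) {f : F}
    (h : ∀ Q : Place k F, f ∈ Q.ring) : ∃ c : k, algebraMap k F c = f := by
  by_contra hcon
  have hft : Transcendental k f := by
    by_contra h
    exact hcon (exists_const_of_not_transcendental h)
  obtain ⟨P, hP⟩ := exists_place hF (transcendental_inv hft)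
  rcases (ValuationSubring.mem_nonunits_iff_or _).mp hP with h1 | h1
  · rw [inv_eq_zero] at h1
    apply hft
    rw [h1]
    exact isAlgebraic_zero
  · rw [inv_inv] at h1
    exact h1 (h P)

omit [IsAlgClosed k] in
/-- Every polynomial is a derivative in characteristic zero. -/
lemma exists_primitive (p : k[X]) : ∃ q : k[X], derivative q = p := by
  induction p using Polynomial.induction_on' with
  | add p q hp hq =>
    obtain ⟨p', rfl⟩ := hp
    obtain ⟨q', rfl⟩ := hq
    exact ⟨p' + q', derivative_add⟩
  | monomial n a =>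
    refine ⟨monomial (n + 1) (a / (n + 1 : k)), ?_⟩
    rw [derivative_monomial]
    congr 1
    have : ((n : k) + 1) ≠ 0 := Nat.cast_add_one_ne_zero n
    push_cast
    field_simp

/-- **The projective line is simply connected.** If the function field `F` over `k` is unramified
over `k(u)` at all places, then `F = k(u)`. -/
theorem adjoin_eq_top_of_unramified (hF : IsFunctionField k F) {u : F}
    (hu : Transcendental k u)
    (h : ∀ Q : Place k F, (∃ c : k, ord Q.ring (u - algebraMap k F c) = 1) ∨
      ord Q.ring u = -1) : k⟮u⟯ = ⊤ := by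
  obtain ⟨d, hdk0, hdu⟩ := exists_deriv hF hu 0 1
  have hdk : ∀ a : k, d (algebraMap k F a) = 0 := by
    intro a; rw [hdk0]; simp
  have hdu1 : d u = 1 := by rw [hdu]; simp
  have hu0 : u ≠ 0 := by
    rintro rfl
    exact hu isAlgebraic_zero
  have hsub0 : ∀ c : k, u - algebraMap k F c ≠ 0 := by
    intro c hc
    apply hu
    rw [sub_eq_zero.mp hc]
    exact isAlgebraic_algebraMap c
  -- finite places
  have hfinpl : ∀ Q : Place k F, (∃ c : k, ord Q.ring (u - algebraMap k F c) = 1) →
      ∀ f ∈ Q.ring, d f ∈ Q.ring := by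
    rintro Q ⟨c, hc⟩
    refine deriv_mem hF Q d (fun a => by rw [hdk]; exact Q.ring.zero_mem) (hsub0 c) hc ?_
    rw [map_sub, hdu1, hdk, sub_zero]
    exact Q.ring.one_mem
  -- infinite places
  have hdinv : d u⁻¹ = - (u⁻¹) ^ 2 := by
    rw [Derivation.leibniz_inv, hdu1]
    simp
  have hinf : ∀ Q : Place k F, ord Q.ring u = -1 → ∀ f ∈ Q.ring, u ^ 2 * d f ∈ Q.ring := by
    intro Q hQ f hf
    have hE : ∀ g ∈ Q.ring, ((u ^ 2) • d) g ∈ Q.ring := by
      refine deriv_mem hF Q ((u ^ 2) • d) (fun a => ?_) (inv_ne_zero hu0) ?_ ?_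
      · rw [Derivation.smul_apply, hdk, smul_zero]; exact Q.ring.zero_mem
      · rw [ord_inv hF Q hu0, hQ]; rfl
      · rw [Derivation.smul_apply, hdinv, smul_eq_mul]
        have : u ^ 2 * -(u⁻¹) ^ 2 = -1 := by field_simp
        rw [this]
        exact Q.ring.neg_mem _ Q.ring.one_mem
    have := hE f hf
    rwa [Derivation.smul_apply, smul_eq_mul] at this
  have huinv : ∀ Q : Place k F, ord Q.ring u = -1 → u⁻¹ ∈ Q.ring := by
    intro Q hQ
    rw [← ord_nonneg_iff hF Q (inv_ne_zero hu0), ord_inv hF Q hu0, hQ]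
    norm_num
  -- the main induction
  have key : ∀ (n : ℕ) (f : F),
      (∀ Q : Place k F, (∃ c : k, ord Q.ring (u - algebraMap k F c) = 1) → f ∈ Q.ring) →
      (∀ Q : Place k F, ord Q.ring u = -1 → (u⁻¹) ^ n * f ∈ Q.ring) →
      ∃ p : k[X], aeval u p = f := by
    intro n
    induction n with
    | zero =>
      intro f h1 h2
      obtain ⟨c, hc⟩ := exists_const_of_forall_mem hF (f := f) (fun Q => by
        rcases h Q with h3 | h3
        · exact h1 Q h3
        · have := h2 Q h3
          rwa [pow_zero, one_mul] at this)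
      exact ⟨C c, by rw [aeval_C, hc]⟩
    | succ n ih =>
      intro f h1 h2
      obtain ⟨p, hp⟩ := ih (d f) (fun Q hQ => hfinpl Q hQ f (h1 Q hQ)) (by
        intro Q hQ
        have h3 := hinf Q hQ _ (h2 Q hQ)
        have h4 : d ((u⁻¹) ^ (n + 1) * f) = (u⁻¹) ^ (n + 1) * d f -
            (n + 1) * (u⁻¹) ^ (n + 2) * f := by
          rw [Derivation.leibniz, Derivation.leibniz_pow, hdinv]
          simp only [smul_eq_mul, nsmul_eq_mul, Nat.add_sub_cancel]
          push_cast
          ring
        have h5 : (u⁻¹) ^ n * d f = u⁻¹ * (u ^ 2 * d ((u⁻¹) ^ (n + 1) * f)) +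
            ((n + 1 : ℕ) : F) * ((u⁻¹) ^ (n + 1) * f) := by
          rw [h4]
          have e1 : (u⁻¹) ^ (n + 1) = u⁻¹ * (u⁻¹) ^ n := pow_succ' _ _
          have e2 : (u⁻¹) ^ (n + 2) = u⁻¹ * (u⁻¹ * (u⁻¹) ^ n) := by
            rw [pow_succ', pow_succ']
          have e3 : u⁻¹ * u = 1 := inv_mul_cancel₀ hu0
          rw [e1, e2]
          push_cast
          have e4 : u⁻¹ * (u ^ 2 * (u⁻¹ * (u⁻¹) ^ n * d f - (n + 1) * (u⁻¹ * (u⁻¹ * (u⁻¹) ^ n)) * f))
              = (u⁻¹ * u) * (u⁻¹ * u) * ((u⁻¹) ^ n * d f) -
              (u⁻¹ * u) * (u⁻¹ * u) * ((n + 1) * (u⁻¹ * (u⁻¹) ^ n) * f) := by ring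
          rw [e4, e3]
          ring
        rw [h5]
        refine Q.ring.add_mem _ _ (Q.ring.mul_mem _ _ (huinv Q hQ) h3)
          (Q.ring.mul_mem _ _ ?_ (h2 Q hQ))
        exact natCast_mem Q.ring _)
      obtain ⟨q, hq⟩ := exists_primitive p
      have h6 : d (f - aeval u q) = 0 := by
        rw [map_sub, ← hp, ← hq, sub_eq_zero]
        have h7 : ∀ r : k[X], d (aeval u r) = aeval u (derivative r) := by
          intro r
          induction r using Polynomial.induction_on with
          | C a => rw [aeval_C, hdk, derivative_C, map_zero]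
          | add p q hp hq => rw [map_add, map_add, hp, hq, derivative_add, map_add]
          | monomial n a ih =>
            rw [pow_succ, ← mul_assoc, map_mul, aeval_X, Derivation.leibniz, hdu1, ih,
              derivative_mul (f := C a * X ^ n) (g := X), derivative_X, mul_one, map_add,
              map_mul (aeval u) (derivative (C a * X ^ n)) X, aeval_X, smul_eq_mul, smul_eq_mul,
              mul_one]
            ring
        exact (h7 q).symm
      obtain ⟨c, hc⟩ := exists_const_of_deriv_eq_zero hF d hdk (u := u) (by rw [hdu1]; exact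
        one_ne_zero) h6
      refine ⟨q + C c, ?_⟩
      rw [map_add, aeval_C, hc]
      ring
  -- conclusion
  rw [eq_top_iff]
  intro f _
  have hfin := hF.finiteDimensional hu
  -- a denominator making `f` integral
  let i1 : Algebra k[X] F := polyAlg u
  let i3 : Algebra (RatFunc k) F := ratAlg u hu
  have s3 : IsScalarTower k[X] (RatFunc k) F := IsScalarTower.of_algebraMap_eq (fun x =>
    (ratAlg_poly u hu x).symm)
  have f1 : FiniteDimensional (RatFunc k) F := finiteDimensional_ratAlg u hu hfin
  have halg : IsAlgebraic k[X] f :=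
    (IsFractionRing.isAlgebraic_iff k[X] (RatFunc k) F).mpr (Algebra.IsAlgebraic.isAlgebraic f)
  obtain ⟨s, hs0, hs⟩ := halg.exists_integral_multiple
  have hX : ∀ p : k[X], algebraMap k[X] F p = aeval u p := fun p => rfl
  rw [Algebra.smul_def, hX] at hs
  have hsne : aeval u s ≠ 0 := by
    intro h0
    exact hs0 ((transcendental_iff.mp hu) s h0)
  set g := aeval u s * f with hg
  -- bound at infinity
  have hinfset : {P : Place k F | u⁻¹ ∈ P.ring.nonunits}.Finite :=
    finite_zeros hF (transcendental_inv hu)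
  obtain ⟨n, hn⟩ : ∃ n : ℕ, ∀ Q : Place k F, ord Q.ring u = -1 → (u⁻¹) ^ n * g ∈ Q.ring := by
    have hnon : ∀ Q : Place k F, ord Q.ring u = -1 → u⁻¹ ∈ Q.ring.nonunits := by
      intro Q hQ
      rw [← ord_pos_iff hF Q (inv_ne_zero hu0), ord_inv hF Q hu0, hQ]
      norm_num
    have hex : ∀ Q : Place k F, ∃ n : ℕ, u⁻¹ ∈ Q.ring.nonunits → ∀ m, n ≤ m →
        (u⁻¹) ^ m * g ∈ Q.ring := by
      intro Q
      by_cases hQ : u⁻¹ ∈ Q.ring.nonunits
      · obtain ⟨n, hn⟩ := exists_pow_mul_mem hF Q (inv_ne_zero hu0) hQ g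
        exact ⟨n, fun _ => hn⟩
      · exact ⟨0, fun h => absurd h hQ⟩
    choose N hN using hex
    refine ⟨hinfset.toFinset.sup N, fun Q hQ => hN Q (hnon Q hQ) _ ?_⟩
    exact Finset.le_sup (f := N) (hinfset.mem_toFinset.mpr (hnon Q hQ))
  obtain ⟨p, hp⟩ := key n g (by
    rintro Q ⟨c, hc⟩
    have huQ : u ∈ Q.ring := by
      have h1 : u - algebraMap k F c ∈ Q.ring := by
        rw [← ord_nonneg_iff hF Q (hsub0 c), hc]; norm_num
      have h2 := Q.ring.add_mem _ _ h1 (Q.algebraMap_mem c)
      rwa [sub_add_cancel] at h2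
    obtain ⟨P, hPm, hP0⟩ := hs
    exact mem_of_isIntegral Q huQ hPm hP0) hn
  have hfe : f = aeval u p / aeval u s := by
    rw [hp, hg, mul_div_cancel_left₀ _ hsne]
  rw [hfe]
  have hmem : ∀ q : k[X], aeval u q ∈ k⟮u⟯ := by
    intro q
    have h1 : aeval u q ∈ Algebra.adjoin k {u} := aeval_mem_adjoin_singleton k u
    exact IntermediateField.algebra_adjoin_le_adjoin k {u} h1
  exact div_mem (hmem p) (hmem s)

end SC
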