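import Mathlib
import Pool.Agent.SC.P1
import Pool.Agent.SC.Horiz

/-!
# Function fields with derivations which are regular at all places

`N` is a function field over `K` with a family of derivations `d j` which act on `K` by `d0 j`,
kill the transcendental element `x`, preserve the local rings of all places, and induce `d0 j` on
the residue field of infinitely many places. Then `N` is generated over `K` by common constants
of the `d j`.
-/

namespace SC

open VC SCVP Polynomial IntermediateField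

universe u

variable {K N : Type u} [Field K] [IsAlgClosed K] [CharZero K] [Field N] [Algebra K N]

/-- Functions with poles only at the poles of `x`, of multiplicity at most `m` times that
of `x`. -/
def polySpace (K : Type u) {N : Type u} [Field K] [Field N] [Algebra K N] (x : N) (m : ℕ) :
    Submodule K N where
  carrier := {f | ∀ Q : Place K N, (x ∈ Q.ring → f ∈ Q.ring) ∧ (x ∉ Q.ring → (x⁻¹) ^ m * f ∈ Q.ring)}
  add_mem' := by
    intro a b ha hb Q
    refine ⟨fun h => Q.ring.add_mem _ _ ((ha Q).1 h) ((hb Q).1 h), fun h => ?_⟩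
    rw [mul_add]
    exact Q.ring.add_mem _ _ ((ha Q).2 h) ((hb Q).2 h)
  zero_mem' := by
    intro Q
    refine ⟨fun _ => Q.ring.zero_mem, fun _ => ?_⟩
    rw [mul_zero]
    exact Q.ring.zero_mem
  smul_mem' := by
    intro c a ha Q
    rw [Algebra.smul_def]
    refine ⟨fun h => Q.ring.mul_mem _ _ (Q.algebraMap_mem c) ((ha Q).1 h), fun h => ?_⟩
    rw [mul_left_comm]
    exact Q.ring.mul_mem _ _ (Q.algebraMap_mem c) ((ha Q).2 h)

omit [IsAlgClosed K] [CharZero K] in
lemma mem_polySpace {x : N} {m : ℕ} {f : N} : f ∈ polySpace K x m ↔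
    ∀ Q : Place K N, (x ∈ Q.ring → f ∈ Q.ring) ∧ (x ∉ Q.ring → (x⁻¹) ^ m * f ∈ Q.ring) := Iff.rfl

/-- A function in the space with too many zeros vanishes. -/
theorem exists_bound (hN : IsFunctionField K N) {x : N} (hx : Transcendental K x) (m : ℕ) :
    ∃ r : ℕ, ∀ T : Finset (Place K N), r < T.card → (∀ Q ∈ T, x ∈ Q.ring) →
      ∀ f ∈ polySpace K x m, (∀ Q ∈ T, f ∈ Q.ring.nonunits) → f = 0 := by
  classical
  have hx0 : x ≠ 0 := by
    rintro rfl
    exact hx isAlgebraic_zero
  have hinfset : {P : Place K N | x⁻¹ ∈ P.ring.nonunits}.Finite :=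
    finite_zeros hN (transcendental_inv hx)
  set S := hinfset.toFinset with hS
  have hmemS : ∀ P : Place K N, P ∈ S ↔ x ∉ P.ring := by
    intro P
    rw [hS, Set.Finite.mem_toFinset]
    change x⁻¹ ∈ P.ring.nonunits ↔ _
    rw [ValuationSubring.mem_nonunits_iff_or, inv_inv]
    exact ⟨fun h => h.resolve_left (inv_ne_zero hx0), fun h => Or.inr h⟩
  have hpole : ∀ P : Place K N, x ∉ P.ring → ord P.ring x < 0 := by
    intro P hP
    by_contra hcon
    push Not at hcon
    exact hP ((ord_nonneg_iff hN P hx0).mp hcon)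
  refine ⟨(m * ∑ P ∈ S, (- ord P.ring x)).toNat, fun T hT hTx f hf hfT => ?_⟩
  by_contra hf0
  have h1 := degree_zero hN hf0
  set U := (finite_support_ord hN hf0).toFinset with hU
  have h2 : ∑ v ∈ U ∪ T ∪ S, ord v.ring f = 0 := by
    rw [← h1]
    symm
    apply Finset.sum_subset
    · exact fun v hv => Finset.mem_union_left _ (Finset.mem_union_left _ hv)
    · intro v _ hv
      rw [hU, Set.Finite.mem_toFinset] at hv
      by_contra hne
      exact hv hne
  have h3 : ∀ v ∈ U ∪ T ∪ S, (if v ∈ T then (1 : ℤ) else 0) +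
      (if v ∈ S then m * ord v.ring x else 0) ≤ ord v.ring f := by
    intro v _
    by_cases hvS : v ∈ S
    · rw [if_pos hvS]
      have hvx := (hmemS v).mp hvS
      have hvT : v ∉ T := fun h => hvx (hTx v h)
      rw [if_neg hvT, zero_add]
      have h4 := (hf v).2 hvx
      rw [← ord_nonneg_iff hN v (mul_ne_zero (pow_ne_zero _ (inv_ne_zero hx0)) hf0),
        ord_mul hN v (pow_ne_zero _ (inv_ne_zero hx0)) hf0, ord_pow hN v (inv_ne_zero hx0),
        ord_inv hN v hx0] at h4
      linarith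
    · rw [if_neg hvS, add_zero]
      have hvx : x ∈ v.ring := by
        by_contra h
        exact hvS ((hmemS v).mpr h)
      split_ifs with hvT
      · have h4 := (ord_pos_iff hN v hf0).mpr (hfT v hvT)
        omega
      · exact (ord_nonneg_iff hN v hf0).mpr ((hf v).1 hvx)
  have h4 := Finset.sum_le_sum h3
  rw [h2, Finset.sum_add_distrib] at h4
  have h5 : ∑ v ∈ U ∪ T ∪ S, (if v ∈ T then (1 : ℤ) else 0) = T.card := by
    rw [Finset.sum_ite_mem]
    have : (U ∪ T ∪ S) ∩ T = T := by
      apply Finset.inter_eq_right.mpr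
      exact fun v hv => Finset.mem_union_left _ (Finset.mem_union_right _ hv)
    rw [this]
    simp
  have h6 : ∑ v ∈ U ∪ T ∪ S, (if v ∈ S then m * ord v.ring x else 0) =
      ∑ v ∈ S, m * ord v.ring x := by
    rw [Finset.sum_ite_mem]
    have : (U ∪ T ∪ S) ∩ S = S := by
      apply Finset.inter_eq_right.mpr
      exact fun v hv => Finset.mem_union_right _ hv
    rw [this]
  rw [h5, h6, ← Finset.mul_sum] at h4
  have h7 : (m : ℤ) * ∑ P ∈ S, (- ord P.ring x) = - (m * ∑ v ∈ S, ord v.ring x) := by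
    rw [Finset.sum_neg_distrib]
    ring
  rw [h7] at hT
  have h8 : 0 ≤ - ((m : ℤ) * ∑ v ∈ S, ord v.ring x) := by
    rw [← h7]
    apply mul_nonneg (by positivity)
    apply Finset.sum_nonneg
    intro v hv
    have := hpole v ((hmemS v).mp hv)
    omega
  omega

/-- every element becomes an element of the space after multiplication by a polynomial in `x` -/
theorem exists_mul_mem_polySpace (hN : IsFunctionField K N) {x : N} (hx : Transcendental K x)
    (y : N) : ∃ (s : K[X]) (m : ℕ), s ≠ 0 ∧ aeval x s * y ∈ polySpace K x m := by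
  have hx0 : x ≠ 0 := by
    rintro rfl
    exact hx isAlgebraic_zero
  have hfin := hN.finiteDimensional hx
  let i1 : Algebra K[X] N := polyAlg x
  let i3 : Algebra (RatFunc K) N := ratAlg x hx
  have s3 : IsScalarTower K[X] (RatFunc K) N := IsScalarTower.of_algebraMap_eq (fun p =>
    (ratAlg_poly x hx p).symm)
  have f1 : FiniteDimensional (RatFunc K) N := finiteDimensional_ratAlg x hx hfin
  have halg : IsAlgebraic K[X] y :=
    (IsFractionRing.isAlgebraic_iff K[X] (RatFunc K) N).mpr (Algebra.IsAlgebraic.isAlgebraic y)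
  obtain ⟨s, hs0, hs⟩ := halg.exists_integral_multiple
  have hX : ∀ p : K[X], algebraMap K[X] N p = aeval x p := fun p => rfl
  rw [Algebra.smul_def, hX] at hs
  set g := aeval x s * y with hg
  have hinfset : {P : Place K N | x⁻¹ ∈ P.ring.nonunits}.Finite :=
    finite_zeros hN (transcendental_inv hx)
  have hex : ∀ Q : Place K N, ∃ n : ℕ, x⁻¹ ∈ Q.ring.nonunits → ∀ m, n ≤ m →
      (x⁻¹) ^ m * g ∈ Q.ring := by
    intro Q
    by_cases hQ : x⁻¹ ∈ Q.ring.nonunits
    · obtain ⟨n, hn⟩ := exists_pow_mul_mem hN Q (inv_ne_zero hx0) hQ g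
      exact ⟨n, fun _ => hn⟩
    · exact ⟨0, fun h => absurd h hQ⟩
  choose f hf using hex
  refine ⟨s, hinfset.toFinset.sup f, hs0, fun Q => ⟨fun hxQ => ?_, fun hxQ => ?_⟩⟩
  · obtain ⟨P, hPm, hP0⟩ := hs
    exact mem_of_isIntegral Q hxQ hPm hP0
  · have hxn : x⁻¹ ∈ Q.ring.nonunits := by
      rw [ValuationSubring.mem_nonunits_iff_or, inv_inv]
      exact Or.inr hxQ
    exact hf Q hxn _ (Finset.le_sup (f := f) (hinfset.mem_toFinset.mpr hxn))

/-- the value of a regular function at a place -/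
noncomputable def valAt (hN : IsFunctionField K N) (Q : Place K N) (f : N) : K :=
  open Classical in if h : f ∈ Q.ring then (exists_residue hN Q h).choose else 0

lemma valAt_spec (hN : IsFunctionField K N) (Q : Place K N) {f : N} (h : f ∈ Q.ring) :
    f - algebraMap K N (valAt hN Q f) ∈ Q.ring.nonunits := by
  unfold valAt
  rw [dif_pos h]
  exact (exists_residue hN Q h).choose_spec

lemma valAt_eq (hN : IsFunctionField K N) (Q : Place K N) {f : N} (h : f ∈ Q.ring) {c : K}
    (hc : f - algebraMap K N c ∈ Q.ring.nonunits) : valAt hN Q f = c :=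
  residue_unique Q (valAt_spec hN Q h) hc

omit [IsAlgClosed K] [CharZero K] in
lemma nonunits_add (Q : Place K N) {a b : N} (ha : a ∈ Q.ring.nonunits)
    (hb : b ∈ Q.ring.nonunits) : a + b ∈ Q.ring.nonunits := by
  obtain ⟨ha, ha'⟩ := (ValuationSubring.mem_nonunits_iff_exists_mem_maximalIdeal).mp ha
  obtain ⟨hb, hb'⟩ := (ValuationSubring.mem_nonunits_iff_exists_mem_maximalIdeal).mp hb
  rw [ValuationSubring.mem_nonunits_iff_exists_mem_maximalIdeal]
  exact ⟨Q.ring.add_mem _ _ ha hb, (IsLocalRing.maximalIdeal Q.ring).add_mem ha' hb'⟩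

omit [IsAlgClosed K] [CharZero K] in
lemma nonunits_mul (Q : Place K N) {a b : N} (ha : a ∈ Q.ring)
    (hb : b ∈ Q.ring.nonunits) : a * b ∈ Q.ring.nonunits := by
  obtain ⟨hb, hb'⟩ := (ValuationSubring.mem_nonunits_iff_exists_mem_maximalIdeal).mp hb
  rw [ValuationSubring.mem_nonunits_iff_exists_mem_maximalIdeal]
  exact ⟨Q.ring.mul_mem _ _ ha hb, (IsLocalRing.maximalIdeal Q.ring).mul_mem_left ⟨a, ha⟩ hb'⟩

lemma valAt_add (hN : IsFunctionField K N) (Q : Place K N) {f g : N} (hf : f ∈ Q.ring)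
    (hg : g ∈ Q.ring) : valAt hN Q (f + g) = valAt hN Q f + valAt hN Q g := by
  apply valAt_eq hN Q (Q.ring.add_mem _ _ hf hg)
  have e : f + g - algebraMap K N (valAt hN Q f + valAt hN Q g) =
      (f - algebraMap K N (valAt hN Q f)) + (g - algebraMap K N (valAt hN Q g)) := by
    rw [map_add]; ring
  rw [e]
  exact nonunits_add Q (valAt_spec hN Q hf) (valAt_spec hN Q hg)

lemma valAt_smul (hN : IsFunctionField K N) (Q : Place K N) {f : N} (hf : f ∈ Q.ring) (c : K) :
    valAt hN Q (c • f) = c * valAt hN Q f := by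
  have hcf : c • f ∈ Q.ring := by
    rw [Algebra.smul_def]; exact Q.ring.mul_mem _ _ (Q.algebraMap_mem c) hf
  apply valAt_eq hN Q hcf
  have e : c • f - algebraMap K N (c * valAt hN Q f) =
      algebraMap K N c * (f - algebraMap K N (valAt hN Q f)) := by
    rw [map_mul, Algebra.smul_def]; ring
  rw [e]
  exact nonunits_mul Q (Q.algebraMap_mem c) (valAt_spec hN Q hf)

/-- **Rigidity, abstract form.** -/
theorem mem_span_const (hN : IsFunctionField K N) {J : Type*} (d0 : J → Derivation ℤ K K)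
    (d : J → Derivation ℤ N N)
    (hd : ∀ (j : J) (a : K), d j (algebraMap K N a) = algebraMap K N (d0 j a)) {x : N}
    (hx : Transcendental K x) (hdx : ∀ j, d j x = 0)
    (hreg : ∀ j, ∀ Q : Place K N, ∀ f ∈ Q.ring, d j f ∈ Q.ring)
    (hinf : {Q : Place K N | x ∈ Q.ring ∧
      ∀ j, ∀ f ∈ Q.ring.nonunits, d j f ∈ Q.ring.nonunits}.Infinite)
    (y : N) :
    ∃ s : K[X], s ≠ 0 ∧ aeval x s * y ∈ Submodule.span K {z : N | ∀ j, d j z = 0} := by
  classical
  obtain ⟨s, m, hs0, hsm⟩ := exists_mul_mem_polySpace hN hx y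
  refine ⟨s, hs0, ?_⟩
  obtain ⟨r, hr⟩ := exists_bound hN hx m
  obtain ⟨T, hTsub, hTcard⟩ := hinf.exists_subset_card_eq (r + 1)
  have hTx : ∀ Q ∈ T, x ∈ Q.ring := fun Q hQ => (hTsub hQ).1
  -- the derivation preserves the space
  have hdinv : ∀ j, d j (x⁻¹) = 0 := by
    intro j
    rw [Derivation.leibniz_inv, hdx, smul_zero]
  have hV : ∀ j, ∀ v ∈ polySpace K x m, d j v ∈ polySpace K x m := by
    intro j v hv Q
    refine ⟨fun h => hreg j Q _ ((hv Q).1 h), fun h => ?_⟩
    have h1 := hreg j Q _ ((hv Q).2 h)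
    rw [Derivation.leibniz, Derivation.leibniz_pow, hdinv] at h1
    simpa using h1
  -- evaluation
  let ev : polySpace K x m →ₗ[K] (T → K) :=
    { toFun := fun f Q => valAt hN Q.1 (f : N)
      map_add' := by
        intro f g
        funext Q
        exact valAt_add hN Q.1 ((f.2 Q.1).1 (hTx Q.1 Q.2)) ((g.2 Q.1).1 (hTx Q.1 Q.2))
      map_smul' := by
        intro c f
        funext Q
        exact valAt_smul hN Q.1 ((f.2 Q.1).1 (hTx Q.1 Q.2)) c }
  have hinj : Function.Injective ev := by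
    rw [injective_iff_map_eq_zero]
    intro f hf
    apply Subtype.ext
    apply hr T (by omega) hTx f f.2
    intro Q hQ
    have h1 : valAt hN Q (f : N) = 0 := congrFun hf ⟨Q, hQ⟩
    have h2 := valAt_spec hN Q ((f.2 Q).1 (hTx Q hQ))
    rwa [h1, map_zero, sub_zero] at h2
  have hev : ∀ (j : J) (v : polySpace K x m) (Q : T),
      ev ⟨d j v, hV j v v.2⟩ Q = d0 j (ev v Q) := by
    intro j v Q
    change valAt hN Q.1 (d j (v : N)) = d0 j (valAt hN Q.1 (v : N))
    have hvQ := (v.2 Q.1).1 (hTx Q.1 Q.2)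
    apply valAt_eq hN Q.1 (hreg j Q.1 _ hvQ)
    have h1 := (hTsub Q.2).2 j _ (valAt_spec hN Q.1 hvQ)
    rwa [map_sub, hd] at h1
  have h1 := le_span_horizontal' d0 (fun j => (d j : N → N)) (polySpace K x m) hV ev hinj hev hsm
  exact Submodule.span_mono (fun v hv => hv.2) h1

end SC
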