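import Mathlib
import Pool.Agent.SC.Rigid
import Pool.Agent.SC.Const
import Pool.Agent.SC.PlaceExt

/-!
# Rigidity of unramified extensions, relative form
-/

namespace SC

open VC SCVP Polynomial IntermediateField

universe u

variable {K M N : Type u} [Field K] [IsAlgClosed K] [CharZero K] [Field M] [Algebra K M]
  [Field N] [Algebra K N] [Algebra M N] [IsScalarTower K M N]

/-- The finite extension `N` of the function field `M` over `K` is unramified at all places:
uniformizers stay uniformizers. -/
def Unram (K M N : Type u) [Field K] [Field M] [Algebra K M] [Field N] [Algebra K N]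
    [Algebra M N] : Prop :=
  ∀ (P : Place K M) (Q : Place K N), (∀ z : M, algebraMap M N z ∈ Q.ring ↔ z ∈ P.ring) →
    ∀ z : M, z ≠ 0 → ord P.ring z = 1 → ord Q.ring (algebraMap M N z) = 1

/-- The derivation data of a constant field extension: a family of derivations `dM j` of `M`
acting on `K` by `d0 j`, an element `x` killed by all `dM j`, at every place a uniformizer with
regular derivatives, and infinitely many places with a uniformizer killed by all `dM j`. -/
structure DerData {J : Type*} (d0 : J → Derivation ℤ K K) (dM : J → Derivation ℤ M M)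
    (x : M) : Prop where
  const : ∀ (j : J) (a : K), dM j (algebraMap K M a) = algebraMap K M (d0 j a)
  trans : Transcendental K x
  kill : ∀ j, dM j x = 0
  unif : ∀ P : Place K M, ∃ π : M, π ≠ 0 ∧ ord P.ring π = 1 ∧ ∀ j, dM j π ∈ P.ring
  inf : {P : Place K M | x ∈ P.ring ∧
    ∃ π : M, π ≠ 0 ∧ ord P.ring π = 1 ∧ ∀ j, dM j π = 0}.Infinite

/-- **Rigidity, relative form.** -/
theorem rigid_rel (hM : IsFunctionField K M) (hN : IsFunctionField K N) {J : Type*}
    {d0 : J → Derivation ℤ K K} {dM : J → Derivation ℤ M M} {x : M} (hD : DerData d0 dM x)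
    (hunr : Unram K M N) :
    ∃ dN : J → Derivation ℤ N N,
      (∀ (j : J) (z : M), dN j (algebraMap M N z) = algebraMap M N (dM j z)) ∧
      ∀ y : N, ∃ s : K[X], s ≠ 0 ∧
        aeval (algebraMap M N x) s * y ∈ Submodule.span K {z : N | ∀ j, dN j z = 0} := by
  have hfin : Module.Finite M N := finite_of_isFunctionField hM hN
  have hcM : CharZero M := charZero_of_injective_algebraMap (algebraMap K M).injective
  have e2 : Algebra.FormallyEtale M N := Algebra.FormallyEtale.of_isSeparable _ _
  choose dN hdN using fun j => exists_deriv_ext (B := N) (dM j)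
  refine ⟨dN, hdN, fun y => ?_⟩
  let φ : M →ₐ[K] N := IsScalarTower.toAlgHom K M N
  have hcomap : ∀ (Q : Place K N) (z : M), algebraMap M N z ∈ Q.ring ↔
      z ∈ (Place.comap hM hN φ Q).ring := fun Q z => Iff.rfl
  have hdc : ∀ (j : J) (a : K), dN j (algebraMap K N a) = algebraMap K N (d0 j a) := by
    intro j a
    rw [IsScalarTower.algebraMap_apply K M N, hdN, hD.const, ← IsScalarTower.algebraMap_apply]
  have hreg : ∀ j, ∀ Q : Place K N, ∀ f ∈ Q.ring, dN j f ∈ Q.ring := by
    intro j Q
    obtain ⟨π, hπ0, hπ1, hπd⟩ := hD.unif (Place.comap hM hN φ Q)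
    have h1 : ord Q.ring (algebraMap M N π) = 1 := hunr _ Q (hcomap Q) π hπ0 hπ1
    refine deriv_mem hN Q (dN j) (fun a => ?_) ((_root_.map_ne_zero _).mpr hπ0) h1 ?_
    · rw [hdc]; exact Q.algebraMap_mem _
    · rw [hdN]; exact (hcomap Q _).mpr (hπd j)
  apply mem_span_const hN d0 dN hdc (x := algebraMap M N x)
    ((transcendental_algebraMap_iff (algebraMap M N).injective).mpr hD.trans) _ hreg _ y
  · intro j
    rw [hdN, hD.kill, map_zero]
  · -- infinitely many constant places
    have hsurj : ∀ P : Place K M, ∃ Q : Place K N, Place.comap hM hN φ Q = P := by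
      intro P
      obtain ⟨Q, hQ⟩ := exists_place_over (N := N) P
      refine ⟨Q, ?_⟩
      ext z
      exact hQ z
    choose g hg using hsurj
    have hginj : Function.Injective g := fun P P' h => by rw [← hg P, ← hg P', h]
    refine (hD.inf.image hginj.injOn).mono ?_
    rintro _ ⟨P, ⟨hPx, π, hπ0, hπ1, hπd⟩, rfl⟩
    refine ⟨?_, ?_⟩
    · rw [hcomap, hg]; exact hPx
    · have h1 : ord (g P).ring (algebraMap M N π) = 1 := by
        apply hunr _ (g P) (hcomap (g P)) π hπ0
        rw [hg]; exact hπ1
      intro j f hf
      have hp0 : algebraMap M N π ≠ 0 := (_root_.map_ne_zero _).mpr hπ0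
      have hpn : algebraMap M N π ∈ (g P).ring.nonunits := by
        rw [← ord_pos_iff hN (g P) hp0, h1]; norm_num
      rcases eq_or_ne f 0 with hf0 | hf0
      · rw [hf0, map_zero]
        exact (ValuationSubring.mem_nonunits_iff_or _).mpr (Or.inl rfl)
      · have hfd : f / algebraMap M N π ∈ (g P).ring := by
          rw [← ord_nonneg_iff hN (g P) (div_ne_zero hf0 hp0), div_eq_mul_inv,
            ord_mul hN _ hf0 (inv_ne_zero hp0), ord_inv hN _ hp0, h1]
          rw [← ord_pos_iff hN (g P) hf0] at hf
          omega
        have e : dN j f = dN j (f / algebraMap M N π) * algebraMap M N π := by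
          conv_lhs => rw [show f = (f / algebraMap M N π) * algebraMap M N π by field_simp]
          rw [Derivation.leibniz, hdN, hπd j, map_zero, smul_zero, zero_add, smul_eq_mul, mul_comm]
        rw [e]
        exact nonunits_mul (g P) (hreg j (g P) _ hfd) hpn

section final

variable {k F : Type u} [Field k] [Field F] [Algebra k K] [Algebra k F] [Algebra k N]
  [Algebra F M] [Algebra F N] [IsScalarTower k K N] [IsScalarTower k F N] [IsScalarTower F M N]

/-- **Rigidity of unramified covers.** The unramified extension `N` of `M`, a constant field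
extension of `F`, is generated over `K` by elements which are algebraic over `F`. -/
theorem rigid_span (hM : IsFunctionField K M) (hN : IsFunctionField K N) {J : Type*}
    {d0 : J → Derivation ℤ K K} {dM : J → Derivation ℤ M M} {x : F}
    (hD : DerData d0 dM (algebraMap F M x)) (hunr : Unram K M N)
    (hk : ∀ c : K, (∀ j, d0 j c = 0) → ∃ b : k, algebraMap k K b = c)
    (hF : ∀ (j : J) (a : F), dM j (algebraMap F M a) = 0) (hx : Transcendental k x) (y : N) :
    ∃ s : K[X], s ≠ 0 ∧
      aeval (algebraMap F N x) s * y ∈ Submodule.span K {z : N | IsAlgebraic F z} := by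
  obtain ⟨dN, hdN, h⟩ := rigid_rel hM hN hD hunr
  obtain ⟨s, hs0, hs⟩ := h y
  refine ⟨s, hs0, ?_⟩
  rw [← IsScalarTower.algebraMap_apply] at hs
  refine Submodule.span_mono ?_ hs
  intro z hz
  refine isAlgebraic_of_const hN d0 dN ?_ hk ?_ hx hz
  · intro j a
    rw [IsScalarTower.algebraMap_apply K M N, hdN, hD.const, ← IsScalarTower.algebraMap_apply]
  · intro j a
    rw [IsScalarTower.algebraMap_apply F M N, hdN, hF, map_zero]

/-- The same as a statement on fields. -/
theorem rigid_adjoin (hM : IsFunctionField K M) (hN : IsFunctionField K N) {J : Type*}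
    {d0 : J → Derivation ℤ K K} {dM : J → Derivation ℤ M M} {x : F}
    (hD : DerData d0 dM (algebraMap F M x)) (hunr : Unram K M N)
    (hk : ∀ c : K, (∀ j, d0 j c = 0) → ∃ b : k, algebraMap k K b = c)
    (hF : ∀ (j : J) (a : F), dM j (algebraMap F M a) = 0) (hx : Transcendental k x) :
    IntermediateField.adjoin M {z : N | IsAlgebraic F z} = ⊤ := by
  rw [eq_top_iff]
  intro y _
  obtain ⟨s, hs0, hs⟩ := rigid_span hM hN hD hunr hk hF hx y
  set A := IntermediateField.adjoin M {z : N | IsAlgebraic F z} with hA
  have hK : ∀ a : K, algebraMap K N a ∈ A := by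
    intro a
    rw [IsScalarTower.algebraMap_apply K M N]
    exact A.algebraMap_mem _
  have hspan : ∀ w ∈ Submodule.span K {z : N | IsAlgebraic F z}, w ∈ A := by
    intro w hw
    induction hw using Submodule.span_induction with
    | mem w hw => exact IntermediateField.subset_adjoin M _ hw
    | zero => exact A.zero_mem
    | add a b _ _ ha hb => exact A.add_mem ha hb
    | smul a b _ hb => rw [Algebra.smul_def]; exact A.mul_mem (hK a) hb
  have hxN : algebraMap F N x ∈ A := by
    rw [IsScalarTower.algebraMap_apply F M N]
    exact A.algebraMap_mem _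
  have hpoly : ∀ p : K[X], aeval (algebraMap F N x) p ∈ A := by
    intro p
    induction p using Polynomial.induction_on with
    | C a => rw [aeval_C]; exact hK a
    | add p q hp hq => rw [map_add]; exact A.add_mem hp hq
    | monomial n a ih =>
      rw [pow_succ, ← mul_assoc, map_mul, aeval_X]
      exact A.mul_mem ih hxN
  have hxt : Transcendental K (algebraMap F N x) := by
    have h1 := (transcendental_algebraMap_iff (R := K) (algebraMap M N).injective).mpr hD.trans
    rwa [← IsScalarTower.algebraMap_apply F M N] at h1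
  have hne : aeval (algebraMap F N x) s ≠ 0 := fun h0 => hs0 ((transcendental_iff.mp hxt) s h0)
  have h2 := A.mul_mem (A.inv_mem (hpoly s)) (hspan _ hs)
  rwa [← mul_assoc, inv_mul_cancel₀ hne, one_mul] at h2

end final

end SC
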