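import Mathlib
import Pool.Agent.SC.Rigid2
import Pool.Agent.SC.DerivAll
import Pool.Agent.Helper17.FF.ConstPl

/-!
# Rigidity of unramified covers of constant field extensions

`k ≤ Ω` are algebraically closed fields of characteristic zero, `F` is a function field over `k`
and `M` is the function field over `Ω` obtained by extending the constants. Every finite extension
`N` of `M` which is unramified at all places is generated over `M` by elements which are algebraic
over `F`.
-/

namespace SC

open VC Polynomial IntermediateField

universe u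

variable {k Ω F M : Type u} [Field k] [Field Ω] [Field F] [Field M] [Algebra k Ω] [Algebra k F]
  [Algebra Ω M] [Algebra F M] [Algebra k M] [IsScalarTower k Ω M] [IsScalarTower k F M]
  [IsAlgClosed k] [CharZero k] [IsAlgClosed Ω]

omit [IsAlgClosed k] [IsAlgClosed Ω] in
/-- Derivations of the constants extend to derivations which kill `F`. -/
theorem exists_deriv_constExt [CharZero Ω] (hM : FF.IsConstExt k Ω F M) (hF : IsFunctionField k F)
    (d0 : AllDer k Ω) : ∃ d : Derivation ℤ M M,
      (∀ a : Ω, d (algebraMap Ω M a) = algebraMap Ω M (d0.1 a)) ∧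
      ∀ a : F, d (algebraMap F M a) = 0 := by
  obtain ⟨x, hx, hfin⟩ := id hF
  have hMF := hM.isFunctionField hF
  obtain ⟨d, hd1, hd2⟩ := exists_deriv hMF (hM.transcendental hx) d0.1 0
  rw [map_zero] at hd2
  refine ⟨d, hd1, fun a => ?_⟩
  have hcM : CharZero M := charZero_of_injective_algebraMap (algebraMap Ω M).injective
  have hconst : ∀ c : k, d (algebraMap k M c) = 0 := by
    intro c
    rw [IsScalarTower.algebraMap_apply k Ω M, hd1, d0.2, map_zero]
  have hpoly : ∀ p : k[X], d (algebraMap F M (aeval x p)) = 0 := by
    intro p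
    induction p using Polynomial.induction_on with
    | C a =>
      rw [aeval_C, ← IsScalarTower.algebraMap_apply]
      exact hconst a
    | add p q hp hq => rw [map_add, map_add, map_add, hp, hq, add_zero]
    | monomial n a ih =>
      rw [pow_succ, ← mul_assoc, map_mul, aeval_X, map_mul, Derivation.leibniz, hd2, ih]
      simp
  have hle : ∀ y : k⟮x⟯, d (algebraMap k⟮x⟯ M y) = 0 := by
    intro y
    obtain ⟨r, s, hrs⟩ := (IntermediateField.mem_adjoin_simple_iff k (y : F)).mp y.2
    have e : algebraMap k⟮x⟯ M y = algebraMap F M (y : F) := rfl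
    rw [e, hrs, map_div₀, Derivation.leibniz_div, hpoly, hpoly]
    simp
  have halg : IsAlgebraic k⟮x⟯ (algebraMap F M a) :=
    (Algebra.IsAlgebraic.isAlgebraic (R := k⟮x⟯) a).algebraMap
  exact deriv_eq_zero_of_isAlgebraic d hle halg

omit [IsAlgClosed Ω] in
/-- A transcendental function is regular at infinitely many places. -/
lemma infinite_regular (hF : IsFunctionField k F) {x : F} (hx : Transcendental k x) :
    {P : Place k F | x ∈ P.ring}.Infinite := by
  have hk : Infinite k := IsAlgClosed.instInfinite
  have hex : ∀ c : k, ∃ P : Place k F, x - algebraMap k F c ∈ P.ring.nonunits := by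
    intro c
    apply exists_place hF
    intro h
    apply hx
    have h1 := h.add (isAlgebraic_algebraMap (R := k) (A := F) c)
    rwa [sub_add_cancel] at h1
  choose f hf using hex
  have hinj : Function.Injective f := by
    intro c c' h
    have h1 := hf c'
    rw [← h] at h1
    exact SCVP.residue_unique (f c) (hf c) h1
  refine (Set.infinite_range_of_injective hinj).mono ?_
  rintro _ ⟨c, rfl⟩
  have h1 := (f c).ring.add_mem _ _ (ValuationSubring.nonunits_subset (hf c))
    ((f c).algebraMap_mem c)
  rwa [sub_add_cancel] at h1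

/-- The derivation data of a constant field extension. -/
theorem derData_constExt [CharZero Ω] (hM : FF.IsConstExt k Ω F M) (hF : IsFunctionField k F)
    {x : F} (hx : Transcendental k x) :
    ∃ dM : AllDer k Ω → Derivation ℤ M M,
      DerData (fun j : AllDer k Ω => j.1) dM (algebraMap F M x) ∧
      ∀ (j : AllDer k Ω) (a : F), dM j (algebraMap F M a) = 0 := by
  choose dM hd1 hd2 using fun j : AllDer k Ω => exists_deriv_constExt hM hF j
  have hMF := hM.isFunctionField hF
  refine ⟨dM, ⟨hd1, hM.transcendental hx, fun j => hd2 j x, fun P => ?_, ?_⟩, hd2⟩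
  · rcases hM.over_or_gen hF P with ⟨P0, hP0⟩ | ⟨φ, hφ⟩
    · obtain ⟨π, hπ0, hπ⟩ := FF.exists_uniformizer hF P0
      refine ⟨algebraMap F M π, (_root_.map_ne_zero _).mpr hπ0, ?_, fun j => ?_⟩
      · rw [hP0.ord_eq hM hF, hπ]
      · rw [hd2]; exact P.ring.zero_mem
    · have h1 := hφ.ord_sub hM hF hx
      refine ⟨algebraMap F M x - algebraMap Ω M (φ x), ?_, h1, fun j => ?_⟩
      · intro h0
        rw [h0, FF.ord_zero] at h1
        exact absurd h1 (by norm_num)
      · rw [map_sub, hd2, hd1, zero_sub]
        exact P.ring.neg_mem _ (P.algebraMap_mem _)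
  · choose g hg using hM.exists_over hF
    have hginj : Function.Injective g := fun P P' h => (hg P).unique (h ▸ hg P')
    refine ((infinite_regular hF hx).image hginj.injOn).mono ?_
    rintro _ ⟨P, hP, rfl⟩
    obtain ⟨π, hπ0, hπ⟩ := FF.exists_uniformizer hF P
    refine ⟨(hg P x).mpr hP, algebraMap F M π, (_root_.map_ne_zero _).mpr hπ0, ?_, fun j => hd2 j π⟩
    rw [(hg P).ord_eq hM hF, hπ]

variable {N : Type u} [Field N] [Algebra Ω N] [Algebra M N] [Algebra F N] [Algebra k N]
  [IsScalarTower Ω M N] [IsScalarTower F M N] [IsScalarTower k Ω N] [IsScalarTower k F N]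

/-- **Constant field invariance of the fundamental group.** An unramified extension of a constant
field extension of `F` is generated by elements algebraic over `F`. -/
theorem adjoin_isAlgebraic_eq_top (hM : FF.IsConstExt k Ω F M) (hF : IsFunctionField k F)
    (hN : IsFunctionField Ω N) (hunr : Unram Ω M N) :
    IntermediateField.adjoin M {z : N | IsAlgebraic F z} = ⊤ := by
  have hcΩ : CharZero Ω := charZero_of_injective_algebraMap (algebraMap k Ω).injective
  obtain ⟨x, hx, -⟩ := id hF
  obtain ⟨dM, hD, hdF⟩ := derData_constExt hM hF hx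
  exact rigid_adjoin (hM.isFunctionField hF) hN hD hunr
    (fun c hc => exists_of_forall_deriv_eq_zero hc) hdF hx

end SC
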