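import Mathlib
import Pool.Agent.SC.RigidConst

/-!
# Descent of unramifiedness along constant field extensions
-/

namespace SC

open VC Polynomial IntermediateField
open scoped TensorProduct

universe u

section general

variable {k Ω F M : Type*} [Field k] [Field Ω] [Field F] [Field M] [Algebra k Ω] [Algebra k F]
  [Algebra Ω M] [Algebra F M] [Algebra k M] [IsScalarTower k Ω M] [IsScalarTower k F M]

/-- The product map is injective if the elements of a basis of `F` over `k` are independent
over `Ω`. -/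
theorem prodMap_injective {ι : Type*} (b : Module.Basis ι k F)
    (h : LinearIndependent Ω (fun i => algebraMap F M (b i))) :
    Function.Injective (FF.prodMap k Ω F M) := by
  let b' := Algebra.TensorProduct.basis Ω b
  rw [injective_iff_map_eq_zero]
  intro s hs
  rw [← b'.linearCombination_repr s, Finsupp.linearCombination_apply, Finsupp.sum, map_sum] at hs
  have h1 : ∀ i ∈ (b'.repr s).support, b'.repr s i = 0 := by
    apply linearIndependent_iff'.mp h (b'.repr s).support (fun i => b'.repr s i)
    rw [← hs]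
    refine Finset.sum_congr rfl fun i _ => ?_
    rw [Algebra.TensorProduct.basis_apply, TensorProduct.smul_tmul', smul_eq_mul, mul_one,
      FF.prodMap_tmul, Algebra.smul_def]
  rw [← b'.repr.map_eq_zero_iff]
  ext i
  by_contra hne
  exact hne (h1 i (Finsupp.mem_support_iff.mpr hne))

variable [IsAlgClosed k]

/-- Every place of `F` lies under a place of `M` if `Ω ⊗ F → M` is injective. -/
theorem exists_over_of_injective (hinj : Function.Injective (FF.prodMap k Ω F M))
    (hF : IsFunctionField k F) (P : Place k F) : ∃ Q : Place Ω M, FF.Over Q P := by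
  let a1 : Algebra k P.ring := FF.ringAlg P
  let evk : P.ring →ₐ[k] k := { FF.ev hF P with
    commutes' := fun c => FF.ev_algebraMap hF P c }
  let incl : P.ring →ₐ[k] F := { P.ring.subtype with commutes' := fun c => rfl }
  let j : Ω ⊗[k] P.ring →ₐ[k] M :=
    (FF.prodMap k Ω F M).comp (Algebra.TensorProduct.map (AlgHom.id k Ω) incl)
  let ψ : Ω ⊗[k] P.ring →ₐ[k] Ω :=
    Algebra.TensorProduct.productMap (AlgHom.id k Ω) ((Algebra.ofId k Ω).comp evk)
  have hjt : ∀ (a : Ω) (f : P.ring), j (a ⊗ₜ f) = algebraMap Ω M a * algebraMap F M f := by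
    intro a f
    change FF.prodMap k Ω F M (Algebra.TensorProduct.map (AlgHom.id k Ω) incl (a ⊗ₜ f)) = _
    rw [Algebra.TensorProduct.map_tmul, FF.prodMap_tmul]
    rfl
  have hψt : ∀ (a : Ω) (f : P.ring), ψ (a ⊗ₜ f) = a * algebraMap k Ω (FF.ev hF P f) := by
    intro a f
    change Algebra.TensorProduct.productMap (AlgHom.id k Ω) ((Algebra.ofId k Ω).comp evk)
      (a ⊗ₜ f) = _
    rw [Algebra.TensorProduct.productMap_apply_tmul]
    rfl
  have hjinj : Function.Injective j := by
    apply hinj.comp
    have h := Module.Flat.lTensor_preserves_injective_linearMap (M := Ω) incl.toLinearMap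
      Subtype.val_injective
    exact h
  obtain ⟨π, hπ0, hπ⟩ := FF.exists_uniformizer hF P
  have hπn : π ∈ P.ring.nonunits := by
    rw [← FF.ord_pos_iff hF P hπ0, hπ]; norm_num
  obtain ⟨Q, hQ1, hQ2⟩ := FF.exists_place_of_hom (Ω := Ω) (M := M) j.toRingHom ψ.toRingHom
    (fun a => ⟨a ⊗ₜ 1, by
      change j (a ⊗ₜ 1) = _
      rw [hjt]
      change algebraMap Ω M a * algebraMap F M 1 = _
      rw [map_one, mul_one]⟩)
    (fun b hb => by
      have : b = 0 := hjinj (by rw [map_zero]; exact hb)
      rw [this, map_zero])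
    ⟨1 ⊗ₜ ⟨π, ValuationSubring.nonunits_subset hπn⟩, by
      change ψ (1 ⊗ₜ ⟨π, ValuationSubring.nonunits_subset hπn⟩) = 0
      rw [hψt, (FF.ev_eq_zero_iff hF P _).mpr hπn, map_zero, mul_zero], by
      change j (1 ⊗ₜ ⟨π, ValuationSubring.nonunits_subset hπn⟩) ≠ 0
      rw [hjt, map_one, one_mul]
      exact (_root_.map_ne_zero _).mpr hπ0⟩
  have hmem : ∀ f ∈ P.ring, algebraMap F M f ∈ Q.ring := by
    intro f hf
    have := hQ1 (1 ⊗ₜ ⟨f, hf⟩)
    change j (1 ⊗ₜ ⟨f, hf⟩) ∈ _ at this
    rwa [hjt, map_one, one_mul] at this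
  have hnon : ∀ f ∈ P.ring.nonunits, algebraMap F M f ∈ Q.ring.nonunits := by
    intro f hf
    have := hQ2 (1 ⊗ₜ ⟨f, ValuationSubring.nonunits_subset hf⟩) (by
      change ψ (1 ⊗ₜ ⟨f, ValuationSubring.nonunits_subset hf⟩) = 0
      rw [hψt, (FF.ev_eq_zero_iff hF P _).mpr hf, map_zero, mul_zero])
    change j (1 ⊗ₜ ⟨f, ValuationSubring.nonunits_subset hf⟩) ∈ _ at this
    rwa [hjt, map_one, one_mul] at this
  refine ⟨Q, fun f => ⟨fun h => ?_, hmem f⟩⟩
  by_contra hf
  have hf0 : f ≠ 0 := by
    rintro rfl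
    exact hf P.ring.zero_mem
  have h1 : f⁻¹ ∈ P.ring.nonunits := by
    rw [ValuationSubring.inv_mem_nonunits_iff]
    exact Or.inr hf
  have h2 := hnon _ h1
  rw [map_inv₀, ValuationSubring.inv_mem_nonunits_iff] at h2
  rcases h2 with h2 | h2
  · exact hf0 ((map_eq_zero _).mp h2)
  · exact h2 h

variable [IsAlgClosed Ω]

/-- The ramification index. -/
lemma exists_ram (hF : IsFunctionField k F) (hM : IsFunctionField Ω M) {Q : Place Ω M}
    {P : Place k F} (h : FF.Over Q P) :
    ∃ e : ℤ, 0 < e ∧ ∀ f : F, f ≠ 0 → ord Q.ring (algebraMap F M f) = e * ord P.ring f := by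
  obtain ⟨π, hπ0, hπ⟩ := FF.exists_uniformizer hF P
  have hπ0' : algebraMap F M π ≠ 0 := (_root_.map_ne_zero _).mpr hπ0
  have hunit : ∀ f : F, f ≠ 0 → ord P.ring f = 0 → ord Q.ring (algebraMap F M f) = 0 := by
    intro f hf h0
    have hf' : algebraMap F M f ≠ 0 := (_root_.map_ne_zero _).mpr hf
    have h1 : 0 ≤ ord Q.ring (algebraMap F M f) := by
      rw [FF.ord_nonneg_iff hM Q hf', h f, ← FF.ord_nonneg_iff hF P hf, h0]
    have h2 : ¬ 0 < ord Q.ring (algebraMap F M f) := by
      rw [FF.ord_pos_iff hM Q hf', h.nonunits, ← FF.ord_pos_iff hF P hf, h0]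
      exact lt_irrefl _
    omega
  refine ⟨ord Q.ring (algebraMap F M π), ?_, fun f hf => ?_⟩
  · rw [FF.ord_pos_iff hM Q hπ0', h.nonunits, ← FF.ord_pos_iff hF P hπ0, hπ]
    norm_num
  · have h1 : f = (f / π ^ (ord P.ring f)) * π ^ (ord P.ring f) := by
      rw [div_mul_cancel₀ _ (zpow_ne_zero _ hπ0)]
    have h2 : f / π ^ (ord P.ring f) ≠ 0 := div_ne_zero hf (zpow_ne_zero _ hπ0)
    have h3 : ord P.ring (f / π ^ (ord P.ring f)) = 0 := by
      rw [FF.ord_div hF P hf (zpow_ne_zero _ hπ0), FF.ord_zpow hF P hπ0, hπ]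
      ring
    conv_lhs => rw [h1]
    rw [map_mul, map_zpow₀, FF.ord_mul hM Q ((_root_.map_ne_zero _).mpr h2)
      (zpow_ne_zero _ hπ0'), hunit _ h2 h3, FF.ord_zpow hM Q hπ0']
    ring

end general

section desc

variable {k Ω F M N L : Type u} [Field k] [Field Ω] [Field F] [Field M] [Algebra k Ω] [Algebra k F]
  [Algebra Ω M] [Algebra F M] [Algebra k M] [IsScalarTower k Ω M] [IsScalarTower k F M]
  [IsAlgClosed k] [CharZero k] [IsAlgClosed Ω]
  [Field N] [Algebra Ω N] [Algebra M N] [Algebra F N] [Algebra k N]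
  [IsScalarTower Ω M N] [IsScalarTower F M N] [IsScalarTower k Ω N] [IsScalarTower k F N]
  [Field L] [Algebra k L] [Algebra F L] [Algebra L N] [IsScalarTower k F L]
  [IsScalarTower k L N] [IsScalarTower F L N]

omit [IsAlgClosed Ω] [IsScalarTower k F N] [IsScalarTower k F L] in
/-- Constants and functions algebraic over `F` are linearly disjoint. -/
theorem prodMap_injective_of_isAlgebraic (hM : FF.IsConstExt k Ω F M) (hF : IsFunctionField k F)
    (hN : IsFunctionField Ω N) (halg : Algebra.IsAlgebraic F L) :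
    Function.Injective (FF.prodMap k Ω L N) := by
  have hcΩ : CharZero Ω := charZero_of_injective_algebraMap (algebraMap k Ω).injective
  have hMF := hM.isFunctionField hF
  have hfin : Module.Finite M N := finite_of_isFunctionField hMF hN
  have hcM : CharZero M := charZero_of_injective_algebraMap (algebraMap Ω M).injective
  have hcN : CharZero N := charZero_of_injective_algebraMap (algebraMap M N).injective
  have e2 : Algebra.FormallyEtale M N := Algebra.FormallyEtale.of_isSeparable _ _
  choose dM hd1 hd2 using fun j : AllDer k Ω => exists_deriv_constExt hM hF j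
  choose dN hdN using fun j => exists_deriv_ext (B := N) (dM j)
  let b := Module.Basis.ofVectorSpace k L
  apply prodMap_injective b
  apply linearIndependent_const (k := k) (fun j : AllDer k Ω => j.1) dN
  · intro j a
    rw [IsScalarTower.algebraMap_apply Ω M N, hdN, hd1, ← IsScalarTower.algebraMap_apply]
  · exact fun c hc => exists_of_forall_deriv_eq_zero hc
  · intro j i
    have h1 : IsAlgebraic F (algebraMap L N (b i)) := (halg.isAlgebraic (b i)).algebraMap
    apply deriv_eq_zero_of_isAlgebraic (dN j) _ h1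
    intro a
    rw [IsScalarTower.algebraMap_apply F M N, hdN, hd2, map_zero]
  · exact b.linearIndependent.map' (IsScalarTower.toAlgHom k L N).toLinearMap
      (LinearMap.ker_eq_bot.mpr (algebraMap L N).injective)

omit [IsScalarTower k F N] [IsScalarTower k F L] in
/-- **Descent of unramifiedness.** If `N` is unramified over the constant field extension `M` of
`F`, then every algebraic function field `L` over `F` inside `N` is unramified over `F`. -/
theorem unram_of_unram (hM : FF.IsConstExt k Ω F M) (hF : IsFunctionField k F)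
    (hN : IsFunctionField Ω N) (hL : IsFunctionField k L) (halg : Algebra.IsAlgebraic F L)
    (hunr : Unram Ω M N) : Unram k F L := by
  intro P Q hPQ z hz0 hz1
  have hMF := hM.isFunctionField hF
  obtain ⟨R, hR⟩ := exists_over_of_injective
    (prodMap_injective_of_isAlgebraic (N := N) (L := L) hM hF hN halg) hL Q
  obtain ⟨e, he0, he⟩ := exists_ram hL hN hR
  have hzL : algebraMap F L z ≠ 0 := (_root_.map_ne_zero _).mpr hz0
  have h1 := he _ hzL
  rw [← IsScalarTower.algebraMap_apply, IsScalarTower.algebraMap_apply F M N] at h1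
  let P' : Place Ω M := Place.comap hMF hN (IsScalarTower.toAlgHom Ω M N) R
  have hP' : FF.Over P' P := by
    intro f
    change algebraMap M N (algebraMap F M f) ∈ R.ring ↔ _
    rw [← IsScalarTower.algebraMap_apply F M N, IsScalarTower.algebraMap_apply F L N, hR, hPQ]
  have h2 : ord P'.ring (algebraMap F M z) = 1 := by
    rw [hP'.ord_eq hM hF, hz1]
  have h3 := hunr P' R (fun z => Iff.rfl) _ ((_root_.map_ne_zero _).mpr hz0) h2
  rw [h3] at h1
  have h4 : e * ord Q.ring (algebraMap F L z) = 1 := h1.symm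
  rcases Int.mul_eq_one_iff_eq_one_or_neg_one.mp h4 with ⟨_, h5⟩ | ⟨h5, _⟩
  · exact h5
  · omega

end desc

end SC
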