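import Mathlib
import Pool.Agent.SC.UnramDesc

/-!
# Linear disjointness of a field of transcendence degree one and an independent field
-/

namespace SC

open VC Polynomial IntermediateField

/-- A derivation into a vector space which kills a field kills the elements algebraic
over it. -/
theorem derivM_eq_zero_of_isAlgebraic {B V C₀ : Type*} [Field B] [CharZero B] [AddCommGroup V]
    [Module B V] (d : Derivation ℤ B V) [Field C₀] [Algebra C₀ B]
    (hC : ∀ c : C₀, d (algebraMap C₀ B c) = 0) {b : B} (hb : IsAlgebraic C₀ b) : d b = 0 := by
  have hcz : CharZero C₀ := by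
    refine ⟨fun m n h => ?_⟩
    have h1 := congrArg (algebraMap C₀ B) h
    rw [map_natCast, map_natCast] at h1
    exact Nat.cast_injective h1
  have key : ∀ p : C₀[X], d (aeval b p) = aeval b (derivative p) • d b := by
    intro p
    induction p using Polynomial.induction_on with
    | C a => rw [aeval_C, hC, derivative_C, map_zero, zero_smul]
    | add p q hp hq => rw [map_add, map_add, hp, hq, derivative_add, map_add, add_smul]
    | monomial n a ih =>
      rw [pow_succ, ← mul_assoc, map_mul, aeval_X, Derivation.leibniz, ih,
        derivative_mul (f := C a * X ^ n) (g := X), derivative_X, mul_one, map_add,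
        map_mul (aeval b) (derivative (C a * X ^ n)) X, aeval_X, add_smul, smul_smul, add_comm,
        mul_comm b]
  have hint : IsIntegral C₀ b := hb.isIntegral
  have h1 := key (minpoly C₀ b)
  rw [minpoly.aeval, map_zero] at h1
  have h2 : aeval b (derivative (minpoly C₀ b)) ≠ 0 := by
    apply Polynomial.Separable.aeval_derivative_ne_zero (minpoly.irreducible hint).separable
    exact minpoly.aeval C₀ b
  exact (smul_eq_zero.mp h1.symm).resolve_left h2

/-- The exchange lemma for one transcendental element. -/
theorem isAlgebraic_exchange {F N : Type*} [Field F] [Field N] [Algebra F N] {u z : N}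
    (halg : Algebra.IsAlgebraic F⟮u⟯ N) (hz : Transcendental F z) :
    Algebra.IsAlgebraic F⟮z⟯ N := by
  have h1 : Algebra.IsAlgebraic (Algebra.adjoin F {u}) N := by
    constructor
    intro x
    have := halg.isAlgebraic x
    exact IntermediateField.isAlgebraic_adjoin_iff.mp this
  have h2 := Algebra.IsAlgebraic.trdeg_le_cardinalMk F ({u} : Set N)
  have h3 : AlgebraicIndependent F (fun _ : Unit => z) := by
    rw [algebraicIndependent_unique_type_iff]
    exact hz
  have h4 := h3.isTranscendenceBasis_of_lift_trdeg_le_of_finite (by simpa using h2)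
  have h5 := h4.isAlgebraic_field
  rwa [Set.range_const] at h5

/-- The constants of a nonzero derivation of a field of transcendence degree one. -/
theorem isAlgebraic_of_deriv_eq_zero {F N : Type*} [Field F] [Field N] [Algebra F N] [CharZero N]
    (d : Derivation ℤ N N) (hF : ∀ a : F, d (algebraMap F N a) = 0) {u : N} (hu : d u ≠ 0)
    (halg : Algebra.IsAlgebraic F⟮u⟯ N) {z : N} (hz : d z = 0) : IsAlgebraic F z := by
  by_contra hcon
  have h1 := isAlgebraic_exchange halg hcon
  have hle : ∀ x ∈ F⟮z⟯, d x = 0 := by
    intro x hx
    obtain ⟨r, s, hrs⟩ := (IntermediateField.mem_adjoin_simple_iff F x).mp hx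
    have hpoly : ∀ p : F[X], d (aeval z p) = 0 := by
      intro p
      induction p using Polynomial.induction_on with
      | C a => rw [aeval_C]; exact hF a
      | add p q hp hq => rw [map_add, map_add, hp, hq, add_zero]
      | monomial n a ih =>
        rw [pow_succ, ← mul_assoc, map_mul, aeval_X, Derivation.leibniz, hz, ih]
        simp
    rw [hrs, Derivation.leibniz_div, hpoly, hpoly]
    simp
  exact hu (deriv_eq_zero_of_isAlgebraic d (fun c : F⟮z⟯ => hle c c.2) (h1.isAlgebraic u))

/-- If `x` is transcendental over `U` and `A` is algebraic over `E(x)`, then `A` and `U` are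
linearly disjoint over the algebraically closed field `E`. -/
theorem linearIndependent_of_transcendental {E A U L ι : Type*} [Field E] [Field A] [Field U]
    [Field L] [IsAlgClosed E] [CharZero E] [Algebra E A] [Algebra E U] [Algebra E L] [Algebra A L]
    [Algebra U L] [IsScalarTower E A L] [IsScalarTower E U L] {x : A}
    (hx : Transcendental U (algebraMap A L x)) (hA : Algebra.IsAlgebraic E⟮x⟯ A)
    {v : ι → U} (hv : LinearIndependent E v) :
    LinearIndependent A (fun i => algebraMap U L (v i)) := by
  have hcA : CharZero A := charZero_of_injective_algebraMap (algebraMap E A).injective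
  have hcU : CharZero U := charZero_of_injective_algebraMap (algebraMap E U).injective
  have hcL : CharZero L := charZero_of_injective_algebraMap (algebraMap E L).injective
  have hxE : Transcendental E x := by
    intro h
    apply hx
    have h1 : IsAlgebraic E (algebraMap A L x) := h.algebraMap
    exact h1.extendScalars (algebraMap E U).injective
  obtain ⟨D, hD1, hD2⟩ := exists_deriv_ne_zero hx
  obtain ⟨d, hd1, hd2⟩ := exists_deriv_ne_zero hxE
  set D' : Derivation ℤ L L := (D (algebraMap A L x))⁻¹ • D with hD'
  set d' : Derivation ℤ A A := (d x)⁻¹ • d with hd'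
  have hD'x : D' (algebraMap A L x) = 1 := by
    rw [hD', Derivation.smul_apply, smul_eq_mul, inv_mul_cancel₀ hD2]
  have hd'x : d' x = 1 := by
    rw [hd', Derivation.smul_apply, smul_eq_mul, inv_mul_cancel₀ hd2]
  have hD'U : ∀ u : U, D' (algebraMap U L u) = 0 := by
    intro u
    rw [hD', Derivation.smul_apply, hD1, smul_zero]
  have hd'E : ∀ c : E, d' (algebraMap E A c) = 0 := by
    intro c
    rw [hd', Derivation.smul_apply, hd1, smul_zero]
  -- the two derivations are compatible
  let δ : Derivation ℤ A L := D'.compAlgebraMap A - (Algebra.linearMap A L).compDer d'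
  have hδ : ∀ a : A, δ a = D' (algebraMap A L a) - algebraMap A L (d' a) := fun a => rfl
  have hδE : ∀ c : E, δ (algebraMap E A c) = 0 := by
    intro c
    rw [hδ, hd'E, map_zero, ← IsScalarTower.algebraMap_apply, IsScalarTower.algebraMap_apply E U L,
      hD'U, sub_zero]
  have hδx : δ x = 0 := by
    rw [hδ, hD'x, hd'x, map_one, sub_self]
  have hδp : ∀ p : E[X], δ (aeval x p) = 0 := by
    intro p
    induction p using Polynomial.induction_on with
    | C a => rw [aeval_C, hδE]
    | add p q hp hq => rw [map_add, map_add, hp, hq, add_zero]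
    | monomial n a ih =>
      rw [pow_succ, ← mul_assoc, map_mul, aeval_X, Derivation.leibniz, hδx, ih, smul_zero,
        smul_zero, add_zero]
  have hδ0 : ∀ a : A, δ a = 0 := by
    intro a
    apply derivM_eq_zero_of_isAlgebraic (C₀ := E⟮x⟯) δ _ (hA.isAlgebraic a)
    intro c
    obtain ⟨r, s, hrs⟩ := (IntermediateField.mem_adjoin_simple_iff E (c : A)).mp c.2
    change δ (c : A) = 0
    rw [hrs, Derivation.leibniz_div, hδp, hδp]
    simp
  have hcomp : ∀ a : A, D' (algebraMap A L a) = algebraMap A L (d' a) := by
    intro a
    have h := hδ0 a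
    rw [hδ, sub_eq_zero] at h
    exact h
  refine linearIndependent_const (k := E) (fun _ : Unit => d') (fun _ : Unit => D')
    (fun _ a => hcomp a) ?_ _ (fun _ i => hD'U _) ?_
  · intro c hc
    have h1 : IsAlgebraic E c := isAlgebraic_of_deriv_eq_zero d' hd'E
      (u := x) (by rw [hd'x]; exact one_ne_zero) hA (hc ())
    exact minpoly.mem_range_of_degree_eq_one E c
      (IsAlgClosed.degree_eq_one_of_irreducible E (minpoly.irreducible h1.isIntegral))
  · exact hv.map' (IsScalarTower.toAlgHom E U L).toLinearMap
      (LinearMap.ker_eq_bot.mpr (algebraMap U L).injective)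

end SC
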