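import Mathlib
import Pool.Agent.SC.Defs2
import Pool.Agent.Helper91.Section.Coeff
import Pool.Agent.Helper91.Section.Inv

/-!
# MP_e66f84_ag: the geometric setup inside the algebraic closure of `K`
-/

universe u

set_option linter.unusedSectionVars false

namespace Pool.Agent.SC

open VC Module Pool.Agent.Helper91.Sect IntermediateField

variable {k K : Type u} [Field k] [Field K] [Algebra k K]
  {E : Type u} [Field E] [Algebra E (kbar k K)]
  [Algebra E (AlgebraicClosure K)] [IsScalarTower E (kbar k K) (AlgebraicClosure K)]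

/-- The compositum of `kbar` and `K`. -/
noncomputable def KK (k K : Type u) [Field k] [Field K] [Algebra k K] :
    IntermediateField (kbar k K) (AlgebraicClosure K) :=
  IntermediateField.adjoin (kbar k K) (Set.range (algebraMap K (AlgebraicClosure K)))

/-- `K / k` becomes over `kbar` the constant extension of a function field `M1` over the
algebraically closed subfield `E` of `kbar`; the family `x` is a transcendence basis of `kbar / E`
which is algebraically independent over `M1`. -/
structure Isotrivial (k K : Type u) [Field k] [Field K] [Algebra k K] {E : Type u} [Field E]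
    [Algebra E (kbar k K)] [Algebra E (AlgebraicClosure K)]
    (M1 : IntermediateField E (AlgebraicClosure K)) {ι : Type u} (x : ι → kbar k K) : Prop where
  ffK : IsFunctionField k K
  ff : IsFunctionField E M1
  comp : IntermediateField.adjoin (kbar k K) (M1 : Set (AlgebraicClosure K)) = KK k K
  tr : AlgebraicIndependent M1 (fun i => (x i : AlgebraicClosure K))
  alg : Algebra.IsAlgebraic (IntermediateField.adjoin E (Set.range x)) (kbar k K)

/-- The elements of `Kur k K` which are algebraic over `M1`. -/
noncomputable def Kur0 (k : Type u) {K : Type u} [Field k] [Field K] [Algebra k K] {E : Type u} [Field E]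
    [Algebra E (kbar k K)] [Algebra E (AlgebraicClosure K)]
    [IsScalarTower E (kbar k K) (AlgebraicClosure K)]
    (M1 : IntermediateField E (AlgebraicClosure K)) :
    IntermediateField E (AlgebraicClosure K) where
  carrier := {z | z ∈ Kur k K ∧ IsAlgebraic M1 z}
  mul_mem' := fun ha hb => ⟨mul_mem ha.1 hb.1, ha.2.mul hb.2⟩
  add_mem' := fun ha hb => ⟨add_mem ha.1 hb.1, ha.2.add hb.2⟩
  algebraMap_mem' := fun c => by
    refine ⟨?_, ?_⟩
    · rw [IsScalarTower.algebraMap_apply E (kbar k K) (AlgebraicClosure K)]
      exact kbar_mem_Kur _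
    · exact isAlgebraic_algebraMap (A := AlgebraicClosure K) (⟨_, M1.algebraMap_mem c⟩ : M1)
  inv_mem' := fun _ ha => ⟨inv_mem ha.1, ha.2.inv⟩

theorem mem_Kur0 {M1 : IntermediateField E (AlgebraicClosure K)} {z : AlgebraicClosure K} :
    z ∈ Kur0 k M1 ↔ z ∈ Kur k K ∧ IsAlgebraic M1 z := Iff.rfl

theorem KK_le_Kur {z : AlgebraicClosure K} (hz : z ∈ KK k K) : z ∈ Kur k K := by
  let S : IntermediateField (kbar k K) (AlgebraicClosure K) :=
    { (Kur k K).toSubfield with
      algebraMap_mem' := fun c => kbar_mem_Kur c }
  have h1 : KK k K ≤ S := by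
    refine IntermediateField.adjoin_le_iff.2 ?_
    rintro _ ⟨c, rfl⟩
    exact (Kur k K).algebraMap_mem c
  exact h1 hz

theorem Isotrivial.le_Kur {M1 : IntermediateField E (AlgebraicClosure K)} {ι : Type u}
    {x : ι → kbar k K}
    (h : Isotrivial k K M1 x) {z : AlgebraicClosure K} (hz : z ∈ M1) : z ∈ Kur k K := by
  apply KK_le_Kur
  rw [← h.comp]
  exact IntermediateField.subset_adjoin _ _ hz

theorem Isotrivial.le_Kur0 {M1 : IntermediateField E (AlgebraicClosure K)} {ι : Type u}
    {x : ι → kbar k K}
    (h : Isotrivial k K M1 x) : M1 ≤ Kur0 k M1 := fun z hz =>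
  ⟨h.le_Kur hz, isAlgebraic_algebraMap (A := AlgebraicClosure K) (⟨z, hz⟩ : M1)⟩

end Pool.Agent.SC
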