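import Mathlib
import Pool.Agent.SC.Defs3
import Pool.Agent.Helper17.FF.Approx
import Pool.Agent.Helper91.Section.Decomp

/-!
# MP_e66f84_ag: residues and values of unramified elements (blocks RES and COV)
-/

universe u

set_option linter.unusedSectionVars false

namespace Pool.Agent.SC

open VC Module Pool.Agent.Helper91.Sect IntermediateField

section Trans

variable {L Ω : Type u} [Field L] [Field Ω] [Algebra L Ω] {O : ValuationSubring L}

/-- the inclusion of the integral closure in a valuation ring -/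
theorem integral_mem_val {V : ValuationSubring Ω} (hV : ∀ c ∈ O, algebraMap L Ω c ∈ V)
    {b : Ω} (hb : IsIntegral O b) : b ∈ V := by
  obtain ⟨p, hp, hb0⟩ := hb
  let f : O →+* V := ((algebraMap L Ω).comp O.subtype).codRestrict V.toSubring
    (fun c => hV c c.2)
  have h1 : IsIntegral V b := by
    refine ⟨p.map f, hp.map f, ?_⟩
    rw [Polynomial.eval₂_map]
    exact hb0
  obtain ⟨w, hw⟩ := IsIntegrallyClosed.algebraMap_eq_of_integral h1
  rw [← hw]
  exact w.2

/-- the center of a valuation ring on the integral closure -/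
def cenV (V : ValuationSubring Ω) (hV : ∀ c ∈ O, algebraMap L Ω c ∈ V) :
    Ideal (integralClosure O Ω) :=
  (IsLocalRing.maximalIdeal V).comap
    ((algebraMap (integralClosure O Ω) Ω).codRestrict V.toSubring
      (fun b => integral_mem_val hV b.2))

theorem mem_cenV {V : ValuationSubring Ω} (hV : ∀ c ∈ O, algebraMap L Ω c ∈ V)
    (b : integralClosure O Ω) : b ∈ cenV V hV ↔ V.valuation (b : Ω) < 1 := by
  rw [cenV, Ideal.mem_comap, V.valuation_lt_one_iff]
  rfl

instance cenV_isPrime (V : ValuationSubring Ω) (hV : ∀ c ∈ O, algebraMap L Ω c ∈ V) :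
    (cenV V hV).IsPrime := by
  unfold cenV
  infer_instance

theorem mem_iff_locW [Algebra.IsAlgebraic L Ω] {V : ValuationSubring Ω}
    (hV : ∀ c ∈ O, algebraMap L Ω c ∈ V) (z : Ω) : z ∈ locW (cenV V hV) ↔ z ∈ V := by
  have hsub : ∀ z : Ω, z ∈ locW (cenV V hV) → z ∈ V := by
    rintro z ⟨s, hs, hint⟩
    rw [mem_cenV, not_lt] at hs
    have h1 := integral_mem_val hV hint
    rw [← V.valuation_le_one_iff] at h1 ⊢
    rw [map_mul] at h1
    calc V.valuation z = 1 * V.valuation z := (one_mul _).symm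
      _ ≤ V.valuation (s : Ω) * V.valuation z := by gcongr
      _ ≤ 1 := h1
  refine ⟨hsub z, fun hz => ?_⟩
  by_contra hcon
  have hz0 : z ≠ 0 := by
    rintro rfl
    exact hcon (locW (cenV V hV)).zero_mem
  have h1 : z⁻¹ ∈ locW (cenV V hV) := ((locW (cenV V hV)).mem_or_inv_mem z).resolve_left hcon
  obtain ⟨s, hs, hint⟩ := h1
  have hs0 : (s : Ω) ≠ 0 := by
    intro h0
    apply hs
    rw [mem_cenV, h0, map_zero]
    exact zero_lt_one
  by_cases hb : (⟨_, hint⟩ : integralClosure O Ω) ∈ cenV V hV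
  · rw [mem_cenV] at hb
    change V.valuation ((s : Ω) * z⁻¹) < 1 at hb
    rw [mem_cenV, not_lt] at hs
    rw [← V.valuation_le_one_iff] at hz
    have h2 : V.valuation ((s : Ω) * z⁻¹) * V.valuation z = V.valuation (s : Ω) := by
      rw [← map_mul]
      congr 1
      field_simp
    have h3 : V.valuation (s : Ω) < 1 := by
      rw [← h2]
      exact mul_lt_one_of_lt_of_le hb hz
    exact absurd h3 (not_lt.2 hs)
  · apply hcon
    refine ⟨⟨_, hint⟩, hb, ?_⟩
    have : ((⟨_, hint⟩ : integralClosure O Ω) : Ω) * z = s := by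
      change (s : Ω) * z⁻¹ * z = s
      field_simp
    rw [this]
    exact s.2

/-- The automorphisms over `L` act transitively on the valuation rings with given trace. -/
theorem exists_conj_val [IsGalois L Ω] (V V' : ValuationSubring Ω)
    (h : ∀ c : L, algebraMap L Ω c ∈ V ↔ algebraMap L Ω c ∈ V') :
    ∃ σ : Ω ≃ₐ[L] Ω, ∀ z, σ z ∈ V' ↔ z ∈ V := by
  let O : ValuationSubring L := V.comap (algebraMap L Ω)
  have hV : ∀ c ∈ O, algebraMap L Ω c ∈ V := fun c hc => hc
  have hV' : ∀ c ∈ O, algebraMap L Ω c ∈ V' := fun c hc => (h c).1 hc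
  obtain ⟨σ, -, hσ⟩ := exists_conj (⊤ : Subgroup (Ω ≃ₐ[L] Ω)) isClosed_univ
    (cenV V hV) (cenV V' hV') (by
      intro b hb
      have h1 : ∀ f : Ω ≃ₐ[L] Ω, f (b : Ω) = b := fun f =>
        congrArg Subtype.val (hb f (Subgroup.mem_top f))
      obtain ⟨c, hc⟩ := (InfiniteGalois.mem_range_algebraMap_iff_fixed (k := L) (b : Ω)).2 h1
      rw [mem_cenV, mem_cenV, ← hc]
      have key : ∀ V : ValuationSubring Ω, V.valuation (algebraMap L Ω c) < 1 ↔
          c = 0 ∨ algebraMap L Ω c⁻¹ ∉ V := by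
        intro V
        rw [← ValuationSubring.mem_nonunits_iff, ValuationSubring.mem_nonunits_iff_or, map_inv₀,
          map_eq_zero]
      rw [key, key, h c⁻¹])
  refine ⟨σ, fun z => ?_⟩
  rw [← mem_iff_locW hV z, ← mem_iff_locW hV' (σ z)]
  constructor
  · rintro ⟨s, hs, hint⟩
    refine ⟨σ⁻¹ • s, fun hcon => hs ?_, ?_⟩
    · have := (hσ _).2 hcon
      rwa [smul_inv_smul] at this
    · have h2 : ((σ⁻¹ • s : integralClosure O Ω) : Ω) * z = σ⁻¹ (s * σ z) := by
        rw [coe_smulB, map_mul]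
        congr 1
        change z = (σ⁻¹ * σ) z
        rw [inv_mul_cancel]; rfl
      rw [h2]
      exact (σ⁻¹ • (⟨_, hint⟩ : integralClosure O Ω)).2
  · rintro ⟨s, hs, hint⟩
    refine ⟨σ • s, fun hcon => hs ((hσ _).1 hcon), ?_⟩
    have h2 : ((σ • s : integralClosure O Ω) : Ω) * σ z = σ (s * z) := by
      rw [coe_smulB, map_mul]
    rw [h2]
    exact (σ • (⟨_, hint⟩ : integralClosure O Ω)).2

end Trans

section FFin

variable {C M N : Type u} [Field C] [Field M] [Field N] [Algebra C M] [Algebra C N]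
  [Algebra M N] [IsScalarTower C M N]

theorem isFunctionField_of_finite_cov [FiniteDimensional M N] (hM : IsFunctionField C M) :
    IsFunctionField C N := by
  obtain ⟨t, ht, hfin⟩ := hM
  have ht' : Transcendental C (algebraMap M N t) :=
    (transcendental_algebraMap_iff (algebraMap M N).injective).mpr ht
  refine ⟨algebraMap M N t, ht', ?_⟩
  have hle : C⟮t⟯ ≤ (C⟮algebraMap M N t⟯).comap (IsScalarTower.toAlgHom C M N) := by
    rw [IntermediateField.adjoin_simple_le_iff]
    exact IntermediateField.mem_adjoin_simple_self C (algebraMap M N t)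
  let f : C⟮t⟯ →+* C⟮algebraMap M N t⟯ :=
    ((algebraMap M N).comp (algebraMap C⟮t⟯ M)).codRestrict (C⟮algebraMap M N t⟯).toSubring
      (fun x => hle x.2)
  let _ : Algebra C⟮t⟯ C⟮algebraMap M N t⟯ := f.toAlgebra
  have s2 : IsScalarTower C⟮t⟯ C⟮algebraMap M N t⟯ N := IsScalarTower.of_algebraMap_eq fun x => rfl
  have : FiniteDimensional C⟮t⟯ N := FiniteDimensional.trans C⟮t⟯ M N
  exact Module.Finite.of_restrictScalars_finite C⟮t⟯ C⟮algebraMap M N t⟯ N

end FFin

section Abs

variable {C M Ω : Type u} [Field C] [Field M] [Field Ω] [Algebra C M] [Algebra C Ω]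
  [Algebra M Ω] [IsScalarTower C M Ω]

theorem eq_top_of_forall_mem [Algebra.IsAlgebraic M Ω] {W : ValuationSubring Ω}
    (h : ∀ m : M, algebraMap M Ω m ∈ W) : W = ⊤ := by
  rw [eq_top_iff]
  intro y _
  let f : M →+* W := (algebraMap M Ω).codRestrict W.toSubring h
  obtain ⟨p, hp, hp'⟩ := Algebra.IsIntegral.isIntegral (R := M) y
  have h1 : IsIntegral W y := by
    refine ⟨p.map f, hp.map f, ?_⟩
    rw [Polynomial.eval₂_map]
    exact hp'
  obtain ⟨z, hz⟩ := IsIntegrallyClosed.isIntegral_iff.mp h1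
  rw [← hz]
  exact z.2

/-- the place induced by an embedding -/
def plc {N : Type u} [Field N] [Algebra C N] (W : ValuationSubring Ω) (j : N →+* Ω)
    (hj : ∀ c : C, j (algebraMap C N c) ∈ W) (hne : W.comap j ≠ ⊤) : Place C N :=
  ⟨W.comap j, hj, hne⟩

theorem mem_nonunits_plc {N : Type u} [Field N] [Algebra C N] {W : ValuationSubring Ω}
    {j : N →+* Ω} {hj : ∀ c : C, j (algebraMap C N c) ∈ W} {hne : W.comap j ≠ ⊤} {x : N}
    (hx : x ∈ (plc W j hj hne).ring.nonunits) : W.valuation (j x) < 1 := by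
  rw [← ValuationSubring.mem_nonunits_iff]
  rw [ValuationSubring.mem_nonunits_iff_or] at hx ⊢
  rcases hx with hx | hx
  · left; rw [hx, map_zero]
  · right
    rw [← map_inv₀]
    exact hx

theorem scalarTower_adjoin (z : Ω) : IsScalarTower C M⟮z⟯ Ω :=
  IsScalarTower.of_algebraMap_eq (fun c => by
    rw [IsScalarTower.algebraMap_apply C M M⟮z⟯, ← IsScalarTower.algebraMap_apply M M⟮z⟯ Ω,
      ← IsScalarTower.algebraMap_apply])

theorem exists_const_residue_abs [IsAlgClosed C] (hM : IsFunctionField C M)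
    [Algebra.IsAlgebraic M Ω] {W : ValuationSubring Ω} (hW : ∀ c : C, algebraMap C Ω c ∈ W)
    (hW1 : W ≠ ⊤) {z : Ω} (hz : z ∈ W) : ∃ c : C, W.valuation (z - algebraMap C Ω c) < 1 := by
  have hfin : FiniteDimensional M M⟮z⟯ :=
    adjoin.finiteDimensional (Algebra.IsIntegral.isIntegral (R := M) z)
  have hN : IsFunctionField C M⟮z⟯ := isFunctionField_of_finite_cov hM
  have htow : IsScalarTower C M⟮z⟯ Ω := scalarTower_adjoin z
  let P : Place C M⟮z⟯ := plc W (algebraMap M⟮z⟯ Ω) (fun c => by
    rw [← IsScalarTower.algebraMap_apply]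
    exact hW c) (fun h => by
      apply hW1
      refine eq_top_of_forall_mem (M := M) (fun m => ?_)
      have h1 : algebraMap M M⟮z⟯ m ∈ W.comap (algebraMap M⟮z⟯ Ω) := by
        rw [h]; trivial
      exact h1)
  obtain ⟨c, hc⟩ := FF.exists_residue hN P (x := ⟨z, mem_adjoin_simple_self M z⟩) hz
  refine ⟨c, ?_⟩
  have h1 := mem_nonunits_plc hc
  rw [map_sub, ← IsScalarTower.algebraMap_apply] at h1
  exact h1

theorem exists_val_eq_abs [IsAlgClosed C] (hM : IsFunctionField C M) [IsGalois M Ω]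
    [IsAlgClosed Ω] {W : ValuationSubring Ω} (hW : ∀ c : C, algebraMap C Ω c ∈ W)
    (hW1 : W ≠ ⊤) {u : Ω}
    (hu : ∀ σ : Ω ≃ₐ[M] Ω, (∀ z, σ z ∈ W ↔ z ∈ W) → σ u = u) :
    ∃ m : M, W.valuation u = W.valuation (algebraMap M Ω m) := by
  classical
  by_cases hu0 : u = 0
  · exact ⟨0, by rw [hu0, map_zero (algebraMap M Ω)]⟩
  have hfin : FiniteDimensional M M⟮u⟯ :=
    adjoin.finiteDimensional (Algebra.IsIntegral.isIntegral (R := M) u)
  have hN : IsFunctionField C M⟮u⟯ := isFunctionField_of_finite_cov hM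
  have htow : IsScalarTower C M⟮u⟯ Ω := scalarTower_adjoin u
  have hne : ∀ σ : M⟮u⟯ →ₐ[M] Ω, W.comap (σ : M⟮u⟯ →+* Ω) ≠ ⊤ := fun σ h => by
    apply hW1
    refine eq_top_of_forall_mem (M := M) (fun m => ?_)
    have h1 : algebraMap M M⟮u⟯ m ∈ W.comap (σ : M⟮u⟯ →+* Ω) := by
      rw [h]; trivial
    have h2 : σ (algebraMap M M⟮u⟯ m) ∈ W := h1
    rwa [σ.commutes] at h2
  have hco : ∀ (σ : M⟮u⟯ →ₐ[M] Ω) (c : C), (σ : M⟮u⟯ →+* Ω) (algebraMap C M⟮u⟯ c) ∈ W := by
    intro σ c
    have h1 : (σ : M⟮u⟯ →+* Ω) (algebraMap C M⟮u⟯ c) = algebraMap C Ω c := by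
      rw [IsScalarTower.algebraMap_apply C M M⟮u⟯]
      change σ (algebraMap M M⟮u⟯ (algebraMap C M c)) = _
      rw [σ.commutes, ← IsScalarTower.algebraMap_apply]
    rw [h1]
    exact hW c
  let pl : (M⟮u⟯ →ₐ[M] Ω) → Place C M⟮u⟯ := fun σ =>
    plc W (σ : M⟮u⟯ →+* Ω) (hco σ) (hne σ)
  let σ0 : M⟮u⟯ →ₐ[M] Ω := (M⟮u⟯).val
  let g : M⟮u⟯ := ⟨u, mem_adjoin_simple_self M u⟩
  -- the places are different
  have hdiff : ∀ σ : M⟮u⟯ →ₐ[M] Ω, pl σ = pl σ0 → σ = σ0 := by
    intro σ hσ
    let σ1 : Ω →ₐ[M] Ω := σ.liftNormal Ω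
    have hσ1 : ∀ x : M⟮u⟯, σ1 (x : Ω) = σ x := fun x => σ.liftNormal_commutes Ω x
    let σ2 : Ω ≃ₐ[M] Ω := AlgEquiv.ofBijective σ1 (Algebra.IsAlgebraic.algHom_bijective σ1)
    have hσ2 : ∀ x : M⟮u⟯, σ2 (x : Ω) = σ x := hσ1
    obtain ⟨h, hh⟩ := exists_conj_val (L := M⟮u⟯) W (W.comap (σ2 : Ω →+* Ω)) (fun c => by
      change (c : Ω) ∈ W ↔ σ2 (c : Ω) ∈ W
      rw [hσ2]
      have h1 : c ∈ (pl σ).ring ↔ c ∈ (pl σ0).ring := by rw [hσ]
      exact h1.symm)
    let ρ : Ω ≃ₐ[M] Ω := (h.restrictScalars M).trans σ2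
    have hρ := hu ρ (fun z => hh z)
    have h2 : h u = u := h.commutes g
    have h3 : σ2 u = u := by
      have h4 : σ2 (h u) = u := hρ
      rwa [h2] at h4
    have h5 : σ g = σ0 g := by
      rw [← hσ2]; exact h3
    apply (IntermediateField.adjoin.powerBasis
      (Algebra.IsIntegral.isIntegral (R := M) u)).algHom_ext
    exact h5
  -- approximation
  let S : Finset (Place C M⟮u⟯) := Finset.univ.image pl
  have hg0 : g ≠ 0 := fun h => hu0 (congrArg Subtype.val h)
  have hvg : FF.val hN (pl σ0) g ≠ 0 := (Valuation.ne_zero_iff _).mpr hg0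
  obtain ⟨z, hz⟩ := FF.approx hN S (fun Q => if Q = pl σ0 then g else 1)
    (min 0 (WithZero.log (FF.val hN (pl σ0) g)))
  -- at `σ0`
  have hz0 : W.valuation (z : Ω) = W.valuation u := by
    have h1 := hz (pl σ0) (Finset.mem_image_of_mem _ (Finset.mem_univ _))
    rw [if_pos rfl] at h1
    have h2 : FF.val hN (pl σ0) ((z - g) / g) < 1 := by
      rw [map_div₀, div_lt_one₀ (zero_lt_iff.mpr hvg)]
      refine lt_of_lt_of_le h1 ?_
      conv_rhs => rw [← WithZero.exp_log hvg]
      rw [WithZero.exp_le_exp]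
      exact min_le_right _ _
    rw [FF.val_lt_one_iff hN] at h2
    have h3 := mem_nonunits_plc h2
    have h4 : W.valuation ((z : Ω) - u) < W.valuation u := by
      have h5 : W.valuation (((z : Ω) - u) / u) < 1 := h3
      rw [map_div₀] at h5
      exact (div_lt_one₀ (zero_lt_iff.mpr ((Valuation.ne_zero_iff _).mpr hu0))).1 h5
    exact Valuation.map_eq_of_sub_lt _ h4
  have hz1 : ∀ σ : M⟮u⟯ →ₐ[M] Ω, σ ≠ σ0 → W.valuation (σ z) = 1 := by
    intro σ hσ
    have h1 := hz (pl σ) (Finset.mem_image_of_mem _ (Finset.mem_univ _))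
    rw [if_neg (fun h => hσ (hdiff σ h))] at h1
    have h2 : FF.val hN (pl σ) (z - 1) < 1 := by
      refine lt_of_lt_of_le h1 ?_
      rw [← WithZero.exp_zero, WithZero.exp_le_exp]
      exact min_le_left _ _
    rw [FF.val_lt_one_iff hN] at h2
    have h3 := mem_nonunits_plc h2
    have h4 : W.valuation (σ z - 1) < W.valuation 1 := by
      rw [map_one W.valuation]
      have h5 : W.valuation (σ (z - 1)) < 1 := h3
      rwa [map_sub, map_one] at h5
    rw [Valuation.map_eq_of_sub_lt _ h4, map_one]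
  refine ⟨Algebra.norm M z, ?_⟩
  rw [Algebra.norm_eq_prod_embeddings M Ω z, map_prod,
    ← Finset.mul_prod_erase Finset.univ _ (Finset.mem_univ σ0),
    Finset.prod_eq_one (fun σ hσ => hz1 σ (Finset.ne_of_mem_erase hσ)), mul_one]
  exact hz0.symm

end Abs

section Gen

variable {k K C M : Type u} [Field k] [Field K] [Field C] [Field M] [Algebra k K] [Algebra k C]
  [Algebra k M] [Algebra C M] [Algebra K M] [IsScalarTower k C M] [IsScalarTower k K M]

theorem isFunctionField_of_adjoin_eq_top [Algebra.IsAlgebraic k C] (hK : IsFunctionField k K)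
    (h : IntermediateField.adjoin C (Set.range (algebraMap K M)) = ⊤) :
    IsFunctionField C M := by
  obtain ⟨t, ht, hfin⟩ := hK
  have ht1 : Transcendental k (algebraMap K M t) :=
    (transcendental_algebraMap_iff (algebraMap K M).injective).mpr ht
  have ht' : Transcendental C (algebraMap K M t) := fun h1 => ht1 (h1.restrictScalars k)
  refine ⟨algebraMap K M t, ht', ?_⟩
  let A := C⟮algebraMap K M t⟯
  -- the elements of `K`
  have hle : ∀ x ∈ k⟮t⟯, algebraMap K M x ∈ A := by
    have h1 : k⟮t⟯ ≤ (A.restrictScalars k).comap (IsScalarTower.toAlgHom k K M) := by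
      rw [IntermediateField.adjoin_simple_le_iff]
      exact IntermediateField.mem_adjoin_simple_self C (algebraMap K M t)
    exact fun x hx => h1 hx
  let f : k⟮t⟯ →+* A :=
    ((algebraMap K M).comp (algebraMap k⟮t⟯ K)).codRestrict A.toSubring
      (fun x => hle x x.2)
  have halg : ∀ x : K, IsIntegral A (algebraMap K M x) := by
    intro x
    obtain ⟨p, hp, hp0⟩ := Algebra.IsIntegral.isIntegral (R := k⟮t⟯) x
    refine ⟨p.map f, hp.map f, ?_⟩
    rw [Polynomial.eval₂_map]
    have h1 : (algebraMap A M).comp f = (algebraMap K M).comp (algebraMap k⟮t⟯ K) := rfl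
    rw [h1, ← Polynomial.hom_eval₂, hp0, map_zero]
  let b := Module.finBasis k⟮t⟯ K
  let T : Set M := Set.range (fun i => algebraMap K M (b i))
  have hT : Finite T := Set.finite_range _
  have hfd : FiniteDimensional A (IntermediateField.adjoin A T) :=
    IntermediateField.finiteDimensional_adjoin (by
      rintro _ ⟨i, rfl⟩
      exact halg _)
  have htop : IntermediateField.adjoin A T = ⊤ := by
    have h1 : (⊤ : IntermediateField C M) ≤ (IntermediateField.adjoin A T).restrictScalars C := by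
      rw [← h, IntermediateField.adjoin_le_iff]
      rintro _ ⟨x, rfl⟩
      rw [SetLike.mem_coe, IntermediateField.mem_restrictScalars, ← b.sum_repr x, map_sum]
      refine sum_mem fun i _ => ?_
      rw [Algebra.smul_def, map_mul]
      refine mul_mem ?_ (IntermediateField.subset_adjoin A T ⟨i, rfl⟩)
      exact (IntermediateField.adjoin A T).algebraMap_mem (f (b.repr x i))
    rw [eq_top_iff]
    intro x _
    exact h1 (IntermediateField.mem_top (x := x))
  rw [htop] at hfd
  exact Module.Finite.equiv (IntermediateField.topEquiv (F := A) (E := M)).toLinearEquiv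

end Gen

section Kur

variable {k K : Type u} [Field k] [CharZero k] [Field K] [Algebra k K]

theorem algebraMap_mem_KK (x : K) : algebraMap K (AlgebraicClosure K) x ∈ KK k K :=
  IntermediateField.subset_adjoin _ _ ⟨x, rfl⟩

instance isAlgebraic_KK : Algebra.IsAlgebraic (KK k K) (AlgebraicClosure K) := by
  let i1 : Algebra K (KK k K) := ((algebraMap K (AlgebraicClosure K)).codRestrict
    (KK k K).toSubring algebraMap_mem_KK).toAlgebra
  have s1 : IsScalarTower K (KK k K) (AlgebraicClosure K) :=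
    IsScalarTower.of_algebraMap_eq fun x => rfl
  exact Algebra.IsAlgebraic.tower_top (K := K) (KK k K)

instance charZero_KK : CharZero (KK k K) :=
  charZero_of_injective_algebraMap (algebraMap k (KK k K)).injective

instance isGalois_KK : IsGalois (KK k K) (AlgebraicClosure K) := by
  have h1 : IsAlgClosure (KK k K) (AlgebraicClosure K) := ⟨inferInstance, isAlgebraic_KK⟩
  exact IsAlgClosure.isGalois (KK k K) (AlgebraicClosure K)

theorem isFunctionField_KK (hK : IsFunctionField k K) : IsFunctionField (kbar k K) (KK k K) := by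
  let i1 : Algebra K (KK k K) := ((algebraMap K (AlgebraicClosure K)).codRestrict
    (KK k K).toSubring algebraMap_mem_KK).toAlgebra
  have s1 : IsScalarTower k K (KK k K) := IsScalarTower.of_algebraMap_eq fun x => by
    apply Subtype.ext
    change algebraMap k (AlgebraicClosure K) x =
      algebraMap K (AlgebraicClosure K) (algebraMap k K x)
    rw [← IsScalarTower.algebraMap_apply]
  have s2 : IsScalarTower k (kbar k K) (KK k K) := IsScalarTower.of_algebraMap_eq fun x => rfl
  refine isFunctionField_of_adjoin_eq_top hK ?_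
  apply IntermediateField.map_injective (KK k K).val
  rw [IntermediateField.adjoin_map, ← AlgHom.fieldRange_eq_map, IntermediateField.fieldRange_val,
    ← Set.range_comp]
  rfl

/-- RES.  The residue field of a place of the algebraic closure of `K` over `k` is `kbar`. -/
theorem exists_const_residue (hK : IsFunctionField k K) (W : ValuationSubring (AlgebraicClosure K))
    (hW : ∀ c : k, algebraMap k (AlgebraicClosure K) c ∈ W) (hW1 : W ≠ ⊤)
    {z : AlgebraicClosure K} (hz : z ∈ W) :
    ∃ c : kbar k K, W.valuation (z - c) < 1 :=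
  exists_const_residue_abs (isFunctionField_KK hK)
    (fun c => const_mem hW (mem_algebraicClosure_iff.1 c.2)) hW1 hz

/-- COV.  The values of elements of `Kur` are values of elements of `K kbar`. -/
theorem exists_val_eq_of_mem_Kur (hK : IsFunctionField k K)
    (W : ValuationSubring (AlgebraicClosure K))
    (hW : ∀ c : k, algebraMap k (AlgebraicClosure K) c ∈ W)
    {u : AlgebraicClosure K} (hu : u ∈ Kur k K) :
    ∃ m ∈ KK k K, W.valuation u = W.valuation m := by
  by_cases hW1 : W = ⊤
  · by_cases hu0 : u = 0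
    · exact ⟨0, (KK k K).zero_mem, by rw [hu0]⟩
    · refine ⟨1, (KK k K).one_mem, ?_⟩
      rw [map_one]
      have h1 : W.valuation u ≤ 1 := (W.valuation_le_one_iff u).2 (by rw [hW1]; trivial)
      have h2 : W.valuation u⁻¹ ≤ 1 := (W.valuation_le_one_iff _).2 (by rw [hW1]; trivial)
      rw [map_inv₀] at h2
      have h3 : W.valuation u ≠ 0 := by simpa using hu0
      exact le_antisymm h1 ((inv_le_one₀ (zero_lt_iff.2 h3)).1 h2)
  · obtain ⟨m, hm⟩ := exists_val_eq_abs (C := kbar k K) (isFunctionField_KK hK)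
      (fun c => const_mem hW (mem_algebraicClosure_iff.1 c.2)) hW1 (u := u) (by
        intro σ hσ
        let σK : AlgebraicClosure K ≃ₐ[K] AlgebraicClosure K :=
          AlgEquiv.ofRingEquiv (f := (σ : AlgebraicClosure K ≃+* AlgebraicClosure K))
            (fun x => σ.commutes ⟨_, algebraMap_mem_KK x⟩)
        refine hu W hW σK ⟨hσ, fun z hz => ?_⟩
        obtain ⟨c, hc⟩ := exists_const_residue hK W hW hW1 hz
        have h1 : W.valuation (σ z - c) < 1 := by
          have h2 : σ z - c = σ (z - c) := by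
            rw [map_sub]
            congr 1
            exact (σ.commutes (algebraMap (kbar k K) (KK k K) c)).symm
          rw [h2]
          rw [← ValuationSubring.mem_nonunits_iff, ValuationSubring.mem_nonunits_iff_or] at hc ⊢
          rcases hc with hc | hc
          · left; rw [hc, map_zero]
          · right
            rw [← map_inv₀, hσ]
            exact hc
        have h3 : σ z - z = (σ z - c) - (z - c) := by ring
        change W.valuation (σ z - z) < 1
        rw [h3]
        exact (Valuation.map_sub _ _ _).trans_lt (max_lt h1 hc))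
    exact ⟨m, m.2, hm⟩

end Kur

end Pool.Agent.SC
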