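import Mathlib

/-!
# MP_e66f84_ag: valuations on a compositum (blocks EXT0, EXT2, LD, LIN, EXT1)
-/

universe u

namespace Pool.Agent.SC

section Dom

/-- Domination: a prime ideal (the kernel of `ψ`) of a subring (the range of `φ`) of a field is
the centre of a valuation ring. -/
theorem exists_val_ker {L T D : Type*} [Field L] [CommRing T] [CommRing D] [IsDomain D]
    (φ : T →+* L) (hφ : Function.Injective φ) (ψ : T →+* D) :
    ∃ V : ValuationSubring L, (∀ t, φ t ∈ V) ∧ ∀ t, V.valuation (φ t) < 1 ↔ ψ t = 0 := by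
  set S := φ.range with hS
  let e : T ≃+* S := RingEquiv.ofBijective φ.rangeRestrict
    ⟨fun a b hab => hφ (congrArg Subtype.val hab), φ.rangeRestrict_surjective⟩
  have he : ∀ t, ((e t : S) : L) = φ t := fun _ => rfl
  let Q : Ideal S := RingHom.ker (ψ.comp (e.symm : S →+* T))
  have hQ : ∀ t, e t ∈ Q ↔ ψ t = 0 := by
    intro t
    rw [RingHom.mem_ker]
    simp
  have hQp : Q.IsPrime := RingHom.ker_isPrime _
  obtain ⟨V, hle, hloc⟩ := (LocalSubring.ofPrime S Q).exists_le_valuationSubring
  have hmem : ∀ t, φ t ∈ V := fun t =>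
    hle (LocalSubring.le_ofPrime S Q (φ.mem_range_self t))
  refine ⟨V, hmem, fun t => ?_⟩
  have h1 := IsLocalization.AtPrime.isUnit_to_map_iff (LocalSubring.ofPrime S Q).toSubring Q (e t)
  have h2 : V.valuation (φ t) < 1 ↔ ¬ IsUnit (⟨φ t, hmem t⟩ : V) := by
    rw [← mem_nonunits_iff, ← IsLocalRing.mem_maximalIdeal, ValuationSubring.valuation_lt_one_iff]
  have h3 : IsUnit (⟨φ t, hmem t⟩ : V) ↔
      IsUnit (algebraMap S (LocalSubring.ofPrime S Q).toSubring (e t)) := by
    constructor
    · intro h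
      exact hloc.map_nonunit _ h
    · intro h
      exact h.map (Subring.inclusion hle)
  rw [h2, h3, h1, Ideal.primeCompl, ← hQ]
  exact not_not

theorem mul_lt_one_val {Γ : Type*} [LinearOrderedCommGroupWithZero Γ] {a b : Γ} (ha : a ≤ 1)
    (hb : b < 1) : a * b < 1 :=
  lt_of_le_of_lt (mul_le_of_le_one_left' ha) hb

theorem mem_of_integral' {A L : Type*} [Field A] [Field L] [Algebra A L] (V : ValuationSubring L)
    {E : Type*} [Field E] [Algebra E A] (F : IntermediateField E A)
    (hF : ∀ y ∈ F, algebraMap A L y ∈ V) {a : A} (ha : IsAlgebraic F a) :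
    algebraMap A L a ∈ V := by
  have h1 : IsIntegral F a := ha.isIntegral
  let ρ : F →+* V := ((algebraMap A L).comp (algebraMap F A)).codRestrict V
    (fun y => hF _ y.2)
  have h2 : IsIntegral V (algebraMap A L a) := by
    obtain ⟨P, hP, hPa⟩ := h1
    refine ⟨P.map ρ, hP.map ρ, ?_⟩
    have h3 : (algebraMap V L).comp ρ = (algebraMap A L).comp (algebraMap F A) := rfl
    rw [Polynomial.eval₂_map, h3, ← Polynomial.hom_eval₂, hPa, map_zero]
  obtain ⟨y, hy⟩ := IsIntegrallyClosed.isIntegral_iff.1 h2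
  rw [← hy]
  exact y.2

end Dom

section Ext

variable {E A U L : Type u} [Field E] [Field A] [Field U] [Field L]
  [Algebra E A] [Algebra E U] [Algebra E L] [Algebra A L] [Algebra U L]
  [IsScalarTower E A L] [IsScalarTower E U L]

/-- EXT0. -/
theorem exists_ext_prime {ι : Type u} (x : ι → A)
    (hx : AlgebraicIndependent U (fun i => algebraMap A L (x i)))
    (hA : Algebra.IsAlgebraic (IntermediateField.adjoin E (Set.range x)) A)
    (R : Subring U) (hR : ∀ c : E, algebraMap E U c ∈ R) (P : Ideal R) [P.IsPrime] :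
    ∃ V : ValuationSubring L, (∀ a : A, algebraMap A L a ∈ V) ∧
      (∀ r : R, algebraMap U L r ∈ V) ∧
      ∀ r : R, V.valuation (algebraMap U L r) < 1 ↔ r ∈ P := by
  let φ : MvPolynomial ι R →+* L :=
    ((MvPolynomial.aeval (fun i => algebraMap A L (x i)) :
      MvPolynomial ι U →ₐ[U] L) : MvPolynomial ι U →+* L).comp (MvPolynomial.map R.subtype)
  have hφ : Function.Injective φ := by
    have hx' : Function.Injective (MvPolynomial.aeval (R := U) fun i => algebraMap A L (x i)) := hx
    exact hx'.comp (MvPolynomial.map_injective _ Subtype.val_injective)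
  let ψ : MvPolynomial ι R →+* MvPolynomial ι (R ⧸ P) := MvPolynomial.map (Ideal.Quotient.mk P)
  obtain ⟨V, hV1, hV2⟩ := exists_val_ker (T := MvPolynomial ι R)
    (D := MvPolynomial ι (R ⧸ P)) φ hφ ψ
  have hC : ∀ r : R, φ (MvPolynomial.C r) = algebraMap U L r := by
    intro r
    simp [φ]
  have hRV : ∀ r : R, algebraMap U L r ∈ V := fun r => by rw [← hC]; exact hV1 _
  have hRP : ∀ r : R, V.valuation (algebraMap U L r) < 1 ↔ r ∈ P := by
    intro r
    rw [← hC, hV2]
    simp only [ψ, MvPolynomial.map_C]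
    rw [← MvPolynomial.C_0, (MvPolynomial.C_injective ι (R ⧸ P)).eq_iff,
      Ideal.Quotient.eq_zero_iff_mem]
  -- polynomials over `E`
  let ρ : E →+* R := (algebraMap E U).codRestrict R hR
  have hφE : ∀ f : MvPolynomial ι E, φ (MvPolynomial.map ρ f)
      = algebraMap A L (MvPolynomial.aeval x f) := by
    intro f
    have h1 : (φ.comp (MvPolynomial.map ρ)) =
        ((algebraMap A L).comp
          ((MvPolynomial.aeval x : MvPolynomial ι E →ₐ[E] A) : MvPolynomial ι E →+* A)) := by
      apply MvPolynomial.ringHom_ext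
      · intro c
        simp only [RingHom.comp_apply, MvPolynomial.map_C, hC]
        have h2 : ((ρ c : R) : U) = algebraMap E U c := rfl
        rw [h2, ← IsScalarTower.algebraMap_apply E U L]
        simp [← IsScalarTower.algebraMap_apply E A L]
      · intro i
        simp [φ]
    exact congrArg (fun g => g f) h1
  have hval : ∀ f : MvPolynomial ι E, f ≠ 0 →
      V.valuation (algebraMap A L (MvPolynomial.aeval x f)) = 1 := by
    intro f hf
    rw [← hφE]
    apply le_antisymm ((V.valuation_le_one_iff _).2 (hV1 _))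
    rw [← not_lt, hV2]
    simp only [ψ, MvPolynomial.map_map]
    intro h0
    apply hf
    apply MvPolynomial.map_injective ((Ideal.Quotient.mk P).comp ρ) (RingHom.injective _)
    rw [h0, map_zero]
  refine ⟨V, ?_, hRV, hRP⟩
  intro a
  refine mem_of_integral' V (IntermediateField.adjoin E (Set.range x)) ?_
    (hA.isAlgebraic a)
  intro y hy
  obtain ⟨r, s, rfl⟩ := (IntermediateField.mem_adjoin_range_iff E x y).1 hy
  rw [← ValuationSubring.valuation_le_one_iff, map_div₀, map_div₀]
  by_cases hs : s = 0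
  · simp [hs]
  by_cases hr : r = 0
  · simp [hr]
  rw [hval r hr, hval s hs, div_one]

/-- EXT2 (special case `R = W0` of EXT0). -/
theorem exists_ext_val {ι : Type u} (x : ι → A)
    (hx : AlgebraicIndependent U (fun i => algebraMap A L (x i)))
    (hA : Algebra.IsAlgebraic (IntermediateField.adjoin E (Set.range x)) A)
    (W0 : ValuationSubring U) (hE : ∀ c : E, algebraMap E U c ∈ W0) :
    ∃ V : ValuationSubring L, (∀ a : A, algebraMap A L a ∈ V) ∧
      ∀ u : U, algebraMap U L u ∈ V ↔ u ∈ W0 := by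
  obtain ⟨V, h1, h2, h3⟩ := exists_ext_prime (L := L) x hx hA W0.toSubring hE
    (IsLocalRing.maximalIdeal W0)
  refine ⟨V, h1, fun u => ⟨fun hu => ?_, fun hu => h2 ⟨u, hu⟩⟩⟩
  by_contra hu0
  have hu1 : u⁻¹ ∈ W0 := (W0.mem_or_inv_mem u).resolve_left hu0
  have hne : u ≠ 0 := fun h => hu0 (by rw [h]; exact W0.zero_mem)
  have hnu : (⟨u⁻¹, hu1⟩ : W0) ∈ IsLocalRing.maximalIdeal W0 := by
    rw [IsLocalRing.mem_maximalIdeal, mem_nonunits_iff]
    intro hun
    apply hu0
    obtain ⟨b, hb⟩ := hun.exists_right_inv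
    have h4 : u⁻¹ * (b : U) = 1 := congrArg Subtype.val hb
    have h5 : (b : U) = u := by
      rw [inv_mul_eq_one₀ hne] at h4
      exact h4.symm
    rw [← h5]
    exact b.2
  have h4 := (h3 ⟨u⁻¹, hu1⟩).2 hnu
  have h5 : V.valuation (algebraMap U L u) * V.valuation (algebraMap U L u⁻¹) = 1 := by
    rw [← map_mul, ← map_mul, mul_inv_cancel₀ hne, map_one, map_one]
  have h6 : V.valuation (algebraMap U L u) ≤ 1 := (V.valuation_le_one_iff _).2 hu
  have h7 := mul_lt_one_val h6 h4
  rw [h5] at h7
  exact lt_irrefl _ h7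

/-- LD.  Linear disjointness (EXT0 with a finitely generated `R` and a rational point). -/
theorem lin_disjoint [IsAlgClosed E] {ι : Type u} (x : ι → A)
    (hx : AlgebraicIndependent U (fun i => algebraMap A L (x i)))
    (hA : Algebra.IsAlgebraic (IntermediateField.adjoin E (Set.range x)) A)
    {κ : Type*} [Fintype κ] (a : κ → A) (ha : LinearIndependent E a) (u : κ → U)
    (h : ∑ i, algebraMap A L (a i) * algebraMap U L (u i) = 0) : ∀ i, u i = 0 := by
  intro i0
  by_contra hi0
  set R : Subalgebra E U := Algebra.adjoin E (Set.range u ∪ {(u i0)⁻¹}) with hR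
  have hft : Algebra.FiniteType E R := by
    rw [← Subalgebra.fg_iff_finiteType]
    refine ⟨((Set.finite_range u).union (Set.finite_singleton (u i0)⁻¹)).toFinset, ?_⟩
    rw [Set.Finite.coe_toFinset, hR]
  have huR : ∀ i, u i ∈ R := fun i => Algebra.subset_adjoin (Or.inl ⟨i, rfl⟩)
  have hinv : (u i0)⁻¹ ∈ R := Algebra.subset_adjoin (Or.inr rfl)
  obtain ⟨m, hm⟩ := Ideal.exists_maximal R
  let _ : Field (R ⧸ m) := Ideal.Quotient.field m
  have hfin : Module.Finite E (R ⧸ m) := by
    have : Algebra.FiniteType E (R ⧸ m) :=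
      Algebra.FiniteType.of_surjective (Ideal.Quotient.mkₐ E m) (Ideal.Quotient.mkₐ_surjective E m)
    exact finite_of_finite_type_of_isJacobsonRing E (R ⧸ m)
  have hbij : Function.Bijective (algebraMap E (R ⧸ m)) :=
    IsAlgClosed.algebraMap_bijective_of_isIntegral
  have hc : ∀ r : R, ∃ c : E, r - algebraMap E R c ∈ m := by
    intro r
    obtain ⟨c, hc⟩ := hbij.2 (Ideal.Quotient.mk m r)
    refine ⟨c, ?_⟩
    rw [← Ideal.Quotient.eq_zero_iff_mem, map_sub, ← hc]
    exact sub_self _
  choose c hcm using fun i => hc ⟨u i, huR i⟩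
  have hmp : m.IsPrime := hm.isPrime
  obtain ⟨V, hV1, hV2, hV3⟩ := exists_ext_prime (L := L) x hx hA R.toSubring
    (fun c => R.algebraMap_mem c) m
  have hlt : ∀ i, V.valuation (algebraMap U L (u i - algebraMap E U (c i))) < 1 := by
    intro i
    exact (hV3 (⟨u i, huR i⟩ - algebraMap E R (c i))).2 (hcm i)
  have hsum : ∑ i, algebraMap A L (a i) * algebraMap U L (u i - algebraMap E U (c i))
      = - algebraMap A L (∑ i, c i • a i) := by
    rw [map_sum, ← zero_sub, ← h, ← Finset.sum_sub_distrib]
    apply Finset.sum_congr rfl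
    intro i _
    rw [map_sub, mul_sub, Algebra.smul_def, map_mul, ← IsScalarTower.algebraMap_apply E U L,
      ← IsScalarTower.algebraMap_apply E A L]
    ring
  have hV4 : V.valuation (algebraMap A L (∑ i, c i • a i)) < 1 := by
    rw [← Valuation.map_neg, ← hsum]
    apply Valuation.map_sum_lt _ one_ne_zero
    intro i _
    rw [map_mul]
    exact mul_lt_one_val ((V.valuation_le_one_iff _).2 (hV1 _)) (hlt i)
  have h0 : ∑ i, c i • a i = 0 := by
    by_contra hne
    have h5 := (V.valuation_le_one_iff _).2 (hV1 (∑ i, c i • a i)⁻¹)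
    have h6 := mul_lt_one_val h5 hV4
    rw [← map_mul, ← map_mul, inv_mul_cancel₀ hne, map_one, map_one] at h6
    exact lt_irrefl _ h6
  have hc0 := Fintype.linearIndependent_iff.1 ha c h0 i0
  have h7 := hcm i0
  rw [hc0, map_zero, sub_zero] at h7
  apply hmp.ne_top
  rw [Ideal.eq_top_iff_one]
  have h8 := m.mul_mem_left (⟨(u i0)⁻¹, hinv⟩ : R) h7
  have h9 : (⟨(u i0)⁻¹, hinv⟩ : R) * ⟨u i0, huR i0⟩ = 1 :=
    Subtype.ext (inv_mul_cancel₀ hi0)
  rwa [h9] at h8

omit [Algebra E U] [Algebra E L] [IsScalarTower E A L] [IsScalarTower E U L] in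
theorem val_ne_zero_eq_one {V : ValuationSubring L} (hA : ∀ a : A, algebraMap A L a ∈ V) {a : A}
    (ha : a ≠ 0) : V.valuation (algebraMap A L a) = 1 := by
  apply le_antisymm ((V.valuation_le_one_iff _).2 (hA a))
  rw [← not_lt]
  intro h
  have h1 := mul_lt_one_val ((V.valuation_le_one_iff _).2 (hA a⁻¹)) h
  rw [← map_mul, ← map_mul, inv_mul_cancel₀ ha, map_one, map_one] at h1
  exact lt_irrefl _ h1

theorem val_lt_iff_of_trace {V V' : ValuationSubring L}
    (hVV' : ∀ u : U, algebraMap U L u ∈ V ↔ algebraMap U L u ∈ V') (u : U)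
    (h : V.valuation (algebraMap U L u) < 1) : V'.valuation (algebraMap U L u) < 1 := by
  by_cases hu : u = 0
  · rw [hu, map_zero, map_zero]
    exact zero_lt_one
  have h1 : ¬ algebraMap U L u⁻¹ ∈ V := by
    intro h2
    have h3 := mul_lt_one_val ((V.valuation_le_one_iff _).2 h2) h
    rw [← map_mul, ← map_mul, inv_mul_cancel₀ hu, map_one, map_one] at h3
    exact lt_irrefl _ h3
  rw [hVV', ← ValuationSubring.valuation_le_one_iff, not_le, map_inv₀, map_inv₀] at h1
  exact (one_lt_inv₀ (zero_lt_iff.2 fun h4 => by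
    rw [h4, inv_zero] at h1; exact absurd h1 (not_lt.2 zero_le_one))).1 h1

/-- elements of the ring `A[U]` are combinations of a basis of `A` over `E`. -/
theorem exists_repr {κ : Type*} (b : Module.Basis κ E A) {z : L}
    (hz : z ∈ Algebra.adjoin A (Set.range (algebraMap U L))) :
    ∃ w : κ →₀ U, z = w.sum (fun k u => algebraMap A L (b k) * algebraMap U L u) := by
  let Φ : (κ →₀ U) →+ L := Finsupp.liftAddHom (fun k =>
    (AddMonoidHom.mulLeft (algebraMap A L (b k))).comp (algebraMap U L).toAddMonoidHom)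
  have hΦ : ∀ w : κ →₀ U, Φ w = w.sum (fun k u => algebraMap A L (b k) * algebraMap U L u) :=
    fun _ => rfl
  have hΦs : ∀ k u, Φ (Finsupp.single k u) = algebraMap A L (b k) * algebraMap U L u := by
    intro k u
    rw [hΦ, Finsupp.sum_single_index]
    simp
  have h1 : ∀ (a : A) (u : U), algebraMap A L a * algebraMap U L u ∈ Φ.range := by
    intro a u
    have h2 : algebraMap A L a * algebraMap U L u =
        (b.repr a).sum (fun k r => algebraMap A L (b k) * algebraMap U L (r • u)) := by
      conv_lhs => rw [← b.linearCombination_repr a]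
      rw [Finsupp.linearCombination_apply, Finsupp.sum, map_sum, Finset.sum_mul, Finsupp.sum]
      apply Finset.sum_congr rfl
      intro k _
      rw [Algebra.smul_def, map_mul, Algebra.smul_def, map_mul,
        ← IsScalarTower.algebraMap_apply E A L, ← IsScalarTower.algebraMap_apply E U L]
      ring
    rw [h2]
    exact AddSubgroup.sum_mem _ fun k _ => ⟨Finsupp.single k _, hΦs _ _⟩
  have h2 : ∀ z ∈ Φ.range, ∀ (a : A) (u : U),
      z * (algebraMap A L a * algebraMap U L u) ∈ Φ.range := by
    rintro _ ⟨w, rfl⟩ a u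
    rw [hΦ, Finsupp.sum, Finset.sum_mul]
    refine AddSubgroup.sum_mem _ fun k _ => ?_
    have h3 := h1 (b k * a) (w k * u)
    rw [map_mul, map_mul] at h3
    convert h3 using 1
    ring
  have h3 : ∀ z ∈ Φ.range, ∀ z' ∈ Φ.range, z * z' ∈ Φ.range := by
    rintro z hz _ ⟨w, rfl⟩
    rw [hΦ, Finsupp.sum, Finset.mul_sum]
    exact AddSubgroup.sum_mem _ fun k _ => h2 z hz _ _
  have h4 : z ∈ Φ.range := by
    induction hz using Algebra.adjoin_induction with
    | mem x hx =>
      obtain ⟨u, rfl⟩ := hx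
      have := h1 1 u
      rwa [map_one, one_mul] at this
    | algebraMap a =>
      have := h1 a 1
      rwa [map_one, mul_one] at this
    | add x y _ _ hx hy => exact AddSubgroup.add_mem _ hx hy
    | mul x y _ _ hx hy => exact h3 x hx y hy
  obtain ⟨w, hw⟩ := h4
  exact ⟨w, by rw [← hΦ, hw]⟩

theorem val_sum_eq {κ : Type*} (b : Module.Basis κ E A) {V : ValuationSubring L}
    (hA : ∀ a : A, algebraMap A L a ∈ V) (s : Finset κ) (w : κ → U) (c : κ → E) {j : κ}
    (hj : j ∈ s) (hwj : w j ≠ 0) (hcj : c j ≠ 0)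
    (hlt : ∀ i ∈ s, V.valuation (algebraMap U L (w i / w j - algebraMap E U (c i))) < 1) :
    V.valuation (∑ i ∈ s, algebraMap A L (b i) * algebraMap U L (w i))
      = V.valuation (algebraMap U L (w j)) := by
  have hwj' : algebraMap U L (w j) ≠ 0 := by
    rwa [Ne, map_eq_zero_iff _ (algebraMap U L).injective]
  have h1 : (∑ i ∈ s, algebraMap A L (b i) * algebraMap U L (w i)) =
      (algebraMap A L (∑ i ∈ s, c i • b i) +
        ∑ i ∈ s, algebraMap A L (b i) * algebraMap U L (w i / w j - algebraMap E U (c i))) *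
        algebraMap U L (w j) := by
    rw [map_sum, ← Finset.sum_add_distrib, Finset.sum_mul]
    apply Finset.sum_congr rfl
    intro i _
    rw [map_sub, map_div₀, Algebra.smul_def, map_mul, ← IsScalarTower.algebraMap_apply E U L,
      ← IsScalarTower.algebraMap_apply E A L]
    field_simp
    ring
  have h2 : ∑ i ∈ s, c i • b i ≠ 0 := by
    intro h0
    exact hcj (linearIndependent_iff'.1 b.linearIndependent s c h0 j hj)
  have h3 := val_ne_zero_eq_one hA h2
  have h4 : V.valuation (∑ i ∈ s, algebraMap A L (b i) *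
      algebraMap U L (w i / w j - algebraMap E U (c i))) < 1 := by
    apply Valuation.map_sum_lt _ one_ne_zero
    intro i hi
    rw [map_mul]
    exact mul_lt_one_val ((V.valuation_le_one_iff _).2 (hA _)) (hlt i hi)
  rw [h1, map_mul, Valuation.map_add_eq_of_lt_left _ (by rw [h3]; exact h4), h3, one_mul]

/-- the common form of LIN and EXT1. -/
theorem exists_val_eq_two {V V' : ValuationSubring L} (hA : ∀ a : A, algebraMap A L a ∈ V)
    (hA' : ∀ a : A, algebraMap A L a ∈ V')
    (hres : ∀ u : U, algebraMap U L u ∈ V →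
      ∃ c : E, V.valuation (algebraMap U L (u - algebraMap E U c)) < 1)
    (hVV' : ∀ u : U, algebraMap U L u ∈ V ↔ algebraMap U L u ∈ V')
    {z : L} (hz : z ∈ IntermediateField.adjoin A (Set.range (algebraMap U L))) :
    ∃ u : U, V.valuation z = V.valuation (algebraMap U L u) ∧
      V'.valuation z = V'.valuation (algebraMap U L u) := by
  have key : ∀ y ∈ Algebra.adjoin A (Set.range (algebraMap U L)),
      ∃ u : U, V.valuation y = V.valuation (algebraMap U L u) ∧
        V'.valuation y = V'.valuation (algebraMap U L u) := by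
    intro y hy
    obtain ⟨w, rfl⟩ := exists_repr (Module.Basis.ofVectorSpace E A) hy
    by_cases hw : w = 0
    · exact ⟨0, by simp [hw], by simp [hw]⟩
    obtain ⟨j, hj, hmax⟩ := Finset.exists_max_image w.support
      (fun i => V.valuation (algebraMap U L (w i))) (Finsupp.support_nonempty_iff.2 hw)
    have hwj : w j ≠ 0 := Finsupp.mem_support_iff.1 hj
    have hmem : ∀ i ∈ w.support, algebraMap U L (w i / w j) ∈ V := by
      intro i hi
      rw [← ValuationSubring.valuation_le_one_iff, map_div₀, map_div₀]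
      exact div_le_one_of_le₀ (hmax i hi) zero_le
    have hc : ∀ i, ∃ c : E, i ∈ w.support →
        V.valuation (algebraMap U L (w i / w j - algebraMap E U c)) < 1 := by
      intro i
      by_cases hi : i ∈ w.support
      · obtain ⟨c, hc⟩ := hres _ (hmem i hi)
        exact ⟨c, fun _ => hc⟩
      · exact ⟨0, fun h => absurd h hi⟩
    choose c hc using hc
    have hcj : c j ≠ 0 := by
      intro h0
      have h1 := hc j hj
      rw [h0, map_zero, sub_zero, div_self hwj, map_one, map_one] at h1
      exact lt_irrefl _ h1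
    exact ⟨w j, val_sum_eq _ hA w.support w c hj hwj hcj fun i hi => hc i hi,
      val_sum_eq _ hA' w.support w c hj hwj hcj fun i hi =>
        val_lt_iff_of_trace hVV' _ (hc i hi)⟩
  obtain ⟨r, hr, s, hs, rfl⟩ := IntermediateField.mem_adjoin_iff_div.1 hz
  obtain ⟨u, hu1, hu2⟩ := key r hr
  obtain ⟨v, hv1, hv2⟩ := key s hs
  exact ⟨u / v, by simp only [map_div₀, hu1, hv1], by simp only [map_div₀, hu2, hv2]⟩

/-- LIN.  Values of elements of the compositum. -/
theorem exists_val_eq_of_adjoin (V : ValuationSubring L) (hA : ∀ a : A, algebraMap A L a ∈ V)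
    (hres : ∀ u : U, algebraMap U L u ∈ V →
      ∃ c : E, V.valuation (algebraMap U L (u - algebraMap E U c)) < 1)
    {z : L} (hz : z ∈ IntermediateField.adjoin A (Set.range (algebraMap U L))) :
    ∃ u : U, V.valuation z = V.valuation (algebraMap U L u) := by
  obtain ⟨u, hu, -⟩ := exists_val_eq_two hA hA hres (fun _ => Iff.rfl) hz
  exact ⟨u, hu⟩

/-- EXT1.  Uniqueness of the extension. -/
theorem ext_unique (hL : IntermediateField.adjoin A (Set.range (algebraMap U L)) = ⊤)
    {V V' : ValuationSubring L} (hA : ∀ a : A, algebraMap A L a ∈ V)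
    (hA' : ∀ a : A, algebraMap A L a ∈ V')
    (hres : ∀ u : U, algebraMap U L u ∈ V →
      ∃ c : E, V.valuation (algebraMap U L (u - algebraMap E U c)) < 1)
    (hVV' : ∀ u : U, algebraMap U L u ∈ V ↔ algebraMap U L u ∈ V') : V = V' := by
  apply SetLike.ext
  intro z
  have hz : z ∈ IntermediateField.adjoin A (Set.range (algebraMap U L)) := by
    rw [hL]; exact IntermediateField.mem_top
  obtain ⟨u, hu1, hu2⟩ := exists_val_eq_two hA hA' hres hVV' hz
  rw [← ValuationSubring.valuation_le_one_iff, hu1, ValuationSubring.valuation_le_one_iff, hVV',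
    ← ValuationSubring.valuation_le_one_iff, ← hu2, ValuationSubring.valuation_le_one_iff]

end Ext

end Pool.Agent.SC
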