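import Mathlib
import Pool.Agent.SC.Defs3
import Pool.Agent.SC.Ext
import Pool.Agent.SC.Cov
import Pool.Agent.SC.UnramDesc
import Pool.Agent.Helper91.Section.Quad

/-!
# Rigidity in the language of `Kur`
-/

universe u

namespace Pool.Agent.SC

open VC Module Pool.Agent.Helper91.Sect IntermediateField
open scoped TensorProduct

variable {k K : Type u} [Field k] [CharZero k] [Field K] [Algebra k K]
variable {E : Type u} [Field E] [IsAlgClosed E] [CharZero E] [Algebra E (kbar k K)]
  [Algebra E (AlgebraicClosure K)] [IsScalarTower E (kbar k K) (AlgebraicClosure K)]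

omit [CharZero k] [IsAlgClosed E] [CharZero E] [IsScalarTower E (kbar k K) (AlgebraicClosure K)] in
theorem Isotrivial.le_KK {M1 : IntermediateField E (AlgebraicClosure K)} {ι : Type u}
    {x : ι → kbar k K}
    (h : Isotrivial k K M1 x) (z : M1) : (z : AlgebraicClosure K) ∈ KK k K := by
  rw [← h.comp]
  exact IntermediateField.subset_adjoin _ _ z.2

/-- `KK` as an algebra over `M1`. -/
@[reducible] noncomputable def algM1KK {M1 : IntermediateField E (AlgebraicClosure K)}
    {ι : Type u} {x : ι → kbar k K} (h : Isotrivial k K M1 x) : Algebra M1 (KK k K) :=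
  ((algebraMap M1 (AlgebraicClosure K)).codRestrict (KK k K).toSubfield.toSubring
    (fun z => h.le_KK z)).toAlgebra

omit [CharZero k] [CharZero E] in
theorem isConstExt_KK {M1 : IntermediateField E (AlgebraicClosure K)} {ι : Type u}
    {x : ι → kbar k K}
    (h : Isotrivial k K M1 x) :
    letI := algM1KK h
    ∃ (_ : IsScalarTower E M1 (KK k K)), FF.IsConstExt E (kbar k K) M1 (KK k K) := by
  let i1 := algM1KK h
  have hval : ∀ z : M1, ((algebraMap M1 (KK k K) z : KK k K) : AlgebraicClosure K) = z :=
    fun z => rfl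
  have hT : IsScalarTower E M1 (KK k K) := by
    apply IsScalarTower.of_algebraMap_eq
    intro a
    apply Subtype.ext
    rw [hval]
    change ((algebraMap E (KK k K) a : KK k K) : AlgebraicClosure K) = algebraMap E _ a
    rw [IsScalarTower.algebraMap_apply E (kbar k K) (KK k K),
      IsScalarTower.algebraMap_apply E (kbar k K) (AlgebraicClosure K)]
    rfl
  have hprod : ∀ s : kbar k K ⊗[E] M1, ((FF.prodMap E (kbar k K) M1 (KK k K) s : KK k K) :
      AlgebraicClosure K) = FF.prodMap E (kbar k K) M1 (AlgebraicClosure K) s := by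
    intro s
    induction s using TensorProduct.induction_on with
    | zero => rw [map_zero, map_zero]; rfl
    | tmul a f => rw [FF.prodMap_tmul, FF.prodMap_tmul]; rfl
    | add a b ha hb => rw [map_add, map_add, ← ha, ← hb]; rfl
  refine ⟨hT, ?_, ?_⟩
  · let b := Module.Basis.ofVectorSpace E (kbar k K)
    have h1 : LinearIndependent M1 (fun i => algebraMap (kbar k K) (AlgebraicClosure K) (b i)) := by
      rw [linearIndependent_iff']
      intro s g hg i hi
      have h2 := lin_disjoint (U := M1) (L := AlgebraicClosure K) x h.tr h.alg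
        (fun i : s => b i) (b.linearIndependent.comp _ Subtype.val_injective) (fun i => g i) (by
          rw [← hg, ← Finset.sum_coe_sort s]
          refine Finset.sum_congr rfl fun j _ => ?_
          rw [Algebra.smul_def, mul_comm])
      exact h2 ⟨i, hi⟩
    have h2 := SC.prodMap_injective (k := E) (Ω := M1) (F := kbar k K)
      (M := AlgebraicClosure K) b h1
    have h3 : ∀ s : kbar k K ⊗[E] M1, FF.prodMap E (kbar k K) M1 (AlgebraicClosure K) s =
        FF.prodMap E M1 (kbar k K) (AlgebraicClosure K) (TensorProduct.comm E _ _ s) := by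
      intro s
      induction s using TensorProduct.induction_on with
      | zero => rw [map_zero, map_zero, map_zero]
      | tmul a f => rw [FF.prodMap_tmul, TensorProduct.comm_tmul, FF.prodMap_tmul, mul_comm]
      | add a b ha hb => rw [map_add, map_add, map_add, ← ha, ← hb]
    intro s t hst
    apply (TensorProduct.comm E (kbar k K) M1).injective
    apply h2
    rw [← h3, ← h3, ← hprod, ← hprod, hst]
  · intro z
    have hz : (z : AlgebraicClosure K) ∈
        IntermediateField.adjoin (kbar k K) (M1 : Set (AlgebraicClosure K)) := by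
      rw [h.comp]; exact z.2
    let ψ := FF.prodMap E (kbar k K) M1 (AlgebraicClosure K)
    have key : ∀ w ∈ IntermediateField.adjoin (kbar k K) (M1 : Set (AlgebraicClosure K)),
        ∃ s t : kbar k K ⊗[E] M1, ψ t ≠ 0 ∧ w * ψ t = ψ s := by
      intro w hw
      induction hw using IntermediateField.adjoin_induction with
      | mem w hw =>
        refine ⟨1 ⊗ₜ ⟨w, hw⟩, 1, ?_, ?_⟩
        · rw [map_one]; exact one_ne_zero
        · rw [map_one, mul_one, FF.prodMap_tmul, map_one, one_mul]; rfl
      | algebraMap a =>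
        refine ⟨a ⊗ₜ 1, 1, ?_, ?_⟩
        · rw [map_one]; exact one_ne_zero
        · rw [map_one, mul_one, FF.prodMap_tmul, map_one, mul_one]
      | add a b _ _ ha hb =>
        obtain ⟨s1, t1, h1, h1'⟩ := ha
        obtain ⟨s2, t2, h2, h2'⟩ := hb
        refine ⟨s1 * t2 + s2 * t1, t1 * t2, ?_, ?_⟩
        · rw [map_mul]; exact mul_ne_zero h1 h2
        · rw [map_mul, map_add, map_mul, map_mul, ← h1', ← h2']; ring
      | inv a _ ha =>
        obtain ⟨s1, t1, h1, h1'⟩ := ha
        by_cases ha0 : a = 0
        · refine ⟨0, 1, ?_, ?_⟩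
          · rw [map_one]; exact one_ne_zero
          · rw [ha0, inv_zero, zero_mul, map_zero]
        · refine ⟨t1, s1, ?_, ?_⟩
          · rw [← h1']; exact mul_ne_zero ha0 h1
          · rw [← h1', ← mul_assoc, inv_mul_cancel₀ ha0, one_mul]
      | mul a b _ _ ha hb =>
        obtain ⟨s1, t1, h1, h1'⟩ := ha
        obtain ⟨s2, t2, h2, h2'⟩ := hb
        refine ⟨s1 * s2, t1 * t2, ?_, ?_⟩
        · rw [map_mul]; exact mul_ne_zero h1 h2
        · rw [map_mul, map_mul, ← h1', ← h2']; ring
    obtain ⟨s, t, ht, hst⟩ := key z hz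
    refine ⟨s, t, ?_, ?_⟩
    · intro h0
      apply ht
      change FF.prodMap E (kbar k K) M1 (AlgebraicClosure K) t = 0
      rw [← hprod, h0]
      rfl
    · apply Subtype.ext
      change (z : AlgebraicClosure K) * ((FF.prodMap E (kbar k K) M1 (KK k K) t : KK k K) :
        AlgebraicClosure K) = _
      rw [hprod, hprod]
      exact hst

/-- A finite extension of a function field is a function field. -/
theorem isFunctionField_of_finite_rk {k M N : Type*} [Field k] [Field M] [Field N] [Algebra k M]
    [Algebra k N] [Algebra M N] [IsScalarTower k M N] (hM : IsFunctionField k M)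
    (hfin : FiniteDimensional M N) : IsFunctionField k N := by
  obtain ⟨t, ht, hft⟩ := hM
  refine ⟨algebraMap M N t, (transcendental_algebraMap_iff (algebraMap M N).injective).mpr ht, ?_⟩
  have h1 : FiniteDimensional k⟮t⟯ N := Module.Finite.trans M N
  have hmem : ∀ y : k⟮t⟯, algebraMap k⟮t⟯ N y ∈ k⟮algebraMap M N t⟯ := by
    intro y
    have h2 : algebraMap M N (y : M) ∈ (k⟮t⟯).map (IsScalarTower.toAlgHom k M N) :=
      ⟨y, y.2, rfl⟩
    rw [IntermediateField.adjoin_map, Set.image_singleton] at h2
    exact h2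
  let i1 : Algebra k⟮t⟯ k⟮algebraMap M N t⟯ :=
    ((algebraMap k⟮t⟯ N).codRestrict k⟮algebraMap M N t⟯.toSubfield.toSubring hmem).toAlgebra
  have s1 : IsScalarTower k⟮t⟯ k⟮algebraMap M N t⟯ N := IsScalarTower.of_algebraMap_eq fun _ => rfl
  exact Module.Finite.of_restrictScalars_finite k⟮t⟯ _ _

/-- An extension of function fields in which the values do not change is unramified. -/
theorem unram_of_values {k0 F N Ω : Type*} [Field k0] [IsAlgClosed k0] [Field F] [Field N]
    [Field Ω] [Algebra k0 F] [Algebra k0 N] [Algebra k0 Ω] [Algebra F N] [Algebra N Ω]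
    [IsScalarTower k0 F N] [IsScalarTower k0 N Ω] (hF : IsFunctionField k0 F)
    (hN : IsFunctionField k0 N)
    (hcov : ∀ W : ValuationSubring Ω, (∀ c : k0, algebraMap k0 Ω c ∈ W) → ∀ u : N, ∃ m : F,
      W.valuation (algebraMap N Ω u) = W.valuation (algebraMap N Ω (algebraMap F N m)))
    (P : Place k0 F) (Q : Place k0 N) (hPQ : ∀ z : F, algebraMap F N z ∈ Q.ring ↔ z ∈ P.ring)
    (z : F) (hz0 : z ≠ 0) (hz1 : ord P.ring z = 1) : ord Q.ring (algebraMap F N z) = 1 := by
  obtain ⟨W, hW⟩ := SC.exists_place_over (N := Ω) Q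
  obtain ⟨π, hπ0, hπ⟩ := FF.exists_uniformizer hN Q
  obtain ⟨m, hm⟩ := hcov W.ring (fun c => W.algebraMap_mem c) π
  have hπ0' : algebraMap N Ω π ≠ 0 := (_root_.map_ne_zero _).mpr hπ0
  have hm0 : m ≠ 0 := by
    rintro rfl
    rw [map_zero, map_zero, map_zero] at hm
    exact hπ0' ((Valuation.zero_iff _).mp hm)
  have hmN0 : algebraMap F N m ≠ 0 := (_root_.map_ne_zero _).mpr hm0
  have hmΩ0 : algebraMap N Ω (algebraMap F N m) ≠ 0 := (_root_.map_ne_zero _).mpr hmN0
  have hvm : W.ring.valuation (algebraMap N Ω (algebraMap F N m)) ≠ 0 := by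
    rw [Ne, Valuation.zero_iff]; exact hmΩ0
  have h1 : algebraMap F N m / π ∈ Q.ring := by
    rw [← hW, map_div₀, ← ValuationSubring.valuation_le_one_iff, map_div₀, hm, div_self hvm]
  have h2 : π / algebraMap F N m ∈ Q.ring := by
    rw [← hW, map_div₀, ← ValuationSubring.valuation_le_one_iff, map_div₀, hm, div_self hvm]
  rw [← FF.ord_nonneg_iff hN Q (div_ne_zero hmN0 hπ0), FF.ord_div hN Q hmN0 hπ0, hπ] at h1
  rw [← FF.ord_nonneg_iff hN Q (div_ne_zero hπ0 hmN0), FF.ord_div hN Q hπ0 hmN0, hπ] at h2
  have h3 : ord Q.ring (algebraMap F N m) = 1 := by omega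
  obtain ⟨e, he0, he⟩ := SC.exists_ram hF hN (Q := Q) (P := P) hPQ
  rw [he m hm0] at h3
  have he1 : e = 1 := by
    rcases Int.mul_eq_one_iff_eq_one_or_neg_one.mp h3 with ⟨h5, _⟩ | ⟨h5, _⟩
    · exact h5
    · omega
  rw [he z hz0, he1, hz1, one_mul]

/-- Rigidity in abstract form: `F` is a constant extension of `M1`, and `w` generates an extension
of `F` in which no new values appear; then `w` is generated over `F` by elements of `F(w)` which are
algebraic over `M1`. -/
theorem mem_adjoin_of_values {E k0 M1 F Ω : Type u} [Field E] [IsAlgClosed E] [CharZero E]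
    [Field k0] [IsAlgClosed k0] [Field M1] [Field F] [Field Ω] [Algebra E k0] [Algebra E M1]
    [Algebra E F] [Algebra k0 F] [Algebra M1 F] [Algebra k0 Ω] [Algebra F Ω]
    [IsScalarTower E k0 F] [IsScalarTower E M1 F] [IsScalarTower k0 F Ω]
    (hC : FF.IsConstExt E k0 M1 F) (hM : IsFunctionField E M1) {w : Ω} (hint : IsIntegral F w)
    (hcov : ∀ W : ValuationSubring Ω, (∀ c : k0, algebraMap k0 Ω c ∈ W) →
      ∀ u ∈ IntermediateField.adjoin F {w}, ∃ m : F,
        W.valuation u = W.valuation (algebraMap F Ω m))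
    (T : Subfield Ω) (hFT : ∀ m : F, algebraMap F Ω m ∈ T)
    (hT : ∀ z ∈ IntermediateField.adjoin F {w}, (∃ p : Polynomial M1, p ≠ 0 ∧
      Polynomial.eval₂ ((algebraMap F Ω).comp (algebraMap M1 F)) z p = 0) → z ∈ T) :
    w ∈ T := by
  have hKK : IsFunctionField k0 F := hC.isFunctionField hM
  let N := IntermediateField.adjoin F {w}
  have hfin : FiniteDimensional F N := IntermediateField.adjoin.finiteDimensional hint
  let i0 : Algebra k0 N := ((algebraMap F N).comp (algebraMap k0 F)).toAlgebra
  have t2 : IsScalarTower k0 F N := IsScalarTower.of_algebraMap_eq fun _ => rfl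
  have t1 : IsScalarTower k0 N Ω := IsScalarTower.of_algebraMap_eq fun c => by
    rw [IsScalarTower.algebraMap_apply k0 F Ω]; rfl
  have hN : IsFunctionField k0 N := isFunctionField_of_finite_rk hKK hfin
  let i3 : Algebra M1 N := ((algebraMap F N).comp (algebraMap M1 F)).toAlgebra
  let i4 : Algebra E N := ((algebraMap F N).comp (algebraMap E F)).toAlgebra
  have t3 : IsScalarTower M1 F N := IsScalarTower.of_algebraMap_eq fun _ => rfl
  have t5 : IsScalarTower E k0 N := IsScalarTower.of_algebraMap_eq fun c => by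
    change algebraMap F N (algebraMap E F c) = algebraMap F N (algebraMap k0 F (algebraMap E k0 c))
    rw [← IsScalarTower.algebraMap_apply E k0 F]
  have t6 : IsScalarTower E M1 N := IsScalarTower.of_algebraMap_eq fun c => by
    change algebraMap F N (algebraMap E F c) = algebraMap F N (algebraMap M1 F (algebraMap E M1 c))
    rw [← IsScalarTower.algebraMap_apply E M1 F]
  have hunr : SC.Unram k0 F N :=
    unram_of_values (Ω := Ω) hKK hN (fun W hW u => by
      obtain ⟨m, hm⟩ := hcov W hW u u.2
      exact ⟨m, hm⟩)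
  have htop := SC.adjoin_isAlgebraic_eq_top (N := N) hC hM hN hunr
  let T' : IntermediateField F N :=
    { T.comap (algebraMap N Ω) with
      algebraMap_mem' := fun c => hFT c }
  have h4 : IntermediateField.adjoin F {z : N | IsAlgebraic M1 z} ≤ T' := by
    rw [IntermediateField.adjoin_le_iff]
    intro z hz
    refine hT z z.2 ?_
    obtain ⟨p, hp, hz⟩ := (hz : IsAlgebraic M1 z)
    refine ⟨p, hp, ?_⟩
    have h8 := congrArg (algebraMap N Ω) hz
    rw [Polynomial.aeval_def, map_zero, Polynomial.hom_eval₂] at h8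
    exact h8
  rw [htop] at h4
  have h7 : (⟨w, IntermediateField.mem_adjoin_simple_self _ w⟩ : N) ∈ T' := h4 trivial
  exact h7

omit [CharZero k] in
/-- Rigidity, from the statement on the values of the elements of `Kur`. -/
theorem mem_adjoin_of_mem_Kur_aux {M1 : IntermediateField E (AlgebraicClosure K)} {ι : Type u}
    {x : ι → kbar k K}
    (h : Isotrivial k K M1 x)
    (hcov : ∀ W : ValuationSubring (AlgebraicClosure K),
      (∀ c : k, algebraMap k (AlgebraicClosure K) c ∈ W) →
      ∀ u ∈ Kur k K, ∃ m ∈ KK k K, W.valuation u = W.valuation m)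
    {w : AlgebraicClosure K} (hw : w ∈ Kur k K) :
    w ∈ IntermediateField.adjoin (kbar k K) (Kur0 k M1 : Set (AlgebraicClosure K)) := by
  let i1 := algM1KK h
  obtain ⟨hT, hC⟩ := isConstExt_KK h
  have hKmem : ∀ a : K, algebraMap K (AlgebraicClosure K) a ∈ KK k K := fun a =>
    IntermediateField.subset_adjoin _ _ ⟨a, rfl⟩
  let i2 : Algebra K (KK k K) := ((algebraMap K (AlgebraicClosure K)).codRestrict
    (KK k K).toSubfield.toSubring hKmem).toAlgebra
  have s2 : IsScalarTower K (KK k K) (AlgebraicClosure K) :=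
    IsScalarTower.of_algebraMap_eq fun _ => rfl
  have hint : IsIntegral (KK k K) w :=
    ((AlgebraicClosure.isAlgebraic K).isAlgebraic w).isIntegral.tower_top
  -- `N` is contained in `Kur`
  have hNKur : ∀ z ∈ IntermediateField.adjoin (KK k K) {w}, z ∈ Kur k K := by
    let S : IntermediateField (KK k K) (AlgebraicClosure K) :=
      { (Kur k K).toSubfield with
        algebraMap_mem' := fun c => KK_le_Kur c.2 }
    have h1 : IntermediateField.adjoin (KK k K) {w} ≤ S := by
      rw [IntermediateField.adjoin_simple_le_iff]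
      exact hw
    exact fun z hz => h1 hz
  refine mem_adjoin_of_values (Ω := AlgebraicClosure K) hC h.ff hint (fun W hW u hu => ?_)
    (IntermediateField.adjoin (kbar k K) (Kur0 k M1 : Set (AlgebraicClosure K))).toSubfield
    (fun m => ?_) (fun z hz hp => ?_)
  · obtain ⟨m, hmK, hm⟩ := hcov W (fun c => by
      rw [IsScalarTower.algebraMap_apply k (kbar k K) (AlgebraicClosure K)]
      exact hW _) u (hNKur u hu)
    exact ⟨⟨m, hmK⟩, hm⟩
  · obtain ⟨m, hm⟩ := m
    have hc : m ∈ KK k K := hm
    rw [← h.comp] at hc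
    refine IntermediateField.adjoin.mono _ _ _ ?_ hc
    exact fun z hz => h.le_Kur0 hz
  · obtain ⟨p, hp0, hp⟩ := hp
    exact IntermediateField.subset_adjoin _ _ ⟨hNKur z hz, p, hp0, hp⟩

/-- D3'.  Rigidity: `Kur` is generated by the constants and by the elements algebraic over `M1`. -/
theorem mem_adjoin_of_mem_Kur {M1 : IntermediateField E (AlgebraicClosure K)} {ι : Type u}
    {x : ι → kbar k K}
    (h : Isotrivial k K M1 x) {w : AlgebraicClosure K} (hw : w ∈ Kur k K) :
    w ∈ IntermediateField.adjoin (kbar k K) (Kur0 k M1 : Set (AlgebraicClosure K)) :=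
  mem_adjoin_of_mem_Kur_aux h
    (fun W hW _ hu => exists_val_eq_of_mem_Kur h.ffK W hW hu) hw

end Pool.Agent.SC
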