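import Mathlib

/-!
# MP_e66f84_ag, block RF: residue fields of valuation rings of `F(t)` containing `F` are finitely
generated.
-/

universe u

namespace Pool.Agent.SC

open Module Polynomial

namespace RF

/-- An element of a simple extension is a quotient of coprime polynomials. -/
theorem exists_coprime {F k : Type u} [Field F] [Field k] [Algebra F k] {t c : k}
    (hc : c ∈ IntermediateField.adjoin F {t}) :
    ∃ r s : F[X], IsCoprime r s ∧ aeval t s ≠ 0 ∧ c = aeval t r / aeval t s := by
  classical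
  rw [IntermediateField.mem_adjoin_simple_iff] at hc
  obtain ⟨r, s, hcrs⟩ := hc
  by_cases hs1 : aeval t s = 0
  · refine ⟨0, 1, isCoprime_one_right, ?_, ?_⟩
    · rw [map_one]; exact one_ne_zero
    · rw [hcrs, hs1, div_zero, map_zero, zero_div]
  have hs : s ≠ 0 := by
    rintro rfl
    exact hs1 (map_zero _)
  set d := EuclideanDomain.gcd r s with hd
  obtain ⟨r', hr'⟩ := EuclideanDomain.gcd_dvd_left r s
  obtain ⟨s', hs'⟩ := EuclideanDomain.gcd_dvd_right r s
  have hd0 : d ≠ 0 := by
    intro h0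
    exact hs (EuclideanDomain.gcd_eq_zero_iff.1 h0).2
  have hcop : IsCoprime r' s' := by
    refine ⟨EuclideanDomain.gcdA r s, EuclideanDomain.gcdB r s, ?_⟩
    have h1 := EuclideanDomain.gcd_eq_gcd_ab r s
    apply mul_left_cancel₀ hd0
    rw [mul_one, mul_add]
    conv_rhs => rw [hd, h1]
    rw [← hd] at hr' hs'
    conv_rhs => rw [hr', hs']
    have h2 : EuclideanDomain.gcdA r s = EuclideanDomain.gcdA (d * r') (d * s') := by
      rw [← hr', ← hs']
    have h3 : EuclideanDomain.gcdB r s = EuclideanDomain.gcdB (d * r') (d * s') := by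
      rw [← hr', ← hs']
    rw [h2, h3]
    ring
  have hd1 : aeval t d ≠ 0 := by
    intro h0
    apply hs1
    rw [hs', ← hd, map_mul, h0, zero_mul]
  refine ⟨r', s', hcop, ?_, ?_⟩
  · intro h0
    apply hs1
    rw [hs', map_mul, h0, mul_zero]
  · have h5 : aeval t r = aeval t d * aeval t r' := by rw [← map_mul, hd, ← hr']
    have h6 : aeval t s = aeval t d * aeval t s' := by rw [← map_mul, hd, ← hs']
    rw [hcrs, h5, h6, mul_div_mul_left _ _ hd1]

end RF

open RF

/-- RF.  Residue fields of `F(t) / F`. -/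
theorem residueField_fg {F k : Type u} [Field F] [CharZero F] [Field k] [Algebra F k]
    (hfg : ∃ S : Finset F, Subfield.closure (S : Set F) = ⊤) (t : k)
    (hk : IntermediateField.adjoin F {t} = ⊤)
    {O : ValuationSubring k} (hFO : ∀ c : F, algebraMap F k c ∈ O) :
    ∃ S : Finset (IsLocalRing.ResidueField O), Subfield.closure
      (S : Set (IsLocalRing.ResidueField O)) = ⊤ := by
  classical
  obtain ⟨S, hS⟩ := hfg
  -- replace `t` by its inverse if necessary
  obtain ⟨t', ht'O, hk'⟩ : ∃ t' : k, t' ∈ O ∧ IntermediateField.adjoin F {t'} = ⊤ := by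
    rcases O.mem_or_inv_mem t with h | h
    · exact ⟨t, h, hk⟩
    · refine ⟨t⁻¹, h, ?_⟩
      rw [eq_top_iff, ← hk, IntermediateField.adjoin_simple_le_iff]
      have h1 : t⁻¹ ∈ IntermediateField.adjoin F {t⁻¹} :=
        IntermediateField.mem_adjoin_simple_self F _
      have h2 := (IntermediateField.adjoin F {t⁻¹}).inv_mem h1
      rwa [inv_inv] at h2
  let f : F →+* O := (algebraMap F k).codRestrict O.toSubring hFO
  let φ : F →+* IsLocalRing.ResidueField O := (IsLocalRing.residue O).comp f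
  set x : IsLocalRing.ResidueField O := IsLocalRing.residue O ⟨t', ht'O⟩ with hx
  refine ⟨insert x (S.image φ), ?_⟩
  set K1 := Subfield.closure ((insert x (S.image φ) : Finset (IsLocalRing.ResidueField O)) :
    Set (IsLocalRing.ResidueField O)) with hK1
  have hxK : x ∈ K1 := Subfield.subset_closure (Finset.mem_coe.2 (Finset.mem_insert_self _ _))
  have hφK : ∀ a : F, φ a ∈ K1 := by
    intro a
    have h1 : Subfield.closure (S : Set F) ≤ K1.comap φ := by
      rw [Subfield.closure_le]
      intro b hb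
      exact Subfield.subset_closure (Finset.mem_coe.2 (Finset.mem_insert_of_mem
        (Finset.mem_image_of_mem _ hb)))
    rw [hS] at h1
    exact h1 (Subfield.mem_top a)
  have hcoe : ∀ g : F[X], ((eval₂ f ⟨t', ht'O⟩ g : O) : k) = aeval t' g := by
    intro g
    have h1 := hom_eval₂ g f O.subtype ⟨t', ht'O⟩
    exact h1
  have hres : ∀ g : F[X], IsLocalRing.residue O (eval₂ f ⟨t', ht'O⟩ g) = eval₂ φ x g := fun g =>
    hom_eval₂ g f (IsLocalRing.residue O) ⟨t', ht'O⟩
  have hpolyK : ∀ g : F[X], eval₂ φ x g ∈ K1 := by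
    intro g
    rw [eval₂_eq_sum_range]
    exact sum_mem fun i _ => mul_mem (hφK _) (pow_mem hxK i)
  rw [eq_top_iff]
  intro y _
  obtain ⟨c, rfl⟩ := IsLocalRing.residue_surjective y
  have hcx : (c : k) ∈ IntermediateField.adjoin F {t'} := by rw [hk']; trivial
  obtain ⟨r, s, hcop, hs, hc⟩ := exists_coprime hcx
  have h1 : eval₂ f ⟨t', ht'O⟩ s * c = eval₂ f ⟨t', ht'O⟩ r := by
    apply Subtype.val_injective
    change ((eval₂ f ⟨t', ht'O⟩ s : O) : k) * (c : k) = _
    rw [hcoe, hcoe, hc, mul_div_cancel₀ _ hs]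
  have h2 : eval₂ φ x s * IsLocalRing.residue O c = eval₂ φ x r := by
    rw [← hres, ← hres, ← map_mul, h1]
  have h3 : eval₂ φ x s ≠ 0 := by
    intro h0
    rw [h0, zero_mul] at h2
    obtain ⟨a, b, hab⟩ := hcop
    have h4 := congrArg (eval₂ φ x) hab
    rw [eval₂_add, eval₂_mul, eval₂_mul, ← h2, h0, mul_zero, mul_zero, add_zero, eval₂_one] at h4
    exact zero_ne_one h4
  have h4 : IsLocalRing.residue O c = (eval₂ φ x s)⁻¹ * eval₂ φ x r := by
    rw [← h2, inv_mul_cancel_left₀ h3]
  rw [h4]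
  exact mul_mem (inv_mem (hpolyK s)) (hpolyK r)

end Pool.Agent.SC
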