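import Mathlib
import Pool.Agent.SC.Defs2
import Pool.Agent.Helper91.Section.Coeff
import Pool.Agent.Helper91.Section.Inv

/-!
# Generation by inertia
-/

universe u

namespace Pool.Agent.SC

open Pool.Agent.Helper91.Sect

variable (F k K : Type u) [Field F] [Field k] [Field K] [Algebra F k] [Algebra k K]
  [Algebra F K] [IsScalarTower F k K]

/-- The subfield `Λ` of `kbar` has no nontrivial extension in `kbar` which is unramified at all
valuation rings `O` of `k` containing `F` with finitely generated residue field: an element of
`kbar` fixed by all inertia elements of `Gal(kbar / Λ)` lies in `Λ`. -/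
def GenByInertia (Λ : Set (kbar k K)) : Prop :=
  ∀ z : kbar k K,
    (∀ O : ValuationSubring k, (∀ c : F, algebraMap F k c ∈ O) →
      (∃ S : Finset (IsLocalRing.ResidueField O), Subfield.closure
        (S : Set (IsLocalRing.ResidueField O)) = ⊤) →
      ∀ (Q : IC O (kbar k K)) (_ : Q.IsPrime), Above Q →
      ∀ τ : Gk k K, InI Q τ → (∀ x ∈ Λ, τ x = x) → τ z = z) → z ∈ Λ

end Pool.Agent.SC
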