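import Mathlib
import Pool.Agent.SC.Defs2
import Pool.Agent.Helper91.Section.Coeff
import Pool.Agent.Helper91.Section.Inv

/-!
# MP_e66f84_ag, block FL: automorphisms of the algebraic closure of the ground field lift to the
decomposition group of a place of the rational function field, acting trivially on a finite set.
-/

universe u

namespace Pool.Agent.SC

open Module Polynomial Pool.Agent.Helper91.Sect

namespace FL

section General

variable {F k C : Type u} [Field F] [Field k] [Field C] [Algebra F k] [Algebra k C] [Algebra F C]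
  [IsScalarTower F k C] {O : ValuationSubring k} (hFO : ∀ a : F, algebraMap F k a ∈ O)
  (Q : Ideal (integralClosure O C)) [hQ : Q.IsPrime] (hA : Above Q)

include hFO hA

/-- The residue field of a nontrivial valuation ring of `F(t)` is generated by one algebraic
element. -/
theorem exists_residue_gen [IsGalois k C] [IsAlgClosed C] (t : k)
    (hk : IntermediateField.adjoin F {t} = ⊤) (hO : O ≠ ⊤) :
    ∃ a : C, IsAlgebraic F a ∧ (∃ c : k, (locW Q).valuation (algebraMap k C c - a) < 1) ∧
      ∀ c ∈ O, ∃ z ∈ IntermediateField.adjoin F {a},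
        (locW Q).valuation (algebraMap k C c - z) < 1 := by
  classical
  -- replace `t` by its inverse if necessary
  obtain ⟨t', ht'O, hk'⟩ : ∃ t' : k, t' ∈ O ∧ IntermediateField.adjoin F {t'} = ⊤ := by
    rcases O.mem_or_inv_mem t with h | h
    · exact ⟨t, h, hk⟩
    · refine ⟨t⁻¹, h, ?_⟩
      rw [eq_top_iff, ← hk, IntermediateField.adjoin_simple_le_iff]
      have h1 : t⁻¹ ∈ IntermediateField.adjoin F {t⁻¹} :=
        IntermediateField.mem_adjoin_simple_self F _
      have h2 := (IntermediateField.adjoin F {t⁻¹}).inv_mem h1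
      rwa [inv_inv] at h2
  set τ : C := algebraMap k C t' with hτ
  have hτW : (locW Q).valuation τ ≤ 1 := by
    have h1 : IsIntegral O τ := by
      have : τ = algebraMap O C ⟨t', ht'O⟩ := rfl
      rw [this]; exact isIntegral_algebraMap
    exact coeB_le Q ⟨τ, h1⟩
  have hmap : ∀ g : F[X], algebraMap k C (aeval t' g) = aeval τ g := fun g =>
    (aeval_algebraMap_apply C t' g).symm
  have halg : ∀ {z : C}, IsAlgebraic F z → (locW Q).valuation z ≤ 1 := fun {z} hz =>
    coeB_le Q ⟨z, integral_of_algF hFO hz⟩
  have hpolyO : ∀ g : F[X], aeval t' g ∈ O := by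
    intro g
    rw [aeval_eq_sum_range]
    refine O.toSubring.sum_mem fun i _ => ?_
    rw [Algebra.smul_def]
    exact O.mul_mem _ _ (hFO _) (O.toSubring.pow_mem ht'O i)
  -- a polynomial with small value
  obtain ⟨p, hp0, hp⟩ : ∃ p : F[X], p ≠ 0 ∧ O.valuation (aeval t' p) < 1 := by
    by_contra hcon
    push Not at hcon
    apply hO
    rw [eq_top_iff]
    intro x _
    have hx : x ∈ IntermediateField.adjoin F {t'} := by rw [hk']; trivial
    rw [IntermediateField.mem_adjoin_simple_iff] at hx
    obtain ⟨r, s, rfl⟩ := hx
    by_cases hs : s = 0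
    · rw [hs, map_zero, div_zero]; exact O.zero_mem
    rw [div_eq_mul_inv]
    refine O.mul_mem _ _ (hpolyO r) ?_
    rw [← O.valuation_le_one_iff, map_inv₀]
    have h1 := hcon s hs
    exact inv_le_one_of_one_le₀ h1
  have hp' : (locW Q).valuation (aeval τ p) < 1 := by
    rw [← hmap]
    exact locW_algebraMap_lt Q hA hp
  -- a root
  obtain ⟨a, haalg, ha⟩ : ∃ a : C, IsAlgebraic F a ∧ (locW Q).valuation (τ - a) < 1 := by
    by_contra hcon
    push Not at hcon
    have hsplit : (p.map (algebraMap F C)).Splits := IsAlgClosed.splits _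
    have hprod := hsplit.eq_prod_roots
    have h4 : aeval τ p = algebraMap F C p.leadingCoeff *
        ((p.map (algebraMap F C)).roots.map fun z => τ - z).prod := by
      have h5 : aeval τ p = eval τ (p.map (algebraMap F C)) := by
        rw [eval_map_algebraMap]
      rw [h5]
      conv_lhs => rw [hprod]
      rw [eval_mul, eval_C, eval_multiset_prod, Multiset.map_map, leadingCoeff_map]
      congr 2
      refine Multiset.map_congr rfl fun z _ => ?_
      simp
    rw [h4, map_mul, map_multiset_prod, Multiset.map_map] at hp'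
    have h6 : (Multiset.map ((locW Q).valuation ∘ fun z => τ - z)
        (p.map (algebraMap F C)).roots).prod = 1 := by
      apply Multiset.prod_eq_one
      intro x hx
      rw [Multiset.mem_map] at hx
      obtain ⟨z, hz, rfl⟩ := hx
      have hzalg : IsAlgebraic F z := by
        refine ⟨p, hp0, ?_⟩
        have := (mem_roots'.1 hz).2
        rwa [IsRoot.def, eval_map_algebraMap] at this
      exact le_antisymm ((Valuation.map_sub _ _ _).trans (max_le hτW (halg hzalg)))
        (hcon z hzalg)
    have h7 : (locW Q).valuation (algebraMap F C p.leadingCoeff) = 1 :=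
      val_algF hFO Q (isAlgebraic_algebraMap _) (by simpa using hp0)
    rw [h6, h7, mul_one] at hp'
    exact lt_irrefl _ hp'
  refine ⟨a, haalg, ⟨t', ha⟩, fun c hc => ?_⟩
  -- polynomials have the expected residues
  have hres : ∀ g : F[X], (locW Q).valuation (aeval τ g - aeval a g) < 1 := by
    intro g
    induction g using Polynomial.induction_on' with
    | add g1 g2 h1 h2 =>
      have : aeval τ (g1 + g2) - aeval a (g1 + g2) =
          (aeval τ g1 - aeval a g1) + (aeval τ g2 - aeval a g2) := by
        rw [map_add, map_add]; ring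
      rw [this]
      exact Valuation.map_add_lt _ h1 h2
    | monomial n b =>
      rw [aeval_monomial, aeval_monomial, ← mul_sub, map_mul]
      have h1 : (locW Q).valuation (algebraMap F C b) ≤ 1 := halg (isAlgebraic_algebraMap _)
      refine (mul_le_of_le_one_left' h1).trans_lt ?_
      have h2 : τ ^ n - a ^ n = (∑ i ∈ Finset.range n, τ ^ i * a ^ (n - 1 - i)) * (τ - a) :=
        ((Commute.all τ a).geom_sum₂_mul n).symm
      rw [h2, map_mul]
      refine (mul_le_of_le_one_left' ?_).trans_lt ha
      refine Valuation.map_sum_le _ fun i _ => ?_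
      rw [map_mul, map_pow, map_pow]
      exact mul_le_one' (pow_le_one' hτW i) (pow_le_one' (halg haalg) _)
  have hcx : c ∈ IntermediateField.adjoin F {t'} := by rw [hk']; trivial
  rw [IntermediateField.mem_adjoin_simple_iff] at hcx
  obtain ⟨r, s, hcrs⟩ := hcx
  by_cases hs : s = 0
  · refine ⟨0, (IntermediateField.adjoin F {a}).zero_mem, ?_⟩
    rw [hcrs, hs, map_zero, div_zero, map_zero, sub_zero, map_zero]
    exact zero_lt_one
  by_cases hs1 : aeval t' s = 0
  · refine ⟨0, (IntermediateField.adjoin F {a}).zero_mem, ?_⟩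
    rw [hcrs, hs1, div_zero, map_zero, sub_zero, map_zero]
    exact zero_lt_one
  -- coprime numerator and denominator
  obtain ⟨r', s', hcop, hs', hc'⟩ : ∃ r' s' : F[X], IsCoprime r' s' ∧ aeval t' s' ≠ 0 ∧
      c = aeval t' r' / aeval t' s' := by
    set d := EuclideanDomain.gcd r s with hd
    obtain ⟨r', hr'⟩ := EuclideanDomain.gcd_dvd_left r s
    obtain ⟨s', hs'⟩ := EuclideanDomain.gcd_dvd_right r s
    have hd0 : d ≠ 0 := by
      intro h0
      exact hs (EuclideanDomain.gcd_eq_zero_iff.1 h0).2
    have hcop : IsCoprime r' s' := by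
      refine ⟨EuclideanDomain.gcdA r s, EuclideanDomain.gcdB r s, ?_⟩
      have h1 := EuclideanDomain.gcd_eq_gcd_ab r s
      apply mul_left_cancel₀ hd0
      rw [mul_one, mul_add]
      conv_rhs => rw [hd, h1]
      rw [← hd] at hr' hs'
      conv_rhs => rw [hr', hs']
      have h2 : EuclideanDomain.gcdA r s = EuclideanDomain.gcdA (d * r') (d * s') := by
        rw [← hr', ← hs']
      have h3 : EuclideanDomain.gcdB r s = EuclideanDomain.gcdB (d * r') (d * s') := by
        rw [← hr', ← hs']
      rw [h2, h3]
      ring
    have hd1 : aeval t' d ≠ 0 := by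
      intro h0
      apply hs1
      rw [hs', ← hd, map_mul, h0, zero_mul]
    refine ⟨r', s', hcop, ?_, ?_⟩
    · intro h0
      apply hs1
      rw [hs', map_mul, h0, mul_zero]
    · have h5 : aeval t' r = aeval t' d * aeval t' r' := by rw [← map_mul, hd, ← hr']
      have h6 : aeval t' s = aeval t' d * aeval t' s' := by rw [← map_mul, hd, ← hs']
      rw [hcrs, h5, h6, mul_div_mul_left _ _ hd1]
  have hcC : algebraMap k C c * aeval τ s' = aeval τ r' := by
    rw [hc', map_div₀, hmap, hmap]
    have : aeval τ s' ≠ 0 := by
      rw [← hmap]; simpa using hs'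
    field_simp
  have hcW : (locW Q).valuation (algebraMap k C c) ≤ 1 := by
    have h1 : IsIntegral O (algebraMap k C c) := by
      have : algebraMap k C c = algebraMap O C ⟨c, hc⟩ := rfl
      rw [this]; exact isIntegral_algebraMap
    exact coeB_le Q ⟨_, h1⟩
  -- the denominator does not vanish at `a`
  have haalg' : ∀ g : F[X], IsAlgebraic F (aeval a g) := fun g => by
    have : aeval a g ∈ algebraicClosure F C := by
      have h1 : a ∈ algebraicClosure F C := mem_algebraicClosure_iff.2 haalg
      have h2 : aeval a g = ((aeval (⟨a, h1⟩ : algebraicClosure F C) g :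
          algebraicClosure F C) : C) := aeval_algebraMap_apply C (⟨a, h1⟩ : algebraicClosure F C) g
      rw [h2]; exact SetLike.coe_mem _
    exact mem_algebraicClosure_iff.1 this
  have hsa : aeval a s' ≠ 0 := by
    intro h0
    have h1 : aeval a r' = 0 := by
      have h2 : (locW Q).valuation (aeval τ s') < 1 := by
        have := hres s'
        rwa [h0, sub_zero] at this
      have h3 : (locW Q).valuation (aeval τ r') < 1 := by
        rw [← hcC, map_mul]
        exact (mul_le_of_le_one_left' hcW).trans_lt h2
      refine eq_of_cong_algF hFO Q (haalg' r') isAlgebraic_zero ?_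
      rw [sub_zero]
      have h4 : aeval a r' = aeval τ r' - (aeval τ r' - aeval a r') := by ring
      rw [h4]
      exact Valuation.map_sub_lt _ h3 (hres r')
    obtain ⟨x, y, hxy⟩ := hcop
    have h2 := congrArg (aeval a) hxy
    rw [map_add, map_mul, map_mul, h0, h1, mul_zero, mul_zero, add_zero, map_one] at h2
    exact zero_ne_one h2
  have hsa1 : (locW Q).valuation (aeval a s') = 1 := val_algF hFO Q (haalg' s') hsa
  refine ⟨aeval a r' / aeval a s', ?_, ?_⟩
  · rw [IntermediateField.mem_adjoin_simple_iff]
    exact ⟨r', s', rfl⟩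
  · have h1 : (algebraMap k C c - aeval a r' / aeval a s') * aeval a s' =
        (aeval τ r' - aeval a r') - algebraMap k C c * (aeval τ s' - aeval a s') := by
      rw [sub_mul, div_mul_cancel₀ _ hsa, mul_sub, hcC]; ring
    have h2 : (locW Q).valuation ((algebraMap k C c - aeval a r' / aeval a s') * aeval a s') < 1 := by
      rw [h1]
      refine Valuation.map_sub_lt _ (hres r') ?_
      rw [map_mul]
      exact (mul_le_of_le_one_left' hcW).trans_lt (hres s')
    rwa [map_mul, hsa1, mul_one] at h2

omit [IsScalarTower F k C] hFO in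
/-- Every element of the integral closure is congruent to an algebraic element. -/
theorem exists_alg_cong [IsGalois k C] [IsAlgClosed C]
    (hFOC : ∀ z : C, IsAlgebraic F z → IsIntegral O z)
    (hres : ∀ c ∈ O, ∃ z : C, IsAlgebraic F z ∧ (locW Q).valuation (algebraMap k C c - z) < 1)
    (b : integralClosure O C) :
    ∃ z : C, IsAlgebraic F z ∧ (locW Q).valuation ((b : C) - z) < 1 := by
  classical
  obtain ⟨p, hp, hb⟩ := b.2
  have hac : IsAlgClosed (algebraicClosure F C) :=
    (inferInstance : IsAlgClosure F (algebraicClosure F C)).isAlgClosed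
  choose! r0 hr0 hr using hres
  let r : k → algebraicClosure F C := fun c =>
    if h : c ∈ O then ⟨r0 c, mem_algebraicClosure_iff.2 (hr0 c h)⟩ else 0
  have hr' : ∀ c : O, (locW Q).valuation (algebraMap k C c - (r (c : k) : C)) < 1 := by
    intro c
    have h1 : (r (c : k) : C) = r0 c := by
      simp only [r]
      rw [dif_pos c.2]
    rw [h1]; exact hr c c.2
  set n := p.natDegree with hn
  let q : (algebraicClosure F C)[X] :=
    X ^ n + ∑ i ∈ Finset.range n, Polynomial.C (r (p.coeff i)) * X ^ i
  have hq : q.Monic := by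
    apply monic_X_pow_add
    refine (degree_sum_le _ _).trans_lt ?_
    rw [Finset.sup_lt_iff]
    · intro i hi
      refine (degree_C_mul_X_pow_le i _).trans_lt ?_
      exact_mod_cast Finset.mem_range.1 hi
    · exact WithBot.bot_lt_coe n
  have heval : (locW Q).valuation (aeval (b : C) q) < 1 := by
    have h1 : aeval (b : C) q = (b : C) ^ n +
        ∑ i ∈ Finset.range n, (r (p.coeff i) : C) * (b : C) ^ i := by
      simp only [q, map_add, map_pow, aeval_X, map_sum, map_mul, aeval_C]
      rfl
    have h2 : (0 : C) = (b : C) ^ n +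
        ∑ i ∈ Finset.range n, algebraMap k C (p.coeff i) * (b : C) ^ i := by
      rw [← hb, eval₂_eq_sum_range, Finset.sum_range_succ, add_comm]
      have h3 : p.coeff p.natDegree = 1 := hp
      rw [h3, map_one, one_mul]
      rfl
    have h3 : aeval (b : C) q = ∑ i ∈ Finset.range n,
        - (algebraMap k C (p.coeff i) - (r (p.coeff i) : C)) * (b : C) ^ i := by
      rw [h1, ← sub_zero (_ + _), h2, add_sub_add_left_eq_sub, ← Finset.sum_sub_distrib]
      refine Finset.sum_congr rfl fun i _ => ?_
      ring
    rw [h3]
    refine Valuation.map_sum_lt' _ zero_lt_one fun i _ => ?_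
    rw [map_mul, Valuation.map_neg]
    refine (mul_le_of_le_one_right' ?_).trans_lt (hr' (p.coeff i))
    rw [map_pow]
    exact pow_le_one' (coeB_le Q b) i
  have hsplit : q.Splits := IsAlgClosed.splits _
  have hprod := hsplit.eq_prod_roots_of_monic hq
  have h4 : aeval (b : C) q = (q.roots.map fun z : algebraicClosure F C => (b : C) - z).prod := by
    conv_lhs => rw [hprod]
    rw [map_multiset_prod, Multiset.map_map]
    congr 1
    refine Multiset.map_congr rfl fun z _ => ?_
    simp
  by_contra hcon
  push Not at hcon
  rw [h4, map_multiset_prod, Multiset.map_map] at heval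
  have h6 : (Multiset.map ((locW Q).valuation ∘ fun z : algebraicClosure F C => (b : C) - z)
      q.roots).prod = 1 := by
    apply Multiset.prod_eq_one
    intro x hx
    rw [Multiset.mem_map] at hx
    obtain ⟨z, hz, rfl⟩ := hx
    have hzalg : IsAlgebraic F (z : C) := mem_algebraicClosure_iff.1 z.2
    have hz1 : (locW Q).valuation (z : C) ≤ 1 := coeB_le Q ⟨z, hFOC _ hzalg⟩
    exact le_antisymm ((Valuation.map_sub _ _ _).trans (max_le (coeB_le Q b) hz1))
      (hcon z hzalg)
  rw [h6] at heval
  exact lt_irrefl _ heval

/-- The residue field of a finite extension of `k`. -/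
def resField [IsGalois k C] (L : IntermediateField k C) : IntermediateField F C where
  carrier := {z | IsAlgebraic F z ∧ ∃ c ∈ L, (locW Q).valuation (c - z) < 1}
  mul_mem' := by
    rintro x y ⟨hx, c, hc, hcx⟩ ⟨hy, d, hd, hdy⟩
    refine ⟨hx.mul hy, c * d, L.mul_mem hc hd, ?_⟩
    have hx1 : (locW Q).valuation x ≤ 1 := coeB_le Q ⟨x, integral_of_algF hFO hx⟩
    have hy1 : (locW Q).valuation y ≤ 1 := coeB_le Q ⟨y, integral_of_algF hFO hy⟩
    have hd1 : (locW Q).valuation d ≤ 1 := by
      have : d = (d - y) + y := by ring
      rw [this]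
      exact (Valuation.map_add _ _ _).trans (max_le hdy.le hy1)
    have h1 : c * d - x * y = (c - x) * d + x * (d - y) := by ring
    rw [h1]
    refine Valuation.map_add_lt _ ?_ ?_
    · rw [map_mul]; exact (mul_le_of_le_one_right' hd1).trans_lt hcx
    · rw [map_mul]; exact (mul_le_of_le_one_left' hx1).trans_lt hdy
  add_mem' := by
    rintro x y ⟨hx, c, hc, hcx⟩ ⟨hy, d, hd, hdy⟩
    refine ⟨hx.add hy, c + d, L.add_mem hc hd, ?_⟩
    have h1 : c + d - (x + y) = (c - x) + (d - y) := by ring
    rw [h1]
    exact Valuation.map_add_lt _ hcx hdy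
  algebraMap_mem' := by
    intro c
    refine ⟨isAlgebraic_algebraMap _, algebraMap F C c, ?_, ?_⟩
    · rw [IsScalarTower.algebraMap_apply F k C]
      exact L.algebraMap_mem _
    · rw [sub_self, map_zero]; exact zero_lt_one
  inv_mem' := by
    rintro x ⟨hx, c, hc, hcx⟩
    by_cases hx0 : x = 0
    · refine ⟨hx.inv, 0, L.zero_mem, ?_⟩
      rw [hx0, inv_zero, sub_self, map_zero]; exact zero_lt_one
    have hx1 := val_algF hFO Q hx hx0
    have hc1 : (locW Q).valuation c = 1 := by
      have h1 : c = x + (c - x) := by ring
      rw [h1, ← hx1]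
      apply Valuation.map_add_eq_of_lt_left
      rw [hx1]; exact hcx
    have hc0 : c ≠ 0 := by
      intro h0
      rw [h0, map_zero] at hc1
      exact zero_ne_one hc1
    refine ⟨hx.inv, c⁻¹, L.inv_mem hc, ?_⟩
    have h1 : c⁻¹ - x⁻¹ = -(c - x) * (c⁻¹ * x⁻¹) := by
      field_simp
      ring
    rw [h1, map_mul, Valuation.map_neg, map_mul, map_inv₀, map_inv₀, hc1, hx1, inv_one, mul_one,
      mul_one]
    exact hcx

theorem mem_resField [IsGalois k C] {L : IntermediateField k C} {z : C} :
    z ∈ resField hFO Q L ↔ IsAlgebraic F z ∧ ∃ c ∈ L, (locW Q).valuation (c - z) < 1 := Iff.rfl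

include hA in
/-- The residue field of a finite extension is finite. -/
theorem finite_resField [IsGalois k C] [IsAlgClosed C] (L : IntermediateField k C)
    [FiniteDimensional k L] {a : C} (ha : IsAlgebraic F a)
    (hac : ∃ c : k, (locW Q).valuation (algebraMap k C c - a) < 1)
    (hres : ∀ c ∈ O, ∃ z ∈ IntermediateField.adjoin F {a},
      (locW Q).valuation (algebraMap k C c - z) < 1) :
    FiniteDimensional F (resField hFO Q L) := by
  classical
  set F1 := IntermediateField.adjoin F {a} with hF1
  have hle : F1 ≤ resField hFO Q L := by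
    rw [hF1, IntermediateField.adjoin_simple_le_iff]
    obtain ⟨c, hc⟩ := hac
    exact ⟨ha, algebraMap k C c, L.algebraMap_mem c, hc⟩
  have hfin1 : FiniteDimensional F F1 := IntermediateField.adjoin.finiteDimensional ha.isIntegral
  let R1 : IntermediateField F1 C := IntermediateField.extendScalars hle
  have hR1 : ∀ z : R1, (z : C) ∈ resField hFO Q L := fun z => z.2
  have hfin2 : FiniteDimensional F1 R1 := by
    have hrank : Module.rank F1 R1 ≤ (finrank k L : ℕ) := by
      refine rank_le fun s hs => ?_
      have hlift : ∀ z : s, ∃ c : L, (locW Q).valuation ((c : C) - ((z : R1) : C)) < 1 := by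
        intro z
        obtain ⟨-, c, hc, hcz⟩ := hR1 (z : R1)
        exact ⟨⟨c, hc⟩, hcz⟩
      choose c hc using hlift
      have hli : LinearIndependent k c := by
        rw [Fintype.linearIndependent_iff]
        intro g hg
        by_contra hcon
        push Not at hcon
        obtain ⟨i0, hi0⟩ := hcon
        have hne : (Finset.univ : Finset s).Nonempty := ⟨i0, Finset.mem_univ _⟩
        obtain ⟨j, -, hj⟩ := Finset.exists_max_image Finset.univ
          (fun i => O.valuation (g i)) hne
        have hgj : g j ≠ 0 := by
          intro h0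
          have h1 := hj i0 (Finset.mem_univ _)
          rw [h0, map_zero] at h1
          exact hi0 (by simpa using h1)
        have hgO : ∀ i, g i / g j ∈ O := by
          intro i
          rw [← O.valuation_le_one_iff, map_div₀]
          have h1 : O.valuation (g j) ≠ 0 := by simpa using hgj
          exact (div_le_one₀ (zero_lt_iff.2 h1)).2 (hj i (Finset.mem_univ _))
        choose r hrmem hr using fun i => hres _ (hgO i)
        -- the reduced relation
        have hsum : ∑ i, algebraMap k C (g i / g j) * (c i : C) = 0 := by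
          have h1 := congrArg (fun x : L => algebraMap k C (g j)⁻¹ * (x : C)) hg
          simp only [ZeroMemClass.coe_zero, mul_zero] at h1
          rw [← h1, AddSubmonoidClass.coe_finset_sum, Finset.mul_sum]
          refine Finset.sum_congr rfl fun i _ => ?_
          rw [IntermediateField.coe_smul, Algebra.smul_def, ← mul_assoc, ← map_mul, div_eq_mul_inv,
            mul_comm (g i)]
        have hW1 : ∀ {z : C}, IsAlgebraic F z → (locW Q).valuation z ≤ 1 := fun {z} hz =>
          coeB_le Q ⟨z, integral_of_algF hFO hz⟩
        have hcz : ∀ i, (locW Q).valuation (c i : C) ≤ 1 := by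
          intro i
          have h1 : (c i : C) = ((c i : C) - ((i : R1) : C)) + ((i : R1) : C) := by ring
          rw [h1]
          exact (Valuation.map_add _ _ _).trans (max_le (hc i).le (hW1 (hR1 _).1))
        have hralg : ∀ i, IsAlgebraic F (r i) := fun i => (hle (hrmem i)).1
        have hsum2 : (locW Q).valuation (∑ i, r i * ((i : R1) : C)) < 1 := by
          have h1 : ∑ i, r i * ((i : R1) : C) = ∑ i, (-(algebraMap k C (g i / g j) - r i) * (c i : C)
              + r i * (-((c i : C) - ((i : R1) : C)))) := by
            rw [← sub_zero (∑ i, r i * ((i : R1) : C)), ← hsum, ← Finset.sum_sub_distrib]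
            refine Finset.sum_congr rfl fun i _ => ?_
            ring
          rw [h1]
          refine Valuation.map_sum_lt' _ zero_lt_one fun i _ => ?_
          refine Valuation.map_add_lt _ ?_ ?_
          · rw [map_mul, Valuation.map_neg]
            exact (mul_le_of_le_one_right' (hcz i)).trans_lt (hr i)
          · rw [map_mul, Valuation.map_neg]
            exact (mul_le_of_le_one_left' (hW1 (hralg i))).trans_lt (hc i)
        have hsumalg : IsAlgebraic F (∑ i, r i * ((i : R1) : C)) := by
          have h1 : (∑ i, r i * ((i : R1) : C)) ∈ algebraicClosure F C := by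
            refine sum_mem fun i _ => mul_mem ?_ ?_
            · exact mem_algebraicClosure_iff.2 (hralg i)
            · exact mem_algebraicClosure_iff.2 (hR1 _).1
          exact mem_algebraicClosure_iff.1 h1
        have hsum3 : ∑ i, r i * ((i : R1) : C) = 0 :=
          eq_of_cong_algF hFO Q hsumalg isAlgebraic_zero (by rwa [sub_zero])
        have hsum4 : ∑ i : s, (⟨r i, hrmem i⟩ : F1) • (i : R1) = 0 := by
          apply Subtype.val_injective
          change ((∑ i : s, (⟨r i, hrmem i⟩ : F1) • (i : R1) : R1) : C) = 0
          rw [AddSubmonoidClass.coe_finset_sum, ← hsum3]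
          refine Finset.sum_congr rfl fun i _ => ?_
          rfl
        have h5 := Fintype.linearIndependent_iff.1 hs _ hsum4 j
        have h6 : r j = 0 := congrArg Subtype.val h5
        have h7 := hr j
        rw [h6, sub_zero, div_self hgj, map_one, map_one] at h7
        exact lt_irrefl _ h7
      have := hli.fintype_card_le_finrank
      rwa [Fintype.card_coe] at this
    rw [FiniteDimensional, ← Module.rank_lt_aleph0_iff]
    exact hrank.trans_lt (Cardinal.natCast_lt_aleph0)
  have h3 : FiniteDimensional F R1 := FiniteDimensional.trans F F1 R1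
  have h4 : FiniteDimensional F (IntermediateField.restrictScalars F R1) := h3
  have h5 : IntermediateField.restrictScalars F R1 = resField hFO Q L :=
    IntermediateField.extendScalars_restrictScalars hle
  rwa [h5] at h4

/-- Lifting of automorphisms to the decomposition group inside `Gal(C / L)`. -/
theorem exists_lift_sub [IsGalois k C] [IsAlgClosed C] (L : IntermediateField k C)
    (hcong : ∀ b : integralClosure O C, ∃ z : C, IsAlgebraic F z ∧
      (locW Q).valuation ((b : C) - z) < 1)
    (γ : algebraicClosure F C ≃ₐ[F] algebraicClosure F C)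
    (hγ : ∀ z : algebraicClosure F C, (z : C) ∈ resField hFO Q L → γ z = z) :
    ∃ σ ∈ L.fixingSubgroup, InD Q σ ∧ ∀ z : algebraicClosure F C, σ z = γ z := by
  have hB : ∀ z : algebraicClosure F C, IsIntegral O (z : C) := fun z =>
    integral_of_algF hFO (mem_algebraicClosure_iff.1 z.2)
  let j : algebraicClosure F C →+* integralClosure O C :=
    { toFun := fun z => ⟨z, hB z⟩
      map_one' := rfl
      map_mul' := fun _ _ => rfl
      map_zero' := rfl
      map_add' := fun _ _ => rfl }
  let e0 : algebraicClosure F C →+* integralClosure O C ⧸ Q := (Ideal.Quotient.mk Q).comp j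
  have he0 : Function.Bijective e0 := by
    constructor
    · intro z z' h
      have h1 : j z - j z' ∈ Q := Ideal.Quotient.eq.1 h
      rw [← val_coe_lt_one_iff Q] at h1
      exact Subtype.ext (eq_of_cong_algF hFO Q (mem_algebraicClosure_iff.1 z.2)
        (mem_algebraicClosure_iff.1 z'.2) h1)
    · intro x
      obtain ⟨b, rfl⟩ := Ideal.Quotient.mk_surjective x
      obtain ⟨z, hz, hbz⟩ := hcong b
      refine ⟨⟨z, mem_algebraicClosure_iff.2 hz⟩, ?_⟩
      refine (Ideal.Quotient.eq.2 ?_).symm
      rw [← val_coe_lt_one_iff Q]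
      exact hbz
  let e : algebraicClosure F C ≃+* integralClosure O C ⧸ Q := RingEquiv.ofBijective e0 he0
  let φ : (integralClosure O C ⧸ Q) ≃+* (integralClosure O C ⧸ Q) :=
    e.symm.trans ((γ : algebraicClosure F C ≃+* algebraicClosure F C).trans e)
  have hφ : ∀ z : algebraicClosure F C, φ (Ideal.Quotient.mk Q (j z)) =
      Ideal.Quotient.mk Q (j (γ z)) := by
    intro z
    change e (γ (e.symm (e z))) = e (γ z)
    rw [e.symm_apply_apply]
  have hcl : IsClosed (L.fixingSubgroup : Set (C ≃ₐ[k] C)) :=
    InfiniteGalois.fixingSubgroup_isClosed L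
  obtain ⟨σ, hσL, hσD, hσ⟩ := exists_lift L.fixingSubgroup hcl Q φ (by
    intro b hb
    have h1 : (b : C) ∈ L := by
      rw [← InfiniteGalois.fixedField_fixingSubgroup L, IntermediateField.mem_fixedField_iff]
      intro f hf
      exact congrArg Subtype.val (hb f hf)
    obtain ⟨z, hz, hbz⟩ := hcong b
    set z' : algebraicClosure F C := ⟨z, mem_algebraicClosure_iff.2 hz⟩ with hz'
    have h4 : Ideal.Quotient.mk Q b = Ideal.Quotient.mk Q (j z') := by
      rw [Ideal.Quotient.eq, ← val_coe_lt_one_iff Q]
      exact hbz
    rw [h4, hφ, hγ z' ⟨hz, b, h1, hbz⟩])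
  refine ⟨σ, hσL, hσD, fun z => ?_⟩
  have h1 : Ideal.Quotient.mk Q (σ • (j z)) = Ideal.Quotient.mk Q (j (γ z)) := by
    rw [hσ, hφ]
  rw [Ideal.Quotient.eq, ← val_coe_lt_one_iff Q] at h1
  refine eq_of_cong_algF hFO Q ?_ (mem_algebraicClosure_iff.1 (γ z).2) h1
  have h2 : IsAlgebraic F (z : C) := mem_algebraicClosure_iff.1 z.2
  exact h2.algHom ((σ : C →ₐ[k] C).restrictScalars F)

end General

/-- A common finite level for finitely many elements. -/
theorem exists_finite_level_finset {k K : Type u} [Field k] [Field K] [Algebra k K]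
    (s : GaloisSection k K) (A : Finset (Kur k K)) :
    ∃ L : IntermediateField k (kbar k K), FiniteDimensional k L ∧
      ∀ σ ∈ L.fixingSubgroup, ∀ a ∈ A, s.toHom σ a = a := by
  classical
  induction A using Finset.induction_on with
  | empty => exact ⟨⊥, inferInstance, fun _ _ a ha => absurd ha (Finset.notMem_empty a)⟩
  | insert a A ha ih =>
    obtain ⟨L, hL, h⟩ := ih
    obtain ⟨L', hL', h'⟩ := exists_finite_level s a
    refine ⟨L ⊔ L', IntermediateField.finiteDimensional_sup L L', fun σ hσ b hb => ?_⟩
    rw [IntermediateField.mem_fixingSubgroup_iff] at hσ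
    rcases Finset.mem_insert.1 hb with rfl | hb
    · refine h' σ ?_
      rw [IntermediateField.mem_fixingSubgroup_iff]
      exact fun z hz => hσ z (le_sup_right (a := L) (b := L') hz)
    · refine h σ ?_ b hb
      rw [IntermediateField.mem_fixingSubgroup_iff]
      exact fun z hz => hσ z (le_sup_left (a := L) (b := L') hz)

end FL

open FL

/-- FL, in the form with `IC`. -/
theorem exists_lift_decomp_IC {F k K : Type u} [Field F] [CharZero F] [Field k] [Field K]
    [Algebra F k] [Algebra k K] [Algebra F K] [IsScalarTower F k K] (t : k)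
    (hk : IntermediateField.adjoin F {t} = ⊤) (s : GaloisSection k K)
    {O : ValuationSubring k} (hFO : ∀ c : F, algebraMap F k c ∈ O) (hO : O ≠ ⊤)
    (Q : IC O (kbar k K)) [Q.IsPrime] (hQ : Above Q)
    (A : Finset (Kur k K)) :
    ∃ F' : IntermediateField F (algebraicClosure F (kbar k K)), FiniteDimensional F F' ∧
      ∀ σ : algebraicClosure F (kbar k K) ≃ₐ[F'] algebraicClosure F (kbar k K),
        ∃ γ : Gk k K, InD Q γ ∧ (∀ z : algebraicClosure F (kbar k K), γ z = σ z) ∧
          ∀ a ∈ A, s.toHom γ a = a := by
  have hck : CharZero k := charZero_of_injective_algebraMap (algebraMap F k).injective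
  obtain ⟨L, hL, hLfix⟩ := exists_finite_level_finset s A
  obtain ⟨a, haalg, hac, hres⟩ := exists_residue_gen hFO Q hQ t hk hO
  have hfin := finite_resField hFO Q hQ L haalg hac hres
  have hale : IntermediateField.adjoin F {a} ≤ algebraicClosure F (kbar k K) := by
    rw [IntermediateField.adjoin_simple_le_iff]
    exact mem_algebraicClosure_iff.2 haalg
  have hcong := exists_alg_cong (F := F) Q hQ (fun z hz => integral_of_algF hFO hz)
    (fun c hc => by
      obtain ⟨z, hz, hcz⟩ := hres c hc
      exact ⟨z, mem_algebraicClosure_iff.1 (hale hz), hcz⟩)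
  set F' : IntermediateField F (algebraicClosure F (kbar k K)) :=
    (resField hFO Q L).comap (algebraicClosure F (kbar k K)).val with hF'
  have hmem : ∀ z : algebraicClosure F (kbar k K), z ∈ F' ↔ (z : kbar k K) ∈ resField hFO Q L :=
    fun z => Iff.rfl
  refine ⟨F', ?_, fun σ => ?_⟩
  · let f : F' →ₗ[F] resField hFO Q L :=
      { toFun := fun z => ⟨((z : algebraicClosure F (kbar k K)) : kbar k K), (hmem _).1 z.2⟩
        map_add' := fun _ _ => rfl
        map_smul' := fun _ _ => rfl }
    refine FiniteDimensional.of_injective f fun x y h => ?_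
    apply Subtype.ext
    apply Subtype.ext
    have h1 : ((f x : resField hFO Q L) : kbar k K) = (f y : resField hFO Q L) := by rw [h]
    exact h1
  · obtain ⟨γ, hγL, hγD, hγ⟩ := exists_lift_sub hFO Q hQ L hcong (σ.restrictScalars F) (by
      intro z hz
      exact σ.commutes ⟨z, (hmem z).2 hz⟩)
    exact ⟨γ, hγD, hγ, hLfix γ hγL⟩

/-- FL.  For `k = F(t)`, a nontrivial place `O` of `k / F`, `Q` above it in `kbar`, a section `s`
and finitely many elements `A` of `Kur`: there is a finite extension `F'` of `F` such that every
automorphism of `Fbar / F'` lifts to an element of the decomposition group of `Q` acting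
trivially (through `s`) on `A`. -/
theorem exists_lift_decomp {F k K : Type u} [Field F] [CharZero F] [Field k] [Field K]
    [Algebra F k] [Algebra k K] [Algebra F K] [IsScalarTower F k K] (t : k)
    (ht : Transcendental F t)
    (hk : IntermediateField.adjoin F {t} = ⊤) (s : GaloisSection k K)
    {O : ValuationSubring k} (hFO : ∀ c : F, algebraMap F k c ∈ O) (hO : O ≠ ⊤)
    (Q : Ideal (integralClosure O (kbar k K))) [Q.IsPrime] (hQ : Above Q)
    (A : Finset (Kur k K)) :
    ∃ F' : IntermediateField F (algebraicClosure F (kbar k K)), FiniteDimensional F F' ∧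
      ∀ σ : algebraicClosure F (kbar k K) ≃ₐ[F'] algebraicClosure F (kbar k K),
        ∃ γ : Gk k K, InD Q γ ∧ (∀ z : algebraicClosure F (kbar k K), γ z = σ z) ∧
          ∀ a ∈ A, s.toHom γ a = a := by
  have hQp : Q.IsPrime := inferInstance
  exact @exists_lift_decomp_IC F k K _ _ _ _ _ _ _ _ t hk s O hFO hO Q hQp hQ A

end Pool.Agent.SC
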