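import Mathlib
import Pool.Agent.SC.DefsH
import Pool.Agent.SC.P1
import Pool.Agent.SC.FL
import Pool.Agent.SC.PlaceExt
import Pool.Agent.Helper17.FF.Degree

/-!
# MP_e66f84_ag, block H1: the rational function field is simply connected, in the form of
generation by inertia elements.
-/

universe u

namespace Pool.Agent.SC

open Module Polynomial Pool.Agent.Helper91.Sect VC

namespace H1

section Resid

variable {F k C : Type u} [Field F] [Field k] [Field C] [Algebra F k] [Algebra k C] [Algebra F C]
  [IsScalarTower F k C] {O : ValuationSubring k} (hFO : ∀ a : F, algebraMap F k a ∈ O)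
  (Q : Ideal (integralClosure O C)) [hQ : Q.IsPrime] (hA : Above Q)

include hA in
theorem mem_of_locW_le [IsGalois k C] {c : k} (h : (locW Q).valuation (algebraMap k C c) ≤ 1) :
    c ∈ O := by
  by_contra hc
  have h1 : O.valuation c⁻¹ < 1 := by
    rw [map_inv₀]
    exact inv_lt_one_of_one_lt₀ (not_le.1 fun h => hc ((O.valuation_le_one_iff c).1 h))
  have h2 := locW_algebraMap_lt Q hA h1
  rw [map_inv₀, map_inv₀] at h2
  have h0 : (locW Q).valuation (algebraMap k C c) ≠ 0 := by
    intro h0
    have : c = 0 := by simpa using h0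
    rw [this] at hc
    exact hc O.zero_mem
  have h3 := (inv_lt_one₀ (zero_lt_iff.2 h0)).1 h2
  exact absurd h (not_le.2 h3)

include hA in
theorem val_lt_of_locW_lt [IsGalois k C] {c : k} (h : (locW Q).valuation (algebraMap k C c) < 1) :
    O.valuation c < 1 := by
  have h1 := mem_of_locW_le Q hA h.le
  refine lt_of_le_of_ne ((O.valuation_le_one_iff c).2 h1) fun h2 => ?_
  rw [(locW_algebraMap_eq_one Q hA).2 h2] at h
  exact lt_irrefl _ h

include hFO hA in
/-- The residue field of a nontrivial place of `F(t)` is finitely generated if `F` is. -/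
theorem resid_fg [IsGalois k C] [IsAlgClosed C]
    (hfg : ∃ S : Finset F, Subfield.closure (S : Set F) = ⊤) (t : k)
    (hk : IntermediateField.adjoin F {t} = ⊤) (hO : O ≠ ⊤) :
    ∃ S : Finset (IsLocalRing.ResidueField O), Subfield.closure
        (S : Set (IsLocalRing.ResidueField O)) = ⊤ := by
  classical
  obtain ⟨S0, hS0⟩ := hfg
  obtain ⟨a, haalg, ⟨c0, hc0⟩, hres⟩ := FL.exists_residue_gen hFO Q hA t hk hO
  have haW : (locW Q).valuation a ≤ 1 := coeB_le Q ⟨a, integral_of_algF hFO haalg⟩
  have hc0W : (locW Q).valuation (algebraMap k C c0) ≤ 1 := by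
    have : algebraMap k C c0 = (algebraMap k C c0 - a) + a := by ring
    rw [this]
    exact (Valuation.map_add _ _ _).trans (max_le hc0.le haW)
  have hc0O : c0 ∈ O := mem_of_locW_le Q hA hc0W
  let f : F →+* O := (algebraMap F k).codRestrict O.toSubring hFO
  let g : F →+* IsLocalRing.ResidueField O := (IsLocalRing.residue O).comp f
  refine ⟨S0.image g ∪ {IsLocalRing.residue O ⟨c0, hc0O⟩}, ?_⟩
  set T := Subfield.closure ((S0.image g ∪ {IsLocalRing.residue O ⟨c0, hc0O⟩} :
    Finset (IsLocalRing.ResidueField O)) : Set (IsLocalRing.ResidueField O)) with hT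
  have hgT : ∀ b : F, g b ∈ T := by
    have h1 : Subfield.closure (S0 : Set F) ≤ T.comap g := by
      rw [Subfield.closure_le]
      intro b hb
      refine Subfield.subset_closure ?_
      rw [Finset.coe_union]
      left
      rw [Finset.coe_image]
      exact ⟨b, hb, rfl⟩
    rw [hS0] at h1
    intro b
    exact h1 (Subfield.mem_top b)
  have hc0T : IsLocalRing.residue O ⟨c0, hc0O⟩ ∈ T := by
    refine Subfield.subset_closure ?_
    rw [Finset.coe_union]
    right
    simp
  have hpoly : ∀ p : F[X], ∃ y : O, IsLocalRing.residue O y ∈ T ∧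
      (locW Q).valuation (algebraMap k C y - aeval a p) < 1 := by
    intro p
    induction p using Polynomial.induction_on with
    | C b =>
      refine ⟨f b, hgT b, ?_⟩
      rw [aeval_C]
      change (locW Q).valuation (algebraMap k C (algebraMap F k b) - algebraMap F C b) < 1
      rw [← IsScalarTower.algebraMap_apply, sub_self, map_zero]
      exact zero_lt_one
    | add p q hp hq =>
      obtain ⟨y, hy1, hy2⟩ := hp
      obtain ⟨y', hy1', hy2'⟩ := hq
      refine ⟨y + y', ?_, ?_⟩
      · rw [map_add]; exact T.add_mem hy1 hy1'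
      · have : algebraMap k C ((y + y' : O) : k) - aeval a (p + q) =
            (algebraMap k C y - aeval a p) + (algebraMap k C y' - aeval a q) := by
          rw [show ((y + y' : O) : k) = (y : k) + (y' : k) from rfl, map_add, map_add]
          ring
        rw [this]
        exact Valuation.map_add_lt _ hy2 hy2'
    | monomial n b ih =>
      obtain ⟨y, hy1, hy2⟩ := ih
      refine ⟨y * ⟨c0, hc0O⟩, ?_, ?_⟩
      · rw [map_mul]; exact T.mul_mem hy1 hc0T
      · have h1 : algebraMap k C ((y * ⟨c0, hc0O⟩ : O) : k) -
            aeval a (Polynomial.C b * X ^ (n + 1)) =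
            (algebraMap k C y - aeval a (Polynomial.C b * X ^ n)) * algebraMap k C c0 +
            aeval a (Polynomial.C b * X ^ n) * (algebraMap k C c0 - a) := by
          rw [show ((y * ⟨c0, hc0O⟩ : O) : k) = (y : k) * c0 from rfl, map_mul (algebraMap k C),
            pow_succ, ← mul_assoc, map_mul (aeval a) _ X, aeval_X]
          ring
        rw [h1]
        refine Valuation.map_add_lt _ ?_ ?_
        · rw [map_mul]
          exact (mul_le_of_le_one_right' hc0W).trans_lt hy2
        · rw [map_mul]
          have hyW : (locW Q).valuation (aeval a (Polynomial.C b * X ^ n)) ≤ 1 := by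
            have h3 : aeval a (Polynomial.C b * X ^ n) = algebraMap k C y -
              (algebraMap k C y - aeval a (Polynomial.C b * X ^ n)) := by ring
            rw [h3]
            refine (Valuation.map_sub _ _ _).trans (max_le ?_ hy2.le)
            exact locW_algebraMap_le ((O.valuation_le_one_iff _).2 y.2)
          exact (mul_le_of_le_one_left' hyW).trans_lt hc0
  rw [eq_top_iff]
  intro x _
  obtain ⟨c, rfl⟩ := IsLocalRing.residue_surjective x
  obtain ⟨z, hz, hcz⟩ := hres c c.2
  have hz' : z ∈ Algebra.adjoin F {a} := by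
    rw [← IntermediateField.adjoin_simple_toSubalgebra_of_isAlgebraic haalg]
    exact hz
  rw [Algebra.adjoin_singleton_eq_range_aeval] at hz'
  obtain ⟨p, rfl⟩ := hz'
  obtain ⟨y, hy1, hy2⟩ := hpoly p
  have h1 : O.valuation ((c : k) - y) < 1 := by
    apply val_lt_of_locW_lt Q hA
    have h2 : algebraMap k C ((c : k) - y) = (algebraMap k C c - aeval a p) -
      (algebraMap k C y - aeval a p) := by rw [map_sub]; ring
    rw [h2]
    exact Valuation.map_sub_lt _ hcz hy2
  have h2 : IsLocalRing.residue O c = IsLocalRing.residue O y := by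
    rw [← sub_eq_zero, ← map_sub, IsLocalRing.residue_eq_zero_iff, O.valuation_lt_one_iff]
    exact h1
  rw [h2]
  exact hy1

end Resid

section Lift

variable {F k C : Type u} [Field F] [Field k] [Field C] [Algebra F k] [Algebra k C] [Algebra F C]
  [IsScalarTower F k C]

/-- The integral closure lies in every valuation ring above. -/
theorem mem_W (W : ValuationSubring C) (b : integralClosure (W.comap (algebraMap k C)) C) :
    (b : C) ∈ W := by
  obtain ⟨p, hp, hp0⟩ := b.2
  let f : W.comap (algebraMap k C) →+* W :=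
    ((algebraMap k C).comp (W.comap (algebraMap k C)).subtype).codRestrict W.toSubring
      (fun c => c.2)
  have h1 : IsIntegral W (b : C) := by
    refine ⟨p.map f, hp.map f, ?_⟩
    rw [Polynomial.eval₂_map]
    exact hp0
  obtain ⟨w, hw⟩ := IsIntegrallyClosed.algebraMap_eq_of_integral h1
  rw [← hw]; exact w.2

/-- The centre of a valuation ring on the integral closure. -/
def cen (k : Type u) {C : Type u} [Field k] [Field C] [Algebra k C] (W : ValuationSubring C) :
    Ideal (integralClosure (W.comap (algebraMap k C)) C) :=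
  (IsLocalRing.maximalIdeal W).comap
    ((algebraMap (integralClosure (W.comap (algebraMap k C)) C) C).codRestrict W.toSubring
      (fun b => mem_W W b))

theorem mem_cen (W : ValuationSubring C) (b : integralClosure (W.comap (algebraMap k C)) C) :
    b ∈ cen k W ↔ (b : C) ∈ W.nonunits := by
  unfold cen
  rw [Ideal.mem_comap, ← ValuationSubring.coe_mem_nonunits_iff]
  rfl

instance cen_isPrime (W : ValuationSubring C) : (cen k W).IsPrime := by
  unfold cen
  infer_instance

theorem above_cen (W : ValuationSubring C) : Above (cen k W) := by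
  intro c
  rw [mem_cen]
  have h2 : ((algebraMap (W.comap (algebraMap k C))
      (integralClosure (W.comap (algebraMap k C)) C) c : integralClosure _ C) : C) =
      algebraMap k C c := rfl
  rw [h2, ← mem_nonunits_comap]
  exact ValuationSubring.mem_nonunits_iff _

/-- A valuation ring of an algebraic extension which contains the ground field is trivial. -/
theorem comap_ne_top [Algebra.IsAlgebraic k C] {W : ValuationSubring C} (hW : W ≠ ⊤) :
    W.comap (algebraMap k C) ≠ ⊤ := by
  intro h
  apply hW
  rw [eq_top_iff]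
  intro x _
  have h1 : ∀ c : k, algebraMap k C c ∈ W := fun c => by
    have : c ∈ W.comap (algebraMap k C) := by rw [h]; trivial
    exact this
  obtain ⟨p, hp, hp0⟩ := Algebra.IsIntegral.isIntegral (R := k) x
  let f : k →+* W := (algebraMap k C).codRestrict W.toSubring h1
  have h2 : IsIntegral W x := by
    refine ⟨p.map f, hp.map f, ?_⟩
    rw [Polynomial.eval₂_map]
    exact hp0
  obtain ⟨w, hw⟩ := IsIntegrallyClosed.algebraMap_eq_of_integral h2
  rw [← hw]; exact w.2

variable [IsGalois k C] [IsAlgClosed C]

/-- The lifting of a residually trivial automorphism to the inertia group. -/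
theorem exists_inertia (t : k) (hk : IntermediateField.adjoin F {t} = ⊤)
    (W : ValuationSubring C) (hW : W ≠ ⊤) (hFW : ∀ z : C, IsAlgebraic F z → z ∈ W)
    (N : IntermediateField k C) (hNF : ∀ z : C, IsAlgebraic F z → z ∈ N) (ρ : C ≃ₐ[k] C)
    (hρ : ∀ z : C, IsAlgebraic F z → ρ z = z) (hN : ∀ z ∈ N, z ∈ W.nonunits ↔ ρ z ∈ W.nonunits) :
    ∃ σ ∈ N.fixingSubgroup, InI (cen k W) (ρ * σ) := by
  have hFO : ∀ a : F, algebraMap F k a ∈ W.comap (algebraMap k C) := fun a => by
    change algebraMap k C (algebraMap F k a) ∈ W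
    rw [← IsScalarTower.algebraMap_apply]
    exact hFW _ (isAlgebraic_algebraMap a)
  have hO := comap_ne_top (k := k) hW
  have hA := above_cen (k := k) W
  obtain ⟨a, haalg, hac, hres⟩ := FL.exists_residue_gen hFO (cen k W) hA t hk hO
  have hale : IntermediateField.adjoin F {a} ≤ algebraicClosure F C := by
    rw [IntermediateField.adjoin_simple_le_iff]
    exact mem_algebraicClosure_iff.2 haalg
  have hcong := FL.exists_alg_cong (F := F) (cen k W) hA (fun z hz => integral_of_algF hFO hz)
    (fun c hc => by
      obtain ⟨z, hz, hcz⟩ := hres c hc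
      exact ⟨z, mem_algebraicClosure_iff.1 (hale hz), hcz⟩)
  have hcl : IsClosed (N.fixingSubgroup : Set (C ≃ₐ[k] C)) :=
    InfiniteGalois.fixingSubgroup_isClosed N
  let Q2 : Ideal (integralClosure (W.comap (algebraMap k C)) C) :=
    (cen k W).comap (MulSemiringAction.toRingHom (C ≃ₐ[k] C)
      (integralClosure (W.comap (algebraMap k C)) C) ρ)
  have hQ2 : ∀ b, b ∈ Q2 ↔ ρ • b ∈ cen k W := fun b => Iff.rfl
  have hQ2p : Q2.IsPrime := by
    change (Ideal.comap _ _).IsPrime
    infer_instance
  obtain ⟨σ, hσN, hσ⟩ := exists_conj N.fixingSubgroup hcl (cen k W) Q2 (by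
    intro b hb
    have h1 : (b : C) ∈ N := by
      rw [← InfiniteGalois.fixedField_fixingSubgroup N, IntermediateField.mem_fixedField_iff]
      intro f hf
      exact congrArg Subtype.val (hb f hf)
    rw [hQ2, mem_cen, mem_cen]
    exact hN _ h1)
  have hD : InD (cen k W) (ρ * σ) := fun b => by
    rw [mul_smul, ← hQ2, hσ]
  refine ⟨σ, hσN, hD, fun b => ?_⟩
  obtain ⟨z, hz, hbz⟩ := hcong b
  have hzO : IsIntegral (W.comap (algebraMap k C)) z := integral_of_algF hFO hz
  have h1 : b - ⟨z, hzO⟩ ∈ cen k W := by
    rw [← val_coe_lt_one_iff]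
    exact hbz
  have h2 : (ρ * σ) • (⟨z, hzO⟩ : integralClosure (W.comap (algebraMap k C)) C) = ⟨z, hzO⟩ := by
    apply Subtype.ext
    rw [coe_smulB]
    change ρ (σ z) = z
    rw [IntermediateField.mem_fixingSubgroup_iff] at hσN
    rw [hσN z (hNF z hz), hρ z hz]
  have h3 : (ρ * σ) • b - b = (ρ * σ) • (b - ⟨z, hzO⟩) - (b - ⟨z, hzO⟩) := by
    rw [smul_sub, h2]; ring
  rw [h3]
  exact Ideal.sub_mem _ ((hD _).2 h1) h1

end Lift

section Free

/-- Conjugation of inertia elements. -/
theorem InI_conj' {k C : Type u} [Field k] [Field C] [Algebra k C] [IsGalois k C]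
    {O : ValuationSubring k}
    (Q : Ideal (integralClosure O C)) (hQ : Q.IsPrime) (hA : Above Q) (ρ τ : C ≃ₐ[k] C)
    (hτ : InI Q τ) : ∃ Q' : Ideal (integralClosure O C), Q'.IsPrime ∧ Above Q' ∧
      InI Q' (ρ⁻¹ * τ * ρ) := by
  let Q2 : Ideal (integralClosure O C) :=
    Q.comap (MulSemiringAction.toRingHom (C ≃ₐ[k] C) (integralClosure O C) ρ)
  have hQ2 : ∀ b, b ∈ Q2 ↔ ρ • b ∈ Q := fun b => Iff.rfl
  have hQ2p : Q2.IsPrime := by
    change (Ideal.comap _ _).IsPrime
    infer_instance
  refine ⟨Q2, hQ2p, ?_, ?_, ?_⟩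
  · intro c
    rw [hQ2, ← hA c]
    have h1 : ρ • (algebraMap O (integralClosure O C) c) = algebraMap O (integralClosure O C) c := by
      apply Subtype.ext
      rw [coe_smulB]
      exact ρ.commutes (c : k)
    rw [h1]
  · intro b
    rw [hQ2, hQ2, mul_smul, mul_smul, smul_inv_smul]
    exact hτ.1 _
  · intro b
    rw [hQ2, smul_sub, mul_smul, mul_smul, smul_inv_smul]
    exact hτ.2 _

/-- The order function composed with a field automorphism. -/
theorem ord_comap_equiv {N : Type*} [Field N] (σ : N ≃+* N) (R : ValuationSubring N) (x : N) :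
    ord (R.comap (σ : N →+* N)) x = ord R (σ x) := by
  have hn : ∀ y : N, y ∈ (R.comap (σ : N →+* N)).nonunits ↔ σ y ∈ R.nonunits :=
    fun y => mem_nonunits_comap (σ : N →+* N) R y
  have hm : ∀ y : N, y ∈ R.comap (σ : N →+* N) ↔ σ y ∈ R := fun y => Iff.rfl
  have hU : ∀ y : N, IsUniformizer (R.comap (σ : N →+* N)) y ↔ IsUniformizer R (σ y) := by
    intro y
    constructor
    · rintro ⟨h0, h1, h2⟩
      refine ⟨by simpa using h0, (hn y).1 h1, fun z hz => ?_⟩
      have h3 := h2 (σ.symm z) ((hn _).2 (by rwa [σ.apply_symm_apply]))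
      rwa [hm, map_div₀, σ.apply_symm_apply] at h3
    · rintro ⟨h0, h1, h2⟩
      refine ⟨by simpa using h0, (hn y).2 h1, fun z hz => ?_⟩
      rw [hm, map_div₀]
      exact h2 _ ((hn z).1 hz)
  have hH : HasOrd (R.comap (σ : N →+* N)) x = HasOrd R (σ x) := by
    funext n
    apply propext
    constructor
    · rintro ⟨π, v, h1, h2, h3, h4⟩
      refine ⟨σ π, σ v, (hU _).1 h1, (hm _).1 h2, fun h => h3 ((hn _).2 h), ?_⟩
      rw [h4, map_mul, map_zpow₀]
    · rintro ⟨π, v, h1, h2, h3, h4⟩
      refine ⟨σ.symm π, σ.symm v, (hU _).2 (by rwa [σ.apply_symm_apply]),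
        (hm _).2 (by rwa [σ.apply_symm_apply]), fun h => h3 ?_, ?_⟩
      · have := (hn _).1 h
        rwa [σ.apply_symm_apply] at this
      · apply σ.injective
        rw [h4, map_mul, map_zpow₀, σ.apply_symm_apply, σ.apply_symm_apply]
  unfold ord
  rw [hH]

variable {k M N : Type u} [Field k] [IsAlgClosed k] [CharZero k] [Field M] [Field N] [Algebra k M]
  [Algebra k N] [Algebra M N] [IsScalarTower k M N] [FiniteDimensional M N] [IsGalois M N]

omit [IsAlgClosed k] [CharZero k] [IsGalois M N] [FiniteDimensional M N] in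
theorem finrank_adjoin {t : M} (ht : IntermediateField.adjoin k {t} = ⊤) :
    finrank (IntermediateField.adjoin k {algebraMap M N t}) N = finrank M N := by
  have h1 : IntermediateField.adjoin k {algebraMap M N t} =
      (⊤ : IntermediateField k M).map (IsScalarTower.toAlgHom k M N) := by
    rw [← ht, IntermediateField.adjoin_map, Set.image_singleton]
    rfl
  let e : M ≃ₐ[k] (⊤ : IntermediateField k M).map (IsScalarTower.toAlgHom k M N) :=
    IntermediateField.topEquiv.symm.trans
      (IntermediateField.equivMap ⊤ (IsScalarTower.toAlgHom k M N))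
  rw [h1]
  refine (Algebra.finrank_eq_of_equiv_equiv (e : M ≃+* _) (RingEquiv.refl N) ?_).symm
  ext x
  rfl

omit [IsAlgClosed k] [CharZero k] [FiniteDimensional M N] [IsGalois M N] in
theorem transc_of {t : M} (ht : Transcendental k t) : Transcendental k (algebraMap M N t) := by
  rwa [transcendental_algebraMap_iff (algebraMap M N).injective]

omit [CharZero k] in
/-- If no nontrivial automorphism fixes a place then uniformizers of the rational function
field remain uniformizers. -/
theorem ord_eq_one (hN : IsFunctionField k N)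
    (hfree : ∀ (P : Place k N) (σ : N ≃ₐ[M] N), (∀ x, σ x ∈ P.ring ↔ x ∈ P.ring) → σ = 1)
    {t : M} (ht : IntermediateField.adjoin k {t} = ⊤) (htt : Transcendental k t)
    (P : Place k N) (hP : algebraMap M N t ∈ P.ring.nonunits) :
    ord P.ring (algebraMap M N t) = 1 := by
  classical
  have htt' : Transcendental k (algebraMap M N t) := transc_of htt
  have ht0 : algebraMap M N t ≠ 0 := by
    intro h0
    rw [h0] at htt'
    exact htt' isAlgebraic_zero
  let pl : (N ≃ₐ[M] N) → Place k N := fun σ =>
    { ring := P.ring.comap ((σ : N ≃+* N) : N →+* N)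
      algebraMap_mem := fun a => by
        have h1 : ((σ : N ≃+* N) : N →+* N) (algebraMap k N a) = algebraMap k N a := by
          rw [IsScalarTower.algebraMap_apply k M N]
          exact σ.commutes _
        rw [ValuationSubring.mem_comap, h1]
        exact P.algebraMap_mem a
      ne_top := by
        intro h
        apply P.ne_top
        rw [eq_top_iff]
        intro x _
        have h1 : σ.symm x ∈ P.ring.comap ((σ : N ≃+* N) : N →+* N) := by rw [h]; trivial
        rw [ValuationSubring.mem_comap] at h1
        have h2 : ((σ : N ≃+* N) : N →+* N) (σ.symm x) = x := σ.apply_symm_apply x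
        rwa [h2] at h1 }
  have hpl : ∀ σ x, x ∈ (pl σ).ring ↔ σ x ∈ P.ring := fun σ x => Iff.rfl
  have hinj : Function.Injective pl := by
    intro σ τ h
    have h1 : ∀ x, σ x ∈ P.ring ↔ τ x ∈ P.ring := fun x => by rw [← hpl, ← hpl, h]
    have h2 : τ * σ⁻¹ = 1 := by
      apply hfree P
      intro x
      have h3 := h1 (σ⁻¹ x)
      have h4 : σ (σ⁻¹ x) = x := σ.apply_symm_apply x
      rw [h4] at h3
      exact h3.symm
    have h5 : τ = σ := by
      rw [mul_inv_eq_one] at h2
      exact h2
    exact h5.symm
  have hord : ∀ σ, ord (pl σ).ring (algebraMap M N t) = ord P.ring (algebraMap M N t) := by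
    intro σ
    have h1 := ord_comap_equiv (σ : N ≃+* N) P.ring (algebraMap M N t)
    have h2 : (σ : N ≃+* N) (algebraMap M N t) = algebraMap M N t := σ.commutes t
    rw [h2] at h1
    exact h1
  have hnon : ∀ σ, algebraMap M N t ∈ (pl σ).ring.nonunits := by
    intro σ
    have h1 := mem_nonunits_comap ((σ : N ≃+* N) : N →+* N) P.ring (algebraMap M N t)
    have h2 : ((σ : N ≃+* N) : N →+* N) (algebraMap M N t) = algebraMap M N t := σ.commutes t
    rw [h2] at h1
    exact h1.2 hP
  have h1 := FF.sum_ord_le hN htt' (Finset.univ.image pl) (by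
    intro R hR
    obtain ⟨σ, -, rfl⟩ := Finset.mem_image.1 hR
    exact hnon σ)
  rw [Finset.sum_image (fun σ _ τ _ h => hinj h), Finset.sum_congr rfl (fun σ _ => hord σ),
    Finset.sum_const, Finset.card_univ, finrank_adjoin ht, nsmul_eq_mul] at h1
  have h2 : Fintype.card (N ≃ₐ[M] N) = finrank M N := by
    rw [← Nat.card_eq_fintype_card]
    exact IsGalois.card_aut_eq_finrank M N
  rw [h2] at h1
  have h3 : 0 < finrank M N := finrank_pos
  have h4 : 0 < ord P.ring (algebraMap M N t) := (FF.ord_pos_iff hN P ht0).2 hP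
  have h5 : ord P.ring (algebraMap M N t) ≤ 1 := by
    by_contra hcon
    push Not at hcon
    have h6 : (finrank M N : ℤ) * 2 ≤ (finrank M N : ℤ) * ord P.ring (algebraMap M N t) := by
      apply mul_le_mul_of_nonneg_left _ (by positivity)
      omega
    have h7 : (0 : ℤ) < finrank M N := by exact_mod_cast h3
    omega
  omega

/-- If no nontrivial automorphism fixes a place then the extension of the rational function field
is trivial. -/
theorem adjoin_eq_top_of_free (hN : IsFunctionField k N)
    (hfree : ∀ (P : Place k N) (σ : N ≃ₐ[M] N), (∀ x, σ x ∈ P.ring ↔ x ∈ P.ring) → σ = 1)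
    {u : M} (hu : IntermediateField.adjoin k {u} = ⊤) (hut : Transcendental k u) :
    IntermediateField.adjoin k {algebraMap M N u} = ⊤ := by
  refine SC.adjoin_eq_top_of_unramified hN (transc_of hut) fun Q => ?_
  by_cases hQ : algebraMap M N u ∈ Q.ring
  · left
    obtain ⟨c, hc⟩ := FF.exists_residue hN Q hQ
    refine ⟨c, ?_⟩
    have h1 : algebraMap M N u - algebraMap k N c = algebraMap M N (u - algebraMap k M c) := by
      rw [map_sub, ← IsScalarTower.algebraMap_apply]
    rw [h1] at hc ⊢
    refine ord_eq_one hN hfree ?_ ?_ Q hc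
    · rw [eq_top_iff, ← hu, IntermediateField.adjoin_simple_le_iff]
      have h2 := IntermediateField.mem_adjoin_simple_self k (u - algebraMap k M c)
      have h3 := add_mem h2 (IntermediateField.algebraMap_mem
        (IntermediateField.adjoin k {u - algebraMap k M c}) c)
      rwa [sub_add_cancel] at h3
    · intro h
      apply hut
      have h2 := h.add (isAlgebraic_algebraMap c)
      rwa [sub_add_cancel] at h2
  · right
    have h0 : algebraMap M N u ≠ 0 := by
      intro h0
      rw [h0] at hQ
      exact hQ Q.ring.zero_mem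
    have h1 : algebraMap M N u⁻¹ ∈ Q.ring.nonunits := by
      rw [ValuationSubring.mem_nonunits_iff_or, map_inv₀, inv_inv]
      exact Or.inr hQ
    have h2 : ord Q.ring (algebraMap M N u⁻¹) = 1 := by
      refine ord_eq_one hN hfree ?_ ?_ Q h1
      · rw [eq_top_iff, ← hu, IntermediateField.adjoin_simple_le_iff]
        have h2 := IntermediateField.mem_adjoin_simple_self k u⁻¹
        have h3 := inv_mem h2
        rwa [inv_inv] at h3
      · intro h
        apply hut
        have h2 := h.inv
        rwa [inv_inv] at h2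
    rw [map_inv₀, FF.ord_inv hN Q h0] at h2
    omega

end Free

section Main

open IntermediateField

variable {F k E M C : Type u} [Field F] [Field k] [Field E] [Field M] [Field C]
  [Algebra F k] [Algebra k C] [Algebra F C] [IsScalarTower F k C] [IsGalois k C] [IsAlgClosed C]
  [IsAlgClosed E] [CharZero E] [Algebra E M] [Algebra M C] [Algebra E C] [IsScalarTower E M C]
  [Algebra k M] [IsScalarTower k M C] (hEF : ∀ z : C, IsAlgebraic F z ↔ ∃ e : E, algebraMap E C e = z)
  (hfg : ∃ S : Finset F, Subfield.closure (S : Set F) = ⊤) (t : k)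
  (hk : IntermediateField.adjoin F {t} = ⊤)

include hEF hfg t hk

omit [CharZero E] [IsAlgClosed E] in
/-- An automorphism of a Galois extension of `M` which fixes a place fixes the elements fixed by
inertia. -/
theorem fixes_of_place (N : IntermediateField M C) [Normal M N] (P : Place E N) (σ : N ≃ₐ[M] N)
    (hσ : ∀ x, σ x ∈ P.ring ↔ x ∈ P.ring) :
    ∃ O : ValuationSubring k, (∀ c : F, algebraMap F k c ∈ O) ∧
      (∃ S : Finset (IsLocalRing.ResidueField O), Subfield.closure
        (S : Set (IsLocalRing.ResidueField O)) = ⊤) ∧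
      ∃ (Q : Ideal (integralClosure O C)) (_ : Q.IsPrime), Above Q ∧
      ∃ τ : C ≃ₐ[k] C, InI Q τ ∧ ∀ x : N, τ x = σ x := by
  have sEN : IsScalarTower E N C := IsScalarTower.of_algebraMap_eq fun x => by
    rw [IsScalarTower.algebraMap_apply E M C, IsScalarTower.algebraMap_apply E M N]
    rfl
  obtain ⟨W, hW⟩ := SC.exists_place_over (K := E) (M := N) (N := C) P
  have hFW : ∀ z : C, IsAlgebraic F z → z ∈ W.ring := by
    intro z hz
    obtain ⟨e, rfl⟩ := (hEF z).1 hz
    exact W.algebraMap_mem e
  have hFM : ∀ z : C, IsAlgebraic F z → ∃ m : M, algebraMap M C m = z := by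
    intro z hz
    obtain ⟨e, rfl⟩ := (hEF z).1 hz
    exact ⟨algebraMap E M e, (IsScalarTower.algebraMap_apply E M C e).symm⟩
  have hFO : ∀ a : F, algebraMap F k a ∈ W.ring.comap (algebraMap k C) := fun a => by
    change algebraMap k C (algebraMap F k a) ∈ W.ring
    rw [← IsScalarTower.algebraMap_apply]
    exact hFW _ (isAlgebraic_algebraMap a)
  have hgal : IsGalois M C := IsGalois.tower_top_of_isGalois k M C
  let ρ0 : C ≃ₐ[M] C := σ.liftNormal C
  have hρ0 : ∀ x : N, ρ0 (x : C) = σ x := fun x => σ.liftNormal_commutes C x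
  let ρ : C ≃ₐ[k] C := ρ0.restrictScalars k
  have hρ : ∀ x : C, ρ x = ρ0 x := fun x => rfl
  have hnon : ∀ x : N, (x : C) ∈ W.ring.nonunits ↔ x ∈ P.ring.nonunits := by
    intro x
    have h1 := hW x⁻¹
    have h2 : algebraMap N C x⁻¹ = (x : C)⁻¹ := map_inv₀ (algebraMap N C) x
    rw [h2] at h1
    rw [ValuationSubring.mem_nonunits_iff_or, ValuationSubring.mem_nonunits_iff_or, h1,
      ZeroMemClass.coe_eq_zero]
  have key : ∀ x : N, (x : C) ∈ W.ring.nonunits ↔ ρ x ∈ W.ring.nonunits := by
    intro x
    have h3 : ρ x = (σ x : N) := hρ0 x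
    rw [h3, hnon, hnon, ValuationSubring.mem_nonunits_iff_or,
      ValuationSubring.mem_nonunits_iff_or, ← map_inv₀, hσ, EmbeddingLike.map_eq_zero_iff]
  obtain ⟨σ', hσ', hI⟩ := exists_inertia (F := F) t hk W.ring W.ne_top hFW
    (N.restrictScalars k) (by
      intro z hz
      obtain ⟨m, rfl⟩ := hFM z hz
      exact N.algebraMap_mem m) ρ (by
      intro z hz
      obtain ⟨m, rfl⟩ := hFM z hz
      exact ρ0.commutes m) (by
      intro z hz
      exact key ⟨z, hz⟩)
  refine ⟨W.ring.comap (algebraMap k C), hFO,
    resid_fg hFO (cen k W.ring) (above_cen W.ring) hfg t hk (comap_ne_top W.ne_top),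
    cen k W.ring, inferInstance, above_cen W.ring, ρ * σ', hI, fun x => ?_⟩
  rw [IntermediateField.mem_fixingSubgroup_iff] at hσ'
  have h1 : σ' x = x := hσ' x x.2
  change ρ (σ' x) = _
  rw [h1]
  exact hρ0 x

theorem main_abs (u : M) (hu : E⟮u⟯ = ⊤) (hut : Transcendental E u) (z : C)
    (hz : ∀ O : ValuationSubring k, (∀ c : F, algebraMap F k c ∈ O) →
      (∃ S : Finset (IsLocalRing.ResidueField O), Subfield.closure
        (S : Set (IsLocalRing.ResidueField O)) = ⊤) →
      ∀ (Q : Ideal (integralClosure O C)) (_ : Q.IsPrime), Above Q →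
      ∀ τ : C ≃ₐ[k] C, InI Q τ → (∀ x : M, τ (algebraMap M C x) = algebraMap M C x) → τ z = z) :
    ∃ m : M, algebraMap M C m = z := by
  have hgal : IsGalois M C := IsGalois.tower_top_of_isGalois k M C
  have hzint : IsIntegral M z := Algebra.IsIntegral.isIntegral (R := M) z
  set p := minpoly M z with hp
  set N := IntermediateField.adjoin M (p.rootSet C) with hN
  have hsplit : (p.map (algebraMap M C)).Splits := IsAlgClosed.splits _
  have hfinN : FiniteDimensional M N := by
    refine IntermediateField.finiteDimensional_adjoin fun x _ => ?_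
    exact Algebra.IsIntegral.isIntegral (R := M) x
  have hMsplit : IsSplittingField M N p := IntermediateField.adjoin_rootSet_isSplittingField hsplit
  have hnorm : Normal M N := Normal.of_isSplittingField p
  have hM0 : CharZero M := charZero_of_injective_algebraMap (algebraMap E M).injective
  have hgalN : IsGalois M N := ⟨⟩
  have hroot : ∀ w ∈ p.rootSet C, ∃ θ : C ≃ₐ[M] C, θ z = w := by
    intro w hw
    have h1 := (mem_rootSet.1 hw).2
    exact minpoly.exists_algEquiv_of_root' hzint.isAlgebraic h1
  have hzN : z ∈ N := by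
    refine IntermediateField.subset_adjoin _ _ ?_
    rw [mem_rootSet]
    exact ⟨minpoly.ne_zero hzint, minpoly.aeval M z⟩
  have sEMN : IsScalarTower E M N := inferInstance
  have hff : IsFunctionField E N := by
    refine ⟨algebraMap M N u, transc_of hut, ?_⟩
    apply FiniteDimensional.of_finrank_pos
    rw [finrank_adjoin hu]
    exact finrank_pos
  have hfree : ∀ (P : Place E N) (σ : N ≃ₐ[M] N), (∀ x, σ x ∈ P.ring ↔ x ∈ P.ring) → σ = 1 := by
    intro P σ hσ
    obtain ⟨O, hFO, hOfg, Q, hQ, hA, τ, hτ, hτσ⟩ := fixes_of_place hEF hfg t hk N P σ hσ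
    have hτM : ∀ x : M, τ (algebraMap M C x) = algebraMap M C x := by
      intro x
      have h1 := hτσ (algebraMap M N x)
      rw [σ.commutes] at h1
      exact h1
    have hτroot : ∀ w ∈ p.rootSet C, τ w = w := by
      intro w hw
      obtain ⟨θ, rfl⟩ := hroot w hw
      let θk : C ≃ₐ[k] C := θ.restrictScalars k
      obtain ⟨Q', hQ', hA', hI'⟩ := InI_conj' Q hQ hA θk τ hτ
      have h1 := hz O hFO hOfg Q' hQ' hA' _ hI' (by
        intro x
        have h2 : θk (algebraMap M C x) = algebraMap M C x := θ.commutes x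
        rw [AlgEquiv.mul_apply, AlgEquiv.mul_apply, h2, hτM]
        have h3 : θk⁻¹ (θk (algebraMap M C x)) = algebraMap M C x := θk.symm_apply_apply _
        rwa [h2] at h3)
      rw [AlgEquiv.mul_apply, AlgEquiv.mul_apply] at h1
      have h2 := congrArg θk h1
      have h3 : θk (θk⁻¹ (τ (θk z))) = τ (θk z) := θk.apply_symm_apply _
      rw [h3] at h2
      exact h2
    let T : IntermediateField M C :=
      { carrier := {x | τ x = x}
        mul_mem' := fun {a b} ha hb => by
          change τ (a * b) = a * b
          rw [map_mul, ha, hb]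
        add_mem' := fun {a b} ha hb => by
          change τ (a + b) = a + b
          rw [map_add, ha, hb]
        algebraMap_mem' := hτM
        inv_mem' := fun a ha => by
          change τ a⁻¹ = a⁻¹
          rw [map_inv₀, ha] }
    have hNT : N ≤ T := IntermediateField.adjoin_le_iff.2 hτroot
    ext x
    have h1 : τ (x : C) = x := hNT x.2
    rw [← hτσ, h1]
    rfl
  have hconc := adjoin_eq_top_of_free hff hfree hu hut
  have sEN : IsScalarTower E N C := IsScalarTower.of_algebraMap_eq fun x => by
    rw [IsScalarTower.algebraMap_apply E M C, IsScalarTower.algebraMap_apply E M N]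
    rfl
  have h1 : (⟨z, hzN⟩ : N) ∈ E⟮algebraMap M N u⟯ := by rw [hconc]; trivial
  have h2 : z ∈ E⟮algebraMap M N u⟯.map (IsScalarTower.toAlgHom E N C) := ⟨_, h1, rfl⟩
  rw [IntermediateField.adjoin_map, Set.image_singleton] at h2
  have h3 : E⟮(IsScalarTower.toAlgHom E N C) (algebraMap M N u)⟯ ≤
      (IsScalarTower.toAlgHom E M C).fieldRange := by
    rw [IntermediateField.adjoin_simple_le_iff]
    exact ⟨u, rfl⟩
  obtain ⟨m, hm⟩ := h3 h2
  exact ⟨m, hm⟩

end Main

end H1

/-- H1.  The rational function field `E(u)` is simply connected. -/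
theorem genByInertia_rational {F k K : Type u} [Field F] [CharZero F] [Field k] [Field K]
    [Algebra F k] [Algebra k K] [Algebra F K] [IsScalarTower F k K]
    (hfg : ∃ S : Finset F, Subfield.closure (S : Set F) = ⊤) (t : k) (ht : Transcendental F t)
    (hk : IntermediateField.adjoin F {t} = ⊤) (Λ : Set (kbar k K)) (u : kbar k K)
    (hu : Transcendental F u) (ht' : algebraMap k (kbar k K) t ∈ Λ)
    (hΛ : Λ = (IntermediateField.adjoin F ({z : kbar k K | IsAlgebraic F z} ∪ {u}) :
      Set (kbar k K))) :
    GenByInertia F k K Λ := by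
  have hk0 : CharZero k := charZero_of_injective_algebraMap (algebraMap F k).injective
  have hΛF : ∀ c : F, algebraMap F (kbar k K) c ∈ Λ := fun c => by
    rw [hΛ]; exact IntermediateField.algebraMap_mem _ c
  have hΛk : ∀ c : k, algebraMap k (kbar k K) c ∈ Λ := by
    have h1 : (⊤ : IntermediateField F k) ≤
        (IntermediateField.adjoin F ({z : kbar k K | IsAlgebraic F z} ∪ {u})).comap
          (IsScalarTower.toAlgHom F k (kbar k K)) := by
      rw [← hk, IntermediateField.adjoin_simple_le_iff]
      rw [hΛ] at ht'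
      exact ht'
    intro c
    rw [hΛ]
    exact h1 (IntermediateField.mem_top (x := c))
  let E := algebraicClosure F (kbar k K)
  have hEac : IsAlgClosed E := (inferInstance : IsAlgClosure F E).isAlgClosed
  have hE0 : CharZero E := charZero_of_injective_algebraMap (algebraMap F E).injective
  let M : IntermediateField E (kbar k K) := IntermediateField.adjoin E {u}
  have hM : ∀ x : kbar k K, x ∈ M ↔ x ∈ Λ := by
    intro x
    rw [hΛ]
    have h1 : M.restrictScalars F =
        IntermediateField.adjoin F ({z : kbar k K | IsAlgebraic F z} ∪ {u}) := by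
      apply le_antisymm
      · let T : IntermediateField E (kbar k K) :=
          { (IntermediateField.adjoin F
              ({z : kbar k K | IsAlgebraic F z} ∪ {u})).toSubfield with
            algebraMap_mem' := fun e => IntermediateField.subset_adjoin _ _
              (Or.inl (mem_algebraicClosure_iff.1 e.2)) }
        have hMT : M ≤ T := by
          rw [IntermediateField.adjoin_simple_le_iff]
          exact IntermediateField.subset_adjoin F
            ({z : kbar k K | IsAlgebraic F z} ∪ {u}) (Or.inr rfl)
        intro y hy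
        exact hMT hy
      · rw [IntermediateField.adjoin_le_iff]
        rintro y (hy | hy)
        · exact M.algebraMap_mem ⟨y, mem_algebraicClosure_iff.2 hy⟩
        · rw [Set.mem_singleton_iff.1 hy]
          exact IntermediateField.mem_adjoin_simple_self E u
    rw [← h1]
    rfl
  intro z hz
  have hkM : ∀ c : k, algebraMap k (kbar k K) c ∈ M := fun c => (hM _).2 (hΛk c)
  let ikM : Algebra k M := ((algebraMap k (kbar k K)).codRestrict M.toSubring hkM).toAlgebra
  have skM : IsScalarTower k M (kbar k K) := IsScalarTower.of_algebraMap_eq fun c => rfl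
  have huE : Transcendental E u := fun h => hu (h.restrictScalars F)
  let uM : M := IntermediateField.AdjoinSimple.gen E u
  have huMt : Transcendental E uM := fun h => huE (h.algebraMap (A := kbar k K))
  have htop : IntermediateField.adjoin E {uM} = ⊤ := by
    apply IntermediateField.lift_injective M
    rw [IntermediateField.lift_adjoin_simple, IntermediateField.lift_top]
    rfl
  obtain ⟨m, hm⟩ := H1.main_abs (F := F) (k := k) (E := E) (M := M) (C := kbar k K)
    (fun z => ⟨fun hz => ⟨⟨z, mem_algebraicClosure_iff.2 hz⟩, rfl⟩, by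
      rintro ⟨e, rfl⟩
      exact mem_algebraicClosure_iff.1 e.2⟩) hfg t hk uM htop huMt z (by
    intro O hFO hOfg Q hQ hA τ hτ hτM
    exact hz O hFO hOfg Q hQ hA τ hτ fun x hx => hτM ⟨x, (hM x).2 hx⟩)
  rw [← hM, ← hm]
  exact m.2

end Pool.Agent.SC

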