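import Pool.Agent.SC.Defs2
import Pool.Agent.Helper17.FF.Basic

/-!
# Levels of a cover: function fields between `M` and `U`
-/

universe u v

set_option linter.unusedSectionVars false

namespace Pool.Agent.SC

open VC IntermediateField

/-- Chevalley: extension of valuation rings. -/
theorem exists_comap_eq {N : Type u} {U : Type v} [Field N] [Field U] (φ : N →+* U)
    (R : ValuationSubring N) : ∃ B : ValuationSubring U, ∀ x, φ x ∈ B ↔ x ∈ R := by
  obtain ⟨B, hB1, hB2⟩ := Ideal.image_subset_nonunits_valuationSubring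
    (A := (φ.comp R.subtype).range)
    ((IsLocalRing.maximalIdeal R).map (φ.comp R.subtype).rangeRestrict) (by
      intro h
      have hinj : Function.Injective (φ.comp R.subtype).rangeRestrict := by
        intro a b hab
        have h1 := congrArg Subtype.val hab
        exact Subtype.ext (φ.injective h1)
      have hb : Function.Bijective (φ.comp R.subtype).rangeRestrict :=
        ⟨hinj, RingHom.rangeRestrict_surjective _⟩
      have h3 := congrArg (Ideal.comap (φ.comp R.subtype).rangeRestrict) h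
      rw [Ideal.comap_map_of_bijective _ hb, Ideal.comap_top] at h3
      exact Ideal.IsPrime.ne_top inferInstance h3)
  refine ⟨B, fun x => ⟨fun hx => ?_, fun hx => ?_⟩⟩
  · by_contra hxR
    have hx0 : x ≠ 0 := by
      rintro rfl
      exact hxR R.zero_mem
    have h1 : x⁻¹ ∈ R := (R.mem_or_inv_mem x).resolve_left hxR
    have h2 : (⟨x⁻¹, h1⟩ : R) ∈ IsLocalRing.maximalIdeal R := by
      rw [IsLocalRing.mem_maximalIdeal, mem_nonunits_iff]
      intro hu
      obtain ⟨y, hy⟩ := hu.exists_right_inv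
      have h3 : x⁻¹ * (y : N) = 1 := congrArg Subtype.val hy
      have h4 : (y : N) = x := by
        field_simp at h3
        exact h3
      exact hxR (h4 ▸ y.2)
    have h5 : φ x⁻¹ ∈ B.nonunits := by
      apply hB2
      exact ⟨_, Ideal.mem_map_of_mem _ h2, rfl⟩
    rcases (ValuationSubring.mem_nonunits_iff_or _).1 h5 with h6 | h6
    · rw [map_eq_zero, inv_eq_zero] at h6
      exact hx0 h6
    · apply h6
      rw [map_inv₀, inv_inv]
      exact hx
  · exact hB1 ⟨⟨x, hx⟩, rfl⟩

theorem isFunctionField_of_finite8 {E M N : Type*} [Field E] [Field M] [Field N] [Algebra E M]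
    [Algebra M N] [Algebra E N] [IsScalarTower E M N] (hM : IsFunctionField E M)
    [FiniteDimensional M N] : IsFunctionField E N := by
  obtain ⟨t, ht, hfin⟩ := hM
  refine ⟨algebraMap M N t, ?_, ?_⟩
  · rw [transcendental_algebraMap_iff (algebraMap M N).injective]
    exact ht
  · have h1 : ∀ x : E⟮t⟯, algebraMap M N x ∈ E⟮algebraMap M N t⟯ := by
      intro x
      have h2 : (E⟮t⟯).map (IsScalarTower.toAlgHom E M N) = E⟮algebraMap M N t⟯ := by
        rw [IntermediateField.adjoin_map, Set.image_singleton]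
        rfl
      rw [← h2]
      exact ⟨x, x.2, rfl⟩
    let f : E⟮t⟯ →+* E⟮algebraMap M N t⟯ :=
      ((algebraMap M N).comp (algebraMap E⟮t⟯ M)).codRestrict (E⟮algebraMap M N t⟯).toSubfield h1
    let i1 : Algebra E⟮t⟯ E⟮algebraMap M N t⟯ := f.toAlgebra
    have i2 : IsScalarTower E⟮t⟯ E⟮algebraMap M N t⟯ N := IsScalarTower.of_algebraMap_eq fun x => rfl
    have i3 : FiniteDimensional E⟮t⟯ N := FiniteDimensional.trans E⟮t⟯ M N
    exact Module.Finite.of_restrictScalars_finite E⟮t⟯ E⟮algebraMap M N t⟯ N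

section

variable {E U : Type u} [Field E] [IsAlgClosed E] [Field U] [Algebra E U]
  {M : IntermediateField E U}

theorem val_unit_of_ord_zero {N : IntermediateField E U} (hN : IsFunctionField E N)
    (P : Place E N) {B : ValuationSubring U} (hB : ∀ x : N, (x : U) ∈ B ↔ x ∈ P.ring) {x : N}
    (hx0 : x ≠ 0) (hx : ord P.ring x = 0) : B.valuation (x : U) = 1 := by
  have h1 : x ∈ P.ring := (FF.ord_nonneg_iff hN P hx0).1 hx.ge
  have h2 : x⁻¹ ∈ P.ring := (FF.ord_nonneg_iff hN P (inv_ne_zero hx0)).1 (by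
    rw [FF.ord_inv hN P hx0, hx]; simp)
  have hxU : (x : U) ≠ 0 := by simpa using hx0
  have h3 : B.valuation (x : U) ≤ 1 := (B.valuation_le_one_iff _).2 ((hB x).2 h1)
  have h4 : B.valuation (x : U)⁻¹ ≤ 1 := (B.valuation_le_one_iff _).2 (by
    have := (hB x⁻¹).2 h2
    rwa [IntermediateField.coe_inv] at this)
  rw [map_inv₀] at h4
  have h5 : B.valuation (x : U) ≠ 0 := by simpa using hxU
  exact le_antisymm h3 ((inv_le_one₀ (zero_lt_iff.2 h5)).1 h4)

theorem ord_zero_of_val_unit {N : IntermediateField E U} (hN : IsFunctionField E N)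
    (P : Place E N) {B : ValuationSubring U} (hB : ∀ x : N, (x : U) ∈ B ↔ x ∈ P.ring) {x : N}
    (hx0 : x ≠ 0) (hx : B.valuation (x : U) = 1) : ord P.ring x = 0 := by
  have h1 : x ∈ P.ring := (hB x).1 ((B.valuation_le_one_iff _).1 hx.le)
  have h2 : x⁻¹ ∈ P.ring := (hB _).1 ((B.valuation_le_one_iff _).1 (by
    rw [IntermediateField.coe_inv, map_inv₀, hx, inv_one]))
  have h3 := (FF.ord_nonneg_iff hN P hx0).2 h1
  have h4 := (FF.ord_nonneg_iff hN P (inv_ne_zero hx0)).2 h2
  rw [FF.ord_inv hN P hx0] at h4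
  omega

theorem IsCover.dvd_ord (hc : IsCover M) {N : IntermediateField E U} (hMN : M ≤ N)
    (hN : IsFunctionField E N) {g : N} (hg0 : g ≠ 0) {w : U} {n : ℕ} (hg : w ^ n = g)
    (P : Place E N) : (n : ℤ) ∣ ord P.ring g := by
  obtain ⟨B, hB⟩ := exists_comap_eq (algebraMap N U) P.ring
  have hE : ∀ c : E, algebraMap E U c ∈ B := by
    intro c
    rw [IsScalarTower.algebraMap_apply E N U]
    exact (hB _).2 (P.algebraMap_mem c)
  obtain ⟨m, hm, hval⟩ := hc.unr B hE w
  by_cases hn : n = 0
  · subst hn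
    rw [pow_zero] at hg
    have h1 : g = 1 := by
      apply Subtype.ext
      rw [← hg]; rfl
    rw [h1, FF.ord_one hN P]
    simp
  have hw0 : w ≠ 0 := by
    rintro rfl
    rw [zero_pow hn] at hg
    exact hg0 (Subtype.ext hg.symm)
  have hm0 : m ≠ 0 := by
    rintro rfl
    rw [map_zero] at hval
    exact hw0 (by simpa using hval)
  let m' : N := ⟨m, hMN hm⟩
  have hm'0 : m' ≠ 0 := fun h => hm0 (congrArg Subtype.val h)
  have h1 : B.valuation ((g / m' ^ n : N) : U) = 1 := by
    have : ((g / m' ^ n : N) : U) = w ^ n / m ^ n := by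
      rw [hg]; rfl
    rw [this, map_div₀, map_pow, map_pow, hval]
    apply div_self
    apply pow_ne_zero
    simpa using hm0
  have h2 := ord_zero_of_val_unit hN P hB (div_ne_zero hg0 (pow_ne_zero n hm'0)) h1
  rw [FF.ord_div hN P hg0 (pow_ne_zero n hm'0), FF.ord_pow hN P hm'0] at h2
  exact ⟨ord P.ring m', by linarith⟩

theorem IsCover.exists_root (hc : IsCover M) {N : IntermediateField E U}
    (hN : IsFunctionField E N) {g : N} (hg0 : g ≠ 0) {n : ℕ} (hn : 0 < n)
    (h : ∀ P : Place E N, (n : ℤ) ∣ ord P.ring g) : ∃ w : U, w ^ n = g := by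
  refine hc.root g n hn fun W hW => ?_
  by_cases htop : W.comap (algebraMap N U) = ⊤
  · refine ⟨1, ?_⟩
    have hmem : ∀ x : N, (x : U) ∈ W := by
      intro x
      have : x ∈ W.comap (algebraMap N U) := by rw [htop]; trivial
      exact this
    have h1 : W.valuation (g : U) ≤ 1 := (W.valuation_le_one_iff _).2 (hmem g)
    have h2 : W.valuation ((g⁻¹ : N) : U) ≤ 1 := (W.valuation_le_one_iff _).2 (hmem _)
    rw [IntermediateField.coe_inv, map_inv₀] at h2
    have h5 : W.valuation (g : U) ≠ 0 := by simpa using hg0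
    rw [one_pow, map_one]
    exact le_antisymm h1 ((inv_le_one₀ (zero_lt_iff.2 h5)).1 h2)
  · let P : Place E N :=
      { ring := W.comap (algebraMap N U)
        algebraMap_mem := fun c => by
          change algebraMap N U (algebraMap E N c) ∈ W
          rw [← IsScalarTower.algebraMap_apply]
          exact hW c
        ne_top := htop }
    obtain ⟨m, hm⟩ := h P
    obtain ⟨π, hπ0, hπ⟩ := FF.exists_ord_eq hN P m
    refine ⟨(π : U), ?_⟩
    have h1 : ord P.ring (g / π ^ n) = 0 := by
      rw [FF.ord_div hN P hg0 (pow_ne_zero n hπ0), FF.ord_pow hN P hπ0, hπ, hm]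
      ring
    have h2 := val_unit_of_ord_zero hN P (B := W) (fun x => Iff.rfl)
      (div_ne_zero hg0 (pow_ne_zero n hπ0)) h1
    have h3 : ((g / π ^ n : N) : U) = (g : U) / (π : U) ^ n := rfl
    rw [h3, map_div₀] at h2
    have h4 : W.valuation ((π : U) ^ n) ≠ 0 := by
      simpa using fun h : π = 0 => absurd h hπ0
    exact (div_eq_one_iff_eq h4).1 h2

end

end Pool.Agent.SC
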