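import Mathlib
import Pool.Agent.SC.Defs2
import Pool.Agent.Helper17.FF.Genus

/-!
# MP_e66f84_ag, block G1: the ring of functions regular away from a point
-/

universe u

namespace Pool.Agent.SC

open VC Module Polynomial WithZero IsDedekindDomain

/-! ### Valuation rings over a Dedekind domain -/

section Ded

variable {B F : Type*} [CommRing B] [IsDomain B] [Field F] [Algebra B F] [IsFractionRing B F]

/-- The centre on `B` of a valuation ring containing `B`. -/
def centerR (R : ValuationSubring F) (hR : ∀ b : B, algebraMap B F b ∈ R) : Ideal B :=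
  (IsLocalRing.maximalIdeal R).comap ((algebraMap B F).codRestrict R hR)

omit [IsDomain B] [IsFractionRing B F] in
theorem mem_centerR (R : ValuationSubring F) (hR : ∀ b : B, algebraMap B F b ∈ R) (b : B) :
    b ∈ centerR R hR ↔ algebraMap B F b ∈ R.nonunits := by
  unfold centerR
  rw [Ideal.mem_comap, ← ValuationSubring.coe_mem_nonunits_iff]
  rfl

omit [IsDomain B] [IsFractionRing B F] in
theorem centerR_isPrime (R : ValuationSubring F) (hR : ∀ b : B, algebraMap B F b ∈ R) :
    (centerR R hR).IsPrime := by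
  unfold centerR
  infer_instance

omit [IsDomain B] [IsFractionRing B F] in
theorem inv_mem_of_notMem_centerR (R : ValuationSubring F) (hR : ∀ b : B, algebraMap B F b ∈ R)
    {d : B} (hd : d ∉ centerR R hR) : (algebraMap B F d)⁻¹ ∈ R := by
  by_contra hcon
  exact hd ((mem_centerR R hR d).2 ((ValuationSubring.mem_nonunits_iff_or _).mpr (Or.inr hcon)))

theorem centerR_ne_bot (R : ValuationSubring F) (hR : ∀ b : B, algebraMap B F b ∈ R)
    (hne : R ≠ ⊤) : centerR R hR ≠ ⊥ := by
  intro h
  apply hne
  rw [eq_top_iff]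
  intro x _
  obtain ⟨a, b, hb, rfl⟩ := IsFractionRing.div_surjective (A := B) x
  have hb' : b ∉ centerR R hR := by
    rw [h, Ideal.mem_bot]
    exact nonZeroDivisors.ne_zero hb
  rw [div_eq_mul_inv]
  exact R.mul_mem _ _ (hR a) (inv_mem_of_notMem_centerR R hR hb')

/-- The height one prime of a valuation ring. -/
def hosR (R : ValuationSubring F) (hR : ∀ b : B, algebraMap B F b ∈ R) (hne : R ≠ ⊤) :
    HeightOneSpectrum B :=
  ⟨centerR R hR, centerR_isPrime R hR, centerR_ne_bot R hR hne⟩

theorem valuationSubring_hosR [IsDedekindDomain B] (R : ValuationSubring F)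
    (hR : ∀ b : B, algebraMap B F b ∈ R) (hne : R ≠ ⊤) :
    ((hosR R hR hne).valuation F).valuationSubring = R := by
  rw [← HeightOneSpectrum.valuationSubringAtPrime_eq_valuationSubring]
  apply ValuationSubring.eq_of_le_of_ne_top
  · rw [HeightOneSpectrum.valuationSubringAtPrime_eq_valuationSubring]
    intro x hx
    rw [Valuation.mem_valuationSubring_iff] at hx
    obtain ⟨n, d, hnd⟩ := HeightOneSpectrum.exists_primeCompl_mul_eq_of_integer
      (hosR R hR hne) x hx
    have hd : (d : B) ∉ centerR R hR := d.2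
    have hd0 : algebraMap B F d ≠ 0 := by
      intro h
      apply hd
      rw [mem_centerR, h]
      exact (ValuationSubring.mem_nonunits_iff_or _).mpr (Or.inl rfl)
    have hx' : x = algebraMap B F n * (algebraMap B F d)⁻¹ := by
      rw [← hnd, mul_assoc, mul_inv_cancel₀ hd0, mul_one]
    rw [hx']
    exact R.mul_mem _ _ (hR n) (inv_mem_of_notMem_centerR R hR hd)
  · exact hne

end Ded

section ord

variable {B F : Type*} [CommRing B] [IsDedekindDomain B] [Field F] [Algebra B F]
  [IsFractionRing B F]

/-- The order at the valuation ring of `v`. -/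
theorem valuation_eq_exp_ord' (v : HeightOneSpectrum B) {f : F} (hf : f ≠ 0) :
    v.valuation F f = exp (- ord (v.valuation F).valuationSubring f) := by
  obtain ⟨π, hπ⟩ := v.valuation_exists_uniformizer F
  exact valuation_eq_exp_ord rfl hπ hf

open Classical in
theorem count_eq_ord (v : HeightOneSpectrum B) {b : B} (hb : b ≠ 0) :
    (((Associates.mk v.asIdeal).count (Associates.mk (Ideal.span {b})).factors : ℕ) : ℤ) =
      ord (v.valuation F).valuationSubring (algebraMap B F b) := by
  have hb' : algebraMap B F b ≠ 0 := by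
    rw [Ne, IsFractionRing.to_map_eq_zero_iff]
    exact hb
  have h1 := valuation_eq_exp_ord' v hb'
  rw [HeightOneSpectrum.valuation_of_algebraMap, HeightOneSpectrum.intValuation_if_neg _ hb,
    exp_inj, neg_inj] at h1
  exact h1

open scoped nonZeroDivisors

theorem fcount_algebraMap (v : HeightOneSpectrum B) {b : B} (hb : b ≠ 0) :
    FractionalIdeal.count F v (FractionalIdeal.spanSingleton B⁰ (algebraMap B F b)) =
      ord (v.valuation F).valuationSubring (algebraMap B F b) := by
  classical
  rw [← FractionalIdeal.coeIdeal_span_singleton, FractionalIdeal.count_coe,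
    count_eq_ord (F := F) v hb]
  rw [Ne, Submodule.zero_eq_bot, Ideal.span_singleton_eq_bot]
  exact hb

theorem fcount_spanSingleton (v : HeightOneSpectrum B) {f : F} (hf : f ≠ 0) :
    FractionalIdeal.count F v (FractionalIdeal.spanSingleton B⁰ f) =
      ord (v.valuation F).valuationSubring f := by
  obtain ⟨a, b, hb, rfl⟩ := IsFractionRing.div_surjective (A := B) f
  have hb0 : b ≠ 0 := nonZeroDivisors.ne_zero hb
  have hb' : algebraMap B F b ≠ 0 := by
    rw [Ne, IsFractionRing.to_map_eq_zero_iff]
    exact hb0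
  have ha' : algebraMap B F a ≠ 0 := fun h => hf (by rw [h, zero_div])
  have ha0 : a ≠ 0 := by
    rintro rfl
    exact ha' (map_zero _)
  have h1 := fcount_algebraMap (F := F) v ha0
  have h2 := fcount_algebraMap (F := F) v hb0
  have h3 := FractionalIdeal.count_mul F v
    (I := FractionalIdeal.spanSingleton B⁰ (algebraMap B F a / algebraMap B F b))
    (I' := FractionalIdeal.spanSingleton B⁰ (algebraMap B F b))
    (by rwa [Ne, FractionalIdeal.spanSingleton_eq_zero_iff])
    (by rwa [Ne, FractionalIdeal.spanSingleton_eq_zero_iff])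
  rw [FractionalIdeal.spanSingleton_mul_spanSingleton, div_mul_cancel₀ _ hb', h1, h2] at h3
  have h4 := valuation_eq_exp_ord' v ha'
  have h5 := valuation_eq_exp_ord' v hb'
  have h6 := valuation_eq_exp_ord' v hf
  rw [map_div₀, h4, h5, ← exp_sub, exp_inj] at h6
  omega

theorem fractional_eq_of_count {I J : FractionalIdeal B⁰ F} (hI : I ≠ 0) (hJ : J ≠ 0)
    (h : ∀ v : HeightOneSpectrum B, FractionalIdeal.count F v I = FractionalIdeal.count F v J) :
    I = J := by
  rw [← FractionalIdeal.finprod_heightOneSpectrum_factorization' F hI,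
    ← FractionalIdeal.finprod_heightOneSpectrum_factorization' F hJ]
  exact finprod_congr fun v => by rw [h v]

open Classical in
/-- An ideal is an `n`-th power as soon as its multiplicities are divisible by `n`. -/
theorem exists_pow_of_dvd {I : Ideal B} (hI : I ≠ ⊥) {n : ℕ}
    (h : ∀ v : HeightOneSpectrum B, n ∣ (Associates.mk v.asIdeal).count (Associates.mk I).factors) :
    ∃ J : Ideal B, I = J ^ n := by
  have h1 : Associates.mk I ≠ 0 := Associates.mk_ne_zero.2 hI
  obtain ⟨b, hb⟩ := Associates.is_pow_of_dvd_count h1 (k := n) (by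
    intro p hp
    obtain ⟨Q, rfl⟩ := Associates.mk_surjective p
    rw [Associates.irreducible_mk] at hp
    have hQ : Prime Q := hp.prime
    exact h ⟨Q, Ideal.isPrime_of_prime hQ, hQ.ne_zero⟩)
  obtain ⟨J, rfl⟩ := Associates.mk_surjective b
  rw [← Associates.mk_pow, Associates.mk_eq_mk_iff_associated, associated_iff_eq] at hb
  exact ⟨J, hb⟩

end ord

/-! ### The ring `ringAway P0` -/

section G1

variable {k F : Type u} [Field k] [IsAlgClosed k] [Field F] [Algebra k F]
  (hF : IsFunctionField k F) (P0 : Place k F)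

omit [IsAlgClosed k] in
theorem mem_ringAway {P0 : Place k F} {f : F} :
    f ∈ ringAway P0 ↔ ∀ P : Place k F, P ≠ P0 → f ∈ P.ring := Iff.rfl

include hF

theorem ord_P0_nonpos {P0 : Place k F} {b : F} (hb : b ∈ ringAway P0) (hb0 : b ≠ 0) :
    ord P0.ring b ≤ 0 := by
  by_contra h
  push Not at h
  have h1 : ∀ P, 0 ≤ FF.dv hF b P := by
    intro P
    rw [FF.dv_apply]
    by_cases hP : P = P0
    · rw [hP]; exact h.le
    · exact (FF.ord_nonneg_iff hF P hb0).2 (hb P hP)
  have h2 := FF.eq_zero_of_deg h1 (FF.deg_dv hF hb0)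
  have h3 : FF.dv hF b P0 = 0 := by rw [h2]; rfl
  rw [FF.dv_apply] at h3
  omega

theorem degAway_spec {P0 : Place k F} (b : ringAway P0) (hb0 : b ≠ 0) :
    (degAway P0 b : ℤ) = - ord P0.ring (b : F) := by
  unfold degAway
  have h1 := ord_P0_nonpos hF b.2 (fun h => hb0 (Subtype.ext h))
  omega

/-- Functions with poles only at `P0`, of every large order. -/
theorem exists_pole (hg : Riemann k F) :
    ∃ N : ℕ, ∀ n : ℕ, N ≤ n → ∃ b ∈ ringAway P0, b ≠ 0 ∧ ord P0.ring b = -n := by
  classical
  obtain ⟨g, hg⟩ := hg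
  set L : ℕ → ℕ := fun n => FF.ell (k := k) (Finsupp.single P0 (n : ℤ)) with hL
  have h1 : ∀ n, L (n + 1) ≤ L n + 1 := by
    intro n
    have := FF.ell_add_single hF (Finsupp.single P0 (n : ℤ)) P0
    rw [← Finsupp.single_add] at this
    simpa [hL] using this
  have h2 : ∀ n, n + 1 ≤ L n + g := by
    intro n
    have := hg (Finsupp.single P0 (n : ℤ))
    rw [Finsupp.sum_single_index rfl] at this
    have h3 : ((n : ℤ) + 1) ≤ (L n : ℤ) + g := this
    omega
  have hanti : Antitone fun n => L n + g - (n + 1) := by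
    apply antitone_nat_of_succ_le
    intro n
    have := h1 n
    have := h2 n
    omega
  obtain ⟨N, hN⟩ := WellFoundedLT.antitone_chain_condition hanti
  refine ⟨N + 1, fun n hn => ?_⟩
  obtain ⟨m, rfl⟩ : ∃ m, n = m + 1 := ⟨n - 1, by omega⟩
  have h3 : L (m + 1) = L m + 1 := by
    have a1 := hN m (by omega)
    have a2 := hN (m + 1) (by omega)
    have := h1 m
    have := h2 m
    have := h2 (m + 1)
    omega
  have hfin := FF.finite_rr hF (Finsupp.single P0 (m : ℤ))
  obtain ⟨f, hf1, hf2⟩ : ∃ f ∈ riemannRochSpace k F (Finsupp.single P0 ((m + 1 : ℕ) : ℤ)),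
      f ∉ riemannRochSpace k F (Finsupp.single P0 (m : ℤ)) := by
    by_contra hcon
    push Not at hcon
    have h4 : L (m + 1) ≤ L m := Submodule.finrank_mono hcon
    omega
  have hf0 : f ≠ 0 := by
    rintro rfl
    exact hf2 (Submodule.zero_mem _)
  rw [FF.mem_rr hF _ hf0] at hf1 hf2
  push Not at hf2
  obtain ⟨Q, hQ⟩ := hf2
  have hQP : Q = P0 := by
    by_contra hne
    have h5 := hf1 Q
    rw [Finsupp.single_eq_of_ne hne] at h5 hQ
    omega
  subst hQP
  refine ⟨f, fun P hP => ?_, hf0, ?_⟩
  · rw [← FF.ord_nonneg_iff hF P hf0]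
    have h5 := hf1 P
    rw [Finsupp.single_eq_of_ne hP] at h5
    omega
  · have h5 := hf1 Q
    rw [Finsupp.single_eq_same] at h5 hQ
    push_cast at h5 ⊢
    omega

/-- G1b (auxiliary order of the arguments). -/
theorem G1_onePt_ringAway (hg : Riemann k F) :
    OnePt k (ringAway P0) (degAway P0) := by
  have hz : degAway P0 (0 : ringAway P0) = 0 := by
    unfold degAway
    rw [ZeroMemClass.coe_zero, FF.ord_zero P0]
    rfl
  refine ⟨?_, ?_, ?_, ?_, ?_⟩
  · intro c
    by_cases hc : c = 0
    · rw [hc, map_zero, hz]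
    · unfold degAway
      have : ((algebraMap k (ringAway P0) c : ringAway P0) : F) = algebraMap k F c := rfl
      rw [this, FF.ord_algebraMap hF P0 hc]
      rfl
  · intro a b ha hb
    have ha' : (a : F) ≠ 0 := fun h => ha (Subtype.ext h)
    have hb' : (b : F) ≠ 0 := fun h => hb (Subtype.ext h)
    have hab : a * b ≠ 0 := mul_ne_zero ha hb
    have h1 := degAway_spec hF a ha
    have h2 := degAway_spec hF b hb
    have h3 := degAway_spec hF (a * b) hab
    have h4 : ((a * b : ringAway P0) : F) = (a : F) * b := rfl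
    rw [h4, FF.ord_mul hF P0 ha' hb'] at h3
    omega
  · intro a b
    by_cases ha : a = 0
    · rw [ha, zero_add, hz]; exact le_max_right _ _
    by_cases hb : b = 0
    · rw [hb, add_zero, hz]; exact le_max_left _ _
    by_cases hab : a + b = 0
    · rw [hab, hz]; exact Nat.zero_le _
    have ha' : (a : F) ≠ 0 := fun h => ha (Subtype.ext h)
    have hb' : (b : F) ≠ 0 := fun h => hb (Subtype.ext h)
    have hab' : (a : F) + b ≠ 0 := fun h => hab (Subtype.ext h)
    have h1 := degAway_spec hF a ha
    have h2 := degAway_spec hF b hb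
    have h3 := degAway_spec hF (a + b) hab
    have h4 : ((a + b : ringAway P0) : F) = (a : F) + b := rfl
    rw [h4] at h3
    have h5 := FF.ord_add_ge hF P0 ha' hb' hab'
    omega
  · intro a b ha hb hab
    have ha' : (a : F) ≠ 0 := fun h => ha (Subtype.ext h)
    have hb' : (b : F) ≠ 0 := fun h => hb (Subtype.ext h)
    have h1 := degAway_spec hF a ha
    have h2 := degAway_spec hF b hb
    have hord : ord P0.ring ((a : F) / b) = 0 := by
      rw [FF.ord_div hF P0 ha' hb']
      omega
    have hmem : (a : F) / b ∈ P0.ring :=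
      (FF.ord_nonneg_iff hF P0 (div_ne_zero ha' hb')).1 hord.ge
    obtain ⟨c, hc⟩ := FF.exists_residue hF P0 hmem
    refine ⟨c, ?_⟩
    by_cases hz' : a - c • b = 0
    · exact Or.inl (sub_eq_zero.1 hz')
    right
    have h3 := degAway_spec hF (a - c • b) hz'
    have h4 : ((a - c • b : ringAway P0) : F) = ((a : F) / b - algebraMap k F c) * b := by
      change (a : F) - c • (b : F) = _
      rw [sub_mul, div_mul_cancel₀ _ hb', Algebra.smul_def]
    have h5 : (a : F) / b - algebraMap k F c ≠ 0 := by
      intro h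
      rw [h, zero_mul] at h4
      exact hz' (Subtype.ext h4)
    rw [h4, FF.ord_mul hF P0 h5 hb'] at h3
    have h6 := (FF.ord_pos_iff hF P0 h5).2 hc
    omega
  · obtain ⟨N, hN⟩ := exists_pole hF P0 hg
    refine ⟨N, fun n hn => ?_⟩
    obtain ⟨b, hb, hb0, hord⟩ := hN n hn
    have hb0' : (⟨b, hb⟩ : ringAway P0) ≠ 0 := fun h => hb0 (congrArg Subtype.val h)
    refine ⟨⟨b, hb⟩, hb0', ?_⟩
    have := degAway_spec hF ⟨b, hb⟩ hb0'
    rw [show ((⟨b, hb⟩ : ringAway P0) : F) = b from rfl, hord] at this
    omega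

/-- A function with a pole at `P0` only. -/
theorem exists_pole_one (hg : Riemann k F) :
    ∃ x ∈ ringAway P0, x ≠ 0 ∧ ord P0.ring x < 0 := by
  obtain ⟨N, hN⟩ := exists_pole hF P0 hg
  obtain ⟨x, hx, hx0, hord⟩ := hN (N + 1) (by omega)
  exact ⟨x, hx, hx0, by rw [hord]; push_cast; omega⟩

theorem notMem_of_ord_neg {P0 : Place k F} {x : F} (hx0 : x ≠ 0) (hx : ord P0.ring x < 0) :
    x ∉ P0.ring := by
  rw [← FF.ord_nonneg_iff hF P0 hx0]
  omega

/-- `x⁻¹` is transcendental. -/
theorem transcendental_of_pole {P0 : Place k F} {x : F} (hx0 : x ≠ 0)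
    (hx : ord P0.ring x < 0) : Transcendental k x := by
  have h1 : x⁻¹ ∈ P0.ring.nonunits := by
    rw [ValuationSubring.inv_mem_nonunits_iff]
    exact Or.inr (notMem_of_ord_neg hF hx0 hx)
  have h2 := transcendental_of_mem_nonunits P0 (inv_ne_zero hx0) h1
  have h3 := FF.transcendental_inv' h2
  rwa [inv_inv] at h3

variable [CharZero k]

/-- G1a (auxiliary order of the arguments). -/
theorem G1_isDedekind_ringAway (hg : Riemann k F) :
    IsDedekindDomain (ringAway P0) ∧ IsFractionRing (ringAway P0) F := by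
  obtain ⟨x, hx, hx0, hord⟩ := exists_pole_one hF P0 hg
  have hxP0 := notMem_of_ord_neg hF hx0 hord
  have htr := transcendental_of_pole hF hx0 hord
  have hfin := hF.finiteDimensional htr
  let i1 : Algebra k[X] F := polyAlg x
  let i3 : Algebra (RatFunc k) F := ratAlg x htr
  have s1 : IsScalarTower k k[X] F := IsScalarTower.of_algebraMap_eq (fun y =>
    (aeval x : k[X] →ₐ[k] F).commutes y |>.symm)
  have s3 : IsScalarTower k[X] (RatFunc k) F := IsScalarTower.of_algebraMap_eq (fun y =>
    (ratAlg_poly x htr y).symm)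
  have f1 : FiniteDimensional (RatFunc k) F := finiteDimensional_ratAlg x htr hfin
  have hc0 : CharZero (RatFunc k) :=
    charZero_of_injective_algebraMap (algebraMap k (RatFunc k)).injective
  let x' : ringAway P0 := ⟨x, hx⟩
  let i4 : Algebra k[X] (ringAway P0) := (aeval x' : k[X] →ₐ[k] ringAway P0).toRingHom.toAlgebra
  have hal : ∀ p : k[X], algebraMap k[X] F p = aeval x p := fun p => rfl
  have hal' : ∀ p : k[X], ((algebraMap k[X] (ringAway P0) p : ringAway P0) : F) = aeval x p := by
    intro p
    change ((aeval x' p : ringAway P0) : F) = _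
    have h1 := Polynomial.aeval_algebraMap_apply F x' p
    exact h1.symm
  have s4 : IsScalarTower k[X] (ringAway P0) F := IsScalarTower.of_algebraMap_eq (fun p =>
    (hal' p).symm)
  have hpoly : ∀ (V : ValuationSubring F), (∀ c : k, algebraMap k F c ∈ V) → x ∈ V →
      ∀ p : k[X], aeval x p ∈ V := by
    intro V hV hxV p
    induction p using Polynomial.induction_on with
    | C a => rw [aeval_C]; exact hV a
    | add p q hp hq => rw [map_add]; exact V.add_mem _ _ hp hq
    | monomial n a ih =>
      rw [pow_succ, ← mul_assoc, map_mul, aeval_X]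
      exact V.mul_mem _ _ ih hxV
  have hIC : IsIntegralClosure (ringAway P0) k[X] F := by
    refine ⟨Subtype.val_injective, fun {y} => ⟨fun hy => ?_, ?_⟩⟩
    · refine ⟨⟨y, fun P hP => ?_⟩, rfl⟩
      have hmem : ∀ p : k[X], algebraMap k[X] F p ∈ P.ring :=
        hpoly P.ring P.algebraMap_mem (hx P hP)
      let f : k[X] →+* P.ring := (algebraMap k[X] F).codRestrict P.ring hmem
      obtain ⟨p, hp, hp'⟩ := hy
      have h1 : IsIntegral P.ring y := by
        refine ⟨p.map f, hp.map f, ?_⟩
        rw [Polynomial.eval₂_map]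
        exact hp'
      obtain ⟨z, hz⟩ := IsIntegrallyClosed.isIntegral_iff.mp h1
      rw [← hz]
      exact z.2
    · rintro ⟨b, rfl⟩
      have hb : (b : F) ∈ (⨅ V : {V : ValuationSubring F //
          (Set.range (algebraMap k[X] F)) ⊆ V.toSubring}, V.1.toSubring) := by
        rw [Subring.mem_iInf]
        rintro ⟨V, hV⟩
        change (b : F) ∈ V
        by_cases hVt : V = ⊤
        · rw [hVt]; exact ValuationSubring.mem_top _
        · have h1 : ∀ c : k, algebraMap k F c ∈ V := fun c => hV ⟨C c, by rw [hal, aeval_C]⟩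
          have h2 : x ∈ V := hV ⟨X, by rw [hal, aeval_X]⟩
          refine b.2 ⟨V, h1, hVt⟩ fun h => hxP0 ?_
          rw [← h]
          exact h2
      rw [iInf_valuationSubring_superset] at hb
      have hb2 : IsIntegral (Subring.closure (Set.range (algebraMap k[X] F))) (b : F) := hb
      have hcl : ∀ z ∈ Subring.closure (Set.range (algebraMap k[X] F)),
          z ∈ (algebraMap k[X] F).range := by
        intro z hz
        have := Subring.closure_le (s := Set.range (algebraMap k[X] F))
          (t := (algebraMap k[X] F).range)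
        exact (this.2 (fun w hw => hw)) hz
      let i5 : Algebra k[X] (Subring.closure (Set.range (algebraMap k[X] F))) :=
        ((algebraMap k[X] F).codRestrict (Subring.closure (Set.range (algebraMap k[X] F)))
          fun p => Subring.subset_closure ⟨p, rfl⟩).toAlgebra
      have s5 : IsScalarTower k[X] (Subring.closure (Set.range (algebraMap k[X] F))) F :=
        IsScalarTower.of_algebraMap_eq fun p => rfl
      have hint : Algebra.IsIntegral k[X] (Subring.closure (Set.range (algebraMap k[X] F))) := by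
        constructor
        intro z
        obtain ⟨p, hp⟩ := hcl z z.2
        have : z = algebraMap k[X] (Subring.closure (Set.range (algebraMap k[X] F))) p :=
          Subtype.ext hp.symm
        rw [this]
        exact isIntegral_algebraMap
      exact isIntegral_trans (b : F) hb2
  exact ⟨IsIntegralClosure.isDedekindDomain k[X] (RatFunc k) F (ringAway P0),
    IsIntegralClosure.isFractionRing_of_finite_extension k[X] (RatFunc k) F (ringAway P0)⟩

omit hF [IsAlgClosed k] [CharZero k] in
theorem algebraMap_ringAway_mem {P0 P : Place k F} (hP : P ≠ P0) (b : ringAway P0) :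
    algebraMap (ringAway P0) F b ∈ P.ring := b.2 P hP

section places

variable {P0} [IsDedekindDomain (ringAway P0)] [IsFractionRing (ringAway P0) F]

omit hF [IsAlgClosed k] [CharZero k] in
/-- The place of a maximal ideal of `ringAway P0`. -/
noncomputable def placeOf (v : HeightOneSpectrum (ringAway P0)) : Place k F where
  ring := (v.valuation F).valuationSubring
  algebraMap_mem := by
    intro a
    rw [Valuation.mem_valuationSubring_iff, IsScalarTower.algebraMap_apply k (ringAway P0) F]
    exact v.valuation_le_one _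
  ne_top := by
    simp only [ne_eq, Valuation.valuationSubring_eq_top_iff, not_not]
    infer_instance

omit hF [IsAlgClosed k] [CharZero k] in
theorem placeOf_ring (v : HeightOneSpectrum (ringAway P0)) :
    (placeOf v).ring = (v.valuation F).valuationSubring := rfl

omit hF [IsAlgClosed k] [CharZero k] in
/-- The maximal ideal of a place. -/
noncomputable def hosAway (P : Place k F) (hP : P ≠ P0) : HeightOneSpectrum (ringAway P0) :=
  hosR P.ring (algebraMap_ringAway_mem hP) P.ne_top

omit hF [IsAlgClosed k] [CharZero k] in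
theorem placeOf_hosAway (P : Place k F) (hP : P ≠ P0) : placeOf (hosAway P hP) = P := by
  ext1
  exact valuationSubring_hosR P.ring (algebraMap_ringAway_mem hP) P.ne_top

omit [CharZero k] in
theorem placeOf_ne (hg : Riemann k F) (v : HeightOneSpectrum (ringAway P0)) :
    placeOf v ≠ P0 := by
  intro h
  obtain ⟨x, hx, hx0, hord⟩ := exists_pole_one hF P0 hg
  apply notMem_of_ord_neg hF hx0 hord
  rw [← h]
  change x ∈ (v.valuation F).valuationSubring
  rw [Valuation.mem_valuationSubring_iff]
  exact v.valuation_le_one (⟨x, hx⟩ : ringAway P0)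

omit hF [IsAlgClosed k] [CharZero k] in
theorem placeOf_injective : Function.Injective (placeOf (P0 := P0)) := by
  intro v w h
  have h1 : (v.valuation F).valuationSubring = (w.valuation F).valuationSubring :=
    congrArg Place.ring h
  ext b
  rw [← HeightOneSpectrum.valuation_lt_one_iff_mem (K := F),
    ← HeightOneSpectrum.valuation_lt_one_iff_mem (K := F),
    ← mem_nonunits_of_valuation (w := v.valuation F) rfl,
    ← mem_nonunits_of_valuation (w := w.valuation F) rfl, h1]

omit hF [IsAlgClosed k] [CharZero k] in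
open Classical in
theorem count_eq_ord_placeOf (v : HeightOneSpectrum (ringAway P0)) {b : ringAway P0} (hb : b ≠ 0) :
    (((Associates.mk v.asIdeal).count (Associates.mk (Ideal.span {b})).factors : ℕ) : ℤ) =
      ord (placeOf v).ring (b : F) := count_eq_ord v hb

end places

/-- G1c (auxiliary order of the arguments). -/
theorem G1_exists_root_ideal (hg : Riemann k F) (b : ringAway P0) (hb : b ≠ 0) {n : ℕ} (_hn : 0 < n)
    (h : ∀ P : Place k F, P ≠ P0 → (n : ℤ) ∣ ord P.ring (b : F)) :
    ∃ I : Ideal (ringAway P0), Ideal.span {b} = I ^ n := by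
  classical
  obtain ⟨h1, h2⟩ := G1_isDedekind_ringAway hF P0 hg
  refine exists_pow_of_dvd (by rwa [Ne, Ideal.span_singleton_eq_bot]) fun v => ?_
  rw [← Int.natCast_dvd_natCast, count_eq_ord_placeOf v hb]
  exact h _ (placeOf_ne hF hg v)

/-- G1d (auxiliary order of the arguments). -/
theorem G1_dvd_ord_of_ideal (hg : Riemann k F) (b : ringAway P0) (hb : b ≠ 0) {n : ℕ} (hn : 0 < n)
    {I : Ideal (ringAway P0)} (h : Ideal.span {b} = I ^ n) (P : Place k F) :
    (n : ℤ) ∣ ord P.ring (b : F) := by
  classical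
  obtain ⟨h1, h2⟩ := G1_isDedekind_ringAway hF P0 hg
  have hb' : (b : F) ≠ 0 := fun h => hb (Subtype.ext h)
  have hI : I ≠ ⊥ := by
    rintro rfl
    rw [← Ideal.zero_eq_bot, zero_pow (by omega), Ideal.zero_eq_bot,
      Ideal.span_singleton_eq_bot] at h
    exact hb h
  have key : ∀ Q : Place k F, Q ≠ P0 → (n : ℤ) ∣ ord Q.ring (b : F) := by
    intro Q hQ
    have h3 := count_eq_ord_placeOf (hosAway Q hQ) hb
    rw [placeOf_hosAway, h, Associates.mk_pow,
      Associates.count_pow (Associates.mk_ne_zero.2 hI)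
        (hosAway Q hQ).associates_irreducible] at h3
    rw [← h3]
    push_cast
    exact dvd_mul_right _ _
  by_cases hP : P = P0
  · subst hP
    have h4 : FF.deg (FF.dv hF (b : F) - Finsupp.single P (ord P.ring (b : F))) =
        - ord P.ring (b : F) := by
      rw [map_sub, FF.deg_dv hF hb', FF.deg_single, zero_sub]
    rw [← dvd_neg, ← h4, FF.deg_eq]
    refine Finset.dvd_sum fun Q _ => ?_
    change (n : ℤ) ∣ (FF.dv hF (b : F) - Finsupp.single P (ord P.ring (b : F))) Q
    rw [Finsupp.sub_apply, FF.dv_apply]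
    by_cases hQ : Q = P
    · rw [hQ, Finsupp.single_eq_same, sub_self]
      exact dvd_zero _
    · rw [Finsupp.single_eq_of_ne hQ, sub_zero]
      exact key Q hQ
  · exact key P hP

open scoped nonZeroDivisors in
/-- G1e (auxiliary order of the arguments). -/
theorem G1_div_ringAway (hg : Riemann k F) (hdiv : PicDiv k F) :
    ∀ I : Ideal (ringAway P0), I ≠ ⊥ → ∀ n : ℕ, 0 < n →
      ∃ J : Ideal (ringAway P0), J ≠ ⊥ ∧ SameClass I (J ^ n) := by
  classical
  obtain ⟨h1, h2⟩ := G1_isDedekind_ringAway hF P0 hg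
  intro I hI n hn
  obtain ⟨If, hIf⟩ : ∃ If : FractionalIdeal (ringAway P0)⁰ F,
    If = (I : FractionalIdeal (ringAway P0)⁰ F) := ⟨_, rfl⟩
  have hIf0 : If ≠ 0 := by rw [hIf]; exact FractionalIdeal.coeIdeal_ne_zero.2 hI
  -- the divisor of `I`
  let ex : HeightOneSpectrum (ringAway P0) →₀ ℤ :=
    Finsupp.mk (FractionalIdeal.finite_factors If).toFinset
      (fun v => FractionalIdeal.count F v If) (fun v => by
        rw [Set.Finite.mem_toFinset]; rfl)
  let E : Place k F →₀ ℤ := ex.mapDomain placeOf
  have hE : ∀ v, E (placeOf v) = FractionalIdeal.count F v If := fun v =>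
    Finsupp.mapDomain_apply placeOf_injective ex v
  obtain ⟨D', c, hc0, hD'⟩ := hdiv n hn (E - Finsupp.single P0 (FF.deg E)) (by
    rw [← FF.deg_eq, map_sub, FF.deg_single, sub_self])
  have hv : ∀ v : HeightOneSpectrum (ringAway P0), FractionalIdeal.count F v If =
      n * D' (placeOf v) + ord (placeOf v).ring c := by
    intro v
    rw [← hE, ← hD', Finsupp.sub_apply, Finsupp.single_eq_of_ne (placeOf_ne hF hg v), sub_zero]
  -- the root
  let ex' : HeightOneSpectrum (ringAway P0) →₀ ℤ :=
    D'.comapDomain placeOf placeOf_injective.injOn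
  set J' : FractionalIdeal (ringAway P0)⁰ F :=
    ex'.prod (fun v m => (v.asIdeal : FractionalIdeal (ringAway P0)⁰ F) ^ m) with hJ'
  have hJ'c : ∀ v, FractionalIdeal.count F v J' = D' (placeOf v) := fun v =>
    FractionalIdeal.count_finsuppProd F v ex'
  have hJ'0 : J' ≠ 0 := by
    rw [hJ', Finsupp.prod]
    exact Finset.prod_ne_zero_iff.2 fun v _ =>
      zpow_ne_zero _ (FractionalIdeal.coeIdeal_ne_zero.2 v.ne_bot)
  have hc0' : FractionalIdeal.spanSingleton (ringAway P0)⁰ c ≠ 0 := by
    rwa [Ne, FractionalIdeal.spanSingleton_eq_zero_iff]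
  have hmain : If = FractionalIdeal.spanSingleton (ringAway P0)⁰ c * J' ^ n := by
    refine fractional_eq_of_count hIf0 (mul_ne_zero hc0' (pow_ne_zero _ hJ'0)) fun v => ?_
    rw [FractionalIdeal.count_mul F v hc0' (pow_ne_zero _ hJ'0), FractionalIdeal.count_pow,
      hJ'c, fcount_spanSingleton v hc0, hv, placeOf_ring]
    ring
  obtain ⟨d, J, hd0, hdJ⟩ := FractionalIdeal.exists_eq_spanSingleton_mul J'
  obtain ⟨c1, c2, hc2, rfl⟩ := IsFractionRing.div_surjective (A := ringAway P0) c
  have hc20 : c2 ≠ 0 := nonZeroDivisors.ne_zero hc2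
  have hc10 : c1 ≠ 0 := by
    rintro rfl
    rw [map_zero, zero_div] at hc0
    exact hc0 rfl
  have hJ0 : J ≠ ⊥ := by
    rintro rfl
    rw [FractionalIdeal.coeIdeal_bot, mul_zero] at hdJ
    exact hJ'0 hdJ
  refine ⟨J, hJ0, c2 * d ^ n, c1, mul_ne_zero hc20 (pow_ne_zero _ hd0), hc10, ?_⟩
  have hinj : Function.Injective (algebraMap (ringAway P0) F) :=
    IsFractionRing.injective (ringAway P0) F
  have hd' : algebraMap (ringAway P0) F d ≠ 0 := by
    rw [Ne, IsFractionRing.to_map_eq_zero_iff]; exact hd0
  have hc2' : algebraMap (ringAway P0) F c2 ≠ 0 := by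
    rw [Ne, IsFractionRing.to_map_eq_zero_iff]; exact hc20
  have hfin : ((Ideal.span {c2 * d ^ n} * I : Ideal (ringAway P0)) :
      FractionalIdeal (ringAway P0)⁰ F) = ((Ideal.span {c1} * J ^ n : Ideal (ringAway P0)) :
      FractionalIdeal (ringAway P0)⁰ F) := by
    rw [FractionalIdeal.coeIdeal_mul, FractionalIdeal.coeIdeal_mul, FractionalIdeal.coeIdeal_pow,
      FractionalIdeal.coeIdeal_span_singleton, FractionalIdeal.coeIdeal_span_singleton, ← hIf,
      hmain, hdJ, mul_pow, FractionalIdeal.spanSingleton_pow, ← mul_assoc, ← mul_assoc,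
      FractionalIdeal.spanSingleton_mul_spanSingleton,
      FractionalIdeal.spanSingleton_mul_spanSingleton]
    congr 2
    rw [map_mul, map_pow, inv_pow]
    field_simp
  exact FractionalIdeal.coeIdeal_injective hfin

end G1

section G1final

variable {k F : Type u} [Field k] [IsAlgClosed k] [CharZero k] [Field F] [Algebra k F]

/-- G1a. -/
theorem isDedekind_ringAway (hF : IsFunctionField k F) (hg : Riemann k F) (P0 : Place k F) :
    IsDedekindDomain (ringAway P0) ∧ IsFractionRing (ringAway P0) F :=
  G1_isDedekind_ringAway hF P0 hg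

/-- G1b. -/
theorem onePt_ringAway (hF : IsFunctionField k F) (hg : Riemann k F) (P0 : Place k F) :
    OnePt k (ringAway P0) (degAway P0) := G1_onePt_ringAway hF P0 hg

/-- G1c. -/
theorem exists_root_ideal (hF : IsFunctionField k F) (hg : Riemann k F) (P0 : Place k F)
    (b : ringAway P0) (hb : b ≠ 0) {n : ℕ} (hn : 0 < n)
    (h : ∀ P : Place k F, P ≠ P0 → (n : ℤ) ∣ ord P.ring (b : F)) :
    ∃ I : Ideal (ringAway P0), Ideal.span {b} = I ^ n :=
  G1_exists_root_ideal hF P0 hg b hb hn h

/-- G1d. -/
theorem dvd_ord_of_ideal (hF : IsFunctionField k F) (hg : Riemann k F) (P0 : Place k F)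
    (b : ringAway P0) (hb : b ≠ 0) {n : ℕ} (hn : 0 < n) {I : Ideal (ringAway P0)}
    (h : Ideal.span {b} = I ^ n) (P : Place k F) : (n : ℤ) ∣ ord P.ring (b : F) :=
  G1_dvd_ord_of_ideal hF P0 hg b hb hn h P

/-- G1e. -/
theorem div_ringAway (hF : IsFunctionField k F) (hg : Riemann k F) (hdiv : PicDiv k F)
    (P0 : Place k F) : ∀ I : Ideal (ringAway P0), I ≠ ⊥ → ∀ n : ℕ, 0 < n →
      ∃ J : Ideal (ringAway P0), J ≠ ⊥ ∧ SameClass I (J ^ n) :=
  G1_div_ringAway hF P0 hg hdiv

end G1final

end Pool.Agent.SC
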