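import Pool.Agent.SC.W1
import Pool.Agent.SC.CoverLevels
import Pool.Agent.SC.G1

/-!
# The weights theorem
-/

universe u

set_option linter.unusedSectionVars false

namespace Pool.Agent.SC

open VC IntermediateField Module

/-- An automorphism (of finite order on each element) which is not the identity moves an
element some prime power of which is fixed. -/
theorem exists_kummer8 {E Ω : Type u} [Field E] [IsAlgClosed E] [CharZero E] [Field Ω] [Algebra E Ω]
    {α : Ω ≃+* Ω} (hαE : ∀ c : E, α (algebraMap E Ω c) = algebraMap E Ω c) {z : Ω} (hz : α z ≠ z)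
    (hfin : ∃ m : ℕ, 0 < m ∧ (α ^ m) z = z) :
    ∃ (w : Ω) (l : ℕ), l.Prime ∧ α w ≠ w ∧ α (w ^ l) = w ^ l := by
  obtain ⟨m, hm, hmz⟩ := hfin
  have hcΩ : CharZero Ω := charZero_of_injective_algebraMap (algebraMap E Ω).injective
  have : NeZero ((m : ℕ) : E) := ⟨by exact_mod_cast hm.ne'⟩
  obtain ⟨η, hη⟩ := HasEnoughRootsOfUnity.exists_primitiveRoot E m
  set e : Ω := algebraMap E Ω η with he
  have he' : IsPrimitiveRoot e m := hη.map_of_injective (algebraMap E Ω).injective
  have he0 : e ≠ 0 := he'.ne_zero hm.ne'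
  have hαe : α e = e := hαE η
  -- eigenvectors
  let u : ℕ → Ω := fun i => ∑ r ∈ Finset.range m, e ^ (i * r) * (α ^ r) z
  have hu : ∀ i, e ^ i * α (u i) = u i := by
    intro i
    have h1 : e ^ i * α (u i) = ∑ r ∈ Finset.range m, e ^ (i * (r + 1)) * (α ^ (r + 1)) z := by
      simp only [u, map_sum, Finset.mul_sum]
      refine Finset.sum_congr rfl fun r _ => ?_
      rw [map_mul, map_pow, hαe, pow_succ' α]
      change _ = _ * α ((α ^ r) z)
      ring
    have h2 := Finset.sum_range_succ' (fun r => e ^ (i * r) * (α ^ r) z) m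
    rw [Finset.sum_range_succ] at h2
    have h3 : e ^ (i * m) * (α ^ m) z = e ^ (i * 0) * (α ^ 0) z := by
      rw [hmz, mul_comm i m, pow_mul, he'.pow_eq_one, one_pow, mul_zero, pow_zero, pow_zero]
      rfl
    rw [h3] at h2
    rw [h1]
    exact (add_right_cancel h2).symm
  have hsum : ∑ i ∈ Finset.range m, u i = m * z := by
    simp only [u]
    rw [Finset.sum_comm]
    rw [Finset.sum_eq_single 0]
    · simp
    · intro r hr hr0
      rw [← Finset.sum_mul]
      have h1 : ∑ i ∈ Finset.range m, e ^ (i * r) = 0 := by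
        have h2 : e ^ r ≠ 1 := by
          intro h3
          have := (he'.pow_eq_one_iff_dvd r).1 h3
          have h4 := Nat.le_of_dvd (Nat.pos_of_ne_zero hr0) this
          exact absurd (Finset.mem_range.1 hr) (by omega)
        have h3 : (∑ i ∈ Finset.range m, (e ^ r) ^ i) * (e ^ r - 1) = 0 := by
          rw [geom_sum_mul, ← pow_mul, mul_comm r m, pow_mul, he'.pow_eq_one, one_pow, sub_self]
        rcases mul_eq_zero.1 h3 with h4 | h4
        · rw [← h4]
          refine Finset.sum_congr rfl fun i _ => ?_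
          rw [← pow_mul, mul_comm]
        · exact absurd (sub_eq_zero.1 h4) h2
      rw [h1, zero_mul]
    · intro h
      exact absurd (Finset.mem_range.2 hm) h
  obtain ⟨i, hi⟩ : ∃ i, α (u i) ≠ u i := by
    by_contra hcon
    push Not at hcon
    have h1 : α (m * z) = m * z := by
      rw [← hsum, map_sum]
      exact Finset.sum_congr rfl fun i _ => hcon i
    rw [map_mul, map_natCast] at h1
    exact hz (mul_left_cancel₀ (by exact_mod_cast hm.ne') h1)
  -- the smallest power which is fixed
  have hpow : ∃ d : ℕ, 0 < d ∧ α (u i ^ d) = u i ^ d := by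
    refine ⟨m, hm, ?_⟩
    have h1 := congrArg (fun x => x ^ m) (hu i)
    simp only [mul_pow] at h1
    rw [← pow_mul, mul_comm i m, pow_mul, he'.pow_eq_one, one_pow, one_mul] at h1
    rw [map_pow, h1]
  classical
  obtain ⟨hd0, hd⟩ := Nat.find_spec hpow
  have hmin := fun a (ha : a < Nat.find hpow) => Nat.find_min hpow ha
  set d := Nat.find hpow with hddef
  have hd1 : d ≠ 1 := by
    intro h1
    rw [h1, pow_one] at hd
    exact hi hd
  have hp := Nat.minFac_prime hd1
  obtain ⟨d', hd'⟩ := Nat.minFac_dvd d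
  have hd'0 : 0 < d' := by
    rcases Nat.eq_zero_or_pos d' with h | h
    · rw [h, mul_zero] at hd'; omega
    · exact h
  have hlt : d' < d := by
    have := hp.two_le
    nlinarith
  refine ⟨u i ^ d', d.minFac, hp, fun h => hmin d' hlt ⟨hd'0, h⟩, ?_⟩
  rw [← pow_mul, mul_comm d', ← hd']
  exact hd

/-- Orbits of automorphisms over `M` of an algebraic element are finite. -/
theorem exists_autpow_fix {M Ω : Type*} [Field M] [Field Ω] [Algebra M Ω] (α : Ω ≃ₐ[M] Ω) {z : Ω}
    (hz : IsAlgebraic M z) : ∃ m : ℕ, 0 < m ∧ (α ^ m) z = z := by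
  classical
  have hp0 := minpoly.ne_zero hz.isIntegral
  have hroot : ∀ i : ℕ, (α ^ i) z ∈ (minpoly M z).rootSet Ω := by
    intro i
    rw [Polynomial.mem_rootSet]
    refine ⟨hp0, ?_⟩
    have := Polynomial.aeval_algHom_apply ((α ^ i : Ω ≃ₐ[M] Ω) : Ω →ₐ[M] Ω) z (minpoly M z)
    rw [minpoly.aeval, map_zero] at this
    exact this
  have hfin : ((minpoly M z).rootSet Ω).Finite := Polynomial.rootSet_finite _ _
  have hni : ¬ Function.Injective (fun i : ℕ => (⟨(α ^ i) z, hroot i⟩ : (minpoly M z).rootSet Ω)) := by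
    intro hinj
    have := hfin.to_subtype
    exact not_injective_infinite_finite _ hinj
  simp only [Function.Injective, not_forall] at hni
  obtain ⟨i, j, hij, hne⟩ := hni
  have h1 : (α ^ i) z = (α ^ j) z := congrArg Subtype.val hij
  rcases lt_or_gt_of_ne hne with h | h
  · refine ⟨j - i, by omega, ?_⟩
    have h2 : α ^ j = α ^ i * α ^ (j - i) := by rw [← pow_add]; congr 1; omega
    rw [h2, AlgEquiv.mul_apply] at h1
    exact ((α ^ i).injective h1).symm
  · refine ⟨i - j, by omega, ?_⟩
    have h2 : α ^ i = α ^ j * α ^ (i - j) := by rw [← pow_add]; congr 1; omega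
    rw [h2, AlgEquiv.mul_apply] at h1
    exact (α ^ j).injective h1

/-- **The weights theorem** for covers: an automorphism `α` of `Ω` over `M` which satisfies the
cyclotomic relation with a group `H` containing Frobenius elements is the identity. -/
theorem weights {E Ω : Type u} [Field E] [IsAlgClosed E] [CharZero E] [Field Ω] [Algebra E Ω]
    {M : IntermediateField E Ω} (hc : IsCover M)
    (hR : ∀ N : IntermediateField E Ω, IsFunctionField E N → Riemann E N ∧ PicDiv E N)
    {α : Ω ≃+* Ω} (hα : ∀ m ∈ M, α m = m) {H : Subgroup (Ω ≃+* Ω)} (hrel : CyclRel H α)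
    (hfrob : HasFrob E H) (z : Ω) : α z = z := by
  by_contra hz
  have := hc.gal
  have hαE : ∀ c : E, α (algebraMap E Ω c) = algebraMap E Ω c :=
    fun c => hα _ (M.algebraMap_mem c)
  let a : Ω ≃ₐ[M] Ω := AlgEquiv.ofRingEquiv (f := α) (fun m => hα m m.2)
  have hapow : ∀ (i : ℕ) (y : Ω), (a ^ i) y = (α ^ i) y := by
    intro i
    induction i with
    | zero => intro y; rfl
    | succ i ih =>
      intro y
      rw [pow_succ', pow_succ', AlgEquiv.mul_apply, ih]
      rfl
  obtain ⟨m, hm, hmz⟩ := exists_autpow_fix a (Algebra.IsAlgebraic.isAlgebraic (R := M) z)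
  obtain ⟨w, l, hl, hw, hwl⟩ := exists_kummer8 hαE hz ⟨m, hm, by rw [← hapow]; exact hmz⟩
  -- the level
  let N' : IntermediateField M Ω := M⟮w ^ l⟯
  have hfin : FiniteDimensional M N' := IntermediateField.adjoin.finiteDimensional
    (Algebra.IsIntegral.isIntegral _)
  let N : IntermediateField E Ω := N'.restrictScalars E
  have hMN : M ≤ N := fun x hx => N'.algebraMap_mem ⟨x, hx⟩
  have hN : IsFunctionField E N := by
    have h1 : IsFunctionField E N' := isFunctionField_of_finite8 (M := M) hc.ff
    exact h1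
  have hNfix : ∀ x ∈ N, α x = x := by
    let Fx : IntermediateField M Ω :=
      { carrier := {x | α x = x}
        mul_mem' := fun {x y} hx hy => by
          change α (x * y) = x * y
          rw [map_mul, show α x = x from hx, show α y = y from hy]
        add_mem' := fun {x y} hx hy => by
          change α (x + y) = x + y
          rw [map_add, show α x = x from hx, show α y = y from hy]
        algebraMap_mem' := fun m => hα m m.2
        inv_mem' := fun x hx => by
          change α x⁻¹ = x⁻¹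
          rw [map_inv₀, show α x = x from hx] }
    have h1 : N' ≤ Fx := by
      rw [IntermediateField.adjoin_le_iff, Set.singleton_subset_iff]
      exact hwl
    exact fun x hx => h1 hx
  obtain ⟨hRN, hPN⟩ := hR N hN
  obtain ⟨P0⟩ : Nonempty (Place E N) := by
    have hN2 := hN
    obtain ⟨t, ht, -⟩ := hN2
    obtain ⟨P, -⟩ := exists_place hN ht
    exact ⟨P⟩
  obtain ⟨hDed, hFrac⟩ := isDedekind_ringAway hN hRN P0
  have hB := onePt_ringAway hN hRN P0
  have hTB : IsScalarTower E (ringAway P0) Ω := IsScalarTower.of_algebraMap_eq fun x => rfl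
  have hinj : Function.Injective (algebraMap (ringAway P0) Ω) := by
    intro x y hxy
    have h1 : ((x : N) : Ω) = ((y : N) : Ω) := hxy
    exact Subtype.ext (Subtype.ext h1)
  have hℓ0 : (l : E) ≠ 0 := by exact_mod_cast hl.ne_zero
  have hroot : ∀ I : Ideal (ringAway P0), PowTor l I → ∃ w' : Ω, RootOf l I w' := by
    rintro I ⟨hI, n, ⟨⟨b, hb⟩⟩⟩
    have hb' : I ^ l ^ n = Ideal.span {b} := hb
    have hb0 : b ≠ 0 := by
      rintro rfl
      rw [Ideal.span_singleton_zero] at hb'
      exact hI (pow_eq_zero_iff (pow_ne_zero n hl.ne_zero) |>.1 hb')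
    have hn : 0 < l ^ n := pow_pos hl.pos n
    have hbN : (b : N) ≠ 0 := fun h => hb0 (Subtype.ext h)
    obtain ⟨w', hw'⟩ := hc.exists_root hN hbN hn
      (fun P => dvd_ord_of_ideal hN hRN P0 b hb0 hn hb'.symm P)
    exact ⟨w', hI, n, b, hb', hw'⟩
  have hαB : ∀ b : ringAway P0, α (algebraMap (ringAway P0) Ω b) = algebraMap (ringAway P0) Ω b :=
    fun b => hNfix _ (b : N).2
  -- the function `w ^ l`
  have hw0 : w ≠ 0 := by
    rintro rfl
    exact hw (map_zero α)
  let g : N := ⟨w ^ l, IntermediateField.mem_adjoin_simple_self M (w ^ l)⟩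
  have hg0 : g ≠ 0 := fun h => pow_ne_zero l hw0 (congrArg Subtype.val h)
  obtain ⟨x, y, hy, hxy⟩ := IsFractionRing.div_surjective (A := ringAway P0) g
  have hy0 : y ≠ 0 := nonZeroDivisors.ne_zero hy
  have hyN : (y : N) ≠ 0 := fun h => hy0 (Subtype.ext h)
  have hxy' : (x : N) = g * y := by
    have h1 : (x : N) / (y : N) = g := hxy
    rw [← h1]; field_simp
  let b : ringAway P0 := y ^ (l - 1) * x
  have hbg : (b : N) = (y : N) ^ l * g := by
    have h1 : (b : N) = (y : N) ^ (l - 1) * x := rfl
    rw [h1, hxy']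
    conv_rhs => rw [← Nat.sub_add_cancel hl.one_le, pow_succ]
    ring
  have hb0 : b ≠ 0 := by
    intro h
    have h1 : (b : N) = 0 := congrArg Subtype.val h
    rw [hbg] at h1
    rcases mul_eq_zero.1 h1 with h2 | h2
    · exact pow_ne_zero l hyN h2
    · exact hg0 h2
  obtain ⟨I, hI⟩ := exists_root_ideal hN hRN P0 b hb0 hl.pos (fun P _ => by
    rw [hbg, FF.ord_mul hN P (pow_ne_zero l hyN) hg0, FF.ord_pow hN P hyN]
    exact dvd_add (dvd_mul_right _ _) (hc.dvd_ord hMN hN hg0 rfl P))
  have hIbot : I ≠ ⊥ := by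
    rintro rfl
    have h1 : (⊥ : Ideal (ringAway P0)) ^ l = ⊥ := zero_pow hl.ne_zero
    rw [h1, Ideal.span_singleton_eq_bot] at hI
    exact hb0 hI
  have hRI : RootOf l I ((y : N) * w : Ω) := by
    refine ⟨hIbot, 1, b, by rw [pow_one, hI], ?_⟩
    rw [pow_one, mul_pow]
    have h1 : algebraMap (ringAway P0) Ω b = ((b : N) : Ω) := rfl
    rw [h1, hbg]
    rfl
  have hfix := weights_ring hB hinj hl hℓ0 (div_ringAway hN hRN hPN P0) hroot hαB hrel hfrob hRI
  rw [map_mul, hNfix _ (y : N).2] at hfix
  exact hw (mul_left_cancel₀ (fun h => hyN (Subtype.ext h)) hfix)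

end Pool.Agent.SC
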