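import Mathlib

/-!
# Eigenvectors of an automorphism of finite order
-/

universe u v

namespace Pool.Agent.SC

open Finset

section Eigen

variable {E : Type u} {U : Type v} [Field E] [Field U] [Algebra E U]

/-- the component of `x` with eigenvalue `ξ ^ i` -/
noncomputable def eig (g : U ≃ₐ[E] U) (ξ : E) (ℓ i : ℕ) (x : U) : U :=
  (ℓ : U)⁻¹ * ∑ j ∈ range ℓ, algebraMap E U ((ξ⁻¹ ^ i) ^ j) * (g ^ j) x

theorem map_pow_mem {g : U ≃ₐ[E] U} {N : IntermediateField E U} (hgN : ∀ x ∈ N, g x ∈ N)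
    {x : U} (hx : x ∈ N) (j : ℕ) : (g ^ j) x ∈ N := by
  induction j with
  | zero => rw [pow_zero]; exact hx
  | succ j ih =>
    rw [pow_succ', AlgEquiv.mul_apply]
    exact hgN _ ih

theorem eig_mem {g : U ≃ₐ[E] U} {N : IntermediateField E U} (hgN : ∀ x ∈ N, g x ∈ N) (ξ : E)
    (ℓ i : ℕ) {x : U} (hx : x ∈ N) : eig g ξ ℓ i x ∈ N := by
  unfold eig
  refine N.mul_mem (N.inv_mem (natCast_mem N ℓ)) (N.sum_mem fun j _ => ?_)
  exact N.mul_mem (N.algebraMap_mem _) (map_pow_mem hgN hx j)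

theorem map_eig {g : U ≃ₐ[E] U} {ξ : E} {ℓ : ℕ} (hξ : ξ ^ ℓ = 1) (hξ0 : ξ ≠ 0) (hg : g ^ ℓ = 1)
    (i : ℕ) (x : U) : g (eig g ξ ℓ i x) = algebraMap E U (ξ ^ i) * eig g ξ ℓ i x := by
  unfold eig
  set η : E := ξ⁻¹ ^ i with hη
  have hηξ : ξ ^ i * η = 1 := by
    rw [hη, ← mul_pow, mul_inv_cancel₀ hξ0, one_pow]
  have hη1 : η ^ ℓ = 1 := by
    rw [hη, ← pow_mul, mul_comm i ℓ, pow_mul, inv_pow, hξ, inv_one, one_pow]
  let f : ℕ → U := fun j => algebraMap E U (η ^ j) * (g ^ j) x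
  have h1 : ∑ j ∈ range ℓ, f (j + 1) = ∑ j ∈ range ℓ, f j := by
    have h2 := Finset.sum_range_succ' f ℓ
    have h3 := Finset.sum_range_succ f ℓ
    have h4 : f ℓ = f 0 := by
      simp only [f]
      rw [hη1, hg]
      simp
    rw [h4] at h3
    exact add_right_cancel (h2.symm.trans h3)
  rw [map_mul, map_inv₀, map_natCast, map_sum]
  rw [mul_left_comm]
  congr 1
  change _ = algebraMap E U (ξ ^ i) * ∑ j ∈ range ℓ, f j
  rw [← h1, Finset.mul_sum]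
  refine Finset.sum_congr rfl fun j _ => ?_
  simp only [f]
  rw [map_mul, AlgEquiv.commutes, pow_succ' g, AlgEquiv.mul_apply, ← mul_assoc, ← map_mul]
  congr 2
  rw [pow_succ, mul_comm (η ^ j) η, ← mul_assoc, hηξ, one_mul]

theorem sum_eig [CharZero U] {g : U ≃ₐ[E] U} {ξ : E} {ℓ : ℕ} (hℓ : 0 < ℓ)
    (hξ : IsPrimitiveRoot ξ ℓ) (x : U) : ∑ i ∈ range ℓ, eig g ξ ℓ i x = x := by
  unfold eig
  rw [← Finset.mul_sum, Finset.sum_comm]
  have hξ0 : ξ ≠ 0 := hξ.ne_zero hℓ.ne'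
  have key : ∀ j ∈ range ℓ, (∑ i ∈ range ℓ, algebraMap E U ((ξ⁻¹ ^ i) ^ j) * (g ^ j) x) =
      if j = 0 then (ℓ : U) * x else 0 := by
    intro j hj
    rw [Finset.mem_range] at hj
    rw [← Finset.sum_mul]
    split_ifs with h
    · subst h
      simp
    · have h1 : (ξ⁻¹ ^ j) ≠ 1 := by
        intro h2
        rw [inv_pow, inv_eq_one] at h2
        exact hξ.pow_ne_one_of_pos_of_lt (Nat.pos_of_ne_zero h).ne' hj h2
      have h2 : (ξ⁻¹ ^ j) ^ ℓ = 1 := by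
        rw [← pow_mul, mul_comm, pow_mul, inv_pow, hξ.pow_eq_one, inv_one, one_pow]
      have h3 : ∑ i ∈ range ℓ, (ξ⁻¹ ^ j) ^ i = 0 := by
        have h4 := mul_neg_geom_sum (ξ⁻¹ ^ j) ℓ
        rw [h2, sub_self] at h4
        exact (mul_eq_zero.1 h4).resolve_left (sub_ne_zero.2 h1.symm)
      have h4 : ∑ i ∈ range ℓ, algebraMap E U ((ξ⁻¹ ^ i) ^ j) = 0 := by
        rw [← map_sum]
        have h5 : ∑ i ∈ range ℓ, (ξ⁻¹ ^ i) ^ j = ∑ i ∈ range ℓ, (ξ⁻¹ ^ j) ^ i := by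
          refine Finset.sum_congr rfl fun i _ => ?_
          rw [← pow_mul, ← pow_mul, mul_comm]
        rw [h5, h3, map_zero]
      rw [h4, zero_mul]
  rw [Finset.sum_congr rfl key, Finset.sum_ite_eq' (range ℓ) 0 (fun _ => (ℓ : U) * x),
    if_pos (Finset.mem_range.2 hℓ), ← mul_assoc, inv_mul_cancel₀ (Nat.cast_ne_zero.2 hℓ.ne'),
    one_mul]

/-- An automorphism of prime order has an eigenvector whose eigenvalue is a primitive root of
unity. -/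
theorem exists_eigenvector [IsAlgClosed E] [CharZero E] {ℓ : ℕ} (hℓ : ℓ.Prime) {g : U ≃ₐ[E] U}
    (hg : g ^ ℓ = 1) {N : IntermediateField E U} (hgN : ∀ x ∈ N, g x ∈ N) {x : U} (hx : x ∈ N)
    (hgx : g x ≠ x) :
    ∃ ζ : E, IsPrimitiveRoot ζ ℓ ∧ ∃ v ∈ N, v ≠ 0 ∧ g v = algebraMap E U ζ * v := by
  have : CharZero U := charZero_of_injective_algebraMap (algebraMap E U).injective
  have : NeZero (ℓ : E) := ⟨Nat.cast_ne_zero.2 hℓ.ne_zero⟩
  obtain ⟨ξ, hξ⟩ := HasEnoughRootsOfUnity.exists_primitiveRoot E ℓ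
  have hξ0 : ξ ≠ 0 := hξ.ne_zero hℓ.ne_zero
  by_cases h : ∃ i ∈ range ℓ, i ≠ 0 ∧ eig g ξ ℓ i x ≠ 0
  · obtain ⟨i, hi, hi0, hv⟩ := h
    rw [Finset.mem_range] at hi
    refine ⟨ξ ^ i, hξ.pow_of_coprime i ?_, eig g ξ ℓ i x, eig_mem hgN ξ ℓ i hx, hv,
      map_eig hξ.pow_eq_one hξ0 hg i x⟩
    exact ((Nat.Prime.coprime_iff_not_dvd hℓ).2 fun hd =>
      absurd (Nat.le_of_dvd (Nat.pos_of_ne_zero hi0) hd) (not_le.2 hi)).symm
  · push Not at h
    exfalso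
    apply hgx
    have h1 : x = eig g ξ ℓ 0 x := by
      conv_lhs => rw [← sum_eig (g := g) hℓ.pos hξ x]
      refine Finset.sum_eq_single_of_mem 0 (Finset.mem_range.2 hℓ.pos) ?_
      intro i hi hi0
      exact h i hi hi0
    rw [h1, map_eig hξ.pow_eq_one hξ0 hg, pow_zero, map_one, one_mul]

end Eigen

end Pool.Agent.SC
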