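import Mathlib
import Pool.Agent.Helper26.VC.Main3

/-!
# Function fields: finite extensions and subfields
-/

namespace Pool.Agent.SC

open VC IntermediateField

section

variable {E M N : Type*} [Field E] [Field M] [Field N] [Algebra E M] [Algebra E N] [Algebra M N]
  [IsScalarTower E M N]

/-- `N` is finite over `E(t)` iff it is so over `E(t')`, for `t'` the image of `t`. -/
theorem finite_adjoin_image (t : M) [FiniteDimensional E⟮algebraMap M N t⟯ N] :
    FiniteDimensional E⟮t⟯ N := by
  let φ : M →ₐ[E] N := IsScalarTower.toAlgHom E M N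
  have hmap : (E⟮t⟯).map φ = E⟮algebraMap M N t⟯ := by
    rw [IntermediateField.adjoin_map, Set.image_singleton]
    rfl
  let f : E⟮t⟯ →+* E⟮algebraMap M N t⟯ := ((algebraMap M N).comp (algebraMap E⟮t⟯ M)).codRestrict
    (E⟮algebraMap M N t⟯) (fun x => by
      rw [← hmap]
      exact ⟨x.1, x.2, rfl⟩)
  have hf : Function.Surjective f := by
    rintro ⟨y, hy⟩
    rw [← hmap] at hy
    obtain ⟨x, hx, rfl⟩ := hy
    exact ⟨⟨x, hx⟩, rfl⟩
  let i1 : Algebra E⟮t⟯ E⟮algebraMap M N t⟯ := f.toAlgebra
  have s1 : IsScalarTower E⟮t⟯ E⟮algebraMap M N t⟯ N := IsScalarTower.of_algebraMap_eq (fun x => rfl)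
  have h1 : Module.Finite E⟮t⟯ E⟮algebraMap M N t⟯ :=
    Module.Finite.of_surjective (Algebra.linearMap E⟮t⟯ E⟮algebraMap M N t⟯) hf
  exact Module.Finite.trans E⟮algebraMap M N t⟯ N

theorem finite_adjoin_image' (t : M) [FiniteDimensional E⟮t⟯ N] :
    FiniteDimensional E⟮algebraMap M N t⟯ N := by
  let φ : M →ₐ[E] N := IsScalarTower.toAlgHom E M N
  have hmap : (E⟮t⟯).map φ = E⟮algebraMap M N t⟯ := by
    rw [IntermediateField.adjoin_map, Set.image_singleton]
    rfl
  let f : E⟮t⟯ →+* E⟮algebraMap M N t⟯ := ((algebraMap M N).comp (algebraMap E⟮t⟯ M)).codRestrict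
    (E⟮algebraMap M N t⟯) (fun x => by
      rw [← hmap]
      exact ⟨x.1, x.2, rfl⟩)
  let i1 : Algebra E⟮t⟯ E⟮algebraMap M N t⟯ := f.toAlgebra
  have s1 : IsScalarTower E⟮t⟯ E⟮algebraMap M N t⟯ N := IsScalarTower.of_algebraMap_eq (fun x => rfl)
  exact Module.Finite.of_restrictScalars_finite E⟮t⟯ E⟮algebraMap M N t⟯ N

/-- A finite extension of a function field is a function field. -/
theorem isFunctionField_of_finite [Module.Finite M N] (hM : IsFunctionField E M) :
    IsFunctionField E N := by
  obtain ⟨t, ht, hfin⟩ := hM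
  refine ⟨algebraMap M N t, (transcendental_algebraMap_iff (algebraMap M N).injective).mpr ht, ?_⟩
  have h1 : FiniteDimensional E⟮t⟯ N := Module.Finite.trans M N
  exact finite_adjoin_image' (M := M) t

/-- A subfield over which a function field is algebraic is a function field. -/
theorem isFunctionField_of_algebraic [Algebra.IsAlgebraic M N] (hN : IsFunctionField E N) :
    IsFunctionField E M := by
  have hex : ∃ t : M, Transcendental E t := by
    by_contra hcon
    push Not at hcon
    have h1 : Algebra.IsAlgebraic E M := ⟨fun x => by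
      have := hcon x
      unfold Transcendental at this
      exact not_not.1 this⟩
    have h2 : Algebra.IsAlgebraic E N := Algebra.IsAlgebraic.trans E M N
    obtain ⟨t, ht, -⟩ := hN
    exact ht (Algebra.IsAlgebraic.isAlgebraic t)
  obtain ⟨t, ht⟩ := hex
  have ht' : Transcendental E (algebraMap M N t) :=
    (transcendental_algebraMap_iff (algebraMap M N).injective).mpr ht
  have h1 := hN.finiteDimensional ht'
  have h2 : FiniteDimensional E⟮t⟯ N := finite_adjoin_image t
  refine ⟨t, ht, ?_⟩
  exact FiniteDimensional.of_injective (IsScalarTower.toAlgHom E⟮t⟯ M N).toLinearMap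
    (algebraMap M N).injective

end

end Pool.Agent.SC
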