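import Mathlib
import Pool.Agent.SC.Eigen
import Pool.Agent.SC.FFExt
import Pool.Agent.Helper17.FF.RR
import Pool.Agent.SC.PlaceExt
import Pool.Agent.SC.Defs2

/-!
# Levels of a cover and the action of an automorphism of prime order

* `exists_level`: finite normal `g`-stable levels are cofinal;
* `fixedIn`: the fixed field in a level, a function field;
* `not_unit_of_fixed`: eigenvectors are not units at fixed places;
* `map_mem_of_not_dvd`: places over which the Kummer generator has order prime to `ℓ` are fixed.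
-/

universe u

namespace Pool.Agent.SC

open VC Module

section Level

variable {E U : Type u} [Field E] [Field U] [Algebra E U]

/-- the conjugate of `σ` by `g` -/
noncomputable def conjAut {M : IntermediateField E U} (g : U ≃ₐ[E] U) (hgM : ∀ x, x ∈ M ↔ g x ∈ M)
    (σ : U ≃ₐ[M] U) : U ≃ₐ[M] U :=
  AlgEquiv.ofRingEquiv (f := (g.symm.toRingEquiv.trans σ.toRingEquiv).trans g.toRingEquiv) (by
    intro m
    have h1 : g.symm (m : U) ∈ M := by
      rw [hgM, AlgEquiv.apply_symm_apply]
      exact m.2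
    change g (σ (g.symm (m : U))) = (m : U)
    have h2 : σ (g.symm (m : U)) = g.symm (m : U) := σ.commutes ⟨_, h1⟩
    rw [h2, AlgEquiv.apply_symm_apply])

theorem conjAut_apply {M : IntermediateField E U} (g : U ≃ₐ[E] U) (hgM : ∀ x, x ∈ M ↔ g x ∈ M)
    (σ : U ≃ₐ[M] U) (x : U) : conjAut g hgM σ x = g (σ (g.symm x)) := rfl

/-- **Finite normal stable levels are cofinal.** -/
theorem exists_level (M : IntermediateField E U) [Normal M U] (g : U ≃ₐ[E] U)
    (hgM : ∀ x, x ∈ M ↔ g x ∈ M) {ℓ : ℕ} (hℓ : 0 < ℓ) (hg : g ^ ℓ = 1) (S : Finset U) :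
    ∃ N : IntermediateField M U, FiniteDimensional M N ∧ Normal M N ∧ (∀ x ∈ S, x ∈ N) ∧
      ∀ x ∈ N, g x ∈ N := by
  classical
  let T : Set U := {y | ∃ x ∈ S, ∃ (j : ℕ) (σ : U ≃ₐ[M] U), j < ℓ ∧ y = σ ((g ^ j) x)}
  have hTfin : T.Finite := by
    have h1 : T ⊆ ⋃ x ∈ S, ⋃ j ∈ Finset.range ℓ, (minpoly M ((g ^ j) x)).rootSet U := by
      rintro y ⟨x, hx, j, σ, hj, rfl⟩
      simp only [Set.mem_iUnion]
      refine ⟨x, hx, j, Finset.mem_range.2 hj, ?_⟩
      have hint : IsIntegral M ((g ^ j) x) := Algebra.IsIntegral.isIntegral _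
      rw [Polynomial.mem_rootSet]
      refine ⟨minpoly.ne_zero hint, ?_⟩
      have h2 : Polynomial.aeval (σ ((g ^ j) x)) (minpoly M ((g ^ j) x)) =
          σ (Polynomial.aeval ((g ^ j) x) (minpoly M ((g ^ j) x))) :=
        Polynomial.aeval_algHom_apply σ.toAlgHom _ _
      rw [h2, minpoly.aeval, map_zero]
    refine Set.Finite.subset ?_ h1
    refine Set.Finite.biUnion S.finite_toSet fun x _ => ?_
    exact Set.Finite.biUnion (Finset.finite_toSet _) fun j _ => Polynomial.rootSet_finite _ _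
  have hTσ : ∀ (τ : U ≃ₐ[M] U), ∀ y ∈ T, τ y ∈ T := by
    rintro τ y ⟨x, hx, j, σ, hj, rfl⟩
    exact ⟨x, hx, j, τ * σ, hj, rfl⟩
  have hTg : ∀ y ∈ T, g y ∈ T := by
    rintro y ⟨x, hx, j, σ, hj, rfl⟩
    have h1 : g (σ ((g ^ j) x)) = conjAut g hgM σ ((g ^ (j + 1)) x) := by
      rw [conjAut_apply, pow_succ', AlgEquiv.mul_apply, AlgEquiv.symm_apply_apply]
    rw [h1]
    rcases Nat.lt_or_ge (j + 1) ℓ with h | h
    · exact ⟨x, hx, j + 1, _, h, rfl⟩
    · have h2 : j + 1 = ℓ := le_antisymm hj h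
      refine ⟨x, hx, 0, conjAut g hgM σ, hℓ, ?_⟩
      rw [h2, hg, pow_zero]
  refine ⟨IntermediateField.adjoin M T, ?_, ?_, ?_, ?_⟩
  · have := hTfin.to_subtype
    exact IntermediateField.finiteDimensional_adjoin fun x _ => Algebra.IsIntegral.isIntegral x
  · rw [IntermediateField.normal_iff_forall_map_le']
    intro τ
    rw [IntermediateField.adjoin_map, IntermediateField.adjoin_le_iff]
    rintro _ ⟨y, hy, rfl⟩
    exact IntermediateField.subset_adjoin _ _ (hTσ τ y hy)
  · intro x hx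
    refine IntermediateField.subset_adjoin _ _ ⟨x, hx, 0, 1, hℓ, ?_⟩
    rw [pow_zero]
    rfl
  · intro x hx
    induction hx using IntermediateField.adjoin_induction with
    | mem x hx => exact IntermediateField.subset_adjoin _ _ (hTg x hx)
    | algebraMap m =>
      have h1 : g (m : U) ∈ M := (hgM _).1 m.2
      exact (IntermediateField.adjoin M T).algebraMap_mem ⟨_, h1⟩
    | add x y _ _ hx hy => rw [map_add]; exact add_mem hx hy
    | inv x _ hx => rw [map_inv₀]; exact inv_mem hx
    | mul x y _ _ hx hy => rw [map_mul]; exact mul_mem hx hy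

/-- the fixed field in a level -/
def fixedIn (g : U ≃ₐ[E] U) (N : IntermediateField E U) : IntermediateField E U where
  carrier := {x | x ∈ N ∧ g x = x}
  mul_mem' := fun ha hb => ⟨mul_mem ha.1 hb.1, by rw [map_mul, ha.2, hb.2]⟩
  add_mem' := fun ha hb => ⟨add_mem ha.1 hb.1, by rw [map_add, ha.2, hb.2]⟩
  algebraMap_mem' := fun c => ⟨N.algebraMap_mem c, g.commutes c⟩
  inv_mem' := fun x hx => ⟨inv_mem hx.1, by rw [map_inv₀, hx.2]⟩

theorem mem_fixedIn {g : U ≃ₐ[E] U} {N : IntermediateField E U} {x : U} :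
    x ∈ fixedIn g N ↔ x ∈ N ∧ g x = x := Iff.rfl

theorem fixedIn_le (g : U ≃ₐ[E] U) (N : IntermediateField E U) : fixedIn g N ≤ N :=
  fun _ hx => hx.1

theorem isFunctionField_restrictScalars {M : IntermediateField E U} (hM : IsFunctionField E M)
    (N : IntermediateField M U) [FiniteDimensional M N] :
    IsFunctionField E (N.restrictScalars E) := by
  have h1 : IsFunctionField E N := isFunctionField_of_finite (M := M) hM
  exact h1

theorem isFunctionField_fixedIn [IsAlgClosed E] [CharZero E] {g : U ≃ₐ[E] U}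
    {N : IntermediateField E U} (hgN : ∀ x ∈ N, g x ∈ N) {ℓ : ℕ} (hℓ : 0 < ℓ) (hg : g ^ ℓ = 1)
    (hN : IsFunctionField E N) : IsFunctionField E (fixedIn g N) := by
  have hcz : CharZero U := charZero_of_injective_algebraMap (algebraMap E U).injective
  have : NeZero (ℓ : E) := ⟨Nat.cast_ne_zero.2 hℓ.ne'⟩
  obtain ⟨ξ, hξ⟩ := HasEnoughRootsOfUnity.exists_primitiveRoot E ℓ
  have hξ0 : ξ ≠ 0 := hξ.ne_zero hℓ.ne'
  let i1 : Algebra (fixedIn g N) N := (IntermediateField.inclusion (fixedIn_le g N)).toAlgebra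
  have s1 : IsScalarTower E (fixedIn g N) N := IsScalarTower.of_algebraMap_eq (fun x => rfl)
  have hint : Algebra.IsIntegral (fixedIn g N) N := by
    constructor
    intro x
    have h1 : x = ∑ i ∈ Finset.range ℓ, (⟨eig g ξ ℓ i x, eig_mem hgN ξ ℓ i x.2⟩ : N) := by
      apply Subtype.ext
      rw [AddSubmonoidClass.coe_finsetSum]
      exact (sum_eig hℓ hξ (x : U)).symm
    rw [h1]
    refine IsIntegral.sum _ fun i _ => ?_
    refine IsIntegral.of_pow hℓ ?_
    have h2 : (eig g ξ ℓ i (x : U)) ^ ℓ ∈ fixedIn g N := by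
      refine ⟨pow_mem (eig_mem hgN ξ ℓ i x.2) ℓ, ?_⟩
      rw [map_pow, map_eig hξ.pow_eq_one hξ0 hg, mul_pow, ← map_pow, ← pow_mul, mul_comm i ℓ,
        pow_mul, hξ.pow_eq_one, one_pow, map_one, one_mul]
    have h3 : (⟨eig g ξ ℓ i x, eig_mem hgN ξ ℓ i x.2⟩ : N) ^ ℓ =
        algebraMap (fixedIn g N) N ⟨_, h2⟩ := rfl
    rw [h3]
    exact isIntegral_algebraMap
  exact isFunctionField_of_algebraic (M := fixedIn g N) (N := N) hN

end Level

section Place

variable {E U : Type u} [Field E] [Field U] [Algebra E U]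

/-- the place of `N` below a valuation ring of `U` -/
def resPlace (W : ValuationSubring U) (hW : ∀ c : E, algebraMap E U c ∈ W)
    (N : IntermediateField E U) (h : ∃ x ∈ N, x ∉ W) : Place E N where
  ring := W.comap (algebraMap N U)
  algebraMap_mem := fun a => hW a
  ne_top := by
    obtain ⟨x, hx, hxW⟩ := h
    intro htop
    apply hxW
    have : (⟨x, hx⟩ : N) ∈ W.comap (algebraMap N U) := by rw [htop]; trivial
    exact this

theorem mem_resPlace {W : ValuationSubring U} {hW : ∀ c : E, algebraMap E U c ∈ W}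
    {N : IntermediateField E U} {h : ∃ x ∈ N, x ∉ W} (x : N) :
    x ∈ (resPlace W hW N h).ring ↔ (x : U) ∈ W := Iff.rfl

/-- A valuation ring of `U` that contains a subfield over which `U` is algebraic is trivial. -/
theorem exists_notMem_of_algebraic {M : IntermediateField E U} [Algebra.IsAlgebraic M U]
    {W : ValuationSubring U} (hW : W ≠ ⊤) : ∃ x ∈ M, x ∉ W := by
  by_contra hcon
  push Not at hcon
  apply hW
  rw [eq_top_iff]
  intro x _
  let f : M →+* W := (algebraMap M U).codRestrict W (fun y => hcon y.1 y.2)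
  obtain ⟨p, hp, hp'⟩ := Algebra.IsIntegral.isIntegral (R := M) x
  have h1 : IsIntegral W x := by
    refine ⟨p.map f, hp.map f, ?_⟩
    rw [Polynomial.eval₂_map]
    exact hp'
  obtain ⟨y, hy⟩ := IsIntegrallyClosed.isIntegral_iff.mp h1
  rw [← hy]
  exact y.2

end Place

section Kummer

variable {E Y N : Type*} [Field E] [Field Y] [Field N] [Algebra E N] [Algebra Y N]

/-- An eigenvector of an automorphism fixing a place (with residue field `E`) is not a unit there.
The residues are given in the form: every element of the ring is a constant plus a nonunit. -/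
theorem not_unit_of_fixed {R : ValuationSubring N} {σ : N → N} (hσc : ∀ (c : E) (x : N),
      σ (algebraMap E N c + x) = algebraMap E N c + σ x)
    (hE : ∀ c : E, algebraMap E N c ∈ R)
    (hres : ∀ x ∈ R, ∃ c : E, x - algebraMap E N c ∈ R.nonunits)
    (hσ : ∀ x ∈ R.nonunits, σ x ∈ R.nonunits)
    {ξ : E} (hξ : ξ ≠ 1) {v : N} (hv : σ v = algebraMap E N ξ * v)
    (h1 : v ∈ R) (h2 : v ∉ R.nonunits) : False := by
  obtain ⟨a, ha⟩ := hres v h1
  have hadd : ∀ {x y : N}, x ∈ R.nonunits → y ∈ R.nonunits → x + y ∈ R.nonunits := by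
    intro x y hx hy
    rw [ValuationSubring.mem_nonunits_iff] at hx hy ⊢
    exact R.valuation.map_add_lt hx hy
  have hmul : ∀ {x y : N}, x ∈ R → y ∈ R.nonunits → x * y ∈ R.nonunits := by
    intro x y hx hy
    exact FF.mul_mem_nonunits hx hy
  have hneg : ∀ {x : N}, x ∈ R.nonunits → -x ∈ R.nonunits := by
    intro x hx
    rw [ValuationSubring.mem_nonunits_iff] at hx ⊢
    rwa [Valuation.map_neg]
  have e1 : v = algebraMap E N a + (v - algebraMap E N a) := by ring
  have e2 := hσc a (v - algebraMap E N a)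
  rw [← e1, hv] at e2
  have e3 : algebraMap E N (a * (ξ - 1)) =
      σ (v - algebraMap E N a) + -(algebraMap E N ξ * (v - algebraMap E N a)) := by
    rw [map_mul, map_sub, map_one]
    linear_combination e2
  have e4 : algebraMap E N (a * (ξ - 1)) ∈ R.nonunits := by
    rw [e3]
    exact hadd (hσ _ ha) (hneg (hmul (hE ξ) ha))
  have e5 : a * (ξ - 1) = 0 := by
    by_contra hne
    have h3 : (algebraMap E N (a * (ξ - 1)))⁻¹ ∈ R := by
      rw [← map_inv₀]
      exact hE _
    rw [ValuationSubring.mem_nonunits_iff_or] at e4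
    rcases e4 with h | h
    · exact hne ((map_eq_zero _).1 h)
    · exact h h3
  have e6 : a = 0 := (mul_eq_zero.1 e5).resolve_right (sub_ne_zero.2 hξ)
  rw [e6, map_zero, sub_zero] at ha
  exact h2 ha

/-- A place `R` of `N` lying over a place at which `v ^ ℓ` has order prime to `ℓ` is fixed. -/
theorem map_mem_of_not_dvd [CharZero N] {R : ValuationSubring N}
    (hE : ∀ c : E, algebraMap E N c ∈ R) {σ : N ≃ₐ[E] N} {ℓ : ℕ} (hℓ : ℓ.Prime)
    (hσ : σ ^ ℓ = 1) (hfix : ∀ x, σ x = x → ∃ y : Y, algebraMap Y N y = x)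
    {ζ : E} (hζ : IsPrimitiveRoot ζ ℓ) {v : N} (hv0 : v ≠ 0) (hv : σ v = algebraMap E N ζ * v)
    (hnot : ∀ c : Y, R.valuation (v ^ ℓ) ≠ R.valuation (algebraMap Y N c ^ ℓ)) {x : N}
    (hx : x ∈ R) : σ x ∈ R := by
  classical
  have hζ0 : ζ ≠ 0 := hζ.ne_zero hℓ.ne_zero
  have hv0' : ∀ i : ℕ, v ^ i ≠ 0 := fun i => pow_ne_zero i hv0
  -- eigencomponents are multiples of powers of `v`
  have hσvi : ∀ i : ℕ, σ (v ^ i) = algebraMap E N (ζ ^ i) * v ^ i := by
    intro i
    rw [map_pow, hv, mul_pow, map_pow]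
  have hai : ∀ (i : ℕ) (z : N), σ z = algebraMap E N (ζ ^ i) * z →
      ∃ a : Y, z = algebraMap Y N a * v ^ i := by
    intro i z hz
    have h1 : σ (z / v ^ i) = z / v ^ i := by
      rw [map_div₀, hz, hσvi, mul_div_mul_left _ _ ((map_ne_zero _).2 (pow_ne_zero i hζ0))]
    obtain ⟨a, ha⟩ := hfix _ h1
    exact ⟨a, by rw [ha, div_mul_cancel₀ _ (hv0' i)]⟩
  -- distinct values
  have hdist : ∀ i j : ℕ, i < j → j < ℓ → ∀ a b : Y, algebraMap Y N a * v ^ i ≠ 0 →
      R.valuation (algebraMap Y N a * v ^ i) ≠ R.valuation (algebraMap Y N b * v ^ j) := by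
    intro i j hij hjℓ a b hne heq
    obtain ⟨d, rfl⟩ : ∃ d, j = i + d := ⟨j - i, by omega⟩
    have hd0 : 0 < d := by omega
    have ha0 : algebraMap Y N a ≠ 0 := left_ne_zero_of_mul hne
    have hb0 : algebraMap Y N b ≠ 0 := by
      intro h
      rw [h, zero_mul, map_zero] at heq
      exact hne ((Valuation.zero_iff _).1 heq)
    have h1 : R.valuation (v ^ d) = R.valuation (algebraMap Y N (a / b)) := by
      rw [pow_add, ← mul_assoc, mul_comm (algebraMap Y N b) (v ^ i), mul_comm (algebraMap Y N a),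
        mul_assoc, map_mul, map_mul R.valuation (v ^ i)] at heq
      have h2 := mul_left_cancel₀ ((Valuation.ne_zero_iff _).2 (hv0' i)) heq
      rw [map_mul] at h2
      rw [map_div₀, map_div₀, h2, mul_div_cancel_left₀ _ ((Valuation.ne_zero_iff _).2 hb0)]
    have hcop : Nat.Coprime d ℓ := by
      refine ((Nat.Prime.coprime_iff_not_dvd hℓ).2 fun hd => ?_).symm
      have := Nat.le_of_dvd hd0 hd
      omega
    obtain ⟨u, hu⟩ : ∃ u : Y, algebraMap Y N u = v ^ ℓ := by
      apply hfix
      rw [hσvi, hζ.pow_eq_one, map_one, one_mul]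
    -- Bezout
    have hbez := Nat.gcd_eq_gcd_ab d ℓ
    rw [hcop] at hbez
    let m := d.gcdA ℓ
    let n := d.gcdB ℓ
    have hbez' : (1 : ℤ) = d * m + ℓ * n := by exact_mod_cast hbez
    have h3 : v = (v ^ d) ^ m * (v ^ ℓ) ^ n := by
      rw [← zpow_natCast, ← zpow_natCast, ← zpow_mul, ← zpow_mul, ← zpow_add₀ hv0, ← hbez',
        zpow_one]
    have h4 : R.valuation v = R.valuation (algebraMap Y N ((a / b) ^ m * u ^ n)) := by
      conv_lhs => rw [h3]
      rw [map_mul, map_zpow₀, h1, map_mul (algebraMap Y N), map_mul, map_zpow₀ (algebraMap Y N),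
        map_zpow₀ (algebraMap Y N), map_zpow₀, map_zpow₀, map_zpow₀, hu]
    apply hnot ((a / b) ^ m * u ^ n)
    rw [map_pow, map_pow, h4]
  -- the components of `x`
  let xi : ℕ → N := fun i => eig σ ζ ℓ i x
  have hxi : ∀ i, σ (xi i) = algebraMap E N (ζ ^ i) * xi i :=
    fun i => map_eig hζ.pow_eq_one hζ0 hσ i x
  have hsum : ∑ i ∈ Finset.range ℓ, xi i = x := sum_eig hℓ.pos hζ x
  choose a ha using fun i => hai i (xi i) (hxi i)
  have hmem : ∀ i ∈ Finset.range ℓ, xi i ∈ R := by
    obtain ⟨j, hj, hjmax⟩ := Finset.exists_max_image (Finset.range ℓ)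
      (fun i => R.valuation (xi i)) ⟨0, Finset.mem_range.2 hℓ.pos⟩
    by_cases hj0 : xi j = 0
    · intro i hi
      have h1 := hjmax i hi
      rw [hj0, map_zero, le_zero_iff, Valuation.zero_iff] at h1
      rw [h1]
      exact R.zero_mem
    · have h1 : R.valuation x = R.valuation (xi j) := by
        rw [← hsum]
        refine Valuation.map_sum_eq_of_lt _ hj ?_
        intro i hi
        rw [Finset.mem_sdiff, Finset.mem_singleton] at hi
        refine lt_of_le_of_ne (hjmax i hi.1) ?_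
        by_cases hi0 : xi i = 0
        · rw [hi0, map_zero]
          exact ((Valuation.ne_zero_iff _).2 hj0).symm
        · have hi' := Finset.mem_range.1 hi.1
          have hj' := Finset.mem_range.1 hj
          rcases lt_or_gt_of_ne hi.2 with hlt | hlt
          · rw [ha i, ha j]
            exact hdist i j hlt hj' _ _ (by rw [← ha i]; exact hi0)
          · rw [ha i, ha j]
            exact (hdist j i hlt hi' _ _ (by rw [← ha j]; exact hj0)).symm
      have h2 : R.valuation x ≤ 1 := (R.valuation_le_one_iff x).2 hx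
      intro i hi
      rw [← R.valuation_le_one_iff]
      exact (hjmax i hi).trans (h1 ▸ h2)
  have hσx : σ x = ∑ i ∈ Finset.range ℓ, algebraMap E N (ζ ^ i) * xi i := by
    conv_lhs => rw [← hsum]
    rw [map_sum]
    exact Finset.sum_congr rfl fun i _ => hxi i
  rw [hσx]
  exact R.sum_mem fun i hi => R.mul_mem _ _ (hE _) (hmem i hi)

end Kummer

end Pool.Agent.SC
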