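import Mathlib
import Pool.Agent.SC.Defs3
import Pool.Agent.SC.Ext

/-!
# MP_e66f84_ag, block GAL: conjugates over `M1` of the elements of `Kur0` are in `Kur`
-/

universe u

namespace Pool.Agent.SC

open VC Module Pool.Agent.Helper91.Sect IntermediateField
open scoped TensorProduct

namespace Gal

/-- Extension of an embedding of a subring over which the big field is algebraic. -/
theorem exists_lift_ring {R : Type*} [CommRing R] {S M : Type*} [Field S] [Field M]
    [IsAlgClosed M] [Algebra R S] [Algebra.IsAlgebraic R S] [FaithfulSMul R S] (g : R →+* M)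
    (hg : Function.Injective g) :
    ∃ τ : S →+* M, ∀ r : R, τ (algebraMap R S r) = g r := by
  have hdom : IsDomain R := hg.isDomain g
  letI : Algebra R M := g.toAlgebra
  have hf : FaithfulSMul R M := (faithfulSMul_iff_algebraMap_injective R M).2 hg
  exact ⟨((IsAlgClosed.lift : S →ₐ[R] M) : S →+* M),
    fun r => (IsAlgClosed.lift : S →ₐ[R] M).commutes r⟩

/-- Automorphisms of the algebraic closure preserve `Kur`. -/
theorem map_mem_Kur {k K : Type u} [Field k] [Field K] [Algebra k K]
    (τ : AlgebraicClosure K ≃ₐ[K] AlgebraicClosure K) {z : AlgebraicClosure K}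
    (hz : z ∈ Kur k K) : τ z ∈ Kur k K := by
  intro W hW σ hσ
  set W' : ValuationSubring (AlgebraicClosure K) :=
    W.comap (τ : AlgebraicClosure K →+* AlgebraicClosure K) with hW'
  have hmem : ∀ y, y ∈ W' ↔ τ y ∈ W := fun y => Iff.rfl
  have hk : ∀ c : k, τ (algebraMap k (AlgebraicClosure K) c) =
      algebraMap k (AlgebraicClosure K) c := by
    intro c
    rw [IsScalarTower.algebraMap_apply k K (AlgebraicClosure K)]
    exact τ.commutes _
  have heq : W'.valuation.IsEquiv
      (W.valuation.comap (τ : AlgebraicClosure K →+* AlgebraicClosure K)) := by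
    rw [Valuation.isEquiv_iff_val_le_one]
    intro x
    rw [W'.valuation_le_one_iff, Valuation.comap_apply, W.valuation_le_one_iff, hmem]
    rfl
  have hlt : ∀ a, W'.valuation a < 1 ↔ W.valuation (τ a) < 1 := fun a => heq.lt_one_iff_lt_one
  have hττ : ∀ y, τ (τ⁻¹ y) = y := fun y => by
    rw [← AlgEquiv.mul_apply, mul_inv_cancel, AlgEquiv.one_apply]
  have h1 := hz W' (fun c => by
    rw [hmem, hk]; exact hW c) (τ⁻¹ * σ * τ) ⟨fun y => ?_, fun y hy => ?_⟩
  · rw [AlgEquiv.mul_apply, AlgEquiv.mul_apply] at h1
    have h2 := congrArg τ h1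
    rwa [hττ] at h2
  · rw [hmem, hmem, AlgEquiv.mul_apply, AlgEquiv.mul_apply, hττ]
    exact hσ.1 (τ y)
  · rw [hlt, map_sub, AlgEquiv.mul_apply, AlgEquiv.mul_apply, hττ]
    exact hσ.2 (τ y) ((hmem y).1 hy)

section Comp

variable {E A U L : Type u} [Field E] [Field A] [Field U] [Field L]
  [Algebra E A] [Algebra E U] [Algebra E L] [Algebra A L] [Algebra U L]
  [IsScalarTower E A L] [IsScalarTower E U L]

/-- The tensor product of two linearly disjoint fields embeds. -/
theorem injective_product [IsAlgClosed E] {ι : Type u} (x : ι → A)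
    (hx : AlgebraicIndependent U (fun i => algebraMap A L (x i)))
    (hA : Algebra.IsAlgebraic (IntermediateField.adjoin E (Set.range x)) A)
    (f : A →ₐ[E] L) (hf : ∀ a, f a = algebraMap A L a) (g : U →ₐ[E] L)
    (hg : ∀ u, g u = algebraMap U L u) :
    Function.Injective (Algebra.TensorProduct.productMap f g) := by
  rw [injective_iff_map_eq_zero]
  intro t ht
  obtain ⟨b, rfl⟩ := TensorProduct.eq_repr_basis_left (Module.Basis.ofVectorSpace E A) t
  have h1 : ∑ i : b.support, algebraMap A L (Module.Basis.ofVectorSpace E A i) *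
      algebraMap U L (b i) = 0 := by
    rw [Finsupp.sum, map_sum] at ht
    rw [← Finset.sum_coe_sort] at ht
    rw [← ht]
    refine Finset.sum_congr rfl fun i _ => ?_
    rw [Algebra.TensorProduct.productMap_apply_tmul, hf, hg]
  have h2 := lin_disjoint x hx hA
    (fun i : b.support => Module.Basis.ofVectorSpace E A i)
    ((Module.Basis.ofVectorSpace E A).linearIndependent.comp _ Subtype.val_injective)
    (fun i : b.support => b i) h1
  rw [Finsupp.sum]
  refine Finset.sum_eq_zero fun i hi => ?_
  rw [h2 ⟨i, hi⟩, TensorProduct.tmul_zero]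

end Comp

end Gal

open Gal

section Main

variable {k K : Type u} [Field k] [CharZero k] [Field K] [Algebra k K]
variable {E : Type u} [Field E] [IsAlgClosed E] [CharZero E] [Algebra E (kbar k K)]
  [Algebra E (AlgebraicClosure K)] [IsScalarTower E (kbar k K) (AlgebraicClosure K)]

open scoped IntermediateField.algebraAdjoinAdjoin in
/-- GAL.  The conjugates over `M1` of the elements of `Kur0` are in `Kur`. -/
theorem conj_mem_Kur {M1 : IntermediateField E (AlgebraicClosure K)} {ι : Type u}
    {x : ι → kbar k K}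
    (h : Isotrivial k K M1 x) {z z' : AlgebraicClosure K} (hz : z ∈ Kur0 k M1)
    (hz' : Polynomial.aeval z' (minpoly M1 z) = 0) : z' ∈ Kur k K := by
  classical
  set C0 : IntermediateField M1 (AlgebraicClosure K) :=
    algebraicClosure M1 (AlgebraicClosure K) with hC0
  have hzC : z ∈ C0 := mem_algebraicClosure_iff.2 hz.2
  have hzint : IsIntegral M1 z := hz.2.isIntegral
  have hz'C : z' ∈ C0 := mem_algebraicClosure_iff.2
    ⟨minpoly M1 z, minpoly.ne_zero hzint, hz'⟩
  have hcl : IsAlgClosure M1 C0 := inferInstance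
  have hnorm : Normal M1 C0 := IsAlgClosure.normal M1 C0
  have hzint' : IsIntegral M1 (⟨z, hzC⟩ : C0) := by
    rw [← isIntegral_algebraMap_iff (B := AlgebraicClosure K)
      (algebraMap C0 (AlgebraicClosure K)).injective]
    exact hzint
  have hconj : IsConjRoot M1 (⟨z, hzC⟩ : C0) (⟨z', hz'C⟩ : C0) := by
    rw [isConjRoot_iff_aeval_eq_zero hzint']
    have h1 : minpoly M1 (⟨z, hzC⟩ : C0) = minpoly M1 z :=
      (minpoly.algebraMap_eq (algebraMap C0 (AlgebraicClosure K)).injective
        (⟨z, hzC⟩ : C0)).symm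
    apply (algebraMap C0 (AlgebraicClosure K)).injective
    rw [map_zero, ← Polynomial.aeval_algebraMap_apply, h1]
    exact hz'
  rw [isConjRoot_iff_exists_algEquiv] at hconj
  obtain ⟨σ0, hσ0⟩ := hconj
  have hσ : ∃ σ : C0 ≃ₐ[M1] C0, σ ⟨z, hzC⟩ = ⟨z', hz'C⟩ := by
    refine ⟨σ0.symm, ?_⟩
    rw [AlgEquiv.symm_apply_eq]
    exact hσ0.symm
  obtain ⟨σ, hσz⟩ := hσ
  -- the two embeddings of the tensor product
  have hsc : IsScalarTower E C0 (AlgebraicClosure K) := IsScalarTower.of_algebraMap_eq fun c => rfl
  let f : kbar k K →ₐ[E] (AlgebraicClosure K) := IsScalarTower.toAlgHom E (kbar k K) (AlgebraicClosure K)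
  let g : C0 →ₐ[E] (AlgebraicClosure K) := IsScalarTower.toAlgHom E C0 (AlgebraicClosure K)
  let gσ : C0 →ₐ[E] (AlgebraicClosure K) := g.comp ((σ : C0 →ₐ[M1] C0).restrictScalars E)
  have hx : AlgebraicIndependent C0 (fun i => algebraMap (kbar k K) (AlgebraicClosure K) (x i)) :=
    h.tr.extendScalars C0
  have hinj : Function.Injective (Algebra.TensorProduct.productMap f g) :=
    injective_product x hx h.alg f (fun _ => rfl) g (fun _ => rfl)
  have hinjσ : Function.Injective (Algebra.TensorProduct.productMap f gσ) := by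
    let cg : (kbar k K) ⊗[E] C0 ≃ₐ[E] (kbar k K) ⊗[E] C0 :=
      Algebra.TensorProduct.congr AlgEquiv.refl (σ.restrictScalars E)
    have h1 : Algebra.TensorProduct.productMap f gσ =
        (Algebra.TensorProduct.productMap f g).comp (cg : (kbar k K) ⊗[E] C0 →ₐ[E] _) := by
      apply Algebra.TensorProduct.ext'
      intro a b
      rw [Algebra.TensorProduct.productMap_apply_tmul]
      change _ = Algebra.TensorProduct.productMap f g (cg (a ⊗ₜ b))
      have h2 : cg (a ⊗ₜ b) = a ⊗ₜ (σ b) := rfl
      rw [h2, Algebra.TensorProduct.productMap_apply_tmul]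
      rfl
    rw [h1]
    exact hinj.comp cg.injective
  let e := AlgEquiv.ofInjective (Algebra.TensorProduct.productMap f g) hinj
  set R0 : Subalgebra (kbar k K) (AlgebraicClosure K) := Algebra.adjoin (kbar k K) (C0 : Set (AlgebraicClosure K)) with hR0
  have hR0mem : ∀ r : R0, (r : (AlgebraicClosure K)) ∈ (Algebra.TensorProduct.productMap f g).range := by
    let S : Subalgebra (kbar k K) (AlgebraicClosure K) :=
      { (Algebra.TensorProduct.productMap f g).range.toSubring with
        algebraMap_mem' := fun c => ⟨c ⊗ₜ 1, by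
          change Algebra.TensorProduct.productMap f g (c ⊗ₜ 1) = _
          rw [Algebra.TensorProduct.productMap_apply_tmul, map_one, mul_one]
          rfl⟩ }
    have hS : R0 ≤ S := by
      rw [hR0, Algebra.adjoin_le_iff]
      intro c hc
      refine ⟨1 ⊗ₜ ⟨c, hc⟩, ?_⟩
      change Algebra.TensorProduct.productMap f g (1 ⊗ₜ ⟨c, hc⟩) = _
      rw [Algebra.TensorProduct.productMap_apply_tmul, map_one, one_mul]
      rfl
    exact fun r => hS r.2
  let incl : R0 →+* (Algebra.TensorProduct.productMap f g).range :=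
    (R0.val : R0 →+* (AlgebraicClosure K)).codRestrict (Algebra.TensorProduct.productMap f g).range.toSubring hR0mem
  let γ : R0 →+* (AlgebraicClosure K) := ((Algebra.TensorProduct.productMap f gσ).toRingHom.comp
    e.symm.toAlgHom.toRingHom).comp incl
  have hγinj : Function.Injective γ := by
    refine hinjσ.comp (e.symm.injective.comp ?_)
    intro a b hab
    have h1 : ((incl a : (Algebra.TensorProduct.productMap f g).range) : AlgebraicClosure K) =
      (incl b : (Algebra.TensorProduct.productMap f g).range) := by rw [hab]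
    exact Subtype.ext h1
  have hγ : ∀ (t : (kbar k K) ⊗[E] C0) (r : R0),
      (r : (AlgebraicClosure K)) = Algebra.TensorProduct.productMap f g t →
      γ r = Algebra.TensorProduct.productMap f gσ t := by
    intro t r hrt
    change Algebra.TensorProduct.productMap f gσ (e.symm (incl r)) = _
    have h1 : incl r = e t := Subtype.ext hrt
    rw [h1, e.symm_apply_apply]
  -- the big field is algebraic
  set L0 : IntermediateField (kbar k K) (AlgebraicClosure K) := IntermediateField.adjoin (kbar k K) (C0 : Set (AlgebraicClosure K))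
    with hL0
  have hM1L0 : ∀ y ∈ M1, y ∈ L0 := fun y hy => IntermediateField.subset_adjoin _ _
    (C0.algebraMap_mem (⟨y, hy⟩ : M1))
  have hKL0 : ∀ c : K, algebraMap K (AlgebraicClosure K) c ∈ L0 := by
    intro c
    have h1 : algebraMap K (AlgebraicClosure K) c ∈ KK k K := IntermediateField.subset_adjoin _ _ ⟨c, rfl⟩
    rw [← h.comp] at h1
    refine (IntermediateField.adjoin_le_iff.2 ?_ : IntermediateField.adjoin (kbar k K)
      (M1 : Set (AlgebraicClosure K)) ≤ L0) h1
    exact hM1L0
  have halg : Algebra.IsAlgebraic R0 (AlgebraicClosure K) := by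
    refine ⟨fun s => ?_⟩
    have h1 : IsAlgebraic L0 s := by
      obtain ⟨p, hp, hps⟩ := (Algebra.IsAlgebraic.isAlgebraic (R := K) s)
      let j : K →+* L0 := (algebraMap K (AlgebraicClosure K)).codRestrict L0.toSubfield.toSubring hKL0
      refine ⟨p.map j, ?_, ?_⟩
      · rwa [Ne, Polynomial.map_eq_zero]
      · rw [Polynomial.aeval_def, Polynomial.eval₂_map]
        exact hps
    exact (IsFractionRing.isAlgebraic_iff R0 L0 (AlgebraicClosure K)).2 h1
  obtain ⟨τ, hτ⟩ := exists_lift_ring (R := R0) (S := (AlgebraicClosure K)) γ hγinj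
  have hτ1 : ∀ c : kbar k K, τ (c : (AlgebraicClosure K)) = c := by
    intro c
    have h1 := hτ (algebraMap (kbar k K) R0 c)
    rw [hγ (c ⊗ₜ 1) _ (by
      rw [Algebra.TensorProduct.productMap_apply_tmul, map_one, mul_one]; rfl),
      Algebra.TensorProduct.productMap_apply_tmul, map_one, mul_one] at h1
    exact h1
  have hτ2 : ∀ c : C0, τ (c : (AlgebraicClosure K)) = σ c := by
    intro c
    have h1 := hτ ⟨c, Algebra.subset_adjoin c.2⟩
    rw [hγ (1 ⊗ₜ c) _ (by
      rw [Algebra.TensorProduct.productMap_apply_tmul, map_one, one_mul]; rfl),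
      Algebra.TensorProduct.productMap_apply_tmul, map_one, one_mul] at h1
    exact h1
  have hτK : ∀ c : K, τ (algebraMap K (AlgebraicClosure K) c) = algebraMap K (AlgebraicClosure K) c := by
    intro c
    have h1 : algebraMap K (AlgebraicClosure K) c ∈ KK k K := IntermediateField.subset_adjoin _ _ ⟨c, rfl⟩
    rw [← h.comp] at h1
    let S : IntermediateField (kbar k K) (AlgebraicClosure K) :=
      { (RingHom.eqLocusField τ (RingHom.id (AlgebraicClosure K))) with
        algebraMap_mem' := fun c => hτ1 c }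
    have h2 : IntermediateField.adjoin (kbar k K) (M1 : Set (AlgebraicClosure K)) ≤ S := by
      refine IntermediateField.adjoin_le_iff.2 ?_
      intro y hy
      have h3 := hτ2 (algebraMap M1 C0 ⟨y, hy⟩)
      rw [σ.commutes] at h3
      exact h3
    exact h2 h1
  let τK : (AlgebraicClosure K) →ₐ[K] (AlgebraicClosure K) := { τ with commutes' := hτK }
  let τe : (AlgebraicClosure K) ≃ₐ[K] (AlgebraicClosure K) := AlgEquiv.ofBijective τK (Algebra.IsAlgebraic.algHom_bijective τK)
  have h1 : τe z = z' := by
    change τ z = z'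
    rw [hτ2 ⟨z, hzC⟩, hσz]
  rw [← h1]
  exact map_mem_Kur τe hz.1

end Main

end Pool.Agent.SC
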