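import Mathlib
import Pool.Agent.SC.Defs3
import Pool.Agent.SC.Ext
import Pool.Agent.SC.Cov
import Pool.Agent.SC.Gal
import Pool.Agent.SC.FFExt
import Pool.Agent.Helper17.FF.Basic

/-!
# MP_e66f84_ag, block IC: `Kur0` is a cover of `M1`
-/

universe u

set_option linter.unusedSectionVars false

namespace Pool.Agent.SC

open VC Module Pool.Agent.Helper91.Sect IntermediateField

section IC

variable {k K : Type u} [Field k] [CharZero k] [Field K] [Algebra k K]

variable {E : Type u} [Field E] [IsAlgClosed E] [CharZero E] [Algebra E (kbar k K)]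
  [Algebra E (AlgebraicClosure K)] [IsScalarTower E (kbar k K) (AlgebraicClosure K)]

/-- transport of function fields along an isomorphism -/
theorem isFunctionField_of_equiv {κ F F' : Type*} [Field κ] [Field F] [Field F'] [Algebra κ F]
    [Algebra κ F'] (e : F ≃ₐ[κ] F') (hF : IsFunctionField κ F) : IsFunctionField κ F' := by
  let i1 : Algebra F F' := (e : F →+* F').toAlgebra
  have s1 : IsScalarTower κ F F' := IsScalarTower.of_algebraMap_eq fun c => (e.commutes c).symm
  have h1 : Module.Finite F F' :=
    Module.Finite.of_surjective (Algebra.linearMap F F') e.surjective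
  exact isFunctionField_of_finite hF

/-- The residue field of a valuation ring of a function field over an algebraically closed field. -/
theorem exists_res_const {κ F : Type u} [Field κ] [IsAlgClosed κ] [Field F] [Algebra κ F]
    (hF : IsFunctionField κ F) (R : ValuationSubring F) (hR : ∀ c : κ, algebraMap κ F c ∈ R)
    (htop : R ≠ ⊤) {z : F} (hz : z ∈ R) : ∃ c : κ, R.valuation (z - algebraMap κ F c) < 1 := by
  obtain ⟨c, hc⟩ := FF.exists_residue hF ⟨R, hR, htop⟩ hz
  exact ⟨c, (R.mem_nonunits_iff).1 hc⟩

theorem isAlgebraic_Kur0 {M1 : IntermediateField E (AlgebraicClosure K)}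
    (h : M1 ≤ Kur0 k M1) : Algebra.IsAlgebraic (IntermediateField.restrict h) (Kur0 k M1) := by
  refine ⟨fun z => ?_⟩
  obtain ⟨p, hp0, hp⟩ := z.2.2
  let f : M1 →+* IntermediateField.restrict h := (IntermediateField.restrictAlgEquiv h : M1 →+* _)
  refine ⟨p.map f, (Polynomial.map_ne_zero_iff f.injective).2 hp0, ?_⟩
  apply Subtype.ext
  have h1 : (Polynomial.aeval z (p.map f) : Kur0 k M1) =
      Polynomial.eval₂ ((algebraMap (IntermediateField.restrict h) (Kur0 k M1)).comp f) z p := by
    rw [Polynomial.aeval_def, Polynomial.eval₂_map]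
  rw [h1]
  change (Kur0 k M1).val _ = 0
  have h2 : (Kur0 k M1).val (Polynomial.eval₂
      ((algebraMap (IntermediateField.restrict h) (Kur0 k M1)).comp f) z p) =
      Polynomial.eval₂ (((Kur0 k M1).val : Kur0 k M1 →+* AlgebraicClosure K).comp
        ((algebraMap (IntermediateField.restrict h) (Kur0 k M1)).comp f)) (z : AlgebraicClosure K) p :=
    Polynomial.hom_eval₂ p _ ((Kur0 k M1).val : Kur0 k M1 →+* AlgebraicClosure K) z
  rw [h2]
  exact hp

/-- Normality of `Kur0 / M1`. -/
theorem normal_Kur0 {M1 : IntermediateField E (AlgebraicClosure K)} {ι : Type u}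
    {x : ι → kbar k K} (h : Isotrivial k K M1 x) :
    Normal (IntermediateField.restrict h.le_Kur0) (Kur0 k M1) := by
  have halg := isAlgebraic_Kur0 h.le_Kur0
  refine { halg with splits' := fun z => ?_ }
  let j : Kur0 k M1 →+* AlgebraicClosure K := (Kur0 k M1).val
  refine Polynomial.Splits.of_splits_map j (IsAlgClosed.splits _) ?_
  intro a ha
  -- `a` is a conjugate of `z`
  have hz : IsIntegral (IntermediateField.restrict h.le_Kur0) z :=
    (halg.isAlgebraic z).isIntegral
  have hz1 : IsIntegral M1 (z : AlgebraicClosure K) := z.2.2.isIntegral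
  let f : M1 →+* IntermediateField.restrict h.le_Kur0 :=
    (IntermediateField.restrictAlgEquiv h.le_Kur0 : M1 →+* _)
  -- the minimal polynomial over `restrict` divides the image of the one over `M1`
  have hcomp : (j.comp (algebraMap (IntermediateField.restrict h.le_Kur0) (Kur0 k M1))).comp f =
      algebraMap M1 (AlgebraicClosure K) := rfl
  have h1 : Polynomial.aeval z ((minpoly M1 (z : AlgebraicClosure K)).map f) = 0 := by
    apply j.injective
    rw [Polynomial.aeval_def, Polynomial.eval₂_map, Polynomial.hom_eval₂, map_zero]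
    exact minpoly.aeval M1 (z : AlgebraicClosure K)
  have h2 := minpoly.dvd _ _ h1
  rw [Polynomial.map_map, Polynomial.mem_roots', Polynomial.IsRoot.def,
    Polynomial.eval_map] at ha
  have h3 : Polynomial.aeval a (minpoly M1 (z : AlgebraicClosure K)) = 0 := by
    obtain ⟨q, hq⟩ := h2
    have h4 : Polynomial.eval₂ (j.comp (algebraMap (IntermediateField.restrict h.le_Kur0)
        (Kur0 k M1))) a ((minpoly M1 (z : AlgebraicClosure K)).map f) = 0 := by
      rw [hq, Polynomial.eval₂_mul, ha.2, zero_mul]
    rw [Polynomial.eval₂_map, hcomp] at h4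
    exact h4
  refine ⟨⟨a, ?_⟩, rfl⟩
  rw [mem_Kur0]
  exact ⟨conj_mem_Kur h z.2 h3, ⟨_, minpoly.ne_zero hz1, h3⟩⟩

theorem const_Kur0 {V : ValuationSubring (AlgebraicClosure K)}
    (hV : ∀ c : k, algebraMap k (AlgebraicClosure K) c ∈ V) (c : E) :
    algebraMap E (AlgebraicClosure K) c ∈ V := by
  rw [IsScalarTower.algebraMap_apply E (kbar k K) (AlgebraicClosure K)]
  exact const_mem hV ((mem_algebraicClosure_iff).1 (algebraMap E (kbar k K) c).2)

/-- Two elements of a subfield with the same value upstairs have the same value downstairs. -/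
theorem val_eq_of_map {F L : Type*} [Field F] [Field L] (j : F →+* L) {W : ValuationSubring F}
    {V : ValuationSubring L} (hVW : ∀ u : F, j u ∈ V ↔ u ∈ W) {u v : F}
    (h : V.valuation (j u) = V.valuation (j v)) : W.valuation u = W.valuation v := by
  by_cases hv : v = 0
  · rw [hv, map_zero, map_zero] at h
    have : u = 0 := by simpa using h
    rw [this, hv]
  by_cases hu : u = 0
  · rw [hu, map_zero, map_zero] at h
    have : v = 0 := by simpa using h.symm
    exact absurd this hv
  have hv' : V.valuation (j v) ≠ 0 := by simpa using hv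
  have hu' : V.valuation (j u) ≠ 0 := by simpa using hu
  have hv'' : W.valuation v ≠ 0 := by simpa using hv
  have hu'' : W.valuation u ≠ 0 := by simpa using hu
  apply le_antisymm
  · have h1 : u / v ∈ W := by
      rw [← hVW, ← ValuationSubring.valuation_le_one_iff, map_div₀, map_div₀, h, div_self hv']
    rw [← ValuationSubring.valuation_le_one_iff, map_div₀] at h1
    exact (div_le_one₀ (zero_lt_iff.2 hv'')).1 h1
  · have h1 : v / u ∈ W := by
      rw [← hVW, ← ValuationSubring.valuation_le_one_iff, map_div₀, map_div₀, h, div_self hv']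
    rw [← ValuationSubring.valuation_le_one_iff, map_div₀] at h1
    exact (div_le_one₀ (zero_lt_iff.2 hu'')).1 h1

/-- The same in the other direction. -/
theorem val_map_eq {F L : Type*} [Field F] [Field L] (j : F →+* L) {W : ValuationSubring F}
    {V : ValuationSubring L} (hVW : ∀ u : F, j u ∈ V ↔ u ∈ W) {u v : F}
    (h : W.valuation u = W.valuation v) : V.valuation (j u) = V.valuation (j v) := by
  by_cases hv : v = 0
  · rw [hv, map_zero] at h
    have : u = 0 := by simpa using h
    rw [this, hv]
  by_cases hu : u = 0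
  · rw [hu, map_zero] at h
    have : v = 0 := by simpa using h.symm
    exact absurd this hv
  have hv' : V.valuation (j v) ≠ 0 := by simpa using hv
  have hu' : V.valuation (j u) ≠ 0 := by simpa using hu
  have hv'' : W.valuation v ≠ 0 := by simpa using hv
  have hu'' : W.valuation u ≠ 0 := by simpa using hu
  apply le_antisymm
  · have h1 : j (u / v) ∈ V := by
      rw [hVW, ← ValuationSubring.valuation_le_one_iff, map_div₀, h, div_self hv'']
    rw [← ValuationSubring.valuation_le_one_iff, map_div₀, map_div₀] at h1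
    exact (div_le_one₀ (zero_lt_iff.2 hv')).1 h1
  · have h1 : j (v / u) ∈ V := by
      rw [hVW, ← ValuationSubring.valuation_le_one_iff, map_div₀, h, div_self hv'']
    rw [← ValuationSubring.valuation_le_one_iff, map_div₀, map_div₀] at h1
    exact (div_le_one₀ (zero_lt_iff.2 hu')).1 h1

theorem algebraicIndependent_Kur0 {M1 : IntermediateField E (AlgebraicClosure K)} {ι : Type u}
    {x : ι → kbar k K} (h : Isotrivial k K M1 x) :
    AlgebraicIndependent (Kur0 k M1) (fun i => algebraMap (kbar k K) (AlgebraicClosure K) (x i)) := by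
  let i1 : Algebra M1 (Kur0 k M1) := (IntermediateField.inclusion h.le_Kur0 : M1 →+* Kur0 k M1).toAlgebra
  have s1 : IsScalarTower M1 (Kur0 k M1) (AlgebraicClosure K) :=
    IsScalarTower.of_algebraMap_eq fun c => rfl
  have h1 : Algebra.IsAlgebraic M1 (Kur0 k M1) := by
    refine ⟨fun z => ?_⟩
    have h2 : IsAlgebraic M1 (algebraMap (Kur0 k M1) (AlgebraicClosure K) z) := z.2.2
    exact (isAlgebraic_algebraMap_iff (Subtype.val_injective)).1 h2
  exact h.tr.extendScalars (Kur0 k M1)

/-- Values of elements of `Kur0`. -/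
theorem unr_Kur0 {M1 : IntermediateField E (AlgebraicClosure K)} {ι : Type u}
    {x : ι → kbar k K} (h : Isotrivial k K M1 x) (W : ValuationSubring (Kur0 k M1))
    (hW : ∀ c : E, algebraMap E (Kur0 k M1) c ∈ W) (u : Kur0 k M1) :
    ∃ m ∈ IntermediateField.restrict h.le_Kur0, W.valuation u = W.valuation m := by
  by_cases htop : W = ⊤
  · by_cases hu : u = 0
    · exact ⟨0, zero_mem _, by rw [hu]⟩
    · refine ⟨1, one_mem _, ?_⟩
      have h1 : W.valuation u ≤ 1 := (W.valuation_le_one_iff _).2 (by rw [htop]; trivial)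
      have h2 : W.valuation u⁻¹ ≤ 1 := (W.valuation_le_one_iff _).2 (by rw [htop]; trivial)
      have h3 : W.valuation u ≠ 0 := by simpa using hu
      rw [map_inv₀] at h2
      rw [map_one]
      exact le_antisymm h1 ((inv_le_one₀ (zero_lt_iff.2 h3)).1 h2)
  obtain ⟨V, hVA, hVW⟩ := exists_ext_val (E := E) (A := kbar k K) (L := AlgebraicClosure K) x
    (algebraicIndependent_Kur0 h) h.alg W hW
  have hVk : ∀ c : k, algebraMap k (AlgebraicClosure K) c ∈ V := fun c => by
    rw [IsScalarTower.algebraMap_apply k (kbar k K) (AlgebraicClosure K)]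
    exact hVA _
  obtain ⟨m', hm', hum'⟩ := exists_val_eq_of_mem_Kur h.ffK V hVk u.2.1
  -- the restriction of `V` to `M1`
  let j : Kur0 k M1 →+* AlgebraicClosure K := algebraMap (Kur0 k M1) (AlgebraicClosure K)
  let i : M1 →+* Kur0 k M1 := (IntermediateField.inclusion h.le_Kur0 : M1 →+* Kur0 k M1)
  let R : ValuationSubring M1 := W.comap i
  have hRtop : R ≠ ⊤ := by
    intro hR
    apply htop
    rw [eq_top_iff]
    intro z _
    have hz : IsAlgebraic M1 (z : AlgebraicClosure K) := z.2.2
    obtain ⟨p, hp, hp0⟩ := hz.isIntegral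
    have hi : ∀ c : M1, i c ∈ W := fun c => by
      have : c ∈ R := by rw [hR]; trivial
      exact this
    let f : M1 →+* W := i.codRestrict W.toSubring hi
    have h1 : IsIntegral W z := by
      refine ⟨p.map f, hp.map f, ?_⟩
      rw [Polynomial.eval₂_map]
      apply j.injective
      rw [Polynomial.hom_eval₂, map_zero]
      exact hp0
    obtain ⟨w, hw⟩ := IsIntegrallyClosed.algebraMap_eq_of_integral h1
    rw [← hw]
    exact w.2
  have hres : ∀ m : M1, algebraMap M1 (AlgebraicClosure K) m ∈ V →
      ∃ c : E, V.valuation (algebraMap M1 (AlgebraicClosure K) (m - algebraMap E M1 c)) < 1 := by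
    intro m hm
    have hmR : m ∈ R := (hVW (i m)).1 hm
    obtain ⟨c, hc⟩ := exists_res_const h.ff R (fun c => hW c) hRtop hmR
    refine ⟨c, ?_⟩
    by_contra hlt
    push Not at hlt
    have hne : m - algebraMap E M1 c ≠ 0 := by
      intro h0
      rw [h0, map_zero, map_zero] at hlt
      exact absurd hlt (not_le.2 zero_lt_one)
    have h4 : (algebraMap M1 (AlgebraicClosure K) (m - algebraMap E M1 c))⁻¹ ∈ V := by
      rw [← ValuationSubring.valuation_le_one_iff, map_inv₀]
      exact inv_le_one_of_one_le₀ hlt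
    rw [← map_inv₀] at h4
    have h5 : (m - algebraMap E M1 c)⁻¹ ∈ R := (hVW (i _)).1 h4
    rw [← ValuationSubring.valuation_le_one_iff, map_inv₀] at h5
    have h6 : R.valuation (m - algebraMap E M1 c) ≠ 0 := by simpa using hne
    have h7 := (inv_le_one₀ (zero_lt_iff.2 h6)).1 h5
    exact absurd hc (not_lt.2 h7)
  have hm'2 : m' ∈ IntermediateField.adjoin (kbar k K)
      (Set.range (algebraMap M1 (AlgebraicClosure K))) := by
    have h1 : Set.range (algebraMap M1 (AlgebraicClosure K)) = (M1 : Set (AlgebraicClosure K)) := by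
      ext z
      constructor
      · rintro ⟨m, rfl⟩
        exact m.2
      · intro hz
        exact ⟨⟨z, hz⟩, rfl⟩
    rw [h1, h.comp]
    exact hm'
  obtain ⟨m, hm⟩ := exists_val_eq_of_adjoin (E := E) (A := kbar k K) (U := M1) V hVA hres hm'2
  refine ⟨i m, (IntermediateField.mem_restrict _ _).2 m.2, ?_⟩
  refine val_eq_of_map j hVW ?_
  exact hum'.trans hm

/-- Roots of elements of `Kur0`. -/
theorem root_Kur0 {M1 : IntermediateField E (AlgebraicClosure K)} (u : Kur0 k M1) (n : ℕ)
    (hn : 0 < n)
    (hv : ∀ W : ValuationSubring (Kur0 k M1), (∀ c : E, algebraMap E (Kur0 k M1) c ∈ W) →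
      ∃ v : Kur0 k M1, W.valuation u = W.valuation (v ^ n)) : ∃ w : Kur0 k M1, w ^ n = u := by
  obtain ⟨w, hw⟩ := IsAlgClosed.exists_pow_nat_eq (u : AlgebraicClosure K) hn
  have hwK : w ∈ Kur0 k M1 := by
    rw [mem_Kur0]
    refine ⟨?_, ?_⟩
    · intro V hV σ hσ
      let j : Kur0 k M1 →+* AlgebraicClosure K := algebraMap (Kur0 k M1) (AlgebraicClosure K)
      let W : ValuationSubring (Kur0 k M1) := V.comap j
      obtain ⟨v, hv⟩ := hv W (fun c => const_Kur0 hV c)
      have h1 : V.valuation (j u) = V.valuation (j (v ^ n)) := val_map_eq j (fun _ => Iff.rfl) hv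
      rw [map_pow j v n, map_pow] at h1
      change V.valuation (u : AlgebraicClosure K) = _ at h1
      rw [← hw, map_pow] at h1
      have h2 : V.valuation w = V.valuation (j v) :=
        (pow_left_inj₀ zero_le zero_le hn.ne').1 h1
      refine unit_crit hV hσ (b := j v) (v.2.1 V hV σ hσ) h2 hn ?_
      rw [hw]
      exact u.2.1 V hV σ hσ
    · exact IsAlgebraic.of_pow hn (by rw [hw]; exact u.2.2)
  exact ⟨⟨w, hwK⟩, Subtype.ext hw⟩

/-- IC.  `Kur0` is a cover of `M1` (from COV, EXT2, LIN, RES, GAL, unit_crit). -/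
theorem isCover_Kur0 {M1 : IntermediateField E (AlgebraicClosure K)} {ι : Type u}
    {x : ι → kbar k K} (h : Isotrivial k K M1 x) :
    IsCover (IntermediateField.restrict h.le_Kur0) where
  ff := isFunctionField_of_equiv (IntermediateField.restrictAlgEquiv h.le_Kur0) h.ff
  gal := by
    have := normal_Kur0 h
    have h1 := isAlgebraic_Kur0 h.le_Kur0
    exact { }
  unr := unr_Kur0 h
  root := fun u n hn hv => root_Kur0 u n hn hv

end IC

end Pool.Agent.SC
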