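import Mathlib
import Pool.Agent.SC.Levels

/-!
# G5: an automorphism of prime order of a cover fixes a place
-/

universe u

namespace Pool.Agent.SC

open VC Module

section Ord

variable {E Y N : Type*} [Field E] [IsAlgClosed E] [Field Y] [Field N] [Algebra E Y] [Algebra Y N]

/-- The values at a valuation ring above a place are determined by the orders. -/
theorem val_eq_iff_ord_eq (hY : IsFunctionField E Y) (P : Place E Y) {R : ValuationSubring N}
    (hR : ∀ z : Y, algebraMap Y N z ∈ R ↔ z ∈ P.ring) {a b : Y} (ha : a ≠ 0) (hb : b ≠ 0) :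
    R.valuation (algebraMap Y N a) = R.valuation (algebraMap Y N b) ↔
      ord P.ring a = ord P.ring b := by
  have hle : ∀ {a b : Y}, a ≠ 0 → b ≠ 0 →
      (R.valuation (algebraMap Y N a) ≤ R.valuation (algebraMap Y N b) ↔
        ord P.ring b ≤ ord P.ring a) := by
    intro a b ha hb
    have hb' : R.valuation (algebraMap Y N b) ≠ 0 :=
      (Valuation.ne_zero_iff _).2 ((map_ne_zero _).2 hb)
    have h1 : R.valuation (algebraMap Y N a) ≤ R.valuation (algebraMap Y N b) ↔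
        R.valuation (algebraMap Y N (a / b)) ≤ 1 := by
      rw [map_div₀, map_div₀, div_le_one₀ (zero_lt_iff.2 hb')]
    rw [h1, R.valuation_le_one_iff, hR, ← FF.ord_nonneg_iff hY P (div_ne_zero ha hb),
      FF.ord_div hY P ha hb]
    omega
  rw [le_antisymm_iff, hle ha hb, hle hb ha, and_comm, ← le_antisymm_iff]

/-- roots of unity of an overfield lie in the algebraically closed field `E` -/
theorem exists_algebraMap_of_pow_eq_one {E U : Type*} [Field E] [IsAlgClosed E] [Field U]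
    [Algebra E U] {z : U} {n : ℕ} (hn : 0 < n) (hz : z ^ n = 1) : ∃ η : E, algebraMap E U η = z := by
  have hint : IsIntegral E z := IsIntegral.of_pow hn (by rw [hz]; exact isIntegral_one)
  have hdeg := IsAlgClosed.degree_eq_one_of_irreducible E (minpoly.irreducible hint)
  exact minpoly.mem_range_of_degree_eq_one E z hdeg

end Ord

section Level

variable {E U : Type u} [Field E] [Field U] [Algebra E U]

/-- the restriction of `g` to a stable level -/
noncomputable def resAut (g : U ≃ₐ[E] U) {N : IntermediateField E U} (hgN : ∀ x ∈ N, g x ∈ N)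
    {ℓ : ℕ} (hℓ : 0 < ℓ) (hg : g ^ ℓ = 1) : N ≃ₐ[E] N :=
  AlgEquiv.ofBijective
    { toFun := fun x => ⟨g x, hgN x x.2⟩
      map_one' := Subtype.ext (map_one g)
      map_mul' := fun x y => Subtype.ext (map_mul g _ _)
      map_zero' := Subtype.ext (map_zero g)
      map_add' := fun x y => Subtype.ext (map_add g _ _)
      commutes' := fun c => Subtype.ext (g.commutes c) } (by
    constructor
    · intro x y hxy
      exact Subtype.ext (g.injective (congrArg Subtype.val hxy))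
    · intro y
      refine ⟨⟨(g ^ (ℓ - 1)) y, map_pow_mem hgN y.2 _⟩, Subtype.ext ?_⟩
      change g ((g ^ (ℓ - 1)) (y : U)) = y
      rw [← AlgEquiv.mul_apply, ← pow_succ', Nat.sub_add_cancel hℓ, hg]
      rfl)

theorem resAut_apply (g : U ≃ₐ[E] U) {N : IntermediateField E U} (hgN : ∀ x ∈ N, g x ∈ N)
    {ℓ : ℕ} (hℓ : 0 < ℓ) (hg : g ^ ℓ = 1) (x : N) : (resAut g hgN hℓ hg x : U) = g x := rfl

theorem resAut_pow (g : U ≃ₐ[E] U) {N : IntermediateField E U} (hgN : ∀ x ∈ N, g x ∈ N)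
    {ℓ : ℕ} (hℓ : 0 < ℓ) (hg : g ^ ℓ = 1) : (resAut g hgN hℓ hg) ^ ℓ = 1 := by
  have h1 : ∀ (j : ℕ) (x : N), (((resAut g hgN hℓ hg) ^ j) x : U) = (g ^ j) x := by
    intro j
    induction j with
    | zero => intro x; rfl
    | succ j ih =>
      intro x
      rw [pow_succ', AlgEquiv.mul_apply, resAut_apply, ih, pow_succ', AlgEquiv.mul_apply]
  apply AlgEquiv.ext
  intro x
  apply Subtype.ext
  rw [h1, hg]
  rfl

variable [IsAlgClosed E] [CharZero E]

omit [CharZero E] in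
/-- If all the orders of `v ^ ℓ` are divisible by `ℓ`, there is a contradiction. -/
theorem false_of_dvd
    (hroot : ∀ (u : U) (n : ℕ), 0 < n →
      (∀ W : ValuationSubring U, (∀ c : E, algebraMap E U c ∈ W) →
        ∃ v : U, W.valuation u = W.valuation (v ^ n)) → ∃ w : U, w ^ n = u)
    {Y : IntermediateField E U} (hY : IsFunctionField E Y) (hdiv : PicDiv E Y)
    {ℓ : ℕ} (hℓ : ℓ.Prime) {g : U ≃ₐ[E] U} (hg : g ^ ℓ = 1) (hgY : ∀ y ∈ Y, g y = y)
    {ζ : E} (hζ : IsPrimitiveRoot ζ ℓ) {v : U} (hv0 : v ≠ 0) (hv : g v = algebraMap E U ζ * v)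
    {u : Y} (hu : (u : U) = v ^ ℓ) (hdvd : ∀ P : Place E Y, (ℓ : ℤ) ∣ ord P.ring u) : False := by
  have hℓ0 : (ℓ : ℤ) ≠ 0 := Nat.cast_ne_zero.2 hℓ.ne_zero
  have hu0 : u ≠ 0 := by
    rintro rfl
    exact pow_ne_zero ℓ hv0 hu.symm
  let D0 : Place E Y →₀ ℤ := (FF.dv hY u).mapRange (fun m => m / ℓ) (by simp)
  have hD0 : ∀ P, (ℓ : ℤ) * D0 P = ord P.ring u := by
    intro P
    rw [Finsupp.mapRange_apply, FF.dv_apply]
    exact Int.mul_ediv_cancel' (hdvd P)
  have hD0' : ℓ • D0 = FF.dv hY u := by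
    ext P
    rw [Finsupp.smul_apply, nsmul_eq_mul, hD0, FF.dv_apply]
  have hdeg : (D0.sum fun _ m => m) = 0 := by
    rw [← FF.deg_eq]
    have h1 := FF.deg_dv hY hu0
    rw [← hD0', map_nsmul, nsmul_eq_mul] at h1
    exact (mul_eq_zero.1 h1).resolve_left hℓ0
  obtain ⟨D', c, hc, hD'⟩ := hdiv ℓ hℓ.pos D0 hdeg
  have hcℓ : c ^ ℓ ≠ 0 := pow_ne_zero ℓ hc
  let u' : Y := u / c ^ ℓ
  have hu'0 : u' ≠ 0 := div_ne_zero hu0 hcℓ
  have hordu' : ∀ P : Place E Y, ord P.ring u' = (ℓ ^ 2 : ℕ) * D' P := by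
    intro P
    rw [FF.ord_div hY P hu0 hcℓ, FF.ord_pow hY P hc, ← hD0, hD']
    push_cast
    ring
  obtain ⟨w, hw⟩ := hroot (u' : U) (ℓ ^ 2) (pow_pos hℓ.pos 2) (by
    intro W hW
    by_cases h : ∃ x ∈ Y, x ∉ W
    · let P : Place E Y := resPlace W hW Y h
      obtain ⟨π, hπ0, hπ⟩ := FF.exists_ord_eq hY P (D' P)
      refine ⟨(π : U), ?_⟩
      have h1 : W.valuation (algebraMap Y U u') = W.valuation (algebraMap Y U (π ^ ℓ ^ 2)) := by
        refine (val_eq_iff_ord_eq (N := U) (R := W) hY P (fun z => Iff.rfl) hu'0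
          (pow_ne_zero _ hπ0)).2 ?_
        rw [hordu', FF.ord_pow hY P hπ0, hπ]
      rw [map_pow] at h1
      exact h1
    · push Not at h
      refine ⟨1, ?_⟩
      rw [one_pow, map_one]
      apply le_antisymm
      · rw [W.valuation_le_one_iff]
        exact h _ u'.2
      · have h1 : W.valuation ((u' : U)⁻¹) ≤ 1 := by
          rw [W.valuation_le_one_iff]
          exact h _ (Y.inv_mem u'.2)
        have h2 : W.valuation (u' : U) ≠ 0 :=
          (Valuation.ne_zero_iff _).2 (fun h => hu'0 (Subtype.ext h))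
        rw [map_inv₀] at h1
        exact (inv_le_one₀ (zero_lt_iff.2 h2)).1 h1)
  have hcU : (c : U) ≠ 0 := fun h => hc (Subtype.ext h)
  have hu'U : (u' : U) = (v / c) ^ ℓ := by
    have h1 : (u' : U) = (u : U) / (c : U) ^ ℓ := rfl
    rw [h1, hu, div_pow]
  have hu'U0 : (u' : U) ≠ 0 := fun h => hu'0 (Subtype.ext h)
  have hw0 : w ≠ 0 := by
    rintro rfl
    rw [zero_pow (pow_pos hℓ.pos 2).ne'] at hw
    exact hu'U0 hw.symm
  have hgc : g (c : U) = c := hgY _ c.2
  have hgu' : g (u' : U) = u' := hgY _ u'.2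
  obtain ⟨θ, hθ⟩ : ∃ θ : E, algebraMap E U θ = g w / w := by
    refine exists_algebraMap_of_pow_eq_one (n := ℓ ^ 2) (pow_pos hℓ.pos 2) ?_
    rw [div_pow, ← map_pow, hw, hgu', div_self hu'U0]
  have hgw : g w = algebraMap E U θ * w := by
    rw [hθ, div_mul_cancel₀ _ hw0]
  have hvc0 : v / (c : U) ≠ 0 := div_ne_zero hv0 hcU
  obtain ⟨η, hη⟩ : ∃ η : E, algebraMap E U η = w ^ ℓ / (v / c) := by
    refine exists_algebraMap_of_pow_eq_one (n := ℓ) hℓ.pos ?_
    rw [div_pow, ← pow_mul, ← sq, hw, hu'U, div_self (pow_ne_zero _ hvc0)]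
  have hwℓ : w ^ ℓ = algebraMap E U η * (v / c) := by
    rw [hη, div_mul_cancel₀ _ hvc0]
  have h1 : g (w ^ ℓ) = algebraMap E U ζ * w ^ ℓ := by
    rw [hwℓ, map_mul, AlgEquiv.commutes, map_div₀, hv, hgc]
    ring
  have hθζ : θ ^ ℓ = ζ := by
    apply (algebraMap E U).injective
    rw [map_pow, hgw, mul_pow] at h1
    rw [map_pow]
    exact mul_right_cancel₀ (pow_ne_zero ℓ hw0) h1
  have h2 : ∀ j : ℕ, (g ^ j) w = algebraMap E U (θ ^ j) * w := by
    intro j
    induction j with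
    | zero => rw [pow_zero, pow_zero, map_one, one_mul]; rfl
    | succ j ih =>
      rw [pow_succ', AlgEquiv.mul_apply, ih, map_mul, AlgEquiv.commutes, hgw, pow_succ, map_mul]
      ring
  have h3 := h2 ℓ
  rw [hg, hθζ] at h3
  have h4 : algebraMap E U ζ = 1 := by
    have h5 : algebraMap E U ζ * w = 1 * w := by
      rw [one_mul]
      exact h3.symm
    exact mul_right_cancel₀ hw0 h5
  have h6 : ζ = 1 := by
    apply (algebraMap E U).injective
    rw [h4, map_one]
  exact hζ.ne_one hℓ.one_lt h6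

/-- **Every stable level on which `g` acts nontrivially has a fixed place.** -/
theorem exists_fixed_level
    (hroot : ∀ (u : U) (n : ℕ), 0 < n →
      (∀ W : ValuationSubring U, (∀ c : E, algebraMap E U c ∈ W) →
        ∃ v : U, W.valuation u = W.valuation (v ^ n)) → ∃ w : U, w ^ n = u)
    (hdiv : ∀ N : IntermediateField E U, IsFunctionField E N → PicDiv E N)
    {ℓ : ℕ} (hℓ : ℓ.Prime) {g : U ≃ₐ[E] U} (hg : g ^ ℓ = 1) {N : IntermediateField E U}
    (hN : IsFunctionField E N) (hgN : ∀ x ∈ N, g x ∈ N) (hne : ∃ x ∈ N, g x ≠ x) :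
    ∃ P : Place E N, ∀ x : N, x ∈ P.ring → (⟨g x, hgN x x.2⟩ : N) ∈ P.ring := by
  have hcz : CharZero U := charZero_of_injective_algebraMap (algebraMap E U).injective
  obtain ⟨x₀, hx₀, hgx₀⟩ := hne
  obtain ⟨ζ, hζ, v, hvN, hv0, hv⟩ := exists_eigenvector hℓ hg hgN hx₀ hgx₀
  have hY := isFunctionField_fixedIn hgN hℓ.pos hg hN
  have huY : v ^ ℓ ∈ fixedIn g N := by
    refine ⟨pow_mem hvN ℓ, ?_⟩
    rw [map_pow, hv, mul_pow, ← map_pow, hζ.pow_eq_one, map_one, one_mul]
  by_contra hcon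
  refine false_of_dvd hroot hY (hdiv _ hY) hℓ hg (fun y hy => hy.2) hζ hv0 hv
    (u := ⟨v ^ ℓ, huY⟩) rfl ?_
  intro P
  by_contra hnd
  let i1 : Algebra (fixedIn g N) N := (IntermediateField.inclusion (fixedIn_le g N)).toAlgebra
  have s1 : IsScalarTower E (fixedIn g N) N := IsScalarTower.of_algebraMap_eq (fun x => rfl)
  obtain ⟨Q, hQ⟩ := SC.exists_place_over (K := E) (N := N) P
  apply hcon
  refine ⟨Q, fun x hx => ?_⟩
  refine map_mem_of_not_dvd (Y := fixedIn g N) (R := Q.ring) Q.algebraMap_mem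
    (σ := resAut g hgN hℓ.pos hg) hℓ (resAut_pow g hgN hℓ.pos hg) ?_ hζ (v := ⟨v, hvN⟩)
    (fun h => hv0 (congrArg Subtype.val h)) (Subtype.ext hv) ?_ hx
  · intro z hz
    exact ⟨⟨z, z.2, congrArg Subtype.val hz⟩, rfl⟩
  · intro c hc
    have h1 : Q.ring.valuation (algebraMap (fixedIn g N) N ⟨v ^ ℓ, huY⟩) =
        Q.ring.valuation (algebraMap (fixedIn g N) N (c ^ ℓ)) := hc
    have hu0 : (⟨v ^ ℓ, huY⟩ : fixedIn g N) ≠ 0 := fun h =>
      pow_ne_zero ℓ hv0 (congrArg Subtype.val h)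
    have hc0 : c ^ ℓ ≠ 0 := by
      intro h
      rw [h, map_zero, map_zero, Valuation.zero_iff, map_eq_zero] at h1
      exact hu0 h1
    rw [val_eq_iff_ord_eq hY P hQ hu0 hc0] at h1
    apply hnd
    rw [h1, FF.ord_pow hY P (fun h => hc0 (by rw [h, zero_pow hℓ.ne_zero]))]
    exact dvd_mul_right _ _

/-- an ultrafilter limit of partial valuation rings -/
theorem exists_limit {U : Type u} [Field U] (A : Finset U → Set U)
    (h0 : ∀ S, 0 ∈ A S) (h1 : ∀ S, 1 ∈ A S) (hadd : ∀ S, ∀ x ∈ A S, ∀ y ∈ A S, x + y ∈ A S)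
    (hmul : ∀ S, ∀ x ∈ A S, ∀ y ∈ A S, x * y ∈ A S) (hneg : ∀ S, ∀ x ∈ A S, -x ∈ A S)
    (hinv : ∀ S, ∀ x ∈ S, x ∈ A S ∨ x⁻¹ ∈ A S) :
    ∃ (W : ValuationSubring U) (f : Ultrafilter (Finset U)),
      ∀ x, x ∈ W ↔ ∀ᶠ S in (f : Filter (Finset U)), x ∈ A S := by
  classical
  let f : Ultrafilter (Finset U) := Ultrafilter.of Filter.atTop
  refine ⟨{ carrier := {x | ∀ᶠ S in (f : Filter (Finset U)), x ∈ A S}
            mul_mem' := fun hx hy => (hx.and hy).mono fun S h => hmul S _ h.1 _ h.2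
            one_mem' := Filter.Eventually.of_forall h1
            add_mem' := fun hx hy => (hx.and hy).mono fun S h => hadd S _ h.1 _ h.2
            zero_mem' := Filter.Eventually.of_forall h0
            neg_mem' := fun hx => hx.mono fun S h => hneg S _ h
            mem_or_inv_mem' := ?_ }, f, fun x => Iff.rfl⟩
  intro x
  have hev : ∀ᶠ S in (f : Filter (Finset U)), x ∈ A S ∨ x⁻¹ ∈ A S := by
    have h2 : ∀ᶠ S in (Filter.atTop : Filter (Finset U)), x ∈ S := by
      filter_upwards [Filter.eventually_ge_atTop {x}] with S hS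
      exact hS (Finset.mem_singleton_self x)
    have h3 : ∀ᶠ S in (f : Filter (Finset U)), x ∈ S := Ultrafilter.of_le _ h2
    exact h3.mono fun S hS => hinv S x hS
  exact Ultrafilter.eventually_or.1 hev

/-- **G5.**  An automorphism of prime order fixes a place. -/
theorem exists_fixed (M : IntermediateField E U) (hc : IsCover M)
    (hdiv : ∀ N : IntermediateField E U, IsFunctionField E N → PicDiv E N)
    {ℓ : ℕ} (hℓ : ℓ.Prime) (g : U ≃ₐ[E] U) (hgM : ∀ x, x ∈ M ↔ g x ∈ M) (hg : g ^ ℓ = 1)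
    (hne : g ≠ 1) :
    ∃ W : ValuationSubring U, (∀ c : E, algebraMap E U c ∈ W) ∧ W ≠ ⊤ ∧
      ∀ z, g z ∈ W ↔ z ∈ W := by
  classical
  have hgal := hc.gal
  obtain ⟨x₀, hx₀⟩ : ∃ x, g x ≠ x := by
    by_contra hcon
    push Not at hcon
    exact hne (AlgEquiv.ext hcon)
  obtain ⟨ζ, hζ, v, -, hv0, hv⟩ := exists_eigenvector hℓ hg (N := ⊤) (fun x _ => trivial)
    (x := x₀) trivial hx₀
  have hlev : ∀ S : Finset U, ∃ A : Set U, (∀ c : E, algebraMap E U c ∈ A) ∧
      (∀ x ∈ A, ∀ y ∈ A, x + y ∈ A) ∧ (∀ x ∈ A, ∀ y ∈ A, x * y ∈ A) ∧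
      (∀ x ∈ S, x ∈ A ∨ x⁻¹ ∈ A) ∧ (∀ x ∈ A, g x ∈ A) ∧ ¬ (v ∈ A ∧ v⁻¹ ∈ A) := by
    intro S
    obtain ⟨N', hfin, -, hSN, hgN'⟩ := exists_level M g hgM hℓ.pos hg (insert x₀ (insert v S))
    let N : IntermediateField E U := N'.restrictScalars E
    have hN : IsFunctionField E N := isFunctionField_restrictScalars hc.ff N'
    have hgN : ∀ x ∈ N, g x ∈ N := hgN'
    have hx₀N : x₀ ∈ N := hSN _ (Finset.mem_insert_self _ _)
    have hvN : v ∈ N := hSN _ (Finset.mem_insert_of_mem (Finset.mem_insert_self _ _))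
    obtain ⟨P, hP⟩ := exists_fixed_level hc.root hdiv hℓ hg hN hgN ⟨x₀, hx₀N, hx₀⟩
    refine ⟨{x | ∃ h : x ∈ N, (⟨x, h⟩ : N) ∈ P.ring}, ?_, ?_, ?_, ?_, ?_, ?_⟩
    · intro c
      exact ⟨N.algebraMap_mem c, P.algebraMap_mem c⟩
    · rintro x ⟨hx, hx'⟩ y ⟨hy, hy'⟩
      exact ⟨add_mem hx hy, P.ring.add_mem _ _ hx' hy'⟩
    · rintro x ⟨hx, hx'⟩ y ⟨hy, hy'⟩
      exact ⟨mul_mem hx hy, P.ring.mul_mem _ _ hx' hy'⟩
    · intro x hx
      have hxN : x ∈ N := hSN _ (Finset.mem_insert_of_mem (Finset.mem_insert_of_mem hx))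
      rcases P.ring.mem_or_inv_mem (⟨x, hxN⟩ : N) with h | h
      · exact Or.inl ⟨hxN, h⟩
      · exact Or.inr ⟨inv_mem hxN, h⟩
    · rintro x ⟨hx, hx'⟩
      exact ⟨hgN x hx, hP _ hx'⟩
    · rintro ⟨⟨h1, h2⟩, ⟨h3, h4⟩⟩
      let σ := resAut g hgN hℓ.pos hg
      have hPσ : ∀ (j : ℕ) (x : N), x ∈ P.ring → (σ ^ j) x ∈ P.ring := by
        intro j
        induction j with
        | zero => intro x hx; exact hx
        | succ j ih =>
          intro x hx
          rw [pow_succ', AlgEquiv.mul_apply]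
          exact hP _ (ih x hx)
      have hinvσ : ∀ x : N, σ x ∈ P.ring → x ∈ P.ring := by
        intro x hx
        have h5 := hPσ (ℓ - 1) _ hx
        rw [← AlgEquiv.mul_apply, ← pow_succ, Nat.sub_add_cancel hℓ.pos,
          resAut_pow g hgN hℓ.pos hg] at h5
        exact h5
      refine not_unit_of_fixed (E := E) (R := P.ring) (σ := σ) (v := ⟨v, h1⟩) (ξ := ζ) ?_
        P.algebraMap_mem ?_ ?_ (hζ.ne_one hℓ.one_lt) (Subtype.ext hv) h2 ?_
      · intro c x
        rw [map_add, AlgEquiv.commutes]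
      · intro x hx
        exact FF.exists_residue hN P hx
      · intro x hx
        rw [ValuationSubring.mem_nonunits_iff_or] at hx ⊢
        rcases hx with rfl | hx
        · exact Or.inl (map_zero σ)
        · right
          intro h
          rw [← map_inv₀] at h
          exact hx (hinvσ _ h)
      · intro h
        rw [ValuationSubring.mem_nonunits_iff_or] at h
        rcases h with h | h
        · exact hv0 (congrArg Subtype.val h)
        · exact h h4
  choose A hAE hAadd hAmul hAinv hAg hAv using hlev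
  obtain ⟨W, f, hW⟩ := exists_limit A (fun S => by simpa using hAE S 0)
    (fun S => by simpa using hAE S 1) hAadd hAmul (fun S x hx => by
      have h1 := hAmul S _ (hAE S (-1)) x hx
      rwa [map_neg, map_one, neg_one_mul] at h1) hAinv
  have hWg : ∀ z, z ∈ W → g z ∈ W := by
    intro z hz
    rw [hW] at hz ⊢
    exact hz.mono fun S h => hAg S z h
  have hWgj : ∀ (j : ℕ) (z : U), z ∈ W → (g ^ j) z ∈ W := by
    intro j
    induction j with
    | zero => intro z hz; exact hz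
    | succ j ih =>
      intro z hz
      rw [pow_succ', AlgEquiv.mul_apply]
      exact hWg _ (ih z hz)
  refine ⟨W, fun c => ?_, ?_, fun z => ⟨fun hz => ?_, hWg z⟩⟩
  · rw [hW]
    exact Filter.Eventually.of_forall fun S => hAE S c
  · intro htop
    have h1 : v ∈ W := by rw [htop]; trivial
    have h2 : v⁻¹ ∈ W := by rw [htop]; trivial
    rw [hW] at h1 h2
    obtain ⟨S, hS⟩ := (h1.and h2).exists
    exact hAv S hS
  · have h5 := hWgj (ℓ - 1) _ hz
    rw [← AlgEquiv.mul_apply, ← pow_succ, Nat.sub_add_cancel hℓ.pos, hg] at h5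
    exact h5

end Level

end Pool.Agent.SC
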