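import Mathlib
import Pool.Agent.Helper26.VC.Defs
import Pool.Agent.Helper91.Section.Basic

/-!
# Twisted forms of constant curves and their Galois sections: definitions

`K / k` is the function field of a curve `X`, `F` is a subfield of `k`, and `E` is the algebraic
closure of `F` in the algebraic closure of `K`.
-/

universe u

namespace Pool.Agent.SC

open Pool.Agent.Helper91.Sect

/-! ### Twisted forms -/

/-- The subfield `M` of the algebraic closure of `K` is the function field of a curve over the
algebraic closure `E` of `F`: it is generated over `E` by finitely many elements, and it has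
transcendence degree one over `F`. -/
structure CurveOverE (F K : Type u) [Field F] [Field K] [Algebra F K]
    (M : Subfield (AlgebraicClosure K)) : Prop where
  /-- `M` is generated by `E` and finitely many elements -/
  generated : ∃ S : Finset (AlgebraicClosure K),
    M = Subfield.closure ({c | IsAlgebraic F c} ∪ S)
  /-- `M` is algebraic over `F(t)` for some transcendental element `t` of `M` -/
  trdeg_one : ∃ t ∈ M, Transcendental F t ∧
    ∀ z ∈ M, IsAlgebraic (IntermediateField.adjoin F {t}) z

/-- The curve with function field `M` over `E` is not rational: `M ≠ E(y)` for all `y`. -/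
def NotRational (F K : Type u) [Field F] [Field K] [Algebra F K]
    (M : Subfield (AlgebraicClosure K)) : Prop :=
  ∀ y : AlgebraicClosure K, M ≠ Subfield.closure ({c | IsAlgebraic F c} ∪ {y})

/-- The curve over `k` with function field `K` is a twisted form of the curve with function field
`M`: over the algebraic closure `kbar` of `k` the two curves become isomorphic
(`kbar M = kbar K`), and `M` is preserved by all automorphisms over `K`, that is, the descent
datum on the curve over `kbar` comes from automorphisms of `M`. -/
structure TwistedForm (k K : Type u) [Field k] [Field K] [Algebra k K]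
    (M : Subfield (AlgebraicClosure K)) : Prop where
  /-- `kbar M = kbar K` -/
  compositum : Subfield.closure ({c | IsAlgebraic k c} ∪ M) =
    Subfield.closure ({c | IsAlgebraic k c} ∪ Set.range (algebraMap K (AlgebraicClosure K)))
  /-- `M` is stable under the Galois group of `K` -/
  stable : ∀ ρ : AlgebraicClosure K ≃ₐ[K] AlgebraicClosure K, ∀ m ∈ M, ρ m ∈ M

/-- Some automorphism over `K` which is the identity on `E` moves an element of `M`: the twisted
form is not constant over `k E`. -/
def NotConstant (F K : Type u) [Field F] [Field K] [Algebra F K]
    (M : Subfield (AlgebraicClosure K)) : Prop :=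
  ∃ ρ : AlgebraicClosure K ≃ₐ[K] AlgebraicClosure K,
    (∀ z : AlgebraicClosure K, IsAlgebraic F z → ρ z = z) ∧ ∃ m ∈ M, ρ m ≠ m

/-- The splitting field `Λ` of the twisted form: the elements algebraic over `k` which are fixed
by all automorphisms over `K` which are the identity on `M`. -/
def splittingField (k : Type u) {K : Type u} [Field k] [Field K] [Algebra k K]
    (M : Subfield (AlgebraicClosure K)) : Set (AlgebraicClosure K) :=
  {z | IsAlgebraic k z ∧
    ∀ ρ : AlgebraicClosure K ≃ₐ[K] AlgebraicClosure K, (∀ m ∈ M, ρ m = m) → ρ z = z}

/-! ### Places of an algebraic extension `C` of `k` -/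

/-- `W` is a valuation ring of `C` containing `F`, and the residue field of its trace on `k` is
finitely generated. -/
def IsPlaceOver (F k : Type u) {C : Type u} [Field F] [Field k] [Field C] [Algebra F k]
    [Algebra k C] (W : ValuationSubring C) : Prop :=
  (∀ c : F, algebraMap F k c ∈ W.comap (algebraMap k C)) ∧
    ∃ S : Finset (IsLocalRing.ResidueField (W.comap (algebraMap k C))),
      Subfield.closure (S : Set (IsLocalRing.ResidueField (W.comap (algebraMap k C)))) = ⊤

/-- `τ` belongs to the decomposition group of `W`. -/
def InDecomp {k C : Type u} [Field k] [Field C] [Algebra k C] (W : ValuationSubring C)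
    (τ : C ≃ₐ[k] C) : Prop :=
  ∀ z : C, τ z ∈ W ↔ z ∈ W

/-- `τ` belongs to the inertia group of `W`: it belongs to the decomposition group, and it acts
trivially on the residue field of `W`. -/
def InInert {k C : Type u} [Field k] [Field C] [Algebra k C] (W : ValuationSubring C)
    (τ : C ≃ₐ[k] C) : Prop :=
  InDecomp W τ ∧ ∀ z ∈ W, τ z - z ∈ W.nonunits

/-- Let `Λ` be a subfield of `C` containing `k`.  Every extension of `Λ` in `C` which is
unramified, and in which the places ramified in `Λ / k` split completely, is trivial.

More precisely: an element of `C` lies in `Λ` if it is fixed by all `τ` in `Gal(C / Λ)` which,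
for some place `W`, belong to the inertia group of `W`, or belong to the decomposition group of
`W` if some element of the inertia group of `W` moves an element of `Λ`. -/
def IsSplitClosed (F k : Type u) {C : Type u} [Field F] [Field k] [Field C] [Algebra F k]
    [Algebra k C] (Λ : Set C) : Prop :=
  ∀ z : C, (∀ W : ValuationSubring C, IsPlaceOver F k W → ∀ τ : C ≃ₐ[k] C,
    (InInert W τ ∨ InDecomp W τ ∧ ∃ σ : C ≃ₐ[k] C, InInert W σ ∧ ∃ x ∈ Λ, σ x ≠ x) →
      (∀ x ∈ Λ, τ x = x) → τ z = z) → z ∈ Λ

/-- The field `k` is a rational function field `F(t)` of one variable over `F`, and `Λ` is a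
rational function field `E(u)` of one variable over the algebraic closure `E` of `F` in `C`. -/
def IsRationalCase (F k : Type u) {C : Type u} [Field F] [Field k] [Field C] [Algebra F k]
    [Algebra F C] (Λ : Set C) : Prop :=
  (∃ t : k, Transcendental F t ∧ IntermediateField.adjoin F {t} = ⊤) ∧
    ∃ u : C, Transcendental F u ∧ Λ = Subfield.closure ({z : C | IsAlgebraic F z} ∪ {u})

/-- The twisted form is ramified at the valuation ring `W` of `kbar`: some automorphism over `K`
which moves an element of `M` acts on `kbar` as an element of the inertia group of `W`. -/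
def RamifiedAt {k K : Type u} [Field k] [Field K] [Algebra k K] (W : ValuationSubring (kbar k K))
    (M : Subfield (AlgebraicClosure K)) : Prop :=
  ∃ (τ : Gk k K) (ρ : AlgebraicClosure K ≃ₐ[K] AlgebraicClosure K), InInert W τ ∧
    (∀ z : kbar k K, (τ z : AlgebraicClosure K) = ρ z) ∧ ∃ m ∈ M, ρ m ≠ m

/-! ### Geometric sections -/

/-- The homomorphism `f` from a group `G` to the automorphism group of an extension `U` of the
function field `K` stabilises a nontrivial valuation ring `V` of `U` which contains all elements
algebraic over `k`, and the residue field of the place of `K` below `V` is `k`. -/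
def FixesRationalPlace (k : Type u) {K U G : Type u} [Field k] [Field K] [Field U] [Algebra k K]
    [Algebra K U] [Algebra k U] [Group G] (f : G →* (U ≃ₐ[K] U)) : Prop :=
  ∃ V : ValuationSubring U, V ≠ ⊤ ∧ (∀ c : U, IsAlgebraic k c → c ∈ V) ∧
    (∀ (γ : G) (w : U), f γ w ∈ V ↔ w ∈ V) ∧
    ∀ z : K, algebraMap K U z ∈ V →
      ∃ c : k, algebraMap K U (z - algebraMap k K c) ∈ V.nonunits

/-- The Galois section `s` is geometric: its image stabilises a nontrivial valuation ring `V` of
`Kur` containing `kbar` (a point of the universal cover of the curve), and `V` lies over a place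
of `K` with residue field `k` (a `k`-rational point of the curve). -/
def IsGeometric {k K : Type u} [Field k] [Field K] [Algebra k K] (s : GaloisSection k K) : Prop :=
  FixesRationalPlace k s.toHom

/-- The restriction of the homomorphism `f` to the subset `D` of `G` stabilises a nontrivial
valuation ring `V` of `U` which contains all elements algebraic over `k`, and the residue field of
the place of `K` below `V` consists of elements of `Λ` which are fixed by `D`. -/
def FixesPlaceOn (k : Type u) {K U G : Type u} [Field k] [Field K] [Field U] [Algebra K U]
    [Algebra k U] [Group G] (f : G →* (U ≃ₐ[K] U)) (D : Set G) (Λ : Set U) : Prop :=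
  ∃ V : ValuationSubring U, V ≠ ⊤ ∧ (∀ c : U, IsAlgebraic k c → c ∈ V) ∧
    (∀ γ ∈ D, ∀ w : U, f γ w ∈ V ↔ w ∈ V) ∧
    ∀ z : K, algebraMap K U z ∈ V →
      ∃ c ∈ Λ, (∀ γ ∈ D, f γ c = c) ∧ algebraMap K U z - c ∈ V.nonunits

/-- The restriction of the Galois section `s` to the decomposition group `D` of the valuation
ring `W` of `kbar` is geometric: it stabilises a nontrivial valuation ring `V` of `Kur` containing
`kbar`, and the residue field of the place of `K` below `V` consists of elements of the set `Λ`
which are fixed by `D`. -/
def IsGeometricAt {k K : Type u} [Field k] [Field K] [Algebra k K] (s : GaloisSection k K)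
    (W : ValuationSubring (kbar k K)) (Λ : Set (AlgebraicClosure K)) : Prop :=
  FixesPlaceOn k s.toHom {γ : Gk k K | InDecomp W γ} {c : Kur k K | (c : AlgebraicClosure K) ∈ Λ}

end Pool.Agent.SC
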