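import Mathlib
import Pool.Agent.SC.Defs3
import Pool.Agent.SC.Cov

/-!
# MP_e66f84_ag: function fields of the form `C K0 (y)` (block C1)
-/

universe u

set_option linter.unusedSectionVars false

namespace Pool.Agent.SC

open VC Module Pool.Agent.Helper91.Sect IntermediateField

section Gen

variable {k K C M : Type u} [Field k] [Field K] [Field C] [Field M] [Algebra k K] [Algebra k C]
  [Algebra k M] [Algebra C M] [Algebra K M] [IsScalarTower k C M] [IsScalarTower k K M]

/-- `M = C K (y)` with `y ^ n` in `C K` is a function field over `C` if `K` is a function field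
over `k` and transcendental elements of `K` stay transcendental over `C`. -/
theorem isFunctionField_compositum (hK : IsFunctionField k K)
    (htr : ∀ z : K, Transcendental k z → Transcendental C (algebraMap K M z))
    {y : M} {n : ℕ} (hn : 0 < n)
    (hy : y ^ n ∈ IntermediateField.adjoin C (Set.range (algebraMap K M)))
    (h : IntermediateField.adjoin C (Set.range (algebraMap K M) ∪ {y}) = ⊤) :
    IsFunctionField C M := by
  obtain ⟨t, ht, hfin⟩ := hK
  refine ⟨algebraMap K M t, htr t ht, ?_⟩
  let A := C⟮algebraMap K M t⟯
  -- the elements of `K`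
  have hle : ∀ x ∈ k⟮t⟯, algebraMap K M x ∈ A := by
    have h1 : k⟮t⟯ ≤ (A.restrictScalars k).comap (IsScalarTower.toAlgHom k K M) := by
      rw [IntermediateField.adjoin_simple_le_iff]
      exact IntermediateField.mem_adjoin_simple_self C (algebraMap K M t)
    exact fun x hx => h1 hx
  let f : k⟮t⟯ →+* A :=
    ((algebraMap K M).comp (algebraMap k⟮t⟯ K)).codRestrict A.toSubring
      (fun x => hle x x.2)
  have halg : ∀ x : K, IsIntegral A (algebraMap K M x) := by
    intro x
    obtain ⟨p, hp, hp0⟩ := Algebra.IsIntegral.isIntegral (R := k⟮t⟯) x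
    refine ⟨p.map f, hp.map f, ?_⟩
    rw [Polynomial.eval₂_map]
    have h1 : (algebraMap A M).comp f = (algebraMap K M).comp (algebraMap k⟮t⟯ K) := rfl
    rw [h1, ← Polynomial.hom_eval₂, hp0, map_zero]
  let b := Module.finBasis k⟮t⟯ K
  let T : Set M := Set.range (fun i => algebraMap K M (b i))
  have hT : Finite T := Set.finite_range _
  have hfd : FiniteDimensional A (IntermediateField.adjoin A T) :=
    IntermediateField.finiteDimensional_adjoin (by
      rintro _ ⟨i, rfl⟩
      exact halg _)
  have hKT : ∀ x : K, algebraMap K M x ∈ IntermediateField.adjoin A T := by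
    intro x
    rw [← b.sum_repr x, map_sum]
    refine sum_mem fun i _ => ?_
    rw [Algebra.smul_def, map_mul]
    refine mul_mem ?_ (IntermediateField.subset_adjoin A T ⟨i, rfl⟩)
    exact (IntermediateField.adjoin A T).algebraMap_mem (f (b.repr x i))
  have hyi : IsIntegral A y := by
    have h1 : IntermediateField.adjoin C (Set.range (algebraMap K M)) ≤
        (IntermediateField.adjoin A T).restrictScalars C := by
      rw [IntermediateField.adjoin_le_iff]
      rintro _ ⟨x, rfl⟩
      exact hKT x
    have h2 : IsIntegral A (⟨y ^ n, h1 hy⟩ : IntermediateField.adjoin A T) :=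
      Algebra.IsIntegral.isIntegral _
    have h3 : IsIntegral A (y ^ n) := h2.map (IntermediateField.adjoin A T).val
    exact h3.of_pow hn
  have hT' : Finite (T ∪ {y} : Set M) := Set.Finite.union hT (Set.finite_singleton y)
  have hfd' : FiniteDimensional A (IntermediateField.adjoin A (T ∪ {y})) :=
    IntermediateField.finiteDimensional_adjoin (by
      rintro _ (⟨i, rfl⟩ | rfl)
      · exact halg _
      · exact hyi)
  have htop : IntermediateField.adjoin A (T ∪ {y}) = ⊤ := by
    have h1 : (⊤ : IntermediateField C M) ≤
        (IntermediateField.adjoin A (T ∪ {y})).restrictScalars C := by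
      rw [← h, IntermediateField.adjoin_le_iff]
      rintro _ (⟨x, rfl⟩ | rfl)
      · exact IntermediateField.adjoin.mono A T _ Set.subset_union_left (hKT x)
      · exact IntermediateField.subset_adjoin A _ (Set.mem_union_right _ rfl)
    rw [eq_top_iff]
    intro x _
    exact h1 (IntermediateField.mem_top (x := x))
  rw [htop] at hfd'
  exact Module.Finite.equiv (IntermediateField.topEquiv (F := A) (E := M)).toLinearEquiv

end Gen

section Exchange

theorem isAlgebraic_of_range_le {A A' B : Type*} [Field A] [Field A'] [Field B] [Algebra A B]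
    [Algebra A' B] (h : ∀ a : A, algebraMap A B a ∈ (algebraMap A' B).range) {x : B}
    (hx : IsAlgebraic A x) : IsAlgebraic A' x := by
  obtain ⟨p, hp0, hp⟩ := hx
  have h1 : p.map (algebraMap A B) ∈ Polynomial.lifts (algebraMap A' B) := by
    rw [Polynomial.lifts_iff_coeff_lifts]
    intro n
    rw [Polynomial.coeff_map]
    obtain ⟨a, ha⟩ := h (p.coeff n)
    exact ⟨a, ha⟩
  obtain ⟨q, hq⟩ := (Polynomial.mem_lifts _).1 h1
  refine ⟨q, ?_, ?_⟩
  · rintro rfl
    rw [Polynomial.map_zero] at hq
    exact hp0 ((Polynomial.map_eq_zero _).1 hq.symm)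
  · rw [← Polynomial.eval_map_algebraMap, hq, Polynomial.eval_map_algebraMap, hp]

/-- The exchange lemma for two elements. -/
theorem transcendental_exchange {F k K : Type*} [Field F] [Field k] [Field K] [Algebra F k]
    [Algebra k K] [Algebra F K] [IsScalarTower F k K] {t : k}
    (htop : IntermediateField.adjoin F {t} = ⊤) {K1 : IntermediateField F K}
    (ht1 : Transcendental K1 (algebraMap k K t)) {z : K1} (hz : Transcendental F z) :
    Transcendental k (z : K) := by
  have h1 : AlgebraicIndependent F (Sum.elim (fun _ : Unit => algebraMap k K t)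
      (fun _ : Unit => (z : K))) := by
    have h2 : AlgebraicIndependent F (fun _ : Unit => z) :=
      algebraicIndependent_unique_type_iff.2 hz
    have h3 : AlgebraicIndependent K1 (fun _ : Unit => algebraMap k K t) :=
      algebraicIndependent_unique_type_iff.2 ht1
    exact h2.sumElim_comp h3
  have h2 : AlgebraicIndependent F (Sum.elim (fun _ : Unit => (z : K))
      (fun _ : Unit => algebraMap k K t)) := by
    have h3 := h1.comp (Sum.swap) Sum.swap_leftInverse.injective
    convert h3 using 1
    ext (x | x) <;> rfl
  have h3 := (AlgebraicIndependent.sumElim_iff.1 h2).2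
  rw [algebraicIndependent_unique_type_iff, Set.range_const,
    ← IntermediateField.transcendental_adjoin_iff] at h3
  intro h4
  apply h3
  refine isAlgebraic_of_range_le (fun a => ?_) h4
  have h5 : (⊤ : IntermediateField F k) ≤ (IntermediateField.adjoin F
      {algebraMap k K t}).comap (IsScalarTower.toAlgHom F k K) := by
    rw [← htop, IntermediateField.adjoin_simple_le_iff]
    exact IntermediateField.mem_adjoin_simple_self F (algebraMap k K t)
  exact ⟨⟨algebraMap k K a, h5 (IntermediateField.mem_top (x := a))⟩, rfl⟩

end Exchange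

section Twist

variable {F k K : Type u} [Field F] [Field k] [Field K] [Algebra F k]
  [Algebra k K] [Algebra F K] [IsScalarTower F k K]

theorem scalarTower_kbar : IsScalarTower F (kbar k K) (AlgebraicClosure K) :=
  IsScalarTower.of_algebraMap_eq fun c => by
    rw [IsScalarTower.algebraMap_apply F k (AlgebraicClosure K),
      IsScalarTower.algebraMap_apply F k (kbar k K)]
    rfl

variable {E : Type u} [Field E] [Algebra F E] [Algebra E (kbar k K)]
  [Algebra E (AlgebraicClosure K)] [IsScalarTower E (kbar k K) (AlgebraicClosure K)]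
  [IsScalarTower F E (kbar k K)]

theorem scalarTower_E (F k K E : Type u) [Field F] [Field k] [Field K] [Algebra F k]
    [Algebra k K] [Algebra F K] [IsScalarTower F k K] [Field E] [Algebra F E]
    [Algebra E (kbar k K)]
    [Algebra E (AlgebraicClosure K)] [IsScalarTower E (kbar k K) (AlgebraicClosure K)]
    [IsScalarTower F E (kbar k K)] : IsScalarTower F E (AlgebraicClosure K) :=
  IsScalarTower.of_algebraMap_eq fun c => by
    have := scalarTower_kbar (F := F) (k := k) (K := K)
    rw [IsScalarTower.algebraMap_apply F (kbar k K) (AlgebraicClosure K),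
      IsScalarTower.algebraMap_apply F E (kbar k K), ← IsScalarTower.algebraMap_apply E]

/-- The function field of the twist. -/
noncomputable def MT {F K : Type u} (E : Type u) [Field F] [Field K]
    [Algebra F K] [Field E] [Algebra E (AlgebraicClosure K)]
    (K1 : IntermediateField F K) (y1 : AlgebraicClosure K) :
    IntermediateField E (AlgebraicClosure K) :=
  IntermediateField.adjoin E (algebraMap K (AlgebraicClosure K) '' K1 ∪ {y1})

omit [Field k] [Algebra F k] [Algebra k K] [IsScalarTower F k K] [Algebra F E]
  [Algebra E (kbar k K)]  [IsScalarTower E (kbar k K) (AlgebraicClosure K)]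
  [IsScalarTower F E (kbar k K)] in
theorem K1_mem_MT {K1 : IntermediateField F K} {y1 : AlgebraicClosure K} {x : K} (hx : x ∈ K1) :
    algebraMap K (AlgebraicClosure K) x ∈ MT E K1 y1 :=
  IntermediateField.subset_adjoin _ _ (Or.inl ⟨x, hx, rfl⟩)

omit [Field k] [Algebra F k] [Algebra k K] [IsScalarTower F k K] [Algebra F E]
  [Algebra E (kbar k K)]  [IsScalarTower E (kbar k K) (AlgebraicClosure K)]
  [IsScalarTower F E (kbar k K)] in
theorem y1_mem_MT {K1 : IntermediateField F K} {y1 : AlgebraicClosure K} : y1 ∈ MT E K1 y1 :=
  IntermediateField.subset_adjoin _ _ (Or.inr rfl)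

variable {t : k} (htop : IntermediateField.adjoin F {t} = ⊤) {K1 : IntermediateField F K}
  (hK1 : IsFunctionField F K1) (ht1 : Transcendental K1 (algebraMap k K t)) {n : ℕ} (hn : 0 < n)
  {y g : K} (hg : g ∈ K1) (hy : algebraMap k K t * y ^ n = g) (hg0 : g ≠ 0)
  (hgen : IntermediateField.adjoin k ((K1 : Set K) ∪ {y}) = ⊤)
  {s1 : kbar k K} (hs : s1 ^ n = algebraMap k (kbar k K) t)

include htop hK1 ht1 hn hg hy hg0 hgen in
theorem twist_ffK : IsFunctionField k K := by
  have hrange : Set.range (algebraMap K1 K) = (K1 : Set K) := Subtype.range_coe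
  refine isFunctionField_compositum (k := F) (K := K1) (C := k) (M := K) hK1
    (fun z hz => transcendental_exchange htop ht1 hz) hn (y := y) ?_ ?_
  · have ht0 : algebraMap k K t ≠ 0 := by
      intro h0
      rw [h0, zero_mul] at hy
      exact hg0 hy.symm
    have h1 : y ^ n = g * (algebraMap k K t)⁻¹ := by
      rw [← hy]; field_simp
    rw [h1]
    refine mul_mem (IntermediateField.subset_adjoin _ _ ⟨⟨g, hg⟩, rfl⟩) (inv_mem ?_)
    exact (IntermediateField.adjoin k _).algebraMap_mem t
  · rw [hrange]; exact hgen

include hy hs in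
theorem y1_pow : ((s1 : AlgebraicClosure K) * algebraMap K (AlgebraicClosure K) y) ^ n =
    algebraMap K (AlgebraicClosure K) g := by
  have h1 : (s1 : AlgebraicClosure K) ^ n = algebraMap K (AlgebraicClosure K)
      (algebraMap k K t) := by
    rw [← IsScalarTower.algebraMap_apply]
    exact congrArg Subtype.val hs
  rw [mul_pow, h1, ← hy, map_mul, map_pow]

include hK1 hn hg hy hs in
theorem twist_ff [Algebra.IsAlgebraic F E] : IsFunctionField E
    (MT E K1 ((s1 : AlgebraicClosure K) * algebraMap K (AlgebraicClosure K) y)) := by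
  have hy1 := y1_pow hy hs
  set y1 := (s1 : AlgebraicClosure K) * algebraMap K (AlgebraicClosure K) y
  have hFE := scalarTower_E F k K E
  let M := MT E K1 y1
  let i1 : Algebra K1 M := (((algebraMap K (AlgebraicClosure K)).comp
    (algebraMap K1 K)).codRestrict M.toSubring (fun x => K1_mem_MT x.2)).toAlgebra
  have st1 : IsScalarTower F K1 M := IsScalarTower.of_algebraMap_eq fun c => by
    apply Subtype.ext
    change algebraMap F (AlgebraicClosure K) c = algebraMap K (AlgebraicClosure K)
      (algebraMap K1 K (algebraMap F K1 c))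
    rw [← IsScalarTower.algebraMap_apply F K1 K, ← IsScalarTower.algebraMap_apply]
  have hco : ∀ x : K1, ((algebraMap K1 M x : M) : AlgebraicClosure K) =
    algebraMap K (AlgebraicClosure K) x := fun x => rfl
  refine isFunctionField_compositum (k := F) (K := K1) (C := E) (M := M) hK1
    (fun z hz => ?_) hn (y := ⟨y1, y1_mem_MT⟩) ?_ ?_
  · have h1 : Transcendental F (algebraMap K1 M z) :=
      (transcendental_algebraMap_iff (algebraMap K1 M).injective).mpr hz
    exact h1.extendScalars E
  · have h1 : (⟨y1, y1_mem_MT⟩ : M) ^ n = algebraMap K1 M ⟨g, hg⟩ := Subtype.ext hy1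
    rw [h1]
    exact IntermediateField.subset_adjoin _ _ ⟨_, rfl⟩
  · apply IntermediateField.map_injective M.val
    rw [IntermediateField.adjoin_map, ← AlgHom.fieldRange_eq_map,
      IntermediateField.fieldRange_val, Set.image_union, Set.image_singleton, ← Set.range_comp]
    have h1 : Set.range (M.val ∘ algebraMap K1 M) = algebraMap K (AlgebraicClosure K) '' K1 := by
      ext x
      constructor
      · rintro ⟨z, rfl⟩
        exact ⟨z, z.2, rfl⟩
      · rintro ⟨z, hz, rfl⟩
        exact ⟨⟨z, hz⟩, rfl⟩
    rw [h1]
    rfl

omit [Field F] [Algebra F k] [Algebra F K] [IsScalarTower F k K] [Algebra F E]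
  [Algebra E (kbar k K)] [IsScalarTower E (kbar k K) (AlgebraicClosure K)]
  [IsScalarTower F E (kbar k K)] in
theorem algebraMap_mem_KK' (x : K) : algebraMap K (AlgebraicClosure K) x ∈ KK k K :=
  IntermediateField.subset_adjoin _ _ ⟨x, rfl⟩

include hgen hs hy hg0 hn in
theorem twist_comp : IntermediateField.adjoin (kbar k K)
    (MT E K1 ((s1 : AlgebraicClosure K) * algebraMap K (AlgebraicClosure K) y) :
      Set (AlgebraicClosure K)) = KK k K := by
  have hs0 : s1 ≠ 0 := by
    rintro rfl
    rw [zero_pow hn.ne'] at hs
    have h1 : t = 0 := (algebraMap k (kbar k K)).injective (by rw [← hs, map_zero])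
    rw [h1, map_zero, zero_mul] at hy
    exact hg0 hy.symm
  apply le_antisymm
  · rw [IntermediateField.adjoin_le_iff]
    have h1 : MT E K1 ((s1 : AlgebraicClosure K) * algebraMap K (AlgebraicClosure K) y) ≤
        { (KK k K).toSubfield with
          algebraMap_mem' := fun c => by
            rw [IsScalarTower.algebraMap_apply E (kbar k K) (AlgebraicClosure K)]
            exact (KK k K).algebraMap_mem _ } := by
      refine IntermediateField.adjoin_le_iff.2 ?_
      have h3 : (s1 : AlgebraicClosure K) * algebraMap K (AlgebraicClosure K) y ∈ KK k K :=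
        mul_mem ((KK k K).algebraMap_mem s1) (algebraMap_mem_KK' y)
      rintro _ (⟨x, -, rfl⟩ | rfl)
      · have h2 : algebraMap K (AlgebraicClosure K) x ∈ KK k K := algebraMap_mem_KK' x
        exact h2
      · exact h3
    exact h1
  · refine IntermediateField.adjoin_le_iff.2 ?_
    rintro _ ⟨x, rfl⟩
    set N := IntermediateField.adjoin (kbar k K)
      (MT E K1 ((s1 : AlgebraicClosure K) * algebraMap K (AlgebraicClosure K) y) :
      Set (AlgebraicClosure K)) with hN
    have h1 : (⊤ : IntermediateField k K) ≤ (N.restrictScalars k).comap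
        (IsScalarTower.toAlgHom k K (AlgebraicClosure K)) := by
      rw [← hgen, IntermediateField.adjoin_le_iff]
      rintro x (hx | rfl)
      · exact IntermediateField.subset_adjoin _ _ (K1_mem_MT hx)
      · change algebraMap K (AlgebraicClosure K) x ∈ N
        have h2 : algebraMap K (AlgebraicClosure K) x = (algebraMap (kbar k K)
            (AlgebraicClosure K) s1)⁻¹ * ((s1 : AlgebraicClosure K) *
            algebraMap K (AlgebraicClosure K) x) := by
          change _ = (s1 : AlgebraicClosure K)⁻¹ * _
          rw [inv_mul_cancel_left₀]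
          exact fun h => hs0 (Subtype.ext h)
        rw [h2]
        exact mul_mem (inv_mem (N.algebraMap_mem s1))
          (IntermediateField.subset_adjoin _ _ y1_mem_MT)
    exact h1 (IntermediateField.mem_top (x := x))

include ht1 hg hy hs hn in
theorem twist_tr [Algebra.IsAlgebraic F E] : Transcendental
    (MT E K1 ((s1 : AlgebraicClosure K) * algebraMap K (AlgebraicClosure K) y))
    (algebraMap k (AlgebraicClosure K) t) := by
  have hy1 := y1_pow hy hs
  set y1 := (s1 : AlgebraicClosure K) * algebraMap K (AlgebraicClosure K) y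
  have hFE := scalarTower_E F k K E
  have ht2 : Transcendental K1 (algebraMap k (AlgebraicClosure K) t) := by
    rw [IsScalarTower.algebraMap_apply k K (AlgebraicClosure K)]
    exact (transcendental_algebraMap_iff (algebraMap K (AlgebraicClosure K)).injective).2 ht1
  let A := algebraicClosure K1 (AlgebraicClosure K)
  have h1 : MT E K1 y1 ≤
      { A.toSubfield with
        algebraMap_mem' := fun c => by
          change algebraMap E (AlgebraicClosure K) c ∈ A
          rw [mem_algebraicClosure_iff]
          have h2 : IsAlgebraic F (algebraMap E (AlgebraicClosure K) c) :=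
            (Algebra.IsAlgebraic.isAlgebraic (R := F) c).algebraMap
          exact h2.tower_top K1 } := by
    refine IntermediateField.adjoin_le_iff.2 ?_
    rintro _ (⟨x, hx, rfl⟩ | rfl)
    · change algebraMap K (AlgebraicClosure K) x ∈ A
      rw [mem_algebraicClosure_iff]
      exact isAlgebraic_algebraMap (A := AlgebraicClosure K) (⟨x, hx⟩ : K1)
    · change y1 ∈ A
      rw [mem_algebraicClosure_iff]
      refine IsAlgebraic.of_pow hn ?_
      rw [hy1]
      exact isAlgebraic_algebraMap (A := AlgebraicClosure K) (⟨g, hg⟩ : K1)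
  intro h2
  apply ht2
  have h3 : IsAlgebraic A (algebraMap k (AlgebraicClosure K) t) :=
    isAlgebraic_of_range_le (fun a => ⟨⟨a, h1 a.2⟩, rfl⟩) h2
  exact h3.restrictScalars K1

include htop in
theorem twist_alg : Algebra.IsAlgebraic (IntermediateField.adjoin E
    (Set.range (fun _ : PUnit.{u + 1} => algebraMap k (kbar k K) t))) (kbar k K) := by
  refine ⟨fun z => ?_⟩
  have h1 : IsAlgebraic k z := Algebra.IsAlgebraic.isAlgebraic z
  refine isAlgebraic_of_range_le (fun a => ?_) h1
  set A := IntermediateField.adjoin E
    (Set.range (fun _ : PUnit.{u + 1} => algebraMap k (kbar k K) t)) with hA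
  have h5 : (⊤ : IntermediateField F k) ≤ (A.restrictScalars F).comap
      (IsScalarTower.toAlgHom F k (kbar k K)) := by
    rw [← htop, IntermediateField.adjoin_simple_le_iff]
    exact IntermediateField.subset_adjoin E _ ⟨PUnit.unit, rfl⟩
  exact ⟨⟨algebraMap k (kbar k K) a, h5 (IntermediateField.mem_top (x := a))⟩, rfl⟩

include htop hK1 ht1 hn hg hy hg0 hgen hs in
/-- C1.  The twist `t y ^ n = g` over `k = F(t)` is isotrivial. -/
theorem isotrivial_twist [Algebra.IsAlgebraic F E] : Isotrivial k K
    (MT E K1 ((s1 : AlgebraicClosure K) * algebraMap K (AlgebraicClosure K) y))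
    (fun _ : PUnit.{u + 1} => algebraMap k (kbar k K) t) where
  ffK := twist_ffK htop hK1 ht1 hn hg hy hg0 hgen
  ff := twist_ff hK1 hn hg hy hs
  comp := twist_comp hn hy hg0 hgen hs
  tr := algebraicIndependent_unique_type_iff.2 (twist_tr ht1 hn hg hy hs)
  alg := twist_alg htop

end Twist

end Pool.Agent.SC
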