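import Mathlib
import Pool.Agent.SC.Defs2
import Pool.Agent.Helper91.Section.Coeff
import Pool.Agent.Helper91.Section.Inv

/-!
# The condition on the splitting field
-/

universe u

namespace Pool.Agent.SC

open Pool.Agent.Helper91.Sect

/-- Let `Λ` be a subfield of `kbar` containing `k`.  Every extension of `Λ` in `kbar` which is
unramified, and in which the places ramified in `Λ / k` split completely, is trivial.

More precisely: an element of `kbar` lies in `Λ` if it is fixed by all `τ` in `Gal(kbar / Λ)` with
the following property: for some valuation ring `O` of `k` which contains `F` and has a finitely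
generated residue field, and some prime ideal `Q` above it of the integral closure of `O` in
`kbar`, `τ` belongs to the inertia group of `Q`, or `Q` is ramified in `Λ / k` (an element of its
inertia group moves an element of `Λ`) and `τ` belongs to the decomposition group of `Q`. -/
def GenByDecomp (F k K : Type u) [Field F] [Field k] [Field K] [Algebra F k] [Algebra k K]
    (Λ : Set (kbar k K)) : Prop :=
  ∀ z : kbar k K,
    (∀ O : ValuationSubring k, (∀ c : F, algebraMap F k c ∈ O) →
      (∃ S : Finset (IsLocalRing.ResidueField O), Subfield.closure
        (S : Set (IsLocalRing.ResidueField O)) = ⊤) →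
      ∀ (Q : IC O (kbar k K)) (_ : Q.IsPrime), Above Q →
      ∀ τ : Gk k K, (InI Q τ ∨ InD Q τ ∧ ∃ σ : Gk k K, InI Q σ ∧ ∃ x ∈ Λ, σ x ≠ x) →
        (∀ x ∈ Λ, τ x = x) → τ z = z) → z ∈ Λ

end Pool.Agent.SC
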