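import Mathlib
import Pool.Agent.SC.C1

/-!
# MP_e66f84_ag: independence of the constants over the constant model
-/

universe u

set_option linter.unusedSectionVars false

namespace Pool.Agent.SC

open VC Module Pool.Agent.Helper91.Sect IntermediateField

variable {k K : Type u} [Field k] [Field K] [Algebra k K]
  {E : Type u} [Field E] [Algebra E (kbar k K)]
  [Algebra E (AlgebraicClosure K)] [IsScalarTower E (kbar k K) (AlgebraicClosure K)]

/-- A transcendental element of the constant model stays transcendental over `kbar`. -/
theorem exists_transcendental_kbar (ffK : IsFunctionField k K)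
    {M1 : IntermediateField E (AlgebraicClosure K)} (ff : IsFunctionField E M1)
    (comp : IntermediateField.adjoin (kbar k K) (M1 : Set (AlgebraicClosure K)) = KK k K) :
    ∃ z : M1, Transcendental E z ∧ Algebra.IsAlgebraic E⟮z⟯ M1 ∧
      Transcendental (kbar k K) (z : AlgebraicClosure K) := by
  obtain ⟨z, hz, hfin⟩ := ff
  refine ⟨z, hz, Algebra.IsAlgebraic.of_finite _ _, ?_⟩
  intro hzk
  -- all elements of `M1` are in `kbar`
  have hkk : ∀ c : AlgebraicClosure K, IsAlgebraic (kbar k K) c → c ∈ kbar k K := by
    intro c hc
    rw [mem_algebraicClosure_iff]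
    exact hc.restrictScalars k
  have hle : ∀ x ∈ E⟮z⟯, ((x : M1) : AlgebraicClosure K) ∈ kbar k K := by
    have h1 : E⟮z⟯ ≤ ({ (kbar k K).toSubfield with
        algebraMap_mem' := fun c => by
          rw [IsScalarTower.algebraMap_apply E (kbar k K) (AlgebraicClosure K)]
          exact (algebraMap E (kbar k K) c).2 } :
        IntermediateField E (AlgebraicClosure K)).comap M1.val := by
      rw [IntermediateField.adjoin_simple_le_iff]
      exact hkk _ hzk
    exact fun x hx => h1 hx
  have hM : ∀ x : M1, ((x : M1) : AlgebraicClosure K) ∈ kbar k K := by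
    intro x
    apply hkk
    have h1 : IsAlgebraic E⟮z⟯ x := Algebra.IsAlgebraic.isAlgebraic x
    have h2 : IsAlgebraic E⟮z⟯ (x : AlgebraicClosure K) := h1.algebraMap
    exact isAlgebraic_of_range_le (fun a => ⟨⟨_, hle a a.2⟩, rfl⟩) h2
  obtain ⟨t, ht, -⟩ := ffK
  have h1 : KK k K ≤ ⊥ := by
    rw [← comp, IntermediateField.adjoin_le_iff]
    intro x hx
    rw [SetLike.mem_coe, IntermediateField.mem_bot]
    exact ⟨⟨x, hM ⟨x, hx⟩⟩, rfl⟩
  have h2 := h1 (algebraMap_mem_KK' t)
  rw [IntermediateField.mem_bot] at h2
  obtain ⟨c, hc⟩ := h2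
  have h3 : IsAlgebraic k (algebraMap K (AlgebraicClosure K) t) := by
    rw [← hc]
    exact mem_algebraicClosure_iff.1 c.2
  exact ht ((isAlgebraic_algebraMap_iff (algebraMap K (AlgebraicClosure K)).injective).1 h3)

/-- Constants which are algebraically independent over `E` are algebraically independent over the
constant model. -/
theorem indep_of_comp (ffK : IsFunctionField k K)
    {M1 : IntermediateField E (AlgebraicClosure K)} (ff : IsFunctionField E M1)
    (comp : IntermediateField.adjoin (kbar k K) (M1 : Set (AlgebraicClosure K)) = KK k K)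
    {ι : Type u} {x : ι → kbar k K} (hx : AlgebraicIndependent E x) :
    AlgebraicIndependent M1 (fun i => (x i : AlgebraicClosure K)) := by
  obtain ⟨z, hz, hM, hzk⟩ := exists_transcendental_kbar ffK ff comp
  have h1 : AlgebraicIndependent E (Sum.elim (fun _ : Unit => (z : AlgebraicClosure K))
      (fun i => (x i : AlgebraicClosure K))) := by
    have h3 : AlgebraicIndependent (kbar k K) (fun _ : Unit => (z : AlgebraicClosure K)) :=
      algebraicIndependent_unique_type_iff.2 hzk
    exact hx.sumElim_comp h3
  have h2 : AlgebraicIndependent E (Sum.elim (fun i => (x i : AlgebraicClosure K))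
      (fun _ : Unit => (z : AlgebraicClosure K))) := by
    have h3 := h1.comp (Sum.swap) Sum.swap_leftInverse.injective
    convert h3 using 1
    ext (i | i) <;> rfl
  have h3 := (AlgebraicIndependent.sumElim_iff.1 h2).2
  -- the subring generated by `z`
  let R := Algebra.adjoin E (Set.range (fun _ : Unit => (z : AlgebraicClosure K)))
  have hR : ∀ r : R, (r : AlgebraicClosure K) ∈ M1 := by
    have h4 : R ≤ M1.toSubalgebra := by
      refine Algebra.adjoin_le ?_
      rintro _ ⟨_, rfl⟩
      exact z.2
    exact fun r => h4 r.2
  let _ : Algebra R M1 := ((algebraMap R (AlgebraicClosure K)).codRestrict M1.toSubring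
    hR).toAlgebra
  have s1 : IsScalarTower R M1 (AlgebraicClosure K) := IsScalarTower.of_algebraMap_eq fun r => rfl
  have hinj : Function.Injective (algebraMap R M1) := by
    intro a b hab
    exact Subtype.ext (congrArg (fun w : M1 => (w : AlgebraicClosure K)) hab)
  have hz' : algebraMap R M1 ⟨z, Algebra.subset_adjoin ⟨(), rfl⟩⟩ = z := rfl
  -- `M1` is algebraic over `R`
  have s2 : IsScalarTower E R M1 := IsScalarTower.of_algebraMap_eq fun r => rfl
  have hfs : FaithfulSMul R M1 := (faithfulSMul_iff_algebraMap_injective R M1).2 hinj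
  have hRM : Algebra.IsAlgebraic R M1 := by
    have h4 : Algebra.IsAlgebraic (Algebra.adjoin E {z}) M1 := by
      rw [← IntermediateField.isAlgebraic_adjoin_iff_top]
      exact hM
    have h5 : ∀ a ∈ Algebra.adjoin E {z}, ((a : M1) : AlgebraicClosure K) ∈ R := by
      have h6 : Algebra.adjoin E {z} ≤ R.comap M1.val := by
        refine Algebra.adjoin_le ?_
        rintro _ rfl
        exact Algebra.subset_adjoin ⟨(), rfl⟩
      exact fun a ha => h6 ha
    refine ⟨fun a => ?_⟩
    obtain ⟨p, hp0, hp⟩ := h4.isAlgebraic a
    let f : Algebra.adjoin E {z} →+* R :=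
      ((algebraMap M1 (AlgebraicClosure K)).comp (algebraMap (Algebra.adjoin E {z}) M1)).codRestrict
        R.toSubring (fun a => h5 a a.2)
    have hf : Function.Injective f := by
      intro a b hab
      apply Subtype.ext
      apply Subtype.ext
      exact congrArg (fun w : R => (w : AlgebraicClosure K)) hab
    refine ⟨p.map f, (Polynomial.map_ne_zero_iff hf).2 hp0, ?_⟩
    rw [Polynomial.aeval_def, Polynomial.eval₂_map]
    exact hp
  have h4 : AlgebraicIndependent R (fun i => (x i : AlgebraicClosure K)) := h3
  exact h4.extendScalars M1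

/-- An isotrivial curve: only the compositum condition has to be checked. -/
theorem isotrivial_of_comp (ffK : IsFunctionField k K)
    {M1 : IntermediateField E (AlgebraicClosure K)} (ff : IsFunctionField E M1)
    (comp : IntermediateField.adjoin (kbar k K) (M1 : Set (AlgebraicClosure K)) = KK k K)
    {ι : Type u} {x : ι → kbar k K} (hx : IsTranscendenceBasis E x) : Isotrivial k K M1 x where
  ffK := ffK
  ff := ff
  comp := comp
  tr := indep_of_comp ffK ff comp hx.1
  alg := hx.isAlgebraic_field

end Pool.Agent.SC
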