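import Mathlib
import Pool.Agent.Helper17.FF.RR

/-!
# Divisors of degree zero on a rational function field are principal
-/

universe u

namespace Pool.Agent.SC

open VC Module

variable {k F : Type u} [Field k] [IsAlgClosed k] [Field F] [Algebra k F]

omit [IsAlgClosed k] in
theorem transcendental_of_adjoin_top (hF : IsFunctionField k F) {x : F}
    (hx : IntermediateField.adjoin k {x} = ⊤) : Transcendental k x := by
  intro halg
  obtain ⟨t, ht, -⟩ := hF
  have h1 : Algebra.IsAlgebraic k (IntermediateField.adjoin k {x}) :=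
    IntermediateField.isAlgebraic_adjoin_simple halg.isIntegral
  have h2 : t ∈ IntermediateField.adjoin k {x} := by rw [hx]; trivial
  have h3 := h1.isAlgebraic ⟨t, h2⟩
  exact ht ((isAlgebraic_algebraMap_iff (A := F)
    (IntermediateField.adjoin k {x}).val.injective).2 h3)

theorem deg_poles_of_adjoin_top (hF : IsFunctionField k F) {x : F}
    (hx : IntermediateField.adjoin k {x} = ⊤) : FF.deg (FF.poles hF x) = 1 := by
  rw [FF.deg_poles hF (transcendental_of_adjoin_top hF hx)]
  have h1 : finrank (IntermediateField.adjoin k {x}) F = 1 := by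
    rw [hx]
    exact IntermediateField.finrank_top
  rw [h1]
  rfl

omit [IsAlgClosed k] in
/-- a nonnegative divisor of degree one is a point -/
theorem eq_single_of_deg_one {D : Place k F →₀ ℤ} (h0 : ∀ P, 0 ≤ D P) (h1 : FF.deg D = 1) :
    ∃ P, D = Finsupp.single P 1 := by
  obtain ⟨P, hP⟩ := FF.exists_pos_of_deg (D := D) (by omega)
  refine ⟨P, ?_⟩
  have h2 : D - Finsupp.single P 1 = 0 := by
    classical
    apply FF.eq_zero_of_deg
    · intro Q
      rw [Finsupp.sub_apply, Finsupp.single_apply]
      split_ifs with h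
      · subst h; omega
      · have := h0 Q; omega
    · rw [map_sub, h1, FF.deg_single]
      rfl
  exact sub_eq_zero.1 h2

/-- functions with one zero and one pole on a rational function field -/
theorem exists_point_function (hF : IsFunctionField k F) {x : F}
    (hx : IntermediateField.adjoin k {x} = ⊤) :
    ∃ P0 : Place k F, ∀ P : Place k F, ∃ t : F, t ≠ 0 ∧
      FF.dv hF t = Finsupp.single P 1 - Finsupp.single P0 1 := by
  classical
  have htr := transcendental_of_adjoin_top hF hx
  obtain ⟨P0, hP0⟩ := eq_single_of_deg_one (FF.poles_nonneg hF x) (deg_poles_of_adjoin_top hF hx)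
  refine ⟨P0, fun P => ?_⟩
  by_cases hP : P = P0
  · subst hP
    exact ⟨1, one_ne_zero, by rw [FF.dv_one, sub_self]⟩
  have hx0 : x ≠ 0 := by
    rintro rfl
    exact htr isAlgebraic_zero
  have hxP : ∀ Q : Place k F, Q ≠ P0 → x ∈ Q.ring := by
    intro Q hQ
    rw [← FF.ord_nonneg_iff hF Q hx0]
    have h1 := FF.poles_apply hF x Q
    rw [hP0, Finsupp.single_apply, if_neg (Ne.symm hQ)] at h1
    have h2 := le_max_left (- ord Q.ring x) 0
    omega
  obtain ⟨a, ha⟩ := FF.exists_residue hF P (hxP P hP)
  set t := x - algebraMap k F a with ht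
  have ht0 : t ≠ 0 := by
    intro h
    rw [ht, sub_eq_zero] at h
    exact htr (h ▸ isAlgebraic_algebraMap a)
  have htadj : IntermediateField.adjoin k {t} = ⊤ := by
    rw [eq_top_iff, ← hx, IntermediateField.adjoin_simple_le_iff]
    have h1 : x = t + algebraMap k F a := by rw [ht]; ring
    rw [h1]
    exact add_mem (IntermediateField.mem_adjoin_simple_self k t)
      ((IntermediateField.adjoin k {t}).algebraMap_mem a)
  obtain ⟨P1, hP1⟩ := eq_single_of_deg_one (FF.poles_nonneg hF t)
    (deg_poles_of_adjoin_top hF htadj)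
  have htP : ∀ Q : Place k F, Q ≠ P0 → 0 ≤ ord Q.ring t := by
    intro Q hQ
    rw [FF.ord_nonneg_iff hF Q ht0]
    exact sub_mem (hxP Q hQ) (Q.algebraMap_mem a)
  have hP10 : P1 = P0 := by
    by_contra hne
    have h1 := FF.poles_apply hF t P1
    rw [hP1, Finsupp.single_eq_same] at h1
    have h2 := htP P1 hne
    rw [max_eq_right (by omega)] at h1
    omega
  rw [hP10] at hP1
  -- the divisor of zeros
  refine ⟨t, ht0, ?_⟩
  have hpoles : ∀ Q, max (- ord Q.ring t) 0 = Finsupp.single P0 (1 : ℤ) Q := by
    intro Q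
    rw [← hP1, FF.poles_apply]
  have hZ0 : ∀ Q, 0 ≤ (FF.dv hF t + Finsupp.single P0 (1 : ℤ) : Place k F →₀ ℤ) Q := by
    intro Q
    rw [Finsupp.add_apply, FF.dv_apply, ← hpoles Q]
    have := le_max_left (- ord Q.ring t) 0
    omega
  have hZ1 : FF.deg (FF.dv hF t + Finsupp.single P0 (1 : ℤ)) = 1 := by
    rw [map_add, FF.deg_dv hF ht0, FF.deg_single, zero_add]
  obtain ⟨P2, hP2⟩ := eq_single_of_deg_one hZ0 hZ1
  have hordP : 0 < ord P.ring t := (FF.ord_pos_iff hF P ht0).2 ha
  have h3 : P2 = P := by
    by_contra hne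
    have h4 := DFunLike.congr_fun hP2 P
    rw [Finsupp.add_apply, FF.dv_apply, Finsupp.single_apply, Finsupp.single_apply,
      if_neg (Ne.symm hP), if_neg hne] at h4
    omega
  rw [h3] at hP2
  rw [← hP2, add_sub_cancel_right]

/-- **Divisors of degree zero on a rational function field are principal.** -/
theorem exists_of_deg_zero (hF : IsFunctionField k F) {x : F}
    (hx : IntermediateField.adjoin k {x} = ⊤) {D : Place k F →₀ ℤ} (hD : FF.deg D = 0) :
    ∃ w : F, w ≠ 0 ∧ FF.dv hF w = D := by
  classical
  obtain ⟨P0, h0⟩ := exists_point_function hF hx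
  choose t ht0 ht using h0
  have key : ∀ D : Place k F →₀ ℤ, ∃ w : F, w ≠ 0 ∧
      FF.dv hF w = D - Finsupp.single P0 (FF.deg D) := by
    intro D
    induction D using Finsupp.induction_linear with
    | zero => exact ⟨1, one_ne_zero, by rw [FF.dv_one, map_zero, Finsupp.single_zero, sub_zero]⟩
    | add A B hA hB =>
      obtain ⟨a, ha0, ha⟩ := hA
      obtain ⟨b, hb0, hb⟩ := hB
      refine ⟨a * b, mul_ne_zero ha0 hb0, ?_⟩
      rw [FF.dv_mul hF ha0 hb0, ha, hb, map_add, Finsupp.single_add]
      abel
    | single P n =>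
      refine ⟨t P ^ n, zpow_ne_zero n (ht0 P), ?_⟩
      rw [FF.deg_single]
      ext Q
      rw [FF.dv_apply, FF.ord_zpow hF Q (ht0 P)]
      have h1 := DFunLike.congr_fun (ht P) Q
      rw [FF.dv_apply] at h1
      rw [h1, Finsupp.sub_apply, Finsupp.sub_apply, Finsupp.single_apply, Finsupp.single_apply,
        Finsupp.single_apply, Finsupp.single_apply]
      split_ifs <;> ring
  obtain ⟨w, hw0, hw⟩ := key D
  rw [hD, Finsupp.single_zero, sub_zero] at hw
  exact ⟨w, hw0, hw⟩

/-- A function with one simple pole generates. -/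
theorem adjoin_top_of_dv (hF : IsFunctionField k F) {x : F} (hx0 : x ≠ 0) {P Q : Place k F}
    (hPQ : P ≠ Q) (hx : FF.dv hF x = Finsupp.single P 1 - Finsupp.single Q 1) :
    IntermediateField.adjoin k {x} = ⊤ := by
  classical
  have hord : ∀ R : Place k F, ord R.ring x =
      Finsupp.single P (1 : ℤ) R - Finsupp.single Q (1 : ℤ) R := by
    intro R
    have := DFunLike.congr_fun hx R
    rwa [FF.dv_apply, Finsupp.sub_apply] at this
  have htr : Transcendental k x := by
    by_contra h
    have halg : IsAlgebraic k x := not_not.1 h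
    have hint : IsIntegral k x := halg.isIntegral
    obtain ⟨b, hb⟩ := minpoly.mem_range_of_degree_eq_one k x
      (IsAlgClosed.degree_eq_one_of_irreducible k (minpoly.irreducible hint))
    have hb0 : b ≠ 0 := by
      rintro rfl
      rw [map_zero] at hb
      exact hx0 hb.symm
    have h1 := hord P
    rw [← hb, FF.ord_algebraMap hF P hb0, Finsupp.single_eq_same, Finsupp.single_apply,
      if_neg (Ne.symm hPQ)] at h1
    omega
  have h1 : FF.poles hF x = Finsupp.single Q 1 := by
    ext R
    rw [FF.poles_apply, hord, Finsupp.single_apply, Finsupp.single_apply]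
    split_ifs with h2 h3 h3
    · exact absurd (h2.trans h3.symm) hPQ
    · simp
    · simp
    · simp
  have h2 := FF.deg_poles hF htr
  rw [h1, FF.deg_single] at h2
  have h3 : finrank (IntermediateField.adjoin k {x}) F = 1 := by exact_mod_cast h2.symm
  rwa [IntermediateField.finrank_eq_one_iff_eq_top] at h3

end Pool.Agent.SC
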