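import Mathlib
import Pool.Agent.SC.G5
import Pool.Agent.SC.RatPic

/-!
# FU, first part: three fixed places if the quotient is rational
-/

universe u

namespace Pool.Agent.SC

open VC Module

theorem dvd_deg_sub {k F : Type u} [Field k] [Field F] [Algebra k F] {D : Place k F →₀ ℤ} {n : ℤ}
    (h : ∀ P, n ∣ D P) : n ∣ FF.deg D := by
  rw [FF.deg_eq, Finsupp.sum]
  exact Finset.dvd_sum fun P _ => h P

variable {E U : Type u} [Field E] [Field U] [Algebra E U] [IsAlgClosed E] [CharZero E]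

/-- Places over which the order of the Kummer generator is prime to `ℓ` are below fixed places. -/
theorem exists_fixed_over {ℓ : ℕ} (hℓ : ℓ.Prime) {g : U ≃ₐ[E] U} (hg : g ^ ℓ = 1)
    {N : IntermediateField E U} (hgN : ∀ x ∈ N, g x ∈ N) (hY : IsFunctionField E (fixedIn g N))
    {ζ : E} (hζ : IsPrimitiveRoot ζ ℓ) {v : U} (hvN : v ∈ N) (hv0 : v ≠ 0)
    (hv : g v = algebraMap E U ζ * v) {u : fixedIn g N} (hu : (u : U) = v ^ ℓ)
    (P : Place E (fixedIn g N)) (hnd : ¬ (ℓ : ℤ) ∣ ord P.ring u) :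
    ∃ Q : Place E N, (∀ z : fixedIn g N, (⟨z, z.2.1⟩ : N) ∈ Q.ring ↔ z ∈ P.ring) ∧
      ∀ x y : N, (y : U) = g x → (x ∈ Q.ring ↔ y ∈ Q.ring) := by
  have hcz : CharZero U := charZero_of_injective_algebraMap (algebraMap E U).injective
  let i1 : Algebra (fixedIn g N) N := (IntermediateField.inclusion (fixedIn_le g N)).toAlgebra
  have s1 : IsScalarTower E (fixedIn g N) N := IsScalarTower.of_algebraMap_eq (fun x => rfl)
  obtain ⟨Q, hQ⟩ := SC.exists_place_over (K := E) (N := N) P
  let σ := resAut g hgN hℓ.pos hg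
  have hstep : ∀ x : N, x ∈ Q.ring → σ x ∈ Q.ring := by
    intro x hx
    refine map_mem_of_not_dvd (Y := fixedIn g N) (R := Q.ring) Q.algebraMap_mem
      (σ := resAut g hgN hℓ.pos hg) hℓ (resAut_pow g hgN hℓ.pos hg) ?_ hζ (v := ⟨v, hvN⟩)
      (fun h => hv0 (congrArg Subtype.val h)) (Subtype.ext hv) ?_ hx
    · intro z hz
      exact ⟨⟨z, z.2, congrArg Subtype.val hz⟩, rfl⟩
    · intro c hc
      have h1 : Q.ring.valuation (algebraMap (fixedIn g N) N u) =
          Q.ring.valuation (algebraMap (fixedIn g N) N (c ^ ℓ)) := by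
        have h2 : (⟨v, hvN⟩ : N) ^ ℓ = algebraMap (fixedIn g N) N u := Subtype.ext hu.symm
        rw [h2] at hc
        rw [hc, map_pow (algebraMap (fixedIn g N) N)]
      have hu0 : u ≠ 0 := by
        rintro rfl
        exact pow_ne_zero ℓ hv0 hu.symm
      have hc0 : c ^ ℓ ≠ 0 := by
        intro h
        rw [h, map_zero, map_zero, Valuation.zero_iff, map_eq_zero] at h1
        exact hu0 h1
      rw [val_eq_iff_ord_eq hY P hQ hu0 hc0] at h1
      apply hnd
      rw [h1, FF.ord_pow hY P (fun h => hc0 (by rw [h, zero_pow hℓ.ne_zero]))]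
      exact dvd_mul_right _ _
  have hpow : ∀ (j : ℕ) (x : N), x ∈ Q.ring → (σ ^ j) x ∈ Q.ring := by
    intro j
    induction j with
    | zero => intro x hx; exact hx
    | succ j ih =>
      intro x hx
      rw [pow_succ', AlgEquiv.mul_apply]
      exact hstep _ (ih x hx)
  refine ⟨Q, hQ, ?_⟩
  intro x y hxy
  have hy : y = σ x := Subtype.ext hxy
  rw [hy]
  refine ⟨hstep x, fun hx => ?_⟩
  have h5 := hpow (ℓ - 1) _ hx
  rw [← AlgEquiv.mul_apply, ← pow_succ, Nat.sub_add_cancel hℓ.pos,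
    resAut_pow g hgN hℓ.pos hg] at h5
  exact h5

/-- If the quotient is rational and the level is not, there are three fixed places. -/
theorem exists_three_of_rational
    (hroot : ∀ (u : U) (n : ℕ), 0 < n →
      (∀ W : ValuationSubring U, (∀ c : E, algebraMap E U c ∈ W) →
        ∃ v : U, W.valuation u = W.valuation (v ^ n)) → ∃ w : U, w ^ n = u)
    (hdiv : ∀ N : IntermediateField E U, IsFunctionField E N → PicDiv E N)
    {ℓ : ℕ} (hℓ : ℓ.Prime) {g : U ≃ₐ[E] U} (hg : g ^ ℓ = 1)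
    {N : IntermediateField E U} (hN : IsFunctionField E N) (hgN : ∀ x ∈ N, g x ∈ N)
    (hne : ∃ x ∈ N, g x ≠ x) (hNr : ∀ y : N, IntermediateField.adjoin E {y} ≠ ⊤)
    (hYr : ∃ x : fixedIn g N, IntermediateField.adjoin E {x} = ⊤) :
    ∃ P : Fin 3 → Place E N, Function.Injective P ∧
      ∀ i, ∀ x y : N, (y : U) = g x → (x ∈ (P i).ring ↔ y ∈ (P i).ring) := by
  classical
  have hcz : CharZero U := charZero_of_injective_algebraMap (algebraMap E U).injective
  obtain ⟨x₀, hx₀, hgx₀⟩ := hne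
  obtain ⟨ζ, hζ, v, hvN, hv0, hv⟩ := exists_eigenvector hℓ hg hgN hx₀ hgx₀
  have hY := isFunctionField_fixedIn hgN hℓ.pos hg hN
  have huY : v ^ ℓ ∈ fixedIn g N := by
    refine ⟨pow_mem hvN ℓ, ?_⟩
    rw [map_pow, hv, mul_pow, ← map_pow, hζ.pow_eq_one, map_one, one_mul]
  let u : fixedIn g N := ⟨v ^ ℓ, huY⟩
  have hu0 : u ≠ 0 := fun h => pow_ne_zero ℓ hv0 (congrArg Subtype.val h)
  have hℓ0 : (ℓ : ℤ) ≠ 0 := Nat.cast_ne_zero.2 hℓ.ne_zero
  -- the first place
  obtain ⟨p, hp⟩ : ∃ p : Place E (fixedIn g N), ¬ (ℓ : ℤ) ∣ ord p.ring u := by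
    by_contra hcon
    push Not at hcon
    exact false_of_dvd hroot hY (hdiv _ hY) hℓ hg (fun y hy => hy.2) hζ hv0 hv
      (u := u) rfl hcon
  -- degrees
  have hdeg := FF.deg_dv hY hu0
  obtain ⟨p', hp', hpp'⟩ : ∃ p' : Place E (fixedIn g N), ¬ (ℓ : ℤ) ∣ ord p'.ring u ∧ p' ≠ p := by
    by_contra hcon
    push Not at hcon
    have h1 : (ℓ : ℤ) ∣ FF.deg (FF.dv hY u - Finsupp.single p (ord p.ring u)) := by
      apply dvd_deg_sub
      intro P
      rw [Finsupp.sub_apply, FF.dv_apply, Finsupp.single_apply]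
      split_ifs with h
      · subst h
        rw [sub_self]
        exact dvd_zero _
      · rw [sub_zero]
        by_contra h2
        exact h (hcon P h2).symm
    rw [map_sub, hdeg, FF.deg_single, zero_sub, dvd_neg] at h1
    exact hp h1
  obtain ⟨p'', hp'', hpp'', hp'p''⟩ : ∃ p'' : Place E (fixedIn g N),
      ¬ (ℓ : ℤ) ∣ ord p''.ring u ∧ p'' ≠ p ∧ p'' ≠ p' := by
    by_contra hcon
    push Not at hcon
    obtain ⟨x, hx⟩ := hYr
    have hD0 : FF.deg (Finsupp.single p (1 : ℤ) - Finsupp.single p' 1) = 0 := by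
      rw [map_sub, FF.deg_single, FF.deg_single, sub_self]
    obtain ⟨x', hx'0, hx'⟩ := exists_of_deg_zero hY hx hD0
    have hx'top := adjoin_top_of_dv hY hx'0 (Ne.symm hpp') hx'
    have hordx' : ∀ R : Place E (fixedIn g N), ord R.ring x' =
        Finsupp.single p (1 : ℤ) R - Finsupp.single p' (1 : ℤ) R := by
      intro R
      have := DFunLike.congr_fun hx' R
      rwa [FF.dv_apply, Finsupp.sub_apply] at this
    set a : ℤ := ord p.ring u with ha
    have hxa0 : x' ^ (-a) ≠ 0 := zpow_ne_zero _ hx'0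
    have hord1 : ∀ P : Place E (fixedIn g N), (ℓ : ℤ) ∣ ord P.ring (u * x' ^ (-a)) := by
      have hoth : ∀ P : Place E (fixedIn g N), P ≠ p' →
          (ℓ : ℤ) ∣ ord P.ring (u * x' ^ (-a)) := by
        intro P hP
        rw [FF.ord_mul hY P hu0 hxa0, FF.ord_zpow hY P hx'0, hordx', Finsupp.single_apply,
          Finsupp.single_apply, if_neg (Ne.symm hP)]
        by_cases hPp : p = P
        · subst hPp
          rw [if_pos rfl, ← ha]
          have : a + -a * (1 - 0) = 0 := by ring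
          rw [this]
          exact dvd_zero _
        · rw [if_neg hPp]
          have h2 : (ℓ : ℤ) ∣ ord P.ring u := by
            by_contra h3
            exact hP (hcon P h3 (Ne.symm hPp))
          simpa using h2
      intro P
      by_cases hP : P = p'
      · subst hP
        have h1 : (ℓ : ℤ) ∣ FF.deg (FF.dv hY (u * x' ^ (-a)) -
            Finsupp.single P (ord P.ring (u * x' ^ (-a)))) := by
          apply dvd_deg_sub
          intro R
          rw [Finsupp.sub_apply, FF.dv_apply, Finsupp.single_apply]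
          split_ifs with h
          · subst h
            rw [sub_self]
            exact dvd_zero _
          · rw [sub_zero]
            exact hoth R (Ne.symm h)
        rwa [map_sub, FF.deg_dv hY (mul_ne_zero hu0 hxa0), FF.deg_single, zero_sub, dvd_neg] at h1
      · exact hoth P hP
    let D0 : Place E (fixedIn g N) →₀ ℤ :=
      (FF.dv hY (u * x' ^ (-a))).mapRange (fun m => m / ℓ) (by simp)
    have hD0 : ∀ P, (ℓ : ℤ) * D0 P = ord P.ring (u * x' ^ (-a)) := by
      intro P
      rw [Finsupp.mapRange_apply, FF.dv_apply]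
      exact Int.mul_ediv_cancel' (hord1 P)
    have hD0' : ℓ • D0 = FF.dv hY (u * x' ^ (-a)) := by
      ext P
      rw [Finsupp.smul_apply, nsmul_eq_mul, hD0, FF.dv_apply]
    have hdeg0 : FF.deg D0 = 0 := by
      have h1 := FF.deg_dv hY (mul_ne_zero hu0 hxa0)
      rw [← hD0', map_nsmul, nsmul_eq_mul] at h1
      exact (mul_eq_zero.1 h1).resolve_left hℓ0
    obtain ⟨w, hw0, hw⟩ := exists_of_deg_zero hY hx hdeg0
    have hwℓ0 : w ^ ℓ ≠ 0 := pow_ne_zero ℓ hw0
    obtain ⟨c, hc⟩ := FF.exists_const_of_dv_eq_zero hY (f := u * x' ^ (-a) / w ^ ℓ) (by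
      intro P
      rw [FF.ord_div hY P (mul_ne_zero hu0 hxa0) hwℓ0, FF.ord_pow hY P hw0, ← hD0]
      have h1 := DFunLike.congr_fun hw P
      rw [FF.dv_apply] at h1
      rw [h1, sub_self])
    have hc0 : c ≠ 0 := by
      rintro rfl
      rw [map_zero] at hc
      exact div_ne_zero (mul_ne_zero hu0 hxa0) hwℓ0 hc.symm
    have hu1 : u = algebraMap E _ c * x' ^ a * w ^ ℓ := by
      have h1 : x' ^ a ≠ 0 := zpow_ne_zero _ hx'0
      rw [zpow_neg] at hc
      field_simp at hc ⊢
      rw [hc]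
    obtain ⟨c', hc'⟩ := IsAlgClosed.exists_pow_nat_eq c hℓ.pos
    have hc'0 : c' ≠ 0 := by
      rintro rfl
      rw [zero_pow hℓ.ne_zero] at hc'
      exact hc0 hc'.symm
    -- in `U`
    have hxU0 : (x' : U) ≠ 0 := fun h => hx'0 (Subtype.ext h)
    have hwU0 : (w : U) ≠ 0 := fun h => hw0 (Subtype.ext h)
    have hcU0 : algebraMap E U c' ≠ 0 := (map_ne_zero _).2 hc'0
    let v' : U := v / (algebraMap E U c' * w)
    have hv'0 : v' ≠ 0 := div_ne_zero hv0 (mul_ne_zero hcU0 hwU0)
    have hvv' : v = algebraMap E U c' * w * v' := by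
      simp only [v']
      rw [mul_div_cancel₀ _ (mul_ne_zero hcU0 hwU0)]
    have huU : v ^ ℓ = algebraMap E U c * (x' : U) ^ a * (w : U) ^ ℓ := by
      have h1 := congrArg Subtype.val hu1
      have h2 : ((algebraMap E (fixedIn g N) c * x' ^ a * w ^ ℓ : fixedIn g N) : U) =
          algebraMap E U c * (x' : U) ^ a * (w : U) ^ ℓ := by
        simp only [IntermediateField.coe_mul, IntermediateField.coe_pow]
        rw [show ((x' ^ a : fixedIn g N) : U) = (x' : U) ^ a from
          map_zpow₀ (algebraMap (fixedIn g N) U) x' a]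
        rfl
      rw [← h2]
      exact h1
    have hv'ℓ : v' ^ ℓ = (x' : U) ^ a := by
      simp only [v']
      rw [div_pow, huU, mul_pow, ← map_pow, hc']
      have hcU : algebraMap E U c ≠ 0 := (map_ne_zero _).2 hc0
      field_simp
    have hcop : IsCoprime a (ℓ : ℤ) := by
      have h1 : IsCoprime (ℓ : ℤ) a :=
        (Prime.coprime_iff_not_dvd (Nat.prime_iff_prime_int.1 hℓ)).2 hp
      exact h1.symm
    obtain ⟨b, k, hbk⟩ := hcop
    let z : U := v' ^ b * (x' : U) ^ k
    have hzℓ : z ^ ℓ = (x' : U) := by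
      have h1 : z ^ (ℓ : ℤ) = (v' ^ ℓ) ^ b * (x' : U) ^ (k * ℓ) := by
        simp only [z]
        rw [mul_zpow, ← zpow_mul, ← zpow_mul, mul_comm b, zpow_mul, zpow_natCast]
      rw [zpow_natCast, hv'ℓ, ← zpow_mul, ← zpow_add₀ hxU0, mul_comm a b, hbk, zpow_one] at h1
      exact h1
    have hza : z ^ a = v' := by
      have h1 : z ^ a = v' ^ (b * a) * (x' : U) ^ (k * a) := by
        simp only [z]
        rw [mul_zpow, ← zpow_mul, ← zpow_mul]
      have h2 : b * a = 1 - ℓ * k := by linarith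
      rw [h1, h2, zpow_sub₀ hv'0, zpow_one, zpow_mul, zpow_natCast, hv'ℓ, ← zpow_mul, mul_comm a k,
        div_mul_cancel₀ _ (zpow_ne_zero _ hxU0)]
    have hv'N : v' ∈ N := N.div_mem hvN (N.mul_mem (N.algebraMap_mem c') w.2.1)
    have hzN : z ∈ N := N.mul_mem (zpow_mem hv'N b) (zpow_mem x'.2.1 k)
    -- `N = E(z)`
    apply hNr ⟨z, hzN⟩
    have hzmem : z ∈ IntermediateField.adjoin E {z} := IntermediateField.mem_adjoin_simple_self E z
    have hYz : ∀ y : fixedIn g N, (y : U) ∈ IntermediateField.adjoin E {z} := by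
      intro y
      have h1 : y ∈ IntermediateField.adjoin E {x'} := by rw [hx'top]; trivial
      have h2 : (y : U) ∈ (IntermediateField.adjoin E {x'}).map (fixedIn g N).val :=
        ⟨y, h1, rfl⟩
      rw [IntermediateField.adjoin_map, Set.image_singleton] at h2
      refine (IntermediateField.adjoin_le_iff.2 ?_) h2
      rintro _ rfl
      change (x' : U) ∈ _
      rw [← hzℓ]
      exact pow_mem hzmem ℓ
    have hvz : v ∈ IntermediateField.adjoin E {z} := by
      rw [hvv', ← hza]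
      exact mul_mem (mul_mem ((IntermediateField.adjoin E {z}).algebraMap_mem c') (hYz w))
        (zpow_mem hzmem a)
    have hζ0 : ζ ≠ 0 := hζ.ne_zero hℓ.ne_zero
    have hNz : ∀ n ∈ N, n ∈ IntermediateField.adjoin E {z} := by
      intro n hn
      rw [← sum_eig (g := g) hℓ.pos hζ n]
      refine sum_mem fun i _ => ?_
      have h1 : eig g ζ ℓ i n / v ^ i ∈ fixedIn g N := by
        refine ⟨N.div_mem (eig_mem hgN ζ ℓ i hn) (pow_mem hvN i), ?_⟩
        rw [map_div₀, map_eig hζ.pow_eq_one hζ0 hg, map_pow g, hv, mul_pow, map_pow,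
          mul_div_mul_left _ _ (pow_ne_zero i ((map_ne_zero _).2 hζ0))]
      have h2 := hYz ⟨_, h1⟩
      have h3 : eig g ζ ℓ i n = eig g ζ ℓ i n / v ^ i * v ^ i := by
        rw [div_mul_cancel₀ _ (pow_ne_zero i hv0)]
      rw [h3]
      exact mul_mem h2 (pow_mem hvz i)
    rw [eq_top_iff]
    intro n _
    have h1 := hNz n n.2
    have h2 : IntermediateField.adjoin E {z} =
        (IntermediateField.adjoin E {(⟨z, hzN⟩ : N)}).map N.val := by
      rw [IntermediateField.adjoin_map, Set.image_singleton]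
      rfl
    rw [h2] at h1
    obtain ⟨m, hm, hmn⟩ := h1
    have h3 : m = n := Subtype.ext hmn
    rw [← h3]
    exact hm
  obtain ⟨Q, hQ, hQg⟩ := exists_fixed_over hℓ hg hgN hY hζ hvN hv0 hv (u := u) rfl p hp
  obtain ⟨Q', hQ', hQg'⟩ := exists_fixed_over hℓ hg hgN hY hζ hvN hv0 hv (u := u) rfl p' hp'
  obtain ⟨Q'', hQ'', hQg''⟩ := exists_fixed_over hℓ hg hgN hY hζ hvN hv0 hv (u := u) rfl p'' hp''
  have hinj : ∀ {P P' : Place E (fixedIn g N)} {Q Q' : Place E N},
      (∀ z : fixedIn g N, (⟨z, z.2.1⟩ : N) ∈ Q.ring ↔ z ∈ P.ring) →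
      (∀ z : fixedIn g N, (⟨z, z.2.1⟩ : N) ∈ Q'.ring ↔ z ∈ P'.ring) → Q = Q' → P = P' := by
    rintro P P' Q _ h1 h2 rfl
    ext z
    rw [← h1 z, ← h2 z]
  refine ⟨![Q, Q', Q''], ?_, ?_⟩
  · intro i j hij
    fin_cases i <;> fin_cases j
    · rfl
    · exact absurd (hinj hQ hQ' hij) (Ne.symm hpp')
    · exact absurd (hinj hQ hQ'' hij) (Ne.symm hpp'')
    · exact absurd (hinj hQ' hQ hij) hpp'
    · rfl
    · exact absurd (hinj hQ' hQ'' hij) (Ne.symm hp'p'')
    · exact absurd (hinj hQ'' hQ hij) hpp''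
    · exact absurd (hinj hQ'' hQ' hij) hp'p''
    · rfl
  · intro i
    fin_cases i
    · exact hQg
    · exact hQg'
    · exact hQg''

end Pool.Agent.SC
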