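import Mathlib
import Pool.Agent.SC.Defs2
import Pool.Agent.Helper17.FF.Genus

/-!
# MP_e66f84_ag, block G6, step (a): three different fixed places are impossible
-/

universe u

namespace Pool.Agent.SC

namespace G6

open VC Module Polynomial WithZero

/-! ### Residues -/

section residue

variable {E U : Type u} [Field E] [Field U] [Algebra E U]

theorem mem_nonunits_iff_val {W : ValuationSubring U} {x : U} :
    x ∈ W.nonunits ↔ W.valuation x < 1 := Iff.rfl

theorem nonunits_sub {W : ValuationSubring U} {x y : U} (hx : x ∈ W.nonunits)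
    (hy : y ∈ W.nonunits) : x - y ∈ W.nonunits := by
  rw [mem_nonunits_iff_val] at *
  exact lt_of_le_of_lt (Valuation.map_sub _ _ _) (max_lt hx hy)

theorem nonunits_mul_left {W : ValuationSubring U} {x y : U} (hx : x ∈ W)
    (hy : y ∈ W.nonunits) : x * y ∈ W.nonunits := by
  rw [mem_nonunits_iff_val, map_mul]
  calc W.valuation x * W.valuation y ≤ 1 * W.valuation y := by
        gcongr; exact (W.valuation_le_one_iff x).2 hx
    _ < 1 := by rw [one_mul]; exact hy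

theorem const_eq_zero {W : ValuationSubring U} (hW : ∀ c : E, algebraMap E U c ∈ W) {c : E}
    (hc : algebraMap E U c ∈ W.nonunits) : c = 0 := by
  by_contra h
  have h1 : algebraMap E U c⁻¹ * algebraMap E U c ∈ W.nonunits := nonunits_mul_left (hW _) hc
  rw [← map_mul, inv_mul_cancel₀ h, map_one, mem_nonunits_iff_val, map_one] at h1
  exact lt_irrefl _ h1

/-- the residue argument -/
theorem eq_one_of_residue {W : ValuationSubring U} (hW : ∀ c : E, algebraMap E U c ∈ W)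
    (g : U ≃ₐ[E] U) (hWg : ∀ z, g z ∈ W ↔ z ∈ W) {x : U} {a : E} (ha : a ≠ 0)
    (hx : x - algebraMap E U a ∈ W.nonunits) {η : E} (hη : g x = algebraMap E U η * x) :
    η = 1 := by
  have h1 : g (x - algebraMap E U a) ∈ W.nonunits := by
    rcases (ValuationSubring.mem_nonunits_iff_or _).1 hx with h | h
    · rw [h, map_zero]
      exact (ValuationSubring.mem_nonunits_iff_or _).2 (Or.inl rfl)
    · refine (ValuationSubring.mem_nonunits_iff_or _).2 (Or.inr ?_)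
      rwa [← map_inv₀, hWg]
  rw [map_sub, AlgEquiv.commutes, hη] at h1
  have h2 := nonunits_mul_left (hW η) hx
  have h3 := nonunits_sub h1 h2
  have h4 : algebraMap E U η * x - algebraMap E U a -
      algebraMap E U η * (x - algebraMap E U a) = algebraMap E U ((η - 1) * a) := by
    rw [map_mul, map_sub, map_one]; ring
  rw [h4] at h3
  have h5 := const_eq_zero hW h3
  rcases mul_eq_zero.1 h5 with h | h
  · exact sub_eq_zero.1 h
  · exact absurd h ha

/-- the residue argument for an `ℓ`-th root -/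
theorem eq_one_of_root [IsAlgClosed E] [CharZero E] {W : ValuationSubring U}
    (hW : ∀ c : E, algebraMap E U c ∈ W)
    (g : U ≃ₐ[E] U) (hWg : ∀ z, g z ∈ W ↔ z ∈ W) {ℓ : ℕ} (hℓ : 0 < ℓ) {x : U} {b : E}
    (hb : b ≠ 0) (hx : x ^ ℓ - algebraMap E U b ∈ W.nonunits) {η : E}
    (hη : g x = algebraMap E U η * x) : η = 1 := by
  obtain ⟨a, ha⟩ := IsAlgClosed.exists_pow_nat_eq b hℓ
  have ha0 : a ≠ 0 := by
    rintro rfl
    rw [zero_pow (by omega)] at ha
    exact hb ha.symm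
  have : NeZero (ℓ : E) := ⟨by exact_mod_cast hℓ.ne'⟩
  have : NeZero ℓ := ⟨hℓ.ne'⟩
  obtain ⟨ζ, hζ⟩ := (HasEnoughRootsOfUnity.exists_primitiveRoot E ℓ)
  have hζU : IsPrimitiveRoot (algebraMap E U ζ) ℓ :=
    hζ.map_of_injective (algebraMap E U).injective
  have h1 := hζU.pow_sub_pow_eq_prod_sub_mul x (algebraMap E U a) hℓ
  rw [← map_pow, ha] at h1
  rw [h1] at hx
  rw [mem_nonunits_iff_val, map_prod] at hx
  obtain ⟨μ, hμ, hlt⟩ : ∃ μ ∈ nthRootsFinset ℓ (1 : U),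
      W.valuation (x - μ * algebraMap E U a) < 1 := by
    by_contra hcon
    push Not at hcon
    exact absurd hx (not_lt.2 (Finset.one_le_prod' hcon))
  rw [mem_nthRootsFinset hℓ] at hμ
  obtain ⟨i, -, hi⟩ := hζU.eq_pow_of_pow_eq_one hμ
  rw [← hi, ← map_pow, ← map_mul] at hlt
  exact eq_one_of_residue hW g hWg
    (mul_ne_zero (pow_ne_zero _ (hζ.ne_zero hℓ.ne')) ha0) hlt hη

end residue

/-! ### Cyclic extensions of function fields -/

section cyc

variable {E N : Type u} [Field E] [IsAlgClosed E] [Field N] [Algebra E N]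
  (hN : IsFunctionField E N) (σ : N ≃ₐ[E] N)

include hN

theorem ord_zero_of_mem {P : Place E N} {u : N} (hu0 : u ≠ 0) (hu : u ∈ P.ring)
    (hu' : u⁻¹ ∈ P.ring) : ord P.ring u = 0 := by
  have h1 := (FF.ord_nonneg_iff hN P hu0).2 hu
  have h2 := (FF.ord_nonneg_iff hN P (inv_ne_zero hu0)).2 hu'
  rw [FF.ord_inv hN P hu0] at h2
  omega

theorem mem_of_ord_zero {P : Place E N} {u : N} (hu0 : u ≠ 0) (hu : ord P.ring u = 0) :
    u ∈ P.ring ∧ u⁻¹ ∈ P.ring := by
  refine ⟨(FF.ord_nonneg_iff hN P hu0).1 hu.ge,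
    (FF.ord_nonneg_iff hN P (inv_ne_zero hu0)).1 ?_⟩
  rw [FF.ord_inv hN P hu0, hu]; simp

variable {σ}

/-- orders are preserved at a stable place -/
theorem ord_sigma {Q : Place E N} (hQ : ∀ x, σ x ∈ Q.ring ↔ x ∈ Q.ring) {x : N} (hx : x ≠ 0) :
    ord Q.ring (σ x) = ord Q.ring x := by
  obtain ⟨π, hπ0, hπ⟩ := FF.exists_uniformizer hN Q
  have hσ0 : ∀ {y : N}, y ≠ 0 → σ y ≠ 0 := fun {y} hy h => hy (by simpa using h)
  have key : ∀ y : N, y ≠ 0 → ord Q.ring (σ y) = ord Q.ring y * ord Q.ring (σ π) := by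
    intro y hy
    have hu0 : y / π ^ (ord Q.ring y) ≠ 0 := div_ne_zero hy (zpow_ne_zero _ hπ0)
    have hu : ord Q.ring (y / π ^ (ord Q.ring y)) = 0 := by
      rw [FF.ord_div hN Q hy (zpow_ne_zero _ hπ0), FF.ord_zpow hN Q hπ0, hπ]; ring
    obtain ⟨h1, h2⟩ := mem_of_ord_zero hN hu0 hu
    have h3 := ord_zero_of_mem hN (hσ0 hu0) ((hQ _).2 h1) (by rw [← map_inv₀]; exact (hQ _).2 h2)
    rw [map_div₀, map_zpow₀, FF.ord_div hN Q (hσ0 hy) (zpow_ne_zero _ (hσ0 hπ0)),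
      FF.ord_zpow hN Q (hσ0 hπ0)] at h3
    omega
  have hpos : 0 < ord Q.ring (σ π) := by
    rw [FF.ord_pos_iff hN Q (hσ0 hπ0)]
    have h1 : π ∈ Q.ring.nonunits := (FF.ord_pos_iff hN Q hπ0).1 (by omega)
    rcases (ValuationSubring.mem_nonunits_iff_or _).1 h1 with h | h
    · exact absurd h hπ0
    · refine (ValuationSubring.mem_nonunits_iff_or _).2 (Or.inr ?_)
      rwa [← map_inv₀, hQ]
  have h2 := key (σ.symm π) (by simpa using hπ0)
  rw [AlgEquiv.apply_symm_apply, hπ] at h2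
  have h3 : ord Q.ring (σ π) = 1 := by
    have h4 : ord Q.ring (σ π) ∣ 1 := ⟨ord Q.ring (σ.symm π), by rw [h2]; ring⟩
    have := Int.eq_one_of_dvd_one hpos.le h4
    exact this
  rw [key x hx, h3, mul_one]

theorem ord_sigma_pow {Q : Place E N} (hQ : ∀ x, σ x ∈ Q.ring ↔ x ∈ Q.ring) (i : ℕ) {x : N}
    (hx : x ≠ 0) : (σ ^ i) x ≠ 0 ∧ ord Q.ring ((σ ^ i) x) = ord Q.ring x := by
  induction i with
  | zero => exact ⟨by simpa using hx, by simp⟩
  | succ i ih =>
    rw [pow_succ', AlgEquiv.mul_apply]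
    refine ⟨fun h => ih.1 (by simpa using h), ?_⟩
    rw [ord_sigma hN hQ ih.1, ih.2]

omit hN [IsAlgClosed E] in
theorem mem_sigma_pow {Q : Place E N} (hQ : ∀ x, σ x ∈ Q.ring ↔ x ∈ Q.ring) (i : ℕ) {x : N}
    (hx : x ∈ Q.ring) : (σ ^ i) x ∈ Q.ring := by
  induction i with
  | zero => simpa using hx
  | succ i ih =>
    rw [pow_succ', AlgEquiv.mul_apply, hQ]
    exact ih

/-- the norm -/
noncomputable def nm (σ : N ≃ₐ[E] N) (ℓ : ℕ) (x : N) : N := ∏ i ∈ Finset.range ℓ, (σ ^ i) x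

omit hN [IsAlgClosed E] in
theorem sigma_nm {ℓ : ℕ} (hσ : σ ^ ℓ = 1) {x : N} (hx : x ≠ 0) : σ (nm σ ℓ x) = nm σ ℓ x := by
  unfold nm
  have h1 : σ (∏ i ∈ Finset.range ℓ, (σ ^ i) x) = ∏ i ∈ Finset.range ℓ, (σ ^ (i + 1)) x := by
    rw [map_prod]
    refine Finset.prod_congr rfl fun i _ => ?_
    rw [pow_succ', AlgEquiv.mul_apply]
  rw [h1]
  have h2 := Finset.prod_range_succ' (fun i => (σ ^ i) x) ℓ
  have h3 := Finset.prod_range_succ (fun i => (σ ^ i) x) ℓ
  rw [h2, hσ] at h3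
  simp only [pow_zero, AlgEquiv.one_apply] at h3
  exact mul_right_cancel₀ hx h3

theorem ord_nm {ℓ : ℕ} {Q : Place E N} (hQ : ∀ x, σ x ∈ Q.ring ↔ x ∈ Q.ring) {x : N}
    (hx : x ≠ 0) : ord Q.ring (nm σ ℓ x) = ℓ * ord Q.ring x := by
  unfold nm
  rw [FF.ord_prod hN Q _ _ fun i _ => (ord_sigma_pow hN hQ i hx).1]
  rw [Finset.sum_congr rfl fun i _ => (ord_sigma_pow hN hQ i hx).2]
  simp

theorem nm_ne_zero {ℓ : ℕ} {x : N} (hx : x ≠ 0) : nm σ ℓ x ≠ 0 := by
  unfold nm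
  exact Finset.prod_ne_zero_iff.2 fun i _ h => hx ((_root_.map_eq_zero (σ ^ i)).1 h)

/-- Kummer elements -/
theorem exists_kummer [CharZero E] {ℓ : ℕ} (hℓ : ℓ.Prime) (hσ : σ ^ ℓ = 1) (hne : ∃ x, σ x ≠ x) :
    ∃ (v : N) (ξ : E), v ≠ 0 ∧ σ v = algebraMap E N ξ * v ∧ IsPrimitiveRoot ξ ℓ := by
  obtain ⟨x, hx⟩ := hne
  have : NeZero (ℓ : E) := ⟨by exact_mod_cast hℓ.ne_zero⟩
  have : NeZero ℓ := ⟨hℓ.ne_zero⟩
  obtain ⟨ζ, hζ⟩ := (HasEnoughRootsOfUnity.exists_primitiveRoot E ℓ)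
  set Z : N := algebraMap E N ζ with hZ
  have hζN : IsPrimitiveRoot Z ℓ := hζ.map_of_injective (algebraMap E N).injective
  have hZ0 : Z ≠ 0 := hζN.ne_zero hℓ.ne_zero
  set v : ℕ → N := fun j => ∑ i ∈ Finset.range ℓ, Z ^ (i * j) * (σ ^ i) x with hv
  have key : ∀ j, Z ^ j * σ (v j) = v j := by
    intro j
    have h1 : Z ^ j * σ (v j) = ∑ i ∈ Finset.range ℓ, Z ^ ((i + 1) * j) * (σ ^ (i + 1)) x := by
      rw [hv]
      simp only
      rw [map_sum, Finset.mul_sum]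
      refine Finset.sum_congr rfl fun i _ => ?_
      rw [map_mul, map_pow, hZ, AlgEquiv.commutes, pow_succ' σ, AlgEquiv.mul_apply, ← mul_assoc,
        ← pow_add]
      congr 2
      ring
    have h2 := Finset.sum_range_succ' (fun i => Z ^ (i * j) * (σ ^ i) x) ℓ
    have h3 := Finset.sum_range_succ (fun i => Z ^ (i * j) * (σ ^ i) x) ℓ
    rw [h2, hσ, pow_mul Z ℓ j, hζN.pow_eq_one, one_pow] at h3
    simp only [zero_mul, pow_zero, AlgEquiv.one_apply, one_mul] at h3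
    rw [h1]
    exact add_right_cancel h3
  have hσv : ∀ j, σ (v j) = algebraMap E N ((ζ ^ j)⁻¹) * v j := by
    intro j
    have h1 := key j
    rw [map_inv₀, map_pow, ← hZ]
    rw [eq_inv_mul_iff_mul_eq₀ (pow_ne_zero _ hZ0)]
    exact h1
  -- the sum of the `v j`
  have hsum : ∑ j ∈ Finset.range ℓ, v j = (ℓ : N) * x := by
    rw [hv]
    simp only
    rw [Finset.sum_comm, Finset.sum_eq_single 0]
    · simp
    · intro i hi hi0
      rw [← Finset.sum_mul]
      have h1 : ∑ j ∈ Finset.range ℓ, Z ^ (i * j) = 0 := by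
        have h2 : IsPrimitiveRoot (Z ^ i) ℓ := hζN.pow_of_coprime i (by
          rw [Nat.coprime_comm]
          exact (Nat.Prime.coprime_iff_not_dvd hℓ).2 (fun hd => absurd (Nat.le_of_dvd (Nat.pos_of_ne_zero hi0) hd) (not_le.2 (Finset.mem_range.1 hi))))
        have h3 := h2.geom_sum_eq_zero hℓ.one_lt
        rw [← h3]
        exact Finset.sum_congr rfl fun j _ => pow_mul Z i j
      rw [h1, zero_mul]
    · intro h
      exact absurd (Finset.mem_range.2 hℓ.pos) h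
  obtain ⟨j, hj, hj0, hvj⟩ : ∃ j ∈ Finset.range ℓ, j ≠ 0 ∧ v j ≠ 0 := by
    by_contra hcon
    push Not at hcon
    have h1 : ∑ j ∈ Finset.range ℓ, v j = v 0 :=
      Finset.sum_eq_single 0 (fun j hj hj0 => hcon j hj hj0)
        (fun h => absurd (Finset.mem_range.2 hℓ.pos) h)
    have h2 := hσv 0
    rw [← h1, hsum, map_mul, map_natCast, pow_zero, inv_one, map_one, one_mul] at h2
    have h3 : (ℓ : N) ≠ 0 := by
      rw [← map_natCast (algebraMap E N)]
      exact (_root_.map_ne_zero _).2 (NeZero.ne (ℓ : E))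
    exact hx (mul_left_cancel₀ h3 h2)
  refine ⟨v j, (ζ ^ j)⁻¹, hvj, hσv j, ?_⟩
  refine IsPrimitiveRoot.inv (hζ.pow_of_coprime j ?_)
  rw [Nat.coprime_comm]
  exact (Nat.Prime.coprime_iff_not_dvd hℓ).2 (fun hd => absurd (Nat.le_of_dvd (Nat.pos_of_ne_zero hj0) hd) (not_le.2 (Finset.mem_range.1 hj)))

section sub

variable {Y : Type u} [Field Y] [Algebra E Y] (hY : IsFunctionField E Y) (ι : Y →ₐ[E] N)

theorem mem_comap_ring {Q : Place E N} {y : Y} :
    y ∈ (Place.comap hY hN ι Q).ring ↔ ι y ∈ Q.ring := Iff.rfl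

/-- the ramification index -/
theorem exists_ram (Q : Place E N) : ∃ e : ℤ, 0 < e ∧ ∀ y : Y, y ≠ 0 →
    ord Q.ring (ι y) = e * ord (Place.comap hY hN ι Q).ring y := by
  obtain ⟨π, hπ0, hπ⟩ := FF.exists_uniformizer hY (Place.comap hY hN ι Q)
  have hι0 : ∀ {y : Y}, y ≠ 0 → ι y ≠ 0 := fun {y} hy h => hy (by simpa using h)
  refine ⟨ord Q.ring (ι π), ?_, fun y hy => ?_⟩
  · rw [FF.ord_pos_iff hN Q (hι0 hπ0)]
    have h1 : π ∈ (Place.comap hY hN ι Q).ring.nonunits :=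
      (FF.ord_pos_iff hY _ hπ0).1 (by omega)
    rcases (ValuationSubring.mem_nonunits_iff_or _).1 h1 with h | h
    · exact absurd h hπ0
    · refine (ValuationSubring.mem_nonunits_iff_or _).2 (Or.inr ?_)
      rwa [← map_inv₀]
  · set n := ord (Place.comap hY hN ι Q).ring y with hn
    have hu0 : y / π ^ n ≠ 0 := div_ne_zero hy (zpow_ne_zero _ hπ0)
    have hu : ord (Place.comap hY hN ι Q).ring (y / π ^ n) = 0 := by
      rw [FF.ord_div hY _ hy (zpow_ne_zero _ hπ0), FF.ord_zpow hY _ hπ0, hπ]; ring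
    obtain ⟨h1, h2⟩ := mem_of_ord_zero hY hu0 hu
    have h3 := ord_zero_of_mem hN (P := Q) (hι0 hu0) h1 (by rw [← map_inv₀]; exact h2)
    rw [map_div₀, map_zpow₀, FF.ord_div hN Q (hι0 hy) (zpow_ne_zero _ (hι0 hπ0)),
      FF.ord_zpow hN Q (hι0 hπ0)] at h3
    rw [mul_comm]
    omega

variable (hι : ∀ x : N, σ x = x ↔ ∃ y, ι y = x)
include hι

/-- total ramification of stable places -/
theorem ram_eq [CharZero E] {ℓ : ℕ} (hℓ : ℓ.Prime) (hσ : σ ^ ℓ = 1) (hne : ∃ x, σ x ≠ x)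
    {Q : Place E N} (hQ : ∀ x, σ x ∈ Q.ring ↔ x ∈ Q.ring) {y : Y} (hy : y ≠ 0) :
    ord Q.ring (ι y) = ℓ * ord (Place.comap hY hN ι Q).ring y := by
  obtain ⟨e, he0, he⟩ := exists_ram hN hY ι Q
  obtain ⟨v, ξ, hv0, hv, hξ⟩ := exists_kummer hN hℓ hσ hne
  obtain ⟨π, hπ0, hπ⟩ := FF.exists_uniformizer hN Q
  obtain ⟨π', hπ'0, hπ'⟩ := FF.exists_uniformizer hY (Place.comap hY hN ι Q)
  have hι0 : ∀ {y : Y}, y ≠ 0 → ι y ≠ 0 := fun {y} hy h => hy (by simpa using h)
  -- `e ∣ ℓ`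
  have h1 : e ∣ (ℓ : ℤ) := by
    obtain ⟨z, hz⟩ := (hι _).1 (sigma_nm hσ hπ0)
    have hz0 : z ≠ 0 := by
      rintro rfl
      rw [map_zero] at hz
      exact nm_ne_zero hN hπ0 hz.symm
    have h2 := he z hz0
    rw [hz, ord_nm hN hQ hπ0, hπ, mul_one] at h2
    exact ⟨_, h2⟩
  -- `ℓ ∣ e`
  have h2 : (ℓ : ℤ) ∣ e := by
    set j := ord Q.ring v with hj
    set x : N := v ^ e / (ι π') ^ j with hx
    have hx0 : x ≠ 0 := div_ne_zero (zpow_ne_zero _ hv0) (zpow_ne_zero _ (hι0 hπ'0))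
    have hord : ord Q.ring x = 0 := by
      rw [hx, FF.ord_div hN Q (zpow_ne_zero _ hv0) (zpow_ne_zero _ (hι0 hπ'0)),
        FF.ord_zpow hN Q hv0, FF.ord_zpow hN Q (hι0 hπ'0), he _ hπ'0, hπ']
      ring
    obtain ⟨m1, -⟩ := mem_of_ord_zero hN hx0 hord
    obtain ⟨a, ha⟩ := FF.exists_residue hN Q m1
    have ha0 : a ≠ 0 := by
      rintro rfl
      rw [map_zero, sub_zero, ← FF.ord_pos_iff hN Q hx0] at ha
      omega
    have hσx : σ x = algebraMap E N (ξ ^ e) * x := by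
      rw [hx, map_div₀, map_zpow₀, map_zpow₀, (hι (ι π')).2 ⟨π', rfl⟩, hv, mul_zpow, map_zpow₀,
        mul_div_assoc]
    have h3 := eq_one_of_residue Q.algebraMap_mem σ hQ ha0 ha hσx
    exact (hξ.zpow_eq_one_iff_dvd e).1 h3
  have h3 : e = ℓ := Int.dvd_antisymm he0.le (by positivity) h1 h2
  rw [he y hy, h3]

/-- a stable place is the only one above its trace -/
theorem eq_of_comap_eq {ℓ : ℕ} (hℓ : 0 < ℓ) (hσ : σ ^ ℓ = 1) {Q P : Place E N}
    (hQ : ∀ x, σ x ∈ Q.ring ↔ x ∈ Q.ring)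
    (h : Place.comap hY hN ι P = Place.comap hY hN ι Q) : P = Q := by
  symm
  apply FF.place_eq_of_le hN
  intro x hx
  -- the characteristic polynomial
  set f : N[X] := ∏ i ∈ Finset.range ℓ, (X - C ((σ ^ i) x)) with hf
  have hmonic : f.Monic := monic_prod_of_monic _ _ fun i _ => monic_X_sub_C _
  have hroot : f.eval x = 0 := by
    rw [hf, eval_prod]
    refine Finset.prod_eq_zero (Finset.mem_range.2 hℓ) ?_
    simp
  have hmap : f.map (σ : N →+* N) = f := by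
    rw [hf, Polynomial.map_prod]
    have h1 : ∀ i ∈ Finset.range ℓ, (X - C ((σ ^ i) x) : N[X]).map (σ : N →+* N) =
        X - C ((σ ^ (i + 1)) x) := by
      intro i _
      rw [Polynomial.map_sub, Polynomial.map_X, Polynomial.map_C, pow_succ', AlgEquiv.mul_apply]
      rfl
    rw [Finset.prod_congr rfl h1]
    have h2 := Finset.prod_range_succ' (fun i => (X - C ((σ ^ i) x) : N[X])) ℓ
    have h3 := Finset.prod_range_succ (fun i => (X - C ((σ ^ i) x) : N[X])) ℓ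
    rw [h2, hσ] at h3
    simp only [pow_zero, AlgEquiv.one_apply] at h3
    exact mul_right_cancel₀ (X_sub_C_ne_zero x) h3
  have hcoeffQ : ∀ n, f.coeff n ∈ Q.ring := by
    intro n
    have h1 : f = (∏ i ∈ Finset.range ℓ, (X - C (⟨(σ ^ i) x, mem_sigma_pow hQ i hx⟩ :
        Q.ring))).map Q.ring.subtype := by
      rw [hf, Polynomial.map_prod]
      refine Finset.prod_congr rfl fun i _ => ?_
      rw [Polynomial.map_sub, Polynomial.map_X, Polynomial.map_C]
      rfl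
    rw [h1, Polynomial.coeff_map]
    exact Subtype.property _
  have hcoeffP : ∀ n, f.coeff n ∈ P.ring := by
    intro n
    have h1 : σ (f.coeff n) = f.coeff n := by
      conv_rhs => rw [← hmap]
      rw [Polynomial.coeff_map]
      rfl
    obtain ⟨y, hy⟩ := (hι _).1 h1
    have h2 := hcoeffQ n
    rw [← hy] at h2 ⊢
    change y ∈ (Place.comap hY hN ι P).ring
    rw [h]
    exact h2
  have hint : IsIntegral P.ring x := by
    have h1 : f ∈ Polynomial.lifts P.ring.subtype := by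
      rw [Polynomial.lifts_iff_coeff_lifts]
      intro n
      exact ⟨⟨_, hcoeffP n⟩, rfl⟩
    obtain ⟨q, hq, -, hqm⟩ := Polynomial.lifts_and_natDegree_eq_and_monic h1 hmonic
    refine ⟨q, hqm, ?_⟩
    have h2 : Polynomial.eval₂ (algebraMap P.ring N) x q = (q.map P.ring.subtype).eval x := by
      rw [Polynomial.eval_map]; rfl
    rw [h2, hq, hroot]
  obtain ⟨z, hz⟩ := IsIntegrallyClosed.isIntegral_iff.mp hint
  rw [← hz]
  exact z.2

end sub

end cyc

/-! ### Traces of valuation rings -/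

section trace

variable {E U : Type u} [Field E] [Field U] [Algebra E U] (N : IntermediateField E U)

/-- restriction of `g` to `N` -/
noncomputable def resAut (g : U ≃ₐ[E] U) (hgN : ∀ x, x ∈ N ↔ g x ∈ N) : N ≃ₐ[E] N where
  toFun x := ⟨g x, (hgN x).1 x.2⟩
  invFun x := ⟨g.symm x, (hgN _).2 (by rw [AlgEquiv.apply_symm_apply]; exact x.2)⟩
  left_inv x := Subtype.ext (by simp)
  right_inv x := Subtype.ext (by simp)
  map_mul' x y := Subtype.ext (by simp)
  map_add' x y := Subtype.ext (by simp)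
  commutes' c := Subtype.ext (by simp)

theorem coe_resAut (g : U ≃ₐ[E] U) (hgN : ∀ x, x ∈ N ↔ g x ∈ N) (x : N) :
    ((resAut N g hgN x : N) : U) = g x := rfl

theorem coe_resAut_pow (g : U ≃ₐ[E] U) (hgN : ∀ x, x ∈ N ↔ g x ∈ N) (i : ℕ) (x : N) :
    (((resAut N g hgN ^ i) x : N) : U) = (g ^ i) x := by
  induction i with
  | zero => simp
  | succ i ih =>
    rw [pow_succ', AlgEquiv.mul_apply, coe_resAut, ih, pow_succ', AlgEquiv.mul_apply]

/-- The trace of a valuation ring. -/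
noncomputable def traceP (unr : ∀ W : ValuationSubring U, (∀ c : E, algebraMap E U c ∈ W) → ∀ u : U,
      ∃ m ∈ N, W.valuation u = W.valuation m)
    (W : ValuationSubring U) (hW : ∀ c : E, algebraMap E U c ∈ W) (hW1 : W ≠ ⊤) : Place E N where
  ring := W.comap (algebraMap N U)
  algebraMap_mem := by
    intro c
    rw [ValuationSubring.mem_comap]
    exact hW c
  ne_top := by
    intro h
    apply hW1
    rw [eq_top_iff]
    intro u _
    obtain ⟨m, hm, h1⟩ := unr W hW u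
    have h2 : (⟨m, hm⟩ : N) ∈ W.comap (algebraMap N U) := by
      rw [h]; exact ValuationSubring.mem_top _
    rw [← W.valuation_le_one_iff, h1, W.valuation_le_one_iff]
    exact h2

theorem mem_traceP (unr : ∀ W : ValuationSubring U, (∀ c : E, algebraMap E U c ∈ W) → ∀ u : U,
      ∃ m ∈ N, W.valuation u = W.valuation m)
    (W : ValuationSubring U) (hW : ∀ c : E, algebraMap E U c ∈ W) (hW1 : W ≠ ⊤) (x : N) :
    x ∈ (traceP N unr W hW hW1).ring ↔ (x : U) ∈ W := Iff.rfl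

theorem mem_traceP_nonunits (unr : ∀ W : ValuationSubring U, (∀ c : E, algebraMap E U c ∈ W) →
      ∀ u : U, ∃ m ∈ N, W.valuation u = W.valuation m)
    (W : ValuationSubring U) (hW : ∀ c : E, algebraMap E U c ∈ W) (hW1 : W ≠ ⊤) (x : N) :
    x ∈ (traceP N unr W hW hW1).ring.nonunits ↔ (x : U) ∈ W.nonunits :=
  mem_nonunits_comap (algebraMap N U) W x

end trace

end G6

open VC G6 in
/-- G6, step (a): three `g`-stable places which are different on a `g`-stable level `N` are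
impossible. -/
theorem G6_core {E U : Type u} [Field E] [IsAlgClosed E] [CharZero E] [Field U] [Algebra E U]
    (N Y : IntermediateField E U) (hN : IsFunctionField E N) (hY : IsFunctionField E Y)
    (hdiv : PicDiv E Y)
    (unr : ∀ W : ValuationSubring U, (∀ c : E, algebraMap E U c ∈ W) → ∀ u : U,
      ∃ m ∈ N, W.valuation u = W.valuation m)
    (root : ∀ (u : U) (n : ℕ), 0 < n →
      (∀ W : ValuationSubring U, (∀ c : E, algebraMap E U c ∈ W) →
        ∃ v : U, W.valuation u = W.valuation (v ^ n)) → ∃ w : U, w ^ n = u)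
    {ℓ : ℕ} (hℓ : ℓ.Prime) (g : U ≃ₐ[E] U) (hg : g ^ ℓ = 1) (hgN : ∀ x, x ∈ N ↔ g x ∈ N)
    (hYg : ∀ x, x ∈ Y ↔ x ∈ N ∧ g x = x) (hne : ∃ x ∈ N, g x ≠ x)
    {W W' : ValuationSubring U} (hW : ∀ c : E, algebraMap E U c ∈ W) (hW1 : W ≠ ⊤)
    (hWg : ∀ z, g z ∈ W ↔ z ∈ W) (hW' : ∀ c : E, algebraMap E U c ∈ W') (hW1' : W' ≠ ⊤)
    (hWg' : ∀ z, g z ∈ W' ↔ z ∈ W') (P : Place E N)
    (hPg : ∀ x y : N, (y : U) = g x → (x ∈ P.ring ↔ y ∈ P.ring))
    (h12 : ¬ ∀ x : N, (x : U) ∈ W ↔ (x : U) ∈ W')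
    (h13 : ¬ ∀ x : N, (x : U) ∈ W ↔ x ∈ P.ring)
    (h23 : ¬ ∀ x : N, (x : U) ∈ W' ↔ x ∈ P.ring) : False := by
  classical
  have hYN : Y ≤ N := fun x hx => ((hYg x).1 hx).1
  set σ := resAut N g hgN with hσdef
  have hσ : σ ^ ℓ = 1 := by
    ext x
    rw [hσdef, coe_resAut_pow, hg]; rfl
  have hσne : ∃ x, σ x ≠ x := by
    obtain ⟨x, hx, hx1⟩ := hne
    exact ⟨⟨x, hx⟩, fun h => hx1 (congrArg Subtype.val h)⟩
  set ι : Y →ₐ[E] N := IntermediateField.inclusion hYN with hιdef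
  have hιc : ∀ y : Y, ((ι y : N) : U) = y := fun y => rfl
  have hι : ∀ x : N, σ x = x ↔ ∃ y, ι y = x := by
    intro x
    constructor
    · intro h
      have h1 : (x : U) ∈ Y := (hYg x).2 ⟨x.2, congrArg Subtype.val h⟩
      exact ⟨⟨x, h1⟩, Subtype.ext rfl⟩
    · rintro ⟨y, rfl⟩
      apply Subtype.ext
      rw [hσdef, coe_resAut, hιc]
      exact ((hYg y).1 y.2).2
  have hgY : ∀ y : Y, g (y : U) = y := fun y => ((hYg y).1 y.2).2
  -- the three places
  set Q := traceP N unr W hW hW1 with hQdef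
  set Q' := traceP N unr W' hW' hW1' with hQ'def
  have hQ : ∀ x, σ x ∈ Q.ring ↔ x ∈ Q.ring := fun x => hWg x
  have hQ' : ∀ x, σ x ∈ Q'.ring ↔ x ∈ Q'.ring := fun x => hWg' x
  have hP : ∀ x, σ x ∈ P.ring ↔ x ∈ P.ring := fun x => (hPg x (σ x) rfl).symm
  set q := Place.comap hY hN ι Q with hq
  set q' := Place.comap hY hN ι Q' with hq'
  set q'' := Place.comap hY hN ι P with hq''
  have hqq' : q ≠ q' := by
    intro h
    have h1 := eq_of_comap_eq hN hY ι hι hℓ.pos hσ hQ' h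
    exact h12 fun x => by
      have : x ∈ Q.ring ↔ x ∈ Q'.ring := by rw [h1]
      exact this
  have hqq'' : q ≠ q'' := by
    intro h
    have h1 := eq_of_comap_eq hN hY ι hι hℓ.pos hσ hP h
    exact h13 fun x => by
      have : x ∈ Q.ring ↔ x ∈ P.ring := by rw [h1]
      exact this
  have hq'q'' : q' ≠ q'' := by
    intro h
    have h1 := eq_of_comap_eq hN hY ι hι hℓ.pos hσ hP h
    exact h23 fun x => by
      have : x ∈ Q'.ring ↔ x ∈ P.ring := by rw [h1]
      exact this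
  -- the function `c`
  obtain ⟨D', c, hc0, hD'⟩ := hdiv ℓ hℓ.pos (Finsupp.single q' 1 - Finsupp.single q'' 1) (by
    rw [← FF.deg_eq, map_sub, FF.deg_single, FF.deg_single, sub_self])
  have ordq : ord q.ring c = ℓ * (- D' q) := by
    have := hD' q
    rw [Finsupp.sub_apply, Finsupp.single_eq_of_ne hqq', Finsupp.single_eq_of_ne hqq''] at this
    linarith
  have ordq' : ord q'.ring c = 1 - ℓ * D' q' := by
    have := hD' q'
    rw [Finsupp.sub_apply, Finsupp.single_eq_same, Finsupp.single_eq_of_ne hq'q''] at this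
    linarith
  have ordp : ∀ p, p ≠ q' → p ≠ q'' → ord p.ring c = ℓ * (- D' p) := by
    intro p h1 h2
    have := hD' p
    rw [Finsupp.sub_apply, Finsupp.single_eq_of_ne h1, Finsupp.single_eq_of_ne h2] at this
    linarith
  have hιc0 : ι c ≠ 0 := fun h => hc0 (by simpa using h)
  have hdvd : ∀ P₀ : Place E N, (ℓ : ℤ) ∣ ord P₀.ring (ι c) := by
    intro P₀
    by_cases h1 : Place.comap hY hN ι P₀ = q'
    · have h2 := eq_of_comap_eq hN hY ι hι hℓ.pos hσ hQ' h1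
      rw [h2, ram_eq hN hY ι hι hℓ hσ hσne hQ' hc0]
      exact dvd_mul_right _ _
    by_cases h1' : Place.comap hY hN ι P₀ = q''
    · have h2 := eq_of_comap_eq hN hY ι hι hℓ.pos hσ hP h1'
      rw [h2, ram_eq hN hY ι hι hℓ hσ hσne hP hc0]
      exact dvd_mul_right _ _
    · obtain ⟨e, -, he⟩ := exists_ram hN hY ι P₀
      rw [he c hc0, ordp _ h1 h1']
      exact ⟨e * (- D' (Place.comap hY hN ι P₀)), by ring⟩
  have hcU0 : (c : U) ≠ 0 := fun h => hc0 (Subtype.ext h)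
  -- the root
  obtain ⟨w, hw⟩ := root (c : U) ℓ hℓ.pos (by
    intro W₀ hW₀
    have hval : ∀ z : U, z ≠ 0 → z ∈ W₀ → z⁻¹ ∈ W₀ → W₀.valuation z = 1 := by
      intro z hz0 hz hz'
      rw [← W₀.valuation_le_one_iff] at hz hz'
      refine le_antisymm hz ?_
      rw [map_inv₀] at hz'
      have h1 : 0 < W₀.valuation z := zero_lt_iff.2 ((Valuation.ne_zero_iff _).2 hz0)
      exact (inv_le_one₀ h1).1 hz'
    by_cases hW₀1 : W₀ = ⊤
    · refine ⟨1, ?_⟩
      rw [one_pow, map_one]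
      exact hval _ hcU0 (by rw [hW₀1]; exact ValuationSubring.mem_top _)
        (by rw [hW₀1]; exact ValuationSubring.mem_top _)
    · set P₀ := traceP N unr W₀ hW₀ hW₀1 with hP₀
      obtain ⟨m, hm⟩ := hdvd P₀
      obtain ⟨v, hv0, hv⟩ := FF.exists_ord_eq hN P₀ m
      have hu0 : ι c / v ^ ℓ ≠ 0 := div_ne_zero hιc0 (pow_ne_zero _ hv0)
      have hu : ord P₀.ring (ι c / v ^ ℓ) = 0 := by
        rw [FF.ord_div hN P₀ hιc0 (pow_ne_zero _ hv0), FF.ord_pow hN P₀ hv0, hv, hm, sub_self]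
      obtain ⟨h1, h2⟩ := mem_of_ord_zero hN hu0 hu
      have h3 := hval ((ι c / v ^ ℓ : N) : U) (fun h => hu0 (Subtype.ext h)) h1 h2
      refine ⟨(v : U), ?_⟩
      have h4 : ((ι c / v ^ ℓ : N) : U) = (c : U) / (v : U) ^ ℓ := rfl
      have hv0' : (v : U) ≠ 0 := fun h => hv0 (Subtype.ext h)
      rw [h4, map_div₀] at h3
      exact (div_eq_one_iff_eq ((Valuation.ne_zero_iff _).2 (pow_ne_zero _ hv0'))).1 h3)
  have hw0 : w ≠ 0 := by
    rintro rfl
    rw [zero_pow hℓ.ne_zero] at hw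
    exact hcU0 hw.symm
  -- `g w = ζ w`
  obtain ⟨ζ, hζ⟩ : ∃ ζ : E, algebraMap E U ζ = g w / w := by
    apply FF.exists_const_of_not_transcendental
    rw [Transcendental, not_not]
    refine ⟨Polynomial.X ^ ℓ - 1, ?_, ?_⟩
    · exact (Polynomial.monic_X_pow_sub_C (1 : E) hℓ.ne_zero).ne_zero
    · rw [map_sub, map_pow, Polynomial.aeval_X, map_one, div_pow, ← map_pow, hw, hgY,
        div_self hcU0, sub_self]
  have hgw : g w = algebraMap E U ζ * w := by rw [hζ, div_mul_cancel₀ _ hw0]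
  -- at `W`
  have hζ1 : ζ = 1 := by
    obtain ⟨π, hπ0, hπ⟩ := FF.exists_uniformizer hY q
    have hπU0 : (π : U) ≠ 0 := fun h => hπ0 (Subtype.ext h)
    set m := - D' q with hm
    have hy0 : c / π ^ (ℓ * m) ≠ 0 := div_ne_zero hc0 (zpow_ne_zero _ hπ0)
    have hy : ord q.ring (c / π ^ (ℓ * m)) = 0 := by
      rw [FF.ord_div hY q hc0 (zpow_ne_zero _ hπ0), FF.ord_zpow hY q hπ0, hπ, ordq]; ring
    obtain ⟨h1, -⟩ := mem_of_ord_zero hY hy0 hy
    obtain ⟨b, hb⟩ := FF.exists_residue hY q h1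
    have hb0 : b ≠ 0 := by
      rintro rfl
      rw [map_zero, sub_zero, ← FF.ord_pos_iff hY q hy0] at hb
      omega
    refine eq_one_of_root hW g hWg hℓ.pos (x := w / (π : U) ^ m) hb0 ?_ ?_
    · have h2 : (w / (π : U) ^ m) ^ ℓ - algebraMap E U b =
          ((c / π ^ (ℓ * m) - algebraMap E Y b : Y) : U) := by
        rw [div_pow, hw, ← zpow_natCast, ← zpow_mul, mul_comm m (ℓ : ℤ)]
        rfl
      rw [h2]
      have h3 : ι (c / π ^ (ℓ * m) - algebraMap E Y b) ∈ Q.ring.nonunits :=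
        (mem_nonunits_comap ι.toRingHom Q.ring _).1 hb
      exact (mem_traceP_nonunits N unr W hW hW1 _).1 h3
    · rw [map_div₀, map_zpow₀, hgY, hgw, mul_div_assoc]
  rw [hζ1, map_one, one_mul] at hgw
  -- at `W'`
  obtain ⟨v, ξ, hv0, hv, hξ⟩ := exists_kummer hN hℓ hσ hσne
  have hvU0 : (v : U) ≠ 0 := fun h => hv0 (Subtype.ext h)
  set j := ord Q'.ring v with hj
  set s := ord q'.ring c with hs
  have hy0 : (ι c) ^ j / v ^ (s * ℓ) ≠ 0 := div_ne_zero (zpow_ne_zero _ hιc0) (zpow_ne_zero _ hv0)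
  have hy : ord Q'.ring ((ι c) ^ j / v ^ (s * ℓ)) = 0 := by
    rw [FF.ord_div hN Q' (zpow_ne_zero _ hιc0) (zpow_ne_zero _ hv0), FF.ord_zpow hN Q' hιc0,
      FF.ord_zpow hN Q' hv0, ram_eq hN hY ι hι hℓ hσ hσne hQ' hc0]
    ring
  obtain ⟨h1, -⟩ := mem_of_ord_zero hN hy0 hy
  obtain ⟨b, hb⟩ := FF.exists_residue hN Q' h1
  have hb0 : b ≠ 0 := by
    rintro rfl
    rw [map_zero, sub_zero, ← FF.ord_pos_iff hN Q' hy0] at hb
    omega
  have hfin : (ξ ^ s)⁻¹ = 1 := by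
    refine eq_one_of_root hW' g hWg' hℓ.pos (x := w ^ j / (v : U) ^ s) hb0 ?_ ?_
    · have h2 : (w ^ j / (v : U) ^ s) ^ ℓ - algebraMap E U b =
          (((ι c) ^ j / v ^ (s * ℓ) - algebraMap E N b : N) : U) := by
        rw [div_pow, ← zpow_natCast (w ^ j), ← zpow_mul, mul_comm j (ℓ : ℤ), zpow_mul,
          zpow_natCast, hw, ← zpow_natCast ((v : U) ^ s), ← zpow_mul]
        rfl
      rw [h2]
      exact (mem_traceP_nonunits N unr W' hW' hW1' _).1 hb
    · have h3 : g (v : U) = algebraMap E U ξ * v := congrArg Subtype.val hv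
      rw [map_div₀, map_zpow₀, map_zpow₀, hgw, h3, mul_zpow, map_inv₀, map_zpow₀]
      field_simp
  rw [inv_eq_one] at hfin
  have h4 : (ℓ : ℤ) ∣ s := (hξ.zpow_eq_one_iff_dvd s).1 hfin
  rw [ordq'] at h4
  have h5 : (ℓ : ℤ) ∣ 1 := by
    have := dvd_add h4 (dvd_mul_right (ℓ : ℤ) (D' q'))
    rwa [sub_add_cancel] at this
  have h6 := Int.eq_one_of_dvd_one (by positivity) h5
  exact hℓ.one_lt.ne' (by exact_mod_cast h6)

end Pool.Agent.SC
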