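import Mathlib
import Pool.Agent.SC.G5
import Pool.Agent.SC.G6core
import Pool.Agent.SC.Cov

/-!
# MP_e66f84_ag, block G6: the fixed place is unique
-/

universe u

namespace Pool.Agent.SC

open VC Module

section

variable {E U : Type u} [Field E] [IsAlgClosed E] [CharZero E] [Field U] [Algebra E U]

/-- **Freeness.**  An automorphism of a cover over `M` that fixes a nontrivial valuation ring is
trivial. -/
theorem eq_one_of_fix (M : IntermediateField E U) (hc : IsCover M) (σ : U ≃ₐ[M] U)
    {W : ValuationSubring U} (hW : ∀ c : E, algebraMap E U c ∈ W) (hW1 : W ≠ ⊤)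
    (hσ : ∀ z, σ z ∈ W ↔ z ∈ W) : σ = 1 := by
  classical
  have hgal := hc.gal
  have hσn : ∀ (i : ℕ) (z : U), z ∈ W.nonunits → (σ ^ i) z ∈ W.nonunits := by
    intro i
    induction i with
    | zero => intro z hz; exact hz
    | succ i ih =>
      intro z hz
      rw [pow_succ', AlgEquiv.mul_apply]
      have h1 := ih z hz
      rw [ValuationSubring.mem_nonunits_iff_or] at h1 ⊢
      rcases h1 with h | h
      · left; rw [h, map_zero]
      · right
        rwa [← map_inv₀, hσ]
  -- the residue of an element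
  have hres : ∀ x : U, x ≠ 0 → ∃ m : M, ∃ a : E, (m : U) ≠ 0 ∧ a ≠ 0 ∧
      x / (m : U) - algebraMap E U a ∈ W.nonunits := by
    intro x hx
    obtain ⟨m, hm, hxm⟩ := hc.unr W hW x
    have hm0 : m ≠ 0 := by
      rintro rfl
      rw [map_zero] at hxm
      exact hx ((Valuation.zero_iff _).1 hxm)
    have hy1 : W.valuation (x / m) = 1 := by
      rw [map_div₀, hxm, div_self ((Valuation.ne_zero_iff _).2 hm0)]
    let N' : IntermediateField M U := IntermediateField.adjoin M {x / m}
    have hfin : FiniteDimensional M N' :=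
      IntermediateField.adjoin.finiteDimensional (Algebra.IsIntegral.isIntegral _)
    let N : IntermediateField E U := N'.restrictScalars E
    have hN : IsFunctionField E N := isFunctionField_restrictScalars hc.ff N'
    have unr : ∀ W : ValuationSubring U, (∀ c : E, algebraMap E U c ∈ W) → ∀ u : U,
        ∃ m ∈ N, W.valuation u = W.valuation m := by
      intro W hW u
      obtain ⟨m, hm, h⟩ := hc.unr W hW u
      exact ⟨m, N'.algebraMap_mem ⟨m, hm⟩, h⟩
    let P := G6.traceP N unr W hW hW1
    have hyN : x / m ∈ N := IntermediateField.mem_adjoin_simple_self M (x / m)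
    have hyP : (⟨x / m, hyN⟩ : N) ∈ P.ring := by
      rw [G6.mem_traceP, ← W.valuation_le_one_iff]
      exact hy1.le
    obtain ⟨b, hb⟩ := FF.exists_residue hN P hyP
    have hb' := (G6.mem_traceP_nonunits N unr W hW hW1 _).1 hb
    refine ⟨⟨m, hm⟩, b, hm0, ?_, hb'⟩
    rintro rfl
    rw [map_zero, sub_zero, G6.mem_nonunits_iff_val] at hb'
    have h2 : W.valuation (x / m) < 1 := hb'
    rw [hy1] at h2
    exact lt_irrefl _ h2
  have hcz : CharZero U := charZero_of_injective_algebraMap (algebraMap E U).injective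
  -- a nonzero element has nonzero trace
  have htr : ∀ (n : ℕ) (x : U), 0 < n → x ≠ 0 → ∑ i ∈ Finset.range n, (σ ^ i) x ≠ 0 := by
    intro n x hn hx hsum
    obtain ⟨m, a, hm, ha, hε⟩ := hres x hx
    set ε := x / (m : U) - algebraMap E U a with hεdef
    have hxe : x = m * (algebraMap E U a + ε) := by
      rw [hεdef]
      field_simp
      ring
    have hσE : ∀ (i : ℕ) (c : E), (σ ^ i) (algebraMap E U c) = algebraMap E U c := by
      intro i c
      rw [IsScalarTower.algebraMap_apply E M U]
      exact (σ ^ i).commutes _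
    have hσM : ∀ (i : ℕ), (σ ^ i) (m : U) = m := fun i => (σ ^ i).commutes m
    have h1 : ∑ i ∈ Finset.range n, (σ ^ i) x
        = m * (algebraMap E U (n * a) + ∑ i ∈ Finset.range n, (σ ^ i) ε) := by
      rw [hxe]
      simp only [map_mul, map_add, hσE, hσM]
      rw [← Finset.mul_sum, Finset.sum_add_distrib, Finset.sum_const, Finset.card_range,
        nsmul_eq_mul, map_natCast]
    rw [h1] at hsum
    have h2 : algebraMap E U (n * a) = - ∑ i ∈ Finset.range n, (σ ^ i) ε := by
      have := (mul_eq_zero.1 hsum).resolve_left hm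
      exact eq_neg_of_add_eq_zero_left this
    have h3 : algebraMap E U (n * a) ∈ W.nonunits := by
      rw [h2, G6.mem_nonunits_iff_val, Valuation.map_neg]
      refine Valuation.map_sum_lt _ one_ne_zero fun i _ => ?_
      exact hσn i ε hε
    have h4 := G6.const_eq_zero hW h3
    rcases mul_eq_zero.1 h4 with h | h
    · rw [Nat.cast_eq_zero] at h
      omega
    · exact ha h
  apply AlgEquiv.ext
  intro x
  -- finite orbit
  obtain ⟨n, hn, hnx⟩ : ∃ n : ℕ, 0 < n ∧ (σ ^ n) x = x := by
    have hint : IsIntegral M x := Algebra.IsIntegral.isIntegral _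
    let f : ℕ → (minpoly M x).rootSet U := fun i => ⟨(σ ^ i) x, by
      rw [Polynomial.mem_rootSet]
      refine ⟨minpoly.ne_zero hint, ?_⟩
      have h2 : Polynomial.aeval ((σ ^ i) x) (minpoly M x) =
          (σ ^ i) (Polynomial.aeval x (minpoly M x)) :=
        Polynomial.aeval_algHom_apply (σ ^ i).toAlgHom _ _
      rw [h2, minpoly.aeval, map_zero]⟩
    have hfin : Finite ((minpoly M x).rootSet U) := (Polynomial.rootSet_finite _ _).to_subtype
    obtain ⟨i, j, hij, hfij⟩ := Finite.exists_ne_map_eq_of_infinite f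
    have h1 : (σ ^ i) x = (σ ^ j) x := congrArg Subtype.val hfij
    have key : ∀ i j : ℕ, i < j → (σ ^ i) x = (σ ^ j) x → ∃ n : ℕ, 0 < n ∧ (σ ^ n) x = x := by
      intro i j hij h
      refine ⟨j - i, by omega, ?_⟩
      apply (σ ^ i).injective
      rw [h, ← AlgEquiv.mul_apply, ← pow_add]
      congr 2
      omega
    rcases lt_or_gt_of_ne hij with h | h
    · exact key i j h h1
    · exact key j i h h1.symm
  set y := ∑ i ∈ Finset.range n, (σ ^ i) x with hy
  have hσy : σ y = y := by
    rw [hy, map_sum]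
    have h1 : ∀ i, σ ((σ ^ i) x) = (σ ^ (i + 1)) x := by
      intro i
      rw [pow_succ', AlgEquiv.mul_apply]
    simp only [h1]
    have h2 := Finset.sum_range_succ' (fun i => (σ ^ i) x) n
    have h3 := Finset.sum_range_succ (fun i => (σ ^ i) x) n
    rw [h3, hnx] at h2
    exact (add_right_cancel h2).symm
  have hσiy : ∀ i : ℕ, (σ ^ i) y = y := by
    intro i
    induction i with
    | zero => rfl
    | succ i ih => rw [pow_succ', AlgEquiv.mul_apply, ih, hσy]
  have hx' : (n : U) * x - y = 0 := by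
    by_contra hne
    apply htr n _ hn hne
    simp only [map_sub, map_mul, map_natCast, hσiy]
    rw [Finset.sum_sub_distrib, ← Finset.mul_sum, ← hy, Finset.sum_const, Finset.card_range,
      nsmul_eq_mul, sub_self]
  have hn0 : (n : U) ≠ 0 := Nat.cast_ne_zero.2 hn.ne'
  have h5 : (n : U) * x = y := sub_eq_zero.1 hx'
  apply mul_left_cancel₀ hn0
  rw [AlgEquiv.one_apply, h5]
  have h6 := congrArg σ h5
  rw [map_mul, map_natCast, hσy] at h6
  exact h6

/-- G6.  The fixed place is unique. -/
theorem fixed_unique (M : IntermediateField E U) (hc : IsCover M)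
    (hdiv : ∀ N : IntermediateField E U, IsFunctionField E N → PicDiv E N)
    {ℓ : ℕ} (hℓ : ℓ.Prime) (g : U ≃ₐ[E] U) (hgM : ∀ x, x ∈ M ↔ g x ∈ M) (hg : g ^ ℓ = 1)
    (hne : ∃ x ∈ M, g x ≠ x)
    (h3 : ∃ P : Fin 3 → Place E M, Function.Injective P ∧
      ∀ i, ∀ x y : M, (y : U) = g x → (x ∈ (P i).ring ↔ y ∈ (P i).ring))
    {W W' : ValuationSubring U} (hW : ∀ c : E, algebraMap E U c ∈ W) (hW1 : W ≠ ⊤)
    (hWg : ∀ z, g z ∈ W ↔ z ∈ W) (hW' : ∀ c : E, algebraMap E U c ∈ W') (hW1' : W' ≠ ⊤)
    (hWg' : ∀ z, g z ∈ W' ↔ z ∈ W') : W = W' := by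
  classical
  have hgal := hc.gal
  by_contra hWW
  by_cases hM : ∀ x : M, algebraMap M U x ∈ W ↔ algebraMap M U x ∈ W'
  · obtain ⟨σ, hσ⟩ := exists_conj_val (L := M) (Ω := U) W W' hM
    have hσ' : ∀ z, σ⁻¹ z ∈ W ↔ z ∈ W' := by
      intro z
      rw [← hσ, ← AlgEquiv.mul_apply, mul_inv_cancel, AlgEquiv.one_apply]
    -- `σ` commutes with `g`
    have hτ1 := eq_one_of_fix M hc (σ⁻¹ * conjAut g hgM σ) hW hW1 (by
      intro z
      rw [AlgEquiv.mul_apply, hσ', conjAut_apply, hWg', hσ]
      rw [← hWg, AlgEquiv.apply_symm_apply])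
    have hcomm : ∀ z, g (σ z) = σ (g z) := by
      intro z
      have h1 : conjAut g hgM σ = σ := by
        rw [inv_mul_eq_one] at hτ1
        exact hτ1.symm
      have h2 := AlgEquiv.congr_fun h1 (g z)
      rwa [conjAut_apply, AlgEquiv.symm_apply_apply] at h2
    have hcomm' : ∀ z, σ⁻¹ (g z) = g (σ⁻¹ z) := by
      intro z
      apply σ.injective
      rw [← hcomm, ← AlgEquiv.mul_apply σ, mul_inv_cancel, ← AlgEquiv.mul_apply σ, mul_inv_cancel]
      rfl
    have hσ1 : σ ≠ 1 := by
      intro h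
      apply hWW
      ext z
      have := hσ z
      rw [h] at this
      exact this.symm
    have hσ2 : σ * σ ≠ 1 := by
      intro h
      let s : U ≃ₐ[E] U := σ.restrictScalars E
      have hs : ∀ z, s z = σ z := fun z => rfl
      obtain ⟨W0, h1, h2, h4⟩ := exists_fixed M hc hdiv Nat.prime_two s (fun x => by
          constructor
          · intro hx
            have : s x = x := σ.commutes ⟨x, hx⟩
            rwa [this]
          · intro hx
            have h5 : σ (s x) = s x := σ.commutes ⟨s x, hx⟩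
            have h6 : σ (s x) = x := by
              rw [hs, ← AlgEquiv.mul_apply, h]; rfl
            rw [← h5, h6] at hx
            exact hx) (by
          apply AlgEquiv.ext
          intro z
          rw [sq, AlgEquiv.mul_apply, hs, hs, ← AlgEquiv.mul_apply, h]; rfl) (by
          intro h5
          apply hσ1
          apply AlgEquiv.ext
          intro z
          have := AlgEquiv.congr_fun h5 z
          rw [hs] at this
          rw [this]; rfl)
      exact hσ1 (eq_one_of_fix M hc σ h1 h2 h4)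
    -- the third valuation ring
    let W'' : ValuationSubring U := W.comap ((σ⁻¹ * σ⁻¹ : U ≃ₐ[M] U) : U →+* U)
    have hm'' : ∀ z, z ∈ W'' ↔ σ⁻¹ (σ⁻¹ z) ∈ W := fun z => Iff.rfl
    have hE'' : ∀ c : E, algebraMap E U c ∈ W'' := by
      intro c
      have h1 : ∀ c : E, σ⁻¹ (algebraMap E U c) = algebraMap E U c := by
        intro c
        rw [IsScalarTower.algebraMap_apply E M U]
        exact σ⁻¹.commutes _
      rw [hm'', h1, h1]
      exact hW c
    have hW1'' : W'' ≠ ⊤ := by
      intro h
      apply hW1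
      rw [eq_top_iff]
      intro z _
      have h1 : σ (σ z) ∈ W'' := by rw [h]; trivial
      rw [hm''] at h1
      have h2 : ∀ z, σ⁻¹ (σ z) = z := by
        intro z
        rw [← AlgEquiv.mul_apply, inv_mul_cancel]; rfl
      rwa [h2, h2] at h1
    have hWg'' : ∀ z, g z ∈ W'' ↔ z ∈ W'' := by
      intro z
      rw [hm'', hm'', hcomm', hcomm', hWg]
    have hne1 : W ≠ W'' := by
      intro h
      apply hσ2
      have h1 := eq_one_of_fix M hc (σ⁻¹ * σ⁻¹) hW hW1 (by
        intro z
        rw [AlgEquiv.mul_apply, ← hm'', ← h])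
      rw [← mul_inv_rev, inv_eq_one] at h1
      exact h1
    have hne2 : W' ≠ W'' := by
      intro h
      apply hσ1
      have h1 := eq_one_of_fix M hc σ⁻¹ hW hW1 (by
        intro z
        have h2 : σ z ∈ W' ↔ σ z ∈ W'' := by rw [h]
        have h4 : σ⁻¹ (σ z) = z := by
          rw [← AlgEquiv.mul_apply, inv_mul_cancel]; rfl
        rw [hσ, hm'', h4] at h2
        exact h2.symm)
      rw [inv_eq_one] at h1
      exact h1
    -- witnesses
    obtain ⟨x1, hx1⟩ : ∃ x, ¬ (x ∈ W ↔ x ∈ W') := by
      by_contra hcon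
      push Not at hcon
      exact hWW (SetLike.ext hcon)
    obtain ⟨x2, hx2⟩ : ∃ x, ¬ (x ∈ W ↔ x ∈ W'') := by
      by_contra hcon
      push Not at hcon
      exact hne1 (SetLike.ext hcon)
    obtain ⟨x3, hx3⟩ : ∃ x, ¬ (x ∈ W' ↔ x ∈ W'') := by
      by_contra hcon
      push Not at hcon
      exact hne2 (SetLike.ext hcon)
    obtain ⟨N', hfin, -, hSN, hgN'⟩ := exists_level M g hgM hℓ.pos hg {x1, x2, x3}
    let N : IntermediateField E U := N'.restrictScalars E
    have hN : IsFunctionField E N := isFunctionField_restrictScalars hc.ff N'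
    have hgN : ∀ x ∈ N, g x ∈ N := hgN'
    have hgN2 : ∀ x, x ∈ N ↔ g x ∈ N := by
      intro x
      refine ⟨hgN x, fun h => ?_⟩
      have h1 := map_pow_mem hgN h (ℓ - 1)
      rwa [← AlgEquiv.mul_apply, ← pow_succ, Nat.sub_add_cancel hℓ.pos, hg] at h1
    have hMN : M ≤ N := fun x hx => N'.algebraMap_mem ⟨x, hx⟩
    have unr : ∀ W : ValuationSubring U, (∀ c : E, algebraMap E U c ∈ W) → ∀ u : U,
        ∃ m ∈ N, W.valuation u = W.valuation m := by
      intro W hW u
      obtain ⟨m, hm, h⟩ := hc.unr W hW u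
      exact ⟨m, hMN hm, h⟩
    have hx1N : x1 ∈ N := hSN _ (by simp)
    have hx2N : x2 ∈ N := hSN _ (by simp)
    have hx3N : x3 ∈ N := hSN _ (by simp)
    obtain ⟨x0, hx0, hgx0⟩ := hne
    have hY := isFunctionField_fixedIn hgN hℓ.pos hg hN
    refine G6_core N (fixedIn g N) hN hY (hdiv _ hY) unr hc.root hℓ g hg hgN2
      (fun x => mem_fixedIn) ⟨x0, hMN hx0, hgx0⟩ hW hW1 hWg hW' hW1' hWg'
      (G6.traceP N unr W'' hE'' hW1'') ?_ ?_ ?_ ?_
    · intro x y hxy
      rw [G6.mem_traceP, G6.mem_traceP, hxy, hWg'']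
    · intro h
      exact hx1 (h ⟨x1, hx1N⟩)
    · intro h
      exact hx2 (h ⟨x2, hx2N⟩)
    · intro h
      exact hx3 (h ⟨x3, hx3N⟩)
  · obtain ⟨P, hPinj, hPg⟩ := h3
    have hgMM : ∀ x ∈ M, g x ∈ M := fun x hx => (hgM x).1 hx
    have hY := isFunctionField_fixedIn hgMM hℓ.pos hg hc.ff
    obtain ⟨i, hi1, hi2⟩ : ∃ i, (¬ ∀ x : M, (x : U) ∈ W ↔ x ∈ (P i).ring) ∧
        ¬ ∀ x : M, (x : U) ∈ W' ↔ x ∈ (P i).ring := by
      by_contra hcon
      push Not at hcon
      have hring : ∀ i j, (P i).ring = (P j).ring → i = j := by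
        intro i j h
        apply hPinj
        exact Place.ext h
      have key : ∀ i j, (∀ x : M, (x : U) ∈ W ↔ x ∈ (P i).ring) →
          (∀ x : M, (x : U) ∈ W ↔ x ∈ (P j).ring) → i = j := by
        intro i j h1 h2
        apply hring
        ext x
        rw [← h1, ← h2]
      have key' : ∀ i j, (∀ x : M, (x : U) ∈ W' ↔ x ∈ (P i).ring) →
          (∀ x : M, (x : U) ∈ W' ↔ x ∈ (P j).ring) → i = j := by
        intro i j h1 h2
        apply hring
        ext x
        rw [← h1, ← h2]
      have h' : ∀ i, (∀ x : M, (x : U) ∈ W ↔ x ∈ (P i).ring) ∨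
          (∀ x : M, (x : U) ∈ W' ↔ x ∈ (P i).ring) := by
        intro i
        by_cases h : ∀ x : M, (x : U) ∈ W ↔ x ∈ (P i).ring
        · exact Or.inl h
        · right
          push Not at h
          exact hcon i h
      have h01 : (0 : Fin 3) ≠ 1 := by decide
      have h02 : (0 : Fin 3) ≠ 2 := by decide
      have h12 : (1 : Fin 3) ≠ 2 := by decide
      rcases h' 0 with a | a <;> rcases h' 1 with b | b <;> rcases h' 2 with c | c
      · exact h01 (key _ _ a b)
      · exact h01 (key _ _ a b)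
      · exact h02 (key _ _ a c)
      · exact h12 (key' _ _ b c)
      · exact h12 (key _ _ b c)
      · exact h02 (key' _ _ a c)
      · exact h01 (key' _ _ a b)
      · exact h01 (key' _ _ a b)
    exact G6_core M (fixedIn g M) hc.ff hY (hdiv _ hY) hc.unr hc.root hℓ g hg hgM
      (fun x => mem_fixedIn) hne hW hW1 hWg hW' hW1' hWg' (P i) (hPg i) hM hi1 hi2

end

end Pool.Agent.SC
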