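import Mathlib
import Pool.Agent.SC.FU1
import Pool.Agent.SC.G6

/-!
# FU: the fixed place is unique for every nonrational function field
-/

universe u

namespace Pool.Agent.SC

open VC Module

variable {E U : Type u} [Field E] [Field U] [Algebra E U] [IsAlgClosed E]

/-- an element of `Y` all of whose orders are divisible by `n` is an `n`-th power in a cover -/
theorem exists_root_of_dvd
    (hroot : ∀ (u : U) (n : ℕ), 0 < n →
      (∀ W : ValuationSubring U, (∀ c : E, algebraMap E U c ∈ W) →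
        ∃ v : U, W.valuation u = W.valuation (v ^ n)) → ∃ w : U, w ^ n = u)
    {Y : IntermediateField E U} (hY : IsFunctionField E Y) {n : ℕ} (hn : 0 < n) {f : Y}
    (hf : f ≠ 0) (hord : ∀ P : Place E Y, (n : ℤ) ∣ ord P.ring f) : ∃ w : U, w ^ n = f := by
  refine hroot (f : U) n hn ?_
  intro W hW
  by_cases h : ∃ x ∈ Y, x ∉ W
  · let P : Place E Y := resPlace W hW Y h
    obtain ⟨m, hm⟩ := hord P
    obtain ⟨π, hπ0, hπ⟩ := FF.exists_ord_eq hY P m
    refine ⟨(π : U), ?_⟩
    have h1 : W.valuation (algebraMap Y U f) = W.valuation (algebraMap Y U (π ^ n)) := by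
      refine (val_eq_iff_ord_eq (N := U) (R := W) hY P (fun z => Iff.rfl) hf
        (pow_ne_zero _ hπ0)).2 ?_
      rw [hm, FF.ord_pow hY P hπ0, hπ]
    rw [map_pow] at h1
    exact h1
  · push Not at h
    refine ⟨1, ?_⟩
    rw [one_pow, map_one]
    apply le_antisymm
    · rw [W.valuation_le_one_iff]
      exact h _ f.2
    · have h1 : W.valuation ((f : U)⁻¹) ≤ 1 := by
        rw [W.valuation_le_one_iff]
        exact h _ (Y.inv_mem f.2)
      have h2 : W.valuation (f : U) ≠ 0 :=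
        (Valuation.ne_zero_iff _).2 (fun h => hf (Subtype.ext h))
      rw [map_inv₀] at h1
      exact (inv_le_one₀ (zero_lt_iff.2 h2)).1 h1

/-- An automorphism over `M` with an eigenvector moves every place (`U / M` is unramified). -/
theorem not_fixed_of_eigen {M N : IntermediateField E U} (hc : IsCover M) (hMN : M ≤ N)
    (hN : IsFunctionField E N) {W : ValuationSubring U} (hW : ∀ c : E, algebraMap E U c ∈ W)
    (hW1 : W ≠ ⊤) (τ : U ≃ₐ[M] U) (hτN : ∀ x ∈ N, τ x ∈ N) {w : U} (hwN : w ∈ N) (hw0 : w ≠ 0)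
    {η : E} (hη : η ≠ 1) (hτw : τ w = algebraMap E U η * w)
    (hst : ∀ x ∈ N, x ∈ W ↔ τ x ∈ W) : False := by
  have hgal := hc.gal
  obtain ⟨m₀, hm₀, hm₀W⟩ := exists_notMem_of_algebraic (M := M) hW1
  let P : Place E N := resPlace W hW N ⟨m₀, hMN hm₀, hm₀W⟩
  obtain ⟨m, hmM, hm⟩ := hc.unr W hW w
  have hm0 : m ≠ 0 := by
    rintro rfl
    rw [map_zero, Valuation.zero_iff] at hm
    exact hw0 hm
  have hτE : ∀ c : E, τ (algebraMap E U c) = algebraMap E U c := fun c =>
    τ.commutes ⟨_, M.algebraMap_mem c⟩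
  have hτm : τ m = m := τ.commutes ⟨m, hmM⟩
  have hxN : w / m ∈ N := N.div_mem hwN (hMN hmM)
  have hval : W.valuation (w / m) = 1 := by
    rw [map_div₀, hm, div_self ((Valuation.ne_zero_iff _).2 hm0)]
  refine not_unit_of_fixed (E := E) (R := P.ring) (σ := fun x : N => ⟨τ x, hτN x x.2⟩)
    (v := ⟨w / m, hxN⟩) (ξ := η) ?_ P.algebraMap_mem ?_ ?_ hη ?_ ?_ ?_
  · intro c x
    apply Subtype.ext
    change τ (algebraMap E U c + x) = algebraMap E U c + τ x
    rw [map_add, hτE]
  · intro x hx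
    exact FF.exists_residue hN P hx
  · intro x hx
    rw [ValuationSubring.mem_nonunits_iff_or] at hx ⊢
    rcases hx with rfl | hx
    · left
      apply Subtype.ext
      change τ ((0 : N) : U) = 0
      rw [ZeroMemClass.coe_zero, map_zero]
    · right
      intro h
      apply hx
      have h1 : (τ (x : U))⁻¹ ∈ W := h
      rw [← map_inv₀] at h1
      exact (hst _ (N.inv_mem x.2)).2 h1
  · apply Subtype.ext
    change τ (w / m) = algebraMap E U η * (w / m)
    rw [map_div₀, hτw, hτm, mul_div_assoc]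
  · change w / m ∈ W
    rw [← W.valuation_le_one_iff, hval]
  · intro h
    rw [ValuationSubring.mem_nonunits_iff_or] at h
    rcases h with h | h
    · have h1 : w / m = 0 := congrArg Subtype.val h
      exact div_ne_zero hw0 hm0 h1
    · apply h
      change (w / m)⁻¹ ∈ W
      rw [← W.valuation_le_one_iff, map_inv₀, hval, inv_one]

variable [CharZero E]

/-- FU.  An automorphism of prime order which is nontrivial on the nonrational function field `M`
has at most one fixed place on the cover `U`. -/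
theorem fixed_unique' (M : IntermediateField E U) (hc : IsCover M)
    (hdiv : ∀ N : IntermediateField E U, IsFunctionField E N → PicDiv E N)
    (htor : ∀ Y : IntermediateField E U, IsFunctionField E Y →
      (∀ y : Y, IntermediateField.adjoin E {y} ≠ ⊤) → ∀ n : ℕ, 0 < n →
      ∃ q : ℕ, q.Prime ∧ ¬ q ∣ n ∧ ∃ f : Y, f ≠ 0 ∧
        (∀ P : Place E Y, (q : ℤ) ∣ ord P.ring f) ∧ ∀ v : Y, v ^ q ≠ f)
    (hM : ∀ y : M, IntermediateField.adjoin E {y} ≠ ⊤)
    {ℓ : ℕ} (hℓ : ℓ.Prime) (g : U ≃ₐ[E] U) (hgM : ∀ x, x ∈ M ↔ g x ∈ M) (hg : g ^ ℓ = 1)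
    (hne : ∃ x ∈ M, g x ≠ x)
    {W W' : ValuationSubring U} (hW : ∀ c : E, algebraMap E U c ∈ W) (hW1 : W ≠ ⊤)
    (hWg : ∀ z, g z ∈ W ↔ z ∈ W) (hW' : ∀ c : E, algebraMap E U c ∈ W') (hW1' : W' ≠ ⊤)
    (hWg' : ∀ z, g z ∈ W' ↔ z ∈ W') : W = W' := by
  classical
  have hgal := hc.gal
  have hgM1 : ∀ x ∈ M, g x ∈ M := fun x hx => (hgM x).1 hx
  have hY := isFunctionField_fixedIn hgM1 hℓ.pos hg hc.ff
  by_cases hYr : ∃ x : fixedIn g M, IntermediateField.adjoin E {x} = ⊤
  · exact fixed_unique M hc hdiv hℓ g hgM hg hne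
      (exists_three_of_rational hc.root hdiv hℓ hg hc.ff hgM1 hne hM hYr) hW hW1 hWg hW' hW1' hWg'
  push Not at hYr
  obtain ⟨q, hq, hqn, f, hf0, hford, hfq⟩ := htor _ hY hYr (2 * ℓ) (by have := hℓ.pos; omega)
  obtain ⟨w, hw⟩ := exists_root_of_dvd hc.root hY hq.pos hf0 hford
  have hfU0 : (f : U) ≠ 0 := fun h => hf0 (Subtype.ext h)
  have hw0 : w ≠ 0 := by
    rintro rfl
    rw [zero_pow hq.ne_zero] at hw
    exact hfU0 hw.symm
  have hq2 : 2 < q := by
    have h1 := hq.two_le
    rcases h1.lt_or_eq with h | h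
    · exact h
    · exact absurd (h ▸ dvd_mul_right 2 ℓ) hqn
  have hqℓ : Nat.Coprime q ℓ := by
    rw [Nat.coprime_primes hq hℓ]
    rintro rfl
    exact hqn (dvd_mul_left q 2)
  -- `g w = w`
  have hgf : g (f : U) = f := f.2.2
  obtain ⟨θ, hθ⟩ : ∃ θ : E, algebraMap E U θ = g w / w := by
    refine exists_algebraMap_of_pow_eq_one (n := q) hq.pos ?_
    rw [div_pow, ← map_pow, hw, hgf, div_self hfU0]
  have hgw' : g w = algebraMap E U θ * w := by
    rw [hθ, div_mul_cancel₀ _ hw0]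
  have hθq : θ ^ q = 1 := by
    apply (algebraMap E U).injective
    rw [map_pow, hθ, div_pow, ← map_pow, hw, hgf, div_self hfU0, map_one]
  have hgj : ∀ j : ℕ, (g ^ j) w = algebraMap E U (θ ^ j) * w := by
    intro j
    induction j with
    | zero => rw [pow_zero, pow_zero, map_one, one_mul]; rfl
    | succ j ih =>
      rw [pow_succ', AlgEquiv.mul_apply, ih, map_mul, AlgEquiv.commutes, hgw', pow_succ, map_mul]
      ring
  have hθℓ : θ ^ ℓ = 1 := by
    have h3 := hgj ℓ
    rw [hg] at h3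
    have h5 : algebraMap E U (θ ^ ℓ) * w = 1 * w := by
      rw [one_mul]
      exact h3.symm
    have h4 := mul_right_cancel₀ hw0 h5
    apply (algebraMap E U).injective
    rw [h4, map_one]
  have hθ1 : θ = 1 := by
    have h1 : orderOf θ ∣ Nat.gcd q ℓ :=
      Nat.dvd_gcd (orderOf_dvd_of_pow_eq_one hθq) (orderOf_dvd_of_pow_eq_one hθℓ)
    rw [hqℓ] at h1
    exact orderOf_eq_one_iff.1 (Nat.dvd_one.1 h1)
  have hgw : g w = w := by rw [hgw', hθ1, map_one, one_mul]
  have hwM : w ∉ M := by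
    intro h
    exact hfq ⟨w, h, hgw⟩ (Subtype.ext hw)
  -- an automorphism over `M` moving `w`
  obtain ⟨σ, hσ⟩ : ∃ σ : U ≃ₐ[M] U, σ w ≠ w := by
    by_contra hcon
    push Not at hcon
    have h1 := (InfiniteGalois.mem_bot_iff_fixed w).2 hcon
    obtain ⟨m, hm⟩ := IntermediateField.mem_bot.1 h1
    exact hwM (hm ▸ m.2)
  have hσE : ∀ c : E, σ (algebraMap E U c) = algebraMap E U c := fun c =>
    σ.commutes ⟨_, M.algebraMap_mem c⟩
  have hσM : ∀ m ∈ M, σ m = m := fun m hm => σ.commutes ⟨m, hm⟩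
  have hσf : σ (f : U) = f := hσM _ f.2.1
  obtain ⟨ξ, hξ⟩ : ∃ ξ : E, algebraMap E U ξ = σ w / w := by
    refine exists_algebraMap_of_pow_eq_one (n := q) hq.pos ?_
    rw [div_pow, ← map_pow, hw, hσf, div_self hfU0]
  have hσw : σ w = algebraMap E U ξ * w := by
    rw [hξ, div_mul_cancel₀ _ hw0]
  have hξq : ξ ^ q = 1 := by
    apply (algebraMap E U).injective
    rw [map_pow, hξ, div_pow, ← map_pow, hw, hσf, div_self hfU0, map_one]
  have hξ1 : ξ ≠ 1 := by
    rintro rfl
    rw [map_one, one_mul] at hσw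
    exact hσ hσw
  have hξord : orderOf ξ = q := by
    rcases (Nat.dvd_prime hq).1 (orderOf_dvd_of_pow_eq_one hξq) with h | h
    · exact absurd (orderOf_eq_one_iff.1 h) hξ1
    · exact h
  have hξ0 : ξ ≠ 0 := by
    rintro rfl
    rw [zero_pow hq.ne_zero] at hξq
    exact zero_ne_one hξq
  have hσj : ∀ j : ℕ, (σ ^ j) w = algebraMap E U (ξ ^ j) * w := by
    intro j
    induction j with
    | zero => rw [pow_zero, pow_zero, map_one, one_mul]; rfl
    | succ j ih =>
      rw [pow_succ', AlgEquiv.mul_apply, ih, map_mul, hσE, hσw, pow_succ, map_mul]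
      ring
  -- the level `N = M(w)`
  let N' : IntermediateField M U := IntermediateField.adjoin M {w}
  have hint : IsIntegral M w := Algebra.IsIntegral.isIntegral w
  have hfin : FiniteDimensional M N' := IntermediateField.adjoin.finiteDimensional hint
  let N : IntermediateField E U := N'.restrictScalars E
  have hN : IsFunctionField E N := isFunctionField_restrictScalars hc.ff N'
  have hMN : M ≤ N := fun x hx => N'.algebraMap_mem ⟨x, hx⟩
  have hwN : w ∈ N := IntermediateField.mem_adjoin_simple_self M w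
  have hind : ∀ (p : U → Prop), (∀ m ∈ M, p m) → p w → (∀ x ∈ N, ∀ y ∈ N, p x → p y → p (x + y)) →
      (∀ x ∈ N, ∀ y ∈ N, p x → p y → p (x * y)) → (∀ x ∈ N, p x → p x⁻¹) → ∀ x ∈ N, p x := by
    intro p h1 h2 h3 h4 h5 x hx
    change x ∈ IntermediateField.adjoin M {w} at hx
    induction hx using IntermediateField.adjoin_induction with
    | mem x hx => rw [Set.mem_singleton_iff] at hx; rw [hx]; exact h2
    | algebraMap m => exact h1 m m.2
    | add x y hx hy ihx ihy => exact h3 x hx y hy ihx ihy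
    | inv x hx ih => exact h5 x hx ih
    | mul x y hx hy ihx ihy => exact h4 x hx y hy ihx ihy
  have hgN1 : ∀ x ∈ N, g x ∈ N := by
    refine hind (fun x => g x ∈ N) (fun m hm => hMN (hgM1 m hm)) (by rw [hgw]; exact hwN) ?_ ?_ ?_
    · intro x _ y _ hx hy
      rw [map_add]
      exact add_mem hx hy
    · intro x _ y _ hx hy
      rw [map_mul]
      exact mul_mem hx hy
    · intro x _ hx
      rw [map_inv₀]
      exact inv_mem hx
  have hgN : ∀ x, x ∈ N ↔ g x ∈ N := by
    intro x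
    refine ⟨hgN1 x, fun hx => ?_⟩
    have h1 := map_pow_mem hgN1 hx (ℓ - 1)
    rw [← AlgEquiv.mul_apply, ← pow_succ, Nat.sub_add_cancel hℓ.pos, hg] at h1
    exact h1
  have hσN : ∀ x ∈ N, σ x ∈ N := by
    refine hind (fun x => σ x ∈ N) (fun m hm => by rw [hσM m hm]; exact hMN hm)
      (by rw [hσw]; exact mul_mem (N.algebraMap_mem ξ) hwN) ?_ ?_ ?_
    · intro x _ y _ hx hy
      rw [map_add]
      exact add_mem hx hy
    · intro x _ y _ hx hy
      rw [map_mul]
      exact mul_mem hx hy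
    · intro x _ hx
      rw [map_inv₀]
      exact inv_mem hx
  have hσN' : ∀ (j : ℕ), ∀ x ∈ N, (σ ^ j) x ∈ N := by
    intro j
    induction j with
    | zero => intro x hx; exact hx
    | succ j ih =>
      intro x hx
      rw [pow_succ', AlgEquiv.mul_apply]
      exact hσN _ (ih x hx)
  have hσq : ∀ x ∈ N, (σ ^ q) x = x := by
    refine hind (fun x => (σ ^ q) x = x) ?_ ?_ ?_ ?_ ?_
    · intro m hm
      exact (σ ^ q).commutes ⟨m, hm⟩
    · rw [hσj, hξq, map_one, one_mul]
    · intro x _ y _ hx hy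
      rw [map_add, hx, hy]
    · intro x _ y _ hx hy
      rw [map_mul, hx, hy]
    · intro x _ hx
      rw [map_inv₀, hx]
  have hcomm : ∀ x ∈ N, σ (g x) = g (σ x) := by
    refine hind (fun x => σ (g x) = g (σ x)) ?_ ?_ ?_ ?_ ?_
    · intro m hm
      rw [hσM m hm, hσM _ (hgM1 m hm)]
    · rw [hgw, hσw, map_mul, AlgEquiv.commutes, hgw]
    · intro x _ y _ hx hy
      rw [map_add, map_add, map_add, map_add, hx, hy]
    · intro x _ y _ hx hy
      rw [map_mul, map_mul, map_mul, map_mul, hx, hy]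
    · intro x _ hx
      rw [map_inv₀, map_inv₀, map_inv₀, map_inv₀, hx]
  have hcommj : ∀ (j : ℕ), ∀ x ∈ N, (σ ^ j) (g x) = g ((σ ^ j) x) := by
    intro j
    induction j with
    | zero => intro x hx; rfl
    | succ j ih =>
      intro x hx
      rw [pow_succ', AlgEquiv.mul_apply, AlgEquiv.mul_apply, ih x hx, hcomm _ (hσN' j x hx)]
  -- `U` is a cover of `N`
  have hcN : IsCover N :=
    { ff := hN
      gal := IsGalois.tower_top_intermediateField N'
      unr := fun V hV u => by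
        obtain ⟨m, hm, h1⟩ := hc.unr V hV u
        exact ⟨m, hMN hm, h1⟩
      root := hc.root }
  obtain ⟨m₀, hm₀, hm₀W⟩ := exists_notMem_of_algebraic (M := M) hW1
  let Wj : ℕ → ValuationSubring U := fun j => W.comap ((σ ^ j).toRingEquiv : U →+* U)
  have hWjE : ∀ j, ∀ c : E, algebraMap E U c ∈ Wj j := by
    intro j c
    change (σ ^ j) (algebraMap E U c) ∈ W
    have h1 : (σ ^ j) (algebraMap E U c) = algebraMap E U c :=
      (σ ^ j).commutes ⟨_, M.algebraMap_mem c⟩
    rw [h1]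
    exact hW c
  let P : ℕ → Place E N := fun j => resPlace (Wj j) (hWjE j) N ⟨m₀, hMN hm₀, by
    intro h
    have h1 : (σ ^ j) m₀ ∈ W := h
    have h2 : (σ ^ j) m₀ = m₀ := (σ ^ j).commutes ⟨m₀, hm₀⟩
    rw [h2] at h1
    exact hm₀W h1⟩
  have hP : ∀ j (x : N), x ∈ (P j).ring ↔ (σ ^ j) (x : U) ∈ W := fun j x => Iff.rfl
  have hPne : ∀ i j : ℕ, i < j → j < q → P i ≠ P j := by
    intro i j hij hjq hPP
    refine not_fixed_of_eigen hc hMN hN hW hW1 (σ ^ (j - i)) (hσN' _) hwN hw0
      (η := ξ ^ (j - i)) ?_ (hσj _) ?_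
    · intro h
      have h1 := orderOf_dvd_of_pow_eq_one h
      rw [hξord] at h1
      have h2 := Nat.le_of_dvd (by omega) h1
      omega
    · intro y hy
      have hx : (σ ^ (q - i)) y ∈ N := hσN' _ y hy
      have h1 : (⟨_, hx⟩ : N) ∈ (P i).ring ↔ (⟨_, hx⟩ : N) ∈ (P j).ring := by rw [hPP]
      rw [hP, hP] at h1
      have h2 : (σ ^ i) ((σ ^ (q - i)) y) = y := by
        rw [← AlgEquiv.mul_apply, ← pow_add, show i + (q - i) = q by omega, hσq y hy]
      have h3 : (σ ^ j) ((σ ^ (q - i)) y) = (σ ^ (j - i)) y := by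
        rw [← AlgEquiv.mul_apply, ← pow_add, show j + (q - i) = (j - i) + q by omega, pow_add,
          AlgEquiv.mul_apply, hσq y hy]
      simp only [h2, h3] at h1
      exact h1
  refine fixed_unique N hcN hdiv hℓ g hgN hg ?_ ⟨fun i : Fin 3 => P i.1, ?_, ?_⟩ hW hW1 hWg hW'
    hW1' hWg'
  · obtain ⟨x, hx, hgx⟩ := hne
    exact ⟨x, hMN hx, hgx⟩
  · intro i j hij
    have hi := i.2
    have hj := j.2
    rcases lt_trichotomy i.1 j.1 with h | h | h
    · exact absurd hij (hPne _ _ h (by omega))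
    · exact Fin.ext h
    · exact absurd hij.symm (hPne _ _ h (by omega))
  · intro i x y hxy
    rw [hP, hP, hxy, hcommj _ _ x.2, hWg]

end Pool.Agent.SC
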