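import Pool.Agent.SC.T3
import Pool.Agent.Helper17.FF.PicDiv

/-!
# The final theorem, with uniqueness of fixed places as a hypothesis
-/

universe u

set_option linter.unusedSectionVars false

namespace Pool.Agent.SC

open VC IntermediateField Module Pool.Agent.Helper91.Sect

section Abs

variable {k K : Type u} [Field k] [CharZero k] [Field K] [Algebra k K]
  {E : Type u} [Field E] [IsAlgClosed E] [CharZero E] [Algebra E (kbar k K)]
  [Algebra E (AlgebraicClosure K)] [IsScalarTower E (kbar k K) (AlgebraicClosure K)]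

/-- An automorphism of `U` of prime order, nontrivial on `M`, fixes at most one place. -/
def UniqueFixed {E U : Type u} [Field E] [Field U] [Algebra E U] (M : IntermediateField E U) :
    Prop :=
  ∀ g : U ≃ₐ[E] U, (orderOf g).Prime → (∀ x, x ∈ M ↔ g x ∈ M) → (∃ x ∈ M, g x ≠ x) →
    ∀ W W' : ValuationSubring U,
    (∀ c : E, algebraMap E U c ∈ W) → W ≠ ⊤ → (∀ z, g z ∈ W ↔ z ∈ W) →
    (∀ c : E, algebraMap E U c ∈ W') → W' ≠ ⊤ → (∀ z, g z ∈ W' ↔ z ∈ W') → W = W'

/-- The constants fixed by all automorphisms which are the identity on `M1`. -/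
def fixedConst (k : Type u) {K : Type u} [Field k] [Field K] [Algebra k K]
    (M1 : Set (AlgebraicClosure K)) : Set (kbar k K) :=
  {z | ∀ ρ : AlgebraicClosure K ≃ₐ[K] AlgebraicClosure K, (∀ m ∈ M1, ρ m = m) →
    ρ z = z}

theorem section_fixes_place_abs (s : GaloisSection k K)
    {M1 : IntermediateField E (AlgebraicClosure K)} {ι : Type u} {x : ι → kbar k K}
    (h : Isotrivial k K M1 x)
    (hstab : ∀ ρ : AlgebraicClosure K ≃ₐ[K] AlgebraicClosure K, ∀ m ∈ M1, ρ m ∈ M1)
    (hΛ : GenByFrob s E (fixedConst k (M1 : Set (AlgebraicClosure K))))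
    (hE : ∀ (γ : Gk k K) (c : E), ∃ d : E,
      γ (algebraMap E (kbar k K) c) = algebraMap E (kbar k K) d)
    (hnc : ∃ ρ : AlgebraicClosure K ≃ₐ[K] AlgebraicClosure K,
      (∀ c : E, ρ (algebraMap E (AlgebraicClosure K) c) = algebraMap E (AlgebraicClosure K) c) ∧
      ∃ m ∈ M1, ρ m ≠ m)
    (huniq : UniqueFixed (IntermediateField.restrict h.le_Kur0)) :
    ∃ V : ValuationSubring (Kur k K), V ≠ ⊤ ∧ (∀ c : kbar k K, toKur k K c ∈ V) ∧
      (∀ (γ : Gk k K) (w : Kur k K), s.toHom γ w ∈ V ↔ w ∈ V) ∧
      ∀ z : K, algebraMap K (Kur k K) z ∈ V →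
        ∃ c : k, V.valuation (algebraMap K (Kur k K) (z - algebraMap k K c)) < 1 := by
  have hle : ∀ z ∈ Kur0 k M1, z ∈ Kur k K := fun z hz => hz.1
  have hst := section_mem_Kur0 (k := k) s hstab
  have hKK : ∀ m ∈ M1, m ∈ KK k K := fun m hm => by
    rw [← h.comp]
    exact IntermediateField.subset_adjoin _ _ hm
  -- the action on `M1`
  have hact : ∀ (γ : Gk k K) (ρ : AlgebraicClosure K ≃ₐ[K] AlgebraicClosure K),
      (∀ z : kbar k K, (γ z : AlgebraicClosure K) = ρ z) → ∀ m : Kur0 k M1,
      (m : AlgebraicClosure K) ∈ M1 →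
      (act s hle hst γ m : AlgebraicClosure K) = ρ m := by
    intro γ ρ hγρ m hm
    exact section_eq_of_KK s hγρ (hKK _ hm)
  have hmem : ∀ m : Kur0 k M1, m ∈ IntermediateField.restrict h.le_Kur0 ↔
      (m : AlgebraicClosure K) ∈ M1 := fun m => IntermediateField.mem_restrict h.le_Kur0 m
  have hR : ∀ N : IntermediateField E (Kur0 k M1), IsFunctionField E N →
      Riemann E N ∧ PicDiv E N := fun N hN => ⟨FF.riemann hN, FF.picDiv hN⟩
  obtain ⟨W, hWE, hWt, hWs⟩ : ∃ W : ValuationSubring (Kur0 k M1),
      (∀ c : E, algebraMap E (Kur0 k M1) c ∈ W) ∧ W ≠ ⊤ ∧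
      ∀ (γ : Gk k K) (z : Kur0 k M1), act s hle hst γ z ∈ W ↔ z ∈ W := by
    refine exists_stable_place s hle hst (isCover_Kur0 h) hR hΛ ?_ ?_ hE ?_ ?_ ?_ huniq
    · -- elements fixing `Λ` fix `M1`
      intro γ hγ m hm
      let H : ClosedSubgroup (Gk k K) :=
        { carrier := {γ | ∀ w : Kur k K, (w : AlgebraicClosure K) ∈ M1 → s.toHom γ w = w}
          mul_mem' := fun {a b} ha hb w hw => by
            rw [map_mul, AlgEquiv.mul_apply, hb w hw, ha w hw]
          one_mem' := fun w _ => by rw [map_one]; rfl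
          inv_mem' := fun {a} ha w hw => by
            have h1 := congrArg (s.toHom a⁻¹) (ha w hw)
            rw [← AlgEquiv.mul_apply, ← map_mul, inv_mul_cancel, map_one] at h1
            exact h1.symm
          isClosed' := by
            have h1 : {γ : Gk k K | ∀ w : Kur k K, (w : AlgebraicClosure K) ∈ M1 →
                s.toHom γ w = w} = ⋂ w : Kur k K, ⋂ _ : (w : AlgebraicClosure K) ∈ M1,
                {γ : Gk k K | s.toHom γ w = w} := by
              ext γ
              simp
            change IsClosed {γ : Gk k K | ∀ w : Kur k K, (w : AlgebraicClosure K) ∈ M1 →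
                s.toHom γ w = w}
            rw [h1]
            exact isClosed_iInter fun w => isClosed_iInter fun _ => isClosed_fix_section s w }
      have hH := InfiniteGalois.fixingSubgroup_fixedField H
      have h1 : γ ∈ (IntermediateField.fixedField H.toSubgroup).fixingSubgroup := by
        rw [IntermediateField.mem_fixingSubgroup_iff]
        intro y hy
        refine hγ y fun ρ hρ => ?_
        have h2 : (resGk ρ : Gk k K) ∈ H.toSubgroup := by
          intro w hw
          apply Subtype.ext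
          have h3 := section_eq_of_KK s (γ := resGk ρ) (ρ := ρ) (fun z => resGk_apply ρ z)
            (hKK _ hw)
          exact h3.trans (hρ _ hw)
        have h4 : (resGk ρ : Gk k K) y = y := hy ⟨_, h2⟩
        rw [← resGk_apply, h4]
      rw [hH] at h1
      have h2 := h1 ⟨m, hle _ m.2⟩ ((hmem m).1 hm)
      have h3 := congrArg (fun y : Kur k K => (y : AlgebraicClosure K)) h2
      exact Subtype.ext h3
    · -- elements fixing `M1` fix `Λ`
      intro γ hγ z hz
      obtain ⟨ρ, hρ⟩ := exists_ext s γ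
      have h1 := hz ρ (fun m hm => by
        have h2 := hγ ⟨m, h.le_Kur0 hm⟩ ((hmem _).2 hm)
        have h3 := congrArg (fun y : Kur0 k M1 => (y : AlgebraicClosure K)) h2
        rw [coe_act, ← hρ ⟨m, hle _ (h.le_Kur0 hm)⟩] at h3
        exact h3)
      rw [ext_const s hρ] at h1
      exact Subtype.ext h1
    · -- `M1` is stable
      intro γ m hm
      obtain ⟨ρ, hρ⟩ := exists_ext s γ
      rw [hmem] at hm ⊢
      rw [hact γ ρ (fun z => (ext_const s hρ z).symm) m hm]
      exact hstab ρ _ hm
    · -- finite orbits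
      intro m hm
      have halg : IsAlgebraic K (m : AlgebraicClosure K) := Algebra.IsAlgebraic.isAlgebraic _
      have hp0 := minpoly.ne_zero halg.isIntegral
      have hfin : ((minpoly K (m : AlgebraicClosure K)).rootSet (AlgebraicClosure K)).Finite :=
        Polynomial.rootSet_finite _ _
      refine (hfin.preimage (f := fun y : Kur0 k M1 => (y : AlgebraicClosure K))
        (Subtype.val_injective.injOn)).subset ?_
      rintro y ⟨γ, rfl⟩
      obtain ⟨ρ, hρ⟩ := exists_ext s γ
      rw [Set.mem_preimage, coe_act, ← hρ, Polynomial.mem_rootSet]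
      refine ⟨hp0, ?_⟩
      have h1 := Polynomial.aeval_algHom_apply (ρ : AlgebraicClosure K →ₐ[K] AlgebraicClosure K)
        (m : AlgebraicClosure K) (minpoly K (m : AlgebraicClosure K))
      rw [minpoly.aeval, map_zero] at h1
      exact h1
    · -- nonconstant
      obtain ⟨ρ, hρE, m, hm, hne⟩ := hnc
      refine ⟨resGk ρ, fun c => ?_, ⟨m, h.le_Kur0 hm⟩, (hmem _).2 hm, fun h1 => hne ?_⟩
      · apply Subtype.ext
        rw [resGk_apply]
        have h2 := hρE c
        rw [IsScalarTower.algebraMap_apply E (kbar k K) (AlgebraicClosure K)] at h2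
        exact h2
      · have h2 := hact (resGk ρ) ρ (fun z => resGk_apply ρ z) ⟨m, h.le_Kur0 hm⟩ hm
        rw [h1] at h2
        exact h2.symm
  obtain ⟨V, hVt, hVA, hVs⟩ := exists_stable_ext s h hle hst hWE hWt hWs
  exact ⟨V, hVt, hVA, hVs, fun z hz => exists_rational_residue s h.ffK hVt hVA hVs hz⟩

end Abs

section Main

variable {F k K : Type u} [Field F] [CharZero F] [Field k] [Field K]
  [Algebra F k] [Algebra k K] [Algebra F K] [IsScalarTower F k K]

theorem isAlgClosed_algF [CharZero k] : IsAlgClosed (algebraicClosure F (kbar k K)) :=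
  (inferInstance : IsAlgClosure F (algebraicClosure F (kbar k K))).isAlgClosed

/-- **The section conjecture for isotrivial curves** (uniqueness of fixed places as a
hypothesis). -/
theorem section_fixes_place (s : GaloisSection k K)
    {M1 : IntermediateField (algebraicClosure F (kbar k K)) (AlgebraicClosure K)} {ι : Type u}
    {x : ι → kbar k K} (h : Isotrivial k K M1 x)
    (hstab : ∀ ρ : AlgebraicClosure K ≃ₐ[K] AlgebraicClosure K, ∀ m ∈ M1, ρ m ∈ M1)
    (hΛ : GenByInertia F k K (fixedConst k (M1 : Set (AlgebraicClosure K))))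
    (hnc : ∃ ρ : AlgebraicClosure K ≃ₐ[K] AlgebraicClosure K,
      (∀ c : algebraicClosure F (kbar k K),
        ρ (algebraMap _ (AlgebraicClosure K) c) = algebraMap _ (AlgebraicClosure K) c) ∧
      ∃ m ∈ M1, ρ m ≠ m)
    (huniq : UniqueFixed (IntermediateField.restrict h.le_Kur0)) :
    ∃ V : ValuationSubring (Kur k K), V ≠ ⊤ ∧ (∀ c : kbar k K, toKur k K c ∈ V) ∧
      (∀ (γ : Gk k K) (w : Kur k K), s.toHom γ w ∈ V ↔ w ∈ V) ∧
      ∀ z : K, algebraMap K (Kur k K) z ∈ V →
        ∃ c : k, V.valuation (algebraMap K (Kur k K) (z - algebraMap k K c)) < 1 := by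
  have hck : CharZero k := charZero_of_injective_algebraMap (algebraMap F k).injective
  have i1 : IsAlgClosed (algebraicClosure F (kbar k K)) := isAlgClosed_algF
  have i2 : CharZero (algebraicClosure F (kbar k K)) :=
    charZero_of_injective_algebraMap (algebraMap F (algebraicClosure F (kbar k K))).injective
  refine section_fixes_place_abs s h hstab ?_ ?_ hnc huniq
  · intro z hz
    refine hΛ z fun O hFO hres Q hQ hA τ hτ hτΛ => ?_
    exact hz O Q hQ (residue_unit hFO Q) (frobAt_of_fg s hFO hres Q hA) τ hτ hτΛ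
  · intro γ c
    have h1 : IsAlgebraic F (c : kbar k K) := mem_algebraicClosure_iff.1 c.2
    have h2 : IsAlgebraic F (γ (c : kbar k K)) :=
      h1.algHom ((γ : kbar k K →ₐ[k] kbar k K).restrictScalars F)
    exact ⟨⟨γ c, mem_algebraicClosure_iff.2 h2⟩, rfl⟩

end Main

end Pool.Agent.SC
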