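import Pool.Agent.SC.Defs2
import Pool.Agent.Helper91.Section.Frob
import Pool.Agent.Helper91.Section.FinPlace

/-!
# Rank one places with Frobenius elements (block RK1 of MP_e66f84_ag)
-/

universe u

namespace Pool.Agent.SC

open Module Pool.Agent.Helper91.Sect

section Padic

variable (p : ℕ) [hp : Fact p.Prime]

/-- The `p`-adic integers as a valuation subring of `ℚ_[p]`. -/
def padicV : ValuationSubring ℚ_[p] where
  carrier := {z | ‖z‖ ≤ 1}
  mul_mem' := by
    intro a b ha hb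
    change ‖a * b‖ ≤ 1
    rw [norm_mul]
    exact mul_le_one₀ ha (norm_nonneg _) hb
  one_mem' := by
    change ‖(1 : ℚ_[p])‖ ≤ 1
    simp
  add_mem' := by
    intro a b ha hb
    exact (Padic.nonarchimedean a b).trans (max_le ha hb)
  zero_mem' := by
    change ‖(0 : ℚ_[p])‖ ≤ 1
    simp
  neg_mem' := by
    intro a ha
    change ‖-a‖ ≤ 1
    rw [norm_neg]; exact ha
  mem_or_inv_mem' := by
    intro a
    rcases le_total ‖a‖ 1 with h | h
    · exact Or.inl h
    · right
      change ‖a⁻¹‖ ≤ 1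
      rw [norm_inv]
      exact inv_le_one_of_one_le₀ h

theorem mem_padicV {z : ℚ_[p]} : z ∈ padicV p ↔ ‖z‖ ≤ 1 := Iff.rfl

theorem padicV_lt {z : ℚ_[p]} : (padicV p).valuation z < 1 ↔ ‖z‖ < 1 := by
  rw [← ValuationSubring.mem_nonunits_iff, ValuationSubring.mem_nonunits_iff_or, mem_padicV]
  by_cases hz : z = 0
  · simp [hz]
  · rw [norm_inv, not_le, one_lt_inv_iff₀]
    have : 0 < ‖z‖ := norm_pos_iff.2 hz
    simp [hz]

theorem padicV_le {z : ℚ_[p]} : (padicV p).valuation z ≤ 1 ↔ ‖z‖ ≤ 1 := by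
  rw [(padicV p).valuation_le_one_iff, mem_padicV]

theorem padicV_eq {z : ℚ_[p]} : (padicV p).valuation z = 1 ↔ ‖z‖ = 1 := by
  rw [eq_iff_le_not_lt, eq_iff_le_not_lt, padicV_le, padicV_lt]

theorem padicV_frob {z : ℚ_[p]} (hz : ‖z‖ ≤ 1) : ‖z ^ p - z‖ < 1 := by
  let x : ℤ_[p] := ⟨z, hz⟩
  have h1 : PadicInt.toZMod (x ^ p - x) = 0 := by
    rw [map_sub, map_pow, ZMod.pow_card, sub_self]
  have h2 : x ^ p - x ∈ IsLocalRing.maximalIdeal ℤ_[p] := by
    rw [← PadicInt.ker_toZMod]; exact h1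
  rw [IsLocalRing.mem_maximalIdeal, PadicInt.mem_nonunits] at h2
  exact h2

theorem exists_algIndep (n : ℕ) : ∃ b : Fin n → ℚ_[p], AlgebraicIndependent ℚ b := by
  obtain ⟨s, hs⟩ := exists_isTranscendenceBasis ℚ ℚ_[p]
  have hinf : s.Infinite := by
    intro hfin
    have hcont : Cardinal.continuum ≤ Cardinal.mk ℚ_[p] :=
      continuum_le_cardinal_of_nontriviallyNormedField ℚ_[p]
    have hle : Cardinal.mk ℚ_[p] ≤ Cardinal.aleph0 := by
      rcases isEmpty_or_nonempty s with he | hne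
      · have halg : Algebra.IsAlgebraic ℚ ℚ_[p] := hs.isEmpty_iff_isAlgebraic.1 he
        have := Algebra.IsAlgebraic.cardinalMk_le_max ℚ ℚ_[p]
        simpa using this
      · have h1 := hs.lift_cardinalMk_eq_max_lift
        have h2 : Cardinal.mk s < Cardinal.aleph0 := Cardinal.lt_aleph0_iff_finite.2 hfin.to_subtype
        simp only [Cardinal.lift_id] at h1
        rw [h1]
        simp [h2.le]
    exact absurd (hcont.trans hle) (not_le.2 Cardinal.aleph0_lt_continuum)
  have : Infinite s := hinf.to_subtype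
  let e := Infinite.natEmbedding s
  refine ⟨fun i => (e i : ℚ_[p]), ?_⟩
  exact hs.1.comp (fun i : Fin n => e i) (e.injective.comp Fin.val_injective)

end Padic

section Affine

open MvPolynomial

theorem algIndep_affine {K L ι : Type*} [Field K] [Field L] [Algebra K L] {b : ι → L}
    (hb : AlgebraicIndependent K b) (c d : ι → K) (hd : ∀ i, d i ≠ 0) :
    AlgebraicIndependent K (fun i => algebraMap K L (c i) + algebraMap K L (d i) * b i) := by
  let θ : MvPolynomial ι K →ₐ[K] MvPolynomial ι K := aeval fun i => C (c i) + C (d i) * X i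
  let θ' : MvPolynomial ι K →ₐ[K] MvPolynomial ι K := aeval fun i => C (d i)⁻¹ * (X i - C (c i))
  have h1 : θ'.comp θ = AlgHom.id K _ := by
    apply MvPolynomial.algHom_ext
    intro i
    simp only [θ, θ', AlgHom.comp_apply, aeval_X, map_add, map_mul, algHom_C, AlgHom.id_apply]
    rw [MvPolynomial.algebraMap_eq, ← mul_assoc, ← C_mul, mul_inv_cancel₀ (hd i), C_1, one_mul]
    ring
  have h2 : Function.Injective θ := by
    apply Function.LeftInverse.injective (g := θ')
    intro x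
    exact DFunLike.congr_fun h1 x
  rw [AlgebraicIndependent] at hb ⊢
  have h3 : (aeval (fun i => algebraMap K L (c i) + algebraMap K L (d i) * b i) :
      MvPolynomial ι K →ₐ[K] L) = (aeval b).comp θ := by
    apply MvPolynomial.algHom_ext
    intro i
    simp [θ]
  rw [h3]
  exact hb.comp h2

end Affine

section CgSum

variable {C : Type*} [Field C] {Γ : Type*} [LinearOrderedCommGroupWithZero Γ]
  {v : Valuation C Γ}

theorem cg_add {x y x' y' : C} (h : Cg v x y) (h' : Cg v x' y') : Cg v (x + x') (y + y') := by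
  refine ⟨(v.map_add _ _).trans (max_le h.1 h'.1), (v.map_add _ _).trans (max_le h.2.1 h'.2.1), ?_⟩
  have : x + x' - (y + y') = (x - y) + (x' - y') := by ring
  rw [this]
  exact v.map_add_lt h.2.2 h'.2.2

theorem cg_sum {ι : Type*} (s : Finset ι) {f g : ι → C} (h : ∀ i ∈ s, Cg v (f i) (g i)) :
    Cg v (∑ i ∈ s, f i) (∑ i ∈ s, g i) := by
  classical
  induction s using Finset.induction_on with
  | empty => simpa using Cg.refl (v := v) (x := (0 : C)) (by simp)
  | insert a s ha ih =>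
    rw [Finset.sum_insert ha, Finset.sum_insert ha]
    exact cg_add (h a (Finset.mem_insert_self a s))
      (ih fun i hi => h i (Finset.mem_insert_of_mem hi))

theorem cg_prod {ι : Type*} (s : Finset ι) {f g : ι → C} (h : ∀ i ∈ s, Cg v (f i) (g i)) :
    Cg v (∏ i ∈ s, f i) (∏ i ∈ s, g i) := by
  classical
  induction s using Finset.induction_on with
  | empty => simpa using Cg.refl (v := v) (x := (1 : C)) (by simp)
  | insert a s ha ih =>
    rw [Finset.prod_insert ha, Finset.prod_insert ha]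
    exact (h a (Finset.mem_insert_self a s)).mul
      (ih fun i hi => h i (Finset.mem_insert_of_mem hi))

end CgSum

section Embed

open MvPolynomial

theorem exists_prime_units (B : Finset ℚ) (hB : ∀ b ∈ B, b ≠ 0) :
    ∃ p : ℕ, ∃ _ : Fact p.Prime, ∀ b ∈ B, ‖((b : ℚ) : ℚ_[p])‖ = 1 := by
  classical
  set D : ℕ := ∏ a ∈ B, (a.num.natAbs * a.den) with hD
  have hD0 : D ≠ 0 := Finset.prod_ne_zero_iff.2 fun a ha =>
    mul_ne_zero (by simpa using hB a ha) a.den_nz
  obtain ⟨p, hpD, hp⟩ := Nat.exists_infinite_primes (D + 1)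
  have hpf : Fact p.Prime := ⟨hp⟩
  refine ⟨p, hpf, fun a ha => ?_⟩
  have hpd : ¬ p ∣ a.num.natAbs ∧ ¬ p ∣ a.den := by
    have h1 : ¬ p ∣ (a.num.natAbs * a.den) := by
      intro h
      have h2 : p ∣ D := h.trans (Finset.dvd_prod_of_mem _ ha)
      have := Nat.le_of_dvd (Nat.pos_of_ne_zero hD0) h2
      omega
    exact ⟨fun h => h1 (h.mul_right _), fun h => h1 (h.mul_left _)⟩
  have hn : ‖((a.num : ℤ) : ℚ_[p])‖ = 1 := by
    refine le_antisymm (Padic.norm_int_le_one _) (not_lt.1 fun h => hpd.1 ?_)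
    rw [Padic.norm_intCast_lt_one_iff] at h
    exact Int.natCast_dvd.1 h
  have hd : ‖((a.den : ℤ) : ℚ_[p])‖ = 1 := by
    refine le_antisymm (Padic.norm_int_le_one _) (not_lt.1 fun h => hpd.2 ?_)
    rw [Padic.norm_intCast_lt_one_iff] at h
    exact Int.natCast_dvd_natCast.1 h
  have h3 : ((a : ℚ) : ℚ_[p]) = ((a.num : ℤ) : ℚ_[p]) / ((a.den : ℤ) : ℚ_[p]) := by
    conv_lhs => rw [← Rat.num_div_den a]
    push_cast
    rfl
  rw [h3, norm_div, hn, hd, div_one]

/-- `p`-adic embeddings of the rational function fields. -/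
theorem exists_embed (n : ℕ) (A : Finset (FractionRing (MvPolynomial (Fin n) ℚ)))
    (hA : ∀ a ∈ A, a ≠ 0) :
    ∃ p : ℕ, ∃ _ : Fact p.Prime, ∃ ψ : FractionRing (MvPolynomial (Fin n) ℚ) →+* ℚ_[p],
      ∀ a ∈ A, ‖ψ a‖ = 1 := by
  classical
  let R := MvPolynomial (Fin n) ℚ
  have hfr : ∀ a : FractionRing R, ∃ P Q : R, Q ≠ 0 ∧
      algebraMap R (FractionRing R) P / algebraMap R (FractionRing R) Q = a := by
    intro a
    obtain ⟨P, Q, hQ, h⟩ := IsFractionRing.div_surjective (A := R) a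
    exact ⟨P, Q, nonZeroDivisors.ne_zero hQ, h⟩
  choose P Q hQ hPQ using hfr
  have hP : ∀ a ∈ A, P a ≠ 0 := by
    intro a ha h0
    have h1 := hPQ a
    rw [h0, map_zero, zero_div] at h1
    exact hA a ha h1.symm
  set D : R := ∏ a ∈ A, (P a * Q a) with hD
  have hD0 : D ≠ 0 := Finset.prod_ne_zero_iff.2 fun a ha => mul_ne_zero (hP a ha) (hQ a)
  obtain ⟨c, hc⟩ : ∃ c : Fin n → ℚ, MvPolynomial.eval c D ≠ 0 := by
    by_contra hcon
    push Not at hcon
    exact hD0 (MvPolynomial.funext fun c => by rw [hcon c, map_zero])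
  have hc' : ∀ a ∈ A, MvPolynomial.eval c (P a) ≠ 0 ∧ MvPolynomial.eval c (Q a) ≠ 0 := by
    intro a ha
    rw [hD, map_prod, Finset.prod_ne_zero_iff] at hc
    have := hc a ha
    rw [map_mul] at this
    exact ⟨left_ne_zero_of_mul this, right_ne_zero_of_mul this⟩
  let cf : R → Finset ℚ := fun F => F.support.image F.coeff
  set B0 : Finset ℚ := (Finset.univ.image c) ∪ (A.biUnion fun a =>
    (cf (P a) ∪ cf (Q a)) ∪ {MvPolynomial.eval c (P a), MvPolynomial.eval c (Q a)}) with hB0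
  obtain ⟨p, hp, hB⟩ := exists_prime_units (B0.filter fun b => b ≠ 0) (fun b hb =>
    (Finset.mem_filter.1 hb).2)
  have hB1 : ∀ b ∈ B0, ‖((b : ℚ) : ℚ_[p])‖ ≤ 1 := by
    intro b hb
    by_cases h0 : b = 0
    · simp [h0]
    · exact (hB b (Finset.mem_filter.2 ⟨hb, h0⟩)).le
  obtain ⟨b, hb⟩ := exists_algIndep p n
  have hd : ∀ i : Fin n, ∃ m : ℕ, ‖((p : ℚ_[p]) ^ m) * b i‖ < 1 := by
    intro i
    have hp1 : ‖(p : ℚ_[p])‖ < 1 := Padic.norm_p_lt_one
    have h1 : Filter.Tendsto (fun m : ℕ => ‖(p : ℚ_[p])‖ ^ m * ‖b i‖) Filter.atTop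
        (nhds (0 * ‖b i‖)) :=
      (tendsto_pow_atTop_nhds_zero_of_lt_one (norm_nonneg _) hp1).mul_const _
    rw [zero_mul] at h1
    obtain ⟨m, hm⟩ := (h1.eventually_lt_const one_pos).exists
    exact ⟨m, by rwa [norm_mul, norm_pow]⟩
  choose m hm using hd
  have hp0 : (p : ℚ) ≠ 0 := by exact_mod_cast hp.out.ne_zero
  set y : Fin n → ℚ_[p] := fun i => algebraMap ℚ ℚ_[p] (c i) +
    algebraMap ℚ ℚ_[p] ((p : ℚ) ^ m i) * b i with hy
  have hyind : AlgebraicIndependent ℚ y :=
    algIndep_affine hb c (fun i => (p : ℚ) ^ m i) (fun i => pow_ne_zero _ hp0)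
  set v := (padicV p).valuation with hv
  have hcast : ∀ q : ℚ, algebraMap ℚ ℚ_[p] q = (q : ℚ_[p]) := fun q => rfl
  have hycg : ∀ i, Cg v (y i) (algebraMap ℚ ℚ_[p] (c i)) := by
    intro i
    have hci : v (algebraMap ℚ ℚ_[p] (c i)) ≤ 1 := by
      rw [hv, padicV_le, hcast]
      exact hB1 _ (Finset.mem_union_left _ (Finset.mem_image_of_mem _ (Finset.mem_univ i)))
    have hdi : v (algebraMap ℚ ℚ_[p] ((p : ℚ) ^ m i) * b i) < 1 := by
      rw [hv, padicV_lt, hcast]
      push_cast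
      exact hm i
    refine ⟨(v.map_add _ _).trans (max_le hci hdi.le), hci, ?_⟩
    rw [hy]
    simpa using hdi
  have key : ∀ F : R, (∀ b ∈ cf F, ‖((b : ℚ) : ℚ_[p])‖ ≤ 1) →
      ‖((MvPolynomial.eval c F : ℚ) : ℚ_[p])‖ = 1 → ‖aeval y F‖ = 1 := by
    intro F h1 h2
    have h3 : Cg v (aeval y F) (algebraMap ℚ ℚ_[p] (MvPolynomial.eval c F)) := by
      rw [MvPolynomial.aeval_def, MvPolynomial.eval₂_eq', MvPolynomial.eval_eq', map_sum]
      refine cg_sum _ fun d hd => ?_
      rw [map_mul, map_prod]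
      refine (Cg.refl ?_).mul (cg_prod _ fun i _ => ?_)
      · rw [hv, padicV_le, hcast]
        exact h1 _ (Finset.mem_image_of_mem _ hd)
      · rw [map_pow]
        exact (hycg i).pow _
    rw [← padicV_eq]
    exact h3.unit (by rw [hv, padicV_eq, hcast]; exact h2)
  have hyinj : Function.Injective (aeval y : R →ₐ[ℚ] ℚ_[p]).toRingHom := hyind
  refine ⟨p, hp, IsFractionRing.lift (A := R) (g := (aeval y : R →ₐ[ℚ] ℚ_[p]).toRingHom) hyinj,
    fun a ha => ?_⟩
  rw [← hPQ a, map_div₀, norm_div, IsFractionRing.lift_algebraMap, IsFractionRing.lift_algebraMap]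
  have hmemP : ∀ b ∈ cf (P a), b ∈ B0 := fun b hb => Finset.mem_union_right _
    (Finset.mem_biUnion.2 ⟨a, ha, Finset.mem_union_left _ (Finset.mem_union_left _ hb)⟩)
  have hmemQ : ∀ b ∈ cf (Q a), b ∈ B0 := fun b hb => Finset.mem_union_right _
    (Finset.mem_biUnion.2 ⟨a, ha, Finset.mem_union_left _ (Finset.mem_union_right _ hb)⟩)
  have h1 : ‖aeval y (P a)‖ = 1 := key _ (fun b hb => hB1 b (hmemP b hb))
    (hB _ (Finset.mem_filter.2 ⟨Finset.mem_union_right _ (Finset.mem_biUnion.2 ⟨a, ha,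
      Finset.mem_union_right _ (by simp)⟩), (hc' a ha).1⟩))
  have h2 : ‖aeval y (Q a)‖ = 1 := key _ (fun b hb => hB1 b (hmemQ b hb))
    (hB _ (Finset.mem_filter.2 ⟨Finset.mem_union_right _ (Finset.mem_biUnion.2 ⟨a, ha,
      Finset.mem_union_right _ (by simp)⟩), (hc' a ha).2⟩))
  change ‖aeval y (P a)‖ / ‖aeval y (Q a)‖ = 1
  rw [h1, h2, div_one]

end Embed

section Extend

open Polynomial

variable {S C : Type u} [Field S] [Field C] [Algebra S C] [IsGalois S C] [IsAlgClosed C]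

theorem exists_of_embed (p : ℕ) [hp : Fact p.Prime] (ψ : S →+* ℚ_[p]) (A : Finset C)
    (hA : ∀ a ∈ A, a ≠ 0)
    (h : ∀ a ∈ A, ∀ i, ((minpoly S a).coeff i ≠ 0 → ‖ψ ((minpoly S a).coeff i)‖ = 1) ∧
      ((minpoly S a⁻¹).coeff i ≠ 0 → ‖ψ ((minpoly S a⁻¹).coeff i)‖ = 1)) :
    ∃ (O : ValuationSubring C) (γ : C ≃ₐ[S] C), O.valuation (p : C) < 1 ∧
      (∀ a ∈ A, O.valuation a = 1) ∧
      (∀ s : S, ‖ψ s‖ = 1 → O.valuation (algebraMap S C s) = 1) ∧
      (∀ a c : C, O.valuation a < 1 → c ≠ 0 → ∃ N : ℕ, O.valuation (a ^ N) < O.valuation c) ∧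
      (∀ n z, (γ ^ n : C ≃ₐ[S] C) z ∈ O ↔ z ∈ O) ∧
      ∀ n, ∀ z ∈ O, O.valuation ((γ ^ n : C ≃ₐ[S] C) z - z ^ p ^ n) < 1 := by
  set O0 : ValuationSubring S := (padicV p).comap ψ with hO0
  have hlt : ∀ z : S, O0.valuation z < 1 ↔ ‖ψ z‖ < 1 := fun z => by
    rw [hO0, comap_val_lt, padicV_lt]
  have hle : ∀ z : S, O0.valuation z ≤ 1 ↔ ‖ψ z‖ ≤ 1 := fun z => by
    rw [O0.valuation_le_one_iff, hO0, ValuationSubring.mem_comap, mem_padicV]
  have heq : ∀ z : S, O0.valuation z = 1 ↔ ‖ψ z‖ = 1 := fun z => by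
    rw [eq_iff_le_not_lt, eq_iff_le_not_lt, hlt, hle]
  have hpO : O0.valuation (p : S) < 1 := by
    rw [hlt, map_natCast]; exact Padic.norm_p_lt_one
  obtain ⟨Q, hQ, γ, hAb, hD, hγ⟩ := exists_frob (C := C) O0 p 1 hpO (by
    intro z hz
    rw [hlt, map_sub, map_pow, pow_one]
    exact padicV_frob p ((hle z).1 ((O0.valuation_le_one_iff z).2 hz)))
  rw [pow_one] at hγ
  refine ⟨locW Q, γ, ?_, ?_, ?_, ?_, ?_, ?_⟩
  · have := locW_algebraMap_lt Q hAb hpO
    rwa [map_natCast] at this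
  · intro a ha
    have key : ∀ b : C, (∀ i, (minpoly S b).coeff i ≠ 0 → ‖ψ ((minpoly S b).coeff i)‖ = 1) →
        b ∈ locW Q := by
      intro b hb
      have hbint : IsIntegral S b := Algebra.IsIntegral.isIntegral b
      have hl : minpoly S b ∈ lifts (algebraMap O0 S) := by
        rw [lifts_iff_coeff_lifts]
        intro i
        by_cases hi : (minpoly S b).coeff i = 0
        · exact ⟨0, by rw [hi, map_zero]⟩
        · have h4 := (heq _).2 (hb i hi)
          exact ⟨⟨_, (O0.valuation_le_one_iff _).1 h4.le⟩, rfl⟩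
      obtain ⟨q, hq, -, hqm⟩ := lifts_and_natDegree_eq_and_monic hl (minpoly.monic hbint)
      have h5 : IsIntegral O0 b := by
        refine ⟨q, hqm, ?_⟩
        have h6 : aeval b (q.map (algebraMap O0 S)) = 0 := by rw [hq]; exact minpoly.aeval S b
        rwa [aeval_map_algebraMap] at h6
      exact coe_mem_locW Q ⟨b, h5⟩
    rw [val_eq_one_iff' (hA a ha)]
    exact ⟨key a fun i => (h a ha i).1, key a⁻¹ fun i => (h a ha i).2⟩
  · intro s hs
    exact (locW_algebraMap_eq_one Q hAb).2 ((heq s).2 hs)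
  · intro a c ha hc
    by_cases hc1 : 1 ≤ (locW Q).valuation c
    · exact ⟨1, by rw [pow_one]; exact ha.trans_le hc1⟩
    rw [not_le] at hc1
    by_cases ha0 : a = 0
    · refine ⟨1, ?_⟩
      rw [ha0, pow_one, map_zero]
      exact zero_lt_iff.2 (by simpa using hc)
    obtain ⟨α, hα0, hα⟩ := exists_pow_val (k := S) (locW Q).valuation ha0
      (Algebra.IsIntegral.isIntegral a) le_rfl
    obtain ⟨β, hβ0, hβ⟩ := exists_pow_val (k := S) (locW Q).valuation hc
      (Algebra.IsIntegral.isIntegral c) le_rfl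
    set m := (minpoly S a).natDegree.factorial with hm
    set l := (minpoly S c).natDegree.factorial with hl
    have hm0 : m ≠ 0 := Nat.factorial_ne_zero _
    have hl0 : l ≠ 0 := Nat.factorial_ne_zero _
    have h1 : ¬ 1 ≤ O0.valuation α := by
      intro h1
      have h2 : O0.valuation α⁻¹ ≤ 1 := by
        rw [map_inv₀]
        exact inv_le_one_of_one_le₀ h1
      have h3 := locW_algebraMap_le (Q := Q) h2
      rw [map_inv₀, map_inv₀, ← hα, map_pow] at h3
      have h4 : (locW Q).valuation a ^ m < 1 := pow_lt_one₀ zero_le ha hm0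
      have h5 : 0 < (locW Q).valuation a ^ m := by
        refine pow_pos (zero_lt_iff.2 ?_) _
        simpa using ha0
      exact absurd ((inv_le_one₀ h5).1 h3) (not_le.2 h4)
    rw [not_le, hlt] at h1
    have hψβ : 0 < ‖ψ β‖ := norm_pos_iff.2 (by simpa using hβ0)
    obtain ⟨N, hN⟩ := exists_pow_lt_of_lt_one hψβ h1
    have h2 : O0.valuation (α ^ N / β) < 1 := by
      rw [hlt, map_div₀, map_pow, norm_div, norm_pow, div_lt_one hψβ]
      exact hN
    have h3 := locW_algebraMap_lt Q hAb h2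
    have hβv : 0 < (locW Q).valuation (algebraMap S C β) := by
      refine zero_lt_iff.2 ?_
      simpa using hβ0
    rw [map_div₀, map_div₀, div_lt_one₀ hβv, map_pow, map_pow, ← hα, ← hβ] at h3
    refine ⟨m * N, ?_⟩
    rw [pow_mul, map_pow]
    refine h3.trans_le ?_
    rw [map_pow]
    exact pow_le_of_le_one zero_le hc1.le hl0
  · intro n z
    have hDn : InD Q (γ ^ n) := by
      induction n with
      | zero => rw [pow_zero]; exact InD.one
      | succ n ih => rw [pow_succ]; exact ih.mul hD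
    exact stab_locW Q hDn z
  · intro n z hz
    have hz1 : (locW Q).valuation z ≤ 1 := ((locW Q).valuation_le_one_iff z).2 hz
    have key : Cg (locW Q).valuation ((γ ^ n : C ≃ₐ[S] C) z) (z ^ p ^ n) := by
      induction n with
      | zero => simpa using Cg.refl (v := (locW Q).valuation) hz1
      | succ n ih =>
        have h1 : (γ ^ (n + 1) : C ≃ₐ[S] C) z = γ ((γ ^ n : C ≃ₐ[S] C) z) := by
          rw [pow_succ']; rfl
        rw [h1, pow_succ p n, pow_mul]
        exact (hγ _ ih.1).trans (ih.pow p)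
    exact key.2.2

omit [IsAlgClosed C] in
/-- some power of an automorphism of an algebraic extension fixes a given element -/
theorem exists_pow_fix (γ : C ≃ₐ[S] C) (x : C) : ∃ n : ℕ, 0 < n ∧ (γ ^ n : C ≃ₐ[S] C) x = x := by
  classical
  have hx : IsIntegral S x := Algebra.IsIntegral.isIntegral x
  have hfin : ((minpoly S x).rootSet C).Finite := (minpoly S x).rootSet_finite C
  have hmem : ∀ n : ℕ, (γ ^ n : C ≃ₐ[S] C) x ∈ (minpoly S x).rootSet C := by
    intro n
    rw [mem_rootSet]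
    refine ⟨minpoly.ne_zero hx, ?_⟩
    have := minpoly.aeval S x
    rw [← AlgEquiv.coe_toAlgHom, aeval_algHom_apply, this, map_zero]
  obtain ⟨i, j, hij, h⟩ : ∃ i j : ℕ, i < j ∧
      (γ ^ i : C ≃ₐ[S] C) x = (γ ^ j : C ≃ₐ[S] C) x := by
    by_contra hcon
    push Not at hcon
    refine (Set.infinite_of_injective_forall_mem (f := fun n : ℕ => (γ ^ n : C ≃ₐ[S] C) x) ?_
      hmem) hfin
    intro i j hij
    rcases lt_trichotomy i j with h | h | h
    · exact absurd hij (hcon i j h)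
    · exact h
    · exact absurd hij.symm (hcon j i h)
  refine ⟨j - i, by omega, ?_⟩
  have h1 : j = i + (j - i) := by omega
  rw [h1, pow_add] at h
  exact ((γ ^ i : C ≃ₐ[S] C).injective h).symm

omit [IsGalois S C] [IsAlgClosed C] in
theorem pow_fix_mul (γ : C ≃ₐ[S] C) {x : C} {n : ℕ} (h : (γ ^ n : C ≃ₐ[S] C) x = x) (m : ℕ) :
    (γ ^ (n * m) : C ≃ₐ[S] C) x = x := by
  induction m with
  | zero => rw [mul_zero, pow_zero]; rfl
  | succ m ih =>
    rw [Nat.mul_succ, pow_add]
    change (γ ^ (n * m) : C ≃ₐ[S] C) ((γ ^ n : C ≃ₐ[S] C) x) = x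
    rw [h, ih]

omit [IsAlgClosed C] in
theorem exists_pow_fix_finset (γ : C ≃ₐ[S] C) (B : Finset C) :
    ∃ n : ℕ, 0 < n ∧ ∀ x ∈ B, (γ ^ n : C ≃ₐ[S] C) x = x := by
  classical
  choose n hn0 hn using exists_pow_fix γ
  refine ⟨∏ x ∈ B, n x, Finset.prod_pos fun x _ => hn0 x, fun x hx => ?_⟩
  obtain ⟨m, hm⟩ := Finset.dvd_prod_of_mem n hx
  rw [hm]
  exact pow_fix_mul γ (hn x) m

end Extend

section RingEquiv

/-- the field generated by algebraically independent elements -/
noncomputable def ringEquivOfIndep {F E ι : Type*} [Field F] [Field E] [Algebra F E] {x : ι → E}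
    (hx : AlgebraicIndependent F x) :
    FractionRing (MvPolynomial ι F) ≃+* IntermediateField.adjoin F (Set.range x) :=
  hx.aevalEquivField.toRingEquiv

end RingEquiv

section Main

open Polynomial
open scoped IntermediateField.algebraAdjoinAdjoin

/-- RK1.  Rank one places of the algebraic closure of a finitely generated field, with Frobenius
elements over any finite extension `F'`. -/
theorem exists_rank_one_frob {F C : Type u} [Field F] [CharZero F] [Field C] [Algebra F C]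
    [IsAlgClosure F C] (hfg : ∃ S : Finset F, Subfield.closure (S : Set F) = ⊤)
    (F' : IntermediateField F C) [FiniteDimensional F F'] (A : Finset C) (hA : ∀ a ∈ A, a ≠ 0)
    (ℓ : ℕ) (hℓ : 0 < ℓ) :
    ∃ (O : ValuationSubring C) (p f : ℕ) (σ : C ≃ₐ[F'] C), p.Prime ∧ 0 < f ∧
      O.valuation (p : C) < 1 ∧ O.valuation (ℓ : C) = 1 ∧ (∀ a ∈ A, O.valuation a = 1) ∧
      (∀ a c : C, O.valuation a < 1 → c ≠ 0 → ∃ N : ℕ, O.valuation (a ^ N) < O.valuation c) ∧
      (∀ z, σ z ∈ O ↔ z ∈ O) ∧ ∀ z ∈ O, O.valuation (σ z - z ^ p ^ f) < 1 := by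
  classical
  have hCC : CharZero C := charZero_of_injective_algebraMap (algebraMap F C).injective
  have hclosed : IsAlgClosed C := IsAlgClosure.isAlgClosed F
  have halgF : Algebra.IsAlgebraic F C := IsAlgClosure.isAlgebraic
  obtain ⟨S, hS⟩ := hfg
  set S' : Set C := algebraMap F C '' (S : Set F) with hS'
  have hS'fin : S'.Finite := (S.finite_toSet).image _
  -- the image of `F` lies in the field generated by `S'`
  have hmemF : ∀ K1 : Subfield C, S' ⊆ K1 → ∀ x : F, algebraMap F C x ∈ K1 := by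
    intro K1 hK1 x
    have h1 : Subfield.closure (S : Set F) ≤ K1.comap (algebraMap F C) := by
      rw [Subfield.closure_le]
      intro s hs
      exact hK1 ⟨s, hs, rfl⟩
    rw [hS] at h1
    exact h1 (Subfield.mem_top x)
  -- `C` is algebraic over the ring generated by `S'`
  have halg1 : Algebra.IsAlgebraic (Algebra.adjoin ℚ S') C := by
    set K1 := IntermediateField.adjoin ℚ S' with hK1
    have h1 : ∀ x : F, algebraMap F C x ∈ K1 := fun x =>
      hmemF K1.toSubfield (IntermediateField.subset_adjoin ℚ S') x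
    let g : F →+* K1 := (algebraMap F C).codRestrict K1.toSubfield.toSubring h1
    have h2 : Algebra.IsAlgebraic K1 C := by
      refine ⟨fun x => ?_⟩
      obtain ⟨q, hq0, hq⟩ := halgF.isAlgebraic x
      refine ⟨q.map g, (Polynomial.map_ne_zero_iff g.injective).2 hq0, ?_⟩
      rw [aeval_def, eval₂_map]
      exact hq
    exact (IsFractionRing.comap_isAlgebraic_iff (A := Algebra.adjoin ℚ S') (K := K1) (C := C)).2 h2
  obtain ⟨T, hTS, hT⟩ := exists_isTranscendenceBasis_subset (R := ℚ) S'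
  have hTfin : T.Finite := hS'fin.subset hTS
  have hTfin' : Finite T := hTfin.to_subtype
  let e : Fin (Nat.card T) ≃ T := (Finite.equivFin T).symm
  have hx : IsTranscendenceBasis ℚ ((Subtype.val : T → C) ∘ e) :=
    (isTranscendenceBasis_equiv e).2 hT
  set x : Fin (Nat.card T) → C := (Subtype.val : T → C) ∘ e
  have halg0 := hx.isAlgebraic_field
  set K0 := IntermediateField.adjoin ℚ (Set.range x) with hK0
  have hac : IsAlgClosure K0 C := ⟨hclosed, halg0⟩
  have hnor : Normal K0 C := IsAlgClosure.normal K0 C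
  have hgal : IsGalois K0 C := ⟨⟩
  let eqv : FractionRing (MvPolynomial (Fin (Nat.card T)) ℚ) ≃+* K0 := ringEquivOfIndep hx.1
  let cf : K0[X] → Finset K0 := fun p => (p.support.image p.coeff)
  have hcf : ∀ (p : K0[X]) (a : K0), a ∈ cf p → a ≠ 0 := by
    intro p a ha
    obtain ⟨i, hi, rfl⟩ := Finset.mem_image.1 ha
    exact mem_support_iff.1 hi
  set A0 : Finset K0 := insert ((ℓ : K0))
    (A.biUnion fun a => cf (minpoly K0 a) ∪ cf (minpoly K0 a⁻¹)) with hA0
  have hA0' : ∀ a ∈ A0, a ≠ 0 := by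
    intro a ha
    rw [hA0, Finset.mem_insert] at ha
    rcases ha with rfl | ha
    · exact_mod_cast hℓ.ne'
    · obtain ⟨b, -, hb⟩ := Finset.mem_biUnion.1 ha
      rcases Finset.mem_union.1 hb with hb | hb
      · exact hcf _ _ hb
      · exact hcf _ _ hb
  obtain ⟨p, hp, ψ0, hψ0⟩ := exists_embed (Nat.card T) (A0.image eqv.symm) (by
    intro a ha
    obtain ⟨b, hb, rfl⟩ := Finset.mem_image.1 ha
    exact (map_ne_zero_iff _ eqv.symm.injective).2 (hA0' b hb))
  let ψ : K0 →+* ℚ_[p] := ψ0.comp eqv.symm.toRingHom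
  have hψ : ∀ a ∈ A0, ‖ψ a‖ = 1 := fun a ha => hψ0 _ (Finset.mem_image_of_mem _ ha)
  obtain ⟨O, γ, h1, h2, h3, h4, h5, h6⟩ := exists_of_embed p ψ A hA (by
    intro a ha i
    constructor
    · intro hi
      exact hψ _ (Finset.mem_insert_of_mem (Finset.mem_biUnion.2 ⟨a, ha,
        Finset.mem_union_left _ (Finset.mem_image_of_mem _ (mem_support_iff.2 hi))⟩))
    · intro hi
      exact hψ _ (Finset.mem_insert_of_mem (Finset.mem_biUnion.2 ⟨a, ha,
        Finset.mem_union_right _ (Finset.mem_image_of_mem _ (mem_support_iff.2 hi))⟩)))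
  obtain ⟨B', hB'⟩ := Module.Finite.fg_top (R := F) (M := F')
  obtain ⟨f, hf0, hf⟩ := exists_pow_fix_finset γ (hS'fin.toFinset ∪ B'.image (fun z : F' => (z : C)))
  let g : C ≃ₐ[K0] C := γ ^ f
  let Fix : Subfield C := (g : C →+* C).eqLocusField (RingHom.id C)
  have hFix : ∀ z, z ∈ Fix ↔ g z = z := fun z => Iff.rfl
  have hgF : ∀ x : F, algebraMap F C x ∈ Fix := hmemF Fix fun s hs =>
    (hFix s).2 (hf s (Finset.mem_union_left _ (hS'fin.mem_toFinset.2 hs)))
  have hgF' : ∀ x : F', (x : C) ∈ Fix := by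
    intro x
    have hx : x ∈ Submodule.span F (B' : Set F') := by rw [hB']; trivial
    induction hx using Submodule.span_induction with
    | mem y hy =>
      exact (hFix _).2 (hf _ (Finset.mem_union_right _ (Finset.mem_image_of_mem _ hy)))
    | zero => exact Fix.zero_mem
    | add y z _ _ hy hz => exact Fix.add_mem hy hz
    | smul a y _ hy =>
      have : ((a • y : F') : C) = algebraMap F C a * (y : C) := by
        rw [IntermediateField.coe_smul, Algebra.smul_def]
      rw [this]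
      exact Fix.mul_mem (hgF a) hy
  let σ : C ≃ₐ[F'] C := AlgEquiv.ofRingEquiv (f := g.toRingEquiv) (fun x => hgF' x)
  refine ⟨O, p, f, σ, hp.out, hf0, h1, ?_, h2, h4, fun z => h5 f z, fun z hz => h6 f z hz⟩
  have := h3 (ℓ : K0) (hψ _ (Finset.mem_insert_self _ _))
  rwa [map_natCast] at this

end Main

end Pool.Agent.SC
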