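import Mathlib
import Pool.Agent.SC.Defs

/-!
# MP_e66f84_ag, block R4a: the reduced basis and the degree function of the reduction
-/

universe u v

namespace Pool.Agent.SC

open Module

section Abstract

variable {κ : Type u} {R : Type v} [Field κ] [CommRing R] [Algebra κ R] {D : Set ℕ}

/-- The degree attached to a graded basis. -/
noncomputable def degOf (Eb : Basis D κ R) (x : R) : ℕ := (Eb.repr x).support.sup fun i => (i : ℕ)

theorem degOf_le_iff (Eb : Basis D κ R) (x : R) (n : ℕ) :
    degOf Eb x ≤ n ↔ ∀ i : D, n < i → Eb.repr x i = 0 := by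
  unfold degOf
  rw [Finset.sup_le_iff]
  constructor
  · intro h i hi
    by_contra hne
    exact absurd (h i (Finsupp.mem_support_iff.2 hne)) (by omega)
  · intro h i hi
    by_contra hlt
    exact (Finsupp.mem_support_iff.1 hi) (h i (by omega))

theorem exists_degOf (Eb : Basis D κ R) {x : R} (hx : x ≠ 0) :
    ∃ i : D, (i : ℕ) = degOf Eb x ∧ Eb.repr x i ≠ 0 := by
  have hne : (Eb.repr x).support.Nonempty := by
    rw [Finsupp.support_nonempty_iff]
    intro h
    exact hx (by simpa using h)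
  obtain ⟨i, hi, hi2⟩ := Finset.exists_mem_eq_sup _ hne (fun i : D => (i : ℕ))
  exact ⟨i, hi2.symm, Finsupp.mem_support_iff.1 hi⟩

theorem repr_eq_zero_of_degOf_lt (Eb : Basis D κ R) {x : R} {i : D} (hi : degOf Eb x < i) :
    Eb.repr x i = 0 := (degOf_le_iff Eb x _).1 le_rfl i hi

/-- Expansion of a product in a basis. -/
theorem repr_mul_expand (Eb : Basis D κ R) (a b : R) (i : D) :
    Eb.repr (a * b) i = ∑ x ∈ (Eb.repr a).support, ∑ y ∈ (Eb.repr b).support,
      (Eb.repr a x * Eb.repr b y) * Eb.repr (Eb x * Eb y) i := by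
  classical
  have h1 : a * b = ∑ x ∈ (Eb.repr a).support, ∑ y ∈ (Eb.repr b).support,
      (Eb.repr a x * Eb.repr b y) • (Eb x * Eb y) := by
    conv_lhs => rw [← Eb.linearCombination_repr a, ← Eb.linearCombination_repr b]
    rw [Finsupp.linearCombination_apply, Finsupp.linearCombination_apply, Finsupp.sum, Finsupp.sum,
      Finset.sum_mul_sum]
    refine Finset.sum_congr rfl fun x _ => Finset.sum_congr rfl fun y _ => ?_
    rw [smul_mul_smul_comm]
  rw [h1, map_sum, Finsupp.finsetSum_apply]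
  refine Finset.sum_congr rfl fun x _ => ?_
  rw [map_sum, Finsupp.finsetSum_apply]
  refine Finset.sum_congr rfl fun y _ => ?_
  rw [map_smul, Finsupp.smul_apply, smul_eq_mul]

variable (Eb : Basis D κ R)
  (hup : ∀ m m' i : D, (m : ℕ) + m' < i → Eb.repr (Eb m * Eb m') i = 0)
  (hlead : ∀ m m' : D, ∃ i : D, (i : ℕ) = m + m')
  (hleadne : ∀ m m' i : D, (i : ℕ) = m + m' → Eb.repr (Eb m * Eb m') i ≠ 0)

include hup in
theorem degOf_mul_le (a b : R) : degOf Eb (a * b) ≤ degOf Eb a + degOf Eb b := by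
  rw [degOf_le_iff]
  intro i hi
  rw [repr_mul_expand]
  refine Finset.sum_eq_zero fun x hx => Finset.sum_eq_zero fun y hy => ?_
  rw [hup x y i, mul_zero]
  have h1 : (x : ℕ) ≤ degOf Eb a := Finset.le_sup (f := fun i : D => (i : ℕ)) hx
  have h2 : (y : ℕ) ≤ degOf Eb b := Finset.le_sup (f := fun i : D => (i : ℕ)) hy
  omega

include hup in
theorem repr_mul_lead {a b : R} {p q i : D} (hp : (p : ℕ) = degOf Eb a)
    (hq : (q : ℕ) = degOf Eb b) (hi : (i : ℕ) = p + q) :
    Eb.repr (a * b) i = (Eb.repr a p * Eb.repr b q) * Eb.repr (Eb p * Eb q) i := by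
  classical
  rw [repr_mul_expand]
  rw [Finset.sum_eq_single p, Finset.sum_eq_single q]
  · intro y hy hyq
    have h2 : (y : ℕ) ≤ degOf Eb b := Finset.le_sup (f := fun i : D => (i : ℕ)) hy
    have h3 : (y : ℕ) ≠ q := fun h => hyq (Subtype.ext h)
    rw [hup p y i (by omega), mul_zero]
  · intro hq'
    rw [Finsupp.notMem_support_iff.1 hq', mul_zero, zero_mul]
  · intro x hx hxp
    have h1 : (x : ℕ) ≤ degOf Eb a := Finset.le_sup (f := fun i : D => (i : ℕ)) hx
    have h3 : (x : ℕ) ≠ p := fun h => hxp (Subtype.ext h)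
    refine Finset.sum_eq_zero fun y hy => ?_
    have h2 : (y : ℕ) ≤ degOf Eb b := Finset.le_sup (f := fun i : D => (i : ℕ)) hy
    rw [hup x y i (by omega), mul_zero]
  · intro hp'
    refine Finset.sum_eq_zero fun y hy => ?_
    rw [Finsupp.notMem_support_iff.1 hp', zero_mul, zero_mul]

include hup hlead hleadne in
theorem mul_ne_zero_of_basis {a b : R} (ha : a ≠ 0) (hb : b ≠ 0) :
    ∃ i : D, (i : ℕ) = degOf Eb a + degOf Eb b ∧ Eb.repr (a * b) i ≠ 0 := by
  obtain ⟨p, hp, hp0⟩ := exists_degOf Eb ha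
  obtain ⟨q, hq, hq0⟩ := exists_degOf Eb hb
  obtain ⟨i, hi⟩ := hlead p q
  refine ⟨i, by omega, ?_⟩
  rw [repr_mul_lead Eb hup hp hq hi]
  exact mul_ne_zero (mul_ne_zero hp0 hq0) (hleadne p q i hi)

include hup hlead hleadne in
theorem degOf_mul {a b : R} (ha : a ≠ 0) (hb : b ≠ 0) :
    degOf Eb (a * b) = degOf Eb a + degOf Eb b := by
  refine le_antisymm (degOf_mul_le Eb hup a b) ?_
  obtain ⟨i, hi, hi0⟩ := mul_ne_zero_of_basis Eb hup hlead hleadne ha hb
  rw [← hi]
  exact Finset.le_sup (f := fun i : D => (i : ℕ)) (Finsupp.mem_support_iff.2 hi0)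

theorem degOf_basis (Eb : Basis D κ R) (m : D) : degOf Eb (Eb m) = m := by
  classical
  unfold degOf
  rw [Eb.repr_self, Finsupp.support_single _ one_ne_zero, Finset.sup_singleton]

theorem degOf_add (Eb : Basis D κ R) (a b : R) :
    degOf Eb (a + b) ≤ max (degOf Eb a) (degOf Eb b) := by
  rw [degOf_le_iff]
  intro i hi
  rw [map_add, Finsupp.add_apply, repr_eq_zero_of_degOf_lt Eb (lt_of_le_of_lt (le_max_left _ _) hi),
    repr_eq_zero_of_degOf_lt Eb (lt_of_le_of_lt (le_max_right _ _) hi), add_zero]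

theorem isDomain_of_basis (hD : D.Nonempty)
    (hup : ∀ m m' i : D, (m : ℕ) + m' < i → Eb.repr (Eb m * Eb m') i = 0)
    (hlead : ∀ m m' : D, ∃ i : D, (i : ℕ) = m + m')
    (hleadne : ∀ m m' i : D, (i : ℕ) = m + m' → Eb.repr (Eb m * Eb m') i ≠ 0) : IsDomain R := by
  obtain ⟨d, hd⟩ := hD
  have : Nontrivial R := ⟨⟨Eb ⟨d, hd⟩, 0, Eb.ne_zero _⟩⟩
  have : NoZeroDivisors R := ⟨fun {a b} hab => by
    by_contra hcon
    push Not at hcon
    obtain ⟨i, -, hi0⟩ := mul_ne_zero_of_basis Eb hup hlead hleadne hcon.1 hcon.2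
    rw [hab, map_zero] at hi0
    exact hi0 rfl⟩
  exact NoZeroDivisors.to_isDomain R

theorem onePt_of_basis (h0 : (0 : ℕ) ∈ D) (hone : ∀ m : D, (m : ℕ) = 0 → Eb m = 1)
    (hlarge : ∃ N : ℕ, ∀ n, N ≤ n → n ∈ D)
    (hup : ∀ m m' i : D, (m : ℕ) + m' < i → Eb.repr (Eb m * Eb m') i = 0)
    (hlead : ∀ m m' : D, ∃ i : D, (i : ℕ) = m + m')
    (hleadne : ∀ m m' i : D, (i : ℕ) = m + m' → Eb.repr (Eb m * Eb m') i ≠ 0) :
    OnePt κ R (degOf Eb) ∧ degSet (degOf Eb) = D := by
  refine ⟨⟨?_, ?_, degOf_add Eb, ?_, ?_⟩, ?_⟩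
  · intro c
    rw [← Nat.le_zero, degOf_le_iff]
    intro i hi
    rw [Algebra.algebraMap_eq_smul_one, ← hone ⟨0, h0⟩ rfl, map_smul, Eb.repr_self,
      Finsupp.smul_apply, Finsupp.single_apply, if_neg, smul_zero]
    intro h
    rw [← h] at hi
    exact lt_irrefl _ hi
  · intro a b ha hb
    exact degOf_mul Eb hup hlead hleadne ha hb
  · intro a b ha hb hab
    obtain ⟨p, hp, hp0⟩ := exists_degOf Eb ha
    obtain ⟨q, hq, hq0⟩ := exists_degOf Eb hb
    have hpq : p = q := Subtype.ext (by omega)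
    subst hpq
    refine ⟨Eb.repr a p / Eb.repr b p, ?_⟩
    by_cases hz : a - (Eb.repr a p / Eb.repr b p) • b = 0
    · exact Or.inl (sub_eq_zero.1 hz)
    · right
      obtain ⟨r, hr, hr0⟩ := exists_degOf Eb hz
      have h1 : degOf Eb (a - (Eb.repr a p / Eb.repr b p) • b) ≤ degOf Eb b := by
        rw [degOf_le_iff]
        intro i hi
        rw [map_sub, map_smul, Finsupp.sub_apply, Finsupp.smul_apply,
          repr_eq_zero_of_degOf_lt Eb hi, repr_eq_zero_of_degOf_lt Eb (hab ▸ hi), smul_zero,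
          sub_zero]
      refine lt_of_le_of_ne h1 fun h2 => hr0 ?_
      have hrp : r = p := Subtype.ext (by omega)
      rw [hrp, map_sub, map_smul, Finsupp.sub_apply, Finsupp.smul_apply, smul_eq_mul,
        div_mul_cancel₀ _ hq0, sub_self]
  · obtain ⟨N, hN⟩ := hlarge
    exact ⟨N, fun n hn => ⟨Eb ⟨n, hN n hn⟩, Eb.ne_zero _, degOf_basis Eb _⟩⟩
  · ext n
    constructor
    · rintro ⟨b, hb, rfl⟩
      obtain ⟨i, hi, -⟩ := exists_degOf Eb hb
      rw [← hi]
      exact i.2
    · intro hn
      exact ⟨Eb ⟨n, hn⟩, Eb.ne_zero _, degOf_basis Eb _⟩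

end Abstract

section R4

variable {k : Type u} {B : Type v} [Field k] [CommRing B] [IsDomain B] [Algebra k B]
  {O : ValuationSubring k} {deg : B → ℕ} {E : Basis (degSet deg) k B}

omit [IsDomain B] in
theorem OnePt.r4_deg_zero (h : OnePt k B deg) : deg 0 = 0 := by
  have := h.deg_const 0
  rwa [map_zero] at this

theorem OnePt.r4_deg_smul (h : OnePt k B deg) {c : k} (hc : c ≠ 0) (b : B) :
    deg (c • b) = deg b := by
  by_cases hb : b = 0
  · rw [hb, smul_zero]
  · rw [Algebra.smul_def, h.deg_mul _ _ (by simpa using hc) hb, h.deg_const, zero_add]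

theorem OnePt.r4_deg_smul_le (h : OnePt k B deg) (c : k) (b : B) :
    deg (c • b) ≤ deg b := by
  by_cases hc : c = 0
  · rw [hc, zero_smul, h.r4_deg_zero]; exact Nat.zero_le _
  · exact (h.r4_deg_smul hc b).le

theorem OnePt.r4_deg_sum_le (h : OnePt k B deg) {ι : Type*} (s : Finset ι) (f : ι → B) (n : ℕ)
    (hf : ∀ i ∈ s, deg (f i) ≤ n) : deg (∑ i ∈ s, f i) ≤ n := by
  classical
  induction s using Finset.induction_on with
  | empty => rw [Finset.sum_empty, h.r4_deg_zero]; exact Nat.zero_le _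
  | insert a s ha ih =>
    rw [Finset.sum_insert ha]
    exact (h.deg_add _ _).trans (max_le (hf a (Finset.mem_insert_self _ _))
      (ih fun i hi => hf i (Finset.mem_insert_of_mem hi)))

theorem OnePt.r4_deg_neg (h : OnePt k B deg) (b : B) : deg (-b) = deg b := by
  have := h.r4_deg_smul (c := (-1 : k)) (by simp) b
  rwa [neg_smul, one_smul] at this

theorem OnePt.r4_deg_sub_le (h : OnePt k B deg) (a b : B) :
    deg (a - b) ≤ max (deg a) (deg b) := by
  rw [sub_eq_add_neg, ← h.r4_deg_neg b]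
  exact h.deg_add _ _

/-- The degree is read off from the coordinates in a graded basis. -/
theorem deg_eq_degOf (h : OnePt k B deg) (hEdeg : ∀ m, deg (E m) = m) (b : B) :
    deg b = degOf E b := by
  classical
  by_cases hb : b = 0
  · rw [hb, h.r4_deg_zero]
    unfold degOf
    simp
  obtain ⟨p, hp, hp0⟩ := exists_degOf E hb
  have hbs : b = E.repr b p • E p + ∑ i ∈ (E.repr b).support.erase p, E.repr b i • E i := by
    conv_lhs => rw [← E.linearCombination_repr b]
    rw [Finsupp.linearCombination_apply, Finsupp.sum]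
    rw [← Finset.add_sum_erase _ _ (Finsupp.mem_support_iff.2 hp0)]
  set r : B := ∑ i ∈ (E.repr b).support.erase p, E.repr b i • E i with hr
  have hlt : ∀ i ∈ (E.repr b).support.erase p, (i : ℕ) + 1 ≤ p := by
    intro i hi
    rw [Finset.mem_erase] at hi
    have h1 : (i : ℕ) ≤ degOf E b := Finset.le_sup (f := fun i : degSet deg => (i : ℕ)) hi.2
    have h2 : (i : ℕ) ≠ p := fun h => hi.1 (Subtype.ext h)
    omega
  rw [← hp]
  by_cases hp1 : (p : ℕ) = 0
  · have hempty : (E.repr b).support.erase p = ∅ := by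
      by_contra hne
      obtain ⟨i, hi⟩ := Finset.nonempty_iff_ne_empty.2 hne
      have := hlt i hi
      omega
    rw [hempty, Finset.sum_empty] at hr
    rw [hbs, hr, add_zero, h.r4_deg_smul hp0, hEdeg]
  · have hrdeg : deg r ≤ (p : ℕ) - 1 := by
      rw [hr]
      refine h.r4_deg_sum_le _ _ _ fun i hi => ?_
      refine (h.r4_deg_smul_le _ _).trans ?_
      rw [hEdeg]
      have := hlt i hi
      omega
    refine le_antisymm ?_ ?_
    · rw [hbs]
      refine (h.deg_add _ _).trans (max_le ?_ (by omega))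
      exact (h.r4_deg_smul_le _ _).trans (hEdeg p).le
    · have h1 : E.repr b p • E p = b - r := by rw [eq_sub_iff_add_eq]; exact hbs.symm
      have h2 : deg (E.repr b p • E p) = p := by rw [h.r4_deg_smul hp0, hEdeg]
      rw [h1] at h2
      have h3 := h.r4_deg_sub_le b r
      rw [h2] at h3
      rcases le_max_iff.1 h3 with h4 | h4
      · exact h4
      · omega

theorem repr_mul_eq_zero (h : OnePt k B deg) (hEdeg : ∀ m, deg (E m) = m)
    {m m' i : degSet deg} (hi : (m : ℕ) + m' < i) : E.repr (E m * E m') i = 0 := by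
  apply repr_eq_zero_of_degOf_lt
  rw [← deg_eq_degOf h hEdeg, h.deg_mul _ _ (E.ne_zero _) (E.ne_zero _), hEdeg, hEdeg]
  exact hi

/-- Coordinates of the reduction, before passing to the quotient. -/
noncomputable def redCoord (h : OnePt k B deg) (hE : IntBasis O deg E) (b : BO h hE) :
    degSet deg →₀ IsLocalRing.ResidueField O :=
  Finsupp.onFinset (E.repr (b : B)).support
    (fun i => IsLocalRing.residue O ⟨E.repr (b : B) i, b.2 i⟩) (by
      intro i hi
      rw [Finsupp.mem_support_iff]
      intro h0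
      apply hi
      have : (⟨E.repr (b : B) i, b.2 i⟩ : O) = 0 := Subtype.ext h0
      rw [this, map_zero])

theorem redCoord_apply (h : OnePt k B deg) (hE : IntBasis O deg E) (b : BO h hE)
    (i : degSet deg) :
    redCoord h hE b i = IsLocalRing.residue O ⟨E.repr (b : B) i, b.2 i⟩ := rfl

theorem residue_eq_zero_iff_val (x : O) :
    IsLocalRing.residue O x = 0 ↔ O.valuation (x : k) < 1 := by
  rw [IsLocalRing.residue_eq_zero_iff, O.valuation_lt_one_iff]

theorem redCoord_eq_zero_iff (h : OnePt k B deg) (hE : IntBasis O deg E) (b : BO h hE) :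
    redCoord h hE b = 0 ↔ b ∈ mB h hE := by
  rw [mem_mB, Finsupp.ext_iff]
  refine forall_congr' fun i => ?_
  rw [redCoord_apply, Finsupp.zero_apply, residue_eq_zero_iff_val]

theorem redCoord_add (h : OnePt k B deg) (hE : IntBasis O deg E) (a b : BO h hE) :
    redCoord h hE (a + b) = redCoord h hE a + redCoord h hE b := by
  ext i
  rw [Finsupp.add_apply, redCoord_apply, redCoord_apply, redCoord_apply, ← map_add]
  congr 1
  apply Subtype.ext
  change E.repr ((a : B) + (b : B)) i = _
  rw [map_add, Finsupp.add_apply]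
  rfl

theorem redCoord_sub (h : OnePt k B deg) (hE : IntBasis O deg E) (a b : BO h hE) :
    redCoord h hE (a - b) = redCoord h hE a - redCoord h hE b := by
  rw [eq_sub_iff_add_eq, ← redCoord_add, sub_add_cancel]

theorem redCoord_const_mul (h : OnePt k B deg) (hE : IntBasis O deg E) (c : O) (b : BO h hE) :
    redCoord h hE (constBO h hE c * b) = IsLocalRing.residue O c • redCoord h hE b := by
  ext i
  rw [Finsupp.smul_apply, redCoord_apply, redCoord_apply, smul_eq_mul, ← map_mul]
  congr 1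
  apply Subtype.ext
  change E.repr (algebraMap k B (c : k) * (b : B)) i = _
  rw [← Algebra.smul_def, map_smul, Finsupp.smul_apply, smul_eq_mul]
  rfl

theorem mk_eq_mk_iff (h : OnePt k B deg) (hE : IntBasis O deg E) (a b : BO h hE) :
    Ideal.Quotient.mk (mB h hE) a = Ideal.Quotient.mk (mB h hE) b ↔
      redCoord h hE a = redCoord h hE b := by
  rw [Ideal.Quotient.eq, ← redCoord_eq_zero_iff, redCoord_sub, sub_eq_zero]

/-- The coordinates on the reduction. -/
noncomputable def redCoordBar (h : OnePt k B deg) (hE : IntBasis O deg E) (x : Bbar h hE) :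
    degSet deg →₀ IsLocalRing.ResidueField O :=
  redCoord h hE (Function.surjInv Ideal.Quotient.mk_surjective x)

theorem redCoordBar_mk (h : OnePt k B deg) (hE : IntBasis O deg E) (b : BO h hE) :
    redCoordBar h hE (Ideal.Quotient.mk (mB h hE) b) = redCoord h hE b := by
  unfold redCoordBar
  rw [← mk_eq_mk_iff]
  exact Function.surjInv_eq Ideal.Quotient.mk_surjective _

theorem residue_smul_mk (h : OnePt k B deg) (hE : IntBasis O deg E) (c : O) (b : BO h hE) :
    IsLocalRing.residue O c • Ideal.Quotient.mk (mB h hE) b =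
      Ideal.Quotient.mk (mB h hE) (constBO h hE c * b) := by
  rw [map_mul, Algebra.smul_def]
  rfl

theorem smul_E_mem_BO (h : OnePt k B deg) (hE : IntBasis O deg E) (c : O) (m : degSet deg) :
    (c : k) • E m ∈ BO h hE := by
  classical
  intro i
  rw [map_smul, E.repr_self, Finsupp.smul_apply, Finsupp.single_apply, smul_eq_mul]
  split_ifs
  · rw [mul_one]; exact c.2
  · rw [mul_zero]; exact O.zero_mem

/-- The coordinates on the reduction, as a linear equivalence. -/
noncomputable def redEquiv (h : OnePt k B deg) (hE : IntBasis O deg E) :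
    Bbar h hE ≃ₗ[IsLocalRing.ResidueField O] (degSet deg →₀ IsLocalRing.ResidueField O) :=
  LinearEquiv.ofBijective
    { toFun := redCoordBar h hE
      map_add' := fun x y => by
        obtain ⟨a, rfl⟩ := Ideal.Quotient.mk_surjective x
        obtain ⟨b, rfl⟩ := Ideal.Quotient.mk_surjective y
        rw [← map_add, redCoordBar_mk, redCoordBar_mk, redCoordBar_mk, redCoord_add]
      map_smul' := fun c x => by
        obtain ⟨b, rfl⟩ := Ideal.Quotient.mk_surjective x
        obtain ⟨c, rfl⟩ := IsLocalRing.residue_surjective c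
        rw [residue_smul_mk, redCoordBar_mk, redCoordBar_mk, redCoord_const_mul]
        rfl }
    (by
      classical
      constructor
      · intro x y hxy
        obtain ⟨a, rfl⟩ := Ideal.Quotient.mk_surjective x
        obtain ⟨b, rfl⟩ := Ideal.Quotient.mk_surjective y
        change redCoordBar h hE _ = redCoordBar h hE _ at hxy
        rw [redCoordBar_mk, redCoordBar_mk] at hxy
        exact (mk_eq_mk_iff h hE a b).2 hxy
      · intro f
        induction f using Finsupp.induction_linear with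
        | zero => exact ⟨0, by rw [map_zero]⟩
        | add f g hf hg =>
          obtain ⟨x, rfl⟩ := hf
          obtain ⟨y, rfl⟩ := hg
          exact ⟨x + y, by rw [map_add]⟩
        | single m c =>
          obtain ⟨c, rfl⟩ := IsLocalRing.residue_surjective c
          refine ⟨Ideal.Quotient.mk (mB h hE) ⟨(c : k) • E m, smul_E_mem_BO h hE c m⟩, ?_⟩
          change redCoordBar h hE _ = _
          rw [redCoordBar_mk]
          ext i
          rw [redCoord_apply, Finsupp.single_apply]
          split_ifs with him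
          · congr 1
            apply Subtype.ext
            change E.repr ((c : k) • E m) i = c
            rw [map_smul, E.repr_self, Finsupp.smul_apply, him, Finsupp.single_eq_same,
              smul_eq_mul, mul_one]
          · rw [← map_zero (IsLocalRing.residue O)]
            congr 1
            apply Subtype.ext
            change E.repr ((c : k) • E m) i = 0
            rw [map_smul, E.repr_self, Finsupp.smul_apply, Finsupp.single_apply, if_neg him,
              smul_zero])

/-- The reduced basis. -/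
noncomputable def Ebar (h : OnePt k B deg) (hE : IntBasis O deg E) :
    Basis (degSet deg) (IsLocalRing.ResidueField O) (Bbar h hE) := Basis.ofRepr (redEquiv h hE)

theorem Ebar_repr_mk (h : OnePt k B deg) (hE : IntBasis O deg E) (b : BO h hE)
    (i : degSet deg) : (Ebar h hE).repr (Ideal.Quotient.mk (mB h hE) b) i =
      IsLocalRing.residue O ⟨E.repr (b : B) i, b.2 i⟩ := by
  change redCoordBar h hE _ i = _
  rw [redCoordBar_mk, redCoord_apply]

/-- R4a.  The reduced basis. -/
theorem exists_Ebar (h : OnePt k B deg) (hE : IntBasis O deg E) :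
    ∃ Eb : Basis (degSet deg) (IsLocalRing.ResidueField O) (Bbar h hE),
      ∀ (b : BO h hE) (i : degSet deg),
        Eb.repr (Ideal.Quotient.mk (mB h hE) b) i = IsLocalRing.residue O ⟨E.repr b i, b.2 i⟩ :=
  ⟨Ebar h hE, Ebar_repr_mk h hE⟩

theorem E_mem_BO (h : OnePt k B deg) (hE : IntBasis O deg E) (m : degSet deg) : E m ∈ BO h hE := by
  have := smul_E_mem_BO h hE 1 m
  simpa using this

theorem Ebar_apply (h : OnePt k B deg) (hE : IntBasis O deg E) (m : degSet deg) :
    Ebar h hE m = Ideal.Quotient.mk (mB h hE) ⟨E m, E_mem_BO h hE m⟩ := by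
  classical
  apply (Ebar h hE).repr.injective
  rw [(Ebar h hE).repr_self]
  ext i
  rw [Ebar_repr_mk, Finsupp.single_apply]
  split_ifs with him
  · rw [← map_one (IsLocalRing.residue O)]
    congr 1
    apply Subtype.ext
    change 1 = E.repr (E m) i
    rw [E.repr_self, him, Finsupp.single_eq_same]
  · rw [← map_zero (IsLocalRing.residue O)]
    congr 1
    apply Subtype.ext
    change 0 = E.repr (E m) i
    rw [E.repr_self, Finsupp.single_apply, if_neg him]

theorem Ebar_one (h : OnePt k B deg) (hE : IntBasis O deg E) (m : degSet deg) (hm : (m : ℕ) = 0) :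
    Ebar h hE m = 1 := by
  rw [Ebar_apply, ← map_one (Ideal.Quotient.mk (mB h hE))]
  congr 1
  exact Subtype.ext (hE.one m hm)

theorem Ebar_repr_mul (h : OnePt k B deg) (hE : IntBasis O deg E) (m m' i : degSet deg) :
    (Ebar h hE).repr (Ebar h hE m * Ebar h hE m') i =
      IsLocalRing.residue O ⟨E.repr (E m * E m') i, hE.int m m' i⟩ := by
  rw [Ebar_apply, Ebar_apply, ← map_mul, Ebar_repr_mk]
  rfl

theorem Ebar_exists_add_eq (h : OnePt k B deg) (hEdeg : ∀ m, deg (E m) = m) (m m' : degSet deg) :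
    ∃ i : degSet deg, (i : ℕ) = m + m' :=
  ⟨⟨m + m', E m * E m', mul_ne_zero (E.ne_zero _) (E.ne_zero _), by
    rw [h.deg_mul _ _ (E.ne_zero _) (E.ne_zero _), hEdeg, hEdeg]⟩, rfl⟩

theorem repr_mul_lead_ne_zero (h : OnePt k B deg) (hEdeg : ∀ m, deg (E m) = m)
    (m m' i : degSet deg) (hi : (i : ℕ) = m + m') : E.repr (E m * E m') i ≠ 0 := by
  obtain ⟨j, hj, hj0⟩ := exists_degOf E (mul_ne_zero (E.ne_zero m) (E.ne_zero m'))
  rw [← deg_eq_degOf h hEdeg, h.deg_mul _ _ (E.ne_zero _) (E.ne_zero _), hEdeg, hEdeg] at hj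
  have : i = j := Subtype.ext (by omega)
  rwa [this]

/-- R4a.  The reduction is a one-point ring with the same degrees. -/
theorem exists_degbar (h : OnePt k B deg) (hE : IntBasis O deg E) :
    IsDomain (Bbar h hE) ∧ ∃ degb : Bbar h hE → ℕ,
      OnePt (IsLocalRing.ResidueField O) (Bbar h hE) degb ∧ degSet degb = degSet deg ∧
      (∀ b : BO h hE, degb (Ideal.Quotient.mk (mB h hE) b) ≤ deg (b : B)) ∧
      ∀ (b : BO h hE) (n : ℕ), degb (Ideal.Quotient.mk (mB h hE) b) ≤ n ↔
        ∀ i : degSet deg, n < i → O.valuation (E.repr (b : B) i) < 1 := by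
  have hup : ∀ m m' i : degSet deg, (m : ℕ) + m' < i →
      (Ebar h hE).repr (Ebar h hE m * Ebar h hE m') i = 0 := by
    intro m m' i hi
    rw [Ebar_repr_mul, residue_eq_zero_iff_val]
    change O.valuation (E.repr (E m * E m') i) < 1
    rw [repr_mul_eq_zero h hE.deg_E hi, map_zero]
    exact zero_lt_one
  have hleadne : ∀ m m' i : degSet deg, (i : ℕ) = m + m' →
      (Ebar h hE).repr (Ebar h hE m * Ebar h hE m') i ≠ 0 := by
    intro m m' i hi
    rw [Ebar_repr_mul, Ne, residue_eq_zero_iff_val]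
    change ¬ O.valuation (E.repr (E m * E m') i) < 1
    have h1 := (O.valuation_le_one_iff _).2 (hE.lead m m' i hi)
    rw [map_inv₀] at h1
    intro h2
    have h3 : O.valuation (E.repr (E m * E m') i) ≠ 0 := by
      rw [Ne, map_eq_zero]
      exact repr_mul_lead_ne_zero h hE.deg_E m m' i hi
    have h4 : 1 < (O.valuation (E.repr (E m * E m') i))⁻¹ :=
      (one_lt_inv₀ (zero_lt_iff.2 h3)).2 h2
    exact absurd h1 (not_le.2 h4)
  have hlarge : ∃ N : ℕ, ∀ n, N ≤ n → n ∈ degSet deg := h.large
  have h0 : (0 : ℕ) ∈ degSet deg := zero_mem_degSet h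
  have hiff : ∀ (b : BO h hE) (n : ℕ),
      degOf (Ebar h hE) (Ideal.Quotient.mk (mB h hE) b) ≤ n ↔
        ∀ i : degSet deg, n < i → O.valuation (E.repr (b : B) i) < 1 := by
    intro b n
    rw [degOf_le_iff]
    refine forall_congr' fun i => imp_congr_right fun _ => ?_
    rw [Ebar_repr_mk, residue_eq_zero_iff_val]
  obtain ⟨h1, h2⟩ := onePt_of_basis (Ebar h hE) h0 (Ebar_one h hE) hlarge hup
    (Ebar_exists_add_eq h hE.deg_E) hleadne
  refine ⟨isDomain_of_basis (Ebar h hE) ⟨0, h0⟩ hup (Ebar_exists_add_eq h hE.deg_E) hleadne,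
    degOf (Ebar h hE), h1, h2, ?_, hiff⟩
  intro b
  rw [hiff]
  intro i hi
  rw [deg_eq_degOf h hE.deg_E] at hi
  rw [repr_eq_zero_of_degOf_lt E hi, map_zero]
  exact zero_lt_one

end R4

end Pool.Agent.SC
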