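import Mathlib
import Pool.Agent.SC.Defs2
import Pool.Agent.SC.R4a

/-!
# Base change of one-point rings
-/

universe u

namespace Pool.Agent.SC

open Module

/-- `C / Ω` is the base change of the one-point ring `B / k`: `C` has the same degrees and its
basis is the image of the basis of `B`. -/
structure BaseChange {k B Ω C : Type u} [Field k] [CommRing B] [Algebra k B] [Field Ω]
    [Algebra k Ω] [CommRing C] [Algebra Ω C] {deg : B → ℕ} (E : Basis (degSet deg) k B)
    (j : B →+* C) {degC : C → ℕ} (EC : Basis (degSet degC) Ω C) : Prop where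
  set_eq : degSet degC = degSet deg
  basis : ∀ (m : degSet deg) (m' : degSet degC), (m' : ℕ) = m → EC m' = j (E m)
  const : ∀ c : k, j (algebraMap k B c) = algebraMap Ω C (algebraMap k Ω c)

namespace BaseChange

variable {k B Ω C : Type u} [Field k] [CommRing B] [Algebra k B] [Field Ω]
  [Algebra k Ω] [CommRing C] [Algebra Ω C] {deg : B → ℕ} {E : Basis (degSet deg) k B}
  {j : B →+* C} {degC : C → ℕ} {EC : Basis (degSet degC) Ω C}

theorem repr_j (hj : BaseChange E j EC) (b : B) (m : degSet deg) (m' : degSet degC)
    (hm : (m' : ℕ) = m) : EC.repr (j b) m' = algebraMap k Ω (E.repr b m) := by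
  classical
  let e : degSet deg ≃ degSet degC := Equiv.setCongr hj.set_eq.symm
  have he : ∀ m : degSet deg, ((e m : degSet degC) : ℕ) = m := fun m => rfl
  have hem : m' = e m := Subtype.ext (by rw [he]; exact hm)
  subst hem
  have h1 : j b = ∑ i ∈ (E.repr b).support, algebraMap k Ω (E.repr b i) • EC (e i) := by
    conv_lhs => rw [← E.linearCombination_repr b]
    rw [Finsupp.linearCombination_apply, Finsupp.sum, map_sum]
    refine Finset.sum_congr rfl fun i _ => ?_
    rw [Algebra.smul_def, map_mul, hj.const, hj.basis i (e i) (he i), Algebra.smul_def]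
  rw [h1, map_sum, Finsupp.finsetSum_apply]
  simp_rw [map_smul, Finsupp.smul_apply, EC.repr_self, Finsupp.single_apply, smul_eq_mul]
  rw [Finset.sum_eq_single m]
  · rw [if_pos rfl, mul_one]
  · intro i _ hi
    rw [if_neg (fun h => hi (e.injective h)), mul_zero]
  · intro hm
    rw [Finsupp.notMem_support_iff.1 hm, map_zero, zero_mul]

theorem injective (hj : BaseChange E j EC) : Function.Injective j := by
  intro a b hab
  apply E.repr.injective
  ext m
  let e : degSet deg ≃ degSet degC := Equiv.setCongr hj.set_eq.symm
  have h1 := hj.repr_j a m (e m) rfl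
  have h2 := hj.repr_j b m (e m) rfl
  rw [hab, h2] at h1
  exact ((algebraMap k Ω).injective h1).symm

end BaseChange

end Pool.Agent.SC
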