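import Pool.Agent.SC.Defs

/-!
# Block R3a: the graded basis of a one-point ring built from an Apery set
-/

universe u v

namespace Pool.Agent.SC

open Module

namespace R3a

variable {k : Type u} {B : Type v} [Field k] [CommRing B] [IsDomain B] [Algebra k B] {deg : B → ℕ}

omit [IsDomain B] in
lemma deg_zero (h : OnePt k B deg) : deg 0 = 0 := by
  have := h.deg_const 0
  rwa [map_zero] at this

omit [IsDomain B] in
lemma deg_one (h : OnePt k B deg) : deg 1 = 0 := by
  have := h.deg_const 1
  rwa [map_one] at this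

lemma algebraMap_ne {c : k} (hc : c ≠ 0) : algebraMap k B c ≠ 0 := by
  rw [Ne, FaithfulSMul.algebraMap_eq_zero_iff]
  exact hc

lemma deg_smul (h : OnePt k B deg) {c : k} (hc : c ≠ 0) (b : B) : deg (c • b) = deg b := by
  by_cases hb : b = 0
  · rw [hb, smul_zero]
  · rw [Algebra.smul_def, h.deg_mul _ _ (algebraMap_ne hc) hb, h.deg_const, zero_add]

lemma deg_smul_le (h : OnePt k B deg) (c : k) (b : B) : deg (c • b) ≤ deg b := by
  by_cases hc : c = 0
  · rw [hc, zero_smul, deg_zero h]; exact Nat.zero_le _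
  · rw [deg_smul h hc]

lemma deg_neg (h : OnePt k B deg) (b : B) : deg (-b) = deg b := by
  have : -b = (-1 : k) • b := by rw [neg_smul, one_smul]
  rw [this, deg_smul h (neg_ne_zero.mpr one_ne_zero)]

lemma deg_sum_le (h : OnePt k B deg) {ι : Type*} (s : Finset ι) (f : ι → B) (d : ℕ)
    (hf : ∀ i ∈ s, deg (f i) ≤ d) : deg (∑ i ∈ s, f i) ≤ d := by
  classical
  induction s using Finset.induction_on with
  | empty => rw [Finset.sum_empty, deg_zero h]; exact Nat.zero_le _
  | insert a s ha ih =>
    rw [Finset.sum_insert ha]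
    refine (h.deg_add _ _).trans (max_le (hf a (Finset.mem_insert_self a s)) (ih ?_))
    intro i hi
    exact hf i (Finset.mem_insert_of_mem hi)

lemma deg_pow (h : OnePt k B deg) {b : B} (hb : b ≠ 0) (j : ℕ) : deg (b ^ j) = j * deg b := by
  induction j with
  | zero => rw [pow_zero, deg_one h, zero_mul]
  | succ j ih => rw [pow_succ, h.deg_mul _ _ (pow_ne_zero j hb) hb, ih]; ring

/-- A family of elements, one of each degree, is linearly independent. -/
lemma linInd (h : OnePt k B deg) {e : degSet deg → B} (he : ∀ m, deg (e m) = m)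
    (hne : ∀ m, e m ≠ 0) : LinearIndependent k e := by
  classical
  rw [linearIndependent_iff']
  intro s g hs
  by_contra hcon
  push Not at hcon
  obtain ⟨i0, hi0, hgi0⟩ := hcon
  set t := s.filter (fun i => g i ≠ 0) with ht
  have htne : t.Nonempty := ⟨i0, Finset.mem_filter.mpr ⟨hi0, hgi0⟩⟩
  obtain ⟨m, hm, hmax⟩ := Finset.exists_max_image t (fun i => (i : ℕ)) htne
  have hsum : ∑ i ∈ t, g i • e i = 0 := by
    rw [← hs, ht, Finset.sum_filter]
    apply Finset.sum_congr rfl
    intro i _
    by_cases hg : g i = 0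
    · simp [hg]
    · rw [if_pos hg]
  rw [← Finset.add_sum_erase t _ hm] at hsum
  have hgm : g m ≠ 0 := (Finset.mem_filter.mp hm).2
  have hd : deg (g m • e m) = m := by rw [deg_smul h hgm, he]
  by_cases hm0 : (m : ℕ) = 0
  · have hem : t.erase m = ∅ := by
      rw [Finset.eq_empty_iff_forall_notMem]
      intro i hi
      have h1 := hmax i (Finset.mem_of_mem_erase hi)
      have h2 : i = m := Subtype.ext (by omega)
      exact Finset.ne_of_mem_erase hi h2
    rw [hem, Finset.sum_empty, add_zero] at hsum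
    rcases smul_eq_zero.mp hsum with h1 | h1
    · exact hgm h1
    · exact hne m h1
  · have h1 : deg (∑ i ∈ t.erase m, g i • e i) ≤ (m : ℕ) - 1 := by
      apply deg_sum_le h
      intro i hi
      have h1 := hmax i (Finset.mem_of_mem_erase hi)
      have h2 : (i : ℕ) ≠ m := fun h => Finset.ne_of_mem_erase hi (Subtype.ext h)
      refine (deg_smul_le h _ _).trans ?_
      rw [he]
      omega
    have h2 : g m • e m = -∑ i ∈ t.erase m, g i • e i := eq_neg_of_add_eq_zero_left hsum
    rw [h2, deg_neg h] at hd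
    omega

omit [IsDomain B] in
/-- A family of elements, one of each degree, spans. -/
lemma spans (h : OnePt k B deg) {e : degSet deg → B} (he : ∀ m, deg (e m) = m)
    (hne : ∀ m, e m ≠ 0) : ⊤ ≤ Submodule.span k (Set.range e) := by
  have key : ∀ n : ℕ, ∀ b : B, deg b < n → b ∈ Submodule.span k (Set.range e) := by
    intro n
    induction n with
    | zero => intro b hb; omega
    | succ n ih =>
      intro b hb
      by_cases hb0 : b = 0
      · rw [hb0]; exact Submodule.zero_mem _
      · set m : degSet deg := ⟨deg b, b, hb0, rfl⟩ with hm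
        have hmem : e m ∈ Submodule.span k (Set.range e) := Submodule.subset_span ⟨m, rfl⟩
        obtain ⟨c, hc | hc⟩ := h.lead b (e m) hb0 (hne m) (by rw [he])
        · rw [hc]; exact Submodule.smul_mem _ _ hmem
        · have h1 := ih (b - c • e m) (by rw [he] at hc; change _ < deg b at hc; omega)
          have h2 := Submodule.add_mem _ h1 (Submodule.smul_mem _ c hmem)
          rwa [sub_add_cancel] at h2
  intro b _
  exact key (deg b + 1) b (Nat.lt_succ_self _)

end R3a

open R3a

/-- **R3a.** The graded basis attached to an Apery set, and the finite set of its structure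
constants. -/
theorem exists_basis {k : Type u} {B : Type v} [Field k] [CommRing B] [IsDomain B] [Algebra k B]
    {deg : B → ℕ} (h : OnePt k B deg) :
    ∃ (E : Basis (degSet deg) k B) (x : degSet deg) (F : Finset (degSet deg)) (S : Finset k),
      0 < (x : ℕ) ∧ x ∈ F ∧ (∀ s ∈ S, s ≠ 0) ∧ (∀ m, deg (E m) = m) ∧
      (∀ m : degSet deg, (m : ℕ) = 0 → E m = 1) ∧
      (∀ m, ∃ i ∈ F, ∃ j : ℕ, E m = E i * E x ^ j ∧ (m : ℕ) = i + x * j) ∧
      (∀ m m'' : degSet deg, (m'' : ℕ) = m + x → E m'' = E m * E x) ∧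
      ∀ O : ValuationSubring k, (∀ s ∈ S, O.valuation s = 1) → IntBasis O deg E := by
  classical
  obtain ⟨N, hN⟩ := h.large
  set n : ℕ := N + 1 with hn
  have hn0 : 0 < n := Nat.succ_pos N
  obtain ⟨X, hX0, hXd⟩ := hN n (by omega)
  -- least degrees in the residue classes
  have hex : ∀ r : ℕ, r < n → ∃ a, a ∈ degSet deg ∧ a % n = r := by
    intro r hr
    refine ⟨r + n * n, ?_, ?_⟩
    · obtain ⟨b, hb0, hb⟩ := hN (r + n * n) (by nlinarith)
      exact ⟨b, hb0, hb⟩
    · rw [Nat.add_mul_mod_self_left, Nat.mod_eq_of_lt hr]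
  have hA : ∀ r : ℕ, ∃ a : ℕ, r < n → (a ∈ degSet deg ∧ a % n = r ∧
      ∀ a' ∈ degSet deg, a' % n = r → a ≤ a') := by
    intro r
    by_cases hr : r < n
    · refine ⟨Nat.find (hex r hr), fun _ => ⟨(Nat.find_spec (hex r hr)).1,
        (Nat.find_spec (hex r hr)).2, fun a' ha' hr' => Nat.find_min' _ ⟨ha', hr'⟩⟩⟩
    · exact ⟨0, fun h => absurd h hr⟩
  choose A hA using hA
  have hA0 : A 0 = 0 := by
    have h1 := (hA 0 hn0).2.2 0 (zero_mem_degSet h) (Nat.zero_mod n)
    omega
  have hb : ∀ r : ℕ, ∃ b : B, r < n → (b ≠ 0 ∧ deg b = A r ∧ (r = 0 → b = 1)) := by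
    intro r
    by_cases hr0 : r = 0
    · exact ⟨1, fun _ => ⟨one_ne_zero, by rw [deg_one h, hr0, hA0], fun _ => rfl⟩⟩
    · by_cases hr : r < n
      · obtain ⟨b, hb0, hbd⟩ := (hA r hr).1
        exact ⟨b, fun _ => ⟨hb0, hbd, fun h => absurd h hr0⟩⟩
      · exact ⟨0, fun h => absurd h hr⟩
  choose b hb using hb
  let q : ℕ → ℕ := fun m => (m - A (m % n)) / n
  have hq : ∀ m ∈ degSet deg, m = A (m % n) + n * q m := by
    intro m hm
    have hlt := Nat.mod_lt m hn0
    obtain ⟨h1, h2, h3⟩ := hA (m % n) hlt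
    have hle := h3 m hm rfl
    have hdvd : n ∣ m - A (m % n) := (Nat.modEq_iff_dvd' hle).mp h2
    have h4 : n * q m = m - A (m % n) := Nat.mul_div_cancel' hdvd
    omega
  let e : degSet deg → B := fun m => b ((m : ℕ) % n) * X ^ q m
  have hlt : ∀ m : ℕ, m % n < n := fun m => Nat.mod_lt m hn0
  have he0 : ∀ m, e m ≠ 0 := fun m =>
    mul_ne_zero (hb _ (hlt m)).1 (pow_ne_zero _ hX0)
  have hed : ∀ m, deg (e m) = m := by
    intro m
    change deg (b ((m : ℕ) % n) * X ^ q m) = m
    rw [h.deg_mul _ _ (hb _ (hlt m)).1 (pow_ne_zero _ hX0), (hb _ (hlt m)).2.1, deg_pow h hX0, hXd]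
    have := hq m m.2
    rw [mul_comm (q m) n]
    exact this.symm
  let E : Basis (degSet deg) k B := Basis.mk (linInd h hed he0) (spans h hed he0)
  have hE : ∀ m, E m = e m := fun m => Basis.mk_apply _ _ m
  -- the generators
  let x : degSet deg := ⟨n, X, hX0, hXd⟩
  have hqx : q n = 1 := by
    change (n - A (n % n)) / n = 1
    rw [Nat.mod_self, hA0, Nat.sub_zero, Nat.div_self hn0]
  have hEx : E x = X := by
    rw [hE]
    change b (n % n) * X ^ q n = X
    rw [hqx, pow_one, Nat.mod_self, (hb 0 hn0).2.2 rfl, one_mul]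
  have hstep : ∀ m m'' : degSet deg, (m'' : ℕ) = m + x → E m'' = E m * E x := by
    intro m m'' hm
    rw [hEx, hE, hE]
    change b ((m'' : ℕ) % n) * X ^ q m'' = b ((m : ℕ) % n) * X ^ q m * X
    have hm' : (m'' : ℕ) = m + n := hm
    have h1 : (m'' : ℕ) % n = (m : ℕ) % n := by rw [hm', Nat.add_mod_right]
    have h2 : q m'' = q m + 1 := by
      have e1 := hq m'' m''.2
      have e2 := hq m m.2
      rw [h1] at e1
      have e3 : n * q m'' = n * (q m + 1) := by rw [mul_add, mul_one]; omega
      exact Nat.eq_of_mul_eq_mul_left hn0 e3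
    rw [h1, h2, pow_succ, mul_assoc]
  -- the Apery elements
  let ap : Fin n → degSet deg := fun r => ⟨A r, (hA r r.2).1⟩
  have hEap : ∀ r : Fin n, E (ap r) = b r := by
    intro r
    rw [hE]
    change b (A r % n) * X ^ q (A r) = b r
    have h1 : A r % n = r := (hA r r.2).2.1
    have h2 : q (A r) = 0 := by
      change (A r - A (A r % n)) / n = 0
      rw [h1, Nat.sub_self, Nat.zero_div]
    rw [h1, h2, pow_zero, mul_one]
  have hdec : ∀ m : degSet deg, E m = E (ap ⟨(m : ℕ) % n, hlt m⟩) * E x ^ q m ∧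
      (m : ℕ) = ap ⟨(m : ℕ) % n, hlt m⟩ + x * q m := by
    intro m
    refine ⟨?_, hq m m.2⟩
    rw [hEap, hEx, hE]
  -- iterated steps
  have hmem : ∀ (m : degSet deg) (t : ℕ), (m : ℕ) + n * t ∈ degSet deg := by
    intro m t
    refine ⟨E m * X ^ t, mul_ne_zero (by rw [hE]; exact he0 m) (pow_ne_zero _ hX0), ?_⟩
    rw [h.deg_mul _ _ (by rw [hE]; exact he0 m) (pow_ne_zero _ hX0), hE, hed, deg_pow h hX0, hXd,
      mul_comm t n]
  have hsteps : ∀ (t : ℕ) (m : degSet deg), E ⟨(m : ℕ) + n * t, hmem m t⟩ = E m * X ^ t := by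
    intro t
    induction t with
    | zero =>
      intro m
      rw [pow_zero, mul_one]
      congr 1
    | succ t ih =>
      intro m
      rw [pow_succ, ← mul_assoc, ← ih m, ← hEx]
      apply hstep
      change (m : ℕ) + n * (t + 1) = m + n * t + n
      ring
  -- structure constants
  let S : Finset k := (Finset.univ : Finset (Fin n × Fin n)).biUnion
    (fun ij => (E.repr (b ij.1 * b ij.2)).support.image (fun l => E.repr (b ij.1 * b ij.2) l))
  have hSne : ∀ s ∈ S, s ≠ 0 := by
    intro s hs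
    rw [Finset.mem_biUnion] at hs
    obtain ⟨ij, _, hs⟩ := hs
    rw [Finset.mem_image] at hs
    obtain ⟨l, hl, rfl⟩ := hs
    exact Finsupp.mem_support_iff.mp hl
  have hstr : ∀ m m' i : degSet deg, E.repr (E m * E m') i = 0 ∨ E.repr (E m * E m') i ∈ S := by
    intro m m' i
    set r : Fin n := ⟨(m : ℕ) % n, hlt m⟩ with hr
    set r' : Fin n := ⟨(m' : ℕ) % n, hlt m'⟩ with hr'
    have e1 : E m * E m' = (b r * b r') * X ^ (q m + q m') := by
      rw [(hdec m).1, (hdec m').1, hEap, hEap, hEx, pow_add]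
      ring
    set t := q m + q m' with ht
    have e2 : E m * E m' = ∑ l ∈ (E.repr (b r * b r')).support,
        E.repr (b r * b r') l • E ⟨(l : ℕ) + n * t, hmem l t⟩ := by
      rw [e1]
      conv_lhs => rw [← E.linearCombination_repr (b r * b r')]
      rw [Finsupp.linearCombination_apply, Finsupp.sum, Finset.sum_mul]
      apply Finset.sum_congr rfl
      intro l _
      rw [hsteps, smul_mul_assoc]
    rw [e2, map_sum, Finsupp.finsetSum_apply]
    by_cases hi : ∃ l ∈ (E.repr (b r * b r')).support, (l : ℕ) + n * t = i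
    · obtain ⟨l, hl, hli⟩ := hi
      right
      rw [Finset.sum_eq_single_of_mem l hl]
      · rw [map_smul, E.repr_self, Finsupp.smul_apply, Finsupp.single_apply,
          if_pos (Subtype.ext hli), smul_eq_mul, mul_one]
        rw [Finset.mem_biUnion]
        exact ⟨(r, r'), Finset.mem_univ _, Finset.mem_image.mpr ⟨l, hl, rfl⟩⟩
      · intro l' _ hl'
        rw [map_smul, E.repr_self, Finsupp.smul_apply, Finsupp.single_apply, if_neg, smul_zero]
        intro h1
        apply hl'
        have h2 : (l' : ℕ) + n * t = i := congrArg Subtype.val h1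
        exact Subtype.ext (by omega)
    · left
      apply Finset.sum_eq_zero
      intro l hl
      rw [map_smul, E.repr_self, Finsupp.smul_apply, Finsupp.single_apply, if_neg, smul_zero]
      intro h1
      exact hi ⟨l, hl, congrArg Subtype.val h1⟩
  refine ⟨E, x, insert x (Finset.univ.image ap), S, hn0, Finset.mem_insert_self _ _, hSne,
    fun m => by rw [hE, hed], ?_, ?_, hstep, ?_⟩
  · intro m hm
    have h1 : m = ap ⟨0, hn0⟩ := Subtype.ext (by rw [hm]; exact hA0.symm)
    rw [h1, hEap]
    exact (hb 0 hn0).2.2 rfl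
  · intro m
    exact ⟨ap ⟨(m : ℕ) % n, hlt m⟩, Finset.mem_insert_of_mem
      (Finset.mem_image_of_mem _ (Finset.mem_univ _)), q m, hdec m⟩
  · intro O hO
    have hunit : ∀ s ∈ S, s ∈ O ∧ s⁻¹ ∈ O := by
      intro s hs
      constructor
      · rw [← O.valuation_le_one_iff, hO s hs]
      · rw [← O.valuation_le_one_iff, map_inv₀, hO s hs, inv_one]
    refine ⟨fun m => by rw [hE, hed], ?_, ?_, ?_⟩
    · intro m hm
      have h1 : m = ap ⟨0, hn0⟩ := Subtype.ext (by rw [hm]; exact hA0.symm)
      rw [h1, hEap]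
      exact (hb 0 hn0).2.2 rfl
    · intro m m' i
      rcases hstr m m' i with h1 | h1
      · rw [h1]; exact O.zero_mem
      · exact (hunit _ h1).1
    · intro m m' i _
      rcases hstr m m' i with h1 | h1
      · rw [h1, inv_zero]; exact O.zero_mem
      · exact (hunit _ h1).2

end Pool.Agent.SC
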