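import Mathlib
import Pool.Agent.SC.Defs
import Pool.Agent.SC.R4a

/-!
# Block R3b: good reduction almost everywhere

The normality of the reduction of the model is certified by a Jacobian certificate: an identity in
`B` which says that the curve is smooth, with finitely many coefficients.
-/

universe u v

namespace Pool.Agent.SC

open Module

/-- A noetherian domain whose local rings have principal maximal ideals is a Dedekind domain. -/
theorem isDedekindDomain_of_principal (C : Type*) [CommRing C] [IsDomain C] [IsNoetherianRing C]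
    (H : ∀ (M : Ideal C) [M.IsMaximal],
      (IsLocalRing.maximalIdeal (Localization.AtPrime M)).IsPrincipal) :
    IsDedekindDomain C := by
  have hloc : ∀ (q : Ideal C) [q.IsMaximal], IsIntegrallyClosed (Localization.AtPrime q) ∧
      ∀ P : Ideal (Localization.AtPrime q), P ≠ ⊥ → P.IsPrime →
        P = IsLocalRing.maximalIdeal _ := by
    intro q hq
    have : IsNoetherianRing (Localization.AtPrime q) :=
      IsLocalization.isNoetherianRing q.primeCompl _ inferInstance
    exact ((tfae_of_isNoetherianRing_of_isLocalRing_of_isDomain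
      (Localization.AtPrime q)).out 4 3).1 (H q)
  have hdim : Ring.DimensionLEOne C := ⟨by
    intro p hp hpp
    rcases p.exists_le_maximal hpp.ne_top with ⟨q, hq, hpq⟩
    let f := (IsLocalization.orderIsoOfPrime q.primeCompl (Localization.AtPrime q)).symm
    let P := f ⟨p, hpp, hpq.disjoint_compl_left⟩
    let Q := f ⟨q, hq.isPrime, Set.disjoint_left.mpr fun _ a => a⟩
    have hinj : Function.Injective (algebraMap C (Localization.AtPrime q)) :=
      IsLocalization.injective (Localization.AtPrime q) q.primeCompl_le_nonZeroDivisors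
    have hp1 : P.1 ≠ ⊥ := fun x => hp ((p.map_eq_bot_iff_of_injective hinj).mp x)
    have hq1 : Q.1 ≠ ⊥ :=
      fun x => (ne_bot_of_le_ne_bot hp hpq) ((q.map_eq_bot_iff_of_injective hinj).mp x)
    have h1 := (hloc q).2 P.1 hp1 P.2
    have h2 := (hloc q).2 Q.1 hq1 Q.2
    rw [show p = q from Subtype.val_inj.mpr <| f.injective <|
      Subtype.val_inj.mp (h1.trans h2.symm)]
    exact hq⟩
  have hic : IsIntegrallyClosed C :=
    IsIntegrallyClosed.of_localization_maximal fun p hp0 hpm => (hloc p).1
  exact { }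

section Certificate

variable {κ : Type*} {C : Type*} {ι : Type*} [Field κ] [CommRing C] [Algebra κ C] [Fintype ι]
  [DecidableEq ι]

open MvPolynomial in
theorem taylor_mem (g : ι → C) (α : ι → κ) (p : MvPolynomial ι κ) :
    aeval g p - algebraMap κ C (eval α p) -
        ∑ l, (g l - algebraMap κ C (α l)) * aeval g (pderiv l p) ∈
      (Ideal.span (Set.range fun i => g i - algebraMap κ C (α i))) ^ 2 := by
  set N := Ideal.span (Set.range fun i => g i - algebraMap κ C (α i)) with hN
  have hmem : ∀ i, g i - algebraMap κ C (α i) ∈ N := fun i => Ideal.subset_span ⟨i, rfl⟩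
  induction p using MvPolynomial.induction_on with
  | C a => simp
  | add p q hp hq =>
    have h1 := Ideal.add_mem _ hp hq
    convert h1 using 1
    simp only [map_add, mul_add, Finset.sum_add_distrib]
    ring
  | mul_X p n hp =>
    have h1 : aeval g p - algebraMap κ C (eval α p) ∈ N := by
      have h2 : aeval g p - algebraMap κ C (eval α p) =
          (aeval g p - algebraMap κ C (eval α p) -
            ∑ l, (g l - algebraMap κ C (α l)) * aeval g (pderiv l p)) +
            ∑ l, (g l - algebraMap κ C (α l)) * aeval g (pderiv l p) := by ring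
      rw [h2]
      refine Ideal.add_mem _ (Ideal.pow_le_self two_ne_zero hp)
        (Ideal.sum_mem _ fun l _ => Ideal.mul_mem_right _ _ (hmem l))
    have h3 : ∑ l, (g l - algebraMap κ C (α l)) * aeval g (pderiv l (p * X n)) =
        (∑ l, (g l - algebraMap κ C (α l)) * aeval g (pderiv l p)) * g n +
          (g n - algebraMap κ C (α n)) * aeval g p := by
      simp only [pderiv_mul, pderiv_X, map_add, map_mul, aeval_X, mul_add, Finset.sum_add_distrib,
        Finset.sum_mul, Pi.single_apply, apply_ite (aeval g), map_one, map_zero, mul_ite, mul_one,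
        mul_zero]
      rw [Finset.sum_ite_eq]
      simp [mul_assoc]
    have h4 : aeval g (p * X n) - algebraMap κ C (eval α (p * X n)) -
        ∑ l, (g l - algebraMap κ C (α l)) * aeval g (pderiv l (p * X n)) =
        (aeval g p - algebraMap κ C (eval α p) -
            ∑ l, (g l - algebraMap κ C (α l)) * aeval g (pderiv l p)) * g n -
          (g n - algebraMap κ C (α n)) * (aeval g p - algebraMap κ C (eval α p)) := by
      rw [h3]
      simp only [map_mul, aeval_X, eval_X]
      ring
    rw [h4]
    refine Ideal.sub_mem _ (Ideal.mul_mem_right _ _ hp) ?_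
    rw [pow_two]
    exact Ideal.mul_mem_mul (hmem n) h1

open MvPolynomial in
/-- The Jacobian criterion in the form which is used here. -/
theorem principal_of_certificate [IsAlgClosed κ] [IsDomain C] (g : ι → C)
    (hg : Function.Surjective (aeval g : MvPolynomial ι κ →ₐ[κ] C))
    {J : Type*} [Fintype J] (f : J → MvPolynomial ι κ) (hf : ∀ j, aeval g (f j) = 0)
    (b : ι → C) (hb : ∑ i, b i = 1) (lam : ι → ι → C) (mu : ι → ι → J → C)
    (hcert : ∀ i0 i l, (if l = i then b i0 else 0) =
      (if l = i0 then lam i0 i else 0) + ∑ j, mu i0 i j * aeval g (pderiv l (f j)))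
    (M : Ideal C) [hM : M.IsMaximal] :
    (IsLocalRing.maximalIdeal (Localization.AtPrime M)).IsPrincipal := by
  have hft : Algebra.FiniteType κ C := Algebra.FiniteType.of_surjective _ hg
  have hnoeth : IsNoetherianRing C := Algebra.FiniteType.isNoetherianRing κ C
  -- the point
  have hbij : Function.Bijective (algebraMap κ (C ⧸ M)) := by
    letI : Field (C ⧸ M) := Ideal.Quotient.field M
    have hft2 : Algebra.FiniteType κ (C ⧸ M) :=
      Algebra.FiniteType.of_surjective (Ideal.Quotient.mkₐ κ M) (Ideal.Quotient.mkₐ_surjective κ M)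
    have hfin : Module.Finite κ (C ⧸ M) := finite_of_finite_type_of_isJacobsonRing κ (C ⧸ M)
    exact IsAlgClosed.algebraMap_bijective_of_isIntegral
  have hex : ∀ i, ∃ a : κ, g i - algebraMap κ C a ∈ M := by
    intro i
    obtain ⟨a, ha⟩ := hbij.2 (Ideal.Quotient.mk M (g i))
    exact ⟨a, Ideal.Quotient.eq.1 (ha.symm)⟩
  choose α hα using hex
  have hconst : ∀ a : κ, algebraMap κ C a ∈ M → a = 0 := by
    intro a ha
    refine hbij.1 ?_
    rw [map_zero]
    exact Ideal.Quotient.eq_zero_iff_mem.2 ha
  set N := Ideal.span (Set.range fun i => g i - algebraMap κ C (α i)) with hN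
  have hmem : ∀ i, g i - algebraMap κ C (α i) ∈ N := fun i => Ideal.subset_span ⟨i, rfl⟩
  have hNM : N ≤ M := Ideal.span_le.2 (by rintro _ ⟨i, rfl⟩; exact hα i)
  have haevN : ∀ p : MvPolynomial ι κ, aeval g p - algebraMap κ C (eval α p) ∈ N := by
    intro p
    have h2 : aeval g p - algebraMap κ C (eval α p) =
        (aeval g p - algebraMap κ C (eval α p) -
          ∑ l, (g l - algebraMap κ C (α l)) * aeval g (pderiv l p)) +
          ∑ l, (g l - algebraMap κ C (α l)) * aeval g (pderiv l p) := by ring
    rw [h2]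
    exact Ideal.add_mem _ (Ideal.pow_le_self two_ne_zero (taylor_mem g α p))
      (Ideal.sum_mem _ fun l _ => Ideal.mul_mem_right _ _ (hmem l))
  have hMN : M = N := by
    refine le_antisymm ?_ hNM
    intro c hc
    obtain ⟨p, rfl⟩ := hg c
    have h1 := haevN p
    have h2 : eval α p = 0 := by
      refine hconst _ ?_
      have := Ideal.sub_mem _ hc (hNM h1)
      rwa [sub_sub_cancel] at this
    rwa [h2, map_zero, sub_zero] at h1
  -- the relations
  have hrel : ∀ j, ∑ l, (g l - algebraMap κ C (α l)) * aeval g (pderiv l (f j)) ∈ N ^ 2 := by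
    intro j
    have h1 := taylor_mem g α (f j)
    have h2 : eval α (f j) = 0 := by
      refine hconst _ ?_
      have := haevN (f j)
      rw [hf j, zero_sub, neg_mem_iff] at this
      exact hNM this
    rw [hf j, h2, map_zero, sub_zero, zero_sub, neg_mem_iff] at h1
    exact h1
  have hbM : ∃ i0, b i0 ∉ M := by
    by_contra hcon
    push Not at hcon
    refine hM.ne_top ((Ideal.eq_top_iff_one _).2 ?_)
    rw [← hb]
    exact Ideal.sum_mem _ fun i _ => hcon i
  obtain ⟨i0, hi0⟩ := hbM
  have hbt : ∀ i, b i0 * (g i - algebraMap κ C (α i)) ∈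
      Ideal.span {g i0 - algebraMap κ C (α i0)} ⊔ N ^ 2 := by
    intro i
    have h1 : b i0 * (g i - algebraMap κ C (α i)) =
        (g i0 - algebraMap κ C (α i0)) * lam i0 i + ∑ j, mu i0 i j *
          ∑ l, (g l - algebraMap κ C (α l)) * aeval g (pderiv l (f j)) := by
      have h2 : ∑ l, (g l - algebraMap κ C (α l)) * (if l = i then b i0 else 0) =
          b i0 * (g i - algebraMap κ C (α i)) := by
        simp [mul_comm]
      rw [← h2]
      simp_rw [hcert i0 i, mul_add, Finset.sum_add_distrib, Finset.mul_sum]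
      congr 1
      · simp
      · rw [Finset.sum_comm]
        refine Finset.sum_congr rfl fun j _ => Finset.sum_congr rfl fun l _ => ?_
        ring
    rw [h1]
    refine Submodule.add_mem_sup (Ideal.mul_mem_right _ _ (Ideal.subset_span rfl)) ?_
    exact Ideal.sum_mem _ fun j _ => Ideal.mul_mem_left _ _ (hrel j)
  -- localization
  set L := Localization.AtPrime M
  have hmaxL : IsLocalRing.maximalIdeal L = N.map (algebraMap C L) := by
    rw [← hMN]
    exact (Localization.AtPrime.map_eq_maximalIdeal (I := M)).symm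
  have hLn : IsNoetherianRing L := IsLocalization.isNoetherianRing M.primeCompl _ hnoeth
  have hle : IsLocalRing.maximalIdeal L ≤
      Ideal.span {algebraMap C L (g i0 - algebraMap κ C (α i0))} ⊔
        IsLocalRing.maximalIdeal L • IsLocalRing.maximalIdeal L := by
    have h1 : N ≤ (Ideal.span {algebraMap C L (g i0 - algebraMap κ C (α i0))} ⊔
        IsLocalRing.maximalIdeal L • IsLocalRing.maximalIdeal L).comap (algebraMap C L) := by
      rw [hN, Ideal.span_le]
      rintro _ ⟨i, rfl⟩
      rw [SetLike.mem_coe, Ideal.mem_comap]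
      have h2 := Ideal.mem_map_of_mem (algebraMap C L) (hbt i)
      rw [Ideal.map_sup, Ideal.map_span, Set.image_singleton, map_mul, Ideal.map_pow, ← hmaxL,
        pow_two] at h2
      have h3 : IsUnit (algebraMap C L (b i0)) :=
        IsLocalization.map_units L (⟨b i0, hi0⟩ : M.primeCompl)
      exact (Ideal.unit_mul_mem_iff_mem _ h3).1 h2
    rw [hmaxL] at *
    exact Ideal.map_le_iff_le_comap.2 h1
  have hfin := Submodule.le_of_le_smul_of_le_jacobson_bot (IsNoetherian.noetherian _)
    (IsLocalRing.maximalIdeal_le_jacobson _) hle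
  refine ⟨⟨algebraMap C L (g i0 - algebraMap κ C (α i0)), le_antisymm hfin ?_⟩⟩
  rw [Ideal.submodule_span_eq, Ideal.span_le, Set.singleton_subset_iff]
  rw [SetLike.mem_coe, hmaxL]
  exact Ideal.mem_map_of_mem _ (hmem i0)

open MvPolynomial in
/-- The maximal ideals are the points. -/
theorem exists_point_eval [IsAlgClosed κ] (g : ι → C)
    (hg : Function.Surjective (aeval g : MvPolynomial ι κ →ₐ[κ] C)) (M : Ideal C)
    [hM : M.IsMaximal] :
    ∃ α : ι → κ, M = Ideal.span (Set.range fun i => g i - algebraMap κ C (α i)) := by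
  have hft : Algebra.FiniteType κ C := Algebra.FiniteType.of_surjective _ hg
  have hbij : Function.Bijective (algebraMap κ (C ⧸ M)) := by
    letI : Field (C ⧸ M) := Ideal.Quotient.field M
    have hft2 : Algebra.FiniteType κ (C ⧸ M) :=
      Algebra.FiniteType.of_surjective (Ideal.Quotient.mkₐ κ M) (Ideal.Quotient.mkₐ_surjective κ M)
    have hfin : Module.Finite κ (C ⧸ M) := finite_of_finite_type_of_isJacobsonRing κ (C ⧸ M)
    exact IsAlgClosed.algebraMap_bijective_of_isIntegral
  have hex : ∀ i, ∃ a : κ, g i - algebraMap κ C a ∈ M := by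
    intro i
    obtain ⟨a, ha⟩ := hbij.2 (Ideal.Quotient.mk M (g i))
    exact ⟨a, Ideal.Quotient.eq.1 (ha.symm)⟩
  choose α hα using hex
  have hconst : ∀ a : κ, algebraMap κ C a ∈ M → a = 0 := by
    intro a ha
    refine hbij.1 ?_
    rw [map_zero]
    exact Ideal.Quotient.eq_zero_iff_mem.2 ha
  refine ⟨α, ?_⟩
  set N := Ideal.span (Set.range fun i => g i - algebraMap κ C (α i)) with hN
  have hmem : ∀ i, g i - algebraMap κ C (α i) ∈ N := fun i => Ideal.subset_span ⟨i, rfl⟩
  have hNM : N ≤ M := Ideal.span_le.2 (by rintro _ ⟨i, rfl⟩; exact hα i)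
  have haevN : ∀ p : MvPolynomial ι κ, aeval g p - algebraMap κ C (eval α p) ∈ N := by
    intro p
    have h2 : aeval g p - algebraMap κ C (eval α p) =
        (aeval g p - algebraMap κ C (eval α p) -
          ∑ l, (g l - algebraMap κ C (α l)) * aeval g (pderiv l p)) +
          ∑ l, (g l - algebraMap κ C (α l)) * aeval g (pderiv l p) := by ring
    rw [h2]
    exact Ideal.add_mem _ (Ideal.pow_le_self two_ne_zero (taylor_mem g α p))
      (Ideal.sum_mem _ fun l _ => Ideal.mul_mem_right _ _ (hmem l))
  refine le_antisymm ?_ hNM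
  intro c hc
  obtain ⟨p, rfl⟩ := hg c
  have h1 := haevN p
  have h2 : eval α p = 0 := by
    refine hconst _ ?_
    have := Ideal.sub_mem _ hc (hNM h1)
    rwa [sub_sub_cancel] at this
  rwa [h2, map_zero, sub_zero] at h1

/-- The vector of the partial derivatives. -/
noncomputable def dif (g : ι → C) (p : MvPolynomial ι κ) : ι → C :=
  fun l => MvPolynomial.aeval g (MvPolynomial.pderiv l p)

open MvPolynomial in
theorem dif_mul (g : ι → C) (p q : MvPolynomial ι κ) :
    dif g (p * q) = aeval g p • dif g q + aeval g q • dif g p := by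
  funext l
  simp only [dif, pderiv_mul, map_add, map_mul, Pi.add_apply, Pi.smul_apply, smul_eq_mul]
  ring

theorem dif_add (g : ι → C) (p q : MvPolynomial ι κ) :
    dif g (p + q) = dif g p + dif g q := by
  funext l
  simp only [dif, map_add, Pi.add_apply]

theorem dif_sub (g : ι → C) (p q : MvPolynomial ι κ) :
    dif g (p - q) = dif g p - dif g q := by
  funext l
  simp only [dif, map_sub, Pi.sub_apply]

open MvPolynomial in
theorem dif_X_sub_C (g : ι → C) (i : ι) (a : κ) :
    dif g (X i - MvPolynomial.C a : MvPolynomial ι κ) = Pi.single i 1 := by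
  funext l
  simp only [dif, map_sub, pderiv_X, pderiv_C, sub_zero, map_zero]
  by_cases h : l = i
  · subst h; simp
  · rw [Pi.single_eq_of_ne h, Pi.single_eq_of_ne (fun h' => h h'.symm), map_zero]

open MvPolynomial in
/-- A smooth affine curve has a Jacobian certificate. -/
theorem exists_certificate [IsAlgClosed κ] [IsDomain C] [IsDedekindDomain C] (hC : ¬ IsField C)
    (g : ι → C) (hg : Function.Surjective (aeval g : MvPolynomial ι κ →ₐ[κ] C)) :
    ∃ (n : ℕ) (f : Fin n → MvPolynomial ι κ) (b : ι → C) (lam : ι → ι → C)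
      (mu : ι → ι → Fin n → C), (∀ j, aeval g (f j) = 0) ∧ ∑ i, b i = 1 ∧
      ∀ i0 i l, (if l = i then b i0 else 0) =
        (if l = i0 then lam i0 i else 0) + ∑ j, mu i0 i j * aeval g (pderiv l (f j)) := by
  classical
  obtain ⟨n, f, hf⟩ : ∃ n, ∃ f : Fin n → MvPolynomial ι κ,
      Submodule.span (MvPolynomial ι κ) (Set.range f) =
        RingHom.ker (aeval g : MvPolynomial ι κ →ₐ[κ] C) :=
    Submodule.fg_iff_exists_fin_generating_family.1 (IsNoetherian.noetherian _)
  have hfz : ∀ j, aeval g (f j) = 0 := by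
    intro j
    have : f j ∈ RingHom.ker (aeval g : MvPolynomial ι κ →ₐ[κ] C) := by
      rw [← hf]; exact Submodule.subset_span ⟨j, rfl⟩
    exact this
  let R : Submodule C (ι → C) := Submodule.span C (Set.range fun j => dif g (f j))
  have hR : ∀ v : MvPolynomial ι κ, aeval g v = 0 → dif g v ∈ R := by
    intro v hv
    have hv2 : v ∈ Submodule.span (MvPolynomial ι κ) (Set.range f) := by
      rw [hf]; exact hv
    obtain ⟨c, rfl⟩ := (Submodule.mem_span_range_iff_exists_fun _).1 hv2
    have h1 : dif g (∑ j, c j • f j) = ∑ j, aeval g (c j) • dif g (f j) := by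
      have h2 : ∀ s : Finset (Fin n), dif g (∑ j ∈ s, c j • f j) =
          ∑ j ∈ s, aeval g (c j) • dif g (f j) := by
        intro s
        induction s using Finset.induction_on with
        | empty => funext l; simp [dif]
        | insert a s ha ih =>
          rw [Finset.sum_insert ha, Finset.sum_insert ha, dif_add, ih, smul_eq_mul, dif_mul,
            hfz, zero_smul, add_zero]
      exact h2 _
    rw [h1]
    exact Submodule.sum_mem _ fun j _ => Submodule.smul_mem _ _ (Submodule.subset_span ⟨j, rfl⟩)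
  let W : ι → Submodule C (ι → C) := fun i0 => R ⊔ Submodule.span C {Pi.single i0 1}
  let Q : ι → Ideal C := fun i0 =>
    ⨅ i, (W i0).comap (LinearMap.toSpanSingleton C (ι → C) (Pi.single i 1))
  have hQmem : ∀ i0 s, s ∈ Q i0 ↔ ∀ i, s • (Pi.single i 1 : ι → C) ∈ W i0 := by
    intro i0 s
    simp only [Q, Submodule.mem_iInf, Submodule.mem_comap, LinearMap.toSpanSingleton_apply]
  have hkey : ∀ (m : Ideal C) [m.IsMaximal], ∃ i0, ∃ s ∈ Q i0, s - 1 ∈ m := by
    intro m hm
    obtain ⟨α, hα⟩ := exists_point_eval (κ := κ) g hg m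
    have hm0 : m ≠ ⊥ := Ring.ne_bot_of_isMaximal_of_not_isField hm hC
    have hlt2 : m ^ 2 < m := Ideal.pow_lt_self m hm0 hm.ne_top 2 le_rfl
    obtain ⟨i0, hi0⟩ : ∃ i0, g i0 - algebraMap κ C (α i0) ∉ m ^ 2 := by
      by_contra hcon
      push Not at hcon
      refine absurd ?_ (not_le_of_gt hlt2)
      conv_lhs => rw [hα]
      rw [Ideal.span_le]
      rintro _ ⟨i, rfl⟩
      exact hcon i
    have htm : ∀ i, g i - algebraMap κ C (α i) ∈ m := by
      intro i
      rw [hα]
      exact Ideal.subset_span ⟨i, rfl⟩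
    have hsup : Ideal.span {g i0 - algebraMap κ C (α i0)} ⊔ m ^ 2 = m ^ 1 := by
      have hmp : m.IsPrime := hm.isPrime
      refine Ideal.eq_prime_pow_of_succ_lt_of_le hm0 (lt_of_le_of_ne le_sup_right ?_) ?_
      · intro h
        apply hi0
        rw [show m ^ 2 = m ^ (1 + 1) from rfl, h]
        exact Ideal.mem_sup_left (Ideal.mem_span_singleton_self _)
      · rw [pow_one]
        refine sup_le ?_ hlt2.le
        rw [Ideal.span_le, Set.singleton_subset_iff]
        exact htm i0
    let N0 : Ideal (MvPolynomial ι κ) := Ideal.span (Set.range fun i => X i - MvPolynomial.C (α i))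
    have hN0 : N0.map (aeval g : MvPolynomial ι κ →ₐ[κ] C) = m := by
      rw [hα, Ideal.map_span, ← Set.range_comp]
      congr 2
      funext i
      simp [Function.comp]
    have hdN : ∀ u ∈ N0 ^ 2, dif g u ∈ m • (⊤ : Submodule C (ι → C)) := by
      intro u hu
      rw [pow_two] at hu
      refine Submodule.mul_induction_on hu ?_ ?_
      · intro x hx y hy
        rw [dif_mul]
        refine Submodule.add_mem _ ?_ ?_
        · refine Submodule.smul_mem_smul ?_ trivial
          rw [← hN0]; exact Ideal.mem_map_of_mem _ hx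
        · refine Submodule.smul_mem_smul ?_ trivial
          rw [← hN0]; exact Ideal.mem_map_of_mem _ hy
      · intro x y hx hy
        rw [dif_add]
        exact Submodule.add_mem _ hx hy
    have hei : ∀ i, (Pi.single i 1 : ι → C) ∈ W i0 ⊔ m • (⊤ : Submodule C (ι → C)) := by
      intro i
      have h1 : g i - algebraMap κ C (α i) ∈
          Ideal.span {g i0 - algebraMap κ C (α i0)} ⊔ m ^ 2 := by
        rw [hsup, pow_one]; exact htm i
      obtain ⟨y, hy, z, hz, hyz⟩ := Submodule.mem_sup.1 h1
      obtain ⟨c, rfl⟩ := Ideal.mem_span_singleton'.1 hy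
      obtain ⟨Γ, rfl⟩ := hg c
      rw [← hN0, ← Ideal.map_pow] at hz
      obtain ⟨u, hu, rfl⟩ := (Ideal.mem_map_iff_of_surjective _ hg).1 hz
      have h2 : aeval g ((X i - MvPolynomial.C (α i)) -
          Γ * (X i0 - MvPolynomial.C (α i0)) - u) = 0 := by
        simp only [map_sub, map_mul, aeval_X, aeval_C]
        rw [← hyz]
        ring
      have h3 := hR _ h2
      have h4 : (Pi.single i 1 : ι → C) =
          dif g ((X i - MvPolynomial.C (α i)) - Γ * (X i0 - MvPolynomial.C (α i0)) - u) +
          aeval g Γ • (Pi.single i0 1 : ι → C) +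
          ((g i0 - algebraMap κ C (α i0)) • dif g Γ + dif g u) := by
        rw [dif_sub, dif_sub, dif_mul, dif_X_sub_C, dif_X_sub_C]
        simp only [map_sub, aeval_X, aeval_C]
        abel
      rw [h4]
      refine Submodule.add_mem_sup (Submodule.add_mem_sup h3 (Submodule.smul_mem _ _
        (Submodule.mem_span_singleton_self _))) (Submodule.add_mem _
          (Submodule.smul_mem_smul (htm i0) trivial) (hdN u hu))
    have htop : (⊤ : Submodule C (ι → C)) ≤ W i0 ⊔ m • (⊤ : Submodule C (ι → C)) := by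
      intro x _
      have h1 : x = ∑ i, x i • (Pi.single i 1 : ι → C) := by
        funext l
        simp [Finset.sum_apply, Pi.single_apply]
      rw [h1]
      exact Submodule.sum_mem _ fun i _ => Submodule.smul_mem _ _ (hei i)
    obtain ⟨r, hr1, hr2⟩ := Submodule.exists_sub_one_mem_and_smul_le_of_fg_of_le_sup
      (Module.Finite.fg_top) le_rfl htop
    refine ⟨i0, r, (hQmem _ _).2 fun i => hr2 ?_, hr1⟩
    exact Submodule.smul_mem_pointwise_smul _ _ _ trivial
  have hQtop : ⨆ i0, Q i0 = ⊤ := by
    by_contra hne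
    obtain ⟨m, hm, hle⟩ := Ideal.exists_le_maximal _ hne
    obtain ⟨i0, s, hs, hs1⟩ := hkey m
    refine hm.ne_top ((Ideal.eq_top_iff_one _).2 ?_)
    have h1 : s ∈ m := hle (Submodule.mem_iSup_of_mem i0 hs)
    have := Ideal.sub_mem _ h1 hs1
    rwa [sub_sub_cancel] at this
  have hone : (1 : C) ∈ ⨆ i0, Q i0 := by rw [hQtop]; trivial
  obtain ⟨b, hb, hb1⟩ := (Submodule.mem_iSup_iff_exists_finsupp _ _).1 hone
  have hb2 : ∀ i0 i, ∃ (lam : C) (mu : Fin n → C), b i0 • (Pi.single i 1 : ι → C) =
      lam • (Pi.single i0 1 : ι → C) + ∑ j, mu j • dif g (f j) := by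
    intro i0 i
    obtain ⟨y, hy, z, hz, hyz⟩ := Submodule.mem_sup.1 ((hQmem _ _).1 (hb i0) i)
    obtain ⟨mu, rfl⟩ := (Submodule.mem_span_range_iff_exists_fun _).1 hy
    obtain ⟨lam, rfl⟩ := Submodule.mem_span_singleton.1 hz
    exact ⟨lam, mu, by rw [← hyz, add_comm]⟩
  choose lam mu hlm using hb2
  refine ⟨n, f, b, lam, mu, hfz, ?_, ?_⟩
  · rwa [Finsupp.sum_fintype _ _ (fun _ => rfl)] at hb1
  · intro i0 i l
    have h1 := congrFun (hlm i0 i) l
    simp only [Pi.add_apply, Pi.smul_apply, smul_eq_mul, Finset.sum_apply, Pi.single_apply,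
      mul_ite, mul_one, mul_zero] at h1
    exact h1

end Certificate

/-- The residue field of a valuation ring of an algebraically closed field is algebraically
closed. -/
theorem isAlgClosed_residueField {k : Type*} [Field k] [IsAlgClosed k] (O : ValuationSubring k) :
    IsAlgClosed (IsLocalRing.ResidueField O) := by
  refine IsAlgClosed.of_exists_root _ fun p hp hirr => ?_
  have hlift : p ∈ Polynomial.lifts (IsLocalRing.residue O) := by
    rw [Polynomial.mem_lifts]
    exact Polynomial.map_surjective _ IsLocalRing.residue_surjective p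
  obtain ⟨P, hP, hPdeg, hPm⟩ := Polynomial.lifts_and_natDegree_eq_and_monic hlift hp
  have hd : 0 < p.natDegree := hirr.natDegree_pos
  obtain ⟨a, ha⟩ := IsAlgClosed.exists_root (P.map (algebraMap O k)) (by
    rw [Polynomial.degree_map_eq_of_injective (IsFractionRing.injective O k)]
    exact (Polynomial.natDegree_pos_iff_degree_pos.1 (hPdeg ▸ hd)).ne')
  have hint : IsIntegral O a := ⟨P, hPm, by rw [Polynomial.eval₂_eq_eval_map]; exact ha⟩
  obtain ⟨y, hy⟩ := (IsIntegrallyClosed.isIntegral_iff).1 hint
  refine ⟨IsLocalRing.residue O y, ?_⟩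
  have h1 : P.eval y = 0 := by
    apply IsFractionRing.injective O k
    rw [map_zero, ← Polynomial.eval_map_apply, hy]
    exact ha
  rw [← hP, Polynomial.eval_map_apply, h1, map_zero]

section Transfer

variable {k : Type u} {B : Type v} [Field k] [CommRing B] [IsDomain B] [Algebra k B]
  {O : ValuationSubring k} {deg : B → ℕ} {E : Basis (degSet deg) k B}

theorem OnePt.not_isField (h : OnePt k B deg) : ¬ IsField B := by
  intro hf
  obtain ⟨N, hN⟩ := h.large
  obtain ⟨b, hb, hbd⟩ := hN (N + 1) (Nat.le_succ N)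
  obtain ⟨c, hc⟩ := hf.mul_inv_cancel hb
  have hc0 : c ≠ 0 := by
    rintro rfl
    rw [mul_zero] at hc
    exact zero_ne_one hc
  have h1 := h.deg_mul b c hb hc0
  have h2 : deg (1 : B) = 0 := by
    have := h.deg_const 1
    rwa [map_one] at this
  rw [hc, h2, hbd] at h1
  omega

open MvPolynomial in
theorem surj_of_gen (F : Finset B) (hEF : ∀ m, E m ∈ Submonoid.closure (F : Set B)) :
    Function.Surjective (aeval (fun i : F => (i : B)) : MvPolynomial F k →ₐ[k] B) := by
  rw [← AlgHom.range_eq_top, eq_top_iff]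
  intro b _
  have h1 : (⊤ : Submodule k B) ≤ Subalgebra.toSubmodule
      (aeval (fun i : F => (i : B)) : MvPolynomial F k →ₐ[k] B).range := by
    rw [← E.span_eq, Submodule.span_le]
    rintro _ ⟨m, rfl⟩
    have h2 : Submonoid.closure (F : Set B) ≤
        (aeval (fun i : F => (i : B)) : MvPolynomial F k →ₐ[k] B).range.toSubmonoid := by
      rw [Submonoid.closure_le]
      intro x hx
      exact ⟨X ⟨x, hx⟩, by simp⟩
    exact h2 (hEF m)
  exact h1 trivial

/-- Elements of `BO` are integral combinations of the basis. -/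
theorem BO_eq_sum (h : OnePt k B deg) (hE : IntBasis O deg E) (b : BO h hE)
    (hEm : ∀ m, E m ∈ BO h hE) :
    b = ∑ m ∈ (E.repr (b : B)).support, constBO h hE ⟨E.repr b m, b.2 m⟩ * ⟨E m, hEm m⟩ := by
  apply Subtype.ext
  have h1 : ((∑ m ∈ (E.repr (b : B)).support, constBO h hE ⟨E.repr b m, b.2 m⟩ * ⟨E m, hEm m⟩ :
      BO h hE) : B) = ∑ m ∈ (E.repr (b : B)).support, E.repr b m • E m := by
    rw [AddSubmonoidClass.coe_finset_sum]
    refine Finset.sum_congr rfl fun m _ => ?_
    rw [Algebra.smul_def]
    rfl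
  rw [h1]
  conv_lhs => rw [← E.linearCombination_repr (b : B)]
  rw [Finsupp.linearCombination_apply, Finsupp.sum]

theorem mk_constBO (h : OnePt k B deg) (hE : IntBasis O deg E) (c : O) :
    Ideal.Quotient.mk (mB h hE) (constBO h hE c) =
      algebraMap (IsLocalRing.ResidueField O) (Bbar h hE) (IsLocalRing.residue O c) := rfl

open MvPolynomial in
theorem surj_bar (h : OnePt k B deg) (hE : IntBasis O deg E) (F : Finset B)
    (hEF : ∀ m, E m ∈ Submonoid.closure (F : Set B)) (hF : ∀ x ∈ F, x ∈ BO h hE) :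
    Function.Surjective (aeval (fun i : F =>
      (Ideal.Quotient.mk (mB h hE) ⟨(i : B), hF i i.2⟩ : Bbar h hE)) :
        MvPolynomial F (IsLocalRing.ResidueField O) →ₐ[IsLocalRing.ResidueField O] Bbar h hE) := by
  rw [← AlgHom.range_eq_top, eq_top_iff]
  intro x _
  obtain ⟨b, rfl⟩ := Ideal.Quotient.mk_surjective x
  set A := (aeval (fun i : F =>
      (Ideal.Quotient.mk (mB h hE) ⟨(i : B), hF i i.2⟩ : Bbar h hE)) :
        MvPolynomial F (IsLocalRing.ResidueField O) →ₐ[IsLocalRing.ResidueField O]
          Bbar h hE).range with hA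
  have h2 : ∀ x ∈ Submonoid.closure (F : Set B), ∃ y : BO h hE, (y : B) = x ∧
      Ideal.Quotient.mk (mB h hE) y ∈ A := by
    intro x hx
    induction hx using Submonoid.closure_induction with
    | mem x hx => exact ⟨⟨x, hF x hx⟩, rfl, X ⟨x, hx⟩, by simp⟩
    | one => exact ⟨1, rfl, by rw [map_one]; exact A.one_mem⟩
    | mul x y _ _ hx hy =>
      obtain ⟨a, rfl, ha⟩ := hx
      obtain ⟨c, rfl, hc⟩ := hy
      exact ⟨a * c, rfl, by rw [map_mul]; exact A.mul_mem ha hc⟩
  have hEm : ∀ m, E m ∈ BO h hE := by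
    intro m
    obtain ⟨y, hy, -⟩ := h2 _ (hEF m)
    rw [← hy]
    exact y.2
  have hEm2 : ∀ m, Ideal.Quotient.mk (mB h hE) ⟨E m, hEm m⟩ ∈ A := by
    intro m
    obtain ⟨y, hy, hy2⟩ := h2 _ (hEF m)
    have : y = ⟨E m, hEm m⟩ := Subtype.ext hy
    rwa [← this]
  rw [BO_eq_sum h hE b hEm, map_sum]
  refine A.sum_mem fun m _ => ?_
  rw [map_mul, mk_constBO]
  exact A.mul_mem (A.algebraMap_mem _) (hEm2 m)

open MvPolynomial in
/-- The evaluation over `O` specialises to the evaluation over the residue field. -/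
theorem mk_eval₂ (h : OnePt k B deg) (hE : IntBasis O deg E) {ι : Type*} (g : ι → BO h hE)
    (p : MvPolynomial ι O) :
    Ideal.Quotient.mk (mB h hE) (eval₂ (constBO h hE) g p) =
      aeval (fun i => (Ideal.Quotient.mk (mB h hE) (g i) : Bbar h hE))
        (map (IsLocalRing.residue O) p) := by
  rw [eval₂_comp_left, aeval_def, eval₂_map]
  rfl

open MvPolynomial in
theorem coe_eval₂ (h : OnePt k B deg) (hE : IntBasis O deg E) {ι : Type*} (g : ι → BO h hE)
    (p : MvPolynomial ι O) :
    ((eval₂ (constBO h hE) g p : BO h hE) : B) =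
      aeval (fun i => (g i : B)) (map O.subtype p) := by
  have h1 := eval₂_comp_left (BO h hE).subtype (constBO h hE) g p
  rw [aeval_def, eval₂_map]
  exact h1

/-- **R3b.**  The reduction is a Dedekind domain if the valuation is trivial on a certain finite
set of constants. -/
theorem exists_normal [IsAlgClosed k] [IsDedekindDomain B] (h : OnePt k B deg)
    (E : Basis (degSet deg) k B) (F : Finset B)
    (hEF : ∀ m, E m ∈ Submonoid.closure (F : Set B)) :
    ∃ S : Finset k, (∀ s ∈ S, s ≠ 0) ∧ ∀ O : ValuationSubring k,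
      (∀ s ∈ S, O.valuation s = 1) → ∀ hE : IntBasis O deg E,
        IsDedekindDomain (Bbar h hE) := by
  classical
  obtain ⟨n, f, b, lam, mu, hf, hb, hcert⟩ := exists_certificate (κ := k) h.not_isField
    (fun i : F => (i : B)) (surj_of_gen F hEF)
  let co : B → Finset k := fun y => (E.repr y).support.image (E.repr y)
  have hco : ∀ y : B, ∀ s ∈ co y, s ≠ 0 := by
    intro y s hs
    obtain ⟨i, hi, rfl⟩ := Finset.mem_image.1 hs
    exact Finsupp.mem_support_iff.1 hi
  let cf : MvPolynomial F k → Finset k := fun p => p.support.image fun m => MvPolynomial.coeff m p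
  have hcf : ∀ p : MvPolynomial F k, ∀ s ∈ cf p, s ≠ 0 := by
    intro p s hs
    obtain ⟨i, hi, rfl⟩ := Finset.mem_image.1 hs
    exact MvPolynomial.mem_support_iff.1 hi
  let S : Finset k := (F.biUnion co) ∪ (Finset.univ.biUnion fun j => cf (f j)) ∪
    (Finset.univ.biUnion fun i => co (b i)) ∪
    (Finset.univ.biUnion fun i => Finset.univ.biUnion fun i' => co (lam i i')) ∪
    (Finset.univ.biUnion fun i => Finset.univ.biUnion fun i' => Finset.univ.biUnion fun j =>
      co (mu i i' j))
  have hSF : ∀ x ∈ F, co x ⊆ S := by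
    intro x hx s hs
    simp only [S, Finset.mem_union, Finset.mem_biUnion]
    exact Or.inl (Or.inl (Or.inl (Or.inl ⟨x, hx, hs⟩)))
  have hSf : ∀ j, cf (f j) ⊆ S := by
    intro j s hs
    simp only [S, Finset.mem_union, Finset.mem_biUnion]
    exact Or.inl (Or.inl (Or.inl (Or.inr ⟨j, Finset.mem_univ _, hs⟩)))
  have hSb : ∀ i, co (b i) ⊆ S := by
    intro i s hs
    simp only [S, Finset.mem_union, Finset.mem_biUnion]
    exact Or.inl (Or.inl (Or.inr ⟨i, Finset.mem_univ _, hs⟩))
  have hSlam : ∀ i i', co (lam i i') ⊆ S := by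
    intro i i' s hs
    simp only [S, Finset.mem_union, Finset.mem_biUnion]
    exact Or.inl (Or.inr ⟨i, Finset.mem_univ _, i', Finset.mem_univ _, hs⟩)
  have hSmu : ∀ i i' j, co (mu i i' j) ⊆ S := by
    intro i i' j s hs
    simp only [S, Finset.mem_union, Finset.mem_biUnion]
    exact Or.inr ⟨i, Finset.mem_univ _, i', Finset.mem_univ _, j, Finset.mem_univ _, hs⟩
  refine ⟨S, ?_, ?_⟩
  · intro s hs
    simp only [S, Finset.mem_union, Finset.mem_biUnion] at hs
    rcases hs with (((⟨x, _, hs⟩ | ⟨j, _, hs⟩) | ⟨i, _, hs⟩) | ⟨i, _, i', _, hs⟩) |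
      ⟨i, _, i', _, j, _, hs⟩
    · exact hco _ _ hs
    · exact hcf _ _ hs
    · exact hco _ _ hs
    · exact hco _ _ hs
    · exact hco _ _ hs
  intro O hO hE
  have hOS : ∀ s ∈ S, s ∈ O := fun s hs => (O.valuation_le_one_iff s).1 (hO s hs).le
  have hBO : ∀ y : B, co y ⊆ S → y ∈ BO h hE := by
    intro y hy i
    by_cases hi : E.repr y i = 0
    · rw [hi]; exact O.zero_mem
    · exact hOS _ (hy (Finset.mem_image.2 ⟨i, Finsupp.mem_support_iff.2 hi, rfl⟩))
  have hfO : ∀ j, ∃ p : MvPolynomial F O, MvPolynomial.map O.subtype p = f j := by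
    intro j
    refine MvPolynomial.mem_range_map_iff_coeffs_subset.2 ?_
    intro s hs
    have hs2 : s ∈ cf (f j) := by
      obtain ⟨m, hm, rfl⟩ := MvPolynomial.mem_coeffs_iff.1 hs
      exact Finset.mem_image.2 ⟨m, hm, rfl⟩
    exact ⟨⟨s, hOS s (hSf j hs2)⟩, rfl⟩
  choose f' hf' using hfO
  let g' : F → BO h hE := fun i => ⟨i, hBO _ (hSF i i.2)⟩
  let b' : F → BO h hE := fun i => ⟨b i, hBO _ (hSb i)⟩
  let lam' : F → F → BO h hE := fun i i' => ⟨lam i i', hBO _ (hSlam i i')⟩
  let mu' : F → F → Fin n → BO h hE := fun i i' j => ⟨mu i i' j, hBO _ (hSmu i i' j)⟩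
  have hdom : IsDomain (Bbar h hE) := (exists_degbar h hE).1
  have halg : IsAlgClosed (IsLocalRing.ResidueField O) := isAlgClosed_residueField O
  have hsurj := surj_bar h hE F hEF (fun x hx => hBO x (hSF x hx))
  have hft : Algebra.FiniteType (IsLocalRing.ResidueField O) (Bbar h hE) :=
    Algebra.FiniteType.of_surjective _ hsurj
  have hnoeth : IsNoetherianRing (Bbar h hE) :=
    Algebra.FiniteType.isNoetherianRing (IsLocalRing.ResidueField O) (Bbar h hE)
  refine isDedekindDomain_of_principal (Bbar h hE) fun M hM => ?_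
  refine principal_of_certificate (κ := IsLocalRing.ResidueField O)
    (fun i : F => (Ideal.Quotient.mk (mB h hE) (g' i) : Bbar h hE)) hsurj
    (fun j => MvPolynomial.map (IsLocalRing.residue O) (f' j)) ?_
    (fun i => Ideal.Quotient.mk (mB h hE) (b' i)) ?_
    (fun i i' => Ideal.Quotient.mk (mB h hE) (lam' i i'))
    (fun i i' j => Ideal.Quotient.mk (mB h hE) (mu' i i' j)) ?_ M
  · intro j
    rw [← mk_eval₂]
    have h1 : MvPolynomial.eval₂ (constBO h hE) g' (f' j) = 0 := by
      apply Subtype.ext
      rw [coe_eval₂, hf']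
      exact hf j
    rw [h1, map_zero]
  · rw [← map_sum]
    have h1 : ∑ i, b' i = 1 := by
      apply Subtype.ext
      rw [AddSubmonoidClass.coe_finset_sum]
      exact hb
    rw [h1, map_one]
  · intro i0 i l
    have h1 : (if l = i then b' i0 else 0) = (if l = i0 then lam' i0 i else 0) +
        ∑ j, mu' i0 i j * MvPolynomial.eval₂ (constBO h hE) g' (MvPolynomial.pderiv l (f' j)) := by
      apply Subtype.ext
      have h2 := hcert i0 i l
      rw [Subring.coe_add, AddSubmonoidClass.coe_finset_sum]
      have h3 : ∀ (P : Prop) [Decidable P] (x : BO h hE),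
          (((if P then x else 0 : BO h hE)) : B) = if P then (x : B) else 0 := by
        intro P _ x
        split_ifs <;> rfl
      rw [h3, h3]
      convert h2 using 4 with j
      rw [Subring.coe_mul, coe_eval₂, ← MvPolynomial.pderiv_map, hf']
    have h4 := congrArg (Ideal.Quotient.mk (mB h hE)) h1
    have h5 : ∀ (P : Prop) [Decidable P] (x : BO h hE),
        Ideal.Quotient.mk (mB h hE) (if P then x else 0) =
          if P then Ideal.Quotient.mk (mB h hE) x else 0 := by
      intro P _ x
      split_ifs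
      · rfl
      · exact map_zero _
    rw [map_add, map_sum, h5, h5] at h4
    convert h4 using 4 with j
    rw [map_mul, mk_eval₂, MvPolynomial.pderiv_map]

end Transfer

end Pool.Agent.SC
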