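import Mathlib
import Pool.Agent.SC.R3a
import Pool.Agent.SC.R3b

/-!
# Block R3: the integral model
-/

universe u v

namespace Pool.Agent.SC

open Module

/-- R3 with the shape of the basis. -/
theorem exists_model_strong {k : Type u} {B : Type v} [Field k] [IsAlgClosed k] [CommRing B]
    [IsDomain B] [IsDedekindDomain B] [Algebra k B] {deg : B → ℕ} (h : OnePt k B deg) :
    ∃ (E : Basis (degSet deg) k B) (x : degSet deg) (F : Finset (degSet deg)) (S : Finset k),
      0 < (x : ℕ) ∧ x ∈ F ∧ (∀ s ∈ S, s ≠ 0) ∧ (∀ m, deg (E m) = m) ∧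
      (∀ m : degSet deg, (m : ℕ) = 0 → E m = 1) ∧
      (∀ m, ∃ i ∈ F, ∃ j : ℕ, E m = E i * E x ^ j ∧ (m : ℕ) = i + x * j) ∧
      (∀ m m' : degSet deg, (m' : ℕ) = m + x → E m' = E m * E x) ∧
      ∀ O : ValuationSubring k, (∀ s ∈ S, O.valuation s = 1) →
        ∃ hE : IntBasis O deg E, IsDedekindDomain (Bbar h hE) := by
  classical
  obtain ⟨E, x, F, S, hx, hxF, hS, hdeg, hone, hEF, hEx, hO⟩ := exists_basis h
  have hgen : ∀ m, E m ∈ Submonoid.closure ((F.image E : Finset B) : Set B) := by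
    intro m
    obtain ⟨i, hi, j, hj, -⟩ := hEF m
    rw [hj]
    refine Submonoid.mul_mem _ (Submonoid.subset_closure ?_)
      (Submonoid.pow_mem _ (Submonoid.subset_closure ?_) _)
    · exact Finset.mem_coe.2 (Finset.mem_image_of_mem _ hi)
    · exact Finset.mem_coe.2 (Finset.mem_image_of_mem _ hxF)
  obtain ⟨S', hS', hO'⟩ := exists_normal h E (F.image E) hgen
  refine ⟨E, x, F, S ∪ S', hx, hxF, ?_, hdeg, hone, hEF, hEx, ?_⟩
  · intro s hs
    rcases Finset.mem_union.1 hs with hs | hs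
    · exact hS s hs
    · exact hS' s hs
  · intro O hSO
    have hE := hO O fun s hs => hSO s (Finset.mem_union_left _ hs)
    exact ⟨hE, hO' O (fun s hs => hSO s (Finset.mem_union_right _ hs)) hE⟩

/-- R3.  The integral model with good reduction almost everywhere. -/
theorem exists_model {k : Type u} {B : Type v} [Field k] [IsAlgClosed k] [CommRing B] [IsDomain B]
    [IsDedekindDomain B] [Algebra k B] {deg : B → ℕ} (h : OnePt k B deg) :
    ∃ (E : Basis (degSet deg) k B) (F : Finset B) (S : Finset k), (∀ s ∈ S, s ≠ 0) ∧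
      (∀ m, E m ∈ Submonoid.closure (F : Set B)) ∧
      ∀ O : ValuationSubring k, (∀ s ∈ S, O.valuation s = 1) →
        ∃ hE : IntBasis O deg E, IsDedekindDomain (Bbar h hE) := by
  classical
  obtain ⟨E, x, F, S, hx, hxF, hS, hdeg, hone, hEF, hEx, hO⟩ := exists_model_strong h
  refine ⟨E, F.image E, S, hS, ?_, hO⟩
  intro m
  obtain ⟨i, hi, j, hj, -⟩ := hEF m
  rw [hj]
  refine Submonoid.mul_mem _ (Submonoid.subset_closure ?_)
    (Submonoid.pow_mem _ (Submonoid.subset_closure ?_) _)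
  · exact Finset.mem_coe.2 (Finset.mem_image_of_mem _ hi)
  · exact Finset.mem_coe.2 (Finset.mem_image_of_mem _ hxF)

end Pool.Agent.SC
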