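import Mathlib
import Pool.Agent.SC.R3
import Pool.Agent.SC.DefsT

/-!
# Block TA: the integral model and its base changes
-/

universe u v

namespace Pool.Agent.SC

open Module TensorProduct

section Gen

variable {k : Type u} {B : Type v} [Field k] [CommRing B] [Algebra k B]

open MvPolynomial in
theorem surj_of_gen' {D ι : Type*} (E : Basis D k B) (g : ι → B)
    (hgen : ∀ m, E m ∈ Submonoid.closure (Set.range g)) :
    Function.Surjective (aeval g : MvPolynomial ι k →ₐ[k] B) := by
  rw [← AlgHom.range_eq_top, eq_top_iff]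
  intro b _
  have h1 : (⊤ : Submodule k B) ≤ Subalgebra.toSubmodule
      (aeval g : MvPolynomial ι k →ₐ[k] B).range := by
    rw [← E.span_eq, Submodule.span_le]
    rintro _ ⟨m, rfl⟩
    have h2 : Submonoid.closure (Set.range g) ≤
        (aeval g : MvPolynomial ι k →ₐ[k] B).range.toSubmonoid := by
      rw [Submonoid.closure_le]
      rintro _ ⟨i, rfl⟩
      exact ⟨X i, by simp⟩
    exact h2 (hgen m)
  exact h1 trivial

variable [IsDomain B] {O : ValuationSubring k} {deg : B → ℕ} {E : Basis (degSet deg) k B}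

open MvPolynomial in
theorem surj_bar' (h : OnePt k B deg) (hE : IntBasis O deg E) {ι : Type*} (g : ι → BO h hE)
    (hgen : ∀ m, E m ∈ Submonoid.closure (Set.range fun i => (g i : B))) :
    Function.Surjective (aeval (fun i => (Ideal.Quotient.mk (mB h hE) (g i) : Bbar h hE)) :
        MvPolynomial ι (IsLocalRing.ResidueField O) →ₐ[IsLocalRing.ResidueField O] Bbar h hE) := by
  rw [← AlgHom.range_eq_top, eq_top_iff]
  intro x _
  obtain ⟨b, rfl⟩ := Ideal.Quotient.mk_surjective x
  set A := (aeval (fun i => (Ideal.Quotient.mk (mB h hE) (g i) : Bbar h hE)) :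
        MvPolynomial ι (IsLocalRing.ResidueField O) →ₐ[IsLocalRing.ResidueField O]
          Bbar h hE).range with hA
  have h2 : ∀ x ∈ Submonoid.closure (Set.range fun i => (g i : B)), ∃ y : BO h hE, (y : B) = x ∧
      Ideal.Quotient.mk (mB h hE) y ∈ A := by
    intro x hx
    induction hx using Submonoid.closure_induction with
    | mem x hx =>
      obtain ⟨i, rfl⟩ := hx
      exact ⟨g i, rfl, X i, by simp⟩
    | one => exact ⟨1, rfl, by rw [map_one]; exact A.one_mem⟩
    | mul x y _ _ hx hy =>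
      obtain ⟨a, rfl, ha⟩ := hx
      obtain ⟨c, rfl, hc⟩ := hy
      exact ⟨a * c, rfl, by rw [map_mul]; exact A.mul_mem ha hc⟩
  have hEm : ∀ m, E m ∈ BO h hE := by
    intro m
    obtain ⟨y, hy, -⟩ := h2 _ (hgen m)
    rw [← hy]
    exact y.2
  have hEm2 : ∀ m, Ideal.Quotient.mk (mB h hE) ⟨E m, hEm m⟩ ∈ A := by
    intro m
    obtain ⟨y, hy, hy2⟩ := h2 _ (hgen m)
    have : y = ⟨E m, hEm m⟩ := Subtype.ext hy
    rwa [← this]
  rw [BO_eq_sum h hE b hEm, map_sum]
  refine A.sum_mem fun m _ => ?_
  rw [map_mul, mk_constBO]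
  exact A.mul_mem (A.algebraMap_mem _) (hEm2 m)

open MvPolynomial in
/-- A Jacobian certificate with integral coefficients gives a certificate of the reduction. -/
theorem normal_of_certificate [IsAlgClosed k] (h : OnePt k B deg) (hE : IntBasis O deg E)
    {ι : Type*} [Fintype ι] [DecidableEq ι] (g : ι → B)
    (hgen : ∀ m, E m ∈ Submonoid.closure (Set.range g)) {n : ℕ}
    (f : Fin n → MvPolynomial ι k) (b : ι → B) (lam : ι → ι → B) (mu : ι → ι → Fin n → B)
    (hf : ∀ j, aeval g (f j) = 0) (hb : ∑ i, b i = 1)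
    (hcert : ∀ i0 i l, (if l = i then b i0 else 0) =
      (if l = i0 then lam i0 i else 0) + ∑ j, mu i0 i j * aeval g (pderiv l (f j)))
    (hgO : ∀ i, g i ∈ BO h hE) (hfO : ∀ j m, coeff m (f j) ∈ O)
    (hbO : ∀ i, b i ∈ BO h hE) (hlamO : ∀ i i', lam i i' ∈ BO h hE)
    (hmuO : ∀ i i' j, mu i i' j ∈ BO h hE) : IsDedekindDomain (Bbar h hE) := by
  have hfO' : ∀ j, ∃ p : MvPolynomial ι O, MvPolynomial.map O.subtype p = f j := by
    intro j
    refine MvPolynomial.mem_range_map_iff_coeffs_subset.2 ?_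
    intro s hs
    obtain ⟨m, hm, rfl⟩ := MvPolynomial.mem_coeffs_iff.1 hs
    exact ⟨⟨_, hfO j m⟩, rfl⟩
  choose f' hf' using hfO'
  let g' : ι → BO h hE := fun i => ⟨g i, hgO i⟩
  let b' : ι → BO h hE := fun i => ⟨b i, hbO i⟩
  let lam' : ι → ι → BO h hE := fun i i' => ⟨lam i i', hlamO i i'⟩
  let mu' : ι → ι → Fin n → BO h hE := fun i i' j => ⟨mu i i' j, hmuO i i' j⟩
  have hdom : IsDomain (Bbar h hE) := (exists_degbar h hE).1
  have halg : IsAlgClosed (IsLocalRing.ResidueField O) := isAlgClosed_residueField O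
  have hsurj := surj_bar' h hE g' hgen
  have hft : Algebra.FiniteType (IsLocalRing.ResidueField O) (Bbar h hE) :=
    Algebra.FiniteType.of_surjective _ hsurj
  have hnoeth : IsNoetherianRing (Bbar h hE) :=
    Algebra.FiniteType.isNoetherianRing (IsLocalRing.ResidueField O) (Bbar h hE)
  refine isDedekindDomain_of_principal (Bbar h hE) fun M hM => ?_
  refine principal_of_certificate (κ := IsLocalRing.ResidueField O)
    (fun i => (Ideal.Quotient.mk (mB h hE) (g' i) : Bbar h hE)) hsurj
    (fun j => MvPolynomial.map (IsLocalRing.residue O) (f' j)) ?_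
    (fun i => Ideal.Quotient.mk (mB h hE) (b' i)) ?_
    (fun i i' => Ideal.Quotient.mk (mB h hE) (lam' i i'))
    (fun i i' j => Ideal.Quotient.mk (mB h hE) (mu' i i' j)) ?_ M
  · intro j
    rw [← mk_eval₂]
    have h1 : MvPolynomial.eval₂ (constBO h hE) g' (f' j) = 0 := by
      apply Subtype.ext
      rw [coe_eval₂, hf']
      exact hf j
    rw [h1, map_zero]
  · rw [← map_sum]
    have h1 : ∑ i, b' i = 1 := by
      apply Subtype.ext
      rw [AddSubmonoidClass.coe_finset_sum]
      exact hb
    rw [h1, map_one]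
  · intro i0 i l
    have h1 : (if l = i then b' i0 else 0) = (if l = i0 then lam' i0 i else 0) +
        ∑ j, mu' i0 i j * MvPolynomial.eval₂ (constBO h hE) g' (MvPolynomial.pderiv l (f' j)) := by
      apply Subtype.ext
      have h2 := hcert i0 i l
      rw [Subring.coe_add, AddSubmonoidClass.coe_finset_sum]
      have h3 : ∀ (P : Prop) [Decidable P] (x : BO h hE),
          (((if P then x else 0 : BO h hE)) : B) = if P then (x : B) else 0 := by
        intro P _ x
        split_ifs <;> rfl
      rw [h3, h3]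
      convert h2 using 4 with j
      rw [Subring.coe_mul, coe_eval₂, ← MvPolynomial.pderiv_map, hf']
    have h4 := congrArg (Ideal.Quotient.mk (mB h hE)) h1
    have h5 : ∀ (P : Prop) [Decidable P] (x : BO h hE),
        Ideal.Quotient.mk (mB h hE) (if P then x else 0) =
          if P then Ideal.Quotient.mk (mB h hE) x else 0 := by
      intro P _ x
      split_ifs
      · rfl
      · exact map_zero _
    rw [map_add, map_sum, h5, h5] at h4
    convert h4 using 4 with j
    rw [map_mul, mk_eval₂, MvPolynomial.pderiv_map]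

end Gen

/-- TA.  The model and its base changes. -/
theorem exists_model_ext {k B : Type u} [Field k] [IsAlgClosed k] [CommRing B]
    [IsDomain B] [IsDedekindDomain B] [Algebra k B] {deg : B → ℕ} (h : OnePt k B deg) :
    ∃ (E : Basis (degSet deg) k B) (F : Finset B) (S : Finset k), (∀ s ∈ S, s ≠ 0) ∧
      (∀ m, E m ∈ Submonoid.closure (F : Set B)) ∧
      (∀ O : ValuationSubring k, (∀ s ∈ S, O.valuation s = 1) →
        ∃ hE : IntBasis O deg E, IsDedekindDomain (Bbar h hE)) ∧
      ∀ (Ω : Type u) [Field Ω] [IsAlgClosed Ω] [Algebra k Ω],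
        ∃ (_ : IsDomain (Ω ⊗[k] B)) (_ : IsDedekindDomain (Ω ⊗[k] B)) (degC : Ω ⊗[k] B → ℕ)
          (EC : Basis (degSet degC) Ω (Ω ⊗[k] B)) (hC : OnePt Ω (Ω ⊗[k] B) degC),
          BaseChange E (Algebra.TensorProduct.includeRight (R := k) (A := Ω) (B := B)).toRingHom
            EC ∧
          ∀ V : ValuationSubring Ω, (∀ s ∈ S, V.valuation (algebraMap k Ω s) = 1) →
            ∃ hEC : IntBasis V degC EC, IsDedekindDomain (Bbar hC hEC) := by
  classical
  obtain ⟨E, x, F0, S0, hx, hxF, hS0, hdeg, hone, hEF, -, hO⟩ := exists_basis h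
  let F : Finset B := F0.image E
  have hgen : ∀ m, E m ∈ Submonoid.closure (F : Set B) := by
    intro m
    obtain ⟨i, hi, j, hj, -⟩ := hEF m
    rw [hj]
    refine Submonoid.mul_mem _ (Submonoid.subset_closure ?_)
      (Submonoid.pow_mem _ (Submonoid.subset_closure ?_) _)
    · exact Finset.mem_coe.2 (Finset.mem_image_of_mem _ hi)
    · exact Finset.mem_coe.2 (Finset.mem_image_of_mem _ hxF)
  let g : F → B := fun i => i
  have hg : Set.range g = (F : Set B) := Subtype.range_coe
  have hgen' : ∀ m, E m ∈ Submonoid.closure (Set.range g) := by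
    rw [hg]
    exact hgen
  obtain ⟨n, f, b, lam, mu, hf, hb, hcert⟩ := exists_certificate (κ := k) h.not_isField g
    (surj_of_gen' E g hgen')
  let Y : Finset B := F ∪ Finset.univ.image b ∪
    Finset.univ.image (fun p : F × F => lam p.1 p.2) ∪
    Finset.univ.image (fun p : F × F × Fin n => mu p.1 p.2.1 p.2.2)
  have hYg : ∀ i, g i ∈ Y := fun i => by
    simp only [Y, Finset.mem_union]
    exact Or.inl (Or.inl (Or.inl i.2))
  have hYb : ∀ i, b i ∈ Y := fun i => by
    simp only [Y, Finset.mem_union]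
    exact Or.inl (Or.inl (Or.inr (Finset.mem_image_of_mem _ (Finset.mem_univ _))))
  have hYlam : ∀ i i', lam i i' ∈ Y := fun i i' => by
    simp only [Y, Finset.mem_union]
    exact Or.inl (Or.inr (Finset.mem_image.2 ⟨(i, i'), Finset.mem_univ _, rfl⟩))
  have hYmu : ∀ i i' j, mu i i' j ∈ Y := fun i i' j => by
    simp only [Y, Finset.mem_union]
    exact Or.inr (Finset.mem_image.2 ⟨(i, i', j), Finset.mem_univ _, rfl⟩)
  let S1 : Finset k := Y.biUnion fun y => (E.repr y).support.image (E.repr y)
  let S2 : Finset k := Finset.univ.biUnion fun j => (f j).support.image fun m =>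
    MvPolynomial.coeff m (f j)
  let S : Finset k := S0 ∪ S1 ∪ S2
  have hS : ∀ s ∈ S, s ≠ 0 := by
    intro s hs
    simp only [S, Finset.mem_union] at hs
    rcases hs with (hs | hs) | hs
    · exact hS0 s hs
    · simp only [S1, Finset.mem_biUnion, Finset.mem_image] at hs
      obtain ⟨y, -, i, hi, rfl⟩ := hs
      exact Finsupp.mem_support_iff.1 hi
    · simp only [S2, Finset.mem_biUnion, Finset.mem_image] at hs
      obtain ⟨j, -, m, hm, rfl⟩ := hs
      exact MvPolynomial.mem_support_iff.1 hm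
  -- the consequences of the unit conditions
  have key : ∀ O : ValuationSubring k, (∀ s ∈ S, O.valuation s = 1) →
      IntBasis O deg E ∧ (∀ y ∈ Y, ∀ i, E.repr y i ∈ O) ∧
        ∀ j m, MvPolynomial.coeff m (f j) ∈ O := by
    intro O hSO
    have hOS : ∀ s ∈ S, s ∈ O := fun s hs => (O.valuation_le_one_iff s).1 (hSO s hs).le
    refine ⟨hO O fun s hs => hSO s ?_, ?_, ?_⟩
    · simp only [S, Finset.mem_union]
      exact Or.inl (Or.inl hs)
    · intro y hy i
      by_cases hi : E.repr y i = 0
      · rw [hi]; exact O.zero_mem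
      · refine hOS _ ?_
        simp only [S, Finset.mem_union]
        refine Or.inl (Or.inr (Finset.mem_biUnion.2 ⟨y, hy, ?_⟩))
        exact Finset.mem_image.2 ⟨i, Finsupp.mem_support_iff.2 hi, rfl⟩
    · intro j m
      by_cases hm : MvPolynomial.coeff m (f j) = 0
      · rw [hm]; exact O.zero_mem
      · refine hOS _ ?_
        simp only [S, Finset.mem_union]
        refine Or.inr (Finset.mem_biUnion.2 ⟨j, Finset.mem_univ _, ?_⟩)
        exact Finset.mem_image.2 ⟨m, MvPolynomial.mem_support_iff.2 hm, rfl⟩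
  refine ⟨E, F, S, hS, hgen, ?_, ?_⟩
  · intro O hSO
    obtain ⟨hE, hY, hfc⟩ := key O hSO
    exact ⟨hE, normal_of_certificate h hE g hgen' f b lam mu hf hb hcert
      (fun i => hY _ (hYg i)) hfc (fun i => hY _ (hYb i)) (fun i i' => hY _ (hYlam i i'))
      (fun i i' j => hY _ (hYmu i i' j))⟩
  -- the base change
  intro Ω _ _ _
  let Eb : Basis (degSet deg) Ω (Ω ⊗[k] B) := Algebra.TensorProduct.basis Ω E
  let ρ : B →ₐ[k] Ω ⊗[k] B := Algebra.TensorProduct.includeRight
  have hEb : ∀ m, Eb m = ρ (E m) := fun m => Algebra.TensorProduct.basis_apply E m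
  have hrep : ∀ (y : B) (i : degSet deg), Eb.repr (ρ y) i = algebraMap k Ω (E.repr y i) := by
    intro y i
    have h1 : Eb.repr ((1 : Ω) ⊗ₜ[k] y) = (1 : Ω) • Finsupp.mapRange (algebraMap k Ω)
        (map_zero _) (E.repr y) := Algebra.TensorProduct.basis_repr_tmul E (1 : Ω) y
    change Eb.repr ((1 : Ω) ⊗ₜ[k] y) i = _
    rw [h1, one_smul, Finsupp.mapRange_apply]
  have hstr : ∀ m m' i : degSet deg, Eb.repr (Eb m * Eb m') i =
      algebraMap k Ω (E.repr (E m * E m') i) := by
    intro m m' i
    rw [hEb, hEb, ← map_mul, hrep]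
  have hup : ∀ m m' i : degSet deg, (m : ℕ) + m' < i → Eb.repr (Eb m * Eb m') i = 0 := by
    intro m m' i hi
    rw [hstr, repr_mul_eq_zero h hdeg hi, map_zero]
  have hlead : ∀ m m' : degSet deg, ∃ i : degSet deg, (i : ℕ) = m + m' :=
    Ebar_exists_add_eq h hdeg
  have hleadne : ∀ m m' i : degSet deg, (i : ℕ) = m + m' → Eb.repr (Eb m * Eb m') i ≠ 0 := by
    intro m m' i hi
    rw [hstr, Ne, map_eq_zero]
    exact repr_mul_lead_ne_zero h hdeg m m' i hi
  have h0 : (0 : ℕ) ∈ degSet deg := zero_mem_degSet h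
  have honeb : ∀ m : degSet deg, (m : ℕ) = 0 → Eb m = 1 := by
    intro m hm
    rw [hEb, hone m hm, map_one]
  obtain ⟨hC, hset⟩ := onePt_of_basis Eb h0 honeb h.large hup hlead hleadne
  have hdom : IsDomain (Ω ⊗[k] B) := isDomain_of_basis Eb ⟨0, h0⟩ hup hlead hleadne
  let e : degSet deg ≃ degSet (degOf Eb) := Equiv.setCongr hset.symm
  let EC : Basis (degSet (degOf Eb)) Ω (Ω ⊗[k] B) := Eb.reindex e
  have hEC : ∀ m, EC m = Eb (e.symm m) := fun m => Eb.reindex_apply e m
  have hECr : ∀ y m, EC.repr y m = Eb.repr y (e.symm m) := fun y m => by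
    simp [EC]
  have hev : ∀ m, ((e.symm m : degSet deg) : ℕ) = m := fun m => rfl
  -- the certificate
  let g2 : F → Ω ⊗[k] B := fun i => ρ (g i)
  have hg2 : ∀ p : MvPolynomial F k,
      MvPolynomial.aeval g2 (MvPolynomial.map (algebraMap k Ω) p) =
        ρ (MvPolynomial.aeval g p) := by
    intro p
    rw [MvPolynomial.aeval_map_algebraMap]
    have h1 := MvPolynomial.comp_aeval (f := g) ρ
    exact (DFunLike.congr_fun h1 p).symm
  have hgen2 : ∀ m, EC m ∈ Submonoid.closure (Set.range g2) := by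
    intro m
    rw [hEC, hEb]
    have h1 : Set.range g2 = (ρ : B →* Ω ⊗[k] B) '' Set.range g := by
      rw [← Set.range_comp]
      rfl
    rw [h1, ← MonoidHom.map_mclosure]
    exact Submonoid.mem_map_of_mem (ρ : B →* Ω ⊗[k] B) (hgen' _)
  have hf2 : ∀ j, MvPolynomial.aeval g2 (MvPolynomial.map (algebraMap k Ω) (f j)) = 0 := by
    intro j
    rw [hg2, hf, map_zero]
  have hb2 : ∑ i, ρ (b i) = 1 := by
    rw [← map_sum, hb, map_one]
  have hcert2 : ∀ i0 i l, (if l = i then ρ (b i0) else 0) =
      (if l = i0 then ρ (lam i0 i) else 0) + ∑ j, ρ (mu i0 i j) *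
        MvPolynomial.aeval g2 (MvPolynomial.pderiv l
          (MvPolynomial.map (algebraMap k Ω) (f j))) := by
    intro i0 i l
    have h1 := congrArg ρ (hcert i0 i l)
    rw [map_add, map_sum] at h1
    have h5 : ∀ (P : Prop) [Decidable P] (x : B), ρ (if P then x else 0) =
        if P then ρ x else 0 := by
      intro P _ x
      split_ifs
      · rfl
      · exact map_zero _
    rw [h5, h5] at h1
    rw [h1]
    congr 1
    refine Finset.sum_congr rfl fun j _ => ?_
    rw [map_mul, ← hg2, MvPolynomial.pderiv_map]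
  have hsurj2 := surj_of_gen' EC g2 hgen2
  have hft2 : Algebra.FiniteType Ω (Ω ⊗[k] B) := Algebra.FiniteType.of_surjective _ hsurj2
  have hnoeth2 : IsNoetherianRing (Ω ⊗[k] B) := Algebra.FiniteType.isNoetherianRing Ω (Ω ⊗[k] B)
  have hded : IsDedekindDomain (Ω ⊗[k] B) := by
    refine isDedekindDomain_of_principal (Ω ⊗[k] B) fun M hM => ?_
    exact principal_of_certificate (κ := Ω) g2 hsurj2
      (fun j => MvPolynomial.map (algebraMap k Ω) (f j)) hf2 (fun i => ρ (b i)) hb2
      (fun i i' => ρ (lam i i')) (fun i i' j => ρ (mu i i' j)) hcert2 M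
  refine ⟨hdom, hded, degOf Eb, EC, hC, ⟨hset, ?_, ?_⟩, ?_⟩
  · intro m m' hm
    rw [hEC, hEb]
    have : e.symm m' = m := Subtype.ext (by rw [hev]; exact hm)
    rw [this]
    rfl
  · intro c
    change ρ (algebraMap k B c) = _
    rw [AlgHom.commutes, IsScalarTower.algebraMap_apply k Ω (Ω ⊗[k] B)]
  · intro V hV
    have hSO : ∀ s ∈ S, (V.comap (algebraMap k Ω)).valuation s = 1 := by
      intro s hs
      have hs0 := hS s hs
      refine le_antisymm ?_ ?_
      · rw [ValuationSubring.valuation_le_one_iff, ValuationSubring.mem_comap,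
          ← ValuationSubring.valuation_le_one_iff, hV s hs]
      · have h1 : (V.comap (algebraMap k Ω)).valuation s⁻¹ ≤ 1 := by
          rw [ValuationSubring.valuation_le_one_iff, ValuationSubring.mem_comap, map_inv₀,
            ← ValuationSubring.valuation_le_one_iff, map_inv₀, hV s hs, inv_one]
        rw [map_inv₀] at h1
        have h2 : 0 < (V.comap (algebraMap k Ω)).valuation s := by
          rw [zero_lt_iff, Ne, map_eq_zero]
          exact hs0
        exact (inv_le_one₀ h2).1 h1
    obtain ⟨hE, hY, hfc⟩ := key _ hSO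
    have hint : IntBasis V (degOf Eb) EC := by
      refine ⟨?_, ?_, ?_, ?_⟩
      · intro m
        rw [hEC, degOf_basis, hev]
      · intro m hm
        rw [hEC]
        exact honeb _ (by rw [hev]; exact hm)
      · intro m m' i
        rw [hECr, hEC, hEC, hstr]
        exact ValuationSubring.mem_comap.1 (hE.int _ _ _)
      · intro m m' i hi
        rw [hECr, hEC, hEC, hstr, ← map_inv₀]
        refine ValuationSubring.mem_comap.1 (hE.lead _ _ _ ?_)
        rw [hev, hev, hev]
        exact hi
    have hBO : ∀ y ∈ Y, ρ y ∈ BO hC hint := by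
      intro y hy i
      rw [hECr, hrep]
      exact ValuationSubring.mem_comap.1 (hY y hy _)
    refine ⟨hint, normal_of_certificate hC hint g2 hgen2
      (fun j => MvPolynomial.map (algebraMap k Ω) (f j)) (fun i => ρ (b i))
      (fun i i' => ρ (lam i i')) (fun i i' j => ρ (mu i i' j)) hf2 hb2 hcert2
      (fun i => hBO _ (hYg i)) ?_ (fun i => hBO _ (hYb i)) (fun i i' => hBO _ (hYlam i i'))
      (fun i i' j => hBO _ (hYmu i i' j))⟩
    intro j m
    rw [MvPolynomial.coeff_map]
    exact ValuationSubring.mem_comap.1 (hfc j m)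

end Pool.Agent.SC
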