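import Mathlib
import Pool.Agent.SC.Defs

/-!
# One-point rings: colengths and degrees (block R1a)
-/

set_option linter.unusedSectionVars false

universe u v

namespace Pool.Agent.SC

open Module

section R1

variable {k : Type u} {B : Type v} [Field k] [CommRing B] [IsDomain B] [Algebra k B] {deg : B → ℕ}

theorem OnePt.deg_zero (h : OnePt k B deg) : deg 0 = 0 := by
  have := h.deg_const 0
  rwa [map_zero] at this

theorem OnePt.deg_one (h : OnePt k B deg) : deg 1 = 0 := by
  have := h.deg_const 1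
  rwa [map_one] at this

theorem OnePt.deg_smul (h : OnePt k B deg) {c : k} (hc : c ≠ 0) (b : B) :
    deg (c • b) = deg b := by
  rw [Algebra.smul_def]
  by_cases hb : b = 0
  · rw [hb, mul_zero]
  · have hc' : algebraMap k B c ≠ 0 := by
      rwa [Ne, FaithfulSMul.algebraMap_eq_zero_iff]
    rw [h.deg_mul _ _ hc' hb, h.deg_const, zero_add]

theorem OnePt.deg_smul_le (h : OnePt k B deg) (c : k) (b : B) : deg (c • b) ≤ deg b := by
  by_cases hc : c = 0
  · rw [hc, zero_smul, h.deg_zero]
    exact Nat.zero_le _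
  · exact (h.deg_smul hc b).le

theorem OnePt.deg_neg (h : OnePt k B deg) (b : B) : deg (-b) = deg b := by
  have h1 := h.deg_smul (neg_ne_zero.2 (one_ne_zero (α := k))) b
  rwa [neg_smul, one_smul] at h1

theorem OnePt.deg_sub (h : OnePt k B deg) (a b : B) : deg (a - b) ≤ max (deg a) (deg b) := by
  rw [sub_eq_add_neg, ← h.deg_neg b]
  exact h.deg_add _ _

theorem OnePt.deg_add_of_lt (h : OnePt k B deg) {a b : B} (hab : deg b < deg a) :
    deg (a + b) = deg a := by
  apply le_antisymm
  · have := h.deg_add a b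
    rwa [max_eq_left hab.le] at this
  · have h1 := h.deg_sub (a + b) b
    rw [add_sub_cancel_right] at h1
    rcases le_max_iff.1 h1 with h2 | h2
    · exact h2
    · omega

theorem OnePt.deg_sum_le (h : OnePt k B deg) {ι : Type*} (s : Finset ι) (f : ι → B) (n : ℕ)
    (hf : ∀ i ∈ s, deg (f i) ≤ n) : deg (∑ i ∈ s, f i) ≤ n := by
  classical
  induction s using Finset.induction_on with
  | empty => rw [Finset.sum_empty, h.deg_zero]; exact Nat.zero_le _
  | insert a s has ih =>
    rw [Finset.sum_insert has]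
    refine (h.deg_add _ _).trans (max_le (hf a (Finset.mem_insert_self a s)) (ih fun i hi => ?_))
    exact hf i (Finset.mem_insert_of_mem hi)

/-- A combination of elements of distinct degrees is nonzero and its degree is one of these
degrees. -/
theorem OnePt.sum_deg (h : OnePt k B deg) {ι : Type*} (s : Finset ι) (hs : s.Nonempty)
    (e : ι → B) (he : ∀ i ∈ s, e i ≠ 0) (hinj : Set.InjOn (fun i => deg (e i)) s) (c : ι → k)
    (hc : ∀ i ∈ s, c i ≠ 0) :
    ∑ i ∈ s, c i • e i ≠ 0 ∧ ∃ i ∈ s, deg (∑ i ∈ s, c i • e i) = deg (e i) := by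
  classical
  obtain ⟨i₀, hi₀, hmax⟩ := s.exists_max_image (fun i => deg (e i)) hs
  have hsum : ∑ i ∈ s, c i • e i = c i₀ • e i₀ + ∑ i ∈ s.erase i₀, c i • e i :=
    (Finset.add_sum_erase s _ hi₀).symm
  have hne : c i₀ • e i₀ ≠ 0 := smul_ne_zero (hc _ hi₀) (he _ hi₀)
  have hdeg0 : deg (c i₀ • e i₀) = deg (e i₀) := h.deg_smul (hc _ hi₀) _
  rcases (s.erase i₀).eq_empty_or_nonempty with h0 | h0
  · rw [hsum, h0, Finset.sum_empty, add_zero]
    exact ⟨hne, i₀, hi₀, hdeg0⟩
  · have hlt : ∀ i ∈ s.erase i₀, deg (e i) < deg (e i₀) := by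
      intro i hi
      refine lt_of_le_of_ne (hmax i (Finset.mem_of_mem_erase hi)) fun heq => ?_
      exact Finset.ne_of_mem_erase hi
        (hinj (Finset.mem_coe.2 (Finset.mem_of_mem_erase hi)) (Finset.mem_coe.2 hi₀) heq)
    obtain ⟨j, hj⟩ := h0
    have hpos : 0 < deg (e i₀) := lt_of_le_of_lt (Nat.zero_le _) (hlt j hj)
    have hrest : deg (∑ i ∈ s.erase i₀, c i • e i) < deg (c i₀ • e i₀) := by
      rw [hdeg0]
      have := h.deg_sum_le (s.erase i₀) (fun i => c i • e i) (deg (e i₀) - 1) fun i hi => by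
        have h1 := h.deg_smul_le (c i) (e i)
        have h2 := hlt i hi
        omega
      omega
    have hdeg : deg (∑ i ∈ s, c i • e i) = deg (e i₀) := by
      rw [hsum, h.deg_add_of_lt hrest, hdeg0]
    refine ⟨fun h1 => ?_, i₀, hi₀, hdeg⟩
    rw [h1, h.deg_zero] at hdeg
    omega

/-- The degrees which are missing in `I`. -/
def missing (deg : B → ℕ) (I : Ideal B) : Set ℕ :=
  {n | n ∈ degSet deg ∧ ∀ b ∈ I, b ≠ 0 → deg b ≠ n}

theorem OnePt.span_induction (h : OnePt k B deg) (V : Submodule k B) (W : Submodule k B)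
    (hWV : W ≤ V) (hdeg : ∀ b ∈ V, b ≠ 0 → ∃ w ∈ W, w ≠ 0 ∧ deg w = deg b) : V ≤ W := by
  have key : ∀ n : ℕ, ∀ b ∈ V, deg b = n → b ∈ W := by
    intro n
    induction n using Nat.strong_induction_on with
    | _ n ih =>
      intro b hb hbn
      by_cases hb0 : b = 0
      · rw [hb0]; exact W.zero_mem
      obtain ⟨w, hw, hw0, hwb⟩ := hdeg b hb hb0
      obtain ⟨c, hc | hc⟩ := h.lead b w hb0 hw0 hwb.symm
      · rw [hc]; exact W.smul_mem _ hw
      · have h1 : b - c • w ∈ W :=
          ih _ (by omega) _ (V.sub_mem hb (V.smul_mem _ (hWV hw))) rfl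
        have h2 : b = (b - c • w) + c • w := by abel
        rw [h2]
        exact W.add_mem h1 (W.smul_mem _ hw)
  exact fun b hb => key _ b hb rfl

/-- The basis of `B / I`. -/
theorem OnePt.exists_basis_quot (h : OnePt k B deg) (I : Ideal B) :
    Nonempty (Basis (missing deg I) k (B ⧸ I)) := by
  classical
  have hch : ∀ n : missing deg I, ∃ b : B, b ≠ 0 ∧ deg b = n := fun n => n.2.1
  choose e he0 hed using hch
  have hli : LinearIndependent k (fun n : missing deg I => Ideal.Quotient.mk I (e n)) := by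
    rw [linearIndependent_iff']
    intro s g hg i hi
    by_contra hgi
    let t := s.filter fun j => g j ≠ 0
    have ht : t.Nonempty := ⟨i, Finset.mem_filter.2 ⟨hi, hgi⟩⟩
    have hsum : ∑ j ∈ s, g j • e j = ∑ j ∈ t, g j • e j := by
      rw [Finset.sum_filter]
      refine Finset.sum_congr rfl fun j _ => ?_
      split_ifs with h1
      · rfl
      · rw [not_not.1 h1, zero_smul]
    obtain ⟨h1, j, -, h2⟩ := h.sum_deg t ht e (fun j _ => he0 j)
      (fun a _ b _ hab => Subtype.ext (by simpa only [hed] using hab)) g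
      (fun j hj => (Finset.mem_filter.1 hj).2)
    have hmem : ∑ j ∈ t, g j • e j ∈ I := by
      rw [← hsum, ← Ideal.Quotient.eq_zero_iff_mem, map_sum, ← hg]
      refine Finset.sum_congr rfl fun j _ => ?_
      rw [Algebra.smul_def, Algebra.smul_def, map_mul]
      rfl
    exact j.2.2 _ hmem h1 (by rw [h2, hed])
  refine ⟨Basis.mk hli ?_⟩
  rintro x -
  obtain ⟨b, rfl⟩ := Ideal.Quotient.mk_surjective x
  let W : Submodule k B := I.restrictScalars k ⊔ Submodule.span k (Set.range e)
  have hW : (⊤ : Submodule k B) ≤ W := by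
    refine h.span_induction ⊤ W le_top fun b _ hb0 => ?_
    by_cases hm : deg b ∈ missing deg I
    · exact ⟨e ⟨deg b, hm⟩, Submodule.mem_sup_right (Submodule.subset_span ⟨_, rfl⟩), he0 _,
        hed _⟩
    · have h1 : ¬ ∀ b' ∈ I, b' ≠ 0 → deg b' ≠ deg b := fun h2 => hm ⟨⟨b, hb0, rfl⟩, h2⟩
      push Not at h1
      obtain ⟨w, hw, hw0, hwb⟩ := h1
      exact ⟨w, Submodule.mem_sup_left hw, hw0, hwb⟩
  have hb : b ∈ W := hW trivial
  obtain ⟨y, hy, z, hz, rfl⟩ := Submodule.mem_sup.1 hb
  have hy' : Ideal.Quotient.mk I y = 0 := Ideal.Quotient.eq_zero_iff_mem.2 hy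
  rw [map_add, hy', zero_add]
  have h3 : (Ideal.Quotient.mkₐ k I).toLinearMap z ∈
      Submodule.map (Ideal.Quotient.mkₐ k I).toLinearMap (Submodule.span k (Set.range e)) :=
    Submodule.mem_map_of_mem hz
  rw [Submodule.map_span, ← Set.range_comp] at h3
  exact h3

theorem OnePt.degSet_add (h : OnePt k B deg) {m n : ℕ} (hm : m ∈ degSet deg)
    (hn : n ∈ degSet deg) : m + n ∈ degSet deg := by
  obtain ⟨a, ha, rfl⟩ := hm
  obtain ⟨b, hb, rfl⟩ := hn
  exact ⟨a * b, mul_ne_zero ha hb, h.deg_mul a b ha hb⟩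

theorem OnePt.exists_large (h : OnePt k B deg) : ∃ N : ℕ, ∀ n, N ≤ n → n ∈ degSet deg := by
  obtain ⟨N, hN⟩ := h.large
  exact ⟨N, fun n hn => hN n hn⟩

theorem OnePt.compl_finite (h : OnePt k B deg) : ((degSet deg)ᶜ).Finite := by
  obtain ⟨N, hN⟩ := h.exists_large
  refine (Set.finite_lt_nat N).subset fun n hn => ?_
  by_contra h1
  exact hn (hN n (not_lt.1 h1))

theorem OnePt.missing_finite (h : OnePt k B deg) {I : Ideal B} (hI : I ≠ ⊥) :
    (missing deg I).Finite := by
  obtain ⟨N, hN⟩ := h.exists_large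
  obtain ⟨b, hb, hb0⟩ := Submodule.exists_mem_ne_zero_of_ne_bot hI
  refine (Set.finite_lt_nat (N + deg b)).subset fun n hn => ?_
  by_contra h1
  have h1' : N + deg b ≤ n := not_lt.1 h1
  obtain ⟨c, hc, hcn⟩ := hN (n - deg b) (by omega)
  refine hn.2 (b * c) (I.mul_mem_right _ hb) (mul_ne_zero hb0 hc) ?_
  rw [h.deg_mul _ _ hb0 hc]
  omega

/-- R1a. -/
theorem OnePt.finite_quot (h : OnePt k B deg) {I : Ideal B} (hI : I ≠ ⊥) :
    Module.Finite k (B ⧸ I) := by
  obtain ⟨b⟩ := h.exists_basis_quot I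
  have : Finite (missing deg I) := (h.missing_finite hI).to_subtype
  exact Module.Finite.of_basis b

/-- R1a.  The number of degrees missing in `I` is the colength of `I`. -/
theorem OnePt.ncard_missing (h : OnePt k B deg) {I : Ideal B} (hI : I ≠ ⊥) :
    {n | n ∈ degSet deg ∧ ∀ b ∈ I, b ≠ 0 → deg b ≠ n}.Finite ∧
    {n | n ∈ degSet deg ∧ ∀ b ∈ I, b ≠ 0 → deg b ≠ n}.ncard = finrank k (B ⧸ I) := by
  refine ⟨h.missing_finite hI, ?_⟩
  obtain ⟨b⟩ := h.exists_basis_quot I
  rw [Module.finrank_eq_nat_card_basis b]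
  rfl

/-- R1a. -/
theorem OnePt.finrank_quot_span (h : OnePt k B deg) {b : B} (hb : b ≠ 0) :
    finrank k (B ⧸ Ideal.span {b}) = deg b := by
  classical
  have hI : Ideal.span {b} ≠ ⊥ := by rwa [Ne, Ideal.span_singleton_eq_bot]
  rw [← (h.ncard_missing hI).2]
  obtain ⟨N, hN⟩ := h.exists_large
  have hset : {n | n ∈ degSet deg ∧ ∀ c ∈ Ideal.span {b}, c ≠ 0 → deg c ≠ n} =
      ((Finset.range (N + deg b)).filter (· ∈ degSet deg) \
        ((Finset.range N).filter (· ∈ degSet deg)).image (· + deg b) : Finset ℕ) := by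
    ext n
    simp only [Set.mem_ofPred_eq, Finset.coe_sdiff, Finset.coe_filter, Finset.mem_range,
      Finset.coe_image, Set.mem_sdiff, Set.mem_image, not_exists, not_and]
    constructor
    · rintro ⟨h1, h2⟩
      have h3 : ∀ m ∈ degSet deg, m + deg b ≠ n := by
        rintro m ⟨c, hc, rfl⟩ h3
        refine h2 (b * c) (Ideal.mem_span_singleton.2 ⟨c, rfl⟩) (mul_ne_zero hb hc) ?_
        rw [h.deg_mul _ _ hb hc, add_comm, h3]
      refine ⟨⟨?_, h1⟩, fun m hm hmn => h3 m hm.2 hmn⟩
      by_contra h4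
      have h4' : N + deg b ≤ n := not_lt.1 h4
      exact h3 (n - deg b) (hN _ (by omega)) (by omega)
    · rintro ⟨⟨h1, h2⟩, h3⟩
      refine ⟨h2, fun c hc hc0 hcn => ?_⟩
      obtain ⟨c', rfl⟩ := Ideal.mem_span_singleton.1 hc
      have hc' : c' ≠ 0 := right_ne_zero_of_mul hc0
      rw [h.deg_mul _ _ hb hc'] at hcn
      exact h3 (deg c') ⟨by omega, c', hc', rfl⟩ (by omega)
  rw [hset, Set.ncard_coe_finset, Finset.card_sdiff_of_subset, Finset.card_image_of_injective]
  · have h1 : (Finset.range (N + deg b)).filter (· ∈ degSet deg) =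
        (Finset.range N).filter (· ∈ degSet deg) ∪ Finset.Ico N (N + deg b) := by
      ext n
      simp only [Finset.mem_filter, Finset.mem_range, Finset.mem_union, Finset.mem_Ico]
      constructor
      · rintro ⟨h1, h2⟩
        by_cases h3 : n < N
        · exact Or.inl ⟨h3, h2⟩
        · exact Or.inr ⟨not_lt.1 h3, h1⟩
      · rintro (⟨h1, h2⟩ | ⟨h1, h2⟩)
        · exact ⟨by omega, h2⟩
        · exact ⟨h2, hN n h1⟩
    rw [h1, Finset.card_union_of_disjoint, Nat.card_Ico]
    · omega
    · rw [Finset.disjoint_left]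
      intro n h2 h3
      rw [Finset.mem_filter, Finset.mem_range] at h2
      rw [Finset.mem_Ico] at h3
      omega
  · exact add_left_injective _
  · intro n hn
    rw [Finset.mem_image] at hn
    obtain ⟨m, hm, rfl⟩ := hn
    rw [Finset.mem_filter, Finset.mem_range] at hm ⊢
    exact ⟨by omega, h.degSet_add hm.2 ⟨b, hb, rfl⟩⟩

/-- R1a.  All large degrees occur in `I`. -/
theorem OnePt.exists_deg_eq (h : OnePt k B deg) {I : Ideal B} (hI : I ≠ ⊥) {n : ℕ}
    (hn : 2 * ((degSet deg)ᶜ).ncard + finrank k (B ⧸ I) ≤ n) :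
    ∃ b ∈ I, b ≠ 0 ∧ deg b = n := by
  classical
  by_contra hcon
  push Not at hcon
  set g := ((degSet deg)ᶜ).ncard with hg
  have hgf := h.compl_finite
  have hmf := h.missing_finite hI
  have hmc : (missing deg I).ncard = finrank k (B ⧸ I) := (h.ncard_missing hI).2
  -- the numbers `n - s`
  let T : Finset ℕ := ((Finset.range (n + 1)).filter (· ∈ degSet deg)).image (n - ·)
  have hTcard : n + 1 ≤ T.card + g := by
    have h1 : T.card = ((Finset.range (n + 1)).filter (· ∈ degSet deg)).card := by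
      refine Finset.card_image_of_injOn fun a ha b hb hab => ?_
      have ha' := Finset.mem_range.1 (Finset.mem_filter.1 (Finset.mem_coe.1 ha)).1
      have hb' := Finset.mem_range.1 (Finset.mem_filter.1 (Finset.mem_coe.1 hb)).1
      omega
    have h2 := Finset.card_filter_add_card_filter_not (s := Finset.range (n + 1))
      (fun m => m ∈ degSet deg)
    have h3 : ((Finset.range (n + 1)).filter fun m => m ∉ degSet deg).card ≤ g := by
      rw [hg, Set.ncard_eq_toFinset_card _ hgf]
      refine Finset.card_le_card fun m hm => ?_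
      rw [Set.Finite.mem_toFinset]
      exact (Finset.mem_filter.1 hm).2
    rw [Finset.card_range] at h2
    omega
  have hTle : T.card ≤ g + finrank k (B ⧸ I) := by
    rw [hg, ← hmc, Set.ncard_eq_toFinset_card _ hgf, Set.ncard_eq_toFinset_card _ hmf]
    refine le_trans (Finset.card_le_card fun m hm => ?_) (Finset.card_union_le _ _)
    obtain ⟨s, hs, rfl⟩ := Finset.mem_image.1 hm
    rw [Finset.mem_filter, Finset.mem_range] at hs
    rw [Finset.mem_union, Set.Finite.mem_toFinset, Set.Finite.mem_toFinset]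
    by_cases h1 : n - s ∈ degSet deg
    · refine Or.inr ⟨h1, fun b hb hb0 hbn => ?_⟩
      obtain ⟨c, hc, hcs⟩ := hs.2
      refine hcon (b * c) (I.mul_mem_right _ hb) (mul_ne_zero hb0 hc) ?_
      rw [h.deg_mul _ _ hb0 hc, hbn, hcs]
      omega
    · exact Or.inl h1
  omega

/-- R1a.  `B` is a finitely generated algebra. -/
theorem OnePt.finiteType (h : OnePt k B deg) : Algebra.FiniteType k B := by
  classical
  obtain ⟨N, hN⟩ := h.exists_large
  have hch : ∀ n : ℕ, ∃ b : B, n ∈ degSet deg → b ≠ 0 ∧ deg b = n := by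
    intro n
    by_cases hn : n ∈ degSet deg
    · obtain ⟨b, hb⟩ := hn
      exact ⟨b, fun _ => hb⟩
    · exact ⟨0, fun h1 => absurd h1 hn⟩
  choose e he using hch
  let A : Subalgebra k B := Algebra.adjoin k ((Finset.range (2 * N + 2)).image e : Set B)
  have hA : ∀ n, n ∈ degSet deg → ∃ w ∈ A, w ≠ 0 ∧ deg w = n := by
    intro n
    induction n using Nat.strong_induction_on with
    | _ n ih =>
      intro hn
      by_cases h1 : n < 2 * N + 2
      · exact ⟨e n, Algebra.subset_adjoin (by
          rw [Finset.mem_coe]; exact Finset.mem_image_of_mem e (Finset.mem_range.2 h1)),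
          (he n hn).1, (he n hn).2⟩
      · obtain ⟨w, hw, hw0, hwd⟩ := ih (n - (N + 1)) (by omega) (hN _ (by omega))
        have h2 : N + 1 ∈ degSet deg := hN _ (by omega)
        refine ⟨w * e (N + 1), A.mul_mem hw (Algebra.subset_adjoin ?_),
          mul_ne_zero hw0 (he _ h2).1, ?_⟩
        · rw [Finset.mem_coe]
          exact Finset.mem_image_of_mem e (Finset.mem_range.2 (by omega))
        · rw [h.deg_mul _ _ hw0 (he _ h2).1, hwd, (he _ h2).2]
          omega
  have htop : (⊤ : Submodule k B) ≤ Subalgebra.toSubmodule A :=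
    h.span_induction ⊤ _ le_top fun b _ hb0 => hA (deg b) ⟨b, hb0, rfl⟩
  refine ⟨⟨(Finset.range (2 * N + 2)).image e, ?_⟩⟩
  rw [eq_top_iff]
  intro b _
  exact htop (Submodule.mem_top (x := b))

/-- R1a. The elements of degree at most `n`. -/
def OnePt.L (h : OnePt k B deg) (n : ℕ) : Submodule k B where
  carrier := {b | deg b ≤ n}
  add_mem' := fun {a b} ha hb => (h.deg_add a b).trans (max_le ha hb)
  zero_mem' := by
    have := h.deg_const 0
    rw [map_zero] at this
    change deg 0 ≤ n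
    omega
  smul_mem' := fun c b hb => by
    change deg (c • b) ≤ n
    rw [Algebra.smul_def]
    by_cases hc : algebraMap k B c = 0
    · rw [hc, zero_mul]
      have := h.deg_const 0
      rw [map_zero] at this
      omega
    · by_cases hb0 : b = 0
      · rw [hb0, mul_zero]
        have := h.deg_const 0
        rw [map_zero] at this
        omega
      · rw [h.deg_mul _ _ hc hb0, h.deg_const, zero_add]
        exact hb

theorem OnePt.mem_L {h : OnePt k B deg} {n : ℕ} {b : B} : b ∈ h.L n ↔ deg b ≤ n := Iff.rfl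

theorem OnePt.finite_L (h : OnePt k B deg) (n : ℕ) : FiniteDimensional k (h.L n) := by
  classical
  have hch : ∀ n : ℕ, ∃ b : B, n ∈ degSet deg → b ≠ 0 ∧ deg b = n := by
    intro n
    by_cases hn : n ∈ degSet deg
    · obtain ⟨b, hb⟩ := hn
      exact ⟨b, fun _ => hb⟩
    · exact ⟨0, fun h1 => absurd h1 hn⟩
  choose e he using hch
  let W : Submodule k B := Submodule.span k
    (((Finset.range (n + 1)).filter (· ∈ degSet deg)).image e : Set B)
  have hWL : W ≤ h.L n := by
    refine Submodule.span_le.2 fun x hx => ?_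
    rw [Finset.mem_coe, Finset.mem_image] at hx
    obtain ⟨m, hm, rfl⟩ := hx
    rw [Finset.mem_filter, Finset.mem_range] at hm
    rw [SetLike.mem_coe, OnePt.mem_L, (he m hm.2).2]
    omega
  have hLW : h.L n ≤ W := h.span_induction _ W hWL fun b hb hb0 => by
    have hb' : deg b ∈ degSet deg := ⟨b, hb0, rfl⟩
    refine ⟨e (deg b), Submodule.subset_span ?_, (he _ hb').1, (he _ hb').2⟩
    rw [Finset.mem_coe]
    refine Finset.mem_image_of_mem e (Finset.mem_filter.2 ⟨Finset.mem_range.2 ?_, hb'⟩)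
    have := OnePt.mem_L.1 hb
    omega
  have hWf : FiniteDimensional k W := FiniteDimensional.span_finset k _
  rw [le_antisymm hLW hWL]
  exact hWf

end R1

end Pool.Agent.SC
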