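import Mathlib
import Pool.Agent.SC.Defs
import Pool.Agent.SC.R1a

/-!
# One-point rings which are Dedekind: colengths and classes (block R1b)
-/

set_option linter.unusedSectionVars false
set_option linter.overlappingInstances false

universe u v

namespace Pool.Agent.SC

open Module

section R1

variable {k : Type u} {B : Type v} [Field k] [CommRing B] [IsDomain B] [Algebra k B] {deg : B → ℕ}

/-- R1b.  Colength is additive. -/
theorem OnePt.finrank_mul' [IsDedekindDomain B] (h : OnePt k B deg) {I J : Ideal B}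
    (hI : I ≠ ⊥) (hJ : J ≠ ⊥) :
    finrank k (B ⧸ (I * J)) = finrank k (B ⧸ I) + finrank k (B ⧸ J) := by
  classical
  have hIJ : I * J ≠ ⊥ := mul_ne_zero hI hJ
  have := h.finite_quot hIJ
  have := h.finite_quot hI
  have := h.finite_quot hJ
  obtain ⟨a, ha⟩ := IsDedekindDomain.exists_sup_span_eq (I := I * J) (J := I) Ideal.mul_le_left hIJ
  have haI : a ∈ I := by
    rw [← ha]
    exact Ideal.mem_sup_right (Ideal.mem_span_singleton_self a)
  -- multiplication by `a`
  have key : ∀ b : B, a * b ∈ I * J ↔ b ∈ J := by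
    intro b
    constructor
    · intro hab
      -- `I * (b) ≤ I * J`
      have h1 : I * Ideal.span {b} ≤ I * J := by
        rw [← ha, Ideal.sup_mul]
        rw [ha]
        refine sup_le ?_ ?_
        · exact Ideal.mul_le_left
        · rw [Ideal.span_singleton_mul_span_singleton, Ideal.span_singleton_le_iff_mem]
          exact hab
      have h2 : Ideal.span {b} ≤ J := by
        have h3 := Ideal.dvd_iff_le.2 h1
        exact Ideal.dvd_iff_le.1 ((mul_dvd_mul_iff_left hI).1 h3)
      exact h2 (Ideal.mem_span_singleton_self b)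
    · intro hb
      exact Ideal.mul_mem_mul haI hb
  let f : B →ₗ[k] (B ⧸ (I * J)) :=
    ((Ideal.Quotient.mkₐ k (I * J)).toLinearMap).comp (LinearMap.mulLeft k a)
  have hf : ∀ b, f b = Ideal.Quotient.mk (I * J) (a * b) := fun b => rfl
  let g : (B ⧸ (I * J)) →ₗ[k] (B ⧸ I) :=
    (Ideal.Quotient.factorₐ k (Ideal.mul_le_left : I * J ≤ I)).toLinearMap
  have hg : ∀ b, g (Ideal.Quotient.mk (I * J) b) = Ideal.Quotient.mk I b := fun b => rfl
  have hgs : Function.Surjective g := by
    intro x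
    obtain ⟨b, rfl⟩ := Ideal.Quotient.mk_surjective x
    exact ⟨Ideal.Quotient.mk (I * J) b, hg b⟩
  have hker : LinearMap.ker g = LinearMap.range f := by
    ext x
    obtain ⟨b, rfl⟩ := Ideal.Quotient.mk_surjective x
    rw [LinearMap.mem_ker, hg, Ideal.Quotient.eq_zero_iff_mem, LinearMap.mem_range]
    constructor
    · intro hb
      rw [← ha] at hb
      obtain ⟨y, hy, z, hz, rfl⟩ := Submodule.mem_sup.1 hb
      obtain ⟨c, rfl⟩ := Ideal.mem_span_singleton.1 hz
      refine ⟨c, ?_⟩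
      rw [hf, map_add, Ideal.Quotient.eq_zero_iff_mem.2 hy, zero_add]
    · rintro ⟨c, hc⟩
      rw [hf, Ideal.Quotient.eq] at hc
      have h1 : a * c ∈ I := I.mul_mem_right _ haI
      have h2 : a * c - b ∈ I := Ideal.mul_le_left hc
      have h3 : b = a * c - (a * c - b) := by ring
      rw [h3]
      exact I.sub_mem h1 h2
  have hfr : finrank k (LinearMap.range f) = finrank k (B ⧸ J) := by
    have hkf : LinearMap.ker f = J.restrictScalars k := by
      ext b
      rw [LinearMap.mem_ker, hf, Ideal.Quotient.eq_zero_iff_mem, key]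
      rfl
    have e1 : (B ⧸ LinearMap.ker f) ≃ₗ[k] LinearMap.range f := f.quotKerEquivRange
    let f2 : B →ₗ[k] (B ⧸ J) := (Ideal.Quotient.mkₐ k J).toLinearMap
    have hkf2 : LinearMap.ker f2 = J.restrictScalars k := by
      ext b
      rw [LinearMap.mem_ker]
      change Ideal.Quotient.mk J b = 0 ↔ _
      rw [Ideal.Quotient.eq_zero_iff_mem]
      rfl
    have hf2 : Function.Surjective f2 := Ideal.Quotient.mk_surjective
    have e2 : (B ⧸ LinearMap.ker f2) ≃ₗ[k] (B ⧸ J) := f2.quotKerEquivOfSurjective hf2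
    have e3 : (B ⧸ LinearMap.ker f) ≃ₗ[k] (B ⧸ LinearMap.ker f2) :=
      Submodule.quotEquivOfEq _ _ (by rw [hkf, hkf2])
    exact ((e1.symm.trans e3).trans e2).finrank_eq
  have h1 := LinearMap.finrank_range_add_finrank_ker g
  rw [LinearMap.range_eq_top.2 hgs, finrank_top, hker, hfr] at h1
  exact h1.symm

/-- R1b.  Colength is additive. -/
theorem OnePt.finrank_mul [IsAlgClosed k] [IsDedekindDomain B] (h : OnePt k B deg) {I J : Ideal B}
    (hI : I ≠ ⊥) (hJ : J ≠ ⊥) :
    finrank k (B ⧸ (I * J)) = finrank k (B ⧸ I) + finrank k (B ⧸ J) :=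
  h.finrank_mul' hI hJ

theorem OnePt.finrank_span_mul [IsDedekindDomain B] (h : OnePt k B deg) {a : B} (ha : a ≠ 0)
    {I : Ideal B} (hI : I ≠ ⊥) :
    finrank k (B ⧸ (Ideal.span {a} * I)) = deg a + finrank k (B ⧸ I) := by
  have ha' : Ideal.span {a} ≠ ⊥ := by rwa [Ne, Ideal.span_singleton_eq_bot]
  rw [h.finrank_mul' ha' hI, h.finrank_quot_span ha]

theorem SameClass.symm' {I J : Ideal B} (h : SameClass I J) : SameClass J I := by
  obtain ⟨a, b, ha, hb, hab⟩ := h
  exact ⟨b, a, hb, ha, hab.symm⟩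

theorem SameClass.ne_bot {I J : Ideal B} (h : SameClass I J) (hI : I ≠ ⊥) : J ≠ ⊥ := by
  obtain ⟨a, b, ha, hb, hab⟩ := h
  rintro rfl
  rw [Ideal.mul_bot] at hab
  have ha' : Ideal.span {a} ≠ ⊥ := by rwa [Ne, Ideal.span_singleton_eq_bot]
  have := Ideal.mul_eq_bot.1 hab
  tauto

/-- R1b.  A nonzero ideal of least colength in a class is unique (minimal ideal trick). -/
theorem OnePt.minimal_unique' [IsDedekindDomain B] (h : OnePt k B deg)
    {I J : Ideal B} (hI : I ≠ ⊥) (hJ : J ≠ ⊥) (hIJ : SameClass I J)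
    (hImin : ∀ I' : Ideal B, I' ≠ ⊥ → SameClass I I' →
      finrank k (B ⧸ I) ≤ finrank k (B ⧸ I'))
    (hJmin : finrank k (B ⧸ J) ≤ finrank k (B ⧸ I)) : I = J := by
  have heq : finrank k (B ⧸ I) = finrank k (B ⧸ J) := le_antisymm (hImin J hJ hIJ) hJmin
  obtain ⟨a, b, ha, hb, hab⟩ := hIJ
  have h1 := h.finrank_span_mul ha hI
  have h2 := h.finrank_span_mul hb hJ
  rw [hab, h2] at h1
  have hdeg : deg a = deg b := by omega
  have hb' : Ideal.span {b} ≠ ⊥ := by rwa [Ne, Ideal.span_singleton_eq_bot]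
  obtain ⟨c, hc⟩ := h.lead a b ha hb hdeg
  by_cases hac : a = c • b
  · have hc0 : c ≠ 0 := by
      rintro rfl
      rw [zero_smul] at hac
      exact ha hac
    have hspan : Ideal.span {a} = Ideal.span {b} := by
      rw [hac, Algebra.smul_def]
      exact Ideal.span_singleton_mul_left_unit
        ((isUnit_iff_ne_zero.2 hc0).map (algebraMap k B)) b
    rw [hspan] at hab
    exact mul_left_cancel₀ hb' hab
  · have hlt : deg (a - c • b) < deg b := hc.resolve_left hac
    exfalso
    set v := a - c • b with hv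
    have hv0 : v ≠ 0 := sub_ne_zero.2 hac
    have hv' : Ideal.span {v} ≠ ⊥ := by rwa [Ne, Ideal.span_singleton_eq_bot]
    have hle : Ideal.span {v} * I ≤ Ideal.span {b} := by
      rw [Ideal.span_singleton_mul_le_iff]
      intro z hz
      have hz1 : a * z ∈ Ideal.span {b} := by
        have : a * z ∈ Ideal.span {a} * I := Ideal.mul_mem_mul (Ideal.mem_span_singleton_self a) hz
        rw [hab] at this
        exact Ideal.mul_le_left this
      have hz2 : (c • b) * z ∈ Ideal.span {b} := by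
        rw [Algebra.smul_def, mul_comm (algebraMap k B c) b, mul_assoc]
        exact Ideal.mem_span_singleton.2 ⟨_, rfl⟩
      rw [hv, sub_mul]
      exact (Ideal.span {b}).sub_mem hz1 hz2
    obtain ⟨I', hI'⟩ := Ideal.dvd_iff_le.2 hle
    have hI'0 : I' ≠ ⊥ := by
      rintro rfl
      rw [Ideal.mul_bot] at hI'
      have := Ideal.mul_eq_bot.1 hI'
      tauto
    have h3 := h.finrank_span_mul hv0 hI
    rw [hI', h.finrank_span_mul hb hI'0] at h3
    have h4 := hImin I' hI'0 ⟨v, b, hv0, hb, hI'⟩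
    omega

/-- R1b.  A nonzero ideal of least colength in a class is unique (minimal ideal trick). -/
theorem OnePt.minimal_unique [IsAlgClosed k] [IsDedekindDomain B] (h : OnePt k B deg)
    {I J : Ideal B} (hI : I ≠ ⊥) (hJ : J ≠ ⊥) (hIJ : SameClass I J)
    (hImin : ∀ I' : Ideal B, I' ≠ ⊥ → SameClass I I' →
      finrank k (B ⧸ I) ≤ finrank k (B ⧸ I'))
    (hJmin : finrank k (B ⧸ J) ≤ finrank k (B ⧸ I)) : I = J :=
  h.minimal_unique' hI hJ hIJ hImin hJmin

/-- R1b.  Every class contains an ideal of colength at most `g`. -/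
theorem OnePt.exists_small' [IsDedekindDomain B] (h : OnePt k B deg)
    {I : Ideal B} (hI : I ≠ ⊥) : ∃ J : Ideal B, J ≠ ⊥ ∧ SameClass I J ∧
      finrank k (B ⧸ J) ≤ ((degSet deg)ᶜ).ncard := by
  classical
  obtain ⟨u, hu, hu0⟩ := Submodule.exists_mem_ne_zero_of_ne_bot hI
  obtain ⟨I', hI'⟩ := Ideal.dvd_iff_le.2 ((Ideal.span_singleton_le_iff_mem I).2 hu)
  have hu' : Ideal.span {u} ≠ ⊥ := by rwa [Ne, Ideal.span_singleton_eq_bot]
  have hI'0 : I' ≠ ⊥ := by
    rintro rfl
    rw [Ideal.mul_bot] at hI'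
    exact hu' hI'
  -- an element of small degree in `I'`
  have hsmall : ∃ b ∈ I', b ≠ 0 ∧
      deg b ≤ ((degSet deg)ᶜ).ncard + finrank k (B ⧸ I') := by
    by_contra hcon
    push Not at hcon
    obtain ⟨hmf, hmc⟩ := h.ncard_missing hI'0
    have hgf := h.compl_finite
    have hsub : Finset.range (((degSet deg)ᶜ).ncard + finrank k (B ⧸ I') + 1) ⊆
        hgf.toFinset ∪ hmf.toFinset := by
      intro n hn
      rw [Finset.mem_range] at hn
      rw [Finset.mem_union, Set.Finite.mem_toFinset, Set.Finite.mem_toFinset]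
      by_cases h1 : n ∈ degSet deg
      · refine Or.inr ⟨h1, fun b hb hb0 hbn => ?_⟩
        have := hcon b hb hb0
        omega
      · exact Or.inl h1
    have hcard := Finset.card_le_card hsub
    have hcard2 := Finset.card_union_le hgf.toFinset hmf.toFinset
    rw [← Set.ncard_eq_toFinset_card _ hgf, ← Set.ncard_eq_toFinset_card _ hmf, hmc] at hcard2
    rw [Finset.card_range] at hcard
    omega
  obtain ⟨b, hb, hb0, hbd⟩ := hsmall
  obtain ⟨J, hJ⟩ := Ideal.dvd_iff_le.2 ((Ideal.span_singleton_le_iff_mem I').2 hb)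
  have hb' : Ideal.span {b} ≠ ⊥ := by rwa [Ne, Ideal.span_singleton_eq_bot]
  have hJ0 : J ≠ ⊥ := by
    rintro rfl
    rw [Ideal.mul_bot] at hJ
    exact hb' hJ
  refine ⟨J, hJ0, ⟨b, u, hb0, hu0, ?_⟩, ?_⟩
  · rw [hJ, hI', mul_comm I' J, mul_assoc, mul_comm I' I, mul_comm J]
  · have h1 := h.finrank_mul' hI'0 hJ0
    rw [← hJ, h.finrank_quot_span hb0] at h1
    omega

/-- R1b.  Every class contains an ideal of colength at most `g`. -/
theorem OnePt.exists_small [IsAlgClosed k] [IsDedekindDomain B] (h : OnePt k B deg)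
    {I : Ideal B} (hI : I ≠ ⊥) : ∃ J : Ideal B, J ≠ ⊥ ∧ SameClass I J ∧
      finrank k (B ⧸ J) ≤ ((degSet deg)ᶜ).ncard :=
  h.exists_small' hI

end R1

end Pool.Agent.SC
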