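import Mathlib
import Pool.Agent.SC.Defs
import Pool.Agent.SC.R1a
import Pool.Agent.SC.R1b
import Pool.Agent.SC.R4a

/-!
# Block R4b: reduction of ideals is multiplicative
-/

universe u v

namespace Pool.Agent.SC

open Module

section R4b

variable {k : Type u} {B : Type v} [Field k] [CommRing B] [IsDomain B] [Algebra k B]
  {O : ValuationSubring k} {deg : B → ℕ} {E : Basis (degSet deg) k B}

/-- A nonzero element is a constant times an integral element with nonzero reduction. -/
theorem exists_prim (h : OnePt k B deg) (hE : IntBasis O deg E) {b : B} (hb : b ≠ 0) :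
    ∃ (c : k) (b' : BO h hE), c ≠ 0 ∧ b' ∉ mB h hE ∧ b = c • (b' : B) ∧
      (∀ i, O.valuation (E.repr b i) ≤ O.valuation c) ∧ ∃ i, E.repr b i = c := by
  classical
  have hne : (E.repr b).support.Nonempty := by
    rw [Finsupp.support_nonempty_iff]
    intro h0
    exact hb (by simpa using h0)
  obtain ⟨i₀, hi₀, hmax⟩ := Finset.exists_max_image (E.repr b).support
    (fun i => O.valuation (E.repr b i)) hne
  have hc : E.repr b i₀ ≠ 0 := Finsupp.mem_support_iff.1 hi₀
  set c := E.repr b i₀ with hcdef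
  have hle : ∀ i, O.valuation (E.repr b i) ≤ O.valuation c := by
    intro i
    by_cases hi : i ∈ (E.repr b).support
    · exact hmax i hi
    · rw [Finsupp.notMem_support_iff.1 hi, map_zero]
      exact zero_le
  have hvc : O.valuation c ≠ 0 := by simpa using hc
  have hrepr : ∀ i, E.repr (c⁻¹ • b) i = c⁻¹ * E.repr b i := by
    intro i
    rw [map_smul, Finsupp.smul_apply, smul_eq_mul]
  have hmem : c⁻¹ • b ∈ BO h hE := by
    rw [mem_BO]
    intro i
    rw [hrepr, ← O.valuation_le_one_iff, map_mul, map_inv₀]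
    rw [inv_mul_le_iff₀ (zero_lt_iff.2 hvc), mul_one]
    exact hle i
  refine ⟨c, ⟨c⁻¹ • b, hmem⟩, hc, ?_, ?_, hle, i₀, rfl⟩
  · rw [mem_mB]
    push Not
    refine ⟨i₀, ?_⟩
    change 1 ≤ O.valuation (E.repr (c⁻¹ • b) i₀)
    rw [hrepr, inv_mul_cancel₀ hc, map_one]
  · change b = c • (c⁻¹ • b)
    rw [smul_smul, mul_inv_cancel₀ hc, one_smul]

theorem smul_mem_BO (h : OnePt k B deg) (hE : IntBasis O deg E) {c : k} (hc : c ∈ O) {b : B}
    (hb : b ∈ BO h hE) : c • b ∈ BO h hE := by
  rw [mem_BO] at hb ⊢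
  intro i
  rw [map_smul, Finsupp.smul_apply, smul_eq_mul]
  exact O.mul_mem _ _ hc (hb i)

/-- Gauss: an integral element with nonzero reduction divides only integral elements. -/
theorem gauss (h : OnePt k B deg) (hE : IntBasis O deg E) {f : BO h hE} (hf : f ∉ mB h hE)
    {b : B} (hfb : (f : B) * b ∈ BO h hE) : b ∈ BO h hE := by
  obtain ⟨hdom, -⟩ := exists_degbar h hE
  by_cases hb : b = 0
  · rw [hb]; exact (BO h hE).zero_mem
  obtain ⟨c, b', hc, hb', rfl, -, -⟩ := exists_prim h hE hb
  have h1 : f * b' ∉ mB h hE := by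
    rw [← Ideal.Quotient.eq_zero_iff_mem, map_mul]
    exact mul_ne_zero (fun h0 => hf (Ideal.Quotient.eq_zero_iff_mem.1 h0))
      (fun h0 => hb' (Ideal.Quotient.eq_zero_iff_mem.1 h0))
  rw [mem_mB] at h1
  push Not at h1
  obtain ⟨i, hi⟩ := h1
  have h2 : (f : B) * (c • (b' : B)) = c • ((f * b' : BO h hE) : B) := by
    rw [Subring.coe_mul, mul_smul_comm]
  have h3 := hfb
  rw [h2, mem_BO] at h3
  have h4 := h3 i
  rw [map_smul, Finsupp.smul_apply, smul_eq_mul, ← O.valuation_le_one_iff, map_mul] at h4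
  have h5 : O.valuation c ≤ 1 := by
    refine le_trans ?_ h4
    exact le_mul_of_one_le_right' hi
  exact smul_mem_BO h hE ((O.valuation_le_one_iff _).1 h5) b'.2

theorem mem_redI (h : OnePt k B deg) (hE : IntBasis O deg E) {I : Ideal B} {x : Bbar h hE} :
    x ∈ redI h hE I ↔ ∃ y : BO h hE, (y : B) ∈ I ∧ Ideal.Quotient.mk (mB h hE) y = x := by
  unfold redI
  rw [Ideal.mem_map_iff_of_surjective _ Ideal.Quotient.mk_surjective]
  rfl

theorem redI_span' (h : OnePt k B deg) (hE : IntBasis O deg E) {f : BO h hE} (hf : f ∉ mB h hE) :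
    redI h hE (Ideal.span {(f : B)}) = Ideal.span {Ideal.Quotient.mk (mB h hE) f} := by
  ext x
  rw [mem_redI, Ideal.mem_span_singleton']
  constructor
  · rintro ⟨y, hy, rfl⟩
    rw [Ideal.mem_span_singleton'] at hy
    obtain ⟨a, ha⟩ := hy
    have h1 : a ∈ BO h hE := gauss h hE hf (by rw [mul_comm, ha]; exact y.2)
    refine ⟨Ideal.Quotient.mk (mB h hE) ⟨a, h1⟩, ?_⟩
    rw [← map_mul]
    congr 1
    exact Subtype.ext ha
  · rintro ⟨a, rfl⟩
    obtain ⟨a, rfl⟩ := Ideal.Quotient.mk_surjective a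
    refine ⟨a * f, ?_, map_mul _ _ _⟩
    rw [Ideal.mem_span_singleton']
    exact ⟨a, rfl⟩

theorem redI_ne_bot' (h : OnePt k B deg) (hE : IntBasis O deg E) {I : Ideal B} (hI : I ≠ ⊥) :
    redI h hE I ≠ ⊥ := by
  obtain ⟨b, hb, hb0⟩ := Submodule.exists_mem_ne_zero_of_ne_bot hI
  obtain ⟨c, b', hc, hb', rfl, -, -⟩ := exists_prim h hE hb0
  intro h0
  have h1 : (b' : B) ∈ I := by
    have h2 := I.mul_mem_left (algebraMap k B c⁻¹) hb
    rwa [← Algebra.smul_def, smul_smul, inv_mul_cancel₀ hc, one_smul] at h2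
  have h3 : Ideal.Quotient.mk (mB h hE) b' ∈ redI h hE I := (mem_redI h hE).2 ⟨b', h1, rfl⟩
  rw [h0, Ideal.mem_bot, Ideal.Quotient.eq_zero_iff_mem] at h3
  exact hb' h3

theorem redI_mono (h : OnePt k B deg) (hE : IntBasis O deg E) {I J : Ideal B} (hIJ : I ≤ J) :
    redI h hE I ≤ redI h hE J := by
  intro x hx
  obtain ⟨y, hy, rfl⟩ := (mem_redI h hE).1 hx
  exact (mem_redI h hE).2 ⟨y, hIJ hy, rfl⟩

theorem redI_top (h : OnePt k B deg) (hE : IntBasis O deg E) : redI h hE ⊤ = ⊤ := by
  rw [Ideal.eq_top_iff_one, mem_redI]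
  exact ⟨1, Submodule.mem_top, map_one _⟩

theorem redI_mul_le (h : OnePt k B deg) (hE : IntBasis O deg E) (I J : Ideal B) :
    redI h hE I * redI h hE J ≤ redI h hE (I * J) := by
  rw [Ideal.mul_le]
  intro x hx y hy
  obtain ⟨a, ha, rfl⟩ := (mem_redI h hE).1 hx
  obtain ⟨b, hb, rfl⟩ := (mem_redI h hE).1 hy
  exact (mem_redI h hE).2 ⟨a * b, Ideal.mul_mem_mul ha hb, map_mul _ _ _⟩

/-- A constant combination of integral elements with coefficients in `O`. -/
theorem mk_smul (h : OnePt k B deg) (hE : IntBasis O deg E) (c : O) (b : BO h hE) :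
    Ideal.Quotient.mk (mB h hE) ⟨(c : k) • (b : B), smul_mem_BO h hE c.2 b.2⟩ =
      IsLocalRing.residue O c • Ideal.Quotient.mk (mB h hE) b := by
  have h1 : (⟨(c : k) • (b : B), smul_mem_BO h hE c.2 b.2⟩ : BO h hE) = constBO h hE c * b := by
    apply Subtype.ext
    change (c : k) • (b : B) = algebraMap k B (c : k) * (b : B)
    rw [Algebra.smul_def]
  rw [h1, map_mul, Algebra.smul_def]
  rfl

theorem finrank_redI' (h : OnePt k B deg) (hE : IntBasis O deg E) {I : Ideal B} (hI : I ≠ ⊥) :
    finrank (IsLocalRing.ResidueField O) (Bbar h hE ⧸ redI h hE I) ≤ finrank k (B ⧸ I) := by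
  classical
  have hfin := h.finite_quot hI
  by_contra hcon
  push Not at hcon
  set d := finrank k (B ⧸ I) with hd
  set κ := IsLocalRing.ResidueField O
  -- `d + 1` linearly independent elements
  obtain ⟨v, hv⟩ : ∃ v : Fin (d + 1) → (Bbar h hE ⧸ redI h hE I), LinearIndependent κ v :=
    exists_linearIndependent_of_le_finrank (R := κ) hcon
  have hlift : ∀ j, ∃ y : BO h hE, Ideal.Quotient.mk (redI h hE I)
      (Ideal.Quotient.mk (mB h hE) y) = v j := by
    intro j
    obtain ⟨z, hz⟩ := Ideal.Quotient.mk_surjective (v j)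
    obtain ⟨y, hy⟩ := Ideal.Quotient.mk_surjective z
    exact ⟨y, by rw [hy, hz]⟩
  choose y hy using hlift
  have hdep : ¬ LinearIndependent k (fun j => Ideal.Quotient.mk I (y j : B)) := by
    intro hli
    have h1 := hli.fintype_card_le_finrank
    rw [Fintype.card_fin] at h1
    omega
  rw [Fintype.not_linearIndependent_iff] at hdep
  obtain ⟨c, hc0, j₁, hj₁⟩ := hdep
  obtain ⟨j₀, -, hmax⟩ := Finset.exists_max_image Finset.univ (fun j => O.valuation (c j))
    ⟨j₁, Finset.mem_univ _⟩
  have hcj₀ : c j₀ ≠ 0 := by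
    intro h0
    have h1 := hmax j₁ (Finset.mem_univ _)
    rw [h0, map_zero] at h1
    have h2 : O.valuation (c j₁) = 0 := le_antisymm h1 zero_le
    exact hj₁ (by simpa using h2)
  have hvc : O.valuation (c j₀) ≠ 0 := by simpa using hcj₀
  have hO : ∀ j, (c j₀)⁻¹ * c j ∈ O := by
    intro j
    rw [← O.valuation_le_one_iff, map_mul, map_inv₀, inv_mul_le_iff₀ (zero_lt_iff.2 hvc), mul_one]
    exact hmax j (Finset.mem_univ _)
  let e : Fin (d + 1) → O := fun j => ⟨(c j₀)⁻¹ * c j, hO j⟩
  let z : BO h hE := ∑ j, ⟨(e j : k) • (y j : B), smul_mem_BO h hE (e j).2 (y j).2⟩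
  have hz : (z : B) = ∑ j, (e j : k) • (y j : B) := by
    change (BO h hE).subtype z = _
    rw [map_sum]
    rfl
  have hzI : (z : B) ∈ I := by
    rw [hz, ← Ideal.Quotient.eq_zero_iff_mem, map_sum]
    have h2 : ∀ j, Ideal.Quotient.mk I ((e j : k) • (y j : B)) =
        (c j₀)⁻¹ • (c j • Ideal.Quotient.mk I (y j : B)) := by
      intro j
      rw [smul_smul]
      rfl
    rw [Finset.sum_congr rfl fun j _ => h2 j, ← Finset.smul_sum, hc0, smul_zero]
  have h3 : Ideal.Quotient.mk (redI h hE I) (Ideal.Quotient.mk (mB h hE) z) = 0 := by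
    rw [Ideal.Quotient.eq_zero_iff_mem, mem_redI]
    exact ⟨z, hzI, rfl⟩
  have h4 : ∑ j, IsLocalRing.residue O (e j) • v j = 0 := by
    rw [← h3]
    simp only [z]
    rw [map_sum, map_sum]
    refine Finset.sum_congr rfl fun j _ => ?_
    rw [mk_smul, ← hy j]
    rfl
  have h5 := Fintype.linearIndependent_iff.1 hv _ h4 j₀
  rw [residue_eq_zero_iff_val] at h5
  change O.valuation ((c j₀)⁻¹ * c j₀) < 1 at h5
  rw [inv_mul_cancel₀ hcj₀, map_one] at h5
  exact lt_irrefl _ h5

/-- A point of the curve, given by an evaluation map, is finite if integral elements take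
integral values. -/
def FinPt (h : OnePt k B deg) (hE : IntBasis O deg E) (P : B →ₐ[k] k) : Prop :=
  ∀ b ∈ BO h hE, P b ∈ O

omit [IsDomain B] in
theorem finrank_ker (P : B →ₐ[k] k) : finrank k (B ⧸ RingHom.ker P) = 1 := by
  have hsurj : Function.Surjective P := fun c => ⟨algebraMap k B c, P.commutes c⟩
  have e := Ideal.quotientKerAlgEquivOfSurjective hsurj
  rw [e.toLinearEquiv.finrank_eq, finrank_self]

theorem ker_ne_bot (h : OnePt k B deg) (P : B →ₐ[k] k) : RingHom.ker P ≠ ⊥ := by
  obtain ⟨N, hN⟩ := h.exists_large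
  obtain ⟨b, hb, hbd⟩ := hN (N + 1) (by omega)
  intro h0
  have h1 : b - algebraMap k B (P b) ∈ RingHom.ker P := by
    rw [RingHom.mem_ker, map_sub, P.commutes]
    exact sub_self _
  rw [h0, Ideal.mem_bot, sub_eq_zero] at h1
  have h2 := h.deg_const (P b)
  rw [← h1, hbd] at h2
  omega

/-- For a point which is not finite there is a function vanishing there and reducing to `1`. -/
theorem exists_one (h : OnePt k B deg) (hE : IntBasis O deg E) {P : B →ₐ[k] k}
    (hP : ¬ FinPt h hE P) : ∃ e : BO h hE, P (e : B) = 0 ∧ e - 1 ∈ mB h hE := by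
  unfold FinPt at hP
  push Not at hP
  obtain ⟨b, hb, hPb⟩ := hP
  have hP0 : P b ≠ 0 := by
    intro h0
    rw [h0] at hPb
    exact hPb O.zero_mem
  have hv : O.valuation (P b)⁻¹ < 1 := by
    rw [← O.valuation_le_one_iff, not_le] at hPb
    rw [map_inv₀]
    exact inv_lt_one_of_one_lt₀ hPb
  have hc : (P b)⁻¹ ∈ O := (O.valuation_le_one_iff _).1 hv.le
  refine ⟨1 - ⟨(P b)⁻¹ • b, smul_mem_BO h hE hc hb⟩, ?_, ?_⟩
  · change P (1 - (P b)⁻¹ • b) = 0
    rw [map_sub, map_one, map_smul, smul_eq_mul, inv_mul_cancel₀ hP0, sub_self]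
  · rw [mem_mB]
    intro i
    have h1 : ((1 - ⟨(P b)⁻¹ • b, smul_mem_BO h hE hc hb⟩ - 1 : BO h hE) : B) = - ((P b)⁻¹ • b) := by
      change (1 : B) - (P b)⁻¹ • b - 1 = _
      ring
    rw [h1, map_neg, Finsupp.neg_apply, Valuation.map_neg, map_smul, Finsupp.smul_apply,
      smul_eq_mul, map_mul]
    have h2 := (O.valuation_le_one_iff _).2 (mem_BO.1 hb i)
    calc O.valuation (P b)⁻¹ * O.valuation (E.repr b i) ≤ O.valuation (P b)⁻¹ * 1 := by gcongr
      _ < 1 := by rwa [mul_one]

theorem redI_mul_inf (h : OnePt k B deg) (hE : IntBasis O deg E) {P : B →ₐ[k] k}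
    (hP : ¬ FinPt h hE P) (I : Ideal B) : redI h hE (I * RingHom.ker P) = redI h hE I := by
  refine le_antisymm (redI_mono h hE Ideal.mul_le_left) ?_
  obtain ⟨e, he, he1⟩ := exists_one h hE hP
  intro x hx
  obtain ⟨y, hy, rfl⟩ := (mem_redI h hE).1 hx
  refine (mem_redI h hE).2 ⟨y * e, Ideal.mul_mem_mul hy he, ?_⟩
  have h1 : Ideal.Quotient.mk (mB h hE) e = 1 := by
    rw [← map_one (Ideal.Quotient.mk (mB h hE)), Ideal.Quotient.eq]
    exact he1
  rw [map_mul, h1, mul_one]

/-- unit leading coefficient -/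
def UL (h : OnePt k B deg) (hE : IntBasis O deg E) (b : BO h hE) : Prop :=
  ∃ i : degSet deg, (i : ℕ) = deg (b : B) ∧ O.valuation (E.repr (b : B) i) = 1

theorem UL.ne_zero {h : OnePt k B deg} {hE : IntBasis O deg E} {b : BO h hE} (hb : UL h hE b) :
    (b : B) ≠ 0 := by
  obtain ⟨i, hi, hv⟩ := hb
  intro h0
  rw [h0] at hv
  simp at hv

theorem UL.notMem {h : OnePt k B deg} {hE : IntBasis O deg E} {b : BO h hE} (hb : UL h hE b) :
    b ∉ mB h hE := by
  obtain ⟨i, hi, hv⟩ := hb
  intro h0
  have := mem_mB.1 h0 i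
  rw [hv] at this
  exact lt_irrefl _ this

theorem lead_unit (hE : IntBasis O deg E) {m m' i : degSet deg} (hi : (i : ℕ) = m + m')
    (h : OnePt k B deg) :
    O.valuation (E.repr (E m * E m') i) = 1 := by
  have h1 := (O.valuation_le_one_iff _).2 (hE.int m m' i)
  have h2 := (O.valuation_le_one_iff _).2 (hE.lead m m' i hi)
  have h3 : E.repr (E m * E m') i ≠ 0 := by
    have hne : E m * E m' ≠ 0 := mul_ne_zero (E.ne_zero m) (E.ne_zero m')
    obtain ⟨p, hp, hp0⟩ := exists_degOf E hne
    have h4 : i = p := by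
      apply Subtype.ext
      rw [hi, hp, ← deg_eq_degOf h hE.deg_E, h.deg_mul _ _ (E.ne_zero m) (E.ne_zero m'), hE.deg_E,
        hE.deg_E]
    rw [h4]
    exact hp0
  have h5 : O.valuation (E.repr (E m * E m') i) ≠ 0 := by simpa using h3
  rw [map_inv₀] at h2
  exact le_antisymm h1 ((inv_le_one₀ (zero_lt_iff.2 h5)).1 h2)

theorem repr_mul_lead' (h : OnePt k B deg) (hE : IntBasis O deg E) {a b : B}
    {p q i : degSet deg} (hp : (p : ℕ) = deg a) (hq : (q : ℕ) = deg b) (hi : (i : ℕ) = p + q) :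
    E.repr (a * b) i = (E.repr a p * E.repr b q) * E.repr (E p * E q) i := by
  refine repr_mul_lead E ?_ ?_ ?_ hi
  · intro m m' i hi
    exact repr_mul_eq_zero h hE.deg_E hi
  · rw [hp, deg_eq_degOf h hE.deg_E]
  · rw [hq, deg_eq_degOf h hE.deg_E]

theorem UL.mul {h : OnePt k B deg} {hE : IntBasis O deg E} {a b : BO h hE} (ha : UL h hE a)
    (hb : UL h hE b) : UL h hE (a * b) := by
  obtain ⟨p, hp, hpv⟩ := id ha
  obtain ⟨q, hq, hqv⟩ := id hb
  have hd : deg ((a * b : BO h hE) : B) = p + q := by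
    rw [Subring.coe_mul, h.deg_mul _ _ ha.ne_zero hb.ne_zero, hp, hq]
  refine ⟨⟨p + q, h.degSet_add p.2 q.2⟩, hd.symm, ?_⟩
  rw [Subring.coe_mul, repr_mul_lead' h hE hp hq rfl, map_mul, map_mul, hpv, hqv,
    lead_unit hE rfl h]
  simp

theorem E_mem (h : OnePt k B deg) (hE : IntBasis O deg E) (m : degSet deg) : E m ∈ BO h hE := by
  classical
  rw [mem_BO]
  intro i
  rw [E.repr_self, Finsupp.single_apply]
  split_ifs
  · exact O.one_mem
  · exact O.zero_mem

theorem UL_E (h : OnePt k B deg) (hE : IntBasis O deg E) (m : degSet deg) :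
    UL h hE ⟨E m, E_mem h hE m⟩ := by
  classical
  refine ⟨m, (hE.deg_E m).symm, ?_⟩
  change O.valuation (E.repr (E m) m) = 1
  rw [E.repr_self, Finsupp.single_eq_same, map_one]

/-- A finite point is a zero of an element with unit leading coefficient of any given degree. -/
theorem exists_UL (h : OnePt k B deg) (hE : IntBasis O deg E) {P : B →ₐ[k] k}
    (hP : FinPt h hE P) (m : degSet deg) (hm : 0 < (m : ℕ)) :
    ∃ b : BO h hE, P (b : B) = 0 ∧ UL h hE b ∧ deg (b : B) = m := by
  classical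
  have hc : P (E m) ∈ O := hP _ (E_mem h hE m)
  have h1 : (1 : B) = E ⟨0, zero_mem_degSet h⟩ := (hE.one _ rfl).symm
  have hd : deg (E m - P (E m) • (1 : B)) = m := by
    rw [sub_eq_add_neg, h.deg_add_of_lt, hE.deg_E]
    rw [h.deg_neg, hE.deg_E]
    have := h.deg_smul_le (P (E m)) 1
    rw [h.deg_one] at this
    omega
  refine ⟨⟨E m, E_mem h hE m⟩ - ⟨P (E m) • (1 : B), smul_mem_BO h hE hc (BO h hE).one_mem⟩, ?_, ?_, hd⟩
  · change P (E m - P (E m) • (1 : B)) = 0
    rw [map_sub, map_smul, map_one, smul_eq_mul, mul_one, sub_self]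
  · refine ⟨m, hd.symm, ?_⟩
    change O.valuation (E.repr (E m - P (E m) • (1 : B)) m) = 1
    rw [map_sub, map_smul, Finsupp.sub_apply, Finsupp.smul_apply, h1, E.repr_self, E.repr_self,
      Finsupp.single_eq_same, Finsupp.single_apply, if_neg, smul_zero, sub_zero, map_one]
    intro h2
    have h3 := congrArg (fun x : degSet deg => (x : ℕ)) h2
    simp only at h3
    omega

/-- Division with remainder by an element with unit leading coefficient. -/
theorem div_UL (h : OnePt k B deg) (hE : IntBasis O deg E) {f : BO h hE} (hf : UL h hE f) :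
    ∃ N : ℕ, ∀ b : BO h hE, ∃ q r : BO h hE, b = f * q + r ∧ deg (r : B) ≤ N := by
  obtain ⟨N, hN⟩ := h.exists_large
  refine ⟨deg (f : B) + N, ?_⟩
  have key : ∀ n : ℕ, ∀ b : BO h hE, deg (b : B) = n → ∃ q r : BO h hE, b = f * q + r ∧
      deg (r : B) ≤ deg (f : B) + N := by
    intro n
    induction n using Nat.strong_induction_on with
    | _ n ih =>
      intro b hb
      by_cases hn : n ≤ deg (f : B) + N
      · exact ⟨0, b, by rw [mul_zero, zero_add], by omega⟩
      push Not at hn
      have hmem : n - deg (f : B) ∈ degSet deg := hN _ (by omega)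
      set m : degSet deg := ⟨n - deg (f : B), hmem⟩ with hm
      have hfE := hf.mul (UL_E h hE m)
      obtain ⟨i, hi, hiv⟩ := hfE
      have hdE : deg ((f * ⟨E m, E_mem h hE m⟩ : BO h hE) : B) = n := by
        rw [Subring.coe_mul, h.deg_mul _ _ hf.ne_zero (E.ne_zero m)]
        change _ + deg (E m) = n
        rw [hE.deg_E, hm]
        change deg (f : B) + (n - deg (f : B)) = n
        omega
      set g : BO h hE := f * ⟨E m, E_mem h hE m⟩ with hg
      set u := E.repr (g : B) i with hu
      have hu0 : u ≠ 0 := by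
        intro h0
        rw [h0, map_zero] at hiv
        exact zero_ne_one hiv
      have hc : E.repr (b : B) i * u⁻¹ ∈ O := by
        refine O.mul_mem _ _ (b.2 i) ?_
        rw [← O.valuation_le_one_iff, map_inv₀, hiv, inv_one]
      set c := E.repr (b : B) i * u⁻¹ with hcdef
      let b' : BO h hE := b - ⟨c • (g : B), smul_mem_BO h hE hc g.2⟩
      have hb' : (b' : B) = (b : B) - c • (g : B) := rfl
      have hrepr0 : E.repr (b' : B) i = 0 := by
        rw [hb', map_sub, map_smul, Finsupp.sub_apply, Finsupp.smul_apply, smul_eq_mul, ← hu, hcdef,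
          mul_assoc, inv_mul_cancel₀ hu0, mul_one, sub_self]
      have hle : deg (b' : B) ≤ n := by
        rw [hb']
        refine (h.deg_sub _ _).trans (max_le hb.le ?_)
        exact (h.deg_smul_le _ _).trans hdE.le
      have hlt : deg (b' : B) < n := by
        refine lt_of_le_of_ne hle ?_
        intro heq
        have hb0 : (b' : B) ≠ 0 := by
          intro h0
          rw [h0, h.deg_zero] at heq
          omega
        obtain ⟨p, hp, hp0⟩ := exists_degOf E hb0
        have : p = i := by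
          apply Subtype.ext
          rw [hp, ← deg_eq_degOf h hE.deg_E, heq, hi, hdE]
        rw [this, hrepr0] at hp0
        exact hp0 rfl
      obtain ⟨q, r, hqr, hr⟩ := ih _ hlt b' rfl
      refine ⟨q + ⟨c • E m, smul_mem_BO h hE hc (E_mem h hE m)⟩, r, ?_, hr⟩
      have h2 : b = b' + ⟨c • (g : B), smul_mem_BO h hE hc g.2⟩ := by
        change b = b - _ + _
        ring
      have h3 : (⟨c • (g : B), smul_mem_BO h hE hc g.2⟩ : BO h hE) =
          f * ⟨c • E m, smul_mem_BO h hE hc (E_mem h hE m)⟩ := by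
        apply Subtype.ext
        change c • ((f : B) * E m) = (f : B) * (c • E m)
        rw [mul_smul_comm]
      rw [h2, h3, hqr]
      ring
  exact fun b => key _ b rfl

/-- The constants in `O` act on `B`. -/
@[reducible] def algO (O : ValuationSubring k) (B : Type v) [CommRing B] [Algebra k B] :
    Algebra O B := ((algebraMap k B).comp O.subtype).toAlgebra

/-- For ideals containing an element with unit leading coefficient the colength does not drop. -/
theorem le_finrank_redI (h : OnePt k B deg) (hE : IntBasis O deg E) {I : Ideal B}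
    {f : BO h hE} (hf : UL h hE f) (hfI : (f : B) ∈ I)
    [Module.Finite (IsLocalRing.ResidueField O) (Bbar h hE ⧸ redI h hE I)] :
    finrank k (B ⧸ I) ≤ finrank (IsLocalRing.ResidueField O) (Bbar h hE ⧸ redI h hE I) := by
  classical
  let _ : Algebra O B := algO O B
  have hsm : ∀ (c : O) (b : B), c • b = (c : k) • b := fun c b => by
    rw [Algebra.smul_def, Algebra.smul_def]; rfl
  set κ := IsLocalRing.ResidueField O
  set e := finrank κ (Bbar h hE ⧸ redI h hE I) with he
  let v := Module.finBasis κ (Bbar h hE ⧸ redI h hE I)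
  have hlift : ∀ j, ∃ y : BO h hE, Ideal.Quotient.mk (redI h hE I)
      (Ideal.Quotient.mk (mB h hE) y) = v j := by
    intro j
    obtain ⟨z, hz⟩ := Ideal.Quotient.mk_surjective (v j)
    obtain ⟨y, hy⟩ := Ideal.Quotient.mk_surjective z
    exact ⟨y, by rw [hy, hz]⟩
  choose y hy using hlift
  obtain ⟨N, hN⟩ := div_UL h hE hf
  let M0 : Submodule O B := Submodule.span O ((fun i => E i) '' {i : degSet deg | (i : ℕ) ≤ N})
  let I' : Submodule O B :=
    { carrier := {b | b ∈ I}
      add_mem' := fun ha hb => I.add_mem ha hb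
      zero_mem' := I.zero_mem
      smul_mem' := fun c b hb => by
        change c • b ∈ I
        rw [Algebra.smul_def]
        exact I.mul_mem_left _ hb }
  let N' : Submodule O B := Submodule.span O (Set.range fun j => (y j : B)) ⊔ I'
  have hM0 : M0.FG := by
    refine Submodule.fg_span (Set.Finite.image _ ?_)
    exact Set.Finite.of_finite_image ((Set.finite_le_nat N).subset (by
      rintro _ ⟨i, hi, rfl⟩; exact hi)) Subtype.val_injective.injOn
  -- integral elements of small degree
  have hsmall : ∀ r : BO h hE, deg (r : B) ≤ N → (r : B) ∈ M0 := by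
    intro r hr
    have h1 : (r : B) = ∑ i ∈ (E.repr (r : B)).support, E.repr (r : B) i • E i := by
      conv_lhs => rw [← E.linearCombination_repr (r : B)]
      rfl
    rw [h1]
    refine M0.sum_mem fun i hi => ?_
    have h2 : E.repr (r : B) i • E i = (⟨E.repr (r : B) i, r.2 i⟩ : O) • E i :=
      (hsm ⟨E.repr (r : B) i, r.2 i⟩ (E i)).symm
    rw [h2]
    refine M0.smul_mem _ (Submodule.subset_span ⟨i, ?_, rfl⟩)
    change (i : ℕ) ≤ N
    refine le_trans ?_ hr
    rw [deg_eq_degOf h hE.deg_E]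
    exact Finset.le_sup (f := fun i : degSet deg => (i : ℕ)) hi
  have hall : ∀ b : BO h hE, (b : B) ∈ M0 ⊔ I' := by
    intro b
    obtain ⟨q, r, hqr, hr⟩ := hN b
    rw [hqr, Subring.coe_add, Subring.coe_mul]
    refine Submodule.add_mem _ (Submodule.mem_sup_right ?_) (Submodule.mem_sup_left (hsmall r hr))
    exact I.mul_mem_right _ hfI
  have hmB : ∀ μ : BO h hE, μ ∈ mB h hE →
      (μ : B) ∈ I' ⊔ (IsLocalRing.maximalIdeal O) • M0 := by
    intro μ hμ
    by_cases hμ0 : (μ : B) = 0
    · rw [hμ0]; exact Submodule.zero_mem _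
    obtain ⟨c, μ', hc, hμ', hμc, -, i, hi⟩ := exists_prim h hE hμ0
    have hcv : O.valuation c < 1 := by rw [← hi]; exact mem_mB.1 hμ i
    have hcO : c ∈ O := (O.valuation_le_one_iff _).1 hcv.le
    have hcm : (⟨c, hcO⟩ : O) ∈ IsLocalRing.maximalIdeal O := (O.valuation_lt_one_iff _).2 hcv
    obtain ⟨q, r, hqr, hr⟩ := hN μ'
    have h1 : (μ : B) = (⟨c, hcO⟩ : O) • ((f : B) * (q : B)) + (⟨c, hcO⟩ : O) • (r : B) := by
      rw [hμc, hqr, ← smul_add, hsm]
      rfl
    rw [h1]
    refine Submodule.add_mem _ (Submodule.mem_sup_left ?_) (Submodule.mem_sup_right ?_)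
    · exact I'.smul_mem _ (I.mul_mem_right _ hfI)
    · exact Submodule.smul_mem_smul hcm (hsmall r hr)
  have hNak : M0 ≤ N' := by
    refine Submodule.le_of_le_smul_of_le_jacobson_bot (I := IsLocalRing.maximalIdeal O) hM0
      (IsLocalRing.maximalIdeal_le_jacobson _) ?_
    refine Submodule.span_le.2 ?_
    rintro _ ⟨i, hi, rfl⟩
    have hEi := E_mem h hE i
    have h1 := v.sum_repr (Ideal.Quotient.mk (redI h hE I)
      (Ideal.Quotient.mk (mB h hE) ⟨E i, hEi⟩))
    have h2 : ∀ j, ∃ c : O, IsLocalRing.residue O c = v.repr (Ideal.Quotient.mk (redI h hE I)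
      (Ideal.Quotient.mk (mB h hE) ⟨E i, hEi⟩)) j := fun j => IsLocalRing.residue_surjective _
    choose c hc using h2
    let z : BO h hE := ∑ j, ⟨(c j : k) • (y j : B), smul_mem_BO h hE (c j).2 (y j).2⟩
    have hz : (z : B) = ∑ j, (c j : k) • (y j : B) := by
      change (BO h hE).subtype z = _
      rw [map_sum]
      rfl
    have h3 : Ideal.Quotient.mk (redI h hE I) (Ideal.Quotient.mk (mB h hE) z) =
        Ideal.Quotient.mk (redI h hE I) (Ideal.Quotient.mk (mB h hE) ⟨E i, hEi⟩) := by
      rw [← h1]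
      simp only [z]
      rw [map_sum, map_sum]
      refine Finset.sum_congr rfl fun j _ => ?_
      rw [mk_smul, ← hc j, ← hy j]
      rfl
    rw [Ideal.Quotient.eq, ← map_sub, mem_redI] at h3
    obtain ⟨w, hwI, hw⟩ := h3
    rw [Ideal.Quotient.eq] at hw
    have h4 := hmB _ hw
    -- `E i = z + w' + μ`
    have h5 : E i = (z : B) - (w : B) + ((w - (z - ⟨E i, hEi⟩) : BO h hE) : B) := by
      change E i = (z : B) - (w : B) + ((w : B) - ((z : B) - E i))
      ring
    change E i ∈ N' ⊔ (IsLocalRing.maximalIdeal O) • M0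
    rw [h5]
    refine Submodule.add_mem _ (Submodule.sub_mem _ (Submodule.mem_sup_left ?_)
      (Submodule.mem_sup_left ?_)) ?_
    · refine Submodule.mem_sup_left ?_
      rw [hz]
      refine Submodule.sum_mem _ fun j _ => ?_
      rw [← hsm]
      exact Submodule.smul_mem _ _ (Submodule.subset_span ⟨j, rfl⟩)
    · exact Submodule.mem_sup_right hwI
    · have h6 : I' ⊔ (IsLocalRing.maximalIdeal O) • M0 ≤ N' ⊔ (IsLocalRing.maximalIdeal O) • M0 :=
        sup_le_sup_right le_sup_right _
      exact h6 h4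
  -- the images of the `y j` span
  have hspan : ⊤ ≤ Submodule.span k (Set.range fun j => Ideal.Quotient.mk I (y j : B)) := by
    set S : Submodule k (B ⧸ I) := Submodule.span k (Set.range fun j => Ideal.Quotient.mk I (y j : B))
      with hS
    have hN'S : ∀ b ∈ N', Ideal.Quotient.mk I b ∈ S := by
      intro b hb
      obtain ⟨b1, hb1, b2, hb2, rfl⟩ := Submodule.mem_sup.1 hb
      rw [map_add, Ideal.Quotient.eq_zero_iff_mem.2 hb2, add_zero]
      clear hb
      induction hb1 using Submodule.span_induction with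
      | mem x hx =>
        obtain ⟨j, rfl⟩ := hx
        exact Submodule.subset_span ⟨j, rfl⟩
      | zero => rw [map_zero]; exact S.zero_mem
      | add x y _ _ hx hy =>
        rw [map_add]
        exact S.add_mem hx hy
      | smul c x hx' hx =>
        rw [hsm]
        exact S.smul_mem (c : k) hx
    intro x _
    obtain ⟨b, rfl⟩ := Ideal.Quotient.mk_surjective x
    have hb : b = ∑ i ∈ (E.repr b).support, E.repr b i • E i := by
      conv_lhs => rw [← E.linearCombination_repr b]
      rfl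
    rw [hb, map_sum]
    refine S.sum_mem fun i _ => ?_
    have h1 : Ideal.Quotient.mk I (E.repr b i • E i) = E.repr b i • Ideal.Quotient.mk I (E i) := rfl
    rw [h1]
    refine S.smul_mem _ (hN'S _ ?_)
    have h2 := hall ⟨E i, E_mem h hE i⟩
    exact (sup_le hNak le_sup_right : M0 ⊔ I' ≤ N') h2
  have h6 : finrank k (B ⧸ I) ≤ Fintype.card (Fin e) := by
    rw [← finrank_top k (B ⧸ I), ← top_le_iff.1 hspan]
    exact finrank_range_le_card _
  rwa [Fintype.card_fin] at h6

theorem UL_one (h : OnePt k B deg) (hE : IntBasis O deg E) : UL h hE 1 := by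
  have h1 := UL_E h hE ⟨0, zero_mem_degSet h⟩
  have h2 : (⟨E ⟨0, zero_mem_degSet h⟩, E_mem h hE _⟩ : BO h hE) = 1 :=
    Subtype.ext (hE.one _ rfl)
  rwa [h2] at h1

/-- Every maximal ideal is the kernel of an evaluation. -/
theorem exists_point [IsAlgClosed k] (h : OnePt k B deg) {p : Ideal B} (hp : p.IsMaximal)
    (hp0 : p ≠ ⊥) : ∃ P : B →ₐ[k] k, RingHom.ker P = p := by
  have hfin := h.finite_quot hp0
  let _ : Field (B ⧸ p) := Ideal.Quotient.field p
  have hbij : Function.Bijective (algebraMap k (B ⧸ p)) :=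
    IsAlgClosed.algebraMap_bijective_of_isIntegral
  let e : k ≃ₐ[k] (B ⧸ p) := AlgEquiv.ofBijective (Algebra.ofId k (B ⧸ p)) hbij
  refine ⟨(e.symm : (B ⧸ p) →ₐ[k] k).comp (Ideal.Quotient.mkₐ k p), ?_⟩
  ext b
  rw [RingHom.mem_ker]
  change e.symm (Ideal.Quotient.mk p b) = 0 ↔ _
  rw [EmbeddingLike.map_eq_zero_iff, Ideal.Quotient.eq_zero_iff_mem]

/-- Every nonzero ideal is a product of kernels of evaluations. -/
theorem exists_prod [IsAlgClosed k] [IsDedekindDomain B] (h : OnePt k B deg) {I : Ideal B}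
    (hI : I ≠ ⊥) : ∃ s : Multiset (B →ₐ[k] k), I = (s.map fun P => RingHom.ker P).prod := by
  induction I using UniqueFactorizationMonoid.induction_on_prime with
  | h₁ => exact absurd rfl hI
  | h₂ I hu =>
    refine ⟨0, ?_⟩
    rw [Multiset.map_zero, Multiset.prod_zero, Ideal.one_eq_top]
    exact Ideal.isUnit_iff.1 hu
  | h₃ I p hI0 hp ih =>
    obtain ⟨s, hs⟩ := ih hI0
    have hp0 : p ≠ ⊥ := hp.ne_zero
    have hpp : p.IsPrime := Ideal.isPrime_of_prime hp
    obtain ⟨P, hP⟩ := exists_point h (hpp.isMaximal hp0) hp0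
    exact ⟨P ::ₘ s, by rw [Multiset.map_cons, Multiset.prod_cons, hP, ← hs]⟩

theorem prod_ker_ne_bot [IsDedekindDomain B] (h : OnePt k B deg) (s : Multiset (B →ₐ[k] k)) :
    (s.map fun P => RingHom.ker P).prod ≠ ⊥ := by
  induction s using Multiset.induction_on with
  | empty =>
    rw [Multiset.map_zero, Multiset.prod_zero, Ideal.one_eq_top]
    exact top_ne_bot
  | cons P s ih =>
    rw [Multiset.map_cons, Multiset.prod_cons]
    exact mul_ne_zero (ker_ne_bot h P) ih

theorem finrank_prod_ker [IsDedekindDomain B] (h : OnePt k B deg) (s : Multiset (B →ₐ[k] k)) :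
    finrank k (B ⧸ (s.map fun P => RingHom.ker P).prod) = s.card := by
  induction s using Multiset.induction_on with
  | empty =>
    rw [Multiset.map_zero, Multiset.prod_zero, Ideal.one_eq_top, Multiset.card_zero]
    have : Subsingleton (B ⧸ (⊤ : Ideal B)) := Ideal.Quotient.subsingleton_iff.2 rfl
    exact finrank_zero_of_subsingleton
  | cons P s ih =>
    rw [Multiset.map_cons, Multiset.prod_cons, h.finrank_mul' (ker_ne_bot h P) (prod_ker_ne_bot h s),
      ih, finrank_ker, Multiset.card_cons, add_comm]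

theorem exists_UL_prod (h : OnePt k B deg) (hE : IntBasis O deg E) (s : Multiset (B →ₐ[k] k))
    (hs : ∀ P ∈ s, FinPt h hE P) :
    ∃ f : BO h hE, UL h hE f ∧ (f : B) ∈ (s.map fun P => RingHom.ker P).prod := by
  induction s using Multiset.induction_on with
  | empty =>
    refine ⟨1, UL_one h hE, ?_⟩
    rw [Multiset.map_zero, Multiset.prod_zero, Ideal.one_eq_top]
    exact Submodule.mem_top
  | cons P s ih =>
    obtain ⟨f, hf, hfm⟩ := ih fun Q hQ => hs Q (Multiset.mem_cons_of_mem hQ)
    obtain ⟨N, hN⟩ := h.exists_large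
    obtain ⟨b, hb0, hb, -⟩ := exists_UL h hE (hs P (Multiset.mem_cons_self P s))
      ⟨N + 1, hN _ (by omega)⟩ (by simp)
    refine ⟨b * f, hb.mul hf, ?_⟩
    rw [Multiset.map_cons, Multiset.prod_cons]
    exact Ideal.mul_mem_mul hb0 hfm

theorem eq_of_finrank_quot {κ : Type*} {R : Type*} [Field κ] [CommRing R] [Algebra κ R]
    {I J : Ideal R} (hIJ : I ≤ J) [Module.Finite κ (R ⧸ I)]
    (hfr : finrank κ (R ⧸ I) ≤ finrank κ (R ⧸ J)) : I = J := by
  refine le_antisymm hIJ fun x hx => ?_
  let φ : (R ⧸ I) →ₗ[κ] (R ⧸ J) := (Ideal.Quotient.factorₐ κ hIJ).toLinearMap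
  have hsurj : Function.Surjective φ := Ideal.Quotient.factor_surjective hIJ
  have hfin : Module.Finite κ (R ⧸ J) := Module.Finite.of_surjective φ hsurj
  have heq : finrank κ (R ⧸ I) = finrank κ (R ⧸ J) :=
    le_antisymm hfr (LinearMap.finrank_le_finrank_of_surjective hsurj)
  have hinj : Function.Injective φ :=
    (LinearMap.injective_iff_surjective_of_finrank_eq_finrank heq).2 hsurj
  rw [← Ideal.Quotient.eq_zero_iff_mem]
  apply hinj
  rw [map_zero]
  change Ideal.Quotient.factor hIJ (Ideal.Quotient.mk I x) = 0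
  rw [Ideal.Quotient.factor_mk, Ideal.Quotient.eq_zero_iff_mem]
  exact hx

section Ded

variable [IsAlgClosed k] [IsDedekindDomain B] (h : OnePt k B deg) (hE : IntBasis O deg E)
  [IsDedekindDomain (Bbar h hE)]

theorem redI_prod_fin (s : Multiset (B →ₐ[k] k)) (hs : ∀ P ∈ s, FinPt h hE P) :
    redI h hE (s.map fun P => RingHom.ker P).prod =
      (s.map fun P => redI h hE (RingHom.ker P)).prod ∧
    finrank (IsLocalRing.ResidueField O)
      (Bbar h hE ⧸ redI h hE (s.map fun P => RingHom.ker P).prod) = s.card := by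
  obtain ⟨hdom, degb, hdb, hset, hle, hiff⟩ := exists_degbar h hE
  have hRle : (s.map fun P => redI h hE (RingHom.ker P)).prod ≤
      redI h hE (s.map fun P => RingHom.ker P).prod := by
    clear hs
    induction s using Multiset.induction_on with
    | empty =>
      rw [Multiset.map_zero, Multiset.map_zero, Multiset.prod_zero, Multiset.prod_zero,
        Ideal.one_eq_top, Ideal.one_eq_top, redI_top]
    | cons P s ih =>
      rw [Multiset.map_cons, Multiset.map_cons, Multiset.prod_cons, Multiset.prod_cons]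
      exact (Ideal.mul_mono_right ih).trans (redI_mul_le h hE _ _)
  have hR0 : (s.map fun P => redI h hE (RingHom.ker P)).prod ≠ ⊥ ∧
      finrank (IsLocalRing.ResidueField O) (Bbar h hE ⧸ (s.map fun P => redI h hE (RingHom.ker P)).prod) ≤ s.card := by
    clear hs hRle
    induction s using Multiset.induction_on with
    | empty =>
      rw [Multiset.map_zero, Multiset.prod_zero, Ideal.one_eq_top]
      refine ⟨top_ne_bot, ?_⟩
      have : Subsingleton (Bbar h hE ⧸ (⊤ : Ideal (Bbar h hE))) :=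
        Ideal.Quotient.subsingleton_iff.2 rfl
      rw [finrank_zero_of_subsingleton]
      exact Nat.zero_le _
    | cons P s ih =>
      rw [Multiset.map_cons, Multiset.prod_cons]
      have h1 := redI_ne_bot' h hE (ker_ne_bot h P)
      refine ⟨mul_ne_zero h1 ih.1, ?_⟩
      rw [hdb.finrank_mul' h1 ih.1, Multiset.card_cons]
      have h2 := finrank_redI' h hE (ker_ne_bot h P)
      rw [finrank_ker] at h2
      have := ih.2
      omega
  have hfin : Module.Finite (IsLocalRing.ResidueField O) (Bbar h hE ⧸ (s.map fun P => redI h hE (RingHom.ker P)).prod) :=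
    hdb.finite_quot hR0.1
  have hfin2 : Module.Finite (IsLocalRing.ResidueField O) (Bbar h hE ⧸ redI h hE (s.map fun P => RingHom.ker P).prod) :=
    hdb.finite_quot (redI_ne_bot' h hE (prod_ker_ne_bot h s))
  obtain ⟨f, hf, hfm⟩ := exists_UL_prod h hE s hs
  have h3 := le_finrank_redI h hE hf hfm
  rw [finrank_prod_ker h s] at h3
  have h4 : finrank (IsLocalRing.ResidueField O) (Bbar h hE ⧸ (s.map fun P => redI h hE (RingHom.ker P)).prod) ≤
      finrank (IsLocalRing.ResidueField O) (Bbar h hE ⧸ redI h hE (s.map fun P => RingHom.ker P).prod) := hR0.2.trans h3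
  have h5 := eq_of_finrank_quot hRle h4
  refine ⟨h5.symm, le_antisymm ?_ h3⟩
  rw [← h5]
  exact hR0.2

theorem redI_mul_prod_inf (I : Ideal B) (s : Multiset (B →ₐ[k] k))
    (hs : ∀ P ∈ s, ¬ FinPt h hE P) :
    redI h hE (I * (s.map fun P => RingHom.ker P).prod) = redI h hE I := by
  induction s using Multiset.induction_on with
  | empty => rw [Multiset.map_zero, Multiset.prod_zero, mul_one]
  | cons P s ih =>
    rw [Multiset.map_cons, Multiset.prod_cons, mul_comm (RingHom.ker P), ← mul_assoc,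
      redI_mul_inf h hE (hs P (Multiset.mem_cons_self P s)),
      ih fun Q hQ => hs Q (Multiset.mem_cons_of_mem hQ)]

open Classical in
theorem redI_prod (s : Multiset (B →ₐ[k] k)) :
    redI h hE (s.map fun P => RingHom.ker P).prod =
      ((s.filter fun P => FinPt h hE P).map fun P => redI h hE (RingHom.ker P)).prod ∧
    finrank (IsLocalRing.ResidueField O)
      (Bbar h hE ⧸ redI h hE (s.map fun P => RingHom.ker P).prod) =
        (s.filter fun P => FinPt h hE P).card := by
  have h1 : (s.map fun P => RingHom.ker P).prod =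
      ((s.filter fun P => FinPt h hE P).map fun P => RingHom.ker P).prod *
      ((s.filter fun P => ¬ FinPt h hE P).map fun P => RingHom.ker P).prod := by
    rw [← Multiset.prod_add, ← Multiset.map_add, Multiset.filter_add_not]
  rw [h1, redI_mul_prod_inf h hE _ _ fun P hP => (Multiset.mem_filter.1 hP).2]
  exact redI_prod_fin h hE _ fun P hP => (Multiset.mem_filter.1 hP).2

/-- R4b.  Reduction of ideals is multiplicative. -/
theorem redI_mul {I J : Ideal B} (hI : I ≠ ⊥) (hJ : J ≠ ⊥) :
    redI h hE (I * J) = redI h hE I * redI h hE J := by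
  classical
  obtain ⟨s, rfl⟩ := exists_prod h hI
  obtain ⟨t, rfl⟩ := exists_prod h hJ
  rw [← Multiset.prod_add, ← Multiset.map_add, (redI_prod h hE (s + t)).1, (redI_prod h hE s).1,
    (redI_prod h hE t).1, Multiset.filter_add, Multiset.map_add, Multiset.prod_add]

omit [IsAlgClosed k] [IsDedekindDomain B] [IsDedekindDomain (Bbar h hE)] in
theorem redI_ne_bot {I : Ideal B} (hI : I ≠ ⊥) : redI h hE I ≠ ⊥ := redI_ne_bot' h hE hI

omit [IsAlgClosed k] [IsDedekindDomain B] [IsDedekindDomain (Bbar h hE)] in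
theorem redI_span {f : BO h hE} (hf : f ∉ mB h hE) :
    redI h hE (Ideal.span {(f : B)}) = Ideal.span {Ideal.Quotient.mk (mB h hE) f} :=
  redI_span' h hE hf

omit [IsAlgClosed k] [IsDedekindDomain B] [IsDedekindDomain (Bbar h hE)] in
theorem finrank_redI {I : Ideal B} (hI : I ≠ ⊥) :
    finrank (IsLocalRing.ResidueField O) (Bbar h hE ⧸ redI h hE I) ≤ finrank k (B ⧸ I) :=
  finrank_redI' h hE hI

end Ded

end R4b

end Pool.Agent.SC
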