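import Mathlib
import Pool.Agent.SC.DefsT
import Pool.Agent.SC.R1b
import Pool.Agent.SC.R4b

/-!
# MP_e66f84_ag, block TB: torsion classes of the base change are defined over `k`
-/

set_option linter.unusedSectionVars false
set_option linter.overlappingInstances false
set_option linter.unusedVariables false

universe u

namespace Pool.Agent.SC

open Module TensorProduct

namespace TB

/-- A finitely generated algebra over an algebraically closed field has a rational point. -/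
theorem exists_pt {k R : Type*} [Field k] [IsAlgClosed k] [CommRing R] [Nontrivial R]
    [Algebra k R] [Algebra.FiniteType k R] : Nonempty (R →ₐ[k] k) := by
  obtain ⟨m, hm⟩ := Ideal.exists_maximal R
  let _ : Field (R ⧸ m) := Ideal.Quotient.field m
  have hfin : Module.Finite k (R ⧸ m) := by
    have : Algebra.FiniteType k (R ⧸ m) :=
      Algebra.FiniteType.of_surjective (Ideal.Quotient.mkₐ k m) (Ideal.Quotient.mkₐ_surjective k m)
    exact finite_of_finite_type_of_isJacobsonRing k (R ⧸ m)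
  have hbij : Function.Bijective (algebraMap k (R ⧸ m)) :=
    IsAlgClosed.algebraMap_bijective_of_isIntegral
  exact ⟨(AlgEquiv.ofBijective (Algebra.ofId k (R ⧸ m)) hbij).symm.toAlgHom.comp
    (Ideal.Quotient.mkₐ k m)⟩

section

variable {k B Ω C : Type u} [Field k] [CommRing B] [Algebra k B] [Field Ω]
  [Algebra k Ω] [CommRing C] [Algebra Ω C] {deg : B → ℕ} {E : Basis (degSet deg) k B}
  {j : B →+* C} {degC : C → ℕ} {EC : Basis (degSet degC) Ω C}

/-- The evaluation in `C` of an element of `R ⊗ B`. -/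
noncomputable def T (hj : BaseChange E j EC) (R : Subalgebra k Ω) : R ⊗[k] B →+* C :=
  letI : Algebra k C := ((algebraMap Ω C).comp (algebraMap k Ω)).toAlgebra
  (Algebra.TensorProduct.lift (S := k)
    ({ (algebraMap Ω C).comp R.toSubring.subtype with commutes' := fun _ => rfl } : R →ₐ[k] C)
    ({ j with commutes' := hj.const } : B →ₐ[k] C) (fun _ _ => Commute.all _ _)).toRingHom

theorem T_tmul (hj : BaseChange E j EC) (R : Subalgebra k Ω) (r : R) (b : B) :
    T hj R (r ⊗ₜ b) = (r : Ω) • j b := by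
  rw [Algebra.smul_def]
  rfl

/-- The reduction in `B` of an element of `R ⊗ B`. -/
noncomputable def S (B : Type u) [CommRing B] [Algebra k B] {R : Subalgebra k Ω} (φ : R →ₐ[k] k) :
    R ⊗[k] B →+* B :=
  (Algebra.TensorProduct.lift (S := k) ((Algebra.ofId k B).comp φ) (AlgHom.id k B)
    (fun _ _ => Commute.all _ _)).toRingHom

theorem S_tmul {R : Subalgebra k Ω} (φ : R →ₐ[k] k) (r : R) (b : B) :
    S B φ (r ⊗ₜ b) = φ r • b := by
  rw [Algebra.smul_def]
  rfl

theorem repr_T (hj : BaseChange E j EC) (R : Subalgebra k Ω) (φ : R →ₐ[k] k) (t : R ⊗[k] B)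
    (i : degSet degC) (i' : degSet deg) (hi : (i : ℕ) = i') :
    ∃ hm : EC.repr (T hj R t) i ∈ R, E.repr (S B φ t) i' = φ ⟨_, hm⟩ := by
  induction t using TensorProduct.induction_on with
  | zero =>
    refine ⟨by rw [map_zero, map_zero]; exact R.zero_mem, ?_⟩
    have : (⟨EC.repr (T hj R 0) i, by rw [map_zero, map_zero]; exact R.zero_mem⟩ : R) = 0 :=
      Subtype.ext (by change EC.repr (T hj R 0) i = 0; rw [map_zero, map_zero]; rfl)
    rw [this, map_zero, map_zero, map_zero]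
    rfl
  | tmul r b =>
    have h1 : EC.repr (T hj R (r ⊗ₜ b)) i = ((r * algebraMap k R (E.repr b i') : R) : Ω) := by
      rw [T_tmul, map_smul, Finsupp.smul_apply, hj.repr_j b i' i hi, smul_eq_mul]
      rfl
    have hm : EC.repr (T hj R (r ⊗ₜ b)) i ∈ R := by rw [h1]; exact (r * algebraMap k R _ : R).2
    refine ⟨hm, ?_⟩
    have h2 : (⟨EC.repr (T hj R (r ⊗ₜ b)) i, hm⟩ : R) = r * algebraMap k R (E.repr b i') :=
      Subtype.ext h1
    rw [h2, map_mul, φ.commutes, S_tmul, map_smul, Finsupp.smul_apply, smul_eq_mul]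
    rfl
  | add x y hx hy =>
    obtain ⟨h1, h2⟩ := hx
    obtain ⟨h3, h4⟩ := hy
    have h5 : EC.repr (T hj R (x + y)) i = EC.repr (T hj R x) i + EC.repr (T hj R y) i := by
      rw [map_add, map_add, Finsupp.add_apply]
    have hm : EC.repr (T hj R (x + y)) i ∈ R := by rw [h5]; exact R.add_mem h1 h3
    refine ⟨hm, ?_⟩
    have h6 : (⟨EC.repr (T hj R (x + y)) i, hm⟩ : R) = ⟨_, h1⟩ + ⟨_, h3⟩ := Subtype.ext h5
    rw [h6, map_add φ, ← h2, ← h4, map_add, map_add, Finsupp.add_apply]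

theorem eval_T (hj : BaseChange E j EC) (R : Subalgebra k Ω) (φ : R →ₐ[k] k) (P : C →ₐ[Ω] Ω)
    (hP : ∀ b : B, P (j b) ∈ R) (Q : B →ₐ[k] k) (hQ : ∀ b, Q b = φ ⟨_, hP b⟩) (t : R ⊗[k] B) :
    ∃ hm : P (T hj R t) ∈ R, Q (S B φ t) = φ ⟨_, hm⟩ := by
  induction t using TensorProduct.induction_on with
  | zero =>
    have h0 : P (T hj R 0) = 0 := by rw [map_zero, map_zero]
    have hm : P (T hj R 0) ∈ R := by rw [h0]; exact R.zero_mem
    have : (⟨P (T hj R 0), hm⟩ : R) = 0 := Subtype.ext h0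
    exact ⟨hm, by rw [this, map_zero, map_zero, map_zero]⟩
  | tmul r b =>
    have h1 : P (T hj R (r ⊗ₜ b)) = ((r * ⟨_, hP b⟩ : R) : Ω) := by
      rw [T_tmul, map_smul, smul_eq_mul]
      rfl
    have hm : P (T hj R (r ⊗ₜ b)) ∈ R := by rw [h1]; exact (r * ⟨_, hP b⟩ : R).2
    refine ⟨hm, ?_⟩
    have h2 : (⟨P (T hj R (r ⊗ₜ b)), hm⟩ : R) = r * ⟨_, hP b⟩ := Subtype.ext h1
    rw [h2, map_mul, ← hQ, S_tmul, map_smul, smul_eq_mul]
  | add x y hx hy =>
    obtain ⟨h1, h2⟩ := hx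
    obtain ⟨h3, h4⟩ := hy
    have h5 : P (T hj R (x + y)) = P (T hj R x) + P (T hj R y) := by
      rw [map_add, map_add]
    have hm : P (T hj R (x + y)) ∈ R := by rw [h5]; exact R.add_mem h1 h3
    refine ⟨hm, ?_⟩
    have h6 : (⟨P (T hj R (x + y)), hm⟩ : R) = ⟨_, h1⟩ + ⟨_, h3⟩ := Subtype.ext h5
    rw [h6, map_add φ, ← h2, ← h4, map_add, map_add]

theorem exists_T (hj : BaseChange E j EC) (R : Subalgebra k Ω) {x : C}
    (hx : ∀ i, EC.repr x i ∈ R) : ∃ t, T hj R t = x := by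
  classical
  refine ⟨∑ i ∈ (EC.repr x).support, (⟨EC.repr x i, hx i⟩ : R) ⊗ₜ[k]
    E ⟨(i : ℕ), by rw [← hj.set_eq]; exact i.2⟩, ?_⟩
  rw [map_sum]
  conv_rhs => rw [← EC.linearCombination_repr x]
  rw [Finsupp.linearCombination_apply, Finsupp.sum]
  refine Finset.sum_congr rfl fun i _ => ?_
  rw [T_tmul, hj.basis ⟨(i : ℕ), by rw [← hj.set_eq]; exact i.2⟩ i rfl]

/-- The reduction of the kernel of a point. -/
def spK (j : B →+* C) {R : Subalgebra k Ω} (φ : R →ₐ[k] k) (P : C →ₐ[Ω] Ω) : Ideal B :=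
  Ideal.span {b | ∃ h : P (j b) ∈ R, φ ⟨_, h⟩ = 0}

theorem exists_spK (hj : BaseChange E j EC) {R : Subalgebra k Ω} (φ : R →ₐ[k] k) (P : C →ₐ[Ω] Ω)
    (hP : ∀ b : B, P (j b) ∈ R) :
    ∃ Q : B →ₐ[k] k, (∀ b, Q b = φ ⟨_, hP b⟩) ∧ RingHom.ker Q = spK j φ P := by
  let Q : B →ₐ[k] k :=
    { toFun := fun b => φ ⟨P (j b), hP b⟩
      map_one' := by
        rw [← map_one φ]
        exact congrArg φ (Subtype.ext (by change P (j 1) = 1; rw [map_one, map_one]))
      map_mul' := fun a b => by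
        rw [← map_mul φ]
        exact congrArg φ (Subtype.ext (by
          change P (j (a * b)) = P (j a) * P (j b); rw [map_mul, map_mul]))
      map_zero' := by
        rw [← map_zero φ]
        exact congrArg φ (Subtype.ext (by change P (j 0) = 0; rw [map_zero, map_zero]))
      map_add' := fun a b => by
        rw [← map_add φ]
        exact congrArg φ (Subtype.ext (by
          change P (j (a + b)) = P (j a) + P (j b); rw [map_add, map_add]))
      commutes' := fun c => by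
        rw [← φ.commutes]
        exact congrArg φ (Subtype.ext (by
          change P (j (algebraMap k B c)) = algebraMap k Ω c
          rw [hj.const, P.commutes]; rfl)) }
  refine ⟨Q, fun b => rfl, le_antisymm ?_ ?_⟩
  · intro b hb
    exact Ideal.subset_span ⟨hP b, hb⟩
  · rw [spK, Ideal.span_le]
    rintro b ⟨hb, hb'⟩
    exact hb'

theorem exists_lift (hj : BaseChange E j EC) (s : Multiset (C →ₐ[Ω] Ω)) :
    ∀ x ∈ (s.map fun P => RingHom.ker P).prod, ∃ A : Finset Ω, ∀ R : Subalgebra k Ω,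
      (A : Set Ω) ⊆ R → (∀ P ∈ s, ∀ b : B, P (j b) ∈ R) → ∀ φ : R →ₐ[k] k,
      ∃ t : R ⊗[k] B, T hj R t = x ∧ S B φ t ∈ (s.map fun P => spK j φ P).prod := by
  classical
  induction s using Multiset.induction_on with
  | empty =>
    intro x _
    refine ⟨(EC.repr x).support.image (EC.repr x), fun R hR _ φ => ?_⟩
    have hx : ∀ i, EC.repr x i ∈ R := by
      intro i
      by_cases hi : i ∈ (EC.repr x).support
      · exact hR (Finset.mem_coe.2 (Finset.mem_image_of_mem _ hi))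
      · rw [Finsupp.notMem_support_iff.1 hi]; exact R.zero_mem
    obtain ⟨t, ht⟩ := exists_T hj R hx
    exact ⟨t, ht, by rw [Multiset.map_zero, Multiset.prod_zero, Ideal.one_eq_top]; trivial⟩
  | cons P s ih =>
    intro x hx
    rw [Multiset.map_cons, Multiset.prod_cons] at hx
    refine Submodule.mul_induction_on hx ?_ ?_
    · intro p hp y hy
      obtain ⟨A, hA⟩ := ih y hy
      refine ⟨(EC.repr p).support.image (EC.repr p) ∪ A, fun R hR hs φ => ?_⟩
      have hpR : ∀ i, EC.repr p i ∈ R := by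
        intro i
        by_cases hi : i ∈ (EC.repr p).support
        · exact hR (Finset.mem_coe.2 (Finset.mem_union_left _ (Finset.mem_image_of_mem _ hi)))
        · rw [Finsupp.notMem_support_iff.1 hi]; exact R.zero_mem
      obtain ⟨t, ht⟩ := exists_T hj R hpR
      obtain ⟨t', ht', hS'⟩ := hA R (fun a ha => hR (Finset.mem_coe.2
        (Finset.mem_union_right _ ha))) (fun Q hQ => hs Q (Multiset.mem_cons_of_mem hQ)) φ
      have hPR := hs P (Multiset.mem_cons_self P s)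
      obtain ⟨Q, hQ, hQk⟩ := exists_spK hj φ P hPR
      refine ⟨t * t', by rw [map_mul, ht, ht'], ?_⟩
      rw [map_mul, Multiset.map_cons, Multiset.prod_cons]
      refine Ideal.mul_mem_mul ?_ hS'
      rw [← hQk, RingHom.mem_ker]
      obtain ⟨h1, h2⟩ := eval_T hj R φ P hPR Q hQ t
      rw [h2]
      have h3 : P (T hj R t) = 0 := by rw [ht]; exact hp
      have h4 : (⟨P (T hj R t), h1⟩ : R) = 0 := Subtype.ext h3
      rw [h4, map_zero]
    · rintro y z ⟨A, hA⟩ ⟨A', hA'⟩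
      refine ⟨A ∪ A', fun R hR hs φ => ?_⟩
      obtain ⟨t, ht, hS⟩ := hA R (fun a ha => hR (Finset.mem_coe.2
        (Finset.mem_union_left _ ha))) hs φ
      obtain ⟨t', ht', hS'⟩ := hA' R (fun a ha => hR (Finset.mem_coe.2
        (Finset.mem_union_right _ ha))) hs φ
      exact ⟨t + t', by rw [map_add, ht, ht'], by rw [map_add]; exact Ideal.add_mem _ hS hS'⟩

/-- A monic element keeps its degree. -/
theorem deg_S [IsDomain B] [IsDomain C] (h : OnePt k B deg) (hE : ∀ m, deg (E m) = m)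
    (hC : OnePt Ω C degC) (hEC : ∀ m, degC (EC m) = m)
    (hj : BaseChange E j EC) (R : Subalgebra k Ω) (φ : R →ₐ[k] k) {x : C}
    (hx1 : ∀ i : degSet degC, (i : ℕ) = degC x → EC.repr x i = 1) (hx0 : x ≠ 0)
    {t : R ⊗[k] B} (ht : T hj R t = x) : S B φ t ≠ 0 ∧ deg (S B φ t) = degC x := by
  have hxd : degC x ∈ degSet degC := ⟨x, hx0, rfl⟩
  have hxd' : degC x ∈ degSet deg := by rw [← hj.set_eq]; exact hxd
  have hlead : E.repr (S B φ t) ⟨degC x, hxd'⟩ = 1 := by
    obtain ⟨h1, h2⟩ := repr_T hj R φ t ⟨degC x, hxd⟩ ⟨degC x, hxd'⟩ rfl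
    rw [h2, ← map_one φ]
    exact congrArg φ (Subtype.ext (by
      change EC.repr (T hj R t) ⟨degC x, hxd⟩ = 1
      rw [ht]; exact hx1 _ rfl))
  have hne : S B φ t ≠ 0 := by
    intro h0
    rw [h0, map_zero, Finsupp.zero_apply] at hlead
    exact zero_ne_one hlead
  refine ⟨hne, le_antisymm ?_ ?_⟩
  · rw [deg_eq_degOf h hE, degOf_le_iff]
    intro i hi
    obtain ⟨h1, h2⟩ := repr_T hj R φ t ⟨(i : ℕ), by rw [hj.set_eq]; exact i.2⟩ i rfl
    rw [h2, ← map_zero φ]
    refine congrArg φ (Subtype.ext ?_)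
    change EC.repr (T hj R t) ⟨(i : ℕ), _⟩ = 0
    rw [ht]
    exact (degOf_le_iff EC x _).1 le_rfl _ (by rw [← deg_eq_degOf hC hEC]; exact hi)
  · rw [deg_eq_degOf h hE]
    by_contra hcon
    have h3 := (degOf_le_iff E (S B φ t) _).1 le_rfl ⟨degC x, hxd'⟩ (not_le.1 hcon)
    rw [h3] at hlead
    exact zero_ne_one hlead

theorem exists_monic [IsDomain C] (hC : OnePt Ω C degC) (hEC : ∀ m, degC (EC m) = m)
    {x : C} (hx0 : x ≠ 0) :
    ∃ c : Ω, c ≠ 0 ∧ ∀ i : degSet degC, (i : ℕ) = degC (c • x) → EC.repr (c • x) i = 1 := by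
  obtain ⟨i, hi, hi0⟩ := exists_degOf EC hx0
  refine ⟨(EC.repr x i)⁻¹, inv_ne_zero hi0, fun i' hi' => ?_⟩
  rw [hC.deg_smul (inv_ne_zero hi0), deg_eq_degOf hC hEC, ← hi] at hi'
  have : i' = i := Subtype.ext hi'
  rw [this, map_smul, Finsupp.smul_apply, smul_eq_mul, inv_mul_cancel₀ hi0]

end

end TB

open TB in
/-- TB.  Torsion classes of the base change are defined over `k`. -/
theorem torsion_ext {k B Ω C : Type u} [Field k] [IsAlgClosed k] [CommRing B] [IsDomain B]
    [IsDedekindDomain B] [Algebra k B] [Field Ω] [IsAlgClosed Ω] [Algebra k Ω] [CommRing C]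
    [IsDomain C] [IsDedekindDomain C] [Algebra Ω C] {deg : B → ℕ} {degC : C → ℕ}
    {E : Basis (degSet deg) k B} {j : B →+* C} {EC : Basis (degSet degC) Ω C}
    (h : OnePt k B deg) (hE : ∀ m, deg (E m) = m) (hC : OnePt Ω C degC)
    (hEC : ∀ m, degC (EC m) = m) (hj : BaseChange E j EC) {q : ℕ} (hq : 0 < q)
    (hT : ∀ I : Ideal B, I ≠ ⊥ → (I ^ q).IsPrincipal → I.IsPrincipal) :
    ∀ I : Ideal C, I ≠ ⊥ → (I ^ q).IsPrincipal → I.IsPrincipal := by
  classical
  intro I hI hIq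
  obtain ⟨s, hs⟩ := exists_prod hC hI
  have hcol : finrank Ω (C ⧸ I) = s.card := by rw [hs]; exact finrank_prod_ker hC s
  -- the generator of `I ^ q`
  obtain ⟨f0, hf0⟩ := hIq.principal
  have hIq0 : I ^ q ≠ ⊥ := pow_ne_zero q hI
  have hf00 : f0 ≠ 0 := by
    rintro rfl
    apply hIq0
    rw [hf0]
    exact Ideal.span_singleton_eq_bot.2 rfl
  obtain ⟨c, hc0, hfm⟩ := exists_monic hC hEC hf00
  set f := c • f0 with hf
  have hfne : f ≠ 0 := smul_ne_zero hc0 hf00
  have hIqs : I ^ q = ((q • s).map fun P => RingHom.ker P).prod := by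
    rw [hs, Multiset.map_nsmul, Multiset.prod_nsmul]
  have hfmem : f ∈ ((q • s).map fun P => RingHom.ker P).prod := by
    rw [← hIqs, hf0, hf, Algebra.smul_def]
    exact Ideal.mul_mem_left _ _ (Ideal.mem_span_singleton_self f0)
  have hfdeg : degC f = q * s.card := by
    rw [hf, hC.deg_smul hc0, ← hC.finrank_quot_span hf00]
    have h1 : Ideal.span {f0} = ((q • s).map fun P => RingHom.ker P).prod := by
      rw [← hIqs, hf0]
    rw [h1, finrank_prod_ker hC, Multiset.card_nsmul]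
  -- monic elements of small degree
  set N0 := 2 * ((degSet deg)ᶜ).ncard + s.card with hN0
  have hch : ∀ n : ℕ, ∃ x ∈ I, (∃ b ∈ I, b ≠ 0 ∧ degC b = n) →
      x ≠ 0 ∧ degC x = n ∧ ∀ i : degSet degC, (i : ℕ) = degC x → EC.repr x i = 1 := by
    intro n
    by_cases hn : ∃ b ∈ I, b ≠ 0 ∧ degC b = n
    · obtain ⟨b, hb, hb0, hbn⟩ := hn
      obtain ⟨c', hc', hbm⟩ := exists_monic hC hEC hb0
      refine ⟨c' • b, ?_, fun _ => ⟨smul_ne_zero hc' hb0, ?_, hbm⟩⟩
      · rw [Algebra.smul_def]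
        exact I.mul_mem_left _ hb
      · rw [hC.deg_smul hc', hbn]
    · exact ⟨0, I.zero_mem, fun hn' => absurd hn' hn⟩
  choose e he hem using hch
  obtain ⟨Af, hAf⟩ := exists_lift hj (q • s) f hfmem
  have hAe' : ∀ n : ℕ, ∃ A : Finset Ω, ∀ R : Subalgebra k Ω,
      (A : Set Ω) ⊆ R → (∀ P ∈ s, ∀ b : B, P (j b) ∈ R) → ∀ φ : R →ₐ[k] k,
      ∃ t : R ⊗[k] B, T hj R t = e n ∧ S B φ t ∈ (s.map fun P => spK j φ P).prod :=
    fun n => exists_lift hj s (e n) (by rw [← hs]; exact he n)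
  choose Ae hAe using hAe'
  obtain ⟨G, hG⟩ := h.finiteType.out
  -- the coefficient ring
  let A : Finset Ω := Af ∪ (Finset.range (N0 + 1)).biUnion Ae ∪
    s.toFinset.biUnion fun P => G.image fun b => P (j b)
  let R : Subalgebra k Ω := Algebra.adjoin k (A : Set Ω)
  have hAR : (A : Set Ω) ⊆ R := Algebra.subset_adjoin
  have hRf : Algebra.FiniteType k R := (Subalgebra.fg_iff_finiteType R).1 ⟨A, rfl⟩
  obtain ⟨φ⟩ := exists_pt (k := k) (R := R)
  have hPR : ∀ P ∈ s, ∀ b : B, P (j b) ∈ R := by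
    intro P hP b
    have hb : b ∈ Algebra.adjoin k (G : Set B) := by rw [hG]; trivial
    induction hb using Algebra.adjoin_induction with
    | mem x hx =>
      refine hAR (Finset.mem_coe.2 (Finset.mem_union_right _ (Finset.mem_biUnion.2
        ⟨P, Multiset.mem_toFinset.2 hP, Finset.mem_image.2 ⟨x, hx, rfl⟩⟩)))
    | algebraMap r =>
      rw [hj.const, P.commutes]
      exact R.algebraMap_mem r
    | add x y _ _ hx hy => rw [map_add, map_add]; exact R.add_mem hx hy
    | mul x y _ _ hx hy => rw [map_mul, map_mul]; exact R.mul_mem hx hy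
  -- the reduced points
  have hred : ∀ u : Multiset (C →ₐ[Ω] Ω), (∀ P ∈ u, ∀ b : B, P (j b) ∈ R) →
      ∃ u' : Multiset (B →ₐ[k] k), u'.card = u.card ∧
        (u'.map fun P => RingHom.ker P).prod = (u.map fun P => spK j φ P).prod := by
    intro u
    induction u using Multiset.induction_on with
    | empty => intro _; exact ⟨0, rfl, rfl⟩
    | cons P u ih =>
      intro hu
      obtain ⟨u', h1, h2⟩ := ih fun Q hQ => hu Q (Multiset.mem_cons_of_mem hQ)
      obtain ⟨Q, -, hQ⟩ := exists_spK hj φ P (hu P (Multiset.mem_cons_self P u))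
      exact ⟨Q ::ₘ u', by rw [Multiset.card_cons, Multiset.card_cons, h1], by
        rw [Multiset.map_cons, Multiset.map_cons, Multiset.prod_cons, Multiset.prod_cons, h2, hQ]⟩
  obtain ⟨s', hs'c, hs'⟩ := hred s hPR
  set J : Ideal B := (s'.map fun P => RingHom.ker P).prod with hJ
  have hJ0 : J ≠ ⊥ := prod_ker_ne_bot h s'
  have hJcol : finrank k (B ⧸ J) = s.card := by rw [hJ, finrank_prod_ker h s', hs'c]
  have hJq : J ^ q = ((q • s).map fun P => spK j φ P).prod := by
    rw [hs', Multiset.map_nsmul, Multiset.prod_nsmul]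
  have hJqcol : finrank k (B ⧸ J ^ q) = q * s.card := by
    have h1 : J ^ q = ((q • s').map fun P => RingHom.ker P).prod := by
      rw [hJ, Multiset.map_nsmul, Multiset.prod_nsmul]
    rw [h1, finrank_prod_ker h, Multiset.card_nsmul, hs'c]
  -- the degrees of `J`
  have hdegJ : ∀ n, (∃ b ∈ I, b ≠ 0 ∧ degC b = n) → ∃ b ∈ J, b ≠ 0 ∧ deg b = n := by
    intro n hn
    by_cases hnN : n ≤ N0
    · have hsub : (Ae n : Set Ω) ⊆ R := fun a ha => hAR (Finset.mem_coe.2
        (Finset.mem_union_left _ (Finset.mem_union_right _ (Finset.mem_biUnion.2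
          ⟨n, Finset.mem_range.2 (by omega), ha⟩))))
      obtain ⟨t, ht, hS⟩ := hAe n R hsub hPR φ
      obtain ⟨h1, h2, h3⟩ := hem n hn
      obtain ⟨h4, h5⟩ := deg_S h hE hC hEC hj R φ h3 h1 ht
      exact ⟨S B φ t, by rw [hs']; exact hS, h4, by rw [h5, h2]⟩
    · exact h.exists_deg_eq hJ0 (by rw [hJcol]; omega)
  obtain ⟨hmI, hmI'⟩ := hC.ncard_missing hI
  obtain ⟨hmJ, hmJ'⟩ := h.ncard_missing hJ0
  have hmeq : {n | n ∈ degSet deg ∧ ∀ b ∈ J, b ≠ 0 → deg b ≠ n} =
      {n | n ∈ degSet degC ∧ ∀ b ∈ I, b ≠ 0 → degC b ≠ n} := by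
    refine Set.eq_of_subset_of_ncard_le ?_ ?_ hmI
    · rintro n ⟨hn1, hn2⟩
      refine ⟨by rw [hj.set_eq]; exact hn1, fun b hb hb0 hbn => ?_⟩
      obtain ⟨b', hb', hb'0, hb'n⟩ := hdegJ n ⟨b, hb, hb0, hbn⟩
      exact hn2 b' hb' hb'0 hb'n
    · rw [hmI', hmJ', hJcol, hcol]
  -- `J ^ q` is principal
  have hJqp : (J ^ q).IsPrincipal := by
    have hsub : (Af : Set Ω) ⊆ R := fun a ha => hAR (Finset.mem_coe.2
        (Finset.mem_union_left _ (Finset.mem_union_left _ ha)))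
    obtain ⟨t, ht, hS⟩ := hAf R hsub (fun P hP => hPR P (by
      rw [Multiset.mem_nsmul] at hP; exact hP.2)) φ
    obtain ⟨h4, h5⟩ := deg_S h hE hC hEC hj R φ hfm hfne ht
    have hle : Ideal.span {S B φ t} ≤ J ^ q := by
      rw [Ideal.span_singleton_le_iff_mem, hJq]
      exact hS
    have hfin : Module.Finite k (B ⧸ Ideal.span {S B φ t}) :=
      h.finite_quot (by rwa [Ne, Ideal.span_singleton_eq_bot])
    have heq := eq_of_finrank_quot (κ := k) hle (by
      rw [h.finrank_quot_span h4, h5, hfdeg, hJqcol])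
    rw [← heq]
    exact ⟨⟨_, rfl⟩⟩
  obtain ⟨⟨g, hg⟩⟩ := hT J hJ0 hJqp
  have hg' : J = Ideal.span {g} := hg
  have hg0 : g ≠ 0 := by
    rintro rfl
    apply hJ0
    rw [hg']
    exact Ideal.span_singleton_eq_bot.2 rfl
  have hgd : deg g = s.card := by rw [← h.finrank_quot_span hg0, ← hg', hJcol]
  have hnm : s.card ∉ {n | n ∈ degSet degC ∧ ∀ b ∈ I, b ≠ 0 → degC b ≠ n} := by
    rw [← hmeq]
    rintro ⟨-, h2⟩
    exact h2 g (by rw [hg']; exact Ideal.mem_span_singleton_self g) hg0 hgd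
  have hex : ∃ b ∈ I, b ≠ 0 ∧ degC b = s.card := by
    by_contra hcon
    push Not at hcon
    exact hnm ⟨by rw [hj.set_eq, ← hgd]; exact ⟨g, hg0, rfl⟩, hcon⟩
  obtain ⟨b, hb, hb0, hbd⟩ := hex
  have hfin : Module.Finite Ω (C ⧸ Ideal.span {b}) :=
    hC.finite_quot (by rwa [Ne, Ideal.span_singleton_eq_bot])
  have heq := eq_of_finrank_quot (κ := Ω) ((Ideal.span_singleton_le_iff_mem I).2 hb) (by
    rw [hC.finrank_quot_span hb0, hbd, hcol])
  rw [← heq]
  exact ⟨⟨_, rfl⟩⟩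

end Pool.Agent.SC
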