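import Mathlib
import Pool.Agent.SC.R1a
import Pool.Agent.SC.R1b
import Pool.Agent.SC.R4a

/-!
# R6: finitely many Frobenius-invariant classes on the reduction (core)
-/

universe u v w

namespace Pool.Agent.SC

open Module

namespace R6

section Cls

variable {B : Type v} [CommRing B]

theorem sc_refl [Nontrivial B] (I : Ideal B) : SameClass I I :=
  ⟨1, 1, one_ne_zero, one_ne_zero, rfl⟩

theorem sc_symm {I J : Ideal B} (h : SameClass I J) : SameClass J I := by
  obtain ⟨a, b, ha, hb, e⟩ := h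
  exact ⟨b, a, hb, ha, e.symm⟩

theorem sc_trans [IsDomain B] {I J K : Ideal B} (h : SameClass I J) (h' : SameClass J K) :
    SameClass I K := by
  obtain ⟨a, b, ha, hb, e⟩ := h
  obtain ⟨c, d, hc, hd, e'⟩ := h'
  refine ⟨a * c, b * d, mul_ne_zero ha hc, mul_ne_zero hb hd, ?_⟩
  rw [← Ideal.span_singleton_mul_span_singleton, ← Ideal.span_singleton_mul_span_singleton]
  calc Ideal.span {a} * Ideal.span {c} * I = Ideal.span {c} * (Ideal.span {a} * I) := by ring
    _ = Ideal.span {b} * (Ideal.span {c} * J) := by rw [e]; ring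
    _ = Ideal.span {b} * Ideal.span {d} * K := by rw [e']; ring

theorem sc_map {I J : Ideal B} (φ : B ≃+* B) (h : SameClass I J) :
    SameClass (I.map (φ : B →+* B)) (J.map (φ : B →+* B)) := by
  obtain ⟨a, b, ha, hb, e⟩ := h
  refine ⟨φ a, φ b, by simpa using ha, by simpa using hb, ?_⟩
  have h1 := congrArg (Ideal.map (φ : B →+* B)) e
  rw [Ideal.map_mul, Ideal.map_mul, Ideal.map_span, Ideal.map_span, Set.image_singleton,
    Set.image_singleton] at h1
  exact h1

theorem mem_map_equiv {I : Ideal B} (φ : B ≃+* B) {b : B} :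
    b ∈ I.map (φ : B →+* B) ↔ ∃ a ∈ I, φ a = b := by
  rw [Ideal.mem_map_iff_of_surjective (φ : B →+* B) φ.surjective]
  rfl

end Cls

section Geom

variable {κ : Type u} {A : Type v} [Field κ] [CommRing A] [IsDomain A] [Algebra κ A]
  {degA : A → ℕ} {ι : Type w}

theorem artin_schreier [IsAlgClosed κ] {q : ℕ} (hq : 1 < q) (w : κ) : ∃ z : κ, z ^ q - z = w := by
  have hd : (Polynomial.X ^ q - (Polynomial.X + Polynomial.C w) : Polynomial κ).degree ≠ 0 := by
    have h1 : (Polynomial.X + Polynomial.C w : Polynomial κ).natDegree <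
        (Polynomial.X ^ q : Polynomial κ).natDegree := by
      rw [Polynomial.natDegree_X_add_C, Polynomial.natDegree_X_pow]
      exact hq
    have h2 := Polynomial.natDegree_sub_eq_left_of_natDegree_lt h1
    rw [Polynomial.natDegree_X_pow] at h2
    exact (Polynomial.natDegree_pos_iff_degree_pos.1 (by rw [h2]; omega)).ne'
  obtain ⟨z, hz⟩ := IsAlgClosed.exists_root _ hd
  refine ⟨z, ?_⟩
  simp only [Polynomial.IsRoot, Polynomial.eval_sub, Polynomial.eval_pow, Polynomial.eval_X,
    Polynomial.eval_C, Polynomial.eval_add] at hz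
  linear_combination hz

/-- The hypotheses on the Frobenius of the reduction. -/
structure Frob (E : Basis ι κ A) (degA : A → ℕ) (q : ℕ) (φ : A ≃+* A) : Prop where
  repr : ∀ b i, E.repr (φ b) i = (E.repr b i) ^ q
  deg : ∀ b, degA (φ b) = degA b

omit [IsDomain A] in
theorem Frob.smul {E : Basis ι κ A} {q : ℕ} {φ : A ≃+* A} (hφ : Frob E degA q φ) (c : κ) (b : A) :
    φ (c • b) = c ^ q • φ b := by
  apply E.repr.injective
  ext i
  rw [hφ.repr, map_smul, map_smul, Finsupp.smul_apply, Finsupp.smul_apply, hφ.repr, smul_eq_mul,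
    smul_eq_mul, mul_pow]

/-- The fixed elements of degree at most `D`. -/
def fixD (degA : A → ℕ) (φ : A ≃+* A) (D : ℕ) : Set A := {b | degA b ≤ D ∧ φ b = b}

theorem mem_span_fix [IsAlgClosed κ] (h : OnePt κ A degA) {E : Basis ι κ A} {q : ℕ} (hq : 1 < q)
    {φ : A ≃+* A} (hφ : Frob E degA q φ) {J : Ideal A} (hJ : ∀ b ∈ J, φ b ∈ J) (D : ℕ) :
    ∀ (n : ℕ) (b : A), (E.repr b).support.card ≤ n → b ∈ J → degA b ≤ D →
      b ∈ Submodule.span κ ((J : Set A) ∩ fixD degA φ D) := by
  classical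
  intro n
  induction n with
  | zero =>
    intro b hb _ _
    have h1 : E.repr b = 0 := by
      rw [← Finsupp.support_eq_empty, ← Finset.card_eq_zero]
      omega
    have h2 : b = 0 := by
      apply E.repr.injective
      rw [h1, map_zero]
    rw [h2]
    exact Submodule.zero_mem _
  | succ n ih =>
    intro b hb hbJ hbD
    by_cases hb0 : E.repr b = 0
    · have h2 : b = 0 := by
        apply E.repr.injective
        rw [hb0, map_zero]
      rw [h2]
      exact Submodule.zero_mem _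
    obtain ⟨j, hj⟩ := Finsupp.support_nonempty_iff.2 hb0
    have hcj : E.repr b j ≠ 0 := Finsupp.mem_support_iff.1 hj
    set c := E.repr b j with hc
    set b' := c⁻¹ • b with hb'
    have hbb : b = c • b' := by rw [hb', smul_smul, mul_inv_cancel₀ hcj, one_smul]
    have hb'L : degA b' ≤ D := (h.L D).smul_mem c⁻¹ (show b ∈ h.L D from hbD)
    have hb'J : b' ∈ J := by
      rw [hb', Algebra.smul_def]
      exact J.mul_mem_left _ hbJ
    have hb'j : E.repr b' j = 1 := by
      rw [hb', map_smul, Finsupp.smul_apply, smul_eq_mul, ← hc, inv_mul_cancel₀ hcj]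
    -- the difference
    have hdiff : φ b' - b' ∈ Submodule.span κ ((J : Set A) ∩ fixD degA φ D) := by
      refine ih _ ?_ (J.sub_mem (hJ _ hb'J) hb'J) ?_
      · have h1 : (E.repr (φ b' - b')).support ⊆ (E.repr b).support.erase j := by
          intro i hi
          rw [Finsupp.mem_support_iff, map_sub, Finsupp.sub_apply, hφ.repr] at hi
          rw [Finset.mem_erase]
          constructor
          · rintro rfl
            apply hi
            rw [hb'j, one_pow, sub_self]
          · rw [Finsupp.mem_support_iff]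
            intro h0
            apply hi
            rw [hb', map_smul, Finsupp.smul_apply, h0, smul_zero, zero_pow (by omega), sub_zero]
        have h2 := Finset.card_le_card h1
        rw [Finset.card_erase_of_mem hj] at h2
        omega
      · refine (h.L D).sub_mem ?_ (show b' ∈ h.L D from hb'L)
        change degA (φ b') ≤ D
        rw [hφ.deg]
        exact hb'L
    -- solve the equation
    obtain ⟨f, t, ht, hft, hsum⟩ := Submodule.mem_span_iff_exists_finset_subset.1 hdiff
    choose z hz using fun w : κ => artin_schreier hq w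
    set v := b' - ∑ u ∈ t, z (f u) • u with hv
    have hvfix : φ v = v := by
      rw [hv, map_sub, map_sum]
      have h1 : ∀ u ∈ t, φ (z (f u) • u) = z (f u) ^ q • u := by
        intro u hu
        rw [hφ.smul, (ht hu).2.2]
      rw [Finset.sum_congr rfl h1]
      have h2 : φ b' = b' + ∑ a ∈ t, f a • a := by rw [hsum]; ring
      rw [h2, add_sub_assoc, ← Finset.sum_sub_distrib, sub_eq_add_neg, ← Finset.sum_neg_distrib]
      congr 1
      refine Finset.sum_congr rfl fun u _ => ?_
      rw [← sub_smul, ← neg_smul]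
      congr 1
      have := hz (f u)
      linear_combination -this
    have hsumJ : ∑ u ∈ t, z (f u) • u ∈ J := by
      refine J.sum_mem fun u hu => ?_
      rw [Algebra.smul_def]
      exact J.mul_mem_left _ (ht hu).1
    have hsumD : ∑ u ∈ t, z (f u) • u ∈ h.L D := by
      refine (h.L D).sum_mem fun u hu => ?_
      exact (h.L D).smul_mem _ (show u ∈ h.L D from (ht hu).2.1)
    have hsumS : ∑ u ∈ t, z (f u) • u ∈ Submodule.span κ ((J : Set A) ∩ fixD degA φ D) :=
      Submodule.sum_mem _ fun u hu => Submodule.smul_mem _ _ (Submodule.subset_span (ht hu))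
    have hvS : v ∈ Submodule.span κ ((J : Set A) ∩ fixD degA φ D) := by
      refine Submodule.subset_span ⟨J.sub_mem hb'J hsumJ, ?_, hvfix⟩
      exact (h.L D).sub_mem (show b' ∈ h.L D from hb'L) hsumD
    rw [hbb]
    refine Submodule.smul_mem _ _ ?_
    have h3 : b' = v + ∑ u ∈ t, z (f u) • u := by rw [hv]; ring
    rw [h3]
    exact Submodule.add_mem _ hvS hsumS

theorem mem_ideal_span_fix [IsAlgClosed κ] (h : OnePt κ A degA) {E : Basis ι κ A} {q : ℕ}
    (hq : 1 < q) {φ : A ≃+* A} (hφ : Frob E degA q φ) {J : Ideal A} (hJ0 : J ≠ ⊥)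
    (hJ : ∀ b ∈ J, φ b ∈ J) {D d : ℕ} {x : A} (hx0 : x ≠ 0) (hd : 0 < d) (hx : degA x = d)
    (hD : 2 * ((degSet degA)ᶜ).ncard + finrank κ (A ⧸ J) + d ≤ D) :
    ∀ (n : ℕ) (b : A), degA b ≤ n → b ∈ J →
      b ∈ Ideal.span ((J : Set A) ∩ fixD degA φ D) := by
  intro n
  induction n using Nat.strong_induction_on with
  | _ n ih =>
  intro b hbn hbJ
  by_cases hbD : degA b ≤ D
  · have h1 := mem_span_fix h hq hφ hJ D _ b le_rfl hbJ hbD
    have h2 : (Submodule.span κ ((J : Set A) ∩ fixD degA φ D)) ≤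
        (Ideal.span ((J : Set A) ∩ fixD degA φ D)).restrictScalars κ := by
      rw [Submodule.span_le]
      intro u hu
      exact Ideal.subset_span hu
    exact h2 h1
  push Not at hbD
  obtain ⟨c, hcJ, hc0, hcd⟩ := h.exists_deg_eq hJ0 (n := degA b - d) (by omega)
  have hcS := ih (degA c) (by omega) c le_rfl hcJ
  have hb0 : b ≠ 0 := by
    rintro rfl
    have := h.deg_const 0
    rw [map_zero] at this
    omega
  have hxc : degA (x * c) = degA b := by
    rw [h.deg_mul x c hx0 hc0]
    omega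
  obtain ⟨l, hl⟩ := h.lead b (x * c) hb0 (mul_ne_zero hx0 hc0) hxc.symm
  have hm : l • (x * c) ∈ Ideal.span ((J : Set A) ∩ fixD degA φ D) := by
    rw [Algebra.smul_def]
    exact Ideal.mul_mem_left _ _ (Ideal.mul_mem_left _ _ hcS)
  rcases hl with hl | hl
  · rw [hl]
    exact hm
  · have h3 : b - l • (x * c) ∈ J := by
      refine J.sub_mem hbJ ?_
      rw [Algebra.smul_def]
      exact J.mul_mem_left _ (J.mul_mem_left _ hcJ)
    have h4 := ih (degA (b - l • (x * c))) (by omega) _ le_rfl h3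
    have h5 : b = (b - l • (x * c)) + l • (x * c) := by ring
    rw [h5]
    exact Ideal.add_mem _ h4 hm

theorem finite_fixD (h : OnePt κ A degA) {E : Basis ι κ A} {q : ℕ} (hq : 1 < q)
    {φ : A ≃+* A} (hφ : Frob E degA q φ) (D : ℕ) : (fixD degA φ D).Finite := by
  classical
  have := h.finite_L D
  -- a finite set of coordinates
  obtain ⟨s, hs⟩ := (Module.finite_def.1 this)
  set S : Finset ι := s.biUnion fun b => (E.repr (b : A)).support with hS
  have hsupp : ∀ b ∈ h.L D, ∀ i, i ∉ S → E.repr b i = 0 := by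
    intro b hb i hi
    have h1 : (⟨b, hb⟩ : h.L D) ∈ Submodule.span κ (s : Set (h.L D)) := by rw [hs]; trivial
    have h2 : (Submodule.span κ (s : Set (h.L D))) ≤
        LinearMap.ker ((Finsupp.lapply i ∘ₗ E.repr.toLinearMap) ∘ₗ (h.L D).subtype) := by
      rw [Submodule.span_le]
      intro u hu
      change (E.repr (u : A)) i = 0
      by_contra h3
      apply hi
      rw [hS, Finset.mem_biUnion]
      exact ⟨u, hu, Finsupp.mem_support_iff.2 h3⟩
    exact h2 h1
  set F : Set κ := {a | a ^ q = a} with hF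
  have hFfin : F.Finite := by
    have h1 : (Polynomial.X ^ q - Polynomial.X : Polynomial κ) ≠ 0 := by
      intro h0
      have h1 : (Polynomial.X : Polynomial κ).natDegree <
          (Polynomial.X ^ q : Polynomial κ).natDegree := by
        rw [Polynomial.natDegree_X, Polynomial.natDegree_X_pow]
        exact hq
      have h2 := Polynomial.natDegree_sub_eq_left_of_natDegree_lt h1
      rw [Polynomial.natDegree_X_pow, h0, Polynomial.natDegree_zero] at h2
      omega
    refine ((Polynomial.X ^ q - Polynomial.X : Polynomial κ).roots.toFinset.finite_toSet).subset ?_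
    intro a ha
    rw [Finset.mem_coe, Multiset.mem_toFinset, Polynomial.mem_roots h1]
    simp only [Polynomial.IsRoot, Polynomial.eval_sub, Polynomial.eval_pow, Polynomial.eval_X]
    rw [hF, Set.mem_ofPred_eq] at ha
    rw [ha, sub_self]
  have : Finite F := hFfin
  have hfix : ∀ b ∈ fixD degA φ D, ∀ i, E.repr b i ∈ F := by
    intro b hb i
    rw [hF, Set.mem_ofPred_eq, ← hφ.repr, hb.2]
  let G : fixD degA φ D → (S → F) := fun b i => ⟨E.repr (b : A) i, hfix b b.2 i⟩
  have hG : Function.Injective G := by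
    intro b b' hbb
    apply Subtype.ext
    apply E.repr.injective
    ext i
    by_cases hi : i ∈ S
    · have := congrFun hbb ⟨i, hi⟩
      exact congrArg Subtype.val this
    · rw [hsupp b b.2.1 i hi, hsupp b' b'.2.1 i hi]
  exact Set.finite_coe_iff.1 (Finite.of_injective G hG)

/-- The stable ideals of bounded colength are finite in number. -/
theorem finite_stable [IsAlgClosed κ] (h : OnePt κ A degA) {E : Basis ι κ A} {q : ℕ} (hq : 1 < q)
    {φ : A ≃+* A} (hφ : Frob E degA q φ) (g : ℕ) :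
    {J : Ideal A | J ≠ ⊥ ∧ (∀ b ∈ J, φ b ∈ J) ∧ finrank κ (A ⧸ J) ≤ g}.Finite := by
  obtain ⟨N, hN⟩ := h.large
  obtain ⟨x, hx0, hx⟩ := hN (N + 1) (by omega)
  set D := 2 * ((degSet degA)ᶜ).ncard + g + (N + 1) with hD
  have hfin := finite_fixD h hq hφ D
  refine Set.Finite.of_finite_image (f := fun J : Ideal A => (J : Set A) ∩ fixD degA φ D)
    (hfin.finite_subsets.subset ?_) ?_
  · rintro _ ⟨J, _, rfl⟩
    exact Set.inter_subset_right
  · rintro J ⟨hJ0, hJ, hJg⟩ J' ⟨hJ0', hJ', hJg'⟩ hJJ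
    have key : ∀ J : Ideal A, J ≠ ⊥ → (∀ b ∈ J, φ b ∈ J) → finrank κ (A ⧸ J) ≤ g →
        J = Ideal.span ((J : Set A) ∩ fixD degA φ D) := by
      intro J hJ0 hJ hJg
      apply le_antisymm
      · intro b hb
        exact mem_ideal_span_fix h hq hφ hJ0 hJ hx0 (by omega) hx (by omega) _ b le_rfl hb
      · rw [Ideal.span_le]
        exact Set.inter_subset_left
    rw [key J hJ0 hJ hJg, key J' hJ0' hJ' hJg']
    exact congrArg Ideal.span hJJ

end Geom

section Res

variable {k : Type u} [Field k] [IsAlgClosed k] (O : ValuationSubring k)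

/-- The residue field of a valuation ring of an algebraically closed field is algebraically
closed. -/
theorem isAlgClosed_residueField : IsAlgClosed (IsLocalRing.ResidueField O) := by
  refine IsAlgClosed.of_exists_root _ fun p hp hirr => ?_
  have hsurj : Function.Surjective (IsLocalRing.residue O) := IsLocalRing.residue_surjective
  have hpl : p ∈ Polynomial.lifts (IsLocalRing.residue O) := by
    rw [Polynomial.lifts_iff_coeff_lifts]
    intro n
    exact hsurj _
  obtain ⟨P, hP, hPd, hPm⟩ := Polynomial.lifts_and_degree_eq_and_monic hpl hp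
  have hdeg : (P.map O.subtype).degree ≠ 0 := by
    rw [hPm.degree_map, hPd]
    exact (Polynomial.degree_pos_of_irreducible hirr).ne'
  obtain ⟨z, hz⟩ := IsAlgClosed.exists_root _ hdeg
  have hint : IsIntegral O z := by
    refine ⟨P, hPm, ?_⟩
    rw [Polynomial.IsRoot, Polynomial.eval_map] at hz
    exact hz
  obtain ⟨w, hw⟩ := IsIntegrallyClosed.isIntegral_iff.1 hint
  refine ⟨IsLocalRing.residue O w, ?_⟩
  have h1 : Polynomial.eval w P = 0 := by
    have h2 : (algebraMap O k) (Polynomial.eval w P) = 0 := by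
      rw [Polynomial.IsRoot, Polynomial.eval_map, ← hw] at hz
      rw [← Polynomial.eval₂_at_apply]
      exact hz
    exact (map_eq_zero_iff _ (IsFractionRing.injective O k)).1 h2
  rw [← hP, Polynomial.eval_map, Polynomial.eval₂_at_apply, h1, map_zero]

end Res

section Main

variable {k : Type u} {B : Type v} [Field k] [CommRing B] [IsDomain B] [Algebra k B]
  {O : ValuationSubring k} {deg : B → ℕ} {E : Basis (degSet deg) k B}

theorem repr_semilinear {γ : B ≃+* B} {σ : k ≃+* k}
    (hγσ : ∀ c, γ (algebraMap k B c) = algebraMap k B (σ c)) (hγE : ∀ m, γ (E m) = E m)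
    (b : B) (i : degSet deg) : E.repr (γ b) i = σ (E.repr b i) := by
  have h1 : γ b = Finsupp.linearCombination k E ((E.repr b).mapRange σ (map_zero σ)) := by
    conv_lhs => rw [← E.linearCombination_repr b]
    rw [Finsupp.linearCombination_apply, Finsupp.linearCombination_apply,
      Finsupp.sum_mapRange_index (fun _ => by rw [zero_smul]), Finsupp.sum, map_sum, Finsupp.sum]
    refine Finset.sum_congr rfl fun m _ => ?_
    rw [Algebra.smul_def, map_mul, hγσ, hγE, Algebra.smul_def]
  rw [h1, E.repr_linearCombination, Finsupp.mapRange_apply]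

theorem val_lt_iff {σ : k ≃+* k} (hσO : ∀ z, σ z ∈ O ↔ z ∈ O) (z : k) :
    O.valuation (σ z) < 1 ↔ O.valuation z < 1 := by
  by_cases hz : z = 0
  · rw [hz, map_zero]
  have h1 : ∀ y : k, y ≠ 0 → (O.valuation y < 1 ↔ ¬ y⁻¹ ∈ O) := by
    intro y hy
    rw [← O.valuation_le_one_iff, map_inv₀, not_le]
    constructor
    · intro h2
      exact (one_lt_inv₀ ((Valuation.pos_iff _).2 hy)).2 h2
    · intro h2
      exact (one_lt_inv₀ ((Valuation.pos_iff _).2 hy)).1 h2
  rw [h1 z hz, h1 (σ z) (by simpa using hz), ← map_inv₀, hσO]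

variable (h : OnePt k B deg) (hE : IntBasis O deg E)

/-- The action on the integral elements. -/
noncomputable def gO {γ : B ≃+* B} {σ : k ≃+* k}
    (hγσ : ∀ c, γ (algebraMap k B c) = algebraMap k B (σ c)) (hγE : ∀ m, γ (E m) = E m)
    (hσO : ∀ z, σ z ∈ O ↔ z ∈ O) : BO h hE ≃+* BO h hE where
  toFun b := ⟨γ b, fun i => by
    rw [repr_semilinear hγσ hγE, hσO]
    exact b.2 i⟩
  invFun b := ⟨γ.symm b, fun i => by
    rw [← hσO, ← repr_semilinear hγσ hγE, RingEquiv.apply_symm_apply]
    exact b.2 i⟩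
  left_inv b := Subtype.ext (γ.symm_apply_apply _)
  right_inv b := Subtype.ext (γ.apply_symm_apply _)
  map_mul' a b := Subtype.ext (map_mul γ _ _)
  map_add' a b := Subtype.ext (map_add γ _ _)

section

variable {γ : B ≃+* B} {σ : k ≃+* k}
    (hγσ : ∀ c, γ (algebraMap k B c) = algebraMap k B (σ c)) (hγE : ∀ m, γ (E m) = E m)
    (hσO : ∀ z, σ z ∈ O ↔ z ∈ O)

theorem coe_gO (b : BO h hE) : ((gO h hE hγσ hγE hσO b : BO h hE) : B) = γ b := rfl

theorem gO_mem_mB (b : BO h hE) : gO h hE hγσ hγE hσO b ∈ mB h hE ↔ b ∈ mB h hE := by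
  rw [mem_mB, mem_mB]
  refine forall_congr' fun i => ?_
  rw [coe_gO, repr_semilinear hγσ hγE, val_lt_iff hσO]

theorem mB_map : mB h hE = (mB h hE).map (gO h hE hγσ hγE hσO : BO h hE →+* BO h hE) := by
  ext b
  rw [mem_map_equiv]
  constructor
  · intro hb
    refine ⟨(gO h hE hγσ hγE hσO).symm b, ?_, RingEquiv.apply_symm_apply _ _⟩
    rw [← gO_mem_mB h hE hγσ hγE hσO, RingEquiv.apply_symm_apply]
    exact hb
  · rintro ⟨a, ha, rfl⟩
    exact (gO_mem_mB h hE hγσ hγE hσO a).2 ha

/-- The action on the reduction. -/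
noncomputable def gbar : Bbar h hE ≃+* Bbar h hE :=
  Ideal.quotientEquiv (mB h hE) (mB h hE) (gO h hE hγσ hγE hσO) (mB_map h hE hγσ hγE hσO)

theorem gbar_mk (b : BO h hE) : gbar h hE hγσ hγE hσO (Ideal.Quotient.mk (mB h hE) b) =
    Ideal.Quotient.mk (mB h hE) (gO h hE hγσ hγE hσO b) := rfl

theorem redI_map (I : Ideal B) : redI h hE (I.map (γ : B →+* B)) =
    (redI h hE I).map (gbar h hE hγσ hγE hσO : Bbar h hE →+* Bbar h hE) := by
  ext x
  rw [mem_map_equiv, redI, redI, Ideal.mem_map_iff_of_surjective _ Ideal.Quotient.mk_surjective]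
  constructor
  · rintro ⟨b, hb, rfl⟩
    rw [Ideal.mem_comap, mem_map_equiv] at hb
    obtain ⟨a, haI, hab⟩ := hb
    refine ⟨Ideal.Quotient.mk (mB h hE) ((gO h hE hγσ hγE hσO).symm b),
      Ideal.mem_map_of_mem _ ?_, ?_⟩
    · rw [Ideal.mem_comap]
      have h1 : (BO h hE).subtype ((gO h hE hγσ hγE hσO).symm b) = a := by
        apply γ.injective
        rw [hab]
        exact γ.apply_symm_apply _
      rw [h1]
      exact haI
    · rw [gbar_mk, RingEquiv.apply_symm_apply]
  · rintro ⟨y, hy, rfl⟩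
    rw [Ideal.mem_map_iff_of_surjective _ Ideal.Quotient.mk_surjective] at hy
    obtain ⟨c, hc, rfl⟩ := hy
    refine ⟨gO h hE hγσ hγE hσO c, ?_, (gbar_mk h hE hγσ hγE hσO c).symm⟩
    rw [Ideal.mem_comap, mem_map_equiv]
    exact ⟨c, hc, rfl⟩

end

/-- Normalisation of a nonzero element by a constant. -/
theorem exists_scale {a : B} (ha : a ≠ 0) :
    ∃ f : BO h hE, f ∉ mB h hE ∧ Ideal.span {a} = Ideal.span {(f : B)} := by
  classical
  have h0 : (E.repr a).support.Nonempty := by
    rw [Finsupp.support_nonempty_iff]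
    intro h1
    apply ha
    apply E.repr.injective
    rw [h1, map_zero]
  obtain ⟨j, hj, hmax⟩ := Finset.exists_max_image _ (fun i => O.valuation (E.repr a i)) h0
  have hcj : E.repr a j ≠ 0 := Finsupp.mem_support_iff.1 hj
  have hvj : 0 < O.valuation (E.repr a j) := (Valuation.pos_iff _).2 hcj
  have hrep : ∀ i, O.valuation (E.repr ((E.repr a j)⁻¹ • a) i) =
      (O.valuation (E.repr a j))⁻¹ * O.valuation (E.repr a i) := by
    intro i
    rw [map_smul, Finsupp.smul_apply, smul_eq_mul, map_mul, map_inv₀]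
  refine ⟨⟨(E.repr a j)⁻¹ • a, fun i => ?_⟩, ?_, ?_⟩
  · rw [← O.valuation_le_one_iff, hrep]
    by_cases hi : i ∈ (E.repr a).support
    · rw [inv_mul_le_iff₀ hvj, mul_one]
      exact hmax i hi
    · rw [Finsupp.notMem_support_iff.1 hi, map_zero, mul_zero]
      exact zero_le_one
  · rw [mem_mB]
    push Not
    refine ⟨j, ?_⟩
    change 1 ≤ O.valuation (E.repr ((E.repr a j)⁻¹ • a) j)
    rw [hrep, inv_mul_cancel₀ hvj.ne']
  · change Ideal.span {a} = Ideal.span {(E.repr a j)⁻¹ • a}
    rw [Algebra.smul_def]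
    have hu : IsUnit (algebraMap k B (E.repr a j)⁻¹) :=
      (IsUnit.mk0 _ (inv_ne_zero hcj)).map (algebraMap k B)
    exact (Ideal.span_singleton_mul_left_unit hu a).symm

variable [IsAlgClosed k] [IsDedekindDomain B] [IsDedekindDomain (Bbar h hE)]

omit [IsAlgClosed k] [IsDedekindDomain B] [IsDedekindDomain (Bbar h hE)] in
theorem red_sameClass
    (hmul : ∀ I J : Ideal B, I ≠ ⊥ → J ≠ ⊥ → redI h hE (I * J) = redI h hE I * redI h hE J)
    (hspan : ∀ f : BO h hE, f ∉ mB h hE →
      redI h hE (Ideal.span {(f : B)}) = Ideal.span {Ideal.Quotient.mk (mB h hE) f})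
    {I J : Ideal B} (hI : I ≠ ⊥) (hJ : J ≠ ⊥) (hIJ : SameClass I J) :
    SameClass (redI h hE I) (redI h hE J) := by
  obtain ⟨a, b, ha, hb, e⟩ := hIJ
  obtain ⟨f, hf, haf⟩ := exists_scale h hE ha
  obtain ⟨f', hf', hbf⟩ := exists_scale h hE hb
  have hf0 : Ideal.span {(f : B)} ≠ ⊥ := by
    rw [← haf]
    simpa using ha
  have hf0' : Ideal.span {(f' : B)} ≠ ⊥ := by
    rw [← hbf]
    simpa using hb
  refine ⟨Ideal.Quotient.mk (mB h hE) f, Ideal.Quotient.mk (mB h hE) f', ?_, ?_, ?_⟩
  · rwa [Ne, Ideal.Quotient.eq_zero_iff_mem]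
  · rwa [Ne, Ideal.Quotient.eq_zero_iff_mem]
  · rw [haf, hbf] at e
    rw [← hspan f hf, ← hspan f' hf', ← hmul _ _ hf0 hI, ← hmul _ _ hf0' hJ, e]

end Main

end R6

open R6

/-- R6, with the properties of the reduction of ideals (block R4b) as hypotheses. -/
theorem finite_frob_core {k : Type u} {B : Type v} [Field k] [CommRing B] [IsDomain B] [Algebra k B]
    {O : ValuationSubring k} {deg : B → ℕ} {E : Basis (degSet deg) k B}
    [IsAlgClosed k] [IsDedekindDomain B] (h : OnePt k B deg) (hE : IntBasis O deg E)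
    [IsDedekindDomain (Bbar h hE)]
    (hmul : ∀ I J : Ideal B, I ≠ ⊥ → J ≠ ⊥ → redI h hE (I * J) = redI h hE I * redI h hE J)
    (hspan : ∀ f : BO h hE, f ∉ mB h hE →
      redI h hE (Ideal.span {(f : B)}) = Ideal.span {Ideal.Quotient.mk (mB h hE) f})
    (hbot : ∀ I : Ideal B, I ≠ ⊥ → redI h hE I ≠ ⊥)
    {γ : B ≃+* B} {σ : k ≃+* k} {p f : ℕ} (hp : p.Prime) (hf : 0 < f)
    (hγσ : ∀ c, γ (algebraMap k B c) = algebraMap k B (σ c)) (hγE : ∀ m, γ (E m) = E m)
    (hσO : ∀ z, σ z ∈ O ↔ z ∈ O)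
    (hfrob : ∀ z ∈ O, O.valuation (σ z - z ^ p ^ f) < 1) :
    ∃ M : ℕ, ∀ I : Fin (M + 1) → Ideal B, (∀ i, I i ≠ ⊥) →
      (∀ i, SameClass (I i) ((I i).map (γ : B →+* B))) →
      ∃ i j, i ≠ j ∧ SameClass (redI h hE (I i)) (redI h hE (I j)) := by
  classical
  have hac := isAlgClosed_residueField O
  obtain ⟨Eb, hEb⟩ := exists_Ebar h hE
  obtain ⟨-, degb, hb, hdS, hdle, hdiff⟩ := exists_degbar h hE
  have hq : 1 < p ^ f := Nat.one_lt_pow hf.ne' hp.one_lt
  set φ := gbar h hE hγσ hγE hσO with hφdef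
  have hφ : Frob Eb degb (p ^ f) φ := by
    constructor
    · intro b i
      obtain ⟨b, rfl⟩ := Ideal.Quotient.mk_surjective b
      rw [hφdef, gbar_mk, hEb, hEb, ← map_pow, ← sub_eq_zero, ← map_sub,
        IsLocalRing.residue_eq_zero_iff, O.valuation_lt_one_iff]
      have h1 := hfrob (E.repr (b : B) i) (b.2 i)
      rw [← repr_semilinear hγσ hγE] at h1
      exact h1
    · intro b
      obtain ⟨b, rfl⟩ := Ideal.Quotient.mk_surjective b
      have h1 : ∀ n, degb (φ (Ideal.Quotient.mk (mB h hE) b)) ≤ n ↔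
          degb (Ideal.Quotient.mk (mB h hE) b) ≤ n := by
        intro n
        rw [hφdef, gbar_mk, hdiff, hdiff]
        refine forall_congr' fun i => imp_congr_right fun _ => ?_
        rw [coe_gO, repr_semilinear hγσ hγE, val_lt_iff hσO]
      exact le_antisymm ((h1 _).2 le_rfl) ((h1 _).1 le_rfl)
  set g := ((degSet degb)ᶜ).ncard with hg
  have hfin := finite_stable hb hq hφ g
  set T := {J : Ideal (Bbar h hE) | J ≠ ⊥ ∧ (∀ b ∈ J, φ b ∈ J) ∧
    finrank (IsLocalRing.ResidueField O) (Bbar h hE ⧸ J) ≤ g} with hT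
  refine ⟨T.ncard, fun I hI0 hI => ?_⟩
  -- the minimal ideals
  have hmin : ∀ i, ∃ J ∈ T, SameClass (redI h hE (I i)) J := by
    intro i
    have hR0 : redI h hE (I i) ≠ ⊥ := hbot _ (hI0 i)
    have hγ0 : (I i).map (γ : B →+* B) ≠ ⊥ := by
      intro h0
      obtain ⟨a, haI, ha0⟩ := (Submodule.ne_bot_iff _).1 (hI0 i)
      have h1 : γ a ∈ (I i).map (γ : B →+* B) := Ideal.mem_map_of_mem _ haI
      rw [h0, Ideal.mem_bot] at h1
      exact ha0 (by simpa using h1)
    have hRφ : SameClass (redI h hE (I i)) ((redI h hE (I i)).map (φ : Bbar h hE →+* Bbar h hE)) := by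
      rw [hφdef, ← redI_map h hE hγσ hγE hσO]
      exact red_sameClass h hE hmul hspan (hI0 i) hγ0 (hI i)
    -- minimal colength in the class
    have hne : ∃ n, ∃ J : Ideal (Bbar h hE), J ≠ ⊥ ∧ SameClass (redI h hE (I i)) J ∧
        finrank (IsLocalRing.ResidueField O) (Bbar h hE ⧸ J) = n :=
      ⟨_, _, hR0, sc_refl _, rfl⟩
    obtain ⟨J, hJ0, hRJ, hJn⟩ := Nat.find_spec hne
    have hJmin : ∀ I' : Ideal (Bbar h hE), I' ≠ ⊥ → SameClass J I' →
        finrank (IsLocalRing.ResidueField O) (Bbar h hE ⧸ J) ≤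
        finrank (IsLocalRing.ResidueField O) (Bbar h hE ⧸ I') := by
      intro I' hI' hJI
      rw [hJn]
      exact Nat.find_min' hne ⟨I', hI', sc_trans hRJ hJI, rfl⟩
    have hmem : ∀ b, b ∈ J.map (φ : Bbar h hE →+* Bbar h hE) ↔ ∃ a ∈ J, φ a = b :=
      fun b => mem_map_equiv φ
    have hφJ0 : J.map (φ : Bbar h hE →+* Bbar h hE) ≠ ⊥ := by
      intro h0
      obtain ⟨a, haI, ha0⟩ := (Submodule.ne_bot_iff _).1 hJ0
      have h1 : φ a ∈ J.map (φ : Bbar h hE →+* Bbar h hE) := (hmem _).2 ⟨a, haI, rfl⟩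
      rw [h0, Ideal.mem_bot] at h1
      exact ha0 (by simpa using h1)
    have hcol : finrank (IsLocalRing.ResidueField O)
        (Bbar h hE ⧸ J.map (φ : Bbar h hE →+* Bbar h hE)) =
        finrank (IsLocalRing.ResidueField O) (Bbar h hE ⧸ J) := by
      rw [← (hb.ncard_missing hJ0).2, ← (hb.ncard_missing hφJ0).2]
      congr 1
      ext n
      refine and_congr_right fun _ => ?_
      constructor
      · intro h1 b hbJ hb0
        rw [← hφ.deg]
        exact h1 (φ b) ((hmem _).2 ⟨b, hbJ, rfl⟩) (by simpa using hb0)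
      · intro h1 b hbJ hb0
        obtain ⟨a, haJ, rfl⟩ := (hmem _).1 hbJ
        rw [hφ.deg]
        exact h1 a haJ (by rintro rfl; exact hb0 (map_zero φ))
    have hJφ : SameClass J (J.map (φ : Bbar h hE →+* Bbar h hE)) :=
      sc_trans (sc_symm hRJ) (sc_trans hRφ (sc_map φ hRJ))
    have heq := hb.minimal_unique hJ0 hφJ0 hJφ hJmin hcol.le
    refine ⟨J, ⟨hJ0, fun b hbJ => ?_, ?_⟩, hRJ⟩
    · rw [heq]
      exact (hmem _).2 ⟨b, hbJ, rfl⟩
    · obtain ⟨J', hJ'0, hJJ', hJ'g⟩ := hb.exists_small hJ0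
      exact (hJmin J' hJ'0 hJJ').trans hJ'g
  choose J hJT hJ using hmin
  have hcard : T.ncard < (Set.univ : Set (Fin (T.ncard + 1))).ncard := by
    rw [Set.ncard_univ, Nat.card_eq_fintype_card, Fintype.card_fin]
    omega
  obtain ⟨i, -, j, -, hij, he⟩ := Set.exists_ne_map_eq_of_ncard_lt_of_maps_to hcard
    (f := J) (fun i _ => hJT i) hfin
  refine ⟨i, j, hij, sc_trans (hJ i) ?_⟩
  rw [he]
  exact sc_symm (hJ j)

end Pool.Agent.SC
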