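import Mathlib
import Pool.Agent.SC.DefsT
import Pool.Agent.SC.Defs2
import Pool.Agent.SC.R1a
import Pool.Agent.SC.R1b
import Pool.Agent.SC.R6core

/-!
# TC: the `q`-th root of the class of the generic point is rational
-/

set_option linter.unusedSectionVars false
set_option linter.overlappingInstances false
set_option linter.unusedVariables false

universe u

namespace Pool.Agent.SC

open Module VC TensorProduct

namespace TC

section Conj

variable {k B Ω : Type u} [Field k] [CommRing B] [Algebra k B] [Field Ω] [Algebra k Ω]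

/-- The action of an automorphism of `Ω` on `Ω ⊗ B`. -/
noncomputable def conj (σ : Ω ≃ₐ[k] Ω) : Ω ⊗[k] B ≃+* Ω ⊗[k] B :=
  (Algebra.TensorProduct.congr σ (AlgEquiv.refl (R := k) (A₁ := B))).toRingEquiv

theorem conj_tmul (σ : Ω ≃ₐ[k] Ω) (c : Ω) (b : B) :
    conj (B := B) σ (c ⊗ₜ[k] b) = σ c ⊗ₜ[k] b := by
  unfold conj
  change (Algebra.TensorProduct.congr σ (AlgEquiv.refl (R := k) (A₁ := B))) (c ⊗ₜ[k] b) = _
  rw [Algebra.TensorProduct.congr_apply, Algebra.TensorProduct.map_tmul]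
  rfl

theorem conj_smul (σ : Ω ≃ₐ[k] Ω) (c : Ω) (x : Ω ⊗[k] B) :
    conj σ (c • x) = σ c • conj σ x := by
  rw [Algebra.smul_def, Algebra.smul_def, map_mul, Algebra.TensorProduct.algebraMap_apply,
    Algebra.TensorProduct.algebraMap_apply, conj_tmul]
  rfl

theorem conj_algebraMap (σ : Ω ≃ₐ[k] Ω) (c : Ω) :
    conj σ (algebraMap Ω (Ω ⊗[k] B) c) = algebraMap Ω (Ω ⊗[k] B) (σ c) := by
  rw [Algebra.TensorProduct.algebraMap_apply, Algebra.TensorProduct.algebraMap_apply, conj_tmul]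
  rfl

variable {deg : B → ℕ} {degC : Ω ⊗[k] B → ℕ} {E : Basis (degSet deg) k B}
  {EC : Basis (degSet degC) Ω (Ω ⊗[k] B)}

theorem repr_conj
    (hj : BaseChange E (Algebra.TensorProduct.includeRight (R := k) (A := Ω) (B := B)).toRingHom
      EC) (σ : Ω ≃ₐ[k] Ω) (x : Ω ⊗[k] B) (i : degSet degC) :
    EC.repr (conj σ x) i = σ (EC.repr x i) := by
  classical
  have hfix : ∀ m : degSet degC, conj σ (EC m) = EC m := by
    intro m
    have hm : (m : ℕ) ∈ degSet deg := by rw [← hj.set_eq]; exact m.2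
    rw [hj.basis ⟨m, hm⟩ m rfl]
    change conj σ (1 ⊗ₜ[k] E ⟨m, hm⟩) = 1 ⊗ₜ[k] E ⟨m, hm⟩
    rw [conj_tmul, map_one]
  have h1 : conj σ x = ∑ m ∈ (EC.repr x).support, σ (EC.repr x m) • EC m := by
    conv_lhs => rw [← EC.linearCombination_repr x]
    rw [Finsupp.linearCombination_apply, Finsupp.sum, map_sum]
    refine Finset.sum_congr rfl fun m _ => ?_
    rw [conj_smul, hfix]
  rw [h1, map_sum, Finsupp.finsetSum_apply]
  simp_rw [map_smul, Finsupp.smul_apply, EC.repr_self, Finsupp.single_apply, smul_eq_mul]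
  rw [Finset.sum_eq_single i]
  · rw [if_pos rfl, mul_one]
  · intro m _ hm
    rw [if_neg hm, mul_zero]
  · intro hm
    rw [Finsupp.notMem_support_iff.1 hm, map_zero, zero_mul]

theorem finrank_conj (σ : Ω ≃ₐ[k] Ω) (J : Ideal (Ω ⊗[k] B)) :
    finrank Ω ((Ω ⊗[k] B) ⧸
      J.map ((conj σ : Ω ⊗[k] B ≃+* Ω ⊗[k] B) : Ω ⊗[k] B →+* Ω ⊗[k] B)) =
      finrank Ω ((Ω ⊗[k] B) ⧸ J) := by
  symm
  refine Algebra.finrank_eq_of_equiv_equiv σ.toRingEquiv
    (Ideal.quotientEquiv J _ (conj σ) rfl) ?_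
  ext c
  change Ideal.Quotient.mk _ (algebraMap Ω (Ω ⊗[k] B) (σ c)) =
    Ideal.Quotient.mk _ (conj σ (algebraMap Ω (Ω ⊗[k] B) c))
  rw [conj_algebraMap]

end Conj

section Desc

variable {ι Ω K C : Type*} [Field Ω] [Field K] [Algebra K Ω] [AddCommGroup C] [Module Ω C]

/-- Descent of an invariant subspace. -/
theorem desc [IsGalois K Ω] (b : Basis ι Ω C) (Φ : (Ω ≃ₐ[K] Ω) → C → C)
    (hΦ : ∀ σ x i, b.repr (Φ σ x) i = σ (b.repr x i)) (J : Submodule Ω C)
    (hJ : ∀ σ, ∀ x ∈ J, Φ σ x ∈ J) :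
    ∀ v ∈ J, v ∈ Submodule.span Ω {u | u ∈ J ∧ ∀ i, b.repr u i ∈ (algebraMap K Ω).range} := by
  classical
  have key : ∀ n : ℕ, ∀ v ∈ J, (b.repr v).support.card = n →
      v ∈ Submodule.span Ω {u | u ∈ J ∧ ∀ i, b.repr u i ∈ (algebraMap K Ω).range} := by
    intro n
    induction n using Nat.strong_induction_on with
    | _ n ih =>
      intro v hv hn
      by_cases hv0 : v = 0
      · rw [hv0]; exact Submodule.zero_mem _
      have hex : ∃ m : ℕ, ∃ w ∈ J, w ≠ 0 ∧ (b.repr w).support ⊆ (b.repr v).support ∧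
          (b.repr w).support.card = m := ⟨_, v, hv, hv0, Finset.Subset.refl _, rfl⟩
      obtain ⟨w, hw, hw0, hwv, hwm⟩ := Nat.find_spec hex
      have hmin : ∀ w' ∈ J, (b.repr w').support ⊂ (b.repr w).support → w' = 0 := by
        intro w' hw' hss
        by_contra hne
        refine Nat.find_min hex (m := (b.repr w').support.card) ?_
          ⟨w', hw', hne, hss.1.trans hwv, rfl⟩
        rw [← hwm]
        exact Finset.card_lt_card hss
      obtain ⟨i, hi⟩ : (b.repr w).support.Nonempty := by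
        rw [Finsupp.support_nonempty_iff]
        intro h1
        exact hw0 (by simpa using h1)
      have hi0 : b.repr w i ≠ 0 := Finsupp.mem_support_iff.1 hi
      set w1 : C := (b.repr w i)⁻¹ • w with hw1
      have hw1J : w1 ∈ J := J.smul_mem _ hw
      have hw1r : ∀ m, b.repr w1 m = (b.repr w i)⁻¹ * b.repr w m := fun m => by
        rw [hw1, map_smul, Finsupp.smul_apply, smul_eq_mul]
      have hw1s : ∀ m, b.repr w m = 0 → b.repr w1 m = 0 := fun m hm => by
        rw [hw1r, hm, mul_zero]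
      have hw1i : b.repr w1 i = 1 := by rw [hw1r, inv_mul_cancel₀ hi0]
      have hfix : ∀ σ, Φ σ w1 = w1 := by
        intro σ
        have h1 : Φ σ w1 - w1 = 0 := by
          apply hmin _ (J.sub_mem (hJ σ _ hw1J) hw1J)
          rw [Finset.ssubset_iff_of_subset]
          · refine ⟨i, hi, ?_⟩
            rw [Finsupp.notMem_support_iff, map_sub, Finsupp.sub_apply, hΦ, hw1i, map_one, sub_self]
          · intro m hm
            rw [Finsupp.mem_support_iff] at hm ⊢
            intro h2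
            apply hm
            rw [map_sub, Finsupp.sub_apply, hΦ, hw1s m h2, map_zero, sub_self]
        exact sub_eq_zero.1 h1
      have hrat : ∀ m, b.repr w1 m ∈ (algebraMap K Ω).range := by
        intro m
        have h1 : b.repr w1 m ∈ (⊥ : IntermediateField K Ω) := by
          rw [InfiniteGalois.mem_bot_iff_fixed]
          intro σ
          have := hΦ σ w1 m
          rw [hfix σ] at this
          exact this.symm
        obtain ⟨z, hz⟩ := IntermediateField.mem_bot.1 h1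
        exact ⟨z, hz⟩
      have hw1S : w1 ∈ Submodule.span Ω
          {u | u ∈ J ∧ ∀ i, b.repr u i ∈ (algebraMap K Ω).range} :=
        Submodule.subset_span ⟨hw1J, hrat⟩
      have hrest : v - b.repr v i • w1 ∈ Submodule.span Ω
          {u | u ∈ J ∧ ∀ i, b.repr u i ∈ (algebraMap K Ω).range} := by
        refine ih _ ?_ _ (J.sub_mem hv (J.smul_mem _ hw1J)) rfl
        rw [← hn]
        apply Finset.card_lt_card
        rw [Finset.ssubset_iff_of_subset]
        · refine ⟨i, hwv hi, ?_⟩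
          rw [Finsupp.notMem_support_iff, map_sub, Finsupp.sub_apply, map_smul, Finsupp.smul_apply,
            hw1i, smul_eq_mul, mul_one, sub_self]
        · intro m hm
          rw [Finsupp.mem_support_iff] at hm ⊢
          intro h2
          apply hm
          have h3 : b.repr w m = 0 := by
            by_contra h4
            exact (Finsupp.mem_support_iff.1 (hwv (Finsupp.mem_support_iff.2 h4))) h2
          rw [map_sub, Finsupp.sub_apply, map_smul, Finsupp.smul_apply, hw1s m h3, h2, smul_zero,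
            sub_self]
      have h5 : v = (v - b.repr v i • w1) + b.repr v i • w1 := by abel
      rw [h5]
      exact Submodule.add_mem _ hrest (Submodule.smul_mem _ _ hw1S)
  exact fun v hv => key _ v hv rfl

end Desc

section Cls

variable {C : Type*} [CommRing C] [IsDomain C] [IsDedekindDomain C]

theorem sc_pow {I J : Ideal C} (h : SameClass I J) (q : ℕ) : SameClass (I ^ q) (J ^ q) := by
  obtain ⟨a, b, ha, hb, e⟩ := h
  refine ⟨a ^ q, b ^ q, pow_ne_zero _ ha, pow_ne_zero _ hb, ?_⟩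
  rw [← Ideal.span_singleton_pow, ← Ideal.span_singleton_pow, ← mul_pow, ← mul_pow, e]

theorem principal_of_span_mul {I : Ideal C} {x z : C} (hx : x ≠ 0)
    (h : Ideal.span {x} * I = Ideal.span {z}) : ∃ f : C, I = Ideal.span {f} := by
  have h1 : Ideal.span {z} ≤ Ideal.span {x} := by
    rw [← h]; exact Ideal.mul_le_left
  obtain ⟨f, hf⟩ := Ideal.mem_span_singleton.1 (h1 (Ideal.mem_span_singleton_self z))
  refine ⟨f, ?_⟩
  have hx' : Ideal.span {x} ≠ ⊥ := by rwa [Ne, Ideal.span_singleton_eq_bot]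
  apply mul_left_cancel₀ hx'
  rw [h, hf, Ideal.span_singleton_mul_span_singleton]

theorem exists_compl {I : Ideal C} (hI : I ≠ ⊥) :
    ∃ (I' : Ideal C) (a : C), a ≠ 0 ∧ I' ≠ ⊥ ∧ I * I' = Ideal.span {a} := by
  obtain ⟨a, ha, ha0⟩ := Submodule.exists_mem_ne_zero_of_ne_bot hI
  obtain ⟨I', hI'⟩ := Ideal.dvd_iff_le.2 ((Ideal.span_singleton_le_iff_mem I).2 ha)
  refine ⟨I', a, ha0, ?_, hI'.symm⟩
  rintro rfl
  rw [Ideal.mul_bot, Ideal.span_singleton_eq_bot] at hI'
  exact ha0 hI'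

/-- If `P I^q` and `P J^q` are principal and there is no `q`-torsion, then `I` and `J` are in the
same class. -/
theorem sameClass_of_root {P I J : Ideal C} (hP : P ≠ ⊥) (hI : I ≠ ⊥) (hJ : J ≠ ⊥) {q : ℕ}
    {f g : C} (hf : P * I ^ q = Ideal.span {f}) (hg : P * J ^ q = Ideal.span {g})
    (hT : ∀ I : Ideal C, I ≠ ⊥ → (I ^ q).IsPrincipal → I.IsPrincipal) : SameClass I J := by
  obtain ⟨J', b, hb, hJ', hJb⟩ := exists_compl hJ
  have hg0 : g ≠ 0 := by
    rintro rfl
    rw [Ideal.span_singleton_eq_bot.2 rfl] at hg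
    rcases Ideal.mul_eq_bot.1 hg with h1 | h1
    · exact hP h1
    · exact pow_ne_zero q hJ h1
  have h1 : Ideal.span {g} * (I * J') ^ q = Ideal.span {f * b ^ q} := by
    rw [← hg, mul_pow, ← Ideal.span_singleton_mul_span_singleton, ← hf,
      ← Ideal.span_singleton_pow, ← hJb, mul_pow]
    ring
  obtain ⟨c, hc⟩ := principal_of_span_mul hg0 h1
  have h2 : (I * J').IsPrincipal := hT _ (mul_ne_zero hI hJ') ⟨c, hc⟩
  obtain ⟨d, hd⟩ := h2
  have hd' : I * J' = Ideal.span {d} := hd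
  have hd0 : d ≠ 0 := by
    rintro rfl
    rw [Ideal.span_singleton_eq_bot.2 rfl] at hd'
    exact mul_ne_zero hI hJ' hd'
  refine ⟨b, d, hb, hd0, ?_⟩
  rw [← hJb, ← hd']
  ring

/-- A representative of least colength in a class. -/
theorem exists_minimal {Ω : Type*} [Field Ω] [Algebra Ω C] {J₀ : Ideal C} (hJ₀ : J₀ ≠ ⊥) :
    ∃ J : Ideal C, J ≠ ⊥ ∧ SameClass J₀ J ∧
      ∀ I' : Ideal C, I' ≠ ⊥ → SameClass J I' → finrank Ω (C ⧸ J) ≤ finrank Ω (C ⧸ I') := by
  classical
  have hex : ∃ n : ℕ, ∃ J : Ideal C, J ≠ ⊥ ∧ SameClass J₀ J ∧ finrank Ω (C ⧸ J) = n :=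
    ⟨_, J₀, hJ₀, R6.sc_refl J₀, rfl⟩
  obtain ⟨J, hJ, hJJ, hn⟩ := Nat.find_spec hex
  refine ⟨J, hJ, hJJ, fun I' hI' hs => ?_⟩
  rw [hn]
  exact Nat.find_min' hex ⟨I', hI', R6.sc_trans hJJ hs, rfl⟩

end Cls

end TC

/-- TC.  The `q`-th root of the class of the generic point is rational. -/
theorem exists_root_generic {k B K Ω : Type u} [Field k] [CharZero k] [IsAlgClosed k] [CommRing B]
    [IsDomain B] [Algebra k B] [Field K] [Algebra B K] [IsFractionRing B K] [Algebra k K]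
    [IsScalarTower k B K] [Field Ω] [Algebra K Ω] [Algebra k Ω] [IsScalarTower k K Ω]
    [IsAlgClosure K Ω] [IsDomain (Ω ⊗[k] B)] [IsDedekindDomain (Ω ⊗[k] B)] {deg : B → ℕ}
    {degC : Ω ⊗[k] B → ℕ} {E : Basis (degSet deg) k B} {EC : Basis (degSet degC) Ω (Ω ⊗[k] B)}
    (h : OnePt k B deg) (hC : OnePt Ω (Ω ⊗[k] B) degC)
    (hj : BaseChange E (Algebra.TensorProduct.includeRight (R := k) (A := Ω) (B := B)).toRingHom
      EC) {q : ℕ} (hq : 0 < q)
    (hT : ∀ I : Ideal (Ω ⊗[k] B), I ≠ ⊥ → (I ^ q).IsPrincipal → I.IsPrincipal)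
    (hdiv : ∀ I : Ideal (Ω ⊗[k] B), I ≠ ⊥ → ∀ n : ℕ, 0 < n →
      ∃ J : Ideal (Ω ⊗[k] B), J ≠ ⊥ ∧ SameClass I (J ^ n)) :
    ∃ (ε : Ω ⊗[k] B →ₐ[Ω] Ω) (J : Ideal (Ω ⊗[k] B)) (f : Ω ⊗[k] B),
      (∀ b : B, ε (1 ⊗ₜ b) = algebraMap K Ω (algebraMap B K b)) ∧ J ≠ ⊥ ∧ f ≠ 0 ∧
      Ideal.span {f} = RingHom.ker ε * J ^ q ∧
      ∀ v ∈ J, v ∈ Submodule.span Ω
        {u : Ω ⊗[k] B | u ∈ J ∧ ∀ i, EC.repr u i ∈ (algebraMap K Ω).range} := by
  classical
  have : CharZero K := charZero_of_injective_algebraMap (algebraMap k K).injective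
  have : CharZero Ω := charZero_of_injective_algebraMap (algebraMap k Ω).injective
  have hGal : IsGalois K Ω := IsAlgClosure.isGalois K Ω
  let e1 : B →ₐ[k] Ω := (IsScalarTower.toAlgHom k K Ω).comp (IsScalarTower.toAlgHom k B K)
  have he1 : ∀ b, e1 b = algebraMap K Ω (algebraMap B K b) := fun b => rfl
  let ε : Ω ⊗[k] B →ₐ[Ω] Ω :=
    Algebra.TensorProduct.lift (AlgHom.id Ω Ω) e1 (fun _ _ => Commute.all _ _)
  have hε1 : ∀ (c : Ω) (b : B), ε (c ⊗ₜ[k] b) = c * e1 b := fun c b => by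
    change Algebra.TensorProduct.lift (AlgHom.id Ω Ω) e1 _ _ = _
    rw [Algebra.TensorProduct.lift_tmul]
    rfl
  -- the kernel
  set P : Ideal (Ω ⊗[k] B) := RingHom.ker ε with hPdef
  have hP : P ≠ ⊥ := by
    intro hbot
    obtain ⟨N, hN⟩ := hC.exists_large
    obtain ⟨b, hb0, hb⟩ := hN (N + 1) (by omega)
    have h1 : b - algebraMap Ω _ (ε b) ∈ P := by
      rw [hPdef, RingHom.mem_ker, map_sub, AlgHom.commutes]
      exact sub_self _
    rw [hbot, Ideal.mem_bot, sub_eq_zero] at h1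
    have h2 := hC.deg_const (ε b)
    rw [← h1, hb] at h2
    omega
  -- the root
  obtain ⟨I', a, ha, hI', hPI'⟩ := TC.exists_compl hP
  obtain ⟨J₀, hJ₀, hJ₀c⟩ := hdiv I' hI' q hq
  obtain ⟨J, hJ, hJc, hJmin⟩ := TC.exists_minimal (Ω := Ω) hJ₀
  obtain ⟨x, y, hx, hy, hxy⟩ := R6.sc_trans hJ₀c (TC.sc_pow hJc q)
  have h2 : Ideal.span {y} * (P * J ^ q) = Ideal.span {x * a} := by
    rw [← Ideal.span_singleton_mul_span_singleton, ← hPI']
    calc Ideal.span {y} * (P * J ^ q) = P * (Ideal.span {y} * J ^ q) := by ring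
      _ = Ideal.span {x} * (P * I') := by rw [← hxy]; ring
  obtain ⟨f, hf⟩ := TC.principal_of_span_mul hy h2
  have hf0 : f ≠ 0 := by
    rintro rfl
    rw [Ideal.span_singleton_eq_bot.2 rfl] at hf
    exact mul_ne_zero hP (pow_ne_zero q hJ) hf
  refine ⟨ε, J, f, fun b => by rw [hε1, one_mul, he1], hJ, hf0, hf.symm, ?_⟩
  -- invariance
  have hinv : ∀ σ : Ω ≃ₐ[K] Ω, ∀ v ∈ J, TC.conj (B := B) (σ.restrictScalars k) v ∈ J := by
    intro σ v hv
    set φ : Ω ⊗[k] B ≃+* Ω ⊗[k] B := TC.conj (B := B) (σ.restrictScalars k) with hφ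
    have hεφ : ∀ z, ε (φ z) = σ (ε z) := by
      intro z
      induction z using TensorProduct.induction_on with
      | zero => rw [map_zero, map_zero, map_zero]
      | add z w hz hw => rw [map_add, map_add, map_add, map_add, hz, hw]
      | tmul c b =>
        rw [hφ, TC.conj_tmul, hε1, hε1, map_mul, he1, AlgEquiv.commutes]
        rfl
    have hPφ : P.map (φ : Ω ⊗[k] B →+* Ω ⊗[k] B) = P := by
      ext z
      rw [R6.mem_map_equiv]
      constructor
      · rintro ⟨w, hw, rfl⟩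
        rw [hPdef, RingHom.mem_ker] at hw ⊢
        have h3 := hεφ w
        have hw' : ε w = 0 := hw
        rw [hw', map_zero] at h3
        exact h3
      · intro hz
        refine ⟨φ.symm z, ?_, φ.apply_symm_apply z⟩
        have h3 := hεφ (φ.symm z)
        rw [φ.apply_symm_apply] at h3
        have hz' : ε z = 0 := hz
        rw [hz'] at h3
        rw [hPdef, RingHom.mem_ker]
        exact (map_eq_zero σ).1 h3.symm
    set J1 : Ideal (Ω ⊗[k] B) := J.map (φ : Ω ⊗[k] B →+* Ω ⊗[k] B) with hJ1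
    have hJ1v : φ v ∈ J1 := Ideal.mem_map_of_mem (φ : Ω ⊗[k] B →+* Ω ⊗[k] B) hv
    have hJ10 : J1 ≠ ⊥ := by
      obtain ⟨w, hw, hw0⟩ := Submodule.exists_mem_ne_zero_of_ne_bot hJ
      intro h3
      have h4 : φ w ∈ J1 := Ideal.mem_map_of_mem (φ : Ω ⊗[k] B →+* Ω ⊗[k] B) hw
      rw [h3, Ideal.mem_bot] at h4
      exact hw0 ((map_eq_zero_iff φ φ.injective).1 h4)
    have hg : P * J1 ^ q = Ideal.span {φ f} := by
      have h3 := congrArg (Ideal.map (φ : Ω ⊗[k] B →+* Ω ⊗[k] B)) hf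
      rw [Ideal.map_mul, Ideal.map_pow, hPφ, Ideal.map_span, Set.image_singleton] at h3
      exact h3
    have hsc : SameClass J J1 := TC.sameClass_of_root hP hJ hJ10 hf hg hT
    have heq : J = J1 := by
      refine hC.minimal_unique' hJ hJ10 hsc hJmin ?_
      rw [hJ1, hφ, TC.finrank_conj]
    rw [heq]
    exact hJ1v
  exact TC.desc (K := K) EC (fun σ x => TC.conj (B := B) (σ.restrictScalars k) x)
    (fun σ x i => TC.repr_conj hj (σ.restrictScalars k) x i) (J.restrictScalars Ω) hinv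

end Pool.Agent.SC
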