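import Mathlib
import Pool.Agent.SC.R4b

/-!
# MP_e66f84_ag, block TD: the Gauss valuation of a one-point ring
-/

universe u

namespace Pool.Agent.SC

open Module

namespace TD

/-- Chevalley: extension of valuation rings. -/
theorem exists_comap_eq' {N U : Type u} [Field N] [Field U] (φ : N →+* U)
    (R : ValuationSubring N) : ∃ B : ValuationSubring U, ∀ x, φ x ∈ B ↔ x ∈ R := by
  obtain ⟨B, hB1, hB2⟩ := Ideal.image_subset_nonunits_valuationSubring
    (A := (φ.comp R.subtype).range)
    ((IsLocalRing.maximalIdeal R).map (φ.comp R.subtype).rangeRestrict) (by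
      intro h
      have hinj : Function.Injective (φ.comp R.subtype).rangeRestrict := by
        intro a b hab
        have h1 := congrArg Subtype.val hab
        exact Subtype.ext (φ.injective h1)
      have hb : Function.Bijective (φ.comp R.subtype).rangeRestrict :=
        ⟨hinj, RingHom.rangeRestrict_surjective _⟩
      have h3 := congrArg (Ideal.comap (φ.comp R.subtype).rangeRestrict) h
      rw [Ideal.comap_map_of_bijective _ hb, Ideal.comap_top] at h3
      exact Ideal.IsPrime.ne_top inferInstance h3)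
  refine ⟨B, fun x => ⟨fun hx => ?_, fun hx => ?_⟩⟩
  · by_contra hxR
    have hx0 : x ≠ 0 := by
      rintro rfl
      exact hxR R.zero_mem
    have h1 : x⁻¹ ∈ R := (R.mem_or_inv_mem x).resolve_left hxR
    have h2 : (⟨x⁻¹, h1⟩ : R) ∈ IsLocalRing.maximalIdeal R := by
      rw [IsLocalRing.mem_maximalIdeal, mem_nonunits_iff]
      intro hu
      obtain ⟨y, hy⟩ := hu.exists_right_inv
      have h3 : x⁻¹ * (y : N) = 1 := congrArg Subtype.val hy
      have h4 : (y : N) = x := by
        field_simp at h3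
        exact h3
      exact hxR (h4 ▸ y.2)
    have h5 : φ x⁻¹ ∈ B.nonunits := by
      apply hB2
      exact ⟨_, Ideal.mem_map_of_mem _ h2, rfl⟩
    rcases (ValuationSubring.mem_nonunits_iff_or _).1 h5 with h6 | h6
    · rw [map_eq_zero, inv_eq_zero] at h6
      exact hx0 h6
    · apply h6
      rw [map_inv₀, inv_inv]
      exact hx
  · exact hB1 ⟨⟨x, hx⟩, rfl⟩

section

variable {k B K : Type u} [Field k] [CommRing B] [IsDomain B] [Algebra k B] [Field K]
  [Algebra B K] [IsFractionRing B K]
  {deg : B → ℕ} {O : ValuationSubring k} {E : Basis (degSet deg) k B}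
  (h : OnePt k B deg) (hE : IntBasis O deg E)

theorem mul_notMem {a b : BO h hE} (ha : a ∉ mB h hE) (hb : b ∉ mB h hE) : a * b ∉ mB h hE := by
  obtain ⟨hdom, -⟩ := exists_degbar h hE
  rw [← Ideal.Quotient.eq_zero_iff_mem, map_mul]
  exact mul_ne_zero (fun h0 => ha (Ideal.Quotient.eq_zero_iff_mem.1 h0))
    (fun h0 => hb (Ideal.Quotient.eq_zero_iff_mem.1 h0))

theorem one_notMem : (1 : BO h hE) ∉ mB h hE := by
  obtain ⟨hdom, -⟩ := exists_degbar h hE
  rw [← Ideal.Quotient.eq_zero_iff_mem, map_one]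
  exact one_ne_zero

theorem ne_zero_of_notMem {b : BO h hE} (hb : b ∉ mB h hE) : algebraMap B K (b : B) ≠ 0 := by
  intro h0
  have h1 : (b : B) = 0 := (IsFractionRing.injective B K) (by rw [h0, map_zero])
  apply hb
  have h2 : b = 0 := Subtype.ext h1
  rw [h2]; exact (mB h hE).zero_mem

variable (K) in
/-- The Gauss valuation ring of the fraction field. -/
def gaussRing : ValuationSubring K where
  carrier := {z | ∃ a b : BO h hE, b ∉ mB h hE ∧ z * algebraMap B K b = algebraMap B K a}
  mul_mem' := by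
    rintro x y ⟨a, b, hb, hx⟩ ⟨c, d, hd, hy⟩
    refine ⟨a * c, b * d, mul_notMem h hE hb hd, ?_⟩
    rw [Subring.coe_mul, Subring.coe_mul, map_mul, map_mul, ← hx, ← hy]
    ring
  one_mem' := ⟨1, 1, one_notMem h hE, by rw [one_mul]⟩
  add_mem' := by
    rintro x y ⟨a, b, hb, hx⟩ ⟨c, d, hd, hy⟩
    refine ⟨a * d + c * b, b * d, mul_notMem h hE hb hd, ?_⟩
    rw [Subring.coe_add, Subring.coe_mul, Subring.coe_mul, Subring.coe_mul, map_add, map_mul,
      map_mul, map_mul, ← hx, ← hy]
    ring
  zero_mem' := ⟨0, 1, one_notMem h hE, by rw [zero_mul, Subring.coe_zero, map_zero]⟩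
  neg_mem' := by
    rintro x ⟨a, b, hb, hx⟩
    refine ⟨-a, b, hb, ?_⟩
    rw [Subring.coe_neg, map_neg, ← hx, neg_mul]
  mem_or_inv_mem' := by
    intro z
    by_cases hz : z = 0
    · left
      subst hz
      exact ⟨0, 1, one_notMem h hE, by rw [zero_mul, Subring.coe_zero, map_zero]⟩
    obtain ⟨x, y, hy, rfl⟩ := IsFractionRing.div_surjective (A := B) z
    have hy0 : y ≠ 0 := nonZeroDivisors.ne_zero hy
    have hx0 : x ≠ 0 := by
      rintro rfl
      exact hz (by rw [map_zero, zero_div])
    obtain ⟨c, x', hc, hx', hxe, -, -⟩ := exists_prim h hE hx0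
    obtain ⟨d, y', hd, hy', hye, -, -⟩ := exists_prim h hE hy0
    have hyK : algebraMap B K y ≠ 0 := by
      intro h0
      exact hy0 ((IsFractionRing.injective B K) (by rw [h0, map_zero]))
    have hxK : algebraMap B K x ≠ 0 := by
      intro h0
      exact hx0 ((IsFractionRing.injective B K) (by rw [h0, map_zero]))
    have key : ∀ {x y : B} {x' y' : BO h hE} {c d : k}, c ≠ 0 → d ≠ 0 → y' ∉ mB h hE →
        x = c • (x' : B) → y = d • (y' : B) → algebraMap B K y ≠ 0 → c / d ∈ O →
        ∃ a b : BO h hE, b ∉ mB h hE ∧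
          algebraMap B K x / algebraMap B K y * algebraMap B K b = algebraMap B K a := by
      intro x y x' y' c d hc hd hy' hx hy hyK hcd
      refine ⟨⟨(c / d) • (x' : B), smul_mem_BO h hE hcd x'.2⟩, y', hy', ?_⟩
      have h1 : x * (y' : B) = ((c / d) • (x' : B)) * y := by
        rw [hx, hy, smul_mul_assoc, smul_mul_smul_comm, div_mul_cancel₀ _ hd]
      have h2 := congrArg (algebraMap B K) h1
      rw [map_mul, map_mul] at h2
      rw [div_mul_eq_mul_div, div_eq_iff hyK, h2]
    rcases O.mem_or_inv_mem (c / d) with h1 | h1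
    · exact Or.inl (key hc hd hy' hxe hye hyK h1)
    · right
      rw [inv_div] at h1 ⊢
      exact key hd hc hx' hye hxe hxK h1

theorem mem_gaussRing {z : K} : z ∈ gaussRing K h hE ↔
    ∃ a b : BO h hE, b ∉ mB h hE ∧ z * algebraMap B K b = algebraMap B K a := Iff.rfl

theorem algebraMap_mem_gaussRing {b : B} :
    algebraMap B K b ∈ gaussRing K h hE ↔ b ∈ BO h hE := by
  rw [mem_gaussRing]
  constructor
  · rintro ⟨a, t, ht, hab⟩
    rw [← map_mul] at hab
    have h1 := (IsFractionRing.injective B K) hab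
    refine gauss h hE ht ?_
    rw [mul_comm, h1]
    exact a.2
  · intro hb
    refine ⟨⟨b, hb⟩, 1, one_notMem h hE, ?_⟩
    rw [Subring.coe_one, map_one, mul_one]

theorem inv_mem_gaussRing {b : BO h hE} (hb0 : (b : B) ≠ 0) :
    (algebraMap B K b)⁻¹ ∈ gaussRing K h hE ↔ b ∉ mB h hE := by
  have hbK : algebraMap B K (b : B) ≠ 0 := by
    intro h0
    exact hb0 ((IsFractionRing.injective B K) (by rw [h0, map_zero]))
  rw [mem_gaussRing]
  constructor
  · rintro ⟨a, t, ht, hab⟩ hb
    have h1 : algebraMap B K (t : B) = algebraMap B K ((b * a : BO h hE) : B) := by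
      rw [Subring.coe_mul, map_mul, ← hab, mul_inv_cancel_left₀ hbK]
    have h2 := (IsFractionRing.injective B K) h1
    apply ht
    have h3 : t = b * a := Subtype.ext h2
    rw [h3]
    exact (mB h hE).mul_mem_right _ hb
  · intro hb
    refine ⟨1, b, hb, ?_⟩
    rw [inv_mul_cancel₀ hbK, Subring.coe_one, map_one]

end

end TD

open TD

/-- TD.  The Gauss valuation. -/
theorem exists_gauss {k B K Ω : Type u} [Field k] [CommRing B] [IsDomain B] [Algebra k B]
    [Field K] [Algebra B K] [IsFractionRing B K] [Field Ω] [Algebra K Ω] {deg : B → ℕ}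
    {O : ValuationSubring k} {E : Basis (degSet deg) k B} (h : OnePt k B deg)
    (hE : IntBasis O deg E) :
    ∃ V : ValuationSubring Ω,
      (∀ b : B, algebraMap K Ω (algebraMap B K b) ∈ V ↔ b ∈ BO h hE) ∧
      (∀ b : BO h hE, V.valuation (algebraMap K Ω (algebraMap B K b)) < 1 ↔ b ∈ mB h hE) ∧
      ∀ z : K, algebraMap K Ω z ∈ V → ∃ a b : BO h hE, b ∉ mB h hE ∧
        z * algebraMap B K b = algebraMap B K a := by
  obtain ⟨V, hV⟩ := exists_comap_eq' (algebraMap K Ω) (gaussRing K h hE)
  refine ⟨V, fun b => ?_, fun b => ?_, fun z hz => (mem_gaussRing h hE).1 ((hV z).1 hz)⟩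
  · rw [hV, algebraMap_mem_gaussRing]
  · have hbV : algebraMap K Ω (algebraMap B K b) ∈ V := by
      rw [hV, algebraMap_mem_gaussRing]; exact b.2
    by_cases hb0 : (b : B) = 0
    · have h1 : b = 0 := Subtype.ext hb0
      rw [hb0, map_zero, map_zero, map_zero, h1]
      exact ⟨fun _ => (mB h hE).zero_mem, fun _ => zero_lt_one⟩
    have hbΩ : algebraMap K Ω (algebraMap B K b) ≠ 0 := by
      intro h0
      exact hb0 ((IsFractionRing.injective B K) ((algebraMap K Ω).injective
        (by rw [h0, map_zero, map_zero])))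
    have h1 : (algebraMap K Ω (algebraMap B K b))⁻¹ ∈ V ↔ b ∉ mB h hE := by
      rw [← map_inv₀, hV, inv_mem_gaussRing h hE hb0]
    have h2 : V.valuation (algebraMap K Ω (algebraMap B K b)) < 1 ↔
        ¬ (algebraMap K Ω (algebraMap B K b))⁻¹ ∈ V := by
      have h3 : V.valuation (algebraMap K Ω (algebraMap B K b)) ≠ 0 := by simpa using hbΩ
      rw [← V.valuation_le_one_iff, map_inv₀, inv_le_one₀ (zero_lt_iff.2 h3), not_le]
    rw [h2, h1, not_not]

end Pool.Agent.SC
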