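import Mathlib
import Pool.Agent.SC.Defs
import Pool.Agent.SC.R1a
import Pool.Agent.SC.R1b
import Pool.Agent.SC.R4a
import Pool.Agent.SC.R4b

/-!
# Block R5: reduction is injective on torsion classes
-/

universe u v

namespace Pool.Agent.SC

open Module

section R5

variable {k : Type u} {B : Type v} [Field k] [CommRing B] [IsDomain B] [Algebra k B]
  {O : ValuationSubring k} {deg : B → ℕ} {E : Basis (degSet deg) k B}

theorem exists_eq_span_of_mul {R : Type*} [CommRing R] [IsDomain R] {a u : R} {J : Ideal R}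
    (ha : a ≠ 0) (h : Ideal.span {a} * J = Ideal.span {u}) : ∃ b, J = Ideal.span {b} := by
  have hu : u ∈ Ideal.span {a} * J := by rw [h]; exact Ideal.mem_span_singleton_self u
  rw [Ideal.mem_span_singleton_mul] at hu
  obtain ⟨b, hb, hab⟩ := hu
  refine ⟨b, le_antisymm (fun x hx => ?_) ((Ideal.span_singleton_le_iff_mem J).2 hb)⟩
  have h1 : a * x ∈ Ideal.span {u} := by
    rw [← h]; exact Ideal.mul_mem_mul (Ideal.mem_span_singleton_self a) hx
  rw [Ideal.mem_span_singleton'] at h1
  obtain ⟨c, hc⟩ := h1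
  rw [Ideal.mem_span_singleton']
  refine ⟨c, mul_left_cancel₀ ha ?_⟩
  rw [← hc, ← hab]
  ring

theorem isPrincipal_of_mul {R : Type*} [CommRing R] [IsDomain R] {I J : Ideal R} {u : R}
    (hI : I.IsPrincipal) (hI0 : I ≠ ⊥) (h : I * J = Ideal.span {u}) : J.IsPrincipal := by
  obtain ⟨a, rfl⟩ := hI
  have ha : a ≠ 0 := by
    rintro rfl
    exact hI0 (by simp)
  obtain ⟨b, hb⟩ := exists_eq_span_of_mul ha h
  exact ⟨b, hb⟩

/-- The degree of the reduction of an element with unit leading coefficient. -/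
theorem UL.degb {h : OnePt k B deg} {hE : IntBasis O deg E} {f : BO h hE} (hf : UL h hE f)
    {degb : Bbar h hE → ℕ}
    (hiff : ∀ (b : BO h hE) (n : ℕ), degb (Ideal.Quotient.mk (mB h hE) b) ≤ n ↔
        ∀ i : degSet deg, n < i → O.valuation (E.repr (b : B) i) < 1)
    (hle : ∀ b : BO h hE, degb (Ideal.Quotient.mk (mB h hE) b) ≤ deg (b : B)) :
    degb (Ideal.Quotient.mk (mB h hE) f) = deg (f : B) := by
  obtain ⟨i, hi, hv⟩ := hf
  refine le_antisymm (hle f) ?_
  by_contra hlt
  push Not at hlt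
  have h1 := (hiff f _).1 le_rfl i (by omega)
  rw [hv] at h1
  exact lt_irrefl _ h1

section Moving

variable [IsAlgClosed k] [IsDedekindDomain B] (h : OnePt k B deg) (hE : IntBasis O deg E)
  [IsDedekindDomain (Bbar h hE)]

open Classical in
/-- Factorisation of a primitive integral function vanishing at `P`. -/
theorem exists_fac {P : B →ₐ[k] k} {f : BO h hE} (hf : f ∉ mB h hE) (hPf : P (f : B) = 0)
    {degb : Bbar h hE → ℕ} (hdb : OnePt (IsLocalRing.ResidueField O) (Bbar h hE) degb) :
    ∃ t : Multiset (B →ₐ[k] k),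
      Ideal.span {(f : B)} = RingHom.ker P * (t.map fun P => RingHom.ker P).prod ∧
      t.card + 1 = deg (f : B) ∧
      degb (Ideal.Quotient.mk (mB h hE) f) =
        (if FinPt h hE P then 1 else 0) + (t.filter fun P => FinPt h hE P).card := by
  have hf0 : (f : B) ≠ 0 := by
    intro h0
    apply hf
    rw [mem_mB]
    intro i
    rw [h0]
    simp
  have hs0 : Ideal.span {(f : B)} ≠ ⊥ := by rwa [Ne, Ideal.span_singleton_eq_bot]
  have hle : Ideal.span {(f : B)} ≤ RingHom.ker P :=
    (Ideal.span_singleton_le_iff_mem _).2 hPf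
  obtain ⟨J, hJ⟩ := Ideal.dvd_iff_le.2 hle
  have hJ0 : J ≠ ⊥ := by
    rintro rfl
    rw [Ideal.mul_bot] at hJ
    exact hs0 hJ
  obtain ⟨t, rfl⟩ := exists_prod h hJ0
  have hcons : Ideal.span {(f : B)} = ((P ::ₘ t).map fun P => RingHom.ker P).prod := by
    rw [Multiset.map_cons, Multiset.prod_cons, ← hJ]
  refine ⟨t, hJ, ?_, ?_⟩
  · have h1 := finrank_prod_ker h (P ::ₘ t)
    rw [← hcons, h.finrank_quot_span hf0, Multiset.card_cons] at h1
    exact h1.symm
  · have h1 := (redI_prod h hE (P ::ₘ t)).2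
    rw [← hcons, redI_span h hE hf, hdb.finrank_quot_span (fun h0 => hf
      (Ideal.Quotient.eq_zero_iff_mem.1 h0))] at h1
    rw [h1]
    split_ifs with hP
    · rw [Multiset.filter_cons_of_pos _ hP, Multiset.card_cons, add_comm]
    · rw [Multiset.filter_cons_of_neg _ hP, zero_add]

/-- Every point is a zero of a function all of whose other zeros are finite. -/
theorem exists_fin_compl_point (P : B →ₐ[k] k) : ∃ (t : Multiset (B →ₐ[k] k)) (u : B), u ≠ 0 ∧
    (∀ Q ∈ t, FinPt h hE Q) ∧
    Ideal.span {u} = RingHom.ker P * (t.map fun P => RingHom.ker P).prod := by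
  classical
  obtain ⟨hdom, degb, hdb, hset, hle, hiff⟩ := exists_degbar h hE
  obtain ⟨N, hN⟩ := h.exists_large
  have hall : ∀ t : Multiset (B →ₐ[k] k), (t.filter fun P => FinPt h hE P).card = t.card →
      ∀ Q ∈ t, FinPt h hE Q := by
    intro t ht Q hQ
    have h1 : t.filter (fun P => FinPt h hE P) = t :=
      Multiset.eq_of_le_of_card_le (Multiset.filter_le _ _) ht.ge
    rw [← h1] at hQ
    exact (Multiset.mem_filter.1 hQ).2
  by_cases hP : FinPt h hE P
  · obtain ⟨f, hPf, hUL, hd⟩ := exists_UL h hE hP ⟨N + 1, hN _ (by omega)⟩ (by simp)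
    obtain ⟨t, ht1, ht2, ht3⟩ := exists_fac h hE hUL.notMem hPf hdb
    refine ⟨t, f, hUL.ne_zero, hall t ?_, ht1⟩
    rw [hUL.degb hiff hle, if_pos hP] at ht3
    omega
  · -- no function with unit leading coefficient vanishes at `P`
    have hno : ∀ f : BO h hE, UL h hE f → P (f : B) ≠ 0 := by
      intro f hUL hPf
      obtain ⟨t, ht1, ht2, ht3⟩ := exists_fac h hE hUL.notMem hPf hdb
      rw [hUL.degb hiff hle, if_neg hP, zero_add] at ht3
      have h1 := Multiset.card_le_card (Multiset.filter_le (fun P => FinPt h hE P) t)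
      omega
    have hlt : ∀ i j : degSet deg, (i : ℕ) < j →
        O.valuation (P (E i)) < O.valuation (P (E j)) := by
      intro i j hij
      by_contra hcon
      push Not at hcon
      by_cases h0 : P (E i) = 0
      · rw [h0, map_zero] at hcon
        have h1 : P (E j) = 0 := by
          have h2 : O.valuation (P (E j)) = 0 := le_antisymm hcon zero_le
          simpa using h2
        exact hno _ (UL_E h hE j) h1
      · have hv : O.valuation (P (E i)) ≠ 0 := by simpa using h0
        have hc : P (E j) * (P (E i))⁻¹ ∈ O := by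
          rw [← O.valuation_le_one_iff, map_mul, map_inv₀]
          rwa [mul_inv_le_iff₀ (zero_lt_iff.2 hv), one_mul]
        set c := P (E j) * (P (E i))⁻¹ with hcdef
        let f : BO h hE := ⟨E j, E_mem h hE j⟩ - ⟨c • E i, smul_mem_BO h hE hc (E_mem h hE i)⟩
        have hf : (f : B) = E j - c • E i := rfl
        have hd : deg (f : B) = j := by
          rw [hf, sub_eq_add_neg, h.deg_add_of_lt, hE.deg_E]
          rw [h.deg_neg, hE.deg_E]
          have := h.deg_smul_le c (E i)
          rw [hE.deg_E] at this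
          omega
        have hUL : UL h hE f := by
          refine ⟨j, hd.symm, ?_⟩
          rw [hf, map_sub, map_smul, Finsupp.sub_apply, Finsupp.smul_apply, E.repr_self,
            E.repr_self, Finsupp.single_eq_same, Finsupp.single_apply, if_neg, smul_zero,
            sub_zero, map_one]
          rintro rfl
          exact lt_irrefl _ hij
        apply hno f hUL
        rw [hf, map_sub, map_smul, smul_eq_mul, hcdef, mul_assoc, inv_mul_cancel₀ h0, mul_one,
          sub_self]
    set i : degSet deg := ⟨N + 1, hN _ (by omega)⟩ with hi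
    set j : degSet deg := ⟨N + 2, hN _ (by omega)⟩ with hj
    have hij : (i : ℕ) < j := by rw [hi, hj]; simp
    have h1 := hlt i j hij
    have h2 := hlt ⟨0, zero_mem_degSet h⟩ i (by rw [hi]; simp)
    have hPi : P (E i) ≠ 0 := by
      intro h0
      rw [h0, map_zero] at h2
      exact not_lt_zero' h2
    have hPj : P (E j) ≠ 0 := by
      intro h0
      rw [h0, map_zero] at h1
      exact not_lt_zero' h1
    have hvj : O.valuation (P (E j)) ≠ 0 := by simpa using hPj
    have hcv : O.valuation (P (E i) * (P (E j))⁻¹) < 1 := by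
      rw [map_mul, map_inv₀]
      rwa [mul_inv_lt_iff₀ (zero_lt_iff.2 hvj), one_mul]
    have hc : P (E i) * (P (E j))⁻¹ ∈ O := (O.valuation_le_one_iff _).1 hcv.le
    set c := P (E i) * (P (E j))⁻¹ with hcdef
    have hc0 : c ≠ 0 := mul_ne_zero hPi (inv_ne_zero hPj)
    let f : BO h hE := ⟨E i, E_mem h hE i⟩ - ⟨c • E j, smul_mem_BO h hE hc (E_mem h hE j)⟩
    have hf : (f : B) = E i - c • E j := rfl
    have hPf : P (f : B) = 0 := by
      rw [hf, map_sub, map_smul, smul_eq_mul, hcdef, mul_assoc, inv_mul_cancel₀ hPj, mul_one,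
        sub_self]
    have hd : deg (f : B) = N + 2 := by
      rw [hf, sub_eq_neg_add, h.deg_add_of_lt]
      · rw [h.deg_neg, h.deg_smul hc0, hE.deg_E]
      · rw [h.deg_neg, h.deg_smul hc0, hE.deg_E, hE.deg_E]
        exact hij
    have hfi : E.repr (f : B) i = 1 := by
      rw [hf, map_sub, map_smul, Finsupp.sub_apply, Finsupp.smul_apply, E.repr_self,
        E.repr_self, Finsupp.single_eq_same, Finsupp.single_apply, if_neg, smul_zero, sub_zero]
      intro h3
      rw [h3] at hij
      exact lt_irrefl _ hij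
    have hfm : f ∉ mB h hE := by
      intro hm
      have h3 := mem_mB.1 hm i
      rw [hfi, map_one] at h3
      exact lt_irrefl _ h3
    have hdb1 : degb (Ideal.Quotient.mk (mB h hE) f) = N + 1 := by
      refine le_antisymm ?_ ?_
      · rw [hiff]
        intro l hl
        rw [hf, map_sub, map_smul, Finsupp.sub_apply, Finsupp.smul_apply, E.repr_self,
          E.repr_self, Finsupp.single_apply, Finsupp.single_apply, if_neg]
        · rw [zero_sub, Valuation.map_neg, smul_eq_mul]
          split_ifs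
          · rwa [mul_one]
          · rw [mul_zero, map_zero]; exact zero_lt_one
        · intro h3
          rw [← h3, hi] at hl
          simp at hl
      · by_contra hlt'
        push Not at hlt'
        have h3 := (hiff f _).1 le_rfl i (by rw [hi]; exact hlt')
        rw [hfi, map_one] at h3
        exact lt_irrefl _ h3
    obtain ⟨t, ht1, ht2, ht3⟩ := exists_fac h hE hfm hPf hdb
    have hf0 : (f : B) ≠ 0 := by
      intro h0
      rw [h0, h.deg_zero] at hd
      omega
    refine ⟨t, f, hf0, hall t ?_, ht1⟩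
    rw [hdb1, if_neg hP, zero_add] at ht3
    omega

/-- Every ideal can be moved to finite points. -/
theorem exists_fin_compl {I : Ideal B} (hI : I ≠ ⊥) :
    ∃ (t : Multiset (B →ₐ[k] k)) (u : B), u ≠ 0 ∧ (∀ Q ∈ t, FinPt h hE Q) ∧
      I * (t.map fun P => RingHom.ker P).prod = Ideal.span {u} := by
  obtain ⟨s, rfl⟩ := exists_prod h hI
  clear hI
  induction s using Multiset.induction_on with
  | empty =>
    refine ⟨0, 1, one_ne_zero, fun Q hQ => absurd hQ (Multiset.notMem_zero Q), ?_⟩
    rw [Multiset.map_zero, Multiset.prod_zero, mul_one, Ideal.one_eq_top, Ideal.span_singleton_one]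
  | cons P s ih =>
    obtain ⟨t, u, hu, ht, htu⟩ := ih
    obtain ⟨t', u', hu', ht', htu'⟩ := exists_fin_compl_point h hE P
    refine ⟨t' + t, u' * u, mul_ne_zero hu' hu, ?_, ?_⟩
    · intro Q hQ
      rcases Multiset.mem_add.1 hQ with hQ | hQ
      · exact ht' Q hQ
      · exact ht Q hQ
    · rw [Multiset.map_cons, Multiset.prod_cons, Multiset.map_add, Multiset.prod_add,
        ← Ideal.span_singleton_mul_span_singleton, htu', ← htu]
      ring

end Moving

/-- Truncated Newton step. -/
theorem exists_one_sub_pow {R : Type*} [CommRing R] (x : R) (n : ℕ) :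
    ∃ q, (1 - x) ^ n = 1 - n * x + x ^ 2 * q := by
  induction n with
  | zero => exact ⟨0, by simp⟩
  | succ n ih =>
    obtain ⟨q, hq⟩ := ih
    refine ⟨q - x * q + n, ?_⟩
    rw [pow_succ, hq]
    push_cast
    ring

theorem exists_add_pow {R : Type*} [CommRing R] (x y : R) (n : ℕ) :
    ∃ q, (x + y) ^ (n + 1) = x ^ (n + 1) + ((n + 1 : ℕ) : R) * x ^ n * y + y ^ 2 * q := by
  induction n with
  | zero => exact ⟨0, by simp⟩
  | succ n ih =>
    obtain ⟨q, hq⟩ := ih
    refine ⟨q * x + q * y + ((n + 1 : ℕ) : R) * x ^ n, ?_⟩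
    rw [pow_succ, hq]
    push_cast
    ring

/-- A bounded linear projection. -/
theorem exists_bound (h : OnePt k B deg) (hE : IntBasis O deg E) {I : Ideal B} {f₀ : BO h hE}
    (hf₀ : UL h hE f₀) (hf₀I : (f₀ : B) ∈ I) (d : ℕ)
    (hd : ∀ g ∈ I, deg g ≤ d → g = 0) :
    ∃ c : k, c ≠ 0 ∧ ∀ (r g : B) (ρ : k), (∀ i, O.valuation (E.repr r i) ≤ O.valuation ρ) →
      deg g ≤ d → g + r ∈ I → ∀ i, O.valuation (E.repr g i) * O.valuation c ≤ O.valuation ρ := by
  classical
  obtain ⟨N, hN⟩ := div_UL h hE hf₀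
  set M := max d N with hM
  have hfin := h.finite_L M
  let V := h.L M
  let W : Submodule k V := (I.restrictScalars k).comap V.subtype
  let U : Submodule k V := (h.L d).comap V.subtype
  let φ : U →ₗ[k] (V ⧸ W) := W.mkQ.comp U.subtype
  have hφ : LinearMap.ker φ = ⊥ := by
    rw [LinearMap.ker_eq_bot']
    intro x hx
    have h1 : (x : V) ∈ W := by
      rw [← Submodule.Quotient.mk_eq_zero]
      exact hx
    have h2 : ((x : V) : B) = 0 := hd _ h1 x.2
    exact Subtype.ext (Subtype.ext h2)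
  obtain ⟨ψ, hψ⟩ := LinearMap.exists_leftInverse_of_injective (K := k) (V := ↥U) (V' := ↥V ⧸ W)
    φ hφ
  let lam : V →ₗ[k] B := V.subtype.comp (U.subtype.comp (ψ.comp W.mkQ))
  have hlamU : ∀ x : V, (x : B) ∈ h.L d → lam x = x := by
    intro x hx
    have h1 := LinearMap.congr_fun hψ ⟨x, hx⟩
    change ((ψ (φ ⟨x, hx⟩) : U) : V).1 = _
    rw [LinearMap.comp_apply, LinearMap.id_apply] at h1
    rw [h1]
  have hlamW : ∀ x : V, (x : B) ∈ I → lam x = 0 := by
    intro x hx
    have h1 : W.mkQ x = 0 := by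
      rw [Submodule.mkQ_apply, Submodule.Quotient.mk_eq_zero]
      exact hx
    change ((ψ (W.mkQ x) : U) : V).1 = _
    rw [h1, map_zero]
    rfl
  -- a bound for the coefficients of `lam (E i)`
  let T : Set (degSet deg) := {i | (i : ℕ) ≤ M}
  have hT : T.Finite := Set.Finite.of_finite_image ((Set.finite_le_nat M).subset (by
      rintro _ ⟨i, hi, rfl⟩; exact hi)) Subtype.val_injective.injOn
  have hEV : ∀ i ∈ T, E i ∈ V := by
    intro i hi
    change deg (E i) ≤ M
    rw [hE.deg_E]
    exact hi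
  have hbound : ∃ c : k, c ≠ 0 ∧ ∀ i (hi : i ∈ T) (j : degSet deg),
      O.valuation (E.repr (lam ⟨E i, hEV i hi⟩) j) * O.valuation c ≤ 1 := by
    have key : ∀ T' : Finset (degSet deg), (∀ i ∈ T', i ∈ T) → ∃ c : k, c ≠ 0 ∧ c ∈ O ∧
        ∀ i (hi : i ∈ T), i ∈ T' → ∀ (j : degSet deg),
        O.valuation (E.repr (lam ⟨E i, hEV i hi⟩) j) * O.valuation c ≤ 1 := by
      intro T'
      induction T' using Finset.induction_on with
      | empty => exact fun _ => ⟨1, one_ne_zero, O.one_mem, fun i _ hi => absurd hi (by simp)⟩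
      | insert a T' ha ih =>
        intro hT'
        obtain ⟨c, hc, hcO, hcb⟩ := ih fun i hi => hT' i (Finset.mem_insert_of_mem hi)
        have haT := hT' a (Finset.mem_insert_self _ _)
        by_cases h0 : lam ⟨E a, hEV a haT⟩ = 0
        · refine ⟨c, hc, hcO, fun i hi hiT j => ?_⟩
          rcases Finset.mem_insert.1 hiT with rfl | hiT
          · rw [h0, map_zero, Finsupp.zero_apply, map_zero, zero_mul]
            exact zero_le_one
          · exact hcb i hi hiT j
        · obtain ⟨c', b', hc', -, -, hle, -⟩ := exists_prim h hE h0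
          have hv' : O.valuation c' ≠ 0 := by simpa using hc'
          -- take `c * c'⁻¹` if `c'` is large, otherwise `c`
          by_cases hbig : O.valuation c' ≤ 1
          · refine ⟨c, hc, hcO, fun i hi hiT j => ?_⟩
            rcases Finset.mem_insert.1 hiT with rfl | hiT
            · calc O.valuation (E.repr (lam ⟨E i, hEV i hi⟩) j) * O.valuation c
                  ≤ 1 * 1 := mul_le_mul' ((hle j).trans hbig) ((O.valuation_le_one_iff _).2 hcO)
                _ = 1 := one_mul 1
            · exact hcb i hi hiT j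
          · push Not at hbig
            have hcinv : O.valuation c'⁻¹ ≤ 1 := by
              rw [map_inv₀]
              exact (inv_lt_one_of_one_lt₀ hbig).le
            refine ⟨c * c'⁻¹, mul_ne_zero hc (inv_ne_zero hc'), O.mul_mem _ _ hcO
              ((O.valuation_le_one_iff _).1 hcinv), fun i hi hiT j => ?_⟩
            rcases Finset.mem_insert.1 hiT with rfl | hiT
            · rw [map_mul, map_inv₀]
              calc O.valuation (E.repr (lam ⟨E i, hEV i hi⟩) j) * (O.valuation c * (O.valuation c')⁻¹)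
                  ≤ O.valuation c' * (1 * (O.valuation c')⁻¹) := by
                    gcongr
                    · exact hle j
                    · exact (O.valuation_le_one_iff _).2 hcO
                _ = 1 := by rw [one_mul, mul_inv_cancel₀ hv']
            · rw [map_mul, ← mul_assoc]
              calc O.valuation (E.repr (lam ⟨E i, hEV i hi⟩) j) * O.valuation c * O.valuation c'⁻¹
                  ≤ 1 * 1 := mul_le_mul' (hcb i hi hiT j) hcinv
                _ = 1 := one_mul 1
    obtain ⟨c, hc, -, hcb⟩ := key hT.toFinset fun i hi => hT.mem_toFinset.1 hi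
    exact ⟨c, hc, fun i hi j => hcb i hi (hT.mem_toFinset.2 hi) j⟩
  obtain ⟨c, hc, hcb⟩ := hbound
  refine ⟨c, hc, fun r g ρ hr hg hgr => ?_⟩
  by_cases hρ : ρ = 0
  · have hr0 : r = 0 := by
      have h1 : E.repr r = 0 := by
        ext i
        have h2 := hr i
        rw [hρ, map_zero] at h2
        have h3 : O.valuation (E.repr r i) = 0 := le_antisymm h2 zero_le
        simpa using h3
      simpa using h1
    rw [hr0, add_zero] at hgr
    have hg0 := hd g hgr hg
    intro i
    rw [hg0, map_zero, Finsupp.zero_apply, map_zero, zero_mul]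
    exact zero_le
  have hvρ : O.valuation ρ ≠ 0 := by simpa using hρ
  have hmem : ρ⁻¹ • r ∈ BO h hE := by
    rw [mem_BO]
    intro i
    rw [map_smul, Finsupp.smul_apply, smul_eq_mul, ← O.valuation_le_one_iff, map_mul, map_inv₀,
      inv_mul_le_iff₀ (zero_lt_iff.2 hvρ), mul_one]
    exact hr i
  obtain ⟨q, r₂, hqr, hr₂⟩ := hN ⟨ρ⁻¹ • r, hmem⟩
  have hqr' : ρ⁻¹ • r = (f₀ : B) * q + r₂ := congrArg Subtype.val hqr
  have hr' : r = ρ • ((f₀ : B) * q) + ρ • (r₂ : B) := by
    rw [← smul_add, ← hqr', smul_smul, mul_inv_cancel₀ hρ, one_smul]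
  have hI : g + ρ • (r₂ : B) ∈ I := by
    have h1 : ρ • ((f₀ : B) * q) ∈ I := by
      rw [Algebra.smul_def]
      exact I.mul_mem_left _ (I.mul_mem_right _ hf₀I)
    have h2 := I.sub_mem hgr h1
    rw [hr'] at h2
    convert h2 using 1
    ring
  have hgV : g ∈ V := hg.trans (le_max_left _ _)
  have hrV : (r₂ : B) ∈ V := hr₂.trans (le_max_right _ _)
  have h1 : lam (⟨g, hgV⟩ + ρ • ⟨(r₂ : B), hrV⟩) = 0 := hlamW _ hI
  rw [map_add, map_smul, hlamU ⟨g, hgV⟩ hg] at h1
  have h2 : g = -(ρ • lam ⟨(r₂ : B), hrV⟩) := eq_neg_of_add_eq_zero_left h1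
  -- expand `lam r₂`
  have hiT : ∀ i ∈ (E.repr (r₂ : B)).support, i ∈ T := by
    intro i hi
    have h3 : (i : ℕ) ≤ deg (r₂ : B) := by
      rw [deg_eq_degOf h hE.deg_E]
      exact Finset.le_sup (f := fun i : degSet deg => (i : ℕ)) hi
    exact h3.trans hrV
  have hsum : (⟨(r₂ : B), hrV⟩ : V) = ∑ i ∈ ((E.repr (r₂ : B)).support.attach),
      E.repr (r₂ : B) i.1 • (⟨E i.1, hEV i.1 (hiT i.1 i.2)⟩ : V) := by
    apply Subtype.ext
    rw [AddSubmonoidClass.coe_finsetSum]
    change (r₂ : B) = ∑ i ∈ ((E.repr (r₂ : B)).support.attach), E.repr (r₂ : B) i.1 • E i.1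
    rw [Finset.sum_attach (E.repr (r₂ : B)).support (fun i => E.repr (r₂ : B) i • E i)]
    conv_lhs => rw [← E.linearCombination_repr (r₂ : B)]
    rfl
  intro j
  rw [h2, hsum, map_sum, map_neg, Finsupp.neg_apply, Valuation.map_neg, map_smul,
    Finsupp.smul_apply, smul_eq_mul, map_mul, map_sum, Finsupp.finsetSum_apply]
  have h3 : O.valuation (∑ i ∈ ((E.repr (r₂ : B)).support.attach),
      E.repr (lam (E.repr (r₂ : B) i.1 • (⟨E i.1, hEV i.1 (hiT i.1 i.2)⟩ : V))) j) ≤
      (O.valuation c)⁻¹ := by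
    refine Valuation.map_sum_le _ fun i _ => ?_
    rw [map_smul, map_smul, Finsupp.smul_apply, smul_eq_mul, map_mul]
    have hvc : O.valuation c ≠ 0 := by simpa using hc
    rw [← one_div, le_div_iff₀ (zero_lt_iff.2 hvc), mul_assoc]
    calc _ ≤ 1 * 1 := mul_le_mul' ((O.valuation_le_one_iff _).2 (r₂.2 i.1))
          (hcb i.1 (hiT i.1 i.2) j)
      _ = 1 := one_mul 1
  have hvc : O.valuation c ≠ 0 := by simpa using hc
  calc O.valuation ρ * _ * O.valuation c ≤ O.valuation ρ * (O.valuation c)⁻¹ * O.valuation c := by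
        gcongr
    _ = O.valuation ρ := by rw [mul_assoc, inv_mul_cancel₀ hvc, mul_one]

theorem constBO_coe (h : OnePt k B deg) (hE : IntBasis O deg E) (c : O) :
    ((constBO h hE c : BO h hE) : B) = algebraMap k B (c : k) := rfl

theorem constBO_dvd_iff (h : OnePt k B deg) (hE : IntBasis O deg E) (c : O) (x : BO h hE) :
    constBO h hE c ∣ x ↔ ∀ i, O.valuation (E.repr (x : B) i) ≤ O.valuation (c : k) := by
  constructor
  · rintro ⟨y, rfl⟩ i
    rw [Subring.coe_mul, constBO_coe, ← Algebra.smul_def, map_smul, Finsupp.smul_apply,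
      smul_eq_mul, map_mul]
    exact mul_le_of_le_one_right' ((O.valuation_le_one_iff _).2 (y.2 i))
  · intro hx
    by_cases hc : (c : k) = 0
    · have hx0 : x = 0 := by
        apply Subtype.ext
        have h1 : E.repr (x : B) = 0 := by
          ext i
          have h2 := hx i
          rw [hc, map_zero] at h2
          have h3 : O.valuation (E.repr (x : B) i) = 0 := le_antisymm h2 zero_le
          simpa using h3
        simpa using h1
      rw [hx0]
      exact dvd_zero _
    have hv : O.valuation (c : k) ≠ 0 := by simpa using hc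
    have hmem : (c : k)⁻¹ • (x : B) ∈ BO h hE := by
      rw [mem_BO]
      intro i
      rw [map_smul, Finsupp.smul_apply, smul_eq_mul, ← O.valuation_le_one_iff, map_mul, map_inv₀,
        inv_mul_le_iff₀ (zero_lt_iff.2 hv), mul_one]
      exact hx i
    refine ⟨⟨_, hmem⟩, ?_⟩
    apply Subtype.ext
    rw [Subring.coe_mul, constBO_coe, ← Algebra.smul_def, smul_smul, mul_inv_cancel₀ hc, one_smul]

theorem constBO_mem_mB (h : OnePt k B deg) (hE : IntBasis O deg E) {c : O}
    (hc : O.valuation (c : k) < 1) : constBO h hE c ∈ mB h hE := by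
  rw [mem_mB]
  intro i
  exact lt_of_le_of_lt ((constBO_dvd_iff h hE c _).1 dvd_rfl i) hc

theorem exists_constBO_dvd (h : OnePt k B deg) (hE : IntBasis O deg E) {x : BO h hE}
    (hx : x ∈ mB h hE) : ∃ a : O, O.valuation (a : k) < 1 ∧ constBO h hE a ∣ x := by
  by_cases hx0 : (x : B) = 0
  · refine ⟨0, by simp, ?_⟩
    rw [show x = 0 from Subtype.ext hx0]
    exact dvd_zero _
  · obtain ⟨c, b', hc, hb', hxc, hle, i, hi⟩ := exists_prim h hE hx0
    have h1 : O.valuation c < 1 := by rw [← hi]; exact mem_mB.1 hx i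
    exact ⟨⟨c, (O.valuation_le_one_iff _).1 h1.le⟩, h1, (constBO_dvd_iff h hE _ _).2 hle⟩

section Root

variable [IsAlgClosed k] [IsDedekindDomain B] (h : OnePt k B deg) (hE : IntBasis O deg E)
  [IsDedekindDomain (Bbar h hE)]

theorem redI_pow {I : Ideal B} (hI : I ≠ ⊥) (n : ℕ) :
    redI h hE (I ^ n) = redI h hE I ^ n := by
  induction n with
  | zero =>
    have h1 : redI h hE I ^ 0 = 1 := pow_zero _
    rw [h1, pow_zero, Ideal.one_eq_top, Ideal.one_eq_top, redI_top]
  | succ n ih =>
    have h1 : redI h hE I ^ (n + 1) = redI h hE I ^ n * redI h hE I := Submodule.pow_succ _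
    rw [h1, pow_succ, redI_mul h hE (pow_ne_zero n hI) hI, ih]

omit [IsAlgClosed k] in
include h in
theorem finrank_pow {I : Ideal B} (hI : I ≠ ⊥) (n : ℕ) :
    finrank k (B ⧸ I ^ n) = n * finrank k (B ⧸ I) := by
  induction n with
  | zero =>
    rw [pow_zero, Ideal.one_eq_top, zero_mul]
    have : Subsingleton (B ⧸ (⊤ : Ideal B)) := Ideal.Quotient.subsingleton_iff.2 rfl
    exact finrank_zero_of_subsingleton
  | succ n ih =>
    rw [pow_succ, h.finrank_mul' (pow_ne_zero n hI) hI, ih]
    ring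

/-- units of a one-point ring are constants -/
theorem OnePt.unit_const {κ R : Type*} [Field κ] [CommRing R] [IsDomain R] [Algebra κ R]
    {dg : R → ℕ} (h : OnePt κ R dg) {u : R} (hu : IsUnit u) : ∃ c : κ, c ≠ 0 ∧ u = c • (1 : R) := by
  obtain ⟨v, huv⟩ := hu.exists_right_inv
  have hu0 : u ≠ 0 := left_ne_zero_of_mul_eq_one huv
  have hv0 : v ≠ 0 := right_ne_zero_of_mul_eq_one huv
  have h1 := h.deg_mul u v hu0 hv0
  rw [huv, h.deg_one] at h1
  obtain ⟨c, hc⟩ := h.lead u 1 hu0 one_ne_zero (by rw [h.deg_one]; omega)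
  rw [h.deg_one] at hc
  have hc' : u = c • (1 : R) := hc.resolve_right (by omega)
  refine ⟨c, ?_, hc'⟩
  rintro rfl
  rw [zero_smul] at hc'
  exact hu0 hc'

/-- The case of ideals all of whose points are finite. -/
theorem principal_of_red_fin (hrk : ∀ a c : k, O.valuation a < 1 → c ≠ 0 →
      ∃ N : ℕ, O.valuation (a ^ N) < O.valuation c)
    {ℓ : ℕ} (hℓ : ℓ.Prime) (hℓO : O.valuation (ℓ : k) = 1) (s : Multiset (B →ₐ[k] k))
    (hs : ∀ P ∈ s, FinPt h hE P)
    (hpow : ((s.map fun P => RingHom.ker P).prod ^ ℓ).IsPrincipal)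
    (hred : (redI h hE (s.map fun P => RingHom.ker P).prod).IsPrincipal) :
    ((s.map fun P => RingHom.ker P).prod).IsPrincipal := by
  classical
  obtain ⟨hdom, degb, hdb, hset, hle, hiff⟩ := exists_degbar h hE
  set I := (s.map fun P => RingHom.ker P).prod with hIdef
  have hI : I ≠ ⊥ := prod_ker_ne_bot h s
  set d := s.card with hd
  have hId : finrank k (B ⧸ I) = d := finrank_prod_ker h s
  have hRd := (redI_prod_fin h hE s hs).2
  rw [← hIdef, ← hd] at hRd
  -- the generator of the reduction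
  obtain ⟨g₀, hg₀⟩ := hred
  have hg₀' : redI h hE I = Ideal.span {g₀} := hg₀
  have hg₀0 : g₀ ≠ 0 := by
    rintro rfl
    exact redI_ne_bot h hE hI (by rw [hg₀']; simp)
  have hg₀d : degb g₀ = d := by
    rw [hg₀', hdb.finrank_quot_span hg₀0] at hRd
    exact hRd
  -- the generator of the power
  obtain ⟨f₀, hf₀⟩ := hpow
  have hf₀' : I ^ ℓ = Ideal.span {f₀} := hf₀
  have hf₀0 : f₀ ≠ 0 := by
    rintro rfl
    exact pow_ne_zero ℓ hI (by rw [hf₀']; simp)
  obtain ⟨c₀, f₁, hc₀, hf₁m, hf₀f₁, -, -⟩ := exists_prim h hE hf₀0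
  have hspan1 : I ^ ℓ = Ideal.span {(f₁ : B)} := by
    rw [hf₀', hf₀f₁, Algebra.smul_def, Ideal.span_singleton_mul_left_unit]
    exact (IsUnit.mk0 c₀ hc₀).map (algebraMap k B)
  have hred1 : Ideal.span {Ideal.Quotient.mk (mB h hE) f₁} = Ideal.span {g₀ ^ ℓ} := by
    rw [← redI_span h hE hf₁m, ← hspan1, redI_pow h hE hI, hg₀', Ideal.span_singleton_pow]
  obtain ⟨ε, hε⟩ := Ideal.span_singleton_eq_span_singleton.1 hred1
  obtain ⟨c₁, hc₁, hεc⟩ := hdb.unit_const ε.isUnit
  obtain ⟨c₂, rfl⟩ := IsLocalRing.residue_surjective c₁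
  have hc₂ : O.valuation (c₂ : k) = 1 := by
    refine le_antisymm ((O.valuation_le_one_iff _).2 c₂.2) ?_
    by_contra hlt
    push Not at hlt
    exact hc₁ ((residue_eq_zero_iff_val c₂).2 hlt)
  have hc₂0 : (c₂ : k) ≠ 0 := by
    intro h0
    rw [h0, map_zero] at hc₂
    exact zero_ne_one hc₂
  set f : BO h hE := ⟨(c₂ : k) • (f₁ : B), smul_mem_BO h hE c₂.2 f₁.2⟩ with hfdef
  have hfg : Ideal.Quotient.mk (mB h hE) f = g₀ ^ ℓ := by
    rw [hfdef, mk_smul, ← hε, hεc, mul_smul_comm, mul_one]
  have hfm : f ∉ mB h hE := by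
    rw [← Ideal.Quotient.eq_zero_iff_mem, hfg]
    exact pow_ne_zero _ hg₀0
  have hfc : (f : B) = (c₂ : k) • (f₁ : B) := rfl
  have hspan : I ^ ℓ = Ideal.span {(f : B)} := by
    rw [hspan1, hfc, Algebra.smul_def, Ideal.span_singleton_mul_left_unit]
    exact (IsUnit.mk0 (c₂ : k) hc₂0).map (algebraMap k B)
  have hf0 : (f : B) ≠ 0 := by
    intro h0
    exact pow_ne_zero ℓ hI (by rw [hspan, h0]; simp)
  have hfd : deg (f : B) = ℓ * d := by
    rw [← h.finrank_quot_span hf0, ← hspan, finrank_pow h hI, hId]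
  -- the first approximation
  obtain ⟨s₀, hs₀I, hs₀⟩ := (mem_redI h hE (I := I) (x := g₀)).1 (by
    rw [hg₀']; exact Ideal.mem_span_singleton_self _)
  have hexw : ∀ s : BO h hE, (s : B) ∈ I → Ideal.Quotient.mk (mB h hE) s = g₀ →
      ∃ w : BO h hE, s ^ ℓ = f * w ∧ w - 1 ∈ mB h hE := by
    intro s hsI hsg
    have h1 : (s : B) ^ ℓ ∈ Ideal.span {(f : B)} := by
      rw [← hspan]; exact Ideal.pow_mem_pow hsI ℓ
    rw [Ideal.mem_span_singleton] at h1
    obtain ⟨w, hw⟩ := h1
    have hwO : w ∈ BO h hE := gauss h hE hfm (by rw [← hw]; exact (s ^ ℓ).2)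
    refine ⟨⟨w, hwO⟩, Subtype.ext hw, ?_⟩
    have h2 : Ideal.Quotient.mk (mB h hE) (s ^ ℓ) =
        Ideal.Quotient.mk (mB h hE) (f * ⟨w, hwO⟩) := congrArg _ (Subtype.ext hw)
    rw [map_pow, hsg, map_mul, hfg] at h2
    rw [← Ideal.Quotient.eq, map_one]
    exact mul_left_cancel₀ (pow_ne_zero ℓ hg₀0) (by rw [← h2, mul_one])
  obtain ⟨w₀, hw₀, hw₀m⟩ := hexw s₀ hs₀I hs₀
  obtain ⟨a, ha, hadvd⟩ := exists_constBO_dvd h hE hw₀m
  have hℓ0 : (ℓ : k) ≠ 0 := by
    intro h0
    rw [h0, map_zero] at hℓO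
    exact zero_ne_one hℓO
  have hlam : ((ℓ : k))⁻¹ ∈ O := by
    rw [← O.valuation_le_one_iff, map_inv₀, hℓO, inv_one]
  set lam : O := ⟨((ℓ : k))⁻¹, hlam⟩ with hlamdef
  have hlamℓ : (ℓ : BO h hE) * constBO h hE lam = 1 := by
    have h1 : (ℓ : O) * lam = 1 := by
      apply Subtype.ext
      change ((ℓ : O) : k) * ((ℓ : k))⁻¹ = 1
      rw [show ((ℓ : O) : k) = (ℓ : k) by simp]
      exact mul_inv_cancel₀ hℓ0
    rw [← map_natCast (constBO h hE), ← map_mul, h1, map_one]
  have hnewton : ∀ N : ℕ, ∃ s w : BO h hE, (s : B) ∈ I ∧ Ideal.Quotient.mk (mB h hE) s = g₀ ∧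
      s ^ ℓ = f * w ∧ constBO h hE (a ^ (N + 1)) ∣ w - 1 := by
    intro N
    induction N with
    | zero => exact ⟨s₀, w₀, hs₀I, hs₀, hw₀, by rwa [zero_add, pow_one]⟩
    | succ N ih =>
      obtain ⟨s, w, hsI, hsg, hsw, hdvd⟩ := ih
      set T := w - 1 with hT
      obtain ⟨q, hq⟩ := exists_one_sub_pow (constBO h hE lam * T) ℓ
      refine ⟨s * (1 - constBO h hE lam * T), w * (1 - constBO h hE lam * T) ^ ℓ, ?_, ?_, ?_, ?_⟩
      · rw [Subring.coe_mul]
        exact I.mul_mem_right _ hsI
      · have hTm : Ideal.Quotient.mk (mB h hE) T = 0 := by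
          rw [Ideal.Quotient.eq_zero_iff_mem]
          obtain ⟨z, hz⟩ := hdvd
          rw [hz]
          refine Ideal.mul_mem_right _ _ (constBO_mem_mB h hE ?_)
          rw [show ((a ^ (N + 1) : O) : k) = (a : k) ^ (N + 1) by simp, map_pow]
          exact pow_lt_one₀ zero_le ha (by omega)
        rw [map_mul, map_sub, map_one, map_mul, hTm, mul_zero, sub_zero, mul_one, hsg]
      · rw [mul_pow, hsw]; ring
      · have hw : w = 1 + T := by rw [hT]; ring
        have h1 : w * (1 - constBO h hE lam * T) ^ ℓ - 1 =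
            T * T * (-1 + (1 + T) * constBO h hE lam ^ 2 * q) := by
          rw [hq, hw]
          have h2 : (ℓ : BO h hE) * (constBO h hE lam * T) = T := by
            rw [← mul_assoc, hlamℓ, one_mul]
          rw [h2]
          ring
        rw [h1]
        refine Dvd.dvd.mul_right ?_ _
        have h3 : constBO h hE (a ^ (N + 1)) * constBO h hE (a ^ (N + 1)) ∣ T * T :=
          mul_dvd_mul hdvd hdvd
        refine dvd_trans ?_ h3
        rw [← map_mul, ← pow_add]
        refine map_dvd _ (pow_dvd_pow a (by omega))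
  -- suppose that `I` is not principal
  by_contra hnp
  have hzero : ∀ g ∈ I, deg g ≤ d → g = 0 := by
    intro g hg hgd
    by_contra hg0
    apply hnp
    have h1 : Ideal.span {g} ≤ I := (Ideal.span_singleton_le_iff_mem I).2 hg
    have hsg0 : Ideal.span {g} ≠ ⊥ := by rwa [Ne, Ideal.span_singleton_eq_bot]
    have := h.finite_quot hsg0
    have h2 := eq_of_finrank_quot (κ := k) h1 (by
      rw [h.finrank_quot_span hg0, hId]; exact hgd)
    exact ⟨g, h2.symm⟩
  obtain ⟨F₀, hF₀, hF₀I⟩ := exists_UL_prod h hE s hs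
  obtain ⟨c, hc, hcb⟩ := exists_bound h hE hF₀ hF₀I d hzero
  obtain ⟨N, hN⟩ := hrk (a : k) c ha hc
  obtain ⟨S, w, hSI, hSg, hSw, hdvd⟩ := hnewton N
  -- truncation
  let Gc : degSet deg →₀ k := (E.repr (S : B)).filter fun i => (i : ℕ) ≤ d
  let G : B := E.repr.symm Gc
  have hGr : ∀ i, E.repr G i = if (i : ℕ) ≤ d then E.repr (S : B) i else 0 := by
    intro i
    change E.repr (E.repr.symm Gc) i = _
    rw [LinearEquiv.apply_symm_apply, Finsupp.filter_apply]
  have hGO : G ∈ BO h hE := by
    rw [mem_BO]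
    intro i
    rw [hGr]
    split_ifs
    · exact S.2 i
    · exact O.zero_mem
  have hGd : deg G ≤ d := by
    rw [deg_eq_degOf h hE.deg_E, degOf_le_iff]
    intro i hi
    rw [hGr, if_neg (by omega)]
  set R : BO h hE := S - ⟨G, hGO⟩ with hRdef
  have hRr : ∀ i, E.repr (R : B) i = if (i : ℕ) ≤ d then 0 else E.repr (S : B) i := by
    intro i
    change E.repr ((S : B) - G) i = _
    rw [map_sub, Finsupp.sub_apply, hGr]
    split_ifs <;> simp
  have hRm : R ∈ mB h hE := by
    rw [mem_mB]
    intro i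
    rw [hRr]
    split_ifs with hi
    · rw [map_zero]; exact zero_lt_one
    · exact (hiff S d).1 (by rw [hSg, hg₀d]) i (by omega)
  have hGg : Ideal.Quotient.mk (mB h hE) ⟨G, hGO⟩ = g₀ := by
    rw [← hSg, Ideal.Quotient.eq, ← neg_sub]
    exact (mB h hE).neg_mem hRm
  -- the remainder is small
  have hsmall : ∀ i, O.valuation (E.repr (R : B) i) ≤ O.valuation ((a : k) ^ (N + 1)) := by
    by_cases hR0 : (R : B) = 0
    · intro i
      rw [hR0, map_zero, Finsupp.zero_apply, map_zero]
      exact zero_le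
    obtain ⟨ρ, R', hρ, hR'm, hRR', hRle, i₀, hi₀⟩ := exists_prim h hE hR0
    intro i
    refine (hRle i).trans ?_
    by_contra hlt
    push Not at hlt
    have hvρ : O.valuation ρ ≠ 0 := by simpa using hρ
    have hρ1 : O.valuation ρ < 1 := by rw [← hi₀]; exact mem_mB.1 hRm i₀
    have hρO : ρ ∈ O := (O.valuation_le_one_iff _).1 hρ1.le
    have hμ1 : O.valuation ((a : k) ^ (N + 1) * ρ⁻¹) < 1 := by
      rw [map_mul, map_inv₀, mul_inv_lt_iff₀ (zero_lt_iff.2 hvρ), one_mul]
      exact hlt
    set μ : O := ⟨(a : k) ^ (N + 1) * ρ⁻¹, (O.valuation_le_one_iff _).1 hμ1.le⟩ with hμ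
    set ρ' : O := ⟨ρ, hρO⟩ with hρ'
    have hR2 : R = constBO h hE ρ' * R' := by
      apply Subtype.ext
      rw [Subring.coe_mul, constBO_coe, ← Algebra.smul_def]
      exact hRR'
    have hamu : a ^ (N + 1) = ρ' * μ := by
      apply Subtype.ext
      change ((a ^ (N + 1) : O) : k) = ρ * ((a : k) ^ (N + 1) * ρ⁻¹)
      rw [show ((a ^ (N + 1) : O) : k) = (a : k) ^ (N + 1) by simp]
      field_simp
    obtain ⟨z, hz⟩ := hdvd
    obtain ⟨m, rfl⟩ : ∃ m, ℓ = m + 1 := ⟨ℓ - 1, by have := hℓ.pos; omega⟩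
    set G' : BO h hE := ⟨G, hGO⟩ with hG'
    obtain ⟨q, hq⟩ := exists_add_pow G' R m
    have hSGR : S = G' + R := by rw [hRdef]; ring
    set y : BO h hE := ((m + 1 : ℕ) : BO h hE) * G' ^ m * R' + R * (R' * q) -
      constBO h hE μ * (f * z) with hy
    have hfy : f - G' ^ (m + 1) = constBO h hE ρ' * y := by
      have h1 : f = S ^ (m + 1) - f * (w - 1) := by rw [hSw]; ring
      have h2 : f * (w - 1) = constBO h hE ρ' * (constBO h hE μ * (f * z)) := by
        rw [hz, hamu, map_mul]; ring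
      have h3 : S ^ (m + 1) = G' ^ (m + 1) + ((m + 1 : ℕ) : BO h hE) * G' ^ m * R +
          R ^ 2 * q := by rw [hSGR]; exact hq
      rw [hy]
      linear_combination h1 + h3 - h2 +
        (((m + 1 : ℕ) : BO h hE) * G' ^ m + R * q) * hR2
    have hyr : Ideal.Quotient.mk (mB h hE) y =
        ((m + 1 : ℕ) : Bbar h hE) * g₀ ^ m * Ideal.Quotient.mk (mB h hE) R' := by
      have h1 : Ideal.Quotient.mk (mB h hE) (constBO h hE μ) = 0 :=
        Ideal.Quotient.eq_zero_iff_mem.2 (constBO_mem_mB h hE hμ1)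
      have h2 : Ideal.Quotient.mk (mB h hE) R = 0 := Ideal.Quotient.eq_zero_iff_mem.2 hRm
      rw [hy, map_sub, map_add, map_mul, map_mul, map_natCast, map_pow, hGg, map_mul _ R, h2,
        map_mul _ (constBO h hE μ), h1]
      ring
    have hR'0 : Ideal.Quotient.mk (mB h hE) R' ≠ 0 := fun h0 =>
      hR'm (Ideal.Quotient.eq_zero_iff_mem.1 h0)
    have hm0 : (((m + 1 : ℕ) : IsLocalRing.ResidueField O)) ≠ 0 := by
      intro h0
      have h1 : IsLocalRing.residue O ((m + 1 : ℕ) : O) = 0 := by rw [map_natCast]; exact h0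
      rw [residue_eq_zero_iff_val] at h1
      rw [show (((m + 1 : ℕ) : O) : k) = ((m + 1 : ℕ) : k) by simp] at h1
      rw [hℓO] at h1
      exact lt_irrefl _ h1
    have hm0' : ((m + 1 : ℕ) : Bbar h hE) ≠ 0 := by
      intro h0
      apply hm0
      have h1 : algebraMap (IsLocalRing.ResidueField O) (Bbar h hE)
          ((m + 1 : ℕ) : IsLocalRing.ResidueField O) = 0 := by rw [map_natCast]; exact h0
      exact (map_eq_zero (algebraMap (IsLocalRing.ResidueField O) (Bbar h hE))).1 h1
    have hdegy : degb (Ideal.Quotient.mk (mB h hE) y) =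
        m * d + degb (Ideal.Quotient.mk (mB h hE) R') := by
      have hpow : ∀ n : ℕ, degb (g₀ ^ n) = n * d := by
        intro n
        induction n with
        | zero => rw [pow_zero, hdb.deg_one, zero_mul]
        | succ n ih =>
          rw [pow_succ, hdb.deg_mul _ _ (pow_ne_zero n hg₀0) hg₀0, ih, hg₀d]; ring
      have hnat : ((m + 1 : ℕ) : Bbar h hE) * g₀ ^ m * Ideal.Quotient.mk (mB h hE) R' =
          ((m + 1 : ℕ) : IsLocalRing.ResidueField O) • (g₀ ^ m * Ideal.Quotient.mk (mB h hE) R') := by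
        rw [Algebra.smul_def, map_natCast, mul_assoc]
      rw [hyr, hnat, hdb.deg_smul hm0, hdb.deg_mul _ _ (pow_ne_zero m hg₀0) hR'0, hpow]
    have hR'd : d < degb (Ideal.Quotient.mk (mB h hE) R') := by
      by_contra hle'
      push Not at hle'
      apply hR'm
      rw [mem_mB]
      intro j
      by_cases hj : (j : ℕ) ≤ d
      · have h1 : E.repr (R : B) j = ρ * E.repr (R' : B) j := by
          rw [hRR', map_smul, Finsupp.smul_apply, smul_eq_mul]
        rw [hRr, if_pos hj] at h1
        have h2 : E.repr (R' : B) j = 0 := by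
          rcases mul_eq_zero.1 h1.symm with h3 | h3
          · exact absurd h3 hρ
          · exact h3
        rw [h2, map_zero]
        exact zero_lt_one
      · exact (hiff R' d).1 hle' j (by omega)
    have hyd : deg (y : B) ≤ (m + 1) * d := by
      have h1 : deg ((f - G' ^ (m + 1) : BO h hE) : B) ≤ (m + 1) * d := by
        change deg ((f : B) - ((G' ^ (m + 1) : BO h hE) : B)) ≤ _
        refine (h.deg_sub _ _).trans (max_le hfd.le ?_)
        have hpow : ∀ n : ℕ, deg (G ^ n) ≤ n * d := by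
          intro n
          by_cases hG0 : G = 0
          · by_cases hn : n = 0
            · rw [hn, pow_zero, h.deg_one]; exact Nat.zero_le _
            · rw [hG0, zero_pow hn, h.deg_zero]; exact Nat.zero_le _
          induction n with
          | zero => rw [pow_zero, h.deg_one]; exact Nat.zero_le _
          | succ n ih =>
            rw [pow_succ, h.deg_mul _ _ (pow_ne_zero n hG0) hG0]
            calc deg (G ^ n) + deg G ≤ n * d + d := by omega
              _ = (n + 1) * d := by ring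
        exact hpow (m + 1)
      rw [hfy] at h1
      by_cases hy0 : (y : B) = 0
      · rw [hy0, h.deg_zero]; exact Nat.zero_le _
      have h2 : ((constBO h hE ρ' * y : BO h hE) : B) = ρ • (y : B) := by
        rw [Subring.coe_mul, constBO_coe, Algebra.smul_def]
      rw [h2, h.deg_smul hρ] at h1
      exact h1
    have h5 := hle y
    rw [hdegy] at h5
    have h6 : (m + 1) * d = m * d + d := by ring
    omega
  -- the final contradiction
  have hfin := hcb (R : B) G ((a : k) ^ (N + 1)) hsmall hGd (by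
    have h1 : G + (R : B) = S := by
      change G + ((S : B) - G) = S
      ring
    rw [h1]
    exact hSI)
  have hGm : (⟨G, hGO⟩ : BO h hE) ∈ mB h hE := by
    rw [mem_mB]
    intro i
    have h1 := hfin i
    have hvc : O.valuation c ≠ 0 := by simpa using hc
    have h2 : O.valuation ((a : k) ^ (N + 1)) < O.valuation c := by
      refine lt_of_le_of_lt ?_ hN
      rw [pow_succ, map_mul]
      exact mul_le_of_le_one_right' ha.le
    have h3 : O.valuation (E.repr G i) * O.valuation c < 1 * O.valuation c := by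
      rw [one_mul]
      exact lt_of_le_of_lt h1 h2
    exact (mul_lt_mul_iff_left₀ (zero_lt_iff.2 hvc)).1 h3
  rw [← Ideal.Quotient.eq_zero_iff_mem, hGg] at hGm
  exact hg₀0 hGm

/-- R5.  Reduction is injective on `ℓ`-torsion classes. -/
theorem principal_of_red (hrk : ∀ a c : k, O.valuation a < 1 → c ≠ 0 →
      ∃ N : ℕ, O.valuation (a ^ N) < O.valuation c)
    {ℓ : ℕ} (hℓ : ℓ.Prime) (hℓO : O.valuation (ℓ : k) = 1) {I : Ideal B} (hI : I ≠ ⊥)
    (hpow : (I ^ ℓ).IsPrincipal) (hred : (redI h hE I).IsPrincipal) : I.IsPrincipal := by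
  obtain ⟨t, u, hu, ht, htu⟩ := exists_fin_compl h hE hI
  set J := (t.map fun P => RingHom.ker P).prod with hJ
  have hJ0 : J ≠ ⊥ := prod_ker_ne_bot h t
  have h1 : (J ^ ℓ).IsPrincipal := by
    refine isPrincipal_of_mul (u := u ^ ℓ) hpow (pow_ne_zero ℓ hI) ?_
    rw [← mul_pow, htu, Ideal.span_singleton_pow]
  obtain ⟨c, u', hc, hu'm, huu', -, -⟩ := exists_prim h hE hu
  have hspan : Ideal.span {u} = Ideal.span {(u' : B)} := by
    rw [huu', Algebra.smul_def, Ideal.span_singleton_mul_left_unit]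
    exact (IsUnit.mk0 c hc).map (algebraMap k B)
  have h2 : (redI h hE J).IsPrincipal := by
    refine isPrincipal_of_mul (u := Ideal.Quotient.mk (mB h hE) u') hred (redI_ne_bot h hE hI) ?_
    rw [← redI_mul h hE hI hJ0, htu, hspan, redI_span h hE hu'm]
  have h3 := principal_of_red_fin h hE hrk hℓ hℓO t ht h1 h2
  refine isPrincipal_of_mul (u := u) h3 hJ0 ?_
  rw [mul_comm, htu]

end Root

end R5

end Pool.Agent.SC
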