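import Mathlib
import Pool.Agent.SC.DefsT
import Pool.Agent.SC.R5

/-!
# MP_e66f84_ag, block TE: in characteristic `q` the generic point is not divisible by `q`
-/

universe u v

set_option linter.unusedSectionVars false

namespace Pool.Agent.SC

open Module

namespace TE

/-- In a Dedekind domain the `n`-th power of an ideal is generated by the `n`-th powers of
generators. -/
theorem span_pow_eq {R : Type*} [CommRing R] [IsDedekindDomain R] (A : Set R) (n : ℕ)
    (hA : Ideal.span A ≠ ⊥) : Ideal.span ((fun a => a ^ n) '' A) = Ideal.span A ^ n := by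
  have hle : Ideal.span ((fun a => a ^ n) '' A) ≤ Ideal.span A ^ n := by
    rw [Ideal.span_le]
    rintro _ ⟨a, ha, rfl⟩
    exact Ideal.pow_mem_pow (Ideal.subset_span ha) n
  obtain ⟨I3, hI3⟩ := Ideal.dvd_iff_le.2 hle
  by_cases htop : I3 = ⊤
  · rw [hI3, htop, Ideal.mul_top]
  exfalso
  obtain ⟨m, hm, hle3⟩ := Ideal.exists_le_maximal I3 htop
  have hne : ¬ Ideal.span A ≤ Ideal.span A * m := by
    intro h
    have h1 : Ideal.span A * m = Ideal.span A * ⊤ := by
      rw [Ideal.mul_top]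
      exact le_antisymm Ideal.mul_le_left h
    exact hm.ne_top (mul_left_cancel₀ hA h1)
  have hex : ∃ a ∈ A, a ∉ Ideal.span A * m := by
    by_contra hcon
    push Not at hcon
    exact hne (Ideal.span_le.2 hcon)
  obtain ⟨a, haA, ha⟩ := hex
  have h1 : Ideal.span {a} ≤ Ideal.span A :=
    (Ideal.span_singleton_le_iff_mem _).2 (Ideal.subset_span haA)
  obtain ⟨I4, hI4⟩ := Ideal.dvd_iff_le.2 h1
  have h2 : a ^ n ∈ Ideal.span A ^ n * m := by
    have h3 : a ^ n ∈ Ideal.span ((fun a => a ^ n) '' A) := Ideal.subset_span ⟨a, haA, rfl⟩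
    rw [hI3] at h3
    exact Ideal.mul_mono_right hle3 h3
  have h3 : Ideal.span A ^ n * I4 ^ n ≤ Ideal.span A ^ n * m := by
    rw [← mul_pow, ← hI4, Ideal.span_singleton_pow]
    exact (Ideal.span_singleton_le_iff_mem _).2 h2
  have h4 : I4 ^ n ≤ m := by
    rw [← Ideal.dvd_iff_le] at h3 ⊢
    exact (mul_dvd_mul_iff_left (pow_ne_zero n hA)).1 h3
  have h5 : I4 ≤ m := hm.isPrime.le_of_pow_le h4
  apply ha
  have h6 : Ideal.span {a} ≤ Ideal.span A * m := by
    rw [hI4]
    exact Ideal.mul_mono_right h5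
  exact (Ideal.span_singleton_le_iff_mem _).1 h6

section Core

variable {κ : Type u} {R : Type v} [Field κ] [CommRing R] [Algebra κ R] {D : Set ℕ}
  (e : Basis D κ R) (L1 : Subfield κ)

/-- Apply an `L1`-linear map to the coordinates. -/
noncomputable def tw (lam : κ →ₗ[L1] κ) : R →+ R where
  toFun x := e.repr.symm (Finsupp.mapRange lam (map_zero lam) (e.repr x))
  map_zero' := by rw [map_zero, Finsupp.mapRange_zero, map_zero]
  map_add' x y := by
    rw [map_add, Finsupp.mapRange_add (map_add lam), map_add]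

theorem repr_tw (lam : κ →ₗ[L1] κ) (x : R) (i : D) :
    e.repr (tw e L1 lam x) i = lam (e.repr x i) := by
  change e.repr (e.repr.symm (Finsupp.mapRange lam (map_zero lam) (e.repr x))) i = _
  rw [LinearEquiv.apply_symm_apply, Finsupp.mapRange_apply]

/-- all coordinates in `L1` -/
def IsRat (x : R) : Prop := ∀ i, e.repr x i ∈ L1

theorem tw_smul (lam : κ →ₗ[L1] κ) (c : κ) {y : R} (hy : IsRat e L1 y) :
    tw e L1 lam (c • y) = lam c • y := by
  apply e.repr.injective
  ext i
  rw [repr_tw, map_smul, map_smul, Finsupp.smul_apply, Finsupp.smul_apply, smul_eq_mul, smul_eq_mul]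
  have h1 : c * e.repr y i = (⟨e.repr y i, hy i⟩ : L1) • c := by
    rw [Algebra.smul_def, mul_comm]
    rfl
  rw [h1, map_smul, Algebra.smul_def, mul_comm]
  rfl

theorem isRat_e (m : D) : IsRat e L1 (e m) := by
  classical
  intro i
  rw [e.repr_self, Finsupp.single_apply]
  split_ifs
  · exact one_mem _
  · exact zero_mem _

variable {e L1}

theorem IsRat.mul (hsc : ∀ m m' i, e.repr (e m * e m') i ∈ L1) {a b : R} (ha : IsRat e L1 a)
    (hb : IsRat e L1 b) : IsRat e L1 (a * b) := by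
  intro i
  rw [repr_mul_expand]
  exact sum_mem fun x _ => sum_mem fun y _ => mul_mem (mul_mem (ha x) (hb y)) (hsc x y i)

theorem IsRat.sum {ι : Type*} (s : Finset ι) (g : ι → R) (hg : ∀ i ∈ s, IsRat e L1 (g i)) :
    IsRat e L1 (∑ i ∈ s, g i) := by
  intro i
  rw [map_sum, Finsupp.finsetSum_apply]
  exact sum_mem fun x hx => hg x hx i

theorem IsRat.smul {c : κ} (hc : c ∈ L1) {a : R} (ha : IsRat e L1 a) : IsRat e L1 (c • a) := by
  intro i
  rw [map_smul, Finsupp.smul_apply, smul_eq_mul]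
  exact mul_mem hc (ha i)

theorem IsRat.pow (hsc : ∀ m m' i, e.repr (e m * e m') i ∈ L1) (h1 : IsRat e L1 1) {a : R}
    (ha : IsRat e L1 a) (n : ℕ) : IsRat e L1 (a ^ n) := by
  induction n with
  | zero => rwa [pow_zero]
  | succ n ih => rw [pow_succ]; exact ih.mul hsc ha

theorem tw_mul (hsc : ∀ m m' i, e.repr (e m * e m') i ∈ L1) (lam : κ →ₗ[L1] κ) (x : R) {r : R}
    (hr : IsRat e L1 r) : tw e L1 lam (x * r) = tw e L1 lam x * r := by
  have hx : x = ∑ p ∈ (e.repr x).support, e.repr x p • e p := by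
    conv_lhs => rw [← e.linearCombination_repr x]
    rw [Finsupp.linearCombination_apply, Finsupp.sum]
  have h1 : tw e L1 lam x = ∑ p ∈ (e.repr x).support, lam (e.repr x p) • e p := by
    conv_lhs => rw [hx]
    rw [map_sum]
    exact Finset.sum_congr rfl fun p _ => tw_smul e L1 lam _ (isRat_e e L1 p)
  have h2 : x * r = ∑ p ∈ (e.repr x).support, e.repr x p • (e p * r) := by
    conv_lhs => rw [hx]
    rw [Finset.sum_mul]
    exact Finset.sum_congr rfl fun p _ => smul_mul_assoc _ _ _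
  rw [h1, h2, map_sum, Finset.sum_mul]
  refine Finset.sum_congr rfl fun p _ => ?_
  rw [tw_smul e L1 lam _ ((isRat_e e L1 p).mul hsc hr), smul_mul_assoc]

/-- An element outside `L1` is separated from `1` by an `L1`-linear map. -/
theorem exists_lam {c : κ} (hc : c ∉ L1) : ∃ lam : κ →ₗ[L1] κ, lam 1 = 0 ∧ lam c ≠ 0 := by
  have h1 : c ∉ Submodule.span L1 {(1 : κ)} := by
    rw [Submodule.mem_span_singleton]
    rintro ⟨a, ha⟩
    apply hc
    rw [← ha, Algebra.smul_def, mul_one]
    exact a.2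
  obtain ⟨f, hf, hf0⟩ := Submodule.exists_dual_map_eq_bot_of_notMem h1 inferInstance
  refine ⟨(Algebra.linearMap L1 κ).comp f, ?_, ?_⟩
  · have h2 : f 1 ∈ (Submodule.span L1 {(1 : κ)}).map f :=
      ⟨1, Submodule.mem_span_singleton_self _, rfl⟩
    rw [hf0, Submodule.mem_bot] at h2
    change algebraMap L1 κ (f 1) = 0
    rw [h2, map_zero]
  · change algebraMap L1 κ (f c) ≠ 0
    rw [Ne, map_eq_zero]
    exact hf

/-- The core of TE. -/
theorem core [IsDedekindDomain R] {dg : R → ℕ} (h : OnePt κ R dg)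
    (hdg : ∀ x n, dg x ≤ n ↔ ∀ i : D, n < i → e.repr x i = 0) (h1D : 1 ∉ degSet dg)
    (hsc : ∀ m m' i, e.repr (e m * e m') i ∈ L1) (hone : IsRat e L1 1) {q : ℕ} (hq : q.Prime)
    [CharP κ q] (A : Set R) (hA : ∀ a ∈ A, ∀ i, e.repr a i ^ q ∈ L1)
    (hA0 : Ideal.span A ≠ ⊥) (ev : R →ₐ[κ] κ) {f : R} (hf : f ≠ 0)
    (hJf : Ideal.span {f} = RingHom.ker ev * Ideal.span A ^ q) : ∀ m, ev (e m) ∈ L1 := by
  classical
  have : Fact q.Prime := ⟨hq⟩
  have : CharP R q := charP_of_injective_algebraMap (algebraMap κ R).injective q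
  set J := Ideal.span A with hJ
  have hJq : J ^ q ≠ ⊥ := pow_ne_zero q hA0
  have hker : RingHom.ker ev ≠ ⊥ := ker_ne_bot h ev
  -- colengths
  set d := finrank κ (R ⧸ J ^ q) with hd
  have hN : dg f = d + 1 := by
    rw [← h.finrank_quot_span hf, hJf, h.finrank_mul' hker hJq, finrank_ker, add_comm]
  -- elements of small degree
  have hsmall : ∀ v ∈ J ^ q, dg v < dg f → v = 0 := by
    intro v hv hvd
    by_contra hv0
    have h1 : Ideal.span {v} ≤ J ^ q := (Ideal.span_singleton_le_iff_mem _).2 hv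
    have h2 : d ≤ dg v := by
      obtain ⟨I5, hI5⟩ := Ideal.dvd_iff_le.2 h1
      have hI5' : I5 ≠ ⊥ := by
        rintro rfl
        rw [Ideal.mul_bot, Ideal.span_singleton_eq_bot] at hI5
        exact hv0 hI5
      rw [← h.finrank_quot_span hv0, hI5, h.finrank_mul' hJq hI5']
      exact Nat.le_add_right _ _
    have h3 : dg v = d := by omega
    have h4 : Ideal.span {v} = J ^ q := by
      have := h.finite_quot hJq
      have hsv : Ideal.span {v} ≠ ⊥ := by rwa [Ne, Ideal.span_singleton_eq_bot]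
      have := h.finite_quot hsv
      exact eq_of_finrank_quot (κ := κ) h1 (by rw [h.finrank_quot_span hv0, h3])
    have h5 : f ∈ Ideal.span {v} := by
      rw [h4]
      have h6 : f ∈ RingHom.ker ev * J ^ q := by
        rw [← hJf]; exact Ideal.mem_span_singleton_self f
      exact Ideal.mul_le_right h6
    obtain ⟨u, hu⟩ := Ideal.mem_span_singleton.1 h5
    have hu0 : u ≠ 0 := by
      rintro rfl
      rw [mul_zero] at hu
      exact hf hu
    have h6 := h.deg_mul v u hv0 hu0
    rw [← hu, hN, h3] at h6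
    exact h1D ⟨u, hu0, by omega⟩
  -- the ideal `J ^ q`
  have hspan : Ideal.span ((fun a => a ^ q) '' A) = J ^ q := span_pow_eq A q hA0
  have hpow : ∀ a ∈ A, IsRat e L1 (a ^ q) := by
    intro a ha
    have h1 : a ^ q = ∑ p ∈ (e.repr a).support, (e.repr a p) ^ q • (e p) ^ q := by
      conv_lhs => rw [← e.linearCombination_repr a, Finsupp.linearCombination_apply, Finsupp.sum]
      rw [sum_pow_char]
      exact Finset.sum_congr rfl fun p _ => smul_pow _ _ _
    rw [h1]
    exact IsRat.sum _ _ fun p _ => (IsRat.pow hsc hone (isRat_e e L1 p) q).smul (hA a ha p)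
  have htwJ : ∀ (lam : κ →ₗ[L1] κ), ∀ v ∈ J ^ q, tw e L1 lam v ∈ J ^ q := by
    intro lam v hv
    rw [← hspan] at hv
    have h1 : ∀ c, tw e L1 lam (c * v) ∈ J ^ q := by
      induction hv using Submodule.span_induction with
      | mem x hx =>
        obtain ⟨a, ha, rfl⟩ := hx
        intro c
        change tw e L1 lam (c * a ^ q) ∈ J ^ q
        rw [tw_mul hsc lam c (hpow a ha)]
        exact Ideal.mul_mem_left _ _ (Ideal.pow_mem_pow (Ideal.subset_span ha) q)
      | zero =>
        intro c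
        rw [mul_zero, map_zero]
        exact zero_mem _
      | add x y _ _ hx hy =>
        intro c
        rw [mul_add, map_add]
        exact add_mem (hx c) (hy c)
      | smul a x _ hx =>
        intro c
        rw [smul_eq_mul, ← mul_assoc]
        exact hx _
    have h2 := h1 1
    rwa [one_mul] at h2
  -- normalise `f`
  obtain ⟨n0, hn0, hn1⟩ : ∃ n0 : D, (n0 : ℕ) = dg f ∧ e.repr f n0 ≠ 0 := by
    by_contra hcon
    push Not at hcon
    have hd1 : dg f ≤ dg f - 1 := by
      rw [hdg]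
      intro i hi
      by_cases hi2 : (i : ℕ) = dg f
      · exact hcon i hi2
      · exact (hdg f (dg f)).1 le_rfl i (by omega)
    omega
  set f2 := (e.repr f n0)⁻¹ • f with hf2
  have hf20 : f2 ≠ 0 := smul_ne_zero (inv_ne_zero hn1) hf
  have hf2span : Ideal.span {f2} = RingHom.ker ev * J ^ q := by
    rw [← hJf, hf2, Algebra.smul_def, Ideal.span_singleton_mul_left_unit]
    exact (IsUnit.mk0 _ (inv_ne_zero hn1)).map (algebraMap κ R)
  have hf2J : f2 ∈ J ^ q := by
    have h6 : f2 ∈ RingHom.ker ev * J ^ q := by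
      rw [← hf2span]; exact Ideal.mem_span_singleton_self f2
    exact Ideal.mul_le_right h6
  have hf2n : e.repr f2 n0 = 1 := by
    rw [hf2, map_smul, Finsupp.smul_apply, smul_eq_mul, inv_mul_cancel₀ hn1]
  have hf2hi : ∀ i : D, dg f < i → e.repr f2 i = 0 := by
    intro i hi
    rw [hf2, map_smul, Finsupp.smul_apply, (hdg f (dg f)).1 le_rfl i hi, smul_zero]
  have hf2rat : IsRat e L1 f2 := by
    intro i
    by_contra hi
    obtain ⟨lam, hl1, hl2⟩ := exists_lam hi
    have h1 : tw e L1 lam f2 = 0 := by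
      refine hsmall _ (htwJ lam f2 hf2J) ?_
      have h2 : dg (tw e L1 lam f2) ≤ d := by
        rw [hdg]
        intro j hj
        rw [repr_tw]
        by_cases hj2 : (j : ℕ) = dg f
        · have : j = n0 := Subtype.ext (by rw [hj2, hn0])
          rw [this, hf2n, hl1]
        · rw [hf2hi j (by omega), map_zero]
      omega
    apply hl2
    rw [← repr_tw, h1, map_zero, Finsupp.zero_apply]
  -- `tw` preserves the kernel of the evaluation
  have htwm : ∀ (lam : κ →ₗ[L1] κ), ∀ x ∈ RingHom.ker ev, tw e L1 lam x ∈ RingHom.ker ev := by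
    intro lam x hx
    have h1 : Ideal.span {tw e L1 lam x} * J ^ q ≤ RingHom.ker ev * J ^ q := by
      rw [← hf2span, ← hspan, Ideal.span_mul_span', Ideal.span_le]
      rintro _ ⟨_, hy, _, ⟨a, ha, rfl⟩, rfl⟩
      rw [Set.mem_singleton_iff] at hy
      subst hy
      have h2 : x * a ^ q ∈ Ideal.span {f2} := by
        rw [hf2span]
        exact Ideal.mul_mem_mul hx (Ideal.pow_mem_pow (Ideal.subset_span ha) q)
      obtain ⟨y, hy⟩ := Ideal.mem_span_singleton.1 h2
      change tw e L1 lam x * a ^ q ∈ Ideal.span {f2}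
      rw [← tw_mul hsc lam x (hpow a ha), hy, mul_comm, tw_mul hsc lam y hf2rat]
      exact Ideal.mul_mem_left _ _ (Ideal.mem_span_singleton_self f2)
    have h2 : Ideal.span {tw e L1 lam x} ≤ RingHom.ker ev := by
      rw [← Ideal.dvd_iff_le] at h1 ⊢
      exact (mul_dvd_mul_iff_right hJq).1 h1
    exact (Ideal.span_singleton_le_iff_mem _).1 h2
  intro m
  by_contra hm
  obtain ⟨lam, hl1, hl2⟩ := exists_lam hm
  have h1 : e m - ev (e m) • (1 : R) ∈ RingHom.ker ev := by
    rw [RingHom.mem_ker, map_sub, map_smul, map_one, smul_eq_mul, mul_one, sub_self]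
  have h2 := htwm lam _ h1
  have h3 : tw e L1 lam (e m - ev (e m) • (1 : R)) = -(lam (ev (e m)) • (1 : R)) := by
    rw [map_sub, tw_smul e L1 lam _ hone]
    have h4 := tw_smul e L1 lam 1 (isRat_e e L1 m)
    rw [one_smul, hl1, zero_smul] at h4
    rw [h4, zero_sub]
  rw [h3, RingHom.mem_ker, map_neg, map_smul, map_one, smul_eq_mul, mul_one, neg_eq_zero] at h2
  exact hl2 h2

end Core

section Eval

variable {Ω : Type u} {C : Type v} [Field Ω] [CommRing C] [IsDomain C] [Algebra Ω C]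
  {degC : C → ℕ} {EC : Basis (degSet degC) Ω C} {V : ValuationSubring Ω}

theorem eval_mem (hC : OnePt Ω C degC) (hEC : IntBasis V degC EC) (ε : C →ₐ[Ω] Ω)
    (hεE : ∀ m, ε (EC m) ∈ V) (x : BO hC hEC) : ε x ∈ V := by
  classical
  have hx1 := EC.linearCombination_repr (x : C)
  rw [Finsupp.linearCombination_apply, Finsupp.sum] at hx1
  rw [← hx1, map_sum]
  refine V.toSubring.sum_mem fun i _ => ?_
  rw [map_smul, smul_eq_mul]
  exact V.mul_mem _ _ (x.2 i) (hεE i)

theorem eval_lt (hC : OnePt Ω C degC) (hEC : IntBasis V degC EC) (ε : C →ₐ[Ω] Ω)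
    (hεE : ∀ m, ε (EC m) ∈ V) {x : BO hC hEC} (hx : x ∈ mB hC hEC) :
    V.valuation (ε x) < 1 := by
  classical
  have hx1 := EC.linearCombination_repr (x : C)
  rw [Finsupp.linearCombination_apply, Finsupp.sum] at hx1
  rw [← hx1, map_sum]
  refine Valuation.map_sum_lt _ one_ne_zero fun i _ => ?_
  rw [map_smul, smul_eq_mul, map_mul]
  have h1 := (V.valuation_le_one_iff _).2 (hεE i)
  have h2 := mem_mB.1 hx i
  calc V.valuation (EC.repr (x : C) i) * V.valuation (ε (EC i))
      ≤ V.valuation (EC.repr (x : C) i) * 1 := by gcongr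
    _ < 1 := by rwa [mul_one]

/-- evaluation followed by reduction -/
noncomputable def ev0 (hC : OnePt Ω C degC) (hEC : IntBasis V degC EC) (ε : C →ₐ[Ω] Ω)
    (hεE : ∀ m, ε (EC m) ∈ V) : BO hC hEC →+* IsLocalRing.ResidueField V :=
  (IsLocalRing.residue V).comp
    (((ε : C →+* Ω).comp (BO hC hEC).subtype).codRestrict V (eval_mem hC hEC ε hεE))

theorem ev0_apply (hC : OnePt Ω C degC) (hEC : IntBasis V degC EC) (ε : C →ₐ[Ω] Ω)
    (hεE : ∀ m, ε (EC m) ∈ V) (x : BO hC hEC) :
    ev0 hC hEC ε hεE x = IsLocalRing.residue V ⟨ε x, eval_mem hC hEC ε hεE x⟩ := rfl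

/-- the reduction of a point -/
noncomputable def evbar (hC : OnePt Ω C degC) (hEC : IntBasis V degC EC) (ε : C →ₐ[Ω] Ω)
    (hεE : ∀ m, ε (EC m) ∈ V) : Bbar hC hEC →ₐ[IsLocalRing.ResidueField V]
      IsLocalRing.ResidueField V :=
  { Ideal.Quotient.lift (mB hC hEC) (ev0 hC hEC ε hεE) (fun x hx => by
      rw [ev0_apply, residue_eq_zero_iff_val]
      exact eval_lt hC hEC ε hεE hx) with
    commutes' := fun c => by
      obtain ⟨c, rfl⟩ := IsLocalRing.residue_surjective c
      change Ideal.Quotient.lift (mB hC hEC) (ev0 hC hEC ε hεE) _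
        (Ideal.Quotient.mk (mB hC hEC) (constBO hC hEC c)) = _
      rw [Ideal.Quotient.lift_mk, ev0_apply]
      change IsLocalRing.residue V ⟨ε (algebraMap Ω C (c : Ω)), _⟩ = IsLocalRing.residue V c
      exact congrArg (IsLocalRing.residue V) (Subtype.ext (ε.commutes (c : Ω))) }

theorem evbar_mk (hC : OnePt Ω C degC) (hEC : IntBasis V degC EC) (ε : C →ₐ[Ω] Ω)
    (hεE : ∀ m, ε (EC m) ∈ V) (x : BO hC hEC) :
    evbar hC hEC ε hεE (Ideal.Quotient.mk (mB hC hEC) x) =
      IsLocalRing.residue V ⟨ε x, eval_mem hC hEC ε hεE x⟩ := rfl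

theorem redI_ker (hC : OnePt Ω C degC) (hEC : IntBasis V degC EC) (ε : C →ₐ[Ω] Ω)
    (hεE : ∀ m, ε (EC m) ∈ V) :
    redI hC hEC (RingHom.ker ε) = RingHom.ker (evbar hC hEC ε hεE) := by
  ext x
  rw [mem_redI]
  constructor
  · rintro ⟨y, hy, rfl⟩
    rw [RingHom.mem_ker, evbar_mk, residue_eq_zero_iff_val]
    change V.valuation (ε y) < 1
    rw [RingHom.mem_ker] at hy
    rw [hy, map_zero]
    exact zero_lt_one
  · intro hx
    obtain ⟨y, rfl⟩ := Ideal.Quotient.mk_surjective x
    rw [RingHom.mem_ker, evbar_mk] at hx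
    refine ⟨y - constBO hC hEC ⟨ε y, eval_mem hC hEC ε hεE y⟩, ?_, ?_⟩
    · rw [RingHom.mem_ker]
      change ε ((y : C) - algebraMap Ω C (ε y)) = 0
      rw [map_sub, ε.commutes]
      exact sub_self _
    · rw [map_sub]
      have h1 : Ideal.Quotient.mk (mB hC hEC) (constBO hC hEC ⟨ε y, eval_mem hC hEC ε hεE y⟩) =
          algebraMap (IsLocalRing.ResidueField V) (Bbar hC hEC)
            (IsLocalRing.residue V ⟨ε y, eval_mem hC hEC ε hεE y⟩) := rfl
      rw [h1, hx, map_zero, sub_zero]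

/-- The pivot lemma. -/
theorem pivot {K : Type*} [Field K] [Algebra K Ω] (hC : OnePt Ω C degC)
    (hEC : IntBasis V degC EC) (G : Set C)
    (hG : ∀ u ∈ G, ∀ i, EC.repr u i ∈ (algebraMap K Ω).range)
    (hGsub : ∀ u ∈ G, ∀ u' ∈ G, ∀ c : K, u - algebraMap K Ω c • u' ∈ G)
    (hGsmul : ∀ u ∈ G, ∀ c : K, algebraMap K Ω c • u ∈ G) :
    ∀ (n : ℕ) (s : Finset C), s.card ≤ n → (∀ u ∈ s, u ∈ G) → ∀ v : BO hC hEC,
      (v : C) ∈ Submodule.span Ω (s : Set C) →
      Ideal.Quotient.mk (mB hC hEC) v ∈ Ideal.span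
        {x | ∃ u : BO hC hEC, (u : C) ∈ G ∧ Ideal.Quotient.mk (mB hC hEC) u = x} := by
  classical
  intro n
  induction n with
  | zero =>
    intro s hs _ v hv
    have h1 : s = ∅ := Finset.card_eq_zero.1 (by omega)
    rw [h1, Finset.coe_empty, Submodule.span_empty, Submodule.mem_bot] at hv
    have h2 : v = 0 := Subtype.ext hv
    rw [h2, map_zero]
    exact zero_mem _
  | succ n ih =>
    intro s hs hsG v hv
    by_cases h0 : ∀ u ∈ s, u = 0
    · have h1 : Submodule.span Ω (s : Set C) = ⊥ := by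
        rw [Submodule.span_eq_bot]
        exact fun x hx => h0 x hx
      rw [h1, Submodule.mem_bot] at hv
      have h2 : v = 0 := Subtype.ext hv
      rw [h2, map_zero]
      exact zero_mem _
    push Not at h0
    obtain ⟨w, hws, hw0⟩ := h0
    obtain ⟨c, b', hc, -, hwb, -, i, hi⟩ := exists_prim hC hEC hw0
    obtain ⟨z, hz⟩ := hG w (hsG w hws) i
    rw [hi] at hz
    have hb' : (b' : C) = algebraMap K Ω z⁻¹ • w := by
      rw [hwb, map_inv₀, hz, smul_smul, inv_mul_cancel₀ hc, one_smul]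
    have hb'G : (b' : C) ∈ G := by
      rw [hb']
      exact hGsmul w (hsG w hws) _
    let φ : C →ₗ[Ω] C := LinearMap.id -
      ((LinearMap.toSpanSingleton Ω C (b' : C)).comp
        ((Finsupp.lapply i).comp EC.repr.toLinearMap))
    have hφ : ∀ x, φ x = x - EC.repr x i • (b' : C) := fun x => rfl
    let s' : Finset C := (s.erase w).image φ
    have hs' : s'.card ≤ n := by
      refine Finset.card_image_le.trans ?_
      rw [Finset.card_erase_of_mem hws]
      omega
    have hs'G : ∀ u ∈ s', u ∈ G := by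
      intro u hu
      obtain ⟨x, hx, rfl⟩ := Finset.mem_image.1 hu
      have hxG := hsG x (Finset.mem_of_mem_erase hx)
      obtain ⟨y, hy⟩ := hG x hxG i
      rw [hφ, ← hy]
      exact hGsub x hxG _ hb'G y
    have hvi : EC.repr (v : C) i ∈ V := v.2 i
    let v' : BO hC hEC := v - ⟨EC.repr (v : C) i • (b' : C), smul_mem_BO hC hEC hvi b'.2⟩
    have hv' : (v' : C) ∈ Submodule.span Ω (s' : Set C) := by
      have h1 : (v' : C) = φ v := rfl
      rw [h1]
      have h2 : φ v ∈ Submodule.map φ (Submodule.span Ω (s : Set C)) := ⟨_, hv, rfl⟩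
      rw [Submodule.map_span] at h2
      refine Submodule.span_le.2 ?_ h2
      rintro _ ⟨x, hx, rfl⟩
      by_cases hxw : x = w
      · have h3 : φ x = 0 := by
          rw [hφ, hxw, hi, ← hwb, sub_self]
        rw [h3]
        exact zero_mem _
      · exact Submodule.subset_span (Finset.mem_coe.2
          (Finset.mem_image.2 ⟨x, Finset.mem_erase.2 ⟨hxw, hx⟩, rfl⟩))
    have h1 := ih s' hs' hs'G v' hv'
    have h2 : v = v' + ⟨EC.repr (v : C) i • (b' : C), smul_mem_BO hC hEC hvi b'.2⟩ := by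
      change v = v - _ + _
      rw [sub_add_cancel]
    rw [h2, map_add]
    refine add_mem h1 ?_
    have h3 := mk_smul hC hEC ⟨EC.repr (v : C) i, hvi⟩ b'
    rw [h3, Algebra.smul_def]
    exact Ideal.mul_mem_left _ _ (Ideal.subset_span ⟨b', hb'G, rfl⟩)

end Eval

end TE

end Pool.Agent.SC
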