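import Mathlib
import Pool.Agent.SC.DefsT
import Pool.Agent.SC.R5
import Pool.Agent.SC.TE0

/-!
# MP_e66f84_ag, block TE: in characteristic `q` the generic point is not divisible by `q`
-/

universe u

set_option linter.unusedSectionVars false

namespace Pool.Agent.SC

open Module

section TE

/-- TE.  In characteristic `q` the class of the generic point is not divisible by `q`. -/
theorem false_of_root_generic {k B K Ω C : Type u} [Field k] [IsAlgClosed k] [CommRing B]
    [IsDomain B] [Algebra k B] [Field K] [Algebra B K] [Algebra k K] [IsScalarTower k B K]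
    [Field Ω] [IsAlgClosed Ω] [Algebra K Ω] [Algebra k Ω] [IsScalarTower k K Ω] [CommRing C]
    [IsDomain C] [IsDedekindDomain C] [Algebra Ω C] {deg : B → ℕ} {degC : C → ℕ}
    {E : Basis (degSet deg) k B} {j : B →+* C} {EC : Basis (degSet degC) Ω C}
    {O : ValuationSubring k} (h : OnePt k B deg) (hE : IntBasis O deg E)
    (V : ValuationSubring Ω)
    (hV1 : ∀ b : B, algebraMap K Ω (algebraMap B K b) ∈ V ↔ b ∈ BO h hE)
    (hV2 : ∀ b : BO h hE, V.valuation (algebraMap K Ω (algebraMap B K b)) < 1 ↔ b ∈ mB h hE)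
    (hV3 : ∀ z : K, algebraMap K Ω z ∈ V → ∃ a b : BO h hE, b ∉ mB h hE ∧
      z * algebraMap B K b = algebraMap B K a)
    (hC : OnePt Ω C degC) (hj : BaseChange E j EC) (hEC : IntBasis V degC EC)
    [IsDedekindDomain (Bbar hC hEC)] {q : ℕ} (hq : q.Prime) (hqO : O.valuation (q : k) < 1)
    (ε : C →ₐ[Ω] Ω) (hε : ∀ b : B, ε (j b) = algebraMap K Ω (algebraMap B K b))
    {J : Ideal C} {f : C} (hJ : J ≠ ⊥) (hf : f ≠ 0)
    (hJf : Ideal.span {f} = RingHom.ker ε * J ^ q)
    (hrat : ∀ v ∈ J, v ∈ Submodule.span Ω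
      {u : C | u ∈ J ∧ ∀ i, EC.repr u i ∈ (algebraMap K Ω).range})
    (h1 : 1 ∉ degSet deg) : False := by
  classical
  have hkΩ : ∀ c : k, algebraMap k Ω c = algebraMap K Ω (algebraMap B K (algebraMap k B c)) := by
    intro c
    rw [← IsScalarTower.algebraMap_apply k B K, ← IsScalarTower.algebraMap_apply k K Ω]
  have hkV : ∀ c : k, c ∈ O → algebraMap k Ω c ∈ V := by
    intro c hc
    rw [hkΩ, hV1]
    exact (constBO h hE ⟨c, hc⟩).2
  -- the residue characteristic
  have hq0 : ((q : ℕ) : IsLocalRing.ResidueField V) = 0 := by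
    have h2 : ((q : ℕ) : BO h hE) ∈ mB h hE := by
      have h3 : ((q : ℕ) : BO h hE) = constBO h hE ((q : ℕ) : O) := by rw [map_natCast]
      rw [h3]
      refine constBO_mem_mB h hE ?_
      simpa using hqO
    have h3 := (hV2 _).2 h2
    rw [← map_natCast (IsLocalRing.residue V), residue_eq_zero_iff_val]
    simpa using h3
  have hchar : CharP (IsLocalRing.ResidueField V) q := (CharP.charP_iff_prime_eq_zero hq).2 hq0
  have : Fact q.Prime := ⟨hq⟩
  -- the field `L1`
  let L1 : Subfield (IsLocalRing.ResidueField V) :=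
    { carrier := {x | ∃ (z : K) (hz : algebraMap K Ω z ∈ V),
        IsLocalRing.residue V ⟨algebraMap K Ω z, hz⟩ ^ q = x}
      mul_mem' := by
        rintro _ _ ⟨z, hz, rfl⟩ ⟨w, hw, rfl⟩
        have hzw : algebraMap K Ω (z * w) ∈ V := by rw [map_mul]; exact V.mul_mem _ _ hz hw
        refine ⟨z * w, hzw, ?_⟩
        rw [← mul_pow, ← map_mul]
        congr 2
        exact Subtype.ext (map_mul _ _ _)
      one_mem' := ⟨1, by rw [map_one]; exact V.one_mem, by
        have h2 : (⟨algebraMap K Ω 1, by rw [map_one]; exact V.one_mem⟩ : V) = 1 :=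
          Subtype.ext (map_one _)
        rw [h2, map_one, one_pow]⟩
      add_mem' := by
        rintro _ _ ⟨z, hz, rfl⟩ ⟨w, hw, rfl⟩
        have hzw : algebraMap K Ω (z + w) ∈ V := by rw [map_add]; exact V.add_mem _ _ hz hw
        refine ⟨z + w, hzw, ?_⟩
        rw [← add_pow_char, ← map_add]
        congr 2
        exact Subtype.ext (map_add _ _ _)
      zero_mem' := ⟨0, by rw [map_zero]; exact V.zero_mem, by
        have h2 : (⟨algebraMap K Ω 0, by rw [map_zero]; exact V.zero_mem⟩ : V) = 0 :=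
          Subtype.ext (map_zero _)
        rw [h2, map_zero, zero_pow hq.ne_zero]⟩
      neg_mem' := by
        rintro _ ⟨z, hz, rfl⟩
        have hnz : algebraMap K Ω (-z) ∈ V := by rw [map_neg]; exact V.neg_mem _ hz
        refine ⟨-z, hnz, ?_⟩
        have h2 : (⟨algebraMap K Ω (-z), hnz⟩ : V) = -⟨algebraMap K Ω z, hz⟩ :=
          Subtype.ext (map_neg _ _)
        rw [h2, map_neg]
        exact map_neg (frobenius (IsLocalRing.ResidueField V) q) _
      inv_mem' := by
        rintro _ ⟨z, hz, rfl⟩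
        by_cases h0 : IsLocalRing.residue V ⟨algebraMap K Ω z, hz⟩ = 0
        · refine ⟨z, hz, ?_⟩
          rw [h0, zero_pow hq.ne_zero, inv_zero]
        · have h2 : V.valuation (algebraMap K Ω z) = 1 := by
            refine le_antisymm ((V.valuation_le_one_iff _).2 hz) ?_
            by_contra hlt
            push Not at hlt
            exact h0 ((residue_eq_zero_iff_val _).2 hlt)
          have hzi : algebraMap K Ω z⁻¹ ∈ V := by
            rw [← V.valuation_le_one_iff, map_inv₀, map_inv₀, h2, inv_one]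
          have hz0 : algebraMap K Ω z ≠ 0 := by
            intro h3
            rw [h3, map_zero] at h2
            exact zero_ne_one h2
          refine ⟨z⁻¹, hzi, ?_⟩
          have h3 : IsLocalRing.residue V ⟨algebraMap K Ω z⁻¹, hzi⟩ *
              IsLocalRing.residue V ⟨algebraMap K Ω z, hz⟩ = 1 := by
            rw [← map_mul, ← map_one (IsLocalRing.residue V)]
            congr 1
            apply Subtype.ext
            change algebraMap K Ω z⁻¹ * algebraMap K Ω z = 1
            rw [map_inv₀, inv_mul_cancel₀ hz0]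
          rw [← inv_pow, eq_inv_of_mul_eq_one_left h3] }
  have hL1 : ∀ x, x ∈ L1 ↔ ∃ (z : K) (hz : algebraMap K Ω z ∈ V),
        IsLocalRing.residue V ⟨algebraMap K Ω z, hz⟩ ^ q = x := fun x => Iff.rfl
  have hconst : ∀ (c : k) (hc : algebraMap k Ω c ∈ V), c ∈ O →
      IsLocalRing.residue V ⟨algebraMap k Ω c, hc⟩ ∈ L1 := by
    intro c hc hcO
    obtain ⟨d, hd⟩ := IsAlgClosed.exists_pow_nat_eq c hq.pos
    have hdO : d ∈ O := by
      rw [← O.valuation_le_one_iff] at hcO ⊢
      rw [← hd, map_pow] at hcO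
      exact (pow_le_one_iff hq.ne_zero).1 hcO
    have hdV := hkV d hdO
    have hdK : algebraMap k Ω d = algebraMap K Ω (algebraMap k K d) :=
      IsScalarTower.algebraMap_apply k K Ω d
    refine (hL1 _).2 ⟨algebraMap k K d, by rw [← hdK]; exact hdV, ?_⟩
    rw [← map_pow]
    congr 1
    apply Subtype.ext
    change algebraMap K Ω (algebraMap k K d) ^ q = algebraMap k Ω c
    rw [← hdK, ← map_pow, hd]
  -- the points
  have hdm : ∀ x : degSet degC, (x : ℕ) ∈ degSet deg := fun x => by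
    rw [← hj.set_eq]
    exact x.2
  have hεE0 : ∀ (m' : degSet degC) (m : degSet deg), (m' : ℕ) = m →
      ε (EC m') = algebraMap K Ω (algebraMap B K (E m)) := by
    intro m' m hm
    rw [hj.basis m m' hm, hε]
  have hεE : ∀ m', ε (EC m') ∈ V := by
    intro m'
    rw [hεE0 m' ⟨m', hdm m'⟩ rfl, hV1]
    exact E_mem_BO h hE _
  -- the primitive generator
  obtain ⟨c, b', hc, hb', hfb, -, -⟩ := exists_prim hC hEC hf
  have hspanb : Ideal.span {(b' : C)} = RingHom.ker ε * J ^ q := by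
    rw [← hJf, hfb, Algebra.smul_def, Ideal.span_singleton_mul_left_unit]
    exact (IsUnit.mk0 _ hc).map (algebraMap Ω C)
  have hker : RingHom.ker ε ≠ ⊥ := ker_ne_bot hC ε
  have hred : Ideal.span {Ideal.Quotient.mk (mB hC hEC) b'} =
      RingHom.ker (TE.evbar hC hEC ε hεE) * redI hC hEC J ^ q := by
    rw [← redI_span hC hEC hb', hspanb, redI_mul hC hEC hker (pow_ne_zero q hJ),
      redI_pow hC hEC hJ, TE.redI_ker]
  -- generators of the reduction of `J`
  let G : Set C := {u | u ∈ J ∧ ∀ i, EC.repr u i ∈ (algebraMap K Ω).range}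
  let A : Set (Bbar hC hEC) :=
    {x | ∃ u : BO hC hEC, (u : C) ∈ G ∧ Ideal.Quotient.mk (mB hC hEC) u = x}
  have hGsmul : ∀ u ∈ G, ∀ c : K, algebraMap K Ω c • u ∈ G := by
    intro u hu c
    refine ⟨?_, fun i => ?_⟩
    · rw [Algebra.smul_def]
      exact J.mul_mem_left _ hu.1
    · rw [map_smul, Finsupp.smul_apply, smul_eq_mul]
      exact mul_mem ⟨c, rfl⟩ (hu.2 i)
  have hGsub : ∀ u ∈ G, ∀ u' ∈ G, ∀ c : K, u - algebraMap K Ω c • u' ∈ G := by
    intro u hu u' hu' c
    have h2 := hGsmul u' hu' c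
    refine ⟨J.sub_mem hu.1 h2.1, fun i => ?_⟩
    rw [map_sub, Finsupp.sub_apply]
    exact sub_mem (hu.2 i) (h2.2 i)
  have hA1 : redI hC hEC J = Ideal.span A := by
    apply le_antisymm
    · intro x hx
      rw [mem_redI] at hx
      obtain ⟨y, hy, rfl⟩ := hx
      obtain ⟨s, hsG, hs⟩ := Submodule.mem_span_finite_of_mem_span (hrat _ hy)
      exact TE.pivot (K := K) hC hEC G (fun u hu => hu.2) hGsub hGsmul s.card s le_rfl
        (fun u hu => hsG hu) y hs
    · rw [Ideal.span_le]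
      rintro _ ⟨u, hu, rfl⟩
      exact (mem_redI hC hEC).2 ⟨u, hu.1, rfl⟩
  rw [hA1] at hred
  have hA0 : Ideal.span A ≠ ⊥ := by
    rw [← hA1]
    exact redI_ne_bot hC hEC hJ
  have hsc : ∀ m m' i, (Ebar hC hEC).repr (Ebar hC hEC m * Ebar hC hEC m') i ∈ L1 := by
    intro m m' i
    rw [Ebar_repr_mul]
    have h2 : EC.repr (EC m * EC m') i =
        algebraMap k Ω (E.repr (E ⟨m, hdm m⟩ * E ⟨m', hdm m'⟩) ⟨i, hdm i⟩) := by
      rw [hj.basis ⟨m, hdm m⟩ m rfl, hj.basis ⟨m', hdm m'⟩ m' rfl, ← map_mul]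
      exact hj.repr_j _ ⟨i, hdm i⟩ i rfl
    have h3 := hconst (E.repr (E ⟨m, hdm m⟩ * E ⟨m', hdm m'⟩) ⟨i, hdm i⟩)
      (by rw [← h2]; exact hEC.int m m' i) (hE.int _ _ _)
    have h4 : (⟨EC.repr (EC m * EC m') i, hEC.int m m' i⟩ : V) =
        ⟨algebraMap k Ω (E.repr (E ⟨m, hdm m⟩ * E ⟨m', hdm m'⟩) ⟨i, hdm i⟩),
          by rw [← h2]; exact hEC.int m m' i⟩ := Subtype.ext h2
    rw [h4]
    exact h3
  have hone : TE.IsRat (Ebar hC hEC) L1 1 := by
    rw [← Ebar_one hC hEC ⟨0, zero_mem_degSet hC⟩ rfl]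
    exact TE.isRat_e _ _ _
  obtain ⟨hdom, degb, hdb, hset, hle, hiff⟩ := exists_degbar hC hEC
  have hdg : ∀ x n, degb x ≤ n ↔ ∀ i : degSet degC, n < i → (Ebar hC hEC).repr x i = 0 := by
    intro x n
    obtain ⟨b, rfl⟩ := Ideal.Quotient.mk_surjective x
    rw [hiff]
    refine forall_congr' fun i => imp_congr_right fun _ => ?_
    rw [Ebar_repr_mk, residue_eq_zero_iff_val]
  have hA : ∀ a ∈ A, ∀ i, (Ebar hC hEC).repr a i ^ q ∈ L1 := by
    rintro _ ⟨u, hu, rfl⟩ i
    rw [Ebar_repr_mk]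
    obtain ⟨z, hz⟩ := hu.2 i
    refine (hL1 _).2 ⟨z, by rw [hz]; exact u.2 i, ?_⟩
    congr 2
    exact Subtype.ext hz
  have hb'0 : Ideal.Quotient.mk (mB hC hEC) b' ≠ 0 :=
    fun h0 => hb' (Ideal.Quotient.eq_zero_iff_mem.1 h0)
  have key := TE.core (e := Ebar hC hEC) (L1 := L1) hdb hdg (by rw [hset, hj.set_eq]; exact h1) hsc hone hq A
    hA hA0 (TE.evbar hC hEC ε hεE) hb'0 hred
  -- the contradiction
  obtain ⟨hdom', degb', hdb', hset', hle', hiff'⟩ := exists_degbar h hE
  have hdiv : ∀ m : degSet deg, q ∣ (m : ℕ) := by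
    intro m
    have hm' : (m : ℕ) ∈ degSet degC := by
      rw [hj.set_eq]
      exact m.2
    have h2 := key ⟨m, hm'⟩
    rw [Ebar_apply, TE.evbar_mk] at h2
    obtain ⟨z, hz, h3⟩ := (hL1 _).1 h2
    obtain ⟨a, b, hb, hab⟩ := hV3 z hz
    have h4 : V.valuation (algebraMap K Ω z ^ q -
        algebraMap K Ω (algebraMap B K (E m))) < 1 := by
      have h5 : IsLocalRing.residue V (⟨algebraMap K Ω z, hz⟩ ^ q -
          ⟨ε (EC ⟨m, hm'⟩), hεE ⟨m, hm'⟩⟩) = 0 := by
        rw [map_sub, map_pow, h3]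
        exact sub_self _
      rw [residue_eq_zero_iff_val] at h5
      rw [← hεE0 ⟨m, hm'⟩ m rfl]
      exact h5
    have h6 : a ^ q - ⟨E m, E_mem h hE m⟩ * b ^ q ∈ mB h hE := by
      rw [← hV2]
      have h7 : algebraMap K Ω (algebraMap B K ((a ^ q - ⟨E m, E_mem h hE m⟩ * b ^ q :
          BO h hE) : B)) = (algebraMap K Ω z ^ q - algebraMap K Ω (algebraMap B K (E m))) *
            algebraMap K Ω (algebraMap B K (b : B)) ^ q := by
        have h8 : ((a ^ q - ⟨E m, E_mem h hE m⟩ * b ^ q : BO h hE) : B) =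
          (a : B) ^ q - E m * (b : B) ^ q := rfl
        rw [h8, map_sub, map_sub, map_pow, map_pow, ← hab, map_mul, map_mul, map_mul, map_pow,
          map_pow]
        ring
      rw [h7, map_mul, map_pow]
      have h9 : V.valuation (algebraMap K Ω (algebraMap B K (b : B))) ≤ 1 :=
        (V.valuation_le_one_iff _).2 ((hV1 _).2 b.2)
      calc _ ≤ V.valuation (algebraMap K Ω z ^ q - algebraMap K Ω (algebraMap B K (E m))) * 1 := by
            gcongr
            exact pow_le_one' h9 q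
        _ < 1 := by rwa [mul_one]
    have h7 : Ideal.Quotient.mk (mB h hE) a ^ q =
        Ideal.Quotient.mk (mB h hE) ⟨E m, E_mem h hE m⟩ * Ideal.Quotient.mk (mB h hE) b ^ q := by
      rw [← map_pow, ← map_pow, ← map_mul]
      exact Ideal.Quotient.eq.2 h6
    have hb0 : Ideal.Quotient.mk (mB h hE) b ≠ 0 :=
      fun h0 => hb (Ideal.Quotient.eq_zero_iff_mem.1 h0)
    have hE0 : Ideal.Quotient.mk (mB h hE) ⟨E m, E_mem h hE m⟩ ≠ 0 :=
      fun h0 => (UL_E h hE m).notMem (Ideal.Quotient.eq_zero_iff_mem.1 h0)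
    have ha0 : Ideal.Quotient.mk (mB h hE) a ≠ 0 := by
      intro h0
      rw [h0, zero_pow hq.ne_zero] at h7
      exact mul_ne_zero hE0 (pow_ne_zero q hb0) h7.symm
    have hdE : degb' (Ideal.Quotient.mk (mB h hE) ⟨E m, E_mem h hE m⟩) = m := by
      rw [(UL_E h hE m).degb hiff' hle']
      exact hE.deg_E m
    have hpow : ∀ (x : Bbar h hE), x ≠ 0 → ∀ n : ℕ, degb' (x ^ n) = n * degb' x := by
      intro x hx n
      induction n with
      | zero => rw [pow_zero, hdb'.deg_one, zero_mul]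
      | succ n ih => rw [pow_succ, hdb'.deg_mul _ _ (pow_ne_zero n hx) hx, ih]; ring
    have h8 := congrArg degb' h7
    rw [hpow _ ha0, hdb'.deg_mul _ _ hE0 (pow_ne_zero q hb0), hpow _ hb0, hdE] at h8
    exact (Nat.dvd_add_left (Dvd.intro _ rfl)).1 (h8 ▸ Dvd.intro _ rfl)
  obtain ⟨N, hN⟩ := h.exists_large
  have h2 := hdiv ⟨q * N + 1, hN _ (by nlinarith [hq.two_le])⟩
  have h3 : q ∣ 1 := (Nat.dvd_add_right (Dvd.intro _ rfl)).1 h2
  exact hq.one_lt.ne' (Nat.dvd_one.1 h3)

end TE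

end Pool.Agent.SC
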