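import Mathlib
import Pool.Agent.SC.G1
import Pool.Agent.SC.R1a
import Pool.Agent.SC.R3a

/-!
# MP_e66f84_ag, block TF: the class group of a one-point ring is divisible
-/

universe u

namespace Pool.Agent.SC

open VC Module Polynomial WithZero IsDedekindDomain

section TF

variable {k R : Type u} [Field k] [CommRing R] [IsDomain R] [Algebra k R] {deg : R → ℕ}

theorem OnePt.exists_pos (h : OnePt k R deg) : ∃ x : R, x ≠ 0 ∧ 0 < deg x := by
  obtain ⟨N, hN⟩ := h.large
  obtain ⟨x, hx0, hx⟩ := hN (N + 1) (by omega)
  exact ⟨x, hx0, by omega⟩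

theorem OnePt.transcendental (h : OnePt k R deg) {x : R} (hx0 : x ≠ 0) (hx : 0 < deg x) :
    Transcendental k x := by
  rw [transcendental_iff]
  intro p hp
  by_contra hp0
  have h1 := h.sum_deg p.support (Polynomial.support_nonempty.2 hp0) (fun i => x ^ i)
    (fun i _ => pow_ne_zero i hx0)
    (fun i _ j _ hij => by
      simp only [R3a.deg_pow h hx0] at hij
      exact Nat.eq_of_mul_eq_mul_right hx hij)
    (fun i => p.coeff i) (fun i hi => Polynomial.mem_support_iff.1 hi)
  apply h1.1
  rw [← hp, Polynomial.aeval_eq_sum_range' (Nat.lt_succ_self p.natDegree)]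
  refine Finset.sum_subset (fun i hi => ?_) (fun i _ hi => ?_)
  · rw [Finset.mem_range]
    exact Nat.lt_succ_of_le (Polynomial.le_natDegree_of_mem_supp i hi)
  · rw [Polynomial.notMem_support_iff.1 hi, zero_smul]

/-- A one-point ring is a finite module over `k[x]`. -/
theorem OnePt.exists_span (h : OnePt k R deg) {x : R} (hx0 : x ≠ 0) (hx : 0 < deg x) :
    ∃ S : Set R, S.Finite ∧ ∀ r, r ∈ Submodule.span (Algebra.adjoin k {x}) S := by
  classical
  have hI : Ideal.span {x} ≠ ⊥ := by rwa [Ne, Ideal.span_singleton_eq_bot]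
  have hch : ∀ n : missing deg (Ideal.span {x}), ∃ b : R, b ≠ 0 ∧ deg b = n := fun n => n.2.1
  choose e he0 hed using hch
  have hfin : Finite (missing deg (Ideal.span {x})) := (h.missing_finite hI).to_subtype
  refine ⟨Set.range e, Set.finite_range e, fun r => ?_⟩
  let W : Submodule k R :=
    (Submodule.span (Algebra.adjoin k {x}) (Set.range e)).restrictScalars k
  have key : ∀ n : ℕ, ∀ b : R, b ≠ 0 → deg b = n → ∃ w ∈ W, w ≠ 0 ∧ deg w = deg b := by
    intro n
    induction n using Nat.strong_induction_on with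
    | _ n ih =>
      intro b hb0 hb
      by_cases hm : deg b ∈ missing deg (Ideal.span {x})
      · exact ⟨e ⟨deg b, hm⟩, Submodule.subset_span ⟨_, rfl⟩, he0 _, hed _⟩
      · have h1 : ¬ ∀ b' ∈ Ideal.span {x}, b' ≠ 0 → deg b' ≠ deg b :=
          fun h2 => hm ⟨⟨b, hb0, rfl⟩, h2⟩
        push Not at h1
        obtain ⟨w, hw, hw0, hwb⟩ := h1
        obtain ⟨c, rfl⟩ := Ideal.mem_span_singleton.1 hw
        have hc0 : c ≠ 0 := right_ne_zero_of_mul hw0
        have h2 := h.deg_mul x c hx0 hc0
        obtain ⟨w', hw', hw'0, hw'd⟩ := ih (deg c) (by omega) c hc0 rfl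
        refine ⟨x * w', ?_, mul_ne_zero hx0 hw'0, ?_⟩
        · exact Submodule.smul_mem _ (⟨x, Algebra.subset_adjoin rfl⟩ : Algebra.adjoin k {x}) hw'
        · rw [h.deg_mul _ _ hx0 hw'0, hw'd, ← hwb, h2]
  have h2 := h.span_induction ⊤ W le_top (fun b _ hb0 => key _ b hb0 rfl)
  exact h2 (Submodule.mem_top (x := r))

variable {F : Type u} [Field F] [Algebra k F] [Algebra R F]
    [IsScalarTower k R F] [IsFractionRing R F]

theorem OnePt.isFunctionField (h : OnePt k R deg) : IsFunctionField k F := by
  classical
  obtain ⟨x, hx0, hx⟩ := h.exists_pos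
  have htr := h.transcendental hx0 hx
  obtain ⟨S, hS, hspan⟩ := h.exists_span hx0 hx
  have hinj : Function.Injective (algebraMap R F) := IsFractionRing.injective R F
  set t : F := algebraMap R F x with ht
  refine ⟨t, (transcendental_algebraMap_iff hinj).2 htr, ?_⟩
  set K' := IntermediateField.adjoin k {t} with hK'
  set A := Algebra.adjoin k {x} with hA
  have hAK : ∀ a ∈ A, algebraMap R F a ∈ K' := by
    intro a ha
    induction ha using Algebra.adjoin_induction with
    | mem y hy =>
      rw [Set.mem_singleton_iff] at hy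
      rw [hy]
      exact IntermediateField.mem_adjoin_simple_self k t
    | algebraMap r =>
      rw [← IsScalarTower.algebraMap_apply k R F]
      exact K'.algebraMap_mem r
    | add y z _ _ hy hz => rw [map_add]; exact K'.add_mem hy hz
    | mul y z _ _ hy hz => rw [map_mul]; exact K'.mul_mem hy hz
  have hmodfin : Module.Finite A R := by
    refine ⟨⟨hS.toFinset, ?_⟩⟩
    rw [Set.Finite.coe_toFinset, eq_top_iff]
    intro r _
    exact hspan r
  have hint : ∀ r : R, IsIntegral K' (algebraMap R F r) := by
    intro r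
    have h1 : IsIntegral A r := IsIntegral.of_finite A r
    obtain ⟨p, hp, hpr⟩ := h1
    let f : A →+* K' := ((algebraMap R F).comp A.val.toRingHom).codRestrict K'
      (fun a => hAK a a.2)
    refine ⟨p.map f, hp.map f, ?_⟩
    rw [Polynomial.eval₂_map]
    have h2 : (algebraMap K' F).comp f = (algebraMap R F).comp (algebraMap A R) := rfl
    rw [h2, ← Polynomial.hom_eval₂, hpr, map_zero]
  set T : Set F := algebraMap R F '' S with hT
  have hTfin : T.Finite := hS.image _
  have : Finite T := hTfin.to_subtype
  have hfd : FiniteDimensional K' (IntermediateField.adjoin K' T) :=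
    IntermediateField.finiteDimensional_adjoin (by
      rintro _ ⟨r, _, rfl⟩
      exact hint r)
  have hRT : ∀ r : R, algebraMap R F r ∈ IntermediateField.adjoin K' T := by
    intro r
    have hr := hspan r
    induction hr using Submodule.span_induction with
    | mem y hy => exact IntermediateField.subset_adjoin K' T ⟨y, hy, rfl⟩
    | zero => rw [map_zero]; exact zero_mem _
    | add y z _ _ hy hz => rw [map_add]; exact add_mem hy hz
    | smul a y _ hy =>
      have : algebraMap R F (a • y) = algebraMap R F a * algebraMap R F y := by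
        rw [← map_mul]; rfl
      rw [this]
      exact mul_mem (IntermediateField.algebraMap_mem _ (⟨_, hAK a a.2⟩ : K')) hy
  have htop : IntermediateField.adjoin K' T = ⊤ := by
    rw [eq_top_iff]
    intro z _
    obtain ⟨a, b, _, rfl⟩ := IsFractionRing.div_surjective (A := R) z
    exact div_mem (hRT a) (hRT b)
  rw [htop] at hfd
  exact Module.Finite.equiv (IntermediateField.topEquiv (F := K') (E := F)).toLinearEquiv

end TF

section Div

variable {k R F : Type u} [Field k] [CommRing R] [IsDomain R] [IsDedekindDomain R] [Algebra k R]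
  [Field F] [Algebra k F] [Algebra R F] [IsScalarTower k R F] [IsFractionRing R F]

/-- The place of a maximal ideal. -/
noncomputable def placeDed (v : HeightOneSpectrum R) : Place k F where
  ring := (v.valuation F).valuationSubring
  algebraMap_mem := by
    intro a
    rw [Valuation.mem_valuationSubring_iff, IsScalarTower.algebraMap_apply k R F]
    exact v.valuation_le_one _
  ne_top := by
    simp only [ne_eq, Valuation.valuationSubring_eq_top_iff, not_not]
    infer_instance

omit [IsDomain R] in
theorem placeDed_ring (v : HeightOneSpectrum R) :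
    (placeDed (k := k) (F := F) v).ring = (v.valuation F).valuationSubring := rfl

omit [IsDomain R] in
theorem placeDed_injective : Function.Injective (placeDed (k := k) (R := R) (F := F)) := by
  intro v w h
  have h1 : (v.valuation F).valuationSubring = (w.valuation F).valuationSubring :=
    congrArg Place.ring h
  ext b
  rw [← HeightOneSpectrum.valuation_lt_one_iff_mem (K := F),
    ← HeightOneSpectrum.valuation_lt_one_iff_mem (K := F),
    ← mem_nonunits_of_valuation (w := v.valuation F) rfl,
    ← mem_nonunits_of_valuation (w := w.valuation F) rfl, h1]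

open scoped nonZeroDivisors in
theorem div_of_picDiv [IsAlgClosed k] {deg : R → ℕ} (h : OnePt k R deg)
    (hdiv : PicDiv k F) : ∀ I : Ideal R, I ≠ ⊥ → ∀ n : ℕ, 0 < n →
      ∃ J : Ideal R, J ≠ ⊥ ∧ SameClass I (J ^ n) := by
  classical
  have hF : IsFunctionField k F := h.isFunctionField
  obtain ⟨x, hx0, hx⟩ := h.exists_pos
  have htr := h.transcendental hx0 hx
  have hinj : Function.Injective (algebraMap R F) := IsFractionRing.injective R F
  have htr' : Transcendental k (algebraMap R F x) := (transcendental_algebraMap_iff hinj).2 htr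
  -- a place at infinity
  obtain ⟨P0, hP0⟩ := FF.exists_place (FF.transcendental_inv' htr')
  have hxP0 : algebraMap R F x ∉ P0.ring := by
    rw [ValuationSubring.inv_mem_nonunits_iff] at hP0
    rcases hP0 with h1 | h1
    · exact absurd (hinj (h1.trans (map_zero _).symm)) hx0
    · exact h1
  have hne : ∀ v : HeightOneSpectrum R, placeDed (k := k) (F := F) v ≠ P0 := by
    intro v hv
    apply hxP0
    rw [← hv, placeDed_ring, Valuation.mem_valuationSubring_iff]
    exact v.valuation_le_one x
  intro I hI n hn
  obtain ⟨If, hIf⟩ : ∃ If : FractionalIdeal R⁰ F, If = (I : FractionalIdeal R⁰ F) := ⟨_, rfl⟩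
  have hIf0 : If ≠ 0 := by rw [hIf]; exact FractionalIdeal.coeIdeal_ne_zero.2 hI
  -- the divisor of `I`
  let ex : HeightOneSpectrum R →₀ ℤ :=
    Finsupp.mk (FractionalIdeal.finite_factors If).toFinset
      (fun v => FractionalIdeal.count F v If) (fun v => by
        rw [Set.Finite.mem_toFinset]; rfl)
  let E : Place k F →₀ ℤ := ex.mapDomain placeDed
  have hE : ∀ v, E (placeDed v) = FractionalIdeal.count F v If := fun v =>
    Finsupp.mapDomain_apply placeDed_injective ex v
  obtain ⟨D', c, hc0, hD'⟩ := hdiv n hn (E - Finsupp.single P0 (FF.deg E)) (by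
    rw [← FF.deg_eq, map_sub, FF.deg_single, sub_self])
  have hv : ∀ v : HeightOneSpectrum R, FractionalIdeal.count F v If =
      n * D' (placeDed v) + ord (placeDed (k := k) (F := F) v).ring c := by
    intro v
    rw [← hE, ← hD', Finsupp.sub_apply, Finsupp.single_eq_of_ne (hne v), sub_zero]
  -- the root
  let ex' : HeightOneSpectrum R →₀ ℤ :=
    D'.comapDomain placeDed placeDed_injective.injOn
  set J' : FractionalIdeal R⁰ F :=
    ex'.prod (fun v m => (v.asIdeal : FractionalIdeal R⁰ F) ^ m) with hJ'
  have hJ'c : ∀ v, FractionalIdeal.count F v J' = D' (placeDed v) := fun v =>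
    FractionalIdeal.count_finsuppProd F v ex'
  have hJ'0 : J' ≠ 0 := by
    rw [hJ', Finsupp.prod]
    exact Finset.prod_ne_zero_iff.2 fun v _ =>
      zpow_ne_zero _ (FractionalIdeal.coeIdeal_ne_zero.2 v.ne_bot)
  have hc0' : FractionalIdeal.spanSingleton R⁰ c ≠ 0 := by
    rwa [Ne, FractionalIdeal.spanSingleton_eq_zero_iff]
  have hmain : If = FractionalIdeal.spanSingleton R⁰ c * J' ^ n := by
    refine fractional_eq_of_count hIf0 (mul_ne_zero hc0' (pow_ne_zero _ hJ'0)) fun v => ?_
    rw [FractionalIdeal.count_mul F v hc0' (pow_ne_zero _ hJ'0), FractionalIdeal.count_pow,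
      hJ'c, fcount_spanSingleton v hc0, hv, placeDed_ring]
    ring
  obtain ⟨d, J, hd0, hdJ⟩ := FractionalIdeal.exists_eq_spanSingleton_mul J'
  obtain ⟨c1, c2, hc2, rfl⟩ := IsFractionRing.div_surjective (A := R) c
  have hc20 : c2 ≠ 0 := nonZeroDivisors.ne_zero hc2
  have hc10 : c1 ≠ 0 := by
    rintro rfl
    rw [map_zero, zero_div] at hc0
    exact hc0 rfl
  have hJ0 : J ≠ ⊥ := by
    rintro rfl
    rw [FractionalIdeal.coeIdeal_bot, mul_zero] at hdJ
    exact hJ'0 hdJ
  refine ⟨J, hJ0, c2 * d ^ n, c1, mul_ne_zero hc20 (pow_ne_zero _ hd0), hc10, ?_⟩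
  have hd' : algebraMap R F d ≠ 0 := by
    rw [Ne, IsFractionRing.to_map_eq_zero_iff]; exact hd0
  have hc2' : algebraMap R F c2 ≠ 0 := by
    rw [Ne, IsFractionRing.to_map_eq_zero_iff]; exact hc20
  have hfin : ((Ideal.span {c2 * d ^ n} * I : Ideal R) :
      FractionalIdeal R⁰ F) = ((Ideal.span {c1} * J ^ n : Ideal R) :
      FractionalIdeal R⁰ F) := by
    rw [FractionalIdeal.coeIdeal_mul, FractionalIdeal.coeIdeal_mul, FractionalIdeal.coeIdeal_pow,
      FractionalIdeal.coeIdeal_span_singleton, FractionalIdeal.coeIdeal_span_singleton, ← hIf,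
      hmain, hdJ, mul_pow, FractionalIdeal.spanSingleton_pow, ← mul_assoc, ← mul_assoc,
      FractionalIdeal.spanSingleton_mul_spanSingleton,
      FractionalIdeal.spanSingleton_mul_spanSingleton]
    congr 2
    rw [map_mul, map_pow, inv_pow]
    field_simp
  exact FractionalIdeal.coeIdeal_injective hfin

end Div

/-- TF.  The class group of a one-point ring is divisible. -/
theorem div_onePt {k R F : Type u} [Field k] [IsAlgClosed k] [CommRing R] [IsDomain R]
    [IsDedekindDomain R] [Algebra k R] [Field F] [Algebra k F] [Algebra R F]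
    [IsScalarTower k R F] [IsFractionRing R F] {deg : R → ℕ} (h : OnePt k R deg) :
    IsFunctionField k F ∧ (PicDiv k F → ∀ I : Ideal R, I ≠ ⊥ → ∀ n : ℕ, 0 < n →
      ∃ J : Ideal R, J ≠ ⊥ ∧ SameClass I (J ^ n)) :=
  ⟨h.isFunctionField, fun hdiv => div_of_picDiv h hdiv⟩

end Pool.Agent.SC
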