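import Mathlib
import Pool.Agent.SC.TA
import Pool.Agent.SC.TB
import Pool.Agent.SC.TC
import Pool.Agent.SC.TD
import Pool.Agent.SC.TE
import Pool.Agent.SC.TF
import Pool.Agent.SC.RK1
import Pool.Agent.Helper17.FF.PicDiv

/-!
# Torsion in the class group of a nonrational function field
-/

universe u

namespace Pool.Agent.SC

open Module VC TensorProduct

/-- TT.  Torsion in the class group. -/
theorem exists_torsion_ideal {F k B : Type u} [Field F] [CharZero F] [Field k] [Algebra F k]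
    [IsAlgClosure F k] (hfg : ∃ S : Finset F, Subfield.closure (S : Set F) = ⊤) [CommRing B]
    [IsDomain B] [IsDedekindDomain B] [Algebra k B] {deg : B → ℕ} (h : OnePt k B deg)
    (h1 : 1 ∉ degSet deg) {ℓ : ℕ} (hℓ : 0 < ℓ) :
    ∃ q : ℕ, q.Prime ∧ ¬ q ∣ ℓ ∧ ∃ I : Ideal B, I ≠ ⊥ ∧ (I ^ q).IsPrincipal ∧
      ¬ I.IsPrincipal := by
  have hk : IsAlgClosed k := IsAlgClosure.isAlgClosed F
  have hk0 : CharZero k := charZero_of_injective_algebraMap (algebraMap F k).injective
  obtain ⟨E, G, S, hS, hEG, hO, hext⟩ := exists_model_ext h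
  obtain ⟨O, q, f, σ, hq, hf, hqO, hℓO, hSO, hrk, -, -⟩ :=
    exists_rank_one_frob hfg (⊥ : IntermediateField F k) S hS ℓ hℓ
  obtain ⟨hE, hD⟩ := hO O hSO
  refine ⟨q, hq, ?_, ?_⟩
  · rintro ⟨m, rfl⟩
    rw [Nat.cast_mul, map_mul] at hℓO
    have h2 : O.valuation (m : k) ≤ 1 := (O.valuation_le_one_iff _).2 (natCast_mem _ m)
    have h3 : O.valuation (q : k) * O.valuation (m : k) < 1 := by
      calc O.valuation (q : k) * O.valuation (m : k) ≤ O.valuation (q : k) * 1 := by gcongr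
        _ < 1 := by rwa [mul_one]
    exact absurd hℓO h3.ne
  by_contra hcon
  have hT : ∀ I : Ideal B, I ≠ ⊥ → (I ^ q).IsPrincipal → I.IsPrincipal := by
    intro I hI hIq
    by_contra hI2
    exact hcon ⟨I, hI, hIq, hI2⟩
  -- the generic point
  let K := FractionRing B
  let Ω := AlgebraicClosure K
  have hK0 : CharZero K := charZero_of_injective_algebraMap (algebraMap k K).injective
  have hΩ0 : CharZero Ω := charZero_of_injective_algebraMap (algebraMap K Ω).injective
  obtain ⟨hdom, hDed, degC, EC, hC, hj, hV⟩ := hext Ω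
  obtain ⟨V, hV1, hV2, hV3⟩ := exists_gauss (K := K) (Ω := Ω) h hE
  have hSV : ∀ s ∈ S, V.valuation (algebraMap k Ω s) = 1 := by
    have hmem : ∀ c : k, c ∈ O → algebraMap k Ω c ∈ V := by
      intro c hc
      have h2 : algebraMap k Ω c = algebraMap K Ω (algebraMap B K (algebraMap k B c)) := by
        rw [← IsScalarTower.algebraMap_apply k B K, ← IsScalarTower.algebraMap_apply k K Ω]
      rw [h2, hV1]
      exact (constBO h hE ⟨c, hc⟩).2
    intro s hs
    have h2 : s ∈ O := (O.valuation_le_one_iff _).1 (hSO s hs).le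
    have h3 : s⁻¹ ∈ O := (O.valuation_le_one_iff _).1 (by rw [map_inv₀, hSO s hs, inv_one])
    have h4 : V.valuation (algebraMap k Ω s) ≤ 1 := (V.valuation_le_one_iff _).2 (hmem _ h2)
    have h5 : V.valuation (algebraMap k Ω s)⁻¹ ≤ 1 := by
      rw [← map_inv₀]
      exact (V.valuation_le_one_iff _).2 (hmem _ h3)
    have h6 : V.valuation (algebraMap k Ω s) ≠ 0 := by
      rw [Ne, Valuation.zero_iff, map_eq_zero]
      exact hS s hs
    rw [map_inv₀] at h5
    exact le_antisymm h4 ((inv_le_one₀ (zero_lt_iff.2 h6)).1 h5)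
  obtain ⟨hEC, hDC⟩ := hV V hSV
  have hTC := torsion_ext h hE.deg_E hC hEC.deg_E hj hq.pos hT
  obtain ⟨hff, hdiv⟩ := div_onePt (F := FractionRing (Ω ⊗[k] B)) hC
  obtain ⟨ε, J, f, hε, hJ, hf, hJf, hrat⟩ := exists_root_generic (K := K) h hC hj hq.pos hTC
    (hdiv (FF.picDiv hff))
  exact false_of_root_generic (K := K) h hE V hV1 hV2 hV3 hC hj hEC hq hqO ε hε hJ hf hJf hrat h1

end Pool.Agent.SC
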