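import Mathlib
import Pool.Agent.SC.TT
import Pool.Agent.SC.G1

/-!
# Torsion in the class group, in terms of functions
-/

universe u

namespace Pool.Agent.SC

open Module VC TensorProduct

/-- A field with a one-point ring containing an element of degree one is rational. -/
theorem rational_of_deg_one {k B Y : Type u} [Field k] [CommRing B] [IsDomain B] [Algebra k B]
    [Field Y] [Algebra k Y] [Algebra B Y] [IsScalarTower k B Y] [IsFractionRing B Y]
    {deg : B → ℕ} (h : OnePt k B deg) (h1 : 1 ∈ degSet deg) :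
    ∃ y : Y, IntermediateField.adjoin k {y} = ⊤ := by
  obtain ⟨x, hx0, hx1⟩ := h1
  have hx : x ∈ Algebra.adjoin k ({x} : Set B) := Algebra.subset_adjoin (Set.mem_singleton x)
  have key : ∀ n : ℕ, ∀ b : B, deg b ≤ n → b ∈ Algebra.adjoin k ({x} : Set B) := by
    intro n
    induction n with
    | zero =>
      intro b hb
      by_cases hb0 : b = 0
      · rw [hb0]; exact zero_mem _
      have h2 : deg b = deg (1 : B) := by
        have := h.deg_const 1
        rw [map_one] at this
        omega
      obtain ⟨c, hc | hc⟩ := h.lead b 1 hb0 one_ne_zero h2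
      · rw [hc, ← Algebra.algebraMap_eq_smul_one]
        exact Subalgebra.algebraMap_mem _ _
      · have := h.deg_const 1
        rw [map_one] at this
        omega
    | succ n ih =>
      intro b hb
      rcases Nat.lt_or_ge (deg b) (n + 1) with hlt | hge
      · exact ih b (by omega)
      have hb1 : deg b = n + 1 := le_antisymm hb hge
      have hb0 : b ≠ 0 := by
        rintro rfl
        have := h.deg_const 0
        rw [map_zero] at this
        omega
      have hpow : ∀ m : ℕ, deg (x ^ m) = m := by
        intro m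
        induction m with
        | zero =>
          have := h.deg_const 1
          rw [map_one] at this
          rw [pow_zero]
          exact this
        | succ m ihm =>
          have h4 := h.deg_mul (x ^ m) x (pow_ne_zero _ hx0) hx0
          rw [ihm, hx1] at h4
          rw [pow_succ]
          exact h4
      obtain ⟨c, hc | hc⟩ := h.lead b (x ^ (n + 1)) hb0 (pow_ne_zero _ hx0)
        (hb1.trans (hpow (n + 1)).symm)
      · have hpw := Subalgebra.smul_mem _ (Subalgebra.pow_mem _ hx (n + 1)) c
        rw [← hc] at hpw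
        exact hpw
      · have hpn := hpow (n + 1)
        have h2 := ih _ (Nat.lt_succ_iff.1 (hc.trans_eq hpn))
        have h3 : b = (b - c • x ^ (n + 1)) + c • x ^ (n + 1) := (sub_add_cancel _ _).symm
        have h4 := add_mem h2 (Subalgebra.smul_mem _ (Subalgebra.pow_mem _ hx (n + 1)) c)
        rw [← h3] at h4
        exact h4
  refine ⟨algebraMap B Y x, ?_⟩
  rw [eq_top_iff]
  rintro z -
  have hmem : ∀ b : B, algebraMap B Y b ∈ IntermediateField.adjoin k {algebraMap B Y x} := by
    intro b
    have h2 := key _ b le_rfl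
    have h3 : algebraMap B Y b ∈ (Algebra.adjoin k {x}).map (IsScalarTower.toAlgHom k B Y) :=
      Subalgebra.mem_map.2 ⟨b, h2, rfl⟩
    rw [AlgHom.map_adjoin, Set.image_singleton] at h3
    exact IntermediateField.algebra_adjoin_le_adjoin k _ h3
  obtain ⟨a, b, hb, rfl⟩ := IsFractionRing.div_surjective (A := B) z
  exact div_mem (hmem a) (hmem b)

theorem ideal_pow_inj {R : Type*} [CommRing R] [IsDedekindDomain R] {I J : Ideal R} {n : ℕ}
    (hn : 0 < n) (h : I ^ n = J ^ n) : I = J := by
  by_cases hI : I = ⊥
  · rw [hI, Ideal.bot_pow hn.ne'] at h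
    have h2 : J = ⊥ := by
      have h3 : J ^ n = 0 := by rw [← h]; rfl
      exact (pow_eq_zero_iff hn.ne').1 h3
    rw [hI, h2]
  by_cases hJ : J = ⊥
  · rw [hJ, Ideal.bot_pow hn.ne'] at h
    have h3 : I ^ n = 0 := by rw [h]; rfl
    exact absurd ((pow_eq_zero_iff hn.ne').1 h3) hI
  have h1 := congrArg UniqueFactorizationMonoid.normalizedFactors h
  rw [UniqueFactorizationMonoid.normalizedFactors_pow,
    UniqueFactorizationMonoid.normalizedFactors_pow] at h1
  have h2 := nsmul_right_injective hn.ne' h1
  rw [← associated_iff_eq]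
  exact (UniqueFactorizationMonoid.associated_iff_normalizedFactors_eq_normalizedFactors hI hJ).2 h2

/-- TP.  Torsion in the class group, in terms of functions. -/
theorem exists_torsion {F k Y : Type u} [Field F] [CharZero F] [Field k] [Algebra F k]
    [IsAlgClosure F k] (hfg : ∃ S : Finset F, Subfield.closure (S : Set F) = ⊤)
    [Field Y] [Algebra k Y] (hY : IsFunctionField k Y)
    (hne : ∀ y : Y, IntermediateField.adjoin k {y} ≠ ⊤) {ℓ : ℕ} (hℓ : 0 < ℓ) :
    ∃ q : ℕ, q.Prime ∧ ¬ q ∣ ℓ ∧ ∃ f : Y, f ≠ 0 ∧
      (∀ P : Place k Y, (q : ℤ) ∣ ord P.ring f) ∧ ∀ v : Y, v ^ q ≠ f := by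
  have hk : IsAlgClosed k := IsAlgClosure.isAlgClosed F
  have hk0 : CharZero k := charZero_of_injective_algebraMap (algebraMap F k).injective
  have hg := FF.riemann hY
  obtain ⟨t, ht, htf⟩ := id hY
  obtain ⟨P0, -⟩ := exists_place hY ht
  obtain ⟨hD, hfr⟩ := isDedekind_ringAway hY hg P0
  have hB := onePt_ringAway hY hg P0
  have h1 : 1 ∉ degSet (degAway P0) := by
    intro h1
    obtain ⟨y, hy⟩ := rational_of_deg_one (Y := Y) hB h1
    exact hne y hy
  obtain ⟨q, hq, hql, I, hI, hIq, hIp⟩ := exists_torsion_ideal hfg hB h1 hℓ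
  obtain ⟨f, hf⟩ := hIq
  rw [Ideal.submodule_span_eq] at hf
  have hf0 : f ≠ 0 := by
    rintro rfl
    rw [Ideal.span_singleton_eq_bot.2 rfl] at hf
    exact hI (pow_eq_zero_iff hq.pos.ne' |>.1 hf)
  refine ⟨q, hq, hql, f, fun h => hf0 (Subtype.ext h), fun P => ?_, fun v hv => ?_⟩
  · exact dvd_ord_of_ideal hY hg P0 f hf0 hq.pos hf.symm P
  · -- `v` is integral, so it is in the ring
    have hvB : v ∈ ringAway P0 := by
      intro P hP
      have h2 : v ^ q ∈ P.ring := by rw [hv]; exact f.2 P hP
      rw [← ValuationSubring.valuation_le_one_iff, map_pow] at h2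
      rw [← ValuationSubring.valuation_le_one_iff]
      exact (pow_le_one_iff hq.pos.ne').1 h2
    refine hIp ⟨⟨v, hvB⟩, ?_⟩
    rw [Ideal.submodule_span_eq]
    refine ideal_pow_inj hq.pos ?_
    rw [hf, Ideal.span_singleton_pow]
    congr 2
    exact Subtype.ext hv.symm

end Pool.Agent.SC
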