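import Mathlib
import Pool.Agent.SC.T4
import Pool.Agent.SC.FU
import Pool.Agent.SC.C1b
import Pool.Agent.SC.H1
import Pool.Agent.SC.TP

/-!
# The section conjecture for isotrivial curves with simply connected splitting field
-/

universe u

namespace Pool.Agent.SC

open VC IntermediateField Module Pool.Agent.Helper91.Sect

/-- The uniqueness of the fixed place, for nonrational function fields. -/
theorem uniqueFixed {F E U : Type u} [Field F] [CharZero F] [Field E] [Algebra F E]
    [IsAlgClosure F E] (hF : ∃ S : Finset F, Subfield.closure (S : Set F) = ⊤) [Field U]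
    [Algebra E U] (M : IntermediateField E U) (hc : IsCover M)
    (hM : ∀ y : M, IntermediateField.adjoin E {y} ≠ ⊤) : UniqueFixed M := by
  have h1 : IsAlgClosed E := IsAlgClosure.isAlgClosed F
  have h2 : CharZero E := charZero_of_injective_algebraMap (algebraMap F E).injective
  intro g hg hgM hne W W' hW hW1 hWg hW' hW1' hWg'
  exact fixed_unique' M hc (fun N hN => FF.picDiv hN)
    (fun Y hY hr n hn => exists_torsion hF hY hr hn) hM hg g hgM (pow_orderOf_eq_one g) hne
    hW hW1 hWg hW' hW1' hWg'

theorem nonrational_restrict {E L : Type u} [Field E] [Field L] [Algebra E L]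
    {M U : IntermediateField E L} (h : M ≤ U)
    (hM : ∀ y : M, IntermediateField.adjoin E {y} ≠ ⊤) :
    ∀ y : IntermediateField.restrict h, IntermediateField.adjoin E {y} ≠ ⊤ := by
  intro y hy
  let e := IntermediateField.restrictAlgEquiv h
  refine hM (e.symm y) ?_
  have h1 := IntermediateField.adjoin_map E {y} e.symm.toAlgHom
  rw [hy, Set.image_singleton] at h1
  rw [eq_top_iff]
  intro z _
  have h2 : z ∈ IntermediateField.map e.symm.toAlgHom ⊤ := by
    rw [IntermediateField.mem_map]
    exact ⟨e z, trivial, e.symm_apply_apply z⟩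
  rw [h1] at h2
  exact h2

/-- **The section conjecture for isotrivial curves.** -/
theorem isotrivial_section {F k K : Type u} [Field F] [CharZero F] [Field k] [Field K]
    [Algebra F k] [Algebra k K] [Algebra F K] [IsScalarTower F k K]
    (hF : ∃ S : Finset F, Subfield.closure (S : Set F) = ⊤) (hK : IsFunctionField k K)
    (M : IntermediateField (algebraicClosure F (kbar k K)) (AlgebraicClosure K))
    (hM : IsFunctionField (algebraicClosure F (kbar k K)) M)
    (hMK : IntermediateField.adjoin (kbar k K) (M : Set (AlgebraicClosure K)) = KK k K)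
    (hstab : ∀ ρ : AlgebraicClosure K ≃ₐ[K] AlgebraicClosure K, ∀ m ∈ M, ρ m ∈ M)
    (hrat : ∀ y : M, IntermediateField.adjoin (algebraicClosure F (kbar k K)) {y} ≠ ⊤)
    (hnc : ∃ ρ : AlgebraicClosure K ≃ₐ[K] AlgebraicClosure K,
      (∀ z : AlgebraicClosure K, IsAlgebraic F z → ρ z = z) ∧ ∃ m ∈ M, ρ m ≠ m)
    (hΛ : GenByInertia F k K (fixedConst k (M : Set (AlgebraicClosure K))))
    (s : GaloisSection k K) :
    ∃ V : ValuationSubring (Kur k K), V ≠ ⊤ ∧ (∀ c : kbar k K, toKur k K c ∈ V) ∧
      (∀ (γ : Gk k K) (w : Kur k K), s.toHom γ w ∈ V ↔ w ∈ V) ∧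
      ∀ z : K, algebraMap K (Kur k K) z ∈ V →
        ∃ c : k, V.valuation (algebraMap K (Kur k K) (z - algebraMap k K c)) < 1 := by
  have hck : CharZero k := charZero_of_injective_algebraMap (algebraMap F k).injective
  obtain ⟨ι, x, hx⟩ := exists_isTranscendenceBasis' (algebraicClosure F (kbar k K)) (kbar k K)
  have h := isotrivial_of_comp hK hM hMK hx
  have i1 : IsAlgClosed (algebraicClosure F (kbar k K)) := isAlgClosed_algF
  have i2 : CharZero (algebraicClosure F (kbar k K)) :=
    charZero_of_injective_algebraMap (algebraMap F (algebraicClosure F (kbar k K))).injective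
  refine section_fixes_place s h hstab hΛ ?_ (uniqueFixed (F := F) hF _ (isCover_Kur0 h) ?_)
  · obtain ⟨ρ, hρ, m, hm, hne⟩ := hnc
    refine ⟨ρ, fun c => hρ _ ?_, m, hm, hne⟩
    have h1 : IsAlgebraic F (c : kbar k K) := mem_algebraicClosure_iff.1 c.2
    have i3 : IsScalarTower F (kbar k K) (AlgebraicClosure K) :=
      IsScalarTower.of_algebraMap_eq fun _ => rfl
    exact h1.algHom (IsScalarTower.toAlgHom F (kbar k K) (AlgebraicClosure K))
  · exact nonrational_restrict h.le_Kur0 hrat

end Pool.Agent.SC
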