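import Pool.Agent.SC.T4

/-!
# Sections over a henselization: the decomposition group fixes a place
-/

universe u

set_option linter.unusedSectionVars false

namespace Pool.Agent.SC

open VC IntermediateField Module Pool.Agent.Helper91.Sect

section Local

variable {k K : Type u} [Field k] [CharZero k] [Field K] [Algebra k K]
  {E : Type u} [Field E] [IsAlgClosed E] [CharZero E] [Algebra E (kbar k K)]
  [Algebra E (AlgebraicClosure K)] [IsScalarTower E (kbar k K) (AlgebraicClosure K)]
  (s : GaloisSection k K)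
  {U : IntermediateField E (AlgebraicClosure K)} (hle : ∀ z ∈ U, z ∈ Kur k K)
  (hst : ∀ (γ : Gk k K) (w : Kur k K), (w : AlgebraicClosure K) ∈ U →
    (s.toHom γ w : AlgebraicClosure K) ∈ U)

/-- The group of the automorphisms of `U / E` given by inertia elements. -/
noncomputable def inertGroup {O : ValuationSubring k} (Q : IC O (kbar k K)) :
    Subgroup (U ≃ₐ[E] U) where
  carrier := {g | ∃ γ : Gk k K, InI Q γ ∧ ∀ z, g z = act s hle hst γ z}
  mul_mem' := by
    rintro g g' ⟨γ, h1, h2⟩ ⟨γ', h1', h2'⟩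
    refine ⟨γ * γ', h1.mul h1', fun z => ?_⟩
    rw [AlgEquiv.mul_apply, h2, h2', map_mul]
    rfl
  one_mem' := ⟨1, InI.one, fun z => by rw [map_one]; rfl⟩
  inv_mem' := by
    rintro g ⟨γ, h1, h2⟩
    refine ⟨γ⁻¹, h1.inv, fun z => ?_⟩
    have h3 : g (act s hle hst γ⁻¹ z) = z := by
      rw [h2]
      have h4 : act s hle hst γ * act s hle hst γ⁻¹ = 1 := by
        rw [← map_mul, mul_inv_cancel, map_one]
      exact congrArg (fun f : U ≃+* U => f z) h4
    conv_lhs => rw [← h3]
    rw [← AlgEquiv.mul_apply, inv_mul_cancel, AlgEquiv.one_apply]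

/-- There is a place of `U` fixed by all `s γ`, `γ` in the decomposition group. -/
theorem exists_stable_place_loc {M : IntermediateField E U} (hc : IsCover M)
    (hR : ∀ N : IntermediateField E U, IsFunctionField E N → Riemann E N ∧ PicDiv E N)
    {O : ValuationSubring k} (Q : IC O (kbar k K)) [Q.IsPrime]
    (hres : ∀ n : ℕ, n ≠ 0 → (locW Q).valuation (n : kbar k K) = 1) (hQ : FrobAt s E Q)
    (hE : ∀ (γ : Gk k K) (c : E), ∃ d : E,
      γ (algebraMap E (kbar k K) c) = algebraMap E (kbar k K) d)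
    (hIE : ∀ τ : Gk k K, InI Q τ →
      ∀ c : E, τ (algebraMap E (kbar k K) c) = algebraMap E (kbar k K) c)
    (hM : ∀ (γ : Gk k K), ∀ m ∈ M, act s hle hst γ m ∈ M)
    (hfin : ∀ m ∈ M, {y : U | ∃ γ : Gk k K, act s hle hst γ m = y}.Finite)
    (hne : ∃ τ : Gk k K, InI Q τ ∧ ∃ m ∈ M, act s hle hst τ m ≠ m)
    (huniq : UniqueFixed M) :
    ∃ W : ValuationSubring U, (∀ c : E, algebraMap E U c ∈ W) ∧ W ≠ ⊤ ∧
      ∀ γ : Gk k K, InD Q γ → ∀ z : U, act s hle hst γ z ∈ W ↔ z ∈ W := by
  classical
  let G := inertGroup s hle hst Q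
  have hGM : ∀ g ∈ G, ∀ x ∈ M, g x ∈ M := by
    rintro g ⟨γ, -, h2⟩ x hx
    rw [h2]
    exact hM γ x hx
  have hinj : ∀ g ∈ G, (∀ x ∈ M, g x = x) → g = 1 := by
    rintro g ⟨γ, hγ, h2⟩ hx
    apply AlgEquiv.ext
    intro z
    rw [h2, AlgEquiv.one_apply]
    exact act_inertia s hle hst hc hR Q hres hQ hγ (fun m hm => by rw [← h2, hx m hm]) z
  -- finiteness
  obtain ⟨S, hS⟩ := exists_finset_adjoin hc.ff
  have hGfin : Finite G := by
    let f : G → (S → U) := fun g m => g.1 (m : M)
    have hf : Function.Injective f := by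
      intro g g' hgg
      have h0 : ∀ x : M, g.1 (x : U) = g'.1 (x : U) := by
        let Eq : IntermediateField E M :=
          { carrier := {x | g.1 (x : U) = g'.1 (x : U)}
            mul_mem' := fun {x y} hx hy => by
              change g.1 ((x : U) * y) = g'.1 ((x : U) * y)
              rw [map_mul, map_mul, show g.1 (x : U) = g'.1 (x : U) from hx,
                show g.1 (y : U) = g'.1 (y : U) from hy]
            add_mem' := fun {x y} hx hy => by
              change g.1 ((x : U) + y) = g'.1 ((x : U) + y)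
              rw [map_add, map_add, show g.1 (x : U) = g'.1 (x : U) from hx,
                show g.1 (y : U) = g'.1 (y : U) from hy]
            algebraMap_mem' := fun c => by
              change g.1 (algebraMap E U c) = g'.1 (algebraMap E U c)
              rw [AlgEquiv.commutes, AlgEquiv.commutes]
            inv_mem' := fun x hx => by
              change g.1 ((x : U)⁻¹) = g'.1 ((x : U)⁻¹)
              rw [map_inv₀, map_inv₀, show g.1 (x : U) = g'.1 (x : U) from hx] }
        have hle' : IntermediateField.adjoin E (S : Set M) ≤ Eq := by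
          rw [IntermediateField.adjoin_le_iff]
          intro m hm
          exact congrFun hgg ⟨m, hm⟩
        intro x
        exact hle' (hS ▸ IntermediateField.mem_top)
      have h1 : ∀ x ∈ M, (g.1⁻¹ * g'.1) x = x := by
        intro x hx
        rw [AlgEquiv.mul_apply, ← h0 ⟨x, hx⟩, ← AlgEquiv.mul_apply, inv_mul_cancel,
          AlgEquiv.one_apply]
      have h2 := hinj _ (G.mul_mem (G.inv_mem g.2) g'.2) h1
      rw [inv_mul_eq_one] at h2
      exact Subtype.ext h2
    have hrange : (Set.range f).Finite := by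
      refine (Set.Finite.pi' (ι := S) fun m : S => hfin _ (m : M).2).subset ?_
      rintro _ ⟨g, rfl⟩ m
      obtain ⟨γ, -, h2⟩ := g.2
      exact ⟨γ, (h2 _).symm⟩
    have := hrange.to_subtype
    exact Finite.of_injective_finite_range hf
  have hGnt : Nontrivial G := by
    obtain ⟨γ, hγ, m, hm, hne⟩ := hne
    refine ⟨⟨⟨actE s hle hst (hIE γ hγ), γ, hγ, fun z => rfl⟩, 1, fun h => hne ?_⟩⟩
    have h1 := congrArg (fun g : G => g.1 m) h
    exact h1
  obtain ⟨W, ⟨hWE, hWt, hWG⟩, hWu⟩ := finite_group_fixed M hc (fun N hN => (hR N hN).2) G hGM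
    hinj (fun g hg hp => by
      refine huniq g hp (fun x => ⟨hGM g hg x, fun hx => ?_⟩) ?_
      · have := hGM g⁻¹ (G.inv_mem hg) _ hx
        rwa [← AlgEquiv.mul_apply, inv_mul_cancel, AlgEquiv.one_apply] at this
      · by_contra hcon
        push Not at hcon
        rw [hinj g hg hcon, orderOf_one] at hp
        exact Nat.not_prime_one hp)
  refine ⟨W, hWE, hWt, fun γ hγ z => ?_⟩
  -- the transported place
  let W' : ValuationSubring U := W.comap (act s hle hst γ : U →+* U)
  have hW' : ∀ z, z ∈ W' ↔ act s hle hst γ z ∈ W := fun z => Iff.rfl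
  have hW'E : ∀ c : E, algebraMap E U c ∈ W' := by
    intro c
    obtain ⟨d, hd⟩ := hE γ c
    rw [hW', act_const s hle hst hd]
    exact hWE d
  have hW't : W' ≠ ⊤ := by
    intro h1
    apply hWt
    rw [eq_top_iff]
    intro y _
    obtain ⟨x, rfl⟩ := (act s hle hst γ).surjective y
    have : x ∈ W' := by rw [h1]; trivial
    exact this
  have hW'g : ∀ g ∈ G, ∀ z, g z ∈ W' ↔ z ∈ W' := by
    rintro g ⟨σ, hσ, h2⟩ z
    rw [hW', hW', h2]
    have hσ' : InI Q (γ * σ * γ⁻¹) := hσ.conj hγ
    have h3 : act s hle hst γ (act s hle hst σ z) =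
        act s hle hst (γ * σ * γ⁻¹) (act s hle hst γ z) := by
      have h5 : γ * σ = (γ * σ * γ⁻¹) * γ := by group
      have h4 : act s hle hst γ * act s hle hst σ =
          act s hle hst (γ * σ * γ⁻¹) * act s hle hst γ := by
        rw [← map_mul, ← map_mul, ← h5]
      exact congrArg (fun f : U ≃+* U => f z) h4
    rw [h3]
    exact hWG (actE s hle hst (hIE _ hσ')) ⟨_, hσ', fun z => rfl⟩ _
  have h5 := hWu W' ⟨hW'E, hW't, hW'g⟩
  rw [← hW', h5]

end Local

section Extension

variable {k K : Type u} [Field k] [CharZero k] [Field K] [Algebra k K]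
  {E : Type u} [Field E] [IsAlgClosed E] [CharZero E] [Algebra E (kbar k K)]
  [Algebra E (AlgebraicClosure K)] [IsScalarTower E (kbar k K) (AlgebraicClosure K)]
  (s : GaloisSection k K)

/-- A place of `Kur0` extends to a place of `Kur` which is stable under every `s γ` stabilising the
given place. -/
theorem exists_stable_ext_of' {M1 : IntermediateField E (AlgebraicClosure K)} {ι : Type u}
    {x : ι → kbar k K} (h : Isotrivial k K M1 x) (hle : ∀ z ∈ Kur0 k M1, z ∈ Kur k K)
    (hst : ∀ (γ : Gk k K) (w : Kur k K), (w : AlgebraicClosure K) ∈ Kur0 k M1 →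
      (s.toHom γ w : AlgebraicClosure K) ∈ Kur0 k M1)
    {W : ValuationSubring (Kur0 k M1)} (hWE : ∀ c : E, algebraMap E (Kur0 k M1) c ∈ W)
    (hWt : W ≠ ⊤) :
    ∃ V : ValuationSubring (Kur k K), V ≠ ⊤ ∧ (∀ c : kbar k K, toKur k K c ∈ V) ∧
      (∀ u : Kur0 k M1, (⟨u, hle _ u.2⟩ : Kur k K) ∈ V ↔ u ∈ W) ∧
      ∀ γ : Gk k K, (∀ z : Kur0 k M1, act s hle hst γ z ∈ W ↔ z ∈ W) →
        ∀ w : Kur k K, s.toHom γ w ∈ V ↔ w ∈ V := by
  let jU : Kur0 k M1 →+* Kur k K :=
    { toFun := fun z => ⟨z, hle _ z.2⟩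
      map_one' := rfl
      map_mul' := fun _ _ => rfl
      map_zero' := rfl
      map_add' := fun _ _ => rfl }
  let iA : Algebra (kbar k K) (Kur k K) := (toKur k K).toAlgebra
  let iU : Algebra (Kur0 k M1) (Kur k K) := jU.toAlgebra
  let iE : Algebra E (Kur k K) := ((toKur k K).comp (algebraMap E (kbar k K))).toAlgebra
  have t1 : IsScalarTower E (kbar k K) (Kur k K) := IsScalarTower.of_algebraMap_eq fun c => rfl
  have t2 : IsScalarTower E (Kur0 k M1) (Kur k K) := IsScalarTower.of_algebraMap_eq fun c => by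
    apply Subtype.ext
    exact (IsScalarTower.algebraMap_apply E (kbar k K) (AlgebraicClosure K) c).symm
  have t3 : IsScalarTower (Kur0 k M1) (Kur k K) (AlgebraicClosure K) :=
    IsScalarTower.of_algebraMap_eq fun c => rfl
  have hx : AlgebraicIndependent (Kur0 k M1) (fun i => algebraMap (kbar k K) (Kur k K) (x i)) := by
    have h1 := algebraicIndependent_Kur0 h
    let f : Kur k K →ₐ[Kur0 k M1] AlgebraicClosure K := IsScalarTower.toAlgHom _ _ _
    exact (AlgHom.algebraicIndependent_iff f (Subtype.val_injective)).1 h1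
  obtain ⟨V, hVA, hVW⟩ := exists_ext_val (E := E) (A := kbar k K) (U := Kur0 k M1) (L := Kur k K) x
    hx h.alg W hWE
  have hVt : V ≠ ⊤ := by
    rintro h1
    apply hWt
    rw [eq_top_iff]
    intro z _
    rw [← hVW, h1]
    trivial
  have hL : IntermediateField.adjoin (kbar k K) (Set.range (algebraMap (Kur0 k M1) (Kur k K))) =
      ⊤ := by
    rw [eq_top_iff]
    intro w _
    have h1 := mem_adjoin_of_mem_Kur h w.2
    let t : Kur k K →ₐ[kbar k K] AlgebraicClosure K :=
      { (algebraMap (Kur k K) (AlgebraicClosure K)) with commutes' := fun c => rfl }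
    have h2 : (IntermediateField.adjoin (kbar k K)
        (Set.range (algebraMap (Kur0 k M1) (Kur k K)))).map t =
        IntermediateField.adjoin (kbar k K) (Kur0 k M1 : Set (AlgebraicClosure K)) := by
      rw [IntermediateField.adjoin_map]
      congr 1
      ext z
      constructor
      · rintro ⟨_, ⟨y, rfl⟩, rfl⟩
        exact y.2
      · intro hz
        exact ⟨_, ⟨⟨z, hz⟩, rfl⟩, rfl⟩
    rw [← h2] at h1
    obtain ⟨y, hy, hyw⟩ := h1
    have h3 : y = w := Subtype.ext hyw
    rw [← h3]
    exact hy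
  have hres : ∀ u : Kur0 k M1, algebraMap (Kur0 k M1) (Kur k K) u ∈ V →
      ∃ c : E, V.valuation (algebraMap (Kur0 k M1) (Kur k K)
        (u - algebraMap E (Kur0 k M1) c)) < 1 := by
    intro u hu
    obtain ⟨c, hc⟩ := exists_res_cover (isCover_Kur0 h) W hWE hWt ((hVW u).1 hu)
    refine ⟨c, ?_⟩
    rw [val_lt_one_iff_or] at hc ⊢
    rcases hc with hc | hc
    · left
      rw [hc, map_zero]
    · right
      rw [← map_inv₀, hVW]
      exact hc
  refine ⟨V, hVt, hVA, hVW, fun γ hWs w => ?_⟩
  let V' : ValuationSubring (Kur k K) := V.comap ((s.toHom γ : Kur k K →ₐ[K] Kur k K) : Kur k K →+* Kur k K)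
  have hV' : ∀ z, z ∈ V' ↔ s.toHom γ z ∈ V := fun z => Iff.rfl
  have h1 : V = V' := by
    refine ext_unique (E := E) (A := kbar k K) (U := Kur0 k M1) hL hVA (fun a => ?_) hres
      (fun u => ?_)
    · rw [hV']
      change s.toHom γ (toKur k K a) ∈ V
      rw [section_toKur]
      exact hVA _
    · rw [hV', hVW]
      have h2 : s.toHom γ (algebraMap (Kur0 k M1) (Kur k K) u) =
          algebraMap (Kur0 k M1) (Kur k K) (act s hle hst γ u) := rfl
      rw [h2, hVW, hWs]
  rw [← hV', ← h1]

/-- The residue fields of the extensions of places of `Kur0` to `Kur` are, on `K`, fixed by the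
automorphisms of `K` which are the identity on `M1`. -/
theorem residue_mem_fixedConst {M1 : IntermediateField E (AlgebraicClosure K)} {ι : Type u}
    {x : ι → kbar k K} (h : Isotrivial k K M1 x) (hle : ∀ z ∈ Kur0 k M1, z ∈ Kur k K)
    {W : ValuationSubring (Kur0 k M1)} (hWE : ∀ c : E, algebraMap E (Kur0 k M1) c ∈ W)
    (hWt : W ≠ ⊤) {V : ValuationSubring (Kur k K)} (hVA : ∀ c : kbar k K, toKur k K c ∈ V)
    (hVW : ∀ u : Kur0 k M1, (⟨u, hle _ u.2⟩ : Kur k K) ∈ V ↔ u ∈ W)
    {z : K} {c : kbar k K} (hc : V.valuation (algebraMap K (Kur k K) z - toKur k K c) < 1) :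
    c ∈ fixedConst k (M1 : Set (AlgebraicClosure K)) := by
  intro ρ hρ
  -- the field `KK`
  let iM := algM1KK h
  let jL : KK k K →+* Kur k K :=
    { toFun := fun z => ⟨z, KK_le_Kur z.2⟩
      map_one' := rfl
      map_mul' := fun _ _ => rfl
      map_zero' := rfl
      map_add' := fun _ _ => rfl }
  have hρk : ∀ a : kbar k K, (resGk ρ a : AlgebraicClosure K) = ρ a := fun a => resGk_apply ρ a
  have hρKK : ∀ w ∈ KK k K, ρ w ∈ KK k K := by
    intro w hw
    let T : IntermediateField (kbar k K) (AlgebraicClosure K) :=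
      { carrier := {y | ρ y ∈ KK k K}
        mul_mem' := fun {a b} ha hb => by
          change ρ (a * b) ∈ KK k K
          rw [map_mul]; exact mul_mem ha hb
        add_mem' := fun {a b} ha hb => by
          change ρ (a + b) ∈ KK k K
          rw [map_add]; exact add_mem ha hb
        algebraMap_mem' := fun a => by
          change ρ (a : AlgebraicClosure K) ∈ KK k K
          rw [← hρk]
          exact (KK k K).algebraMap_mem _
        inv_mem' := fun a ha => by
          change ρ a⁻¹ ∈ KK k K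
          rw [map_inv₀]; exact inv_mem ha }
    have h1 : KK k K ≤ T := by
      refine IntermediateField.adjoin_le_iff.2 ?_
      rintro _ ⟨a, rfl⟩
      change ρ _ ∈ KK k K
      rw [AlgEquiv.commutes]
      exact IntermediateField.subset_adjoin _ _ ⟨a, rfl⟩
    exact h1 hw
  let ρL : KK k K →+* KK k K :=
    { toFun := fun w => ⟨ρ w, hρKK _ w.2⟩
      map_one' := Subtype.ext (map_one ρ)
      map_mul' := fun a b => Subtype.ext (map_mul ρ _ _)
      map_zero' := Subtype.ext (map_zero ρ)
      map_add' := fun a b => Subtype.ext (map_add ρ _ _) }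
  let V1 : ValuationSubring (KK k K) := V.comap jL
  let V2 : ValuationSubring (KK k K) := V1.comap ρL
  have hV1 : ∀ w, w ∈ V1 ↔ jL w ∈ V := fun w => Iff.rfl
  have hV2 : ∀ w, w ∈ V2 ↔ jL (ρL w) ∈ V := fun w => Iff.rfl
  have tE : IsScalarTower E M1 (KK k K) := (isConstExt_KK h).choose
  have hVM : ∀ u : M1, algebraMap M1 (KK k K) u ∈ V1 ↔ (⟨u, h.le_Kur0 u.2⟩ : Kur0 k M1) ∈ W :=
    fun u => hVW ⟨u, h.le_Kur0 u.2⟩
  have hLtop : IntermediateField.adjoin (kbar k K) (Set.range (algebraMap M1 (KK k K))) = ⊤ := by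
    rw [eq_top_iff]
    intro w _
    have h1 : (w : AlgebraicClosure K) ∈
        IntermediateField.adjoin (kbar k K) (M1 : Set (AlgebraicClosure K)) := by
      rw [h.comp]; exact w.2
    have h2 : (IntermediateField.adjoin (kbar k K)
        (Set.range (algebraMap M1 (KK k K)))).map (KK k K).val =
        IntermediateField.adjoin (kbar k K) (M1 : Set (AlgebraicClosure K)) := by
      rw [IntermediateField.adjoin_map]
      congr 1
      ext y
      constructor
      · rintro ⟨_, ⟨y, rfl⟩, rfl⟩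
        exact y.2
      · intro hy
        exact ⟨_, ⟨⟨y, hy⟩, rfl⟩, rfl⟩
    rw [← h2] at h1
    obtain ⟨y, hy, hyw⟩ := h1
    have h3 : y = w := Subtype.ext hyw
    rw [← h3]
    exact hy
  have key : V1 = V2 := by
    refine ext_unique (E := E) (A := kbar k K) (U := M1) (L := KK k K) hLtop
      (fun a => hVA a) (fun a => ?_) (fun u hu => ?_) (fun u => ?_)
    · rw [hV2]
      have h1 : jL (ρL (algebraMap (kbar k K) (KK k K) a)) = toKur k K (resGk ρ a) := by
        apply Subtype.ext
        exact (hρk a).symm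
      rw [h1]
      exact hVA _
    · obtain ⟨d, hd⟩ := exists_res_cover (isCover_Kur0 h) W hWE hWt ((hVM u).1 hu)
      refine ⟨d, ?_⟩
      rw [val_lt_one_iff_or] at hd ⊢
      have h5 : (⟨((u - algebraMap E M1 d : M1) : AlgebraicClosure K),
          h.le_Kur0 (u - algebraMap E M1 d).2⟩ : Kur0 k M1) =
          ⟨u, h.le_Kur0 u.2⟩ - algebraMap E (Kur0 k M1) d := rfl
      rcases hd with hd | hd
      · left
        rw [← h5] at hd
        have h6 : (u - algebraMap E M1 d : M1) = 0 := by
          apply Subtype.ext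
          exact congrArg (fun y : Kur0 k M1 => (y : AlgebraicClosure K)) hd
        rw [h6, map_zero]
      · right
        rw [← map_inv₀, hVM]
        rw [← h5] at hd
        exact hd
    · rw [hV1, hV2]
      have h1 : jL (ρL (algebraMap M1 (KK k K) u)) = jL (algebraMap M1 (KK k K) u) := by
        apply Subtype.ext
        exact hρ u u.2
      rw [h1]
  -- conclusion
  have hzL : algebraMap K (AlgebraicClosure K) z ∈ KK k K :=
    IntermediateField.subset_adjoin _ _ ⟨z, rfl⟩
  let zL : KK k K := ⟨algebraMap K (AlgebraicClosure K) z, hzL⟩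
  by_contra hne
  have hne' : resGk ρ c ≠ c := by
    intro h1
    apply hne
    rw [← hρk, h1]
  have h1 : V.valuation (algebraMap K (Kur k K) z - toKur k K (resGk ρ c)) < 1 := by
    have h2 : jL (ρL (zL - algebraMap (kbar k K) (KK k K) c)) =
        algebraMap K (Kur k K) z - toKur k K (resGk ρ c) := by
      apply Subtype.ext
      change ρ (algebraMap K (AlgebraicClosure K) z - (c : AlgebraicClosure K)) =
        algebraMap K (AlgebraicClosure K) z - (resGk ρ c : AlgebraicClosure K)
      rw [map_sub, AlgEquiv.commutes, hρk]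
    have h3 : jL (zL - algebraMap (kbar k K) (KK k K) c) =
        algebraMap K (Kur k K) z - toKur k K c := rfl
    rw [← h2]
    rw [← h3] at hc
    rw [val_lt_one_iff_or] at hc ⊢
    rcases hc with h4 | h4
    · left
      have h5 : zL - algebraMap (kbar k K) (KK k K) c = 0 := by
        apply Subtype.ext
        exact congrArg (fun y : Kur k K => (y : AlgebraicClosure K)) h4
      rw [h5, map_zero, map_zero]
    · right
      rw [← map_inv₀, ← map_inv₀, ← hV2, ← key, hV1, map_inv₀]
      exact h4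
  have h4 : V.valuation (toKur k K (resGk ρ c - c)) < 1 := by
    have h5 : toKur k K (resGk ρ c - c) = (algebraMap K (Kur k K) z - toKur k K c) -
        (algebraMap K (Kur k K) z - toKur k K (resGk ρ c)) := by
      rw [map_sub]; ring
    rw [h5]
    exact V.valuation.map_sub_lt hc h1
  rw [val_lt_one_iff_or] at h4
  rcases h4 with h4 | h4
  · rw [map_eq_zero] at h4
    exact hne' (sub_eq_zero.1 h4)
  · apply h4
    rw [← map_inv₀]
    exact hVA _

/-- **Sections of twisted constant curves are geometric over the decomposition field of a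
ramified place**, abstract form. -/
theorem local_section_abs {M1 : IntermediateField E (AlgebraicClosure K)} {ι : Type u}
    {x : ι → kbar k K} (h : Isotrivial k K M1 x)
    (hstab : ∀ ρ : AlgebraicClosure K ≃ₐ[K] AlgebraicClosure K, ∀ m ∈ M1, ρ m ∈ M1)
    {O : ValuationSubring k} (Q : IC O (kbar k K)) [Q.IsPrime]
    (hres : ∀ n : ℕ, n ≠ 0 → (locW Q).valuation (n : kbar k K) = 1) (hQ : FrobAt s E Q)
    (hE : ∀ (γ : Gk k K) (c : E), ∃ d : E,
      γ (algebraMap E (kbar k K) c) = algebraMap E (kbar k K) d)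
    (hIE : ∀ τ : Gk k K, InI Q τ →
      ∀ c : E, τ (algebraMap E (kbar k K) c) = algebraMap E (kbar k K) c)
    (hram : ∃ (τ : Gk k K) (ρ : AlgebraicClosure K ≃ₐ[K] AlgebraicClosure K), InI Q τ ∧
      (∀ z : kbar k K, (τ z : AlgebraicClosure K) = ρ z) ∧ ∃ m ∈ M1, ρ m ≠ m)
    (huniq : UniqueFixed (IntermediateField.restrict h.le_Kur0)) :
    ∃ V : ValuationSubring (Kur k K), V ≠ ⊤ ∧ (∀ c : kbar k K, toKur k K c ∈ V) ∧
      (∀ γ : Gk k K, InD Q γ → ∀ w : Kur k K, s.toHom γ w ∈ V ↔ w ∈ V) ∧
      ∀ z : K, algebraMap K (Kur k K) z ∈ V → ∃ c : kbar k K,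
        V.valuation (algebraMap K (Kur k K) z - toKur k K c) < 1 ∧
        (∀ γ : Gk k K, InD Q γ → γ c = c) ∧ c ∈ fixedConst k (M1 : Set (AlgebraicClosure K)) := by
  have hle : ∀ z ∈ Kur0 k M1, z ∈ Kur k K := fun z hz => hz.1
  have hst := section_mem_Kur0 (k := k) s hstab
  have hKK : ∀ m ∈ M1, m ∈ KK k K := fun m hm => by
    rw [← h.comp]
    exact IntermediateField.subset_adjoin _ _ hm
  have hact : ∀ (γ : Gk k K) (ρ : AlgebraicClosure K ≃ₐ[K] AlgebraicClosure K),
      (∀ z : kbar k K, (γ z : AlgebraicClosure K) = ρ z) → ∀ m : Kur0 k M1,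
      (m : AlgebraicClosure K) ∈ M1 →
      (act s hle hst γ m : AlgebraicClosure K) = ρ m := by
    intro γ ρ hγρ m hm
    exact section_eq_of_KK s hγρ (hKK _ hm)
  have hmem : ∀ m : Kur0 k M1, m ∈ IntermediateField.restrict h.le_Kur0 ↔
      (m : AlgebraicClosure K) ∈ M1 := fun m => IntermediateField.mem_restrict h.le_Kur0 m
  have hR : ∀ N : IntermediateField E (Kur0 k M1), IsFunctionField E N →
      Riemann E N ∧ PicDiv E N := fun N hN => ⟨FF.riemann hN, FF.picDiv hN⟩
  obtain ⟨W, hWE, hWt, hWs⟩ := exists_stable_place_loc s hle hst (isCover_Kur0 h) hR Q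
    hres hQ hE hIE (by
      intro γ m hm
      obtain ⟨ρ, hρ⟩ := exists_ext s γ
      rw [hmem] at hm ⊢
      rw [hact γ ρ (fun z => (ext_const s hρ z).symm) m hm]
      exact hstab ρ _ hm) (by
      intro m hm
      have halg : IsAlgebraic K (m : AlgebraicClosure K) := Algebra.IsAlgebraic.isAlgebraic _
      have hp0 := minpoly.ne_zero halg.isIntegral
      have hfin : ((minpoly K (m : AlgebraicClosure K)).rootSet (AlgebraicClosure K)).Finite :=
        Polynomial.rootSet_finite _ _
      refine (hfin.preimage (f := fun y : Kur0 k M1 => (y : AlgebraicClosure K))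
        (Subtype.val_injective.injOn)).subset ?_
      rintro y ⟨γ, rfl⟩
      obtain ⟨ρ, hρ⟩ := exists_ext s γ
      rw [Set.mem_preimage, coe_act, ← hρ, Polynomial.mem_rootSet]
      refine ⟨hp0, ?_⟩
      have h1 := Polynomial.aeval_algHom_apply (ρ : AlgebraicClosure K →ₐ[K] AlgebraicClosure K)
        (m : AlgebraicClosure K) (minpoly K (m : AlgebraicClosure K))
      rw [minpoly.aeval, map_zero] at h1
      exact h1) (by
      obtain ⟨τ, ρ, hτ, hρ, m, hm, hne⟩ := hram
      refine ⟨τ, hτ, ⟨m, h.le_Kur0 hm⟩, (hmem _).2 hm, fun h1 => hne ?_⟩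
      have h2 := hact τ ρ hρ ⟨m, h.le_Kur0 hm⟩ hm
      rw [h1] at h2
      exact h2.symm) huniq
  obtain ⟨V, hVt, hVA, hVW, hVs⟩ := exists_stable_ext_of' s h hle hst hWE hWt
  refine ⟨V, hVt, hVA, fun γ hγ => hVs γ (hWs γ hγ), fun z hz => ?_⟩
  obtain ⟨c, hc, hcs⟩ := exists_residue_fixed s h.ffK hVt hVA hz
  exact ⟨c, hc, fun γ hγ => hcs γ (hVs γ (hWs γ hγ)),
    residue_mem_fixedConst h hle hWE hWt hVA hVW hc⟩

end Extension

end Pool.Agent.SC
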