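import Mathlib
import Pool.Agent.SC.Loc
import Pool.Agent.SC.Final

/-!
# The local section conjecture for twists of constant curves
-/

universe u

namespace Pool.Agent.SC

open VC IntermediateField Module Pool.Agent.Helper91.Sect

/-- **Sections of twisted constant curves are geometric over the decomposition field of a
ramified place.** -/
theorem local_section {F k K : Type u} [Field F] [CharZero F] [Field k] [Field K]
    [Algebra F k] [Algebra k K] [Algebra F K] [IsScalarTower F k K]
    (hF : ∃ S : Finset F, Subfield.closure (S : Set F) = ⊤) (hK : IsFunctionField k K)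
    (M : IntermediateField (algebraicClosure F (kbar k K)) (AlgebraicClosure K))
    (hM : IsFunctionField (algebraicClosure F (kbar k K)) M)
    (hMK : IntermediateField.adjoin (kbar k K) (M : Set (AlgebraicClosure K)) = KK k K)
    (hstab : ∀ ρ : AlgebraicClosure K ≃ₐ[K] AlgebraicClosure K, ∀ m ∈ M, ρ m ∈ M)
    (hrat : ∀ y : M, IntermediateField.adjoin (algebraicClosure F (kbar k K)) {y} ≠ ⊤)
    (O : ValuationSubring k) (hFO : ∀ c : F, algebraMap F k c ∈ O)
    (hO : ∃ S : Finset (IsLocalRing.ResidueField O),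
      Subfield.closure (S : Set (IsLocalRing.ResidueField O)) = ⊤)
    (Q : IC O (kbar k K)) (hQ : Q.IsPrime) (hA : Above Q)
    (hram : ∃ (τ : Gk k K) (ρ : AlgebraicClosure K ≃ₐ[K] AlgebraicClosure K), InI Q τ ∧
      (∀ z : kbar k K, (τ z : AlgebraicClosure K) = ρ z) ∧ ∃ m ∈ M, ρ m ≠ m)
    (s : GaloisSection k K) :
    ∃ V : ValuationSubring (Kur k K), V ≠ ⊤ ∧ (∀ c : kbar k K, toKur k K c ∈ V) ∧
      (∀ γ : Gk k K, InD Q γ → ∀ w : Kur k K, s.toHom γ w ∈ V ↔ w ∈ V) ∧
      ∀ z : K, algebraMap K (Kur k K) z ∈ V → ∃ c : kbar k K,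
        V.valuation (algebraMap K (Kur k K) z - toKur k K c) < 1 ∧
        (∀ γ : Gk k K, InD Q γ → γ c = c) ∧ c ∈ fixedConst k (M : Set (AlgebraicClosure K)) := by
  have hck : CharZero k := charZero_of_injective_algebraMap (algebraMap F k).injective
  obtain ⟨ι, x, hx⟩ := exists_isTranscendenceBasis' (algebraicClosure F (kbar k K)) (kbar k K)
  have h := isotrivial_of_comp hK hM hMK hx
  have i1 : IsAlgClosed (algebraicClosure F (kbar k K)) := isAlgClosed_algF
  have i2 : CharZero (algebraicClosure F (kbar k K)) :=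
    charZero_of_injective_algebraMap (algebraMap F (algebraicClosure F (kbar k K))).injective
  have huniq := uniqueFixed (F := F) hF _ (isCover_Kur0 h) (nonrational_restrict h.le_Kur0 hrat)
  refine local_section_abs s h hstab Q (residue_unit hFO Q) (frobAt_of_fg s hFO hO Q hA) ?_ ?_ hram
    huniq
  · intro γ c
    have h1 : IsAlgebraic F (c : kbar k K) := mem_algebraicClosure_iff.1 c.2
    have h2 : IsAlgebraic F (γ (c : kbar k K)) :=
      h1.algHom ((γ : kbar k K →ₐ[k] kbar k K).restrictScalars F)
    exact ⟨⟨γ c, mem_algebraicClosure_iff.2 h2⟩, rfl⟩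
  · intro τ hτ c
    have h1 : IsAlgebraic F (c : kbar k K) := mem_algebraicClosure_iff.1 c.2
    have h2 : IsAlgebraic F (τ (c : kbar k K)) :=
      h1.algHom ((τ : kbar k K →ₐ[k] kbar k K).restrictScalars F)
    have h3 : IsIntegral O (c : kbar k K) := integral_of_algF hFO h1
    exact eq_of_cong_algF hFO Q h2 h1 (val_inertia Q hτ (coeB_le Q ⟨(c : kbar k K), h3⟩))

end Pool.Agent.SC
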