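import Pool.Agent.SC.Loc
import Pool.Agent.SC.G6

/-!
# The final theorem with a weaker condition on the splitting field

`Λ` need not be simply connected: it is enough that every extension of `Λ` in `kbar` which is
unramified and in which the places of `k` ramified in `Λ` split completely is trivial.
-/

universe u

set_option linter.unusedSectionVars false

namespace Pool.Agent.SC

open VC IntermediateField Module Pool.Agent.Helper91.Sect

section Fix

variable {k K : Type u} [Field k] [CharZero k] [Field K] [Algebra k K]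
  {E : Type u} [Field E] [Algebra E (kbar k K)]
  [Algebra E (AlgebraicClosure K)] [IsScalarTower E (kbar k K) (AlgebraicClosure K)]
  (s : GaloisSection k K)

/-- An element of `kbar` fixed by the elements of the inertia groups which are the identity on
`Λ`, and by the elements of the decomposition groups of the places ramified in `Λ` which are the
identity on `Λ`, lies in `Λ`; here we consider the primes `Q` with Frobenius elements. -/
def GenByFrob' (E : Type u) [Field E] [Algebra E (kbar k K)] (Λ : Set (kbar k K)) : Prop :=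
  ∀ z : kbar k K,
    (∀ (O : ValuationSubring k) (Q : IC O (kbar k K)) (_ : Q.IsPrime),
      (∀ n : ℕ, n ≠ 0 → (locW Q).valuation (n : kbar k K) = 1) → FrobAt s E Q →
      (∀ τ : Gk k K, InI Q τ →
        ∀ c : E, τ (algebraMap E (kbar k K) c) = algebraMap E (kbar k K) c) →
      ∀ τ : Gk k K, (InI Q τ ∨ InD Q τ ∧ ∃ σ : Gk k K, InI Q σ ∧ ∃ x ∈ Λ, σ x ≠ x) →
        (∀ x ∈ Λ, τ x = x) → τ z = z) → z ∈ Λ

end Fix

section Act

variable {k K : Type u} [Field k] [CharZero k] [Field K] [Algebra k K]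
  {E : Type u} [Field E] [IsAlgClosed E] [CharZero E] [Algebra E (kbar k K)]
  [Algebra E (AlgebraicClosure K)] [IsScalarTower E (kbar k K) (AlgebraicClosure K)]
  (s : GaloisSection k K)
  {U : IntermediateField E (AlgebraicClosure K)} (hle : ∀ z ∈ U, z ∈ Kur k K)
  (hst : ∀ (γ : Gk k K) (w : Kur k K), (w : AlgebraicClosure K) ∈ U →
    (s.toHom γ w : AlgebraicClosure K) ∈ U)

/-- The elements of the decomposition group of a ramified place which act trivially on `M` act
trivially on `U`. -/
theorem act_decomp {M : IntermediateField E U} (hc : IsCover M)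
    (hR : ∀ N : IntermediateField E U, IsFunctionField E N → Riemann E N ∧ PicDiv E N)
    {O : ValuationSubring k} (Q : IC O (kbar k K)) [Q.IsPrime]
    (hres : ∀ n : ℕ, n ≠ 0 → (locW Q).valuation (n : kbar k K) = 1) (hQ : FrobAt s E Q)
    (hE : ∀ (γ : Gk k K) (c : E), ∃ d : E,
      γ (algebraMap E (kbar k K) c) = algebraMap E (kbar k K) d)
    (hIE : ∀ τ : Gk k K, InI Q τ →
      ∀ c : E, τ (algebraMap E (kbar k K) c) = algebraMap E (kbar k K) c)
    (hM : ∀ (γ : Gk k K), ∀ m ∈ M, act s hle hst γ m ∈ M)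
    (hfin : ∀ m ∈ M, {y : U | ∃ γ : Gk k K, act s hle hst γ m = y}.Finite)
    (hne : ∃ τ : Gk k K, InI Q τ ∧ ∃ m ∈ M, act s hle hst τ m ≠ m)
    (huniq : UniqueFixed M) {τ : Gk k K} (hτ : InD Q τ)
    (hfix : ∀ m ∈ M, act s hle hst τ m = m) (z : U) : act s hle hst τ z = z := by
  obtain ⟨W, hWE, hWt, hWs⟩ :=
    exists_stable_place_loc s hle hst hc hR Q hres hQ hE hIE hM hfin hne huniq
  let σ : U ≃ₐ[M] U := AlgEquiv.ofRingEquiv (f := act s hle hst τ) (fun m => hfix m m.2)
  have h1 : σ = 1 := eq_one_of_fix M hc σ hWE hWt (fun z => hWs τ hτ z)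
  have h2 : σ z = z := by rw [h1]; rfl
  exact h2

/-- The elements of `Gal(kbar / Λ)` act trivially on `U`. -/
theorem act_of_fix' {M : IntermediateField E U} (hc : IsCover M)
    (hR : ∀ N : IntermediateField E U, IsFunctionField E N → Riemann E N ∧ PicDiv E N)
    {Λ : Set (kbar k K)} (hΛ : GenByFrob' s E Λ)
    (hfix : ∀ γ : Gk k K, (∀ x ∈ Λ, γ x = x) → ∀ m ∈ M, act s hle hst γ m = m)
    (hfix' : ∀ γ : Gk k K, (∀ m ∈ M, act s hle hst γ m = m) → ∀ x ∈ Λ, γ x = x)
    (hE : ∀ (γ : Gk k K) (c : E), ∃ d : E,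
      γ (algebraMap E (kbar k K) c) = algebraMap E (kbar k K) d)
    (hM : ∀ (γ : Gk k K), ∀ m ∈ M, act s hle hst γ m ∈ M)
    (hfin : ∀ m ∈ M, {y : U | ∃ γ : Gk k K, act s hle hst γ m = y}.Finite)
    (huniq : UniqueFixed M)
    {γ : Gk k K} (hγ : ∀ x ∈ Λ, γ x = x) (z : U) : act s hle hst γ z = z := by
  let w : Kur k K := ⟨z, hle _ z.2⟩
  let H : ClosedSubgroup (Gk k K) :=
    { carrier := {γ | s.toHom γ w = w ∧ ∀ x ∈ Λ, γ x = x}
      mul_mem' := fun {a b} ha hb => ⟨by rw [map_mul, AlgEquiv.mul_apply, hb.1, ha.1],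
        fun x hx => by rw [AlgEquiv.mul_apply, hb.2 x hx, ha.2 x hx]⟩
      one_mem' := ⟨by rw [map_one]; rfl, fun x _ => rfl⟩
      inv_mem' := fun {a} ha => ⟨by
        have h1 := congrArg (s.toHom a⁻¹) ha.1
        rw [← AlgEquiv.mul_apply, ← map_mul, inv_mul_cancel, map_one] at h1
        exact h1.symm, fun x hx => by
        have h1 := congrArg (a⁻¹ : Gk k K) (ha.2 x hx)
        rw [← AlgEquiv.mul_apply, inv_mul_cancel] at h1
        exact h1.symm⟩
      isClosed' := by
        have h1 : {γ : Gk k K | s.toHom γ w = w ∧ ∀ x ∈ Λ, γ x = x} =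
            {γ : Gk k K | s.toHom γ w = w} ∩ ⋂ x ∈ Λ, {γ : Gk k K | γ x = x} := by
          ext γ
          simp
        change IsClosed {γ : Gk k K | s.toHom γ w = w ∧ ∀ x ∈ Λ, γ x = x}
        rw [h1]
        exact (isClosed_fix_section s w).inter
          (isClosed_biInter fun x _ => isClosed_fix x) }
  have hH := InfiniteGalois.fixingSubgroup_fixedField H
  have h1 : γ ∈ (IntermediateField.fixedField H.toSubgroup).fixingSubgroup := by
    rw [IntermediateField.mem_fixingSubgroup_iff]
    intro y hy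
    refine hγ y (hΛ y fun O Q hQ hres hF hIE τ hτ hτΛ => ?_)
    refine hy ⟨τ, ?_⟩
    refine ⟨?_, hτΛ⟩
    have h2 : act s hle hst τ z = z := by
      rcases hτ with hτ | ⟨hτ, σ, hσ, x, hx, hσx⟩
      · exact act_inertia s hle hst hc hR Q hres hF hτ (hfix τ hτΛ) z
      · refine act_decomp s hle hst hc hR Q hres hF hE hIE hM hfin ⟨σ, hσ, ?_⟩ huniq hτ
          (hfix τ hτΛ) z
        by_contra hcon
        push Not at hcon
        exact hσx (hfix' σ hcon x hx)
    have h3 := congrArg (fun y : U => (y : AlgebraicClosure K)) h2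
    exact Subtype.ext h3
  rw [hH] at h1
  have h3 := congrArg (fun y : Kur k K => (y : AlgebraicClosure K)) h1.1
  exact Subtype.ext h3

/-- There is a place of `U` fixed by all `s γ`. -/
theorem exists_stable_place' {M : IntermediateField E U} (hc : IsCover M)
    (hR : ∀ N : IntermediateField E U, IsFunctionField E N → Riemann E N ∧ PicDiv E N)
    {Λ : Set (kbar k K)} (hΛ : GenByFrob' s E Λ)
    (hfix : ∀ γ : Gk k K, (∀ x ∈ Λ, γ x = x) → ∀ m ∈ M, act s hle hst γ m = m)
    (hfix' : ∀ γ : Gk k K, (∀ m ∈ M, act s hle hst γ m = m) → ∀ x ∈ Λ, γ x = x)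
    (hE : ∀ (γ : Gk k K) (c : E), ∃ d : E,
      γ (algebraMap E (kbar k K) c) = algebraMap E (kbar k K) d)
    (hM : ∀ (γ : Gk k K), ∀ m ∈ M, act s hle hst γ m ∈ M)
    (hfin : ∀ m ∈ M, {y : U | ∃ γ : Gk k K, act s hle hst γ m = y}.Finite)
    (hne : ∃ γ : Gk k K, (∀ c : E, γ (algebraMap E (kbar k K) c) = algebraMap E (kbar k K) c) ∧
      ∃ m ∈ M, act s hle hst γ m ≠ m)
    (huniq : UniqueFixed M) :
    ∃ W : ValuationSubring U, (∀ c : E, algebraMap E U c ∈ W) ∧ W ≠ ⊤ ∧
      ∀ (γ : Gk k K) (z : U), act s hle hst γ z ∈ W ↔ z ∈ W := by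
  classical
  have htriv := fun (γ : Gk k K) (hγ : ∀ x ∈ Λ, γ x = x) (z : U) =>
    act_of_fix' s hle hst hc hR hΛ hfix hfix' hE hM hfin huniq hγ z
  let G := geomGroup s hle hst
  have hGM : ∀ g ∈ G, ∀ x ∈ M, g x ∈ M := by
    rintro g ⟨γ, -, h2⟩ x hx
    rw [h2]
    exact hM γ x hx
  have hinj : ∀ g ∈ G, (∀ x ∈ M, g x = x) → g = 1 := by
    rintro g ⟨γ, -, h2⟩ hx
    apply AlgEquiv.ext
    intro z
    rw [h2, AlgEquiv.one_apply]
    exact htriv γ (hfix' γ fun m hm => by rw [← h2, hx m hm]) z
  -- finiteness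
  obtain ⟨S, hS⟩ := exists_finset_adjoin hc.ff
  have hGfin : Finite G := by
    let f : G → (S → U) := fun g m => g.1 (m : M)
    have hf : Function.Injective f := by
      intro g g' hgg
      have h0 : ∀ x : M, g.1 (x : U) = g'.1 (x : U) := by
        let Eq : IntermediateField E M :=
          { carrier := {x | g.1 (x : U) = g'.1 (x : U)}
            mul_mem' := fun {x y} hx hy => by
              change g.1 ((x : U) * y) = g'.1 ((x : U) * y)
              rw [map_mul, map_mul, show g.1 (x : U) = g'.1 (x : U) from hx,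
                show g.1 (y : U) = g'.1 (y : U) from hy]
            add_mem' := fun {x y} hx hy => by
              change g.1 ((x : U) + y) = g'.1 ((x : U) + y)
              rw [map_add, map_add, show g.1 (x : U) = g'.1 (x : U) from hx,
                show g.1 (y : U) = g'.1 (y : U) from hy]
            algebraMap_mem' := fun c => by
              change g.1 (algebraMap E U c) = g'.1 (algebraMap E U c)
              rw [AlgEquiv.commutes, AlgEquiv.commutes]
            inv_mem' := fun x hx => by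
              change g.1 ((x : U)⁻¹) = g'.1 ((x : U)⁻¹)
              rw [map_inv₀, map_inv₀, show g.1 (x : U) = g'.1 (x : U) from hx] }
        have hle' : IntermediateField.adjoin E (S : Set M) ≤ Eq := by
          rw [IntermediateField.adjoin_le_iff]
          intro m hm
          exact congrFun hgg ⟨m, hm⟩
        intro x
        exact hle' (hS ▸ IntermediateField.mem_top)
      have h1 : ∀ x ∈ M, (g.1⁻¹ * g'.1) x = x := by
        intro x hx
        rw [AlgEquiv.mul_apply, ← h0 ⟨x, hx⟩, ← AlgEquiv.mul_apply, inv_mul_cancel,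
          AlgEquiv.one_apply]
      have h2 := hinj _ (G.mul_mem (G.inv_mem g.2) g'.2) h1
      rw [inv_mul_eq_one] at h2
      exact Subtype.ext h2
    have hrange : (Set.range f).Finite := by
      refine (Set.Finite.pi' (ι := S) fun m : S => hfin _ (m : M).2).subset ?_
      rintro _ ⟨g, rfl⟩ m
      obtain ⟨γ, -, h2⟩ := g.2
      exact ⟨γ, (h2 _).symm⟩
    have := hrange.to_subtype
    exact Finite.of_injective_finite_range hf
  have hGnt : Nontrivial G := by
    obtain ⟨γ, hγ, m, hm, hne⟩ := hne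
    refine ⟨⟨⟨actE s hle hst hγ, γ, hγ, fun z => rfl⟩, 1, fun h => hne ?_⟩⟩
    have h1 := congrArg (fun g : G => g.1 m) h
    exact h1
  obtain ⟨W, ⟨hWE, hWt, hWG⟩, hWu⟩ := finite_group_fixed M hc (fun N hN => (hR N hN).2) G hGM
    hinj (fun g hg hp => by
      refine huniq g hp (fun x => ⟨hGM g hg x, fun hx => ?_⟩) ?_
      · have := hGM g⁻¹ (G.inv_mem hg) _ hx
        rwa [← AlgEquiv.mul_apply, inv_mul_cancel, AlgEquiv.one_apply] at this
      · by_contra hcon
        push Not at hcon
        rw [hinj g hg hcon, orderOf_one] at hp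
        exact Nat.not_prime_one hp)
  refine ⟨W, hWE, hWt, fun γ z => ?_⟩
  -- the transported place
  let W' : ValuationSubring U := W.comap (act s hle hst γ : U →+* U)
  have hW' : ∀ z, z ∈ W' ↔ act s hle hst γ z ∈ W := fun z => Iff.rfl
  have hW'E : ∀ c : E, algebraMap E U c ∈ W' := by
    intro c
    obtain ⟨d, hd⟩ := hE γ c
    rw [hW', act_const s hle hst hd]
    exact hWE d
  have hW't : W' ≠ ⊤ := by
    intro h1
    apply hWt
    rw [eq_top_iff]
    intro y _
    obtain ⟨x, rfl⟩ := (act s hle hst γ).surjective y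
    have : x ∈ W' := by rw [h1]; trivial
    exact this
  have hW'g : ∀ g ∈ G, ∀ z, g z ∈ W' ↔ z ∈ W' := by
    rintro g ⟨σ, hσ, h2⟩ z
    rw [hW', hW', h2]
    have hσ' : ∀ c : E, (γ * σ * γ⁻¹) (algebraMap E (kbar k K) c) =
        algebraMap E (kbar k K) c := by
      intro c
      obtain ⟨d, hd⟩ := hE γ⁻¹ c
      rw [AlgEquiv.mul_apply, AlgEquiv.mul_apply, hd, hσ, ← hd, ← AlgEquiv.mul_apply,
        mul_inv_cancel, AlgEquiv.one_apply]
    have h3 : act s hle hst γ (act s hle hst σ z) =
        act s hle hst (γ * σ * γ⁻¹) (act s hle hst γ z) := by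
      have h5 : γ * σ = (γ * σ * γ⁻¹) * γ := by group
      have h4 : act s hle hst γ * act s hle hst σ =
          act s hle hst (γ * σ * γ⁻¹) * act s hle hst γ := by
        rw [← map_mul, ← map_mul, ← h5]
      exact congrArg (fun f : U ≃+* U => f z) h4
    rw [h3]
    exact hWG (actE s hle hst hσ') ⟨_, hσ', fun z => rfl⟩ _
  have h5 := hWu W' ⟨hW'E, hW't, hW'g⟩
  rw [← hW', h5]

/-- The final theorem, abstract form. -/
theorem section_fixes_place_abs' (s : GaloisSection k K)
    {M1 : IntermediateField E (AlgebraicClosure K)} {ι : Type u} {x : ι → kbar k K}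
    (h : Isotrivial k K M1 x)
    (hstab : ∀ ρ : AlgebraicClosure K ≃ₐ[K] AlgebraicClosure K, ∀ m ∈ M1, ρ m ∈ M1)
    (hΛ : GenByFrob' s E (fixedConst k (M1 : Set (AlgebraicClosure K))))
    (hE : ∀ (γ : Gk k K) (c : E), ∃ d : E,
      γ (algebraMap E (kbar k K) c) = algebraMap E (kbar k K) d)
    (hnc : ∃ ρ : AlgebraicClosure K ≃ₐ[K] AlgebraicClosure K,
      (∀ c : E, ρ (algebraMap E (AlgebraicClosure K) c) = algebraMap E (AlgebraicClosure K) c) ∧
      ∃ m ∈ M1, ρ m ≠ m)
    (huniq : UniqueFixed (IntermediateField.restrict h.le_Kur0)) :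
    ∃ V : ValuationSubring (Kur k K), V ≠ ⊤ ∧ (∀ c : kbar k K, toKur k K c ∈ V) ∧
      (∀ (γ : Gk k K) (w : Kur k K), s.toHom γ w ∈ V ↔ w ∈ V) ∧
      ∀ z : K, algebraMap K (Kur k K) z ∈ V →
        ∃ c : k, V.valuation (algebraMap K (Kur k K) (z - algebraMap k K c)) < 1 := by
  have hle : ∀ z ∈ Kur0 k M1, z ∈ Kur k K := fun z hz => hz.1
  have hst := section_mem_Kur0 (k := k) s hstab
  have hKK : ∀ m ∈ M1, m ∈ KK k K := fun m hm => by
    rw [← h.comp]
    exact IntermediateField.subset_adjoin _ _ hm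
  -- the action on `M1`
  have hact : ∀ (γ : Gk k K) (ρ : AlgebraicClosure K ≃ₐ[K] AlgebraicClosure K),
      (∀ z : kbar k K, (γ z : AlgebraicClosure K) = ρ z) → ∀ m : Kur0 k M1,
      (m : AlgebraicClosure K) ∈ M1 →
      (act s hle hst γ m : AlgebraicClosure K) = ρ m := by
    intro γ ρ hγρ m hm
    exact section_eq_of_KK s hγρ (hKK _ hm)
  have hmem : ∀ m : Kur0 k M1, m ∈ IntermediateField.restrict h.le_Kur0 ↔
      (m : AlgebraicClosure K) ∈ M1 := fun m => IntermediateField.mem_restrict h.le_Kur0 m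
  have hR : ∀ N : IntermediateField E (Kur0 k M1), IsFunctionField E N →
      Riemann E N ∧ PicDiv E N := fun N hN => ⟨FF.riemann hN, FF.picDiv hN⟩
  obtain ⟨W, hWE, hWt, hWs⟩ : ∃ W : ValuationSubring (Kur0 k M1),
      (∀ c : E, algebraMap E (Kur0 k M1) c ∈ W) ∧ W ≠ ⊤ ∧
      ∀ (γ : Gk k K) (z : Kur0 k M1), act s hle hst γ z ∈ W ↔ z ∈ W := by
    refine exists_stable_place' s hle hst (isCover_Kur0 h) hR hΛ ?_ ?_ hE ?_ ?_ ?_ huniq
    · -- elements fixing `Λ` fix `M1`
      intro γ hγ m hm
      let H : ClosedSubgroup (Gk k K) :=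
        { carrier := {γ | ∀ w : Kur k K, (w : AlgebraicClosure K) ∈ M1 → s.toHom γ w = w}
          mul_mem' := fun {a b} ha hb w hw => by
            rw [map_mul, AlgEquiv.mul_apply, hb w hw, ha w hw]
          one_mem' := fun w _ => by rw [map_one]; rfl
          inv_mem' := fun {a} ha w hw => by
            have h1 := congrArg (s.toHom a⁻¹) (ha w hw)
            rw [← AlgEquiv.mul_apply, ← map_mul, inv_mul_cancel, map_one] at h1
            exact h1.symm
          isClosed' := by
            have h1 : {γ : Gk k K | ∀ w : Kur k K, (w : AlgebraicClosure K) ∈ M1 →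
                s.toHom γ w = w} = ⋂ w : Kur k K, ⋂ _ : (w : AlgebraicClosure K) ∈ M1,
                {γ : Gk k K | s.toHom γ w = w} := by
              ext γ
              simp
            change IsClosed {γ : Gk k K | ∀ w : Kur k K, (w : AlgebraicClosure K) ∈ M1 →
                s.toHom γ w = w}
            rw [h1]
            exact isClosed_iInter fun w => isClosed_iInter fun _ => isClosed_fix_section s w }
      have hH := InfiniteGalois.fixingSubgroup_fixedField H
      have h1 : γ ∈ (IntermediateField.fixedField H.toSubgroup).fixingSubgroup := by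
        rw [IntermediateField.mem_fixingSubgroup_iff]
        intro y hy
        refine hγ y fun ρ hρ => ?_
        have h2 : (resGk ρ : Gk k K) ∈ H.toSubgroup := by
          intro w hw
          apply Subtype.ext
          have h3 := section_eq_of_KK s (γ := resGk ρ) (ρ := ρ) (fun z => resGk_apply ρ z)
            (hKK _ hw)
          exact h3.trans (hρ _ hw)
        have h4 : (resGk ρ : Gk k K) y = y := hy ⟨_, h2⟩
        rw [← resGk_apply, h4]
      rw [hH] at h1
      have h2 := h1 ⟨m, hle _ m.2⟩ ((hmem m).1 hm)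
      have h3 := congrArg (fun y : Kur k K => (y : AlgebraicClosure K)) h2
      exact Subtype.ext h3
    · -- elements fixing `M1` fix `Λ`
      intro γ hγ z hz
      obtain ⟨ρ, hρ⟩ := exists_ext s γ
      have h1 := hz ρ (fun m hm => by
        have h2 := hγ ⟨m, h.le_Kur0 hm⟩ ((hmem _).2 hm)
        have h3 := congrArg (fun y : Kur0 k M1 => (y : AlgebraicClosure K)) h2
        rw [coe_act, ← hρ ⟨m, hle _ (h.le_Kur0 hm)⟩] at h3
        exact h3)
      rw [ext_const s hρ] at h1
      exact Subtype.ext h1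
    · -- `M1` is stable
      intro γ m hm
      obtain ⟨ρ, hρ⟩ := exists_ext s γ
      rw [hmem] at hm ⊢
      rw [hact γ ρ (fun z => (ext_const s hρ z).symm) m hm]
      exact hstab ρ _ hm
    · -- finite orbits
      intro m hm
      have halg : IsAlgebraic K (m : AlgebraicClosure K) := Algebra.IsAlgebraic.isAlgebraic _
      have hp0 := minpoly.ne_zero halg.isIntegral
      have hfin : ((minpoly K (m : AlgebraicClosure K)).rootSet (AlgebraicClosure K)).Finite :=
        Polynomial.rootSet_finite _ _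
      refine (hfin.preimage (f := fun y : Kur0 k M1 => (y : AlgebraicClosure K))
        (Subtype.val_injective.injOn)).subset ?_
      rintro y ⟨γ, rfl⟩
      obtain ⟨ρ, hρ⟩ := exists_ext s γ
      rw [Set.mem_preimage, coe_act, ← hρ, Polynomial.mem_rootSet]
      refine ⟨hp0, ?_⟩
      have h1 := Polynomial.aeval_algHom_apply (ρ : AlgebraicClosure K →ₐ[K] AlgebraicClosure K)
        (m : AlgebraicClosure K) (minpoly K (m : AlgebraicClosure K))
      rw [minpoly.aeval, map_zero] at h1
      exact h1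
    · -- nonconstant
      obtain ⟨ρ, hρE, m, hm, hne⟩ := hnc
      refine ⟨resGk ρ, fun c => ?_, ⟨m, h.le_Kur0 hm⟩, (hmem _).2 hm, fun h1 => hne ?_⟩
      · apply Subtype.ext
        rw [resGk_apply]
        have h2 := hρE c
        rw [IsScalarTower.algebraMap_apply E (kbar k K) (AlgebraicClosure K)] at h2
        exact h2
      · have h2 := hact (resGk ρ) ρ (fun z => resGk_apply ρ z) ⟨m, h.le_Kur0 hm⟩ hm
        rw [h1] at h2
        exact h2.symm
  obtain ⟨V, hVt, hVA, hVs⟩ := exists_stable_ext s h hle hst hWE hWt hWs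
  exact ⟨V, hVt, hVA, hVs, fun z hz => exists_rational_residue s h.ffK hVt hVA hVs hz⟩

end Act

end Pool.Agent.SC
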