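import Mathlib
import Pool.Agent.SC.T5
import Pool.Agent.SC.LocFinal
import Pool.Agent.SC.DefsG

/-!
# The section conjecture for twists of constant curves
-/

universe u

namespace Pool.Agent.SC

open VC IntermediateField Module Pool.Agent.Helper91.Sect

variable {F k K : Type u} [Field F] [CharZero F] [Field k] [Field K]
  [Algebra F k] [Algebra k K] [Algebra F K] [IsScalarTower F k K]

theorem GenByInertia.decomp {Λ : Set (kbar k K)} (h : GenByInertia F k K Λ) :
    GenByDecomp F k K Λ := fun z hz =>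
  h z fun O hFO hO Q hQ hA τ hτ hτΛ => hz O hFO hO Q hQ hA τ (Or.inl hτ) hτΛ

/-- **The section conjecture for twists of constant curves.** -/
theorem twist_section
    (hF : ∃ S : Finset F, Subfield.closure (S : Set F) = ⊤) (hK : IsFunctionField k K)
    (M : IntermediateField (algebraicClosure F (kbar k K)) (AlgebraicClosure K))
    (hM : IsFunctionField (algebraicClosure F (kbar k K)) M)
    (hMK : IntermediateField.adjoin (kbar k K) (M : Set (AlgebraicClosure K)) = KK k K)
    (hstab : ∀ ρ : AlgebraicClosure K ≃ₐ[K] AlgebraicClosure K, ∀ m ∈ M, ρ m ∈ M)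
    (hrat : ∀ y : M, IntermediateField.adjoin (algebraicClosure F (kbar k K)) {y} ≠ ⊤)
    (hnc : ∃ ρ : AlgebraicClosure K ≃ₐ[K] AlgebraicClosure K,
      (∀ z : AlgebraicClosure K, IsAlgebraic F z → ρ z = z) ∧ ∃ m ∈ M, ρ m ≠ m)
    (hΛ : GenByDecomp F k K (fixedConst k (M : Set (AlgebraicClosure K))))
    (s : GaloisSection k K) :
    ∃ V : ValuationSubring (Kur k K), V ≠ ⊤ ∧ (∀ c : kbar k K, toKur k K c ∈ V) ∧
      (∀ (γ : Gk k K) (w : Kur k K), s.toHom γ w ∈ V ↔ w ∈ V) ∧
      ∀ z : K, algebraMap K (Kur k K) z ∈ V →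
        ∃ c : k, V.valuation (algebraMap K (Kur k K) (z - algebraMap k K c)) < 1 := by
  have hck : CharZero k := charZero_of_injective_algebraMap (algebraMap F k).injective
  obtain ⟨ι, x, hx⟩ := exists_isTranscendenceBasis' (algebraicClosure F (kbar k K)) (kbar k K)
  have h := isotrivial_of_comp hK hM hMK hx
  have i1 : IsAlgClosed (algebraicClosure F (kbar k K)) := isAlgClosed_algF
  have i2 : CharZero (algebraicClosure F (kbar k K)) :=
    charZero_of_injective_algebraMap (algebraMap F (algebraicClosure F (kbar k K))).injective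
  have huniq := uniqueFixed (F := F) hF _ (isCover_Kur0 h) (nonrational_restrict h.le_Kur0 hrat)
  refine section_fixes_place_abs' s h hstab ?_ ?_ ?_ huniq
  · intro z hz
    refine hΛ z fun O hFO hres Q hQ hA τ hτ hτΛ => ?_
    refine hz O Q hQ (residue_unit hFO Q) (frobAt_of_fg s hFO hres Q hA) ?_ τ hτ hτΛ
    intro τ hτ c
    have h1 : IsAlgebraic F (c : kbar k K) := mem_algebraicClosure_iff.1 c.2
    have h2 : IsAlgebraic F (τ (c : kbar k K)) :=
      h1.algHom ((τ : kbar k K →ₐ[k] kbar k K).restrictScalars F)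
    have h3 : IsIntegral O (c : kbar k K) := integral_of_algF hFO h1
    exact eq_of_cong_algF hFO Q h2 h1 (val_inertia Q hτ (coeB_le Q ⟨(c : kbar k K), h3⟩))
  · intro γ c
    have h1 : IsAlgebraic F (c : kbar k K) := mem_algebraicClosure_iff.1 c.2
    have h2 : IsAlgebraic F (γ (c : kbar k K)) :=
      h1.algHom ((γ : kbar k K →ₐ[k] kbar k K).restrictScalars F)
    exact ⟨⟨γ c, mem_algebraicClosure_iff.2 h2⟩, rfl⟩
  · obtain ⟨ρ, hρ, m, hm, hne⟩ := hnc
    refine ⟨ρ, fun c => hρ _ ?_, m, hm, hne⟩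
    have h1 : IsAlgebraic F (c : kbar k K) := mem_algebraicClosure_iff.1 c.2
    have i3 : IsScalarTower F (kbar k K) (AlgebraicClosure K) :=
      IsScalarTower.of_algebraMap_eq fun _ => rfl
    exact h1.algHom (IsScalarTower.toAlgHom F (kbar k K) (AlgebraicClosure K))

end Pool.Agent.SC
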