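import Mathlib
import Pool.Agent.SC.DefsP
import Pool.Agent.SC.C1
import Pool.Agent.SC.Final2
import Pool.Agent.SC.H1

/-!
# From subfields to intermediate fields
-/

universe u

namespace Pool.Agent.SC

open VC IntermediateField Module Pool.Agent.Helper91.Sect H1

section Abs

variable {F E L : Type u} [Field F] [Field E] [Field L] [Algebra F E] [Algebra E L] [Algebra F L]
  [IsScalarTower F E L]

theorem isFunctionField_of_closure [Algebra.IsAlgebraic F E] (N : IntermediateField E L)
    (S : Finset L) (hS : (N : Set L) = Subfield.closure (Set.range (algebraMap E L) ∪ S))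
    (t : L) (ht : t ∈ N) (htr : Transcendental F t)
    (halg : ∀ z ∈ N, IsAlgebraic (IntermediateField.adjoin F {t}) z) : IsFunctionField E N := by
  classical
  let t' : N := ⟨t, ht⟩
  have h1 : Transcendental E (t' : L) := fun h => htr (h.restrictScalars F)
  have h2 : Transcendental E t' := fun h => h1 (h.algHom N.val)
  refine ⟨t', h2, ?_⟩
  let A : IntermediateField E N := IntermediateField.adjoin E {t'}
  let i1 : Algebra A L := ((algebraMap N L).comp (algebraMap A N)).toAlgebra
  have st1 : @IsScalarTower A N L _ _ (i1.toSMul) :=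
    @IsScalarTower.of_algebraMap_eq A N L _ _ _ _ _ i1 fun _ => rfl
  have h3 : ∀ z : N, IsAlgebraic A z := by
    intro z
    have h4 := halg z z.2
    have h5 : IsAlgebraic A (z : L) := by
      refine isAlgebraic_of_range_le (fun a => ?_) h4
      let R : IntermediateField F L :=
        { (algebraMap A L).fieldRange with
          algebraMap_mem' := fun c => ⟨algebraMap E A (algebraMap F E c), by
            rw [IsScalarTower.algebraMap_apply F E L]; rfl⟩ }
      have h6 : IntermediateField.adjoin F {t} ≤ R := by
        refine IntermediateField.adjoin_le_iff.2 ?_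
        rintro _ rfl
        exact ⟨⟨t', IntermediateField.mem_adjoin_simple_self E t'⟩, rfl⟩
      exact h6 a.2
    exact (isAlgebraic_algebraMap_iff (A := L) (algebraMap N L).injective).1 h5
  let S' : Finset N := S.preimage (Subtype.val : N → L) Subtype.val_injective.injOn
  have h4 : IntermediateField.adjoin A (S' : Set N) = ⊤ := by
    rw [eq_top_iff]
    rintro z -
    let T : Subfield L := ((IntermediateField.adjoin A (S' : Set N)).toSubfield).map
      (algebraMap N L)
    have hle : Subfield.closure (Set.range (algebraMap E L) ∪ S) ≤ T := by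
      rw [Subfield.closure_le]
      rintro w (⟨c, rfl⟩ | hw)
      · refine ⟨algebraMap E N c, ?_, rfl⟩
        exact (IntermediateField.adjoin A (S' : Set N)).algebraMap_mem (algebraMap E A c)
      · have hwN : w ∈ N := by
          have : w ∈ (N : Set L) := by
            rw [hS]
            exact Subfield.subset_closure (Or.inr hw)
          exact this
        refine ⟨⟨w, hwN⟩, IntermediateField.subset_adjoin _ _ ?_, rfl⟩
        exact Finset.mem_coe.2 (Finset.mem_preimage.2 hw)
    have hz : (z : L) ∈ T := by
      apply hle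
      have : (z : L) ∈ (N : Set L) := z.2
      rw [hS] at this
      exact this
    obtain ⟨w, hw, hwz⟩ := hz
    have : w = z := Subtype.ext hwz
    rw [← this]
    exact hw
  have h5 : FiniteDimensional A (IntermediateField.adjoin A (S' : Set N)) :=
    IntermediateField.finiteDimensional_adjoin fun x _ => (h3 x).isIntegral
  rw [h4] at h5
  exact (IntermediateField.topEquiv (F := A) (E := N)).toLinearEquiv.finiteDimensional

theorem adjoin_ne_top_of_closure (N : IntermediateField E L)
    (h : ∀ y : L, (N : Set L) ≠ Subfield.closure (Set.range (algebraMap E L) ∪ {y})) (y : N) :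
    IntermediateField.adjoin E {y} ≠ ⊤ := by
  intro htop
  apply h (y : L)
  apply le_antisymm
  · intro z hz
    let T : IntermediateField E N :=
      { (Subfield.closure (Set.range (algebraMap E L) ∪ {(y : L)})).comap (algebraMap N L) with
        algebraMap_mem' := fun c => Subfield.subset_closure (Or.inl ⟨c, rfl⟩) }
    have h1 : IntermediateField.adjoin E {y} ≤ T := by
      refine IntermediateField.adjoin_le_iff.2 ?_
      rintro _ rfl
      exact Subfield.subset_closure (Or.inr rfl)
    have h2 : (⟨z, hz⟩ : N) ∈ IntermediateField.adjoin E {y} := by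
      rw [htop]; exact IntermediateField.mem_top
    exact h1 h2
  · have h1 : Subfield.closure (Set.range (algebraMap E L) ∪ {(y : L)}) ≤ N.toSubfield := by
      rw [Subfield.closure_le]
      rintro w (⟨c, rfl⟩ | hw)
      · exact N.algebraMap_mem c
      · rw [Set.mem_singleton_iff.1 hw]
        exact y.2
    exact h1

end Abs

section Conv

variable {F k K : Type u} [Field F] [Field k] [Field K]
  [Algebra F k] [Algebra k K] [Algebra F K] [IsScalarTower F k K]

theorem range_kbar : Set.range (algebraMap (kbar k K) (AlgebraicClosure K)) =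
    {c | IsAlgebraic k c} := by
  ext c
  constructor
  · rintro ⟨d, rfl⟩
    exact mem_algebraicClosure_iff.1 d.2
  · intro hc
    exact ⟨⟨c, mem_algebraicClosure_iff.2 hc⟩, rfl⟩

theorem range_algF : Set.range (algebraMap (algebraicClosure F (kbar k K)) (AlgebraicClosure K)) =
    {c | IsAlgebraic F c} := by
  have := scalarTower_kbar (F := F) (k := k) (K := K)
  ext c
  constructor
  · rintro ⟨d, rfl⟩
    have h1 : IsAlgebraic F (d : kbar k K) := mem_algebraicClosure_iff.1 d.2
    exact h1.algHom (IsScalarTower.toAlgHom F (kbar k K) (AlgebraicClosure K))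
  · intro hc
    have h1 : IsAlgebraic k c := IsAlgebraic.extendScalars (algebraMap F k).injective hc
    let d : kbar k K := ⟨c, mem_algebraicClosure_iff.2 h1⟩
    have h2 : IsAlgebraic F d := (isAlgebraic_algebraMap_iff (A := AlgebraicClosure K)
      (algebraMap (kbar k K) (AlgebraicClosure K)).injective).1 hc
    exact ⟨⟨d, mem_algebraicClosure_iff.2 h2⟩, rfl⟩

/-- The subfield `M`, as an extension of the algebraic closure of `F` in `kbar`. -/
noncomputable def CurveOverE.toIF (k : Type u) [Field k] [Algebra F k] [Algebra k K]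
    [IsScalarTower F k K] {M : Subfield (AlgebraicClosure K)} (h : CurveOverE F K M) :
    IntermediateField (algebraicClosure F (kbar k K)) (AlgebraicClosure K) :=
  { M with
    algebraMap_mem' := fun c => by
      have h1 : algebraMap (algebraicClosure F (kbar k K)) (AlgebraicClosure K) c ∈
          {c : AlgebraicClosure K | IsAlgebraic F c} := by
        rw [← range_algF (k := k)]
        exact ⟨c, rfl⟩
      obtain ⟨S, hS⟩ := h.generated
      rw [hS]
      exact Subfield.subset_closure (Or.inl h1) }

theorem CurveOverE.mem_toIF {M : Subfield (AlgebraicClosure K)} (h : CurveOverE F K M)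
    {z : AlgebraicClosure K} : z ∈ h.toIF k ↔ z ∈ M := Iff.rfl

theorem CurveOverE.coe_toIF {M : Subfield (AlgebraicClosure K)} (h : CurveOverE F K M) :
    (h.toIF k : Set (AlgebraicClosure K)) = M := rfl

theorem CurveOverE.isFunctionField {M : Subfield (AlgebraicClosure K)} (h : CurveOverE F K M) :
    IsFunctionField (algebraicClosure F (kbar k K)) (h.toIF k) := by
  have st := scalarTower_kbar (F := F) (k := k) (K := K)
  have h1 : IsScalarTower F (algebraicClosure F (kbar k K)) (AlgebraicClosure K) :=
    scalarTower_E F k K (algebraicClosure F (kbar k K))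
  obtain ⟨S, hS⟩ := h.generated
  obtain ⟨t, ht, htr, halg⟩ := h.trdeg_one
  refine isFunctionField_of_closure (F := F) (h.toIF k) S ?_ t ht htr halg
  rw [h.coe_toIF, range_algF (F := F) (k := k) (K := K)]
  exact congrArg (fun T : Subfield (AlgebraicClosure K) => (T : Set (AlgebraicClosure K))) hS

theorem CurveOverE.nonrational {M : Subfield (AlgebraicClosure K)} (h : CurveOverE F K M)
    (hM : NotRational F K M) (y : h.toIF k) :
    IntermediateField.adjoin (algebraicClosure F (kbar k K)) {y} ≠ ⊤ := by
  refine adjoin_ne_top_of_closure (h.toIF k) (fun y hy => ?_) y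
  refine hM y (SetLike.coe_injective ?_)
  rw [h.coe_toIF, range_algF (F := F) (k := k) (K := K)] at hy
  exact hy

theorem adjoin_eq_of_closure {E L : Type u} [Field E] [Field L] [Algebra E L] {A B : Set L}
    (h : Subfield.closure (Set.range (algebraMap E L) ∪ A) =
      Subfield.closure (Set.range (algebraMap E L) ∪ B)) :
    IntermediateField.adjoin E A = IntermediateField.adjoin E B := by
  apply SetLike.coe_injective
  exact congrArg (fun T : Subfield L => (T : Set L)) h

theorem TwistedForm.comp {M : Subfield (AlgebraicClosure K)} (h : TwistedForm k K M) :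
    IntermediateField.adjoin (kbar k K) (M : Set (AlgebraicClosure K)) = KK k K := by
  refine adjoin_eq_of_closure ?_
  rw [range_kbar]
  exact h.compositum

theorem adjoin_eq_closure {N : Type u} [Field N] [Algebra F N] (u : N) :
    ((IntermediateField.adjoin F ({z : N | IsAlgebraic F z} ∪ {u}) : IntermediateField F N) :
      Set N) = Subfield.closure ({z : N | IsAlgebraic F z} ∪ {u}) := by
  apply le_antisymm
  · let T : IntermediateField F N :=
      { Subfield.closure ({z : N | IsAlgebraic F z} ∪ {u}) with
        algebraMap_mem' := fun c => Subfield.subset_closure (Or.inl (isAlgebraic_algebraMap c)) }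
    have h1 : IntermediateField.adjoin F ({z : N | IsAlgebraic F z} ∪ {u}) ≤ T :=
      IntermediateField.adjoin_le_iff.2 Subfield.subset_closure
    exact h1
  · have h1 : Subfield.closure ({z : N | IsAlgebraic F z} ∪ {u}) ≤
        (IntermediateField.adjoin F ({z : N | IsAlgebraic F z} ∪ {u})).toSubfield := by
      rw [Subfield.closure_le]
      exact IntermediateField.subset_adjoin _ _
    exact h1


theorem InDecomp.nonunits_iff {C : Type u} [Field C] [Algebra k C] {W : ValuationSubring C}
    {τ : C ≃ₐ[k] C} (h : InDecomp W τ) (z : C) : τ z ∈ W.nonunits ↔ z ∈ W.nonunits := by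
  rw [ValuationSubring.mem_nonunits_iff_or, ValuationSubring.mem_nonunits_iff_or, ← map_inv₀,
    h z⁻¹, EmbeddingLike.map_eq_zero_iff]

theorem InDecomp.inD {C : Type u} [Field C] [Algebra k C] {W : ValuationSubring C}
    {τ : C ≃ₐ[k] C} (h : InDecomp W τ) : InD (cen k W) τ := fun b => by
  rw [mem_cen, mem_cen]
  exact h.nonunits_iff b

theorem InInert.inI {C : Type u} [Field C] [Algebra k C] {W : ValuationSubring C}
    {τ : C ≃ₐ[k] C} (h : InInert W τ) : InI (cen k W) τ := by
  refine ⟨InDecomp.inD h.1, fun b => ?_⟩
  rw [mem_cen]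
  exact h.2 b (mem_W W b)

theorem mem_splittingField_iff {M : Subfield (AlgebraicClosure K)} {z : kbar k K} :
    (z : AlgebraicClosure K) ∈ splittingField k M ↔
      z ∈ fixedConst k (M : Set (AlgebraicClosure K)) :=
  ⟨fun h => h.2, fun h => ⟨mem_algebraicClosure_iff.1 z.2, h⟩⟩

omit [Algebra F K] [IsScalarTower F k K] in
theorem IsSplitClosed.decomp {M : Subfield (AlgebraicClosure K)}
    (h : IsSplitClosed F k {z : kbar k K | (z : AlgebraicClosure K) ∈ splittingField k M}) :
    GenByDecomp F k K (fixedConst k (M : Set (AlgebraicClosure K))) := by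
  intro z hz
  rw [← mem_splittingField_iff]
  refine h z fun W hW τ hτ hfix => ?_
  refine hz (W.comap (algebraMap k (kbar k K))) hW.1 hW.2 (cen k W) (cen_isPrime W) (above_cen W)
    τ ?_ (fun x hx => hfix x (mem_splittingField_iff.2 hx))
  rcases hτ with hτ | ⟨hτ, σ, hσ, x, hx, hne⟩
  · exact Or.inl (InInert.inI hτ)
  · exact Or.inr ⟨InDecomp.inD hτ, σ, InInert.inI hσ, x, mem_splittingField_iff.1 hx, hne⟩

theorem IsRationalCase.decomp [CharZero F]
    (hF : ∃ S : Finset F, Subfield.closure (S : Set F) = ⊤) {M : Subfield (AlgebraicClosure K)}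
    (h : IsRationalCase F k {z : kbar k K | (z : AlgebraicClosure K) ∈ splittingField k M}) :
    GenByDecomp F k K (fixedConst k (M : Set (AlgebraicClosure K))) := by
  obtain ⟨⟨t, ht, hk⟩, u, hu, hΛ⟩ := h
  have h2 : {z : kbar k K | (z : AlgebraicClosure K) ∈ splittingField k M} =
      fixedConst k (M : Set (AlgebraicClosure K)) := Set.ext fun z => mem_splittingField_iff
  rw [h2] at hΛ
  refine GenByInertia.decomp (genByInertia_rational hF t ht hk _ u hu ?_
    (hΛ.trans (adjoin_eq_closure u).symm))
  intro ρ _
  have h1 : ((algebraMap k (kbar k K) t : kbar k K) : AlgebraicClosure K) =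
      algebraMap K (AlgebraicClosure K) (algebraMap k K t) := rfl
  rw [h1, AlgEquiv.commutes]

theorem exists_toKur {c : Kur k K} (hc : IsAlgebraic k c) : ∃ d : kbar k K, toKur k K d = c := by
  have h1 : IsAlgebraic k (c : AlgebraicClosure K) :=
    hc.algHom ((Kur k K).val.restrictScalars k)
  exact ⟨⟨c, mem_algebraicClosure_iff.2 h1⟩, rfl⟩

/-- **The section conjecture for twists of constant curves**, in terms of subfields. -/
theorem isGeometric_of_twist [CharZero F]
    (hF : ∃ S : Finset F, Subfield.closure (S : Set F) = ⊤) (hK : IsFunctionField k K)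
    (M : Subfield (AlgebraicClosure K)) (hM : CurveOverE F K M) (hrat : NotRational F K M)
    (hT : TwistedForm k K M) (hnc : NotConstant F K M)
    (hΛ : IsSplitClosed F k {z : kbar k K | (z : AlgebraicClosure K) ∈ splittingField k M} ∨
      IsRationalCase F k {z : kbar k K | (z : AlgebraicClosure K) ∈ splittingField k M})
    (s : GaloisSection k K) : IsGeometric s := by
  obtain ⟨V, h1, h2, h3, h4⟩ := twist_section hF hK (hM.toIF k) hM.isFunctionField hT.comp
    hT.stable (hM.nonrational hrat) hnc (hΛ.elim (fun h => h.decomp) (fun h => h.decomp hF)) s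
  refine ⟨V, h1, fun c hc => ?_, h3, fun z hz => ?_⟩
  · obtain ⟨d, rfl⟩ := exists_toKur hc
    exact h2 d
  · obtain ⟨c, hc⟩ := h4 z hz
    exact ⟨c, (ValuationSubring.mem_nonunits_iff _).2 hc⟩

/-- **Sections of twists of constant curves are geometric at the ramified places**, in terms of
subfields. -/
theorem isGeometricAt_of_twist [CharZero F]
    (hF : ∃ S : Finset F, Subfield.closure (S : Set F) = ⊤) (hK : IsFunctionField k K)
    (M : Subfield (AlgebraicClosure K)) (hM : CurveOverE F K M) (hrat : NotRational F K M)
    (hT : TwistedForm k K M) (W : ValuationSubring (kbar k K)) (hW : IsPlaceOver F k W)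
    (hram : RamifiedAt W M) (s : GaloisSection k K) :
    IsGeometricAt s W (splittingField k M) := by
  obtain ⟨τ, ρ, hτ, hρ, hm⟩ := hram
  obtain ⟨V, h1, h2, h3, h4⟩ := local_section hF hK (hM.toIF k) hM.isFunctionField hT.comp
    hT.stable (hM.nonrational hrat) _ hW.1 hW.2 (cen k W) (cen_isPrime W) (above_cen W)
    ⟨τ, ρ, InInert.inI hτ, hρ, hm⟩ s
  refine ⟨V, h1, fun c hc => ?_, fun γ hγ => h3 γ (InDecomp.inD hγ), fun z hz => ?_⟩
  · obtain ⟨d, rfl⟩ := exists_toKur hc
    exact h2 d
  · obtain ⟨c, hc1, hc2, hc3⟩ := h4 z hz
    refine ⟨toKur k K c, mem_splittingField_iff.2 hc3, fun γ hγ => ?_,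
      (ValuationSubring.mem_nonunits_iff _).2 hc1⟩
    rw [section_toKur, hc2 γ (InDecomp.inD hγ)]

end Conv

end Pool.Agent.SC
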