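import Mathlib
import Pool.Agent.SC.FL
import Pool.Agent.SC.RK1
import Pool.Agent.Helper91.Section.Resid

/-!
# MP_e66f84_ag, block FR: Frobenius elements in the decomposition group of a valuation ring with
finitely generated residue field.
-/

universe u

namespace Pool.Agent.SC

open Module Polynomial Pool.Agent.Helper91.Sect

namespace FR

section General

variable {k C R : Type u} [Field k] [Field C] [Algebra k C] {O : ValuationSubring k}
  [Field R] [Algebra (IsLocalRing.ResidueField O) R] (π : integralClosure O C →+* R)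
  (hπ : ∀ c : O, algebraMap (IsLocalRing.ResidueField O) R (IsLocalRing.residue O c) =
    π (algebraMap O (integralClosure O C) c))

/-- The image of the integral elements of `L` in the residue field. -/
def resSub (L : IntermediateField k C) : Subalgebra (IsLocalRing.ResidueField O) R where
  carrier := {x | ∃ b : integralClosure O C, (b : C) ∈ L ∧ π b = x}
  mul_mem' := by
    rintro _ _ ⟨b, hb, rfl⟩ ⟨c, hc, rfl⟩
    exact ⟨b * c, L.mul_mem hb hc, map_mul _ _ _⟩
  add_mem' := by
    rintro _ _ ⟨b, hb, rfl⟩ ⟨c, hc, rfl⟩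
    exact ⟨b + c, L.add_mem hb hc, map_add _ _ _⟩
  algebraMap_mem' := by
    intro x
    obtain ⟨c, rfl⟩ := IsLocalRing.residue_surjective x
    exact ⟨algebraMap O (integralClosure O C) c, L.algebraMap_mem (c : k), (hπ c).symm⟩

theorem mem_resSub {L : IntermediateField k C} {x : R} :
    x ∈ resSub π hπ L ↔ ∃ b : integralClosure O C, (b : C) ∈ L ∧ π b = x := Iff.rfl

theorem finite_resSub (L : IntermediateField k C) [FiniteDimensional k L] :
    Module.Finite (IsLocalRing.ResidueField O) (resSub π hπ L) := by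
  classical
  have hrank : Module.rank (IsLocalRing.ResidueField O) (resSub π hπ L) ≤ (finrank k L : ℕ) := by
    refine rank_le fun s hs => ?_
    have hlift : ∀ z : s, ∃ b : integralClosure O C, (b : C) ∈ L ∧
        π b = ((z : resSub π hπ L) : R) := fun z =>
      (mem_resSub π hπ).1 (z : resSub π hπ L).2
    choose b hbL hb using hlift
    have hli : LinearIndependent k (fun i : s => (⟨b i, hbL i⟩ : L)) := by
      rw [Fintype.linearIndependent_iff]
      intro g hg
      by_contra hcon
      push Not at hcon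
      obtain ⟨i0, hi0⟩ := hcon
      have hne : (Finset.univ : Finset s).Nonempty := ⟨i0, Finset.mem_univ _⟩
      obtain ⟨j, -, hj⟩ := Finset.exists_max_image Finset.univ
        (fun i => O.valuation (g i)) hne
      have hgj : g j ≠ 0 := by
        intro h0
        have h1 := hj i0 (Finset.mem_univ _)
        rw [h0, map_zero] at h1
        exact hi0 (by simpa using h1)
      have hgO : ∀ i, g i / g j ∈ O := by
        intro i
        rw [← O.valuation_le_one_iff, map_div₀]
        have h1 : O.valuation (g j) ≠ 0 := by simpa using hgj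
        exact (div_le_one₀ (zero_lt_iff.2 h1)).2 (hj i (Finset.mem_univ _))
      have hsum : ∑ i, algebraMap O (integralClosure O C) ⟨g i / g j, hgO i⟩ * b i = 0 := by
        apply Subtype.val_injective
        have h1 := congrArg (fun x : L => algebraMap k C (g j)⁻¹ * (x : C)) hg
        simp only [ZeroMemClass.coe_zero, mul_zero] at h1
        change ((∑ i, algebraMap O (integralClosure O C) ⟨g i / g j, hgO i⟩ * b i :
          integralClosure O C) : C) = 0
        rw [← h1, AddSubmonoidClass.coe_finset_sum, AddSubmonoidClass.coe_finset_sum,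
          Finset.mul_sum]
        refine Finset.sum_congr rfl fun i _ => ?_
        rw [IntermediateField.coe_smul, Algebra.smul_def, ← mul_assoc, ← map_mul]
        change algebraMap k C (g i / g j) * (b i : C) = _
        rw [div_eq_mul_inv, mul_comm (g i)]
      have hsum4 : ∑ i : s, (IsLocalRing.residue O ⟨g i / g j, hgO i⟩) •
          (i : resSub π hπ L) = 0 := by
        apply Subtype.val_injective
        change ((∑ i : s, (IsLocalRing.residue O ⟨g i / g j, hgO i⟩) •
          (i : resSub π hπ L) : resSub π hπ L) : R) = 0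
        rw [AddSubmonoidClass.coe_finset_sum]
        have h2 := congrArg π hsum
        rw [map_zero, map_sum] at h2
        rw [← h2]
        refine Finset.sum_congr rfl fun i _ => ?_
        rw [map_mul, hb i, ← hπ, Subalgebra.coe_smul, Algebra.smul_def]
      have h5 := Fintype.linearIndependent_iff.1 hs _ hsum4 j
      have h6 : (⟨g j / g j, hgO j⟩ : O) = 1 := Subtype.ext (div_self hgj)
      rw [h6, map_one] at h5
      exact one_ne_zero h5
    have := hli.fintype_card_le_finrank
    rwa [Fintype.card_coe] at this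
  rw [← Module.rank_lt_aleph0_iff]
  exact hrank.trans_lt (Cardinal.natCast_lt_aleph0)

/-- The residue field of `L` as an intermediate field. -/
noncomputable def resInt [Algebra.IsAlgebraic (IsLocalRing.ResidueField O) R] (L : IntermediateField k C) :
    IntermediateField (IsLocalRing.ResidueField O) R :=
  (resSub π hπ L).toIntermediateField fun x hx =>
    Subalgebra.inv_mem_of_algebraic (A := resSub π hπ L) (x := ⟨x, hx⟩)
      (Algebra.IsAlgebraic.isAlgebraic x)

theorem mem_resInt [Algebra.IsAlgebraic (IsLocalRing.ResidueField O) R] {L : IntermediateField k C}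
    {x : R} : x ∈ resInt π hπ L ↔ ∃ b : integralClosure O C, (b : C) ∈ L ∧ π b = x := Iff.rfl

theorem finite_resInt [Algebra.IsAlgebraic (IsLocalRing.ResidueField O) R]
    (L : IntermediateField k C) [FiniteDimensional k L] :
    FiniteDimensional (IsLocalRing.ResidueField O) (resInt π hπ L) :=
  finite_resSub π hπ L

end General

section Main

variable {F k C : Type u} [Field F] [CharZero F] [Field k] [Field C] [Algebra F k] [Algebra k C]
  [Algebra F C] [IsScalarTower F k C] {O : ValuationSubring k}

/-- Frobenius elements inside `Gal(C / L)`. -/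
theorem exists_frob_gen [IsGalois k C] [IsAlgClosed C] (hFO : ∀ c : F, algebraMap F k c ∈ O)
    (hres : ∃ S : Finset (IsLocalRing.ResidueField O), Subfield.closure
      (S : Set (IsLocalRing.ResidueField O)) = ⊤)
    (Q : Ideal (integralClosure O C)) [hQ : Q.IsPrime] (hA : Above Q)
    (L : IntermediateField k C) [FiniteDimensional k L]
    (S : Finset (algebraicClosure F C)) (hS : ∀ a ∈ S, a ≠ 0) (ℓ : ℕ) (hℓ : 0 < ℓ) :
    ∃ (γ : C ≃ₐ[k] C) (V : ValuationSubring (algebraicClosure F C)) (p f : ℕ)
      (σ : algebraicClosure F C ≃ₐ[F] algebraicClosure F C),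
      γ ∈ L.fixingSubgroup ∧ InD Q γ ∧
      (∀ z : algebraicClosure F C, γ z = σ z) ∧ p.Prime ∧ 0 < f ∧
      V.valuation (p : algebraicClosure F C) < 1 ∧
      V.valuation (ℓ : algebraicClosure F C) = 1 ∧ (∀ a ∈ S, V.valuation a = 1) ∧
      (∀ a c : algebraicClosure F C, V.valuation a < 1 → c ≠ 0 →
        ∃ N : ℕ, V.valuation (a ^ N) < V.valuation c) ∧
      (∀ z, σ z ∈ V ↔ z ∈ V) ∧ ∀ z ∈ V, V.valuation (σ z - z ^ p ^ f) < 1 := by
  classical
  have hQm : Q.IsMaximal := above_isMaximal hA
  let _ : Field (integralClosure O C ⧸ Q) := Ideal.Quotient.field Q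
  have hac : IsAlgClosed (integralClosure O C ⧸ Q) := isAlgClosed_quotient
  let _ : Algebra (IsLocalRing.ResidueField O) (integralClosure O C ⧸ Q) := (resHom hA).toAlgebra
  have hcomp0 : (algebraMap (IsLocalRing.ResidueField O) (integralClosure O C ⧸ Q)).comp
      (IsLocalRing.residue O) =
      (Ideal.Quotient.mk Q).comp (algebraMap O (integralClosure O C)) := rfl
  have hcomp : ∀ c : O, algebraMap (IsLocalRing.ResidueField O) (integralClosure O C ⧸ Q)
      (IsLocalRing.residue O c) = Ideal.Quotient.mk Q (algebraMap O (integralClosure O C) c) :=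
    fun _ => rfl
  have halg : Algebra.IsAlgebraic (IsLocalRing.ResidueField O) (integralClosure O C ⧸ Q) := by
    refine ⟨fun x => ?_⟩
    obtain ⟨b, rfl⟩ := Ideal.Quotient.mk_surjective x
    have h1 : IsIntegral O b := Algebra.IsIntegral.isIntegral b
    obtain ⟨g, hg, hgb⟩ := h1
    refine IsIntegral.isAlgebraic ⟨g.map (IsLocalRing.residue O), hg.map _, ?_⟩
    rw [eval₂_map, hcomp0, ← hom_eval₂, hgb, map_zero]
  have hcl : IsAlgClosure (IsLocalRing.ResidueField O) (integralClosure O C ⧸ Q) := ⟨hac, halg⟩
  have hc0 : CharZero (IsLocalRing.ResidueField O) := by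
    let f : F →+* O := (algebraMap F k).codRestrict O.toSubring hFO
    exact charZero_of_injective_ringHom ((IsLocalRing.residue O).comp f).injective
  -- the embedding of the algebraic closure of `F`
  have hB : ∀ z : algebraicClosure F C, IsIntegral O (z : C) := fun z =>
    integral_of_algF hFO (mem_algebraicClosure_iff.1 z.2)
  let j : algebraicClosure F C →+* integralClosure O C :=
    { toFun := fun z => ⟨z, hB z⟩
      map_one' := rfl
      map_mul' := fun _ _ => rfl
      map_zero' := rfl
      map_add' := fun _ _ => rfl }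
  let ι : algebraicClosure F C →+* integralClosure O C ⧸ Q := (Ideal.Quotient.mk Q).comp j
  have hιinj : Function.Injective ι := ι.injective
  have hfin : FiniteDimensional (IsLocalRing.ResidueField O)
      (resInt (Ideal.Quotient.mk Q) hcomp L) := finite_resInt _ hcomp L
  obtain ⟨O', p, f, σ', hp, hf, hp1, hℓ1, hS1, harch, hσO, hσ⟩ :=
    exists_rank_one_frob hres (resInt (Ideal.Quotient.mk Q) hcomp L) (S.image ι) (by
      intro a ha
      obtain ⟨z, hz, rfl⟩ := Finset.mem_image.1 ha
      intro h0
      exact hS z hz (hιinj (by rw [h0, map_zero]))) ℓ hℓ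
  have hLcl : IsClosed (L.fixingSubgroup : Set (C ≃ₐ[k] C)) :=
    InfiniteGalois.fixingSubgroup_isClosed L
  obtain ⟨γ, hγL, hγD, hγ⟩ := exists_lift L.fixingSubgroup hLcl Q
    (σ' : (integralClosure O C ⧸ Q) ≃+* (integralClosure O C ⧸ Q)) (by
      intro b hb
      have h1 : (b : C) ∈ L := by
        rw [← InfiniteGalois.fixedField_fixingSubgroup L, IntermediateField.mem_fixedField_iff]
        intro g hg
        exact congrArg Subtype.val (hb g hg)
      exact σ'.commutes ⟨Ideal.Quotient.mk Q b, (mem_resInt _ hcomp).2 ⟨b, h1, rfl⟩⟩)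
  have hgal : IsGalois F (algebraicClosure F C) := by
    have : IsAlgClosure F (algebraicClosure F C) := inferInstance
    exact IsAlgClosure.isGalois F (algebraicClosure F C)
  have hnorm : Normal F (algebraicClosure F C) := hgal.to_normal
  set σ : algebraicClosure F C ≃ₐ[F] algebraicClosure F C :=
    (γ.restrictScalars F).restrictNormal (algebraicClosure F C) with hσdef
  have hγσ : ∀ z : algebraicClosure F C, γ z = σ z := fun z =>
    ((γ.restrictScalars F).restrictNormal_commutes (algebraicClosure F C) z).symm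
  have hισ : ∀ z, ι (σ z) = σ' (ι z) := by
    intro z
    have h1 : j (σ z) = γ • j z := Subtype.ext (hγσ z).symm
    change Ideal.Quotient.mk Q (j (σ z)) = _
    rw [h1, hγ]
    rfl
  set V : ValuationSubring (algebraicClosure F C) := O'.comap ι with hV
  have hmem : ∀ z, z ∈ V ↔ ι z ∈ O' := fun z => Iff.rfl
  have heq : V.valuation.IsEquiv (O'.valuation.comap ι) := by
    rw [Valuation.isEquiv_iff_val_le_one]
    intro x
    rw [V.valuation_le_one_iff, Valuation.comap_apply, O'.valuation_le_one_iff, hmem]
  have hlt : ∀ a c, V.valuation a < V.valuation c ↔ O'.valuation (ι a) < O'.valuation (ι c) :=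
    fun a c => heq.lt_iff_lt
  have hlt1 : ∀ a, V.valuation a < 1 ↔ O'.valuation (ι a) < 1 := fun a => by
    have := hlt a 1
    rwa [map_one, map_one, map_one] at this
  have heq1 : ∀ a, V.valuation a = 1 ↔ O'.valuation (ι a) = 1 := fun a => heq.eq_one_iff_eq_one
  refine ⟨γ, V, p, f, σ, hγL, hγD, hγσ, hp, hf, ?_, ?_, ?_, ?_, ?_, ?_⟩
  · rw [hlt1, map_natCast]; exact hp1
  · rw [heq1, map_natCast]; exact hℓ1
  · intro a ha
    rw [heq1]
    exact hS1 _ (Finset.mem_image_of_mem _ ha)
  · intro a c ha hc
    obtain ⟨N, hN⟩ := harch (ι a) (ι c) ((hlt1 a).1 ha) (fun h0 => hc (hιinj (by rw [h0, map_zero])))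
    refine ⟨N, ?_⟩
    rw [hlt, map_pow]
    exact hN
  · intro z
    rw [hmem, hισ, hσO, hmem]
  · intro z hz
    rw [hlt1, map_sub, map_pow, hισ]
    exact hσ _ ((hmem z).1 hz)

end Main

end FR

open FL FR

/-- FR, form with `IC`. -/
theorem exists_frob_decomp_IC {F k K : Type u} [Field F] [CharZero F] [Field k] [Field K]
    [Algebra F k] [Algebra k K] [Algebra F K] [IsScalarTower F k K] (s : GaloisSection k K)
    {O : ValuationSubring k} (hFO : ∀ c : F, algebraMap F k c ∈ O)
    (hres : ∃ S : Finset (IsLocalRing.ResidueField O), Subfield.closure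
      (S : Set (IsLocalRing.ResidueField O)) = ⊤)
    (Q : IC O (kbar k K)) [Q.IsPrime] (hQ : Above Q)
    (A : Finset (Kur k K)) (S : Finset (algebraicClosure F (kbar k K))) (hS : ∀ a ∈ S, a ≠ 0)
    (ℓ : ℕ) (hℓ : 0 < ℓ) :
    ∃ (γ : Gk k K) (V : ValuationSubring (algebraicClosure F (kbar k K))) (p f : ℕ)
      (σ : algebraicClosure F (kbar k K) ≃ₐ[F] algebraicClosure F (kbar k K)),
      InD Q γ ∧ (∀ a ∈ A, s.toHom γ a = a) ∧
      (∀ z : algebraicClosure F (kbar k K), γ z = σ z) ∧ p.Prime ∧ 0 < f ∧
      V.valuation (p : algebraicClosure F (kbar k K)) < 1 ∧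
      V.valuation (ℓ : algebraicClosure F (kbar k K)) = 1 ∧ (∀ a ∈ S, V.valuation a = 1) ∧
      (∀ a c : algebraicClosure F (kbar k K), V.valuation a < 1 → c ≠ 0 →
        ∃ N : ℕ, V.valuation (a ^ N) < V.valuation c) ∧
      (∀ z, σ z ∈ V ↔ z ∈ V) ∧ ∀ z ∈ V, V.valuation (σ z - z ^ p ^ f) < 1 := by
  have hck : CharZero k := charZero_of_injective_algebraMap (algebraMap F k).injective
  obtain ⟨L, hL, hLfix⟩ := exists_finite_level_finset s A
  obtain ⟨γ, V, p, f, σ, hγL, hγD, h⟩ := exists_frob_gen hFO hres Q hQ L S hS ℓ hℓ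
  exact ⟨γ, V, p, f, σ, hγD, hLfix γ hγL, h⟩

/-- FR.  Frobenius elements in the decomposition group of any valuation ring `O` of `k` with finitely
generated residue field (general form of RK1 + FL). -/
theorem exists_frob_decomp {F k K : Type u} [Field F] [CharZero F] [Field k] [Field K]
    [Algebra F k] [Algebra k K] [Algebra F K] [IsScalarTower F k K] (s : GaloisSection k K)
    {O : ValuationSubring k} (hFO : ∀ c : F, algebraMap F k c ∈ O)
    (hres : ∃ S : Finset (IsLocalRing.ResidueField O), Subfield.closure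
      (S : Set (IsLocalRing.ResidueField O)) = ⊤)
    (Q : Ideal (integralClosure O (kbar k K))) [Q.IsPrime] (hQ : Above Q)
    (A : Finset (Kur k K)) (S : Finset (algebraicClosure F (kbar k K))) (hS : ∀ a ∈ S, a ≠ 0)
    (ℓ : ℕ) (hℓ : 0 < ℓ) :
    ∃ (γ : Gk k K) (V : ValuationSubring (algebraicClosure F (kbar k K))) (p f : ℕ)
      (σ : algebraicClosure F (kbar k K) ≃ₐ[F] algebraicClosure F (kbar k K)),
      InD Q γ ∧ (∀ a ∈ A, s.toHom γ a = a) ∧
      (∀ z : algebraicClosure F (kbar k K), γ z = σ z) ∧ p.Prime ∧ 0 < f ∧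
      V.valuation (p : algebraicClosure F (kbar k K)) < 1 ∧
      V.valuation (ℓ : algebraicClosure F (kbar k K)) = 1 ∧ (∀ a ∈ S, V.valuation a = 1) ∧
      (∀ a c : algebraicClosure F (kbar k K), V.valuation a < 1 → c ≠ 0 →
        ∃ N : ℕ, V.valuation (a ^ N) < V.valuation c) ∧
      (∀ z, σ z ∈ V ↔ z ∈ V) ∧ ∀ z ∈ V, V.valuation (σ z - z ^ p ^ f) < 1 := by
  have hQp : Q.IsPrime := inferInstance
  exact @exists_frob_decomp_IC F k K _ _ _ _ _ _ _ _ s O hFO hres Q hQp hQ A S hS ℓ hℓ

end Pool.Agent.SC
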