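import Pool.Agent.SC.Weights
import Pool.Agent.SC.Defs3
import Pool.Agent.SC.DefsH
import Pool.Agent.SC.FR

/-!
# The action of a section on `Kur0`: inertia acts trivially
-/

universe u

set_option linter.unusedSectionVars false

namespace Pool.Agent.SC

open VC IntermediateField Module Pool.Agent.Helper91.Sect

noncomputable section

section Act

variable {k K : Type u} [Field k] [Field K] [Algebra k K] {E : Type u} [Field E]
  [Algebra E (AlgebraicClosure K)] (s : GaloisSection k K)
  {U : IntermediateField E (AlgebraicClosure K)} (hle : ∀ z ∈ U, z ∈ Kur k K)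
  (hst : ∀ (γ : Gk k K) (w : Kur k K), (w : AlgebraicClosure K) ∈ U →
    (s.toHom γ w : AlgebraicClosure K) ∈ U)

/-- the action of `s γ` on `U` -/
def actFun (γ : Gk k K) (z : U) : U := ⟨s.toHom γ ⟨z, hle z z.2⟩, hst γ _ z.2⟩

theorem coe_actFun (γ : Gk k K) (z : U) :
    (actFun s hle hst γ z : AlgebraicClosure K) = s.toHom γ ⟨z, hle z z.2⟩ := rfl

theorem actFun_mul (γ γ' : Gk k K) (z : U) :
    actFun s hle hst (γ * γ') z = actFun s hle hst γ (actFun s hle hst γ' z) := by
  apply Subtype.ext
  rw [coe_actFun, coe_actFun, map_mul]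
  rfl

theorem actFun_one (z : U) : actFun s hle hst 1 z = z := by
  apply Subtype.ext
  rw [coe_actFun, map_one]
  rfl

/-- the action of the Galois group on `U` through the section -/
def act : Gk k K →* (U ≃+* U) where
  toFun γ :=
    { toFun := actFun s hle hst γ
      invFun := actFun s hle hst γ⁻¹
      left_inv := fun z => by rw [← actFun_mul, inv_mul_cancel, actFun_one]
      right_inv := fun z => by rw [← actFun_mul, mul_inv_cancel, actFun_one]
      map_mul' := fun a b => by
        apply Subtype.ext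
        have h1 : (⟨((a * b : U) : AlgebraicClosure K), hle _ (a * b).2⟩ : Kur k K) =
          ⟨a, hle a a.2⟩ * ⟨b, hle b b.2⟩ := rfl
        rw [coe_actFun, h1, map_mul]
        rfl
      map_add' := fun a b => by
        apply Subtype.ext
        have h1 : (⟨((a + b : U) : AlgebraicClosure K), hle _ (a + b).2⟩ : Kur k K) =
          ⟨a, hle a a.2⟩ + ⟨b, hle b b.2⟩ := rfl
        rw [coe_actFun, h1, map_add]
        rfl }
  map_one' := by
    apply RingEquiv.ext
    intro z
    exact actFun_one s hle hst z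
  map_mul' := fun γ γ' => by
    apply RingEquiv.ext
    intro z
    exact actFun_mul s hle hst γ γ' z

theorem coe_act (γ : Gk k K) (z : U) :
    (act s hle hst γ z : AlgebraicClosure K) = s.toHom γ ⟨z, hle z z.2⟩ := rfl

theorem act_symm (γ : Gk k K) : (act s hle hst γ).symm = act s hle hst γ⁻¹ := by
  rw [map_inv]; rfl

theorem act_pow_apply (γ : Gk k K) (i : ℕ) (z : U) :
    (((act s hle hst γ) ^ i) z : U) = act s hle hst (γ ^ i) z := by
  rw [map_pow]

end Act

section Decomp

variable {k C : Type u} [Field k] [Field C] [Algebra k C] {O : ValuationSubring k}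

/-- the decomposition group of `Q` -/
def decSub (Q : IC O C) : Subgroup (C ≃ₐ[k] C) where
  carrier := {γ | InD Q γ}
  mul_mem' := fun ha hb => InD.mul ha hb
  one_mem' := InD.one
  inv_mem' := fun ha => InD.inv ha

end Decomp

section Inertia

variable {k K : Type u} [Field k] [CharZero k] [Field K] [Algebra k K]
  {E : Type u} [Field E] [Algebra E (kbar k K)]
  [Algebra E (AlgebraicClosure K)] [IsScalarTower E (kbar k K) (AlgebraicClosure K)]
  (s : GaloisSection k K)

/-- The decomposition group of `Q` contains elements acting trivially (through `s`) on finitely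
many given elements and on `E` as the Frobenius of a rank one place at which finitely many given
constants are units. -/
def FrobAt (E : Type u) [Field E] [Algebra E (kbar k K)] {O : ValuationSubring k}
    (Q : IC O (kbar k K)) : Prop :=
  ∀ (A : Finset (Kur k K)) (S : Finset E), (∀ a ∈ S, a ≠ 0) →
    ∃ (γ : Gk k K) (V : ValuationSubring E) (σ : E ≃+* E) (p f : ℕ), InD Q γ ∧
      (∀ a ∈ A, s.toHom γ a = a) ∧ IsFrobAt V σ p f ∧
      (∀ c : E, γ (algebraMap E (kbar k K) c) = algebraMap E (kbar k K) (σ c)) ∧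
      ∀ a ∈ S, V.valuation a = 1

variable {U : IntermediateField E (AlgebraicClosure K)} (hle : ∀ z ∈ U, z ∈ Kur k K)
  (hst : ∀ (γ : Gk k K) (w : Kur k K), (w : AlgebraicClosure K) ∈ U →
    (s.toHom γ w : AlgebraicClosure K) ∈ U)

theorem act_const {γ : Gk k K} {c d : E}
    (hcd : γ (algebraMap E (kbar k K) c) = algebraMap E (kbar k K) d) :
    act s hle hst γ (algebraMap E U c) = algebraMap E U d := by
  apply Subtype.ext
  rw [coe_act]
  have h0 : ∀ c : E, ((algebraMap E U c : U) : AlgebraicClosure K) =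
      ((algebraMap E (kbar k K) c : kbar k K) : AlgebraicClosure K) := fun c =>
    IsScalarTower.algebraMap_apply E (kbar k K) (AlgebraicClosure K) c
  rw [s.isSection γ (algebraMap E (kbar k K) c) _ (h0 c), hcd, h0]

theorem hasFrob_act {O : ValuationSubring k} (Q : IC O (kbar k K)) (hQ : FrobAt s E Q) :
    HasFrob E ((decSub Q).map (act s hle hst)) := by
  classical
  intro Z S hS
  obtain ⟨γ, V, σ, p, f, hγ, hA, hF, hσ, hSV⟩ :=
    hQ (Z.image fun z : U => (⟨(z : AlgebraicClosure K), hle _ z.2⟩ : Kur k K)) S hS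
  refine ⟨act s hle hst γ, Subgroup.mem_map_of_mem _ hγ, fun z hz => ?_, V, σ, p, f, hF,
    fun c => act_const s hle hst (hσ c), hSV⟩
  apply Subtype.ext
  rw [coe_act]
  exact congrArg Subtype.val (hA _ (Finset.mem_image_of_mem _ hz))

theorem cyclRel_act [IsAlgClosed E] {O : ValuationSubring k} (Q : IC O (kbar k K)) [Q.IsPrime]
    (hres : ∀ n : ℕ, n ≠ 0 → (locW Q).valuation (n : kbar k K) = 1)
    {τ : Gk k K} (hτ : InI Q τ) :
    CyclRel ((decSub Q).map (act s hle hst)) (act s hle hst τ) := by
  rintro _ ⟨γ, hγ, rfl⟩ z M hM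
  obtain ⟨j, hj1, hj2⟩ := section_tame s Q hres hγ hτ ⟨z, hle _ z.2⟩ M hM
  refine ⟨j, fun ζ hζ => ?_, ?_⟩
  · obtain ⟨c, hc⟩ := exists_const_of_pow_eq_one (E := E) hM hζ
    have hc1 : (algebraMap E (kbar k K) c) ^ M = 1 := by
      have h2 : c ^ M = 1 := (algebraMap E U).injective (by rw [map_pow, hc, hζ, map_one])
      rw [← map_pow, h2, map_one]
    have h3 : γ (algebraMap E (kbar k K) c) = algebraMap E (kbar k K) (c ^ j) := by
      rw [hj1 _ hc1, map_pow]
    change act s hle hst γ ζ = ζ ^ j
    rw [← hc, act_const s hle hst h3, map_pow]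
  · rw [act_symm, act_pow_apply]
    apply Subtype.ext
    have h1 : act s hle hst γ (act s hle hst τ (act s hle hst γ⁻¹ z)) =
        act s hle hst (γ * τ * γ⁻¹) z := by
      rw [map_mul, map_mul]; rfl
    rw [h1, coe_act, coe_act, hj2, map_pow]

/-- **Inertia acts trivially.** -/
theorem act_inertia [IsAlgClosed E] [CharZero E] {M : IntermediateField E U} (hc : IsCover M)
    (hR : ∀ N : IntermediateField E U, IsFunctionField E N → Riemann E N ∧ PicDiv E N)
    {O : ValuationSubring k} (Q : IC O (kbar k K)) [Q.IsPrime]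
    (hres : ∀ n : ℕ, n ≠ 0 → (locW Q).valuation (n : kbar k K) = 1)
    (hQ : FrobAt s E Q) {τ : Gk k K} (hτ : InI Q τ)
    (hfix : ∀ m ∈ M, act s hle hst τ m = m) (z : U) : act s hle hst τ z = z :=
  weights hc hR hfix (cyclRel_act s hle hst Q hres hτ) (hasFrob_act s hle hst Q hQ) z

end Inertia

section FR

variable {F k K : Type u} [Field F] [CharZero F] [Field k] [Field K]
  [Algebra F k] [Algebra k K] [Algebra F K] [IsScalarTower F k K]

theorem frobAt_of_fg (s : GaloisSection k K) {O : ValuationSubring k}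
    (hFO : ∀ c : F, algebraMap F k c ∈ O)
    (hres : ∃ S : Finset (IsLocalRing.ResidueField O), Subfield.closure
      (S : Set (IsLocalRing.ResidueField O)) = ⊤)
    (Q : IC O (kbar k K)) [Q.IsPrime] (hQ : Above Q) :
    FrobAt s (algebraicClosure F (kbar k K)) Q := by
  intro A S hS
  obtain ⟨γ, V, p, f, σ, hγ, hA, hσ, hp, hf, hpV, -, hSV, hrk, hst', hfr⟩ :=
    exists_frob_decomp_IC s hFO hres Q hQ A S hS 1 one_pos
  refine ⟨γ, V, (σ : algebraicClosure F (kbar k K) ≃+* algebraicClosure F (kbar k K)), p, f, hγ, hA,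
    ⟨hp, hf, hrk, hpV, hst', hfr, ?_⟩, fun c => hσ c, hSV⟩
  intro z
  obtain ⟨m, hm, hmz⟩ := exists_autpow_fix σ (z := z) (Algebra.IsAlgebraic.isAlgebraic (R := F) z)
  refine ⟨m, hm, ?_⟩
  have h1 : ∀ i : ℕ, ((σ : algebraicClosure F (kbar k K) ≃+* algebraicClosure F (kbar k K)) :
      algebraicClosure F (kbar k K) → algebraicClosure F (kbar k K))^[i] z = (σ ^ i) z := by
    intro i
    induction i with
    | zero => rfl
    | succ i ih =>
      rw [Function.iterate_succ_apply', ih, pow_succ', AlgEquiv.mul_apply]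
      rfl
  rw [h1, hmz]

theorem residue_unit {O : ValuationSubring k}
    (hFO : ∀ c : F, algebraMap F k c ∈ O) [CharZero k] (Q : IC O (kbar k K)) [Q.IsPrime] :
    ∀ n : ℕ, n ≠ 0 → (locW Q).valuation (n : kbar k K) = 1 := by
  intro n hn
  refine val_algF (C := kbar k K) hFO Q (z := (n : kbar k K)) ?_ (by exact_mod_cast hn)
  have := isAlgebraic_algebraMap (A := kbar k K) (n : F)
  simpa using this

end FR

end

end Pool.Agent.SC
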