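import Pool.Agent.SC.T2

/-!
# From `Kur0` to `Kur`
-/

universe u

set_option linter.unusedSectionVars false

namespace Pool.Agent.SC

open VC IntermediateField Module Pool.Agent.Helper91.Sect

section Maps

variable {k K : Type u} [Field k] [CharZero k] [Field K] [Algebra k K]
  {E : Type u} [Field E] [Algebra E (kbar k K)]
  [Algebra E (AlgebraicClosure K)] [IsScalarTower E (kbar k K) (AlgebraicClosure K)]
  (s : GaloisSection k K)

theorem section_mem_Kur0 {M1 : IntermediateField E (AlgebraicClosure K)}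
    (hstab : ∀ ρ : AlgebraicClosure K ≃ₐ[K] AlgebraicClosure K, ∀ m ∈ M1, ρ m ∈ M1)
    (γ : Gk k K) (w : Kur k K) (hw : (w : AlgebraicClosure K) ∈ Kur0 k M1) :
    (s.toHom γ w : AlgebraicClosure K) ∈ Kur0 k M1 := by
  refine ⟨(s.toHom γ w).2, ?_⟩
  obtain ⟨ρ, hρ⟩ := exists_ext s γ
  rw [← hρ w]
  obtain ⟨p, hp0, hp⟩ := hw.2
  let f : M1 →+* M1 := ((ρ : AlgebraicClosure K →+* AlgebraicClosure K).comp
    (algebraMap M1 (AlgebraicClosure K))).codRestrict M1.toSubfield (fun m => hstab ρ m m.2)
  refine ⟨p.map f, (Polynomial.map_ne_zero_iff f.injective).2 hp0, ?_⟩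
  rw [Polynomial.aeval_def, Polynomial.eval₂_map]
  have h1 : (algebraMap M1 (AlgebraicClosure K)).comp f =
      (ρ : AlgebraicClosure K →+* AlgebraicClosure K).comp (algebraMap M1 (AlgebraicClosure K)) :=
    rfl
  rw [h1]
  have h2 := Polynomial.hom_eval₂ p (algebraMap M1 (AlgebraicClosure K))
    (ρ : AlgebraicClosure K →+* AlgebraicClosure K) (w : AlgebraicClosure K)
  have h3 : (ρ : AlgebraicClosure K →+* AlgebraicClosure K) (w : AlgebraicClosure K) =
    ρ (w : AlgebraicClosure K) := rfl
  rw [← h3, ← h2]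
  have h4 : Polynomial.eval₂ (algebraMap M1 (AlgebraicClosure K)) (w : AlgebraicClosure K) p = 0 :=
    hp
  rw [h4, map_zero]

/-- the restriction of an automorphism to the constants -/
noncomputable def resGk (ρ : AlgebraicClosure K ≃ₐ[K] AlgebraicClosure K) : Gk k K :=
  AlgEquiv.restrictNormal (AlgEquiv.restrictScalars k ρ) (kbar k K)

theorem resGk_apply (ρ : AlgebraicClosure K ≃ₐ[K] AlgebraicClosure K) (z : kbar k K) :
    ((resGk ρ : Gk k K) z : AlgebraicClosure K) = ρ z :=
  AlgEquiv.restrictNormal_commutes (AlgEquiv.restrictScalars k ρ) (kbar k K) z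

theorem section_eq_of_KK {γ : Gk k K} {ρ : AlgebraicClosure K ≃ₐ[K] AlgebraicClosure K}
    (h : ∀ z : kbar k K, (γ z : AlgebraicClosure K) = ρ z) {w : AlgebraicClosure K}
    (hw : w ∈ KK k K) : (s.toHom γ ⟨w, KK_le_Kur hw⟩ : AlgebraicClosure K) = ρ w := by
  obtain ⟨ρ', hρ'⟩ := exists_ext s γ
  rw [← hρ']
  have hc : ∀ z : kbar k K, ρ' z = ρ z := fun z => by rw [ext_const s hρ', h]
  let Eq : IntermediateField (kbar k K) (AlgebraicClosure K) :=
    { carrier := {x | ρ' x = ρ x}
      mul_mem' := fun {x y} hx hy => by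
        change ρ' (x * y) = ρ (x * y)
        rw [map_mul, map_mul, show ρ' x = ρ x from hx, show ρ' y = ρ y from hy]
      add_mem' := fun {x y} hx hy => by
        change ρ' (x + y) = ρ (x + y)
        rw [map_add, map_add, show ρ' x = ρ x from hx, show ρ' y = ρ y from hy]
      algebraMap_mem' := fun c => hc c
      inv_mem' := fun x hx => by
        change ρ' x⁻¹ = ρ x⁻¹
        rw [map_inv₀, map_inv₀, show ρ' x = ρ x from hx] }
  have h1 : KK k K ≤ Eq := by
    refine IntermediateField.adjoin_le_iff.2 ?_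
    rintro _ ⟨c, rfl⟩
    change ρ' _ = ρ _
    rw [AlgEquiv.commutes, AlgEquiv.commutes]
  exact h1 hw

end Maps

section Residue

variable {E U : Type u} [Field E] [IsAlgClosed E] [Field U] [Algebra E U]
  {M : IntermediateField E U}

theorem val_lt_one_iff_or {F : Type*} [Field F] (V : ValuationSubring F) (x : F) :
    V.valuation x < 1 ↔ x = 0 ∨ x⁻¹ ∉ V := by
  rw [← ValuationSubring.mem_nonunits_iff, ValuationSubring.mem_nonunits_iff_or]

/-- The residue field of a place of a cover is `E`. -/
theorem exists_res_cover (hc : IsCover M) (W : ValuationSubring U)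
    (hE : ∀ c : E, algebraMap E U c ∈ W) (hWt : W ≠ ⊤) {u : U} (hu : u ∈ W) :
    ∃ c : E, W.valuation (u - algebraMap E U c) < 1 := by
  have := hc.gal
  let N' : IntermediateField M U := M⟮u⟯
  have hfin : FiniteDimensional M N' := IntermediateField.adjoin.finiteDimensional
    (Algebra.IsIntegral.isIntegral _)
  let N : IntermediateField E U := N'.restrictScalars E
  have hN : IsFunctionField E N := by
    have h1 : IsFunctionField E N' := isFunctionField_of_finite8 (M := M) hc.ff
    exact h1
  let R : ValuationSubring N := W.comap (algebraMap N U)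
  have hRt : R ≠ ⊤ := by
    intro h
    apply hWt
    rw [eq_top_iff]
    intro y _
    have h1 : IsIntegral M y := Algebra.IsIntegral.isIntegral y
    obtain ⟨p, hp, hp0⟩ := h1
    have hmem : ∀ c : M, (c : U) ∈ W := by
      intro c
      have : (⟨c, N'.algebraMap_mem c⟩ : N) ∈ R := by rw [h]; trivial
      exact this
    let f : M →+* W := (algebraMap M U).codRestrict W.toSubring hmem
    have h2 : IsIntegral W y := by
      refine ⟨p.map f, hp.map f, ?_⟩
      rw [Polynomial.eval₂_map]
      exact hp0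
    obtain ⟨w, hw⟩ := IsIntegrallyClosed.algebraMap_eq_of_integral h2
    rw [← hw]
    exact w.2
  let P : Place E N :=
    { ring := R
      algebraMap_mem := fun c => hE c
      ne_top := hRt }
  let u' : N := ⟨u, IntermediateField.mem_adjoin_simple_self M u⟩
  have hu' : u' ∈ P.ring := hu
  obtain ⟨c, hc'⟩ := FF.exists_residue hN P hu'
  refine ⟨c, ?_⟩
  rw [val_lt_one_iff_or]
  rcases (ValuationSubring.mem_nonunits_iff_or _).1 hc' with h1 | h1
  · left
    exact congrArg Subtype.val h1
  · right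
    exact h1

end Residue

section Extension

variable {k K : Type u} [Field k] [CharZero k] [Field K] [Algebra k K]
  {E : Type u} [Field E] [IsAlgClosed E] [CharZero E] [Algebra E (kbar k K)]
  [Algebra E (AlgebraicClosure K)] [IsScalarTower E (kbar k K) (AlgebraicClosure K)]
  (s : GaloisSection k K)

/-- A place of `Kur0` extends to a place of `Kur` which is stable under every `s γ` stabilising the
given place. -/
theorem exists_stable_ext_of {M1 : IntermediateField E (AlgebraicClosure K)} {ι : Type u}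
    {x : ι → kbar k K} (h : Isotrivial k K M1 x) (hle : ∀ z ∈ Kur0 k M1, z ∈ Kur k K)
    (hst : ∀ (γ : Gk k K) (w : Kur k K), (w : AlgebraicClosure K) ∈ Kur0 k M1 →
      (s.toHom γ w : AlgebraicClosure K) ∈ Kur0 k M1)
    {W : ValuationSubring (Kur0 k M1)} (hWE : ∀ c : E, algebraMap E (Kur0 k M1) c ∈ W)
    (hWt : W ≠ ⊤) :
    ∃ V : ValuationSubring (Kur k K), V ≠ ⊤ ∧ (∀ c : kbar k K, toKur k K c ∈ V) ∧
      ∀ γ : Gk k K, (∀ z : Kur0 k M1, act s hle hst γ z ∈ W ↔ z ∈ W) →
        ∀ w : Kur k K, s.toHom γ w ∈ V ↔ w ∈ V := by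
  let jU : Kur0 k M1 →+* Kur k K :=
    { toFun := fun z => ⟨z, hle _ z.2⟩
      map_one' := rfl
      map_mul' := fun _ _ => rfl
      map_zero' := rfl
      map_add' := fun _ _ => rfl }
  let iA : Algebra (kbar k K) (Kur k K) := (toKur k K).toAlgebra
  let iU : Algebra (Kur0 k M1) (Kur k K) := jU.toAlgebra
  let iE : Algebra E (Kur k K) := ((toKur k K).comp (algebraMap E (kbar k K))).toAlgebra
  have t1 : IsScalarTower E (kbar k K) (Kur k K) := IsScalarTower.of_algebraMap_eq fun c => rfl
  have t2 : IsScalarTower E (Kur0 k M1) (Kur k K) := IsScalarTower.of_algebraMap_eq fun c => by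
    apply Subtype.ext
    exact (IsScalarTower.algebraMap_apply E (kbar k K) (AlgebraicClosure K) c).symm
  have t3 : IsScalarTower (Kur0 k M1) (Kur k K) (AlgebraicClosure K) :=
    IsScalarTower.of_algebraMap_eq fun c => rfl
  have hx : AlgebraicIndependent (Kur0 k M1) (fun i => algebraMap (kbar k K) (Kur k K) (x i)) := by
    have h1 := algebraicIndependent_Kur0 h
    let f : Kur k K →ₐ[Kur0 k M1] AlgebraicClosure K := IsScalarTower.toAlgHom _ _ _
    exact (AlgHom.algebraicIndependent_iff f (Subtype.val_injective)).1 h1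
  obtain ⟨V, hVA, hVW⟩ := exists_ext_val (E := E) (A := kbar k K) (U := Kur0 k M1) (L := Kur k K) x
    hx h.alg W hWE
  have hVt : V ≠ ⊤ := by
    rintro h1
    apply hWt
    rw [eq_top_iff]
    intro z _
    rw [← hVW, h1]
    trivial
  have hL : IntermediateField.adjoin (kbar k K) (Set.range (algebraMap (Kur0 k M1) (Kur k K))) =
      ⊤ := by
    rw [eq_top_iff]
    intro w _
    have h1 := mem_adjoin_of_mem_Kur h w.2
    let t : Kur k K →ₐ[kbar k K] AlgebraicClosure K :=
      { (algebraMap (Kur k K) (AlgebraicClosure K)) with commutes' := fun c => rfl }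
    have h2 : (IntermediateField.adjoin (kbar k K)
        (Set.range (algebraMap (Kur0 k M1) (Kur k K)))).map t =
        IntermediateField.adjoin (kbar k K) (Kur0 k M1 : Set (AlgebraicClosure K)) := by
      rw [IntermediateField.adjoin_map]
      congr 1
      ext z
      constructor
      · rintro ⟨_, ⟨y, rfl⟩, rfl⟩
        exact y.2
      · intro hz
        exact ⟨_, ⟨⟨z, hz⟩, rfl⟩, rfl⟩
    rw [← h2] at h1
    obtain ⟨y, hy, hyw⟩ := h1
    have h3 : y = w := Subtype.ext hyw
    rw [← h3]
    exact hy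
  have hres : ∀ u : Kur0 k M1, algebraMap (Kur0 k M1) (Kur k K) u ∈ V →
      ∃ c : E, V.valuation (algebraMap (Kur0 k M1) (Kur k K)
        (u - algebraMap E (Kur0 k M1) c)) < 1 := by
    intro u hu
    obtain ⟨c, hc⟩ := exists_res_cover (isCover_Kur0 h) W hWE hWt ((hVW u).1 hu)
    refine ⟨c, ?_⟩
    rw [val_lt_one_iff_or] at hc ⊢
    rcases hc with hc | hc
    · left
      rw [hc, map_zero]
    · right
      rw [← map_inv₀, hVW]
      exact hc
  refine ⟨V, hVt, hVA, fun γ hWs w => ?_⟩
  let V' : ValuationSubring (Kur k K) := V.comap ((s.toHom γ : Kur k K →ₐ[K] Kur k K) : Kur k K →+* Kur k K)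
  have hV' : ∀ z, z ∈ V' ↔ s.toHom γ z ∈ V := fun z => Iff.rfl
  have h1 : V = V' := by
    refine ext_unique (E := E) (A := kbar k K) (U := Kur0 k M1) hL hVA (fun a => ?_) hres
      (fun u => ?_)
    · rw [hV']
      change s.toHom γ (toKur k K a) ∈ V
      rw [section_toKur]
      exact hVA _
    · rw [hV', hVW]
      have h2 : s.toHom γ (algebraMap (Kur0 k M1) (Kur k K) u) =
          algebraMap (Kur0 k M1) (Kur k K) (act s hle hst γ u) := rfl
      rw [h2, hVW, hWs]
  rw [← hV', ← h1]

/-- A place of `Kur0` stable under the section extends to a stable place of `Kur`. -/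
theorem exists_stable_ext {M1 : IntermediateField E (AlgebraicClosure K)} {ι : Type u}
    {x : ι → kbar k K} (h : Isotrivial k K M1 x) (hle : ∀ z ∈ Kur0 k M1, z ∈ Kur k K)
    (hst : ∀ (γ : Gk k K) (w : Kur k K), (w : AlgebraicClosure K) ∈ Kur0 k M1 →
      (s.toHom γ w : AlgebraicClosure K) ∈ Kur0 k M1)
    {W : ValuationSubring (Kur0 k M1)} (hWE : ∀ c : E, algebraMap E (Kur0 k M1) c ∈ W)
    (hWt : W ≠ ⊤) (hWs : ∀ (γ : Gk k K) (z : Kur0 k M1), act s hle hst γ z ∈ W ↔ z ∈ W) :
    ∃ V : ValuationSubring (Kur k K), V ≠ ⊤ ∧ (∀ c : kbar k K, toKur k K c ∈ V) ∧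
      ∀ (γ : Gk k K) (w : Kur k K), s.toHom γ w ∈ V ↔ w ∈ V := by
  obtain ⟨V, h1, h2, h3⟩ := exists_stable_ext_of s h hle hst hWE hWt
  exact ⟨V, h1, h2, fun γ => h3 γ (hWs γ)⟩

/-- The residues of elements of `K` at a place of `Kur` are constants fixed by every `γ` such that
`s γ` stabilises the place. -/
theorem exists_residue_fixed (hK : IsFunctionField k K) {V : ValuationSubring (Kur k K)}
    (hVt : V ≠ ⊤) (hVA : ∀ c : kbar k K, toKur k K c ∈ V) {z : K}
    (hz : algebraMap K (Kur k K) z ∈ V) :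
    ∃ c : kbar k K, V.valuation (algebraMap K (Kur k K) z - toKur k K c) < 1 ∧
      ∀ γ : Gk k K, (∀ w : Kur k K, s.toHom γ w ∈ V ↔ w ∈ V) → γ c = c := by
  obtain ⟨B, hB⟩ := exists_comap_eq (algebraMap (Kur k K) (AlgebraicClosure K)) V
  have hBt : B ≠ ⊤ := by
    rintro h
    apply hVt
    rw [eq_top_iff]
    intro y _
    rw [← hB, h]
    trivial
  have hBk : ∀ c : k, algebraMap k (AlgebraicClosure K) c ∈ B := by
    intro c
    have h1 := (hB (toKur k K (algebraMap k (kbar k K) c))).2 (hVA _)
    exact h1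
  obtain ⟨c, hc⟩ := exists_const_residue hK B hBk hBt (z := algebraMap K (AlgebraicClosure K) z)
    ((hB (algebraMap K (Kur k K) z)).2 hz)
  have hc' : V.valuation (algebraMap K (Kur k K) z - toKur k K c) < 1 := by
    rw [val_lt_one_iff_or] at hc ⊢
    rcases hc with hc | hc
    · left
      apply Subtype.ext
      exact hc
    · right
      rw [← hB]
      exact hc
  refine ⟨c, hc', ?_⟩
  -- `c` is fixed
  · intro γ hVs
    by_contra hne
    have h1 : V.valuation (algebraMap K (Kur k K) z - toKur k K (γ c)) < 1 := by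
      have h2 : s.toHom γ (algebraMap K (Kur k K) z - toKur k K c) =
          algebraMap K (Kur k K) z - toKur k K (γ c) := by
        rw [map_sub, AlgEquiv.commutes, section_toKur]
      rw [← h2]
      rw [val_lt_one_iff_or] at hc' ⊢
      rcases hc' with h3 | h3
      · left
        rw [h3, map_zero]
      · right
        rw [← map_inv₀, hVs]
        exact h3
    have h4 : V.valuation (toKur k K (γ c - c)) < 1 := by
      have h5 : toKur k K (γ c - c) = (algebraMap K (Kur k K) z - toKur k K c) -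
          (algebraMap K (Kur k K) z - toKur k K (γ c)) := by
        rw [map_sub]; ring
      rw [h5]
      exact V.valuation.map_sub_lt hc' h1
    rw [val_lt_one_iff_or] at h4
    rcases h4 with h4 | h4
    · rw [map_eq_zero] at h4
      exact hne (sub_eq_zero.1 h4)
    · apply h4
      rw [← map_inv₀]
      exact hVA _

/-- The stable place lies over a rational place. -/
theorem exists_rational_residue (hK : IsFunctionField k K) {V : ValuationSubring (Kur k K)}
    (hVt : V ≠ ⊤) (hVA : ∀ c : kbar k K, toKur k K c ∈ V)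
    (hVs : ∀ (γ : Gk k K) (w : Kur k K), s.toHom γ w ∈ V ↔ w ∈ V) {z : K}
    (hz : algebraMap K (Kur k K) z ∈ V) :
    ∃ c : k, V.valuation (algebraMap K (Kur k K) (z - algebraMap k K c)) < 1 := by
  obtain ⟨c, hc', hfix⟩ := exists_residue_fixed s hK hVt hVA hz
  replace hfix : ∀ γ : Gk k K, γ c = c := fun γ => hfix γ (hVs γ)
  obtain ⟨d, hd⟩ := (InfiniteGalois.mem_range_algebraMap_iff_fixed (k := k) c).2 hfix
  refine ⟨d, ?_⟩
  have h6 : algebraMap K (Kur k K) (z - algebraMap k K d) =
      algebraMap K (Kur k K) z - toKur k K c := by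
    rw [map_sub]
    congr 1
    rw [← hd]
    rfl
  rw [h6]
  exact hc'

end Extension

end Pool.Agent.SC
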