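import Pool.Agent.SC.R6core
import Pool.Agent.SC.R4b

/-!
# R6: finitely many Frobenius-invariant classes on the reduction
-/

universe u v

namespace Pool.Agent.SC

open Module

variable {k : Type u} {B : Type v} [Field k] [CommRing B] [IsDomain B] [Algebra k B]
  {O : ValuationSubring k} {deg : B → ℕ} {E : Basis (degSet deg) k B}

variable [IsAlgClosed k] [IsDedekindDomain B] (h : OnePt k B deg) (hE : IntBasis O deg E)
  [IsDedekindDomain (Bbar h hE)]

/-- R6.  Finitely many Frobenius-invariant classes on the reduction. -/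
theorem finite_frob {γ : B ≃+* B} {σ : k ≃+* k} {p f : ℕ} (hp : p.Prime) (hf : 0 < f)
    (hγσ : ∀ c, γ (algebraMap k B c) = algebraMap k B (σ c)) (hγE : ∀ m, γ (E m) = E m)
    (hpO : O.valuation (p : k) < 1) (hσO : ∀ z, σ z ∈ O ↔ z ∈ O)
    (hfrob : ∀ z ∈ O, O.valuation (σ z - z ^ p ^ f) < 1) :
    ∃ M : ℕ, ∀ I : Fin (M + 1) → Ideal B, (∀ i, I i ≠ ⊥) →
      (∀ i, SameClass (I i) ((I i).map (γ : B →+* B))) →
      ∃ i j, i ≠ j ∧ SameClass (redI h hE (I i)) (redI h hE (I j)) :=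
  finite_frob_core h hE (fun _ _ hI hJ => redI_mul h hE hI hJ) (fun _ hf => redI_span h hE hf)
    (fun _ hI => redI_ne_bot h hE hI) hp hf hγσ hγE hσO hfrob

end Pool.Agent.SC
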