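import Mathlib
import Pool.Agent.SC.Defs

/-!
# Block R7 (core): coinvariants of Frobenius vanish on `ℓ`-power torsion

The statements of R4b, R5, R6 enter as hypotheses; `R7.lean` plugs them in.
-/

universe u v

namespace Pool.Agent.SC.R7

open Module
open scoped nonZeroDivisors

/-! ### An abstract lemma on abelian groups -/

theorem coinv_group {C : Type*} [CommGroup C] (g : C →* C) {ℓ : ℕ} (hℓ : ℓ.Prime) {M : ℕ}
    (hM : ∀ f : Fin (M + 1) → C, (∀ i, (∃ m, f i ^ ℓ ^ m = 1) ∧ g (f i) = f i) →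
      ∃ i j, i ≠ j ∧ f i = f j)
    {c : C} (hc : ∃ m, c ^ ℓ ^ m = 1) (horb : ∃ n, 0 < n ∧ (g^[n]) c = c) {b : ℕ}
    (hb : M ≤ ℓ ^ b) :
    ∃ d : C, (∃ m, d ^ ℓ ^ m = 1) ∧ d * c ^ ℓ ^ b = g d := by
  classical
  obtain ⟨n, hn, hnc⟩ := horb
  obtain ⟨m, hm⟩ := hc
  let S : Finset C := (Finset.range n).image (fun i => g^[i] c)
  let T : Subgroup C := Subgroup.closure (S : Set C)
  have hcS : c ∈ S := Finset.mem_image.2 ⟨0, Finset.mem_range.2 hn, rfl⟩
  have hcT : c ∈ T := Subgroup.subset_closure hcS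
  have hiter : ∀ i, (g^[i] c) ^ ℓ ^ m = 1 := by
    intro i
    induction i with
    | zero => exact hm
    | succ i ih => rw [Function.iterate_succ_apply', ← map_pow, ih, map_one]
  have hTpow : ∀ x ∈ T, x ^ ℓ ^ m = 1 := by
    intro x hx
    induction hx using Subgroup.closure_induction with
    | mem x hx =>
      obtain ⟨i, -, rfl⟩ := Finset.mem_image.1 hx
      exact hiter i
    | one => exact one_pow _
    | mul x y _ _ hx hy => rw [mul_pow, hx, hy, one_mul]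
    | inv x _ hx => rw [inv_pow, hx, inv_one]
  have hgT : ∀ x ∈ T, g x ∈ T := by
    intro x hx
    induction hx using Subgroup.closure_induction with
    | mem x hx =>
      obtain ⟨i, hi, rfl⟩ := Finset.mem_image.1 hx
      have hi' := Finset.mem_range.1 hi
      rw [← Function.iterate_succ_apply' g]
      rcases Nat.lt_or_ge (i + 1) n with h1 | h1
      · exact Subgroup.subset_closure (Finset.mem_image.2 ⟨i + 1, Finset.mem_range.2 h1, rfl⟩)
      · have h2 : i.succ = n := by omega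
        rw [h2, hnc]
        exact hcT
    | one => rw [map_one]; exact T.one_mem
    | mul x y _ _ hx hy => rw [map_mul]; exact T.mul_mem hx hy
    | inv x _ hx => rw [map_inv]; exact T.inv_mem hx
  have hfg : Group.FG T := by
    rw [Group.fg_iff_subgroup_fg]
    exact ⟨S, rfl⟩
  have htor : IsMulTorsion T := by
    intro x
    rw [isOfFinOrder_iff_pow_eq_one]
    exact ⟨ℓ ^ m, pow_pos hℓ.pos _, Subtype.ext (hTpow x x.2)⟩
  have hfin : Finite T := CommGroup.finite_of_fg_isMulTorsion T htor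
  have hpT : IsPGroup ℓ T := fun x => ⟨m, Subtype.ext (hTpow x x.2)⟩
  let g0 : T →* T := (g.comp T.subtype).codRestrict T fun x => hgT x x.2
  let φ : T →* T := g0 / MonoidHom.id T
  have hφ : ∀ x : T, φ x = g0 x / x := fun x => rfl
  have : Fact ℓ.Prime := ⟨hℓ⟩
  obtain ⟨j, hj⟩ := (IsPGroup.iff_card (p := ℓ) (G := φ.ker)).1 (hpT.to_subgroup φ.ker)
  have hidx : φ.range.index = Nat.card φ.ker := by
    have h1 := Subgroup.card_mul_index φ.ker
    have h2 := Subgroup.card_mul_index φ.range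
    rw [Subgroup.index_ker] at h1
    have h3 : 0 < Nat.card φ.range := Nat.card_pos
    have h4 : Nat.card φ.range * φ.range.index = Nat.card φ.range * Nat.card φ.ker := by
      rw [h2, ← h1, mul_comm]
    exact Nat.eq_of_mul_eq_mul_left h3 h4
  have hle : Nat.card φ.ker ≤ M := by
    by_contra hlt
    push Not at hlt
    have : Fintype φ.ker := Fintype.ofFinite _
    have h1 : Fintype.card (Fin (M + 1)) ≤ Fintype.card φ.ker := by
      rw [Fintype.card_fin, ← Nat.card_eq_fintype_card]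
      omega
    obtain ⟨e⟩ := Function.Embedding.nonempty_of_card_le h1
    obtain ⟨i, i', hne, heq⟩ := hM (fun i => ((e i : T) : C)) fun i => by
      refine ⟨⟨m, hTpow _ (e i : T).2⟩, ?_⟩
      have h2 : φ (e i : T) = 1 := (e i).2
      rw [hφ, div_eq_one] at h2
      exact congrArg Subtype.val h2
    exact hne (e.injective (Subtype.ext (Subtype.ext heq)))
  have hjb : j ≤ b := by
    rw [hj] at hle
    exact (Nat.pow_le_pow_iff_right hℓ.one_lt).1 (hle.trans hb)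
  have hmem : (⟨c, hcT⟩ : T) ^ ℓ ^ b ∈ φ.range := by
    have h1 := Subgroup.pow_index_mem φ.range (⟨c, hcT⟩ : T)
    rw [hidx, hj] at h1
    have h2 : ℓ ^ b = ℓ ^ j * ℓ ^ (b - j) := by rw [← pow_add]; congr 1; omega
    rw [h2, pow_mul]
    exact Subgroup.pow_mem _ h1 _
  obtain ⟨d, hd⟩ := hmem
  refine ⟨d, ⟨m, hTpow d d.2⟩, ?_⟩
  rw [hφ, div_eq_iff_eq_mul] at hd
  have h3 := congrArg Subtype.val hd
  have h4 : g (d : C) = c ^ ℓ ^ b * d := h3
  rw [h4, mul_comm]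

/-! ### Classes of ideals -/

section Classes

variable {B : Type v} [CommRing B] [IsDomain B] [IsDedekindDomain B]

theorem mem_nz {I : Ideal B} (hI : I ≠ ⊥) : I ∈ (Ideal B)⁰ :=
  mem_nonZeroDivisors_iff_ne_zero.2 hI

/-- The class of a nonzero ideal. -/
noncomputable def cl (I : Ideal B) (hI : I ≠ ⊥) : ClassGroup B := ClassGroup.mk0 ⟨I, mem_nz hI⟩

theorem cl_eq_iff {I J : Ideal B} (hI : I ≠ ⊥) (hJ : J ≠ ⊥) :
    cl I hI = cl J hJ ↔ SameClass I J := by
  unfold cl SameClass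
  rw [ClassGroup.mk0_eq_mk0_iff]
  constructor
  · rintro ⟨a, b, ha, hb, h⟩; exact ⟨a, b, ha, hb, h⟩
  · rintro ⟨a, b, ha, hb, h⟩; exact ⟨a, b, ha, hb, h⟩

theorem cl_eq_one_iff {I : Ideal B} (hI : I ≠ ⊥) : cl I hI = 1 ↔ I.IsPrincipal :=
  ClassGroup.mk0_eq_one_iff (mem_nz hI)

theorem cl_mul {I J : Ideal B} (hI : I ≠ ⊥) (hJ : J ≠ ⊥) (hIJ : I * J ≠ ⊥) :
    cl (I * J) hIJ = cl I hI * cl J hJ := by
  unfold cl
  rw [← map_mul]
  rfl

theorem cl_pow {I : Ideal B} (hI : I ≠ ⊥) (n : ℕ) (hn : I ^ n ≠ ⊥) :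
    cl (I ^ n) hn = cl I hI ^ n := by
  unfold cl
  rw [← map_pow]
  rfl

theorem exists_cl (c : ClassGroup B) : ∃ (I : Ideal B) (hI : I ≠ ⊥), cl I hI = c := by
  obtain ⟨⟨I, hI⟩, h⟩ := ClassGroup.mk0_surjective c
  exact ⟨I, mem_nonZeroDivisors_iff_ne_zero.1 hI, h⟩

theorem map_ne_bot {γ : B ≃+* B} {I : Ideal B} (hI : I ≠ ⊥) : I.map (γ : B →+* B) ≠ ⊥ := by
  rw [Ne, Ideal.map_eq_bot_iff_of_injective (f := (γ : B →+* B)) γ.injective]
  exact hI

theorem sameClass_map {I J : Ideal B} (h : SameClass I J) (γ : B ≃+* B) :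
    SameClass (I.map (γ : B →+* B)) (J.map (γ : B →+* B)) := by
  obtain ⟨a, b, ha, hb, hab⟩ := h
  refine ⟨γ a, γ b, by simpa using ha, by simpa using hb, ?_⟩
  have h1 := congrArg (Ideal.map (γ : B →+* B)) hab
  rw [Ideal.map_mul, Ideal.map_mul, Ideal.map_span, Ideal.map_span, Set.image_singleton,
    Set.image_singleton] at h1
  exact h1

theorem exists_clMap (γ : B ≃+* B) : ∃ g : ClassGroup B →* ClassGroup B,
    ∀ (I : Ideal B) (hI : I ≠ ⊥), g (cl I hI) = cl (I.map (γ : B →+* B)) (map_ne_bot hI) := by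
  classical
  choose rep hrep hrep' using (exists_cl (B := B))
  let f : ClassGroup B → ClassGroup B := fun c =>
    cl ((rep c).map (γ : B →+* B)) (map_ne_bot (hrep c))
  have hf : ∀ (I : Ideal B) (hI : I ≠ ⊥), f (cl I hI) = cl (I.map (γ : B →+* B)) (map_ne_bot hI) := by
    intro I hI
    have h1 := hrep' (cl I hI)
    rw [cl_eq_iff] at h1
    change cl _ _ = _
    rw [cl_eq_iff]
    exact sameClass_map h1 γ
  have hfm : ∀ a b, f (a * b) = f a * f b := by
    intro a b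
    obtain ⟨I, hI, rfl⟩ := exists_cl a
    obtain ⟨J, hJ, rfl⟩ := exists_cl b
    have hIJ : I * J ≠ ⊥ := mul_ne_zero hI hJ
    rw [← cl_mul hI hJ hIJ, hf, hf, hf, ← cl_mul _ _ (mul_ne_zero (map_ne_bot hI) (map_ne_bot hJ)),
      cl_eq_iff, Ideal.map_mul]
    exact ⟨1, 1, one_ne_zero, one_ne_zero, rfl⟩
  refine ⟨MonoidHom.mk' f hfm, fun I hI => hf I hI⟩

end Classes

/-! ### Reduction and classes -/

section Red

variable {k : Type u} {B : Type v} [Field k] [CommRing B] [IsDomain B] [Algebra k B]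
  {O : ValuationSubring k} {deg : B → ℕ} {E : Basis (degSet deg) k B}

/-- Every principal ideal has a primitive integral generator. -/
theorem exists_primitive (h : OnePt k B deg) (hE : IntBasis O deg E) {x : B} (hx : x ≠ 0) :
    ∃ f : BO h hE, f ∉ mB h hE ∧ Ideal.span {(f : B)} = Ideal.span {x} := by
  classical
  have hne : (E.repr x).support.Nonempty := by
    rw [Finsupp.support_nonempty_iff]
    simpa using hx
  obtain ⟨i, hi, hmax⟩ := Finset.exists_max_image (E.repr x).support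
    (fun i => O.valuation (E.repr x i)) hne
  have hi0 : E.repr x i ≠ 0 := Finsupp.mem_support_iff.1 hi
  have hv0 : O.valuation (E.repr x i) ≠ 0 := by simpa using hi0
  have hmem : (E.repr x i)⁻¹ • x ∈ BO h hE := by
    intro j
    rw [map_smul, Finsupp.smul_apply, smul_eq_mul]
    rw [← O.valuation_le_one_iff, map_mul, map_inv₀]
    by_cases hj : j ∈ (E.repr x).support
    · have h1 := hmax j hj
      calc (O.valuation (E.repr x i))⁻¹ * O.valuation (E.repr x j)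
          ≤ (O.valuation (E.repr x i))⁻¹ * O.valuation (E.repr x i) := by gcongr
        _ = 1 := inv_mul_cancel₀ hv0
    · rw [Finsupp.notMem_support_iff.1 hj, map_zero, mul_zero]
      exact zero_le'
  refine ⟨⟨_, hmem⟩, ?_, ?_⟩
  · intro hm
    have h1 := hm i
    change O.valuation (E.repr ((E.repr x i)⁻¹ • x) i) < 1 at h1
    rw [map_smul, Finsupp.smul_apply, smul_eq_mul, inv_mul_cancel₀ hi0, map_one] at h1
    exact lt_irrefl _ h1
  · change Ideal.span {(E.repr x i)⁻¹ • x} = _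
    rw [Algebra.smul_def]
    exact Ideal.span_singleton_mul_left_unit
      ((IsUnit.mk0 _ (inv_ne_zero hi0)).map (algebraMap k B)) x

variable [IsAlgClosed k] [IsDedekindDomain B] (h : OnePt k B deg) (hE : IntBasis O deg E)
  [IsDedekindDomain (Bbar h hE)]

/-- The properties of the reduction of ideals (blocks R4b and R5) that are used. -/
structure RedProps (ℓ : ℕ) : Prop where
  mul : ∀ {I J : Ideal B}, I ≠ ⊥ → J ≠ ⊥ → redI h hE (I * J) = redI h hE I * redI h hE J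
  ne_bot : ∀ {I : Ideal B}, I ≠ ⊥ → redI h hE I ≠ ⊥
  span : ∀ {f : BO h hE}, f ∉ mB h hE →
    redI h hE (Ideal.span {(f : B)}) = Ideal.span {Ideal.Quotient.mk (mB h hE) f}
  red : ∀ {I : Ideal B}, I ≠ ⊥ → (I ^ ℓ).IsPrincipal → (redI h hE I).IsPrincipal →
    I.IsPrincipal

variable {h hE}

theorem redI_pow_succ {ℓ : ℕ} (R : RedProps h hE ℓ) {I : Ideal B} (hI : I ≠ ⊥) (n : ℕ) :
    redI h hE (I ^ (n + 1)) = redI h hE I ^ (n + 1) := by
  induction n with
  | zero =>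
    rw [zero_add, pow_one]
    exact (Submodule.pow_one _).symm
  | succ n ih =>
    rw [pow_succ, R.mul (pow_ne_zero _ hI) hI, ih]
    rfl

theorem redI_isPrincipal {ℓ : ℕ} (R : RedProps h hE ℓ) {I : Ideal B} (hI : I ≠ ⊥) (hP : I.IsPrincipal) :
    (redI h hE I).IsPrincipal := by
  obtain ⟨x, hx⟩ := hP
  have hx0 : x ≠ 0 := by
    rintro rfl
    apply hI
    rw [hx]
    exact Submodule.span_zero_singleton B
  obtain ⟨f, hf, hfx⟩ := exists_primitive h hE hx0
  have h1 : I = Ideal.span {(f : B)} := by rw [hfx]; exact hx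
  rw [h1, R.span hf]
  exact ⟨⟨_, rfl⟩⟩

theorem principal_of_red_pow {ℓ : ℕ} (hℓ : ℓ.Prime) (R : RedProps h hE ℓ) {I : Ideal B}
    (hI : I ≠ ⊥)
    (hred : (redI h hE I).IsPrincipal) (n : ℕ) (hpow : (I ^ ℓ ^ n).IsPrincipal) :
    I.IsPrincipal := by
  induction n with
  | zero => rwa [pow_zero, pow_one] at hpow
  | succ n ih =>
    apply ih
    refine R.red (pow_ne_zero _ hI) ?_ ?_
    · rwa [← pow_mul, ← pow_succ]
    · obtain ⟨a, ha⟩ := hred
      have h1 : ℓ ^ n = (ℓ ^ n - 1) + 1 := by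
        have := pow_pos hℓ.pos n
        omega
      rw [h1, redI_pow_succ R hI]
      refine ⟨⟨a ^ (ℓ ^ n - 1 + 1), ?_⟩⟩
      rw [ha]
      exact Ideal.span_singleton_pow a _

theorem cl_eq_of_red {ℓ : ℕ} (hℓ : ℓ.Prime) (R : RedProps h hE ℓ) {I J : Ideal B} (hI : I ≠ ⊥)
    (hJ : J ≠ ⊥) (hIt : ∃ m, cl I hI ^ ℓ ^ m = 1) (hJt : ∃ m, cl J hJ ^ ℓ ^ m = 1)
    (hred : SameClass (redI h hE I) (redI h hE J)) : cl I hI = cl J hJ := by
  obtain ⟨K, hK, hKJ⟩ := exists_cl (cl J hJ)⁻¹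
  have hIK : I * K ≠ ⊥ := mul_ne_zero hI hK
  have hJK : J * K ≠ ⊥ := mul_ne_zero hJ hK
  have hJKp : (J * K).IsPrincipal := by
    rw [← cl_eq_one_iff hJK, cl_mul hJ hK hJK, hKJ, mul_inv_cancel]
  have hIKr : (redI h hE (I * K)).IsPrincipal := by
    have h1 : (redI h hE (J * K)).IsPrincipal := redI_isPrincipal R hJK hJKp
    have h2 : SameClass (redI h hE (I * K)) (redI h hE (J * K)) := by
      obtain ⟨a, b, ha, hb, hab⟩ := hred
      refine ⟨a, b, ha, hb, ?_⟩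
      rw [R.mul hI hK, R.mul hJ hK, ← mul_assoc, hab, mul_assoc]
    rw [← cl_eq_iff (R.ne_bot hIK) (R.ne_bot hJK)] at h2
    rw [← cl_eq_one_iff (R.ne_bot hIK), h2, cl_eq_one_iff]
    exact h1
  have hIKp : (I * K).IsPrincipal := by
    obtain ⟨m, hm⟩ := hIt
    obtain ⟨m', hm'⟩ := hJt
    refine principal_of_red_pow hℓ R hIK hIKr (m + m') ?_
    rw [← cl_eq_one_iff (pow_ne_zero _ hIK), cl_pow hIK, cl_mul hI hK hIK, hKJ, mul_pow, pow_add,
      pow_mul, hm, one_pow, one_mul, inv_pow, mul_comm, pow_mul, hm', one_pow, inv_one]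
  rw [← cl_eq_one_iff hIK, cl_mul hI hK hIK, hKJ, mul_inv_eq_one] at hIKp
  exact hIKp

end Red

/-! ### Orbits -/

section Orbit

variable {k : Type u} {B : Type v} [Field k] [CommRing B] [Algebra k B]
  {deg : B → ℕ} {E : Basis (degSet deg) k B}

theorem iterate_fixed_mul {α : Type*} {f : α → α} {x : α} {n : ℕ} (h : (f^[n]) x = x) (m : ℕ) :
    (f^[m * n]) x = x := by
  rw [mul_comm, Function.iterate_mul]
  exact Function.iterate_fixed h m

theorem exists_iterate_fixed {γ : B ≃+* B} {σ : k ≃+* k}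
    (hγσ : ∀ c, γ (algebraMap k B c) = algebraMap k B (σ c)) (hγE : ∀ m, γ (E m) = E m)
    (horb : ∀ z : k, ∃ n : ℕ, 0 < n ∧ (σ^[n]) z = z) (x : B) :
    ∃ n : ℕ, 0 < n ∧ (γ^[n]) x = x := by
  classical
  have hit : ∀ (n : ℕ) (c : k) (i : degSet deg), (γ^[n]) (c • E i) = (σ^[n] c) • E i := by
    intro n
    induction n with
    | zero => intro c i; rfl
    | succ n ih =>
      intro c i
      rw [Function.iterate_succ_apply, Function.iterate_succ_apply, ← ih]
      congr 1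
      rw [Algebra.smul_def, map_mul, hγσ, hγE, Algebra.smul_def]
  have hadd : ∀ (n : ℕ) (a b : B), (γ^[n]) (a + b) = (γ^[n]) a + (γ^[n]) b := by
    intro n
    induction n with
    | zero => intro a b; rfl
    | succ n ih =>
      intro a b
      rw [Function.iterate_succ_apply, Function.iterate_succ_apply, Function.iterate_succ_apply,
        map_add, ih]
  have hsum : ∀ s : Finset (degSet deg), ∃ n : ℕ, 0 < n ∧
      (γ^[n]) (∑ i ∈ s, E.repr x i • E i) = ∑ i ∈ s, E.repr x i • E i := by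
    intro s
    induction s using Finset.induction_on with
    | empty => exact ⟨1, one_pos, by simp⟩
    | insert i s hi ih =>
      obtain ⟨n, hn, hn'⟩ := ih
      obtain ⟨m, hm, hm'⟩ := horb (E.repr x i)
      refine ⟨m * n, Nat.mul_pos hm hn, ?_⟩
      rw [Finset.sum_insert hi, hadd, iterate_fixed_mul hn' m, hit, mul_comm m n,
        iterate_fixed_mul hm' n]
  obtain ⟨n, hn, hn'⟩ := hsum (E.repr x).support
  have hx : ∑ i ∈ (E.repr x).support, E.repr x i • E i = x := E.linearCombination_repr x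
  rw [hx] at hn'
  exact ⟨n, hn, hn'⟩

theorem iterate_map_span (γ : B ≃+* B) (s : Set B) (n : ℕ) :
    ((Ideal.map (γ : B →+* B))^[n]) (Ideal.span s) = Ideal.span ((γ^[n]) '' s) := by
  induction n with
  | zero => simp
  | succ n ih =>
    rw [Function.iterate_succ_apply', ih, Ideal.map_span, Function.iterate_succ', Set.image_comp]
    rfl

theorem exists_iterate_map [IsNoetherianRing B] {γ : B ≃+* B} {σ : k ≃+* k}
    (hγσ : ∀ c, γ (algebraMap k B c) = algebraMap k B (σ c)) (hγE : ∀ m, γ (E m) = E m)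
    (horb : ∀ z : k, ∃ n : ℕ, 0 < n ∧ (σ^[n]) z = z) (I : Ideal B) :
    ∃ n : ℕ, 0 < n ∧ ((Ideal.map (γ : B →+* B))^[n]) I = I := by
  classical
  obtain ⟨s, hs⟩ := (isNoetherianRing_iff_ideal_fg B).1 inferInstance I
  have hall : ∀ t : Finset B, ∃ n : ℕ, 0 < n ∧ ∀ x ∈ t, (γ^[n]) x = x := by
    intro t
    induction t using Finset.induction_on with
    | empty => exact ⟨1, one_pos, by simp⟩
    | insert a t ha ih =>
      obtain ⟨n, hn, hn'⟩ := ih
      obtain ⟨m, hm, hm'⟩ := exists_iterate_fixed hγσ hγE horb a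
      refine ⟨m * n, Nat.mul_pos hm hn, ?_⟩
      intro x hx
      rcases Finset.mem_insert.1 hx with rfl | hx
      · rw [mul_comm]; exact iterate_fixed_mul hm' n
      · exact iterate_fixed_mul (hn' x hx) m
  obtain ⟨n, hn, hn'⟩ := hall s
  refine ⟨n, hn, ?_⟩
  have h1 : I = Ideal.span (s : Set B) := hs.symm
  rw [h1, iterate_map_span]
  congr 1
  ext y
  constructor
  · rintro ⟨x, hx, rfl⟩
    rw [hn' x hx]; exact hx
  · intro hy
    exact ⟨y, hy, hn' y hy⟩

end Orbit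

section R7

/-- R7, core. -/
theorem frob_surj_core {k : Type u} {B : Type v} [Field k] [IsAlgClosed k] [CommRing B] [IsDomain B]
    [IsDedekindDomain B] [Algebra k B] {O : ValuationSubring k} {deg : B → ℕ}
    {E : Basis (degSet deg) k B} (h : OnePt k B deg) (hE : IntBasis O deg E)
    [IsDedekindDomain (Bbar h hE)] {ℓ : ℕ} (hℓ : ℓ.Prime) (R : RedProps h hE ℓ)
    (hdiv : ∀ I : Ideal B, I ≠ ⊥ → ∀ n : ℕ, 0 < n → ∃ J : Ideal B, J ≠ ⊥ ∧ SameClass I (J ^ n))
    {γ : B ≃+* B} {σ : k ≃+* k}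
    (hγσ : ∀ c, γ (algebraMap k B c) = algebraMap k B (σ c)) (hγE : ∀ m, γ (E m) = E m)
    (hfin : ∃ M : ℕ, ∀ I : Fin (M + 1) → Ideal B, (∀ i, I i ≠ ⊥) →
      (∀ i, SameClass (I i) ((I i).map (γ : B →+* B))) →
      ∃ i j, i ≠ j ∧ SameClass (redI h hE (I i)) (redI h hE (I j)))
    (horb : ∀ z : k, ∃ n : ℕ, 0 < n ∧ (σ^[n]) z = z)
    {I : Ideal B} (hI : PowTor ℓ I) :
    ∃ J : Ideal B, PowTor ℓ J ∧ SameClass (J * I) (J.map (γ : B →+* B)) := by
  classical
  obtain ⟨M, hM⟩ := hfin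
  obtain ⟨g, hg⟩ := exists_clMap γ
  obtain ⟨hI0, m, hm⟩ := hI
  have hb : M ≤ ℓ ^ M := (Nat.lt_pow_self hℓ.one_lt).le
  obtain ⟨J', hJ', hIJ'⟩ := hdiv I hI0 (ℓ ^ M) (pow_pos hℓ.pos _)
  have hcl : cl I hI0 = cl J' hJ' ^ ℓ ^ M := by
    rw [← cl_pow hJ' _ (pow_ne_zero _ hJ'), cl_eq_iff]
    exact hIJ'
  have hIm : cl I hI0 ^ ℓ ^ m = 1 := by
    rw [← cl_pow hI0 _ (pow_ne_zero _ hI0), cl_eq_one_iff]
    exact hm
  have hJ't : ∃ m, cl J' hJ' ^ ℓ ^ m = 1 := by
    refine ⟨M + m, ?_⟩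
    rw [pow_add, pow_mul, ← hcl, hIm]
  have hiter : ∀ (n : ℕ) (K : Ideal B) (hK : K ≠ ⊥), ∃ hK' : ((Ideal.map (γ : B →+* B))^[n]) K ≠ ⊥,
      (g^[n]) (cl K hK) = cl (((Ideal.map (γ : B →+* B))^[n]) K) hK' := by
    intro n
    induction n with
    | zero => intro K hK; exact ⟨hK, rfl⟩
    | succ n ih =>
      intro K hK
      obtain ⟨hK', h1⟩ := ih K hK
      have h2 : ((Ideal.map (γ : B →+* B))^[n + 1]) K ≠ ⊥ := by
        rw [Function.iterate_succ_apply']
        exact map_ne_bot hK'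
      refine ⟨h2, ?_⟩
      rw [Function.iterate_succ_apply', h1, hg, cl_eq_iff, Function.iterate_succ_apply']
      exact ⟨1, 1, one_ne_zero, one_ne_zero, rfl⟩
  have horb' : ∃ n, 0 < n ∧ (g^[n]) (cl J' hJ') = cl J' hJ' := by
    obtain ⟨n, hn, hn'⟩ := exists_iterate_map hγσ hγE horb J'
    refine ⟨n, hn, ?_⟩
    obtain ⟨h1, h2⟩ := hiter n J' hJ'
    rw [h2, cl_eq_iff, hn']
    exact ⟨1, 1, one_ne_zero, one_ne_zero, rfl⟩
  have hM' : ∀ f : Fin (M + 1) → ClassGroup B,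
      (∀ i, (∃ m, f i ^ ℓ ^ m = 1) ∧ g (f i) = f i) → ∃ i j, i ≠ j ∧ f i = f j := by
    intro f hf'
    choose K hK hKf using fun i => exists_cl (f i)
    obtain ⟨i, j, hij, hred⟩ := hM K hK fun i => by
      have h1 := (hf' i).2
      rw [← hKf i, hg, cl_eq_iff] at h1
      obtain ⟨a, b, ha, hb, hab⟩ := h1
      exact ⟨b, a, hb, ha, hab.symm⟩
    refine ⟨i, j, hij, ?_⟩
    rw [← hKf i, ← hKf j]
    refine cl_eq_of_red hℓ R (hK i) (hK j) ?_ ?_ hred
    · rw [hKf i]; exact (hf' i).1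
    · rw [hKf j]; exact (hf' j).1
  obtain ⟨d, ⟨m', hd⟩, hdg⟩ := coinv_group g hℓ hM' hJ't horb' hb
  obtain ⟨J, hJ, rfl⟩ := exists_cl d
  refine ⟨J, ⟨hJ, m', ?_⟩, ?_⟩
  · rw [← cl_eq_one_iff (pow_ne_zero _ hJ), cl_pow hJ]
    exact hd
  · rw [← cl_eq_iff (mul_ne_zero hJ hI0) (map_ne_bot hJ), cl_mul hJ hI0, hcl, hdg, hg]

end R7

end Pool.Agent.SC.R7
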