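import Mathlib
import Pool.Agent.SC.Defs
import Pool.Agent.SC.R4b
import Pool.Agent.SC.R5
import Pool.Agent.SC.R6
import Pool.Agent.SC.R7core

/-!
# Block R7: coinvariants of Frobenius vanish on `ℓ`-power torsion
-/

universe u v

namespace Pool.Agent.SC

open Module

section R7

/-- R7.  Coinvariants of Frobenius vanish on `ℓ`-power torsion. -/
theorem frob_surj {k : Type u} {B : Type v} [Field k] [IsAlgClosed k] [CommRing B] [IsDomain B]
    [IsDedekindDomain B] [Algebra k B] {O : ValuationSubring k} {deg : B → ℕ}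
    {E : Basis (degSet deg) k B} (h : OnePt k B deg) (hE : IntBasis O deg E)
    [IsDedekindDomain (Bbar h hE)]
    (hrk : ∀ a c : k, O.valuation a < 1 → c ≠ 0 → ∃ N : ℕ, O.valuation (a ^ N) < O.valuation c)
    {ℓ : ℕ} (hℓ : ℓ.Prime) (hℓO : O.valuation (ℓ : k) = 1)
    (hdiv : ∀ I : Ideal B, I ≠ ⊥ → ∀ n : ℕ, 0 < n → ∃ J : Ideal B, J ≠ ⊥ ∧ SameClass I (J ^ n))
    {γ : B ≃+* B} {σ : k ≃+* k} {p f : ℕ} (hp : p.Prime) (hf : 0 < f)
    (hγσ : ∀ c, γ (algebraMap k B c) = algebraMap k B (σ c)) (hγE : ∀ m, γ (E m) = E m)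
    (hpO : O.valuation (p : k) < 1) (hσO : ∀ z, σ z ∈ O ↔ z ∈ O)
    (hfrob : ∀ z ∈ O, O.valuation (σ z - z ^ p ^ f) < 1)
    (horb : ∀ z : k, ∃ n : ℕ, 0 < n ∧ (σ^[n]) z = z)
    {I : Ideal B} (hI : PowTor ℓ I) :
    ∃ J : Ideal B, PowTor ℓ J ∧ SameClass (J * I) (J.map (γ : B →+* B)) :=
  R7.frob_surj_core h hE hℓ
    ⟨fun hI hJ => redI_mul h hE hI hJ, fun hI => redI_ne_bot h hE hI,
      fun hf => redI_span h hE hf, fun hI h1 h2 => principal_of_red h hE hrk hℓ hℓO hI h1 h2⟩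
    hdiv hγσ hγE (finite_frob h hE hp hf hγσ hγE hpO hσO hfrob) horb hI

end R7

end Pool.Agent.SC
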