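import Pool.Agent.SC.R3
import Pool.Agent.SC.R7

/-!
# The weights theorem, ring form

`B` is the ring of functions regular away from one point of a curve over an algebraically closed
field `E` of characteristic zero, `Ω` is a field containing `B`, `α` is an automorphism of `Ω` over
`B` and `H` a group of automorphisms of `Ω` such that `h α h⁻¹ = α^j` where `j` is the value at `h`
of the cyclotomic character.  If `H` contains enough Frobenius elements, then `α` fixes all
`ℓ^n`-th roots of functions whose divisor (on `Spec B`) is `ℓ^n` times a divisor.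
-/

universe u v w

set_option linter.unusedSectionVars false
set_option linter.overlappingInstances false

namespace Pool.Agent.SC

open Module

/-- `O` is a valuation ring of rank one of the field `E`, and `σ` acts on its residue field as the
Frobenius `z ↦ z ^ (p ^ f)`; the orbits of `σ` are finite. -/
structure IsFrobAt {E : Type u} [Field E] (O : ValuationSubring E) (σ : E ≃+* E) (p f : ℕ) :
    Prop where
  prime : p.Prime
  pos : 0 < f
  rank : ∀ a c : E, O.valuation a < 1 → c ≠ 0 → ∃ N : ℕ, O.valuation (a ^ N) < O.valuation c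
  residue : O.valuation (p : E) < 1
  stable : ∀ z, σ z ∈ O ↔ z ∈ O
  frob : ∀ z ∈ O, O.valuation (σ z - z ^ p ^ f) < 1
  orb : ∀ z : E, ∃ n : ℕ, 0 < n ∧ (σ^[n]) z = z

section Units

variable {k : Type u} {B : Type v} [Field k] [CommRing B] [IsDomain B] [Algebra k B] {deg : B → ℕ}

/-- The units of a one-point ring are constants. -/
theorem unit_const8 (h : OnePt k B deg) {u : B} (hu : IsUnit u) :
    ∃ c : k, c ≠ 0 ∧ u = algebraMap k B c := by
  obtain ⟨v, hv⟩ := hu.exists_right_inv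
  have hu0 : u ≠ 0 := hu.ne_zero
  have hv0 : v ≠ 0 := by
    rintro rfl
    rw [mul_zero] at hv
    exact zero_ne_one hv
  have h1 := h.deg_mul u v hu0 hv0
  rw [hv, h.deg_one] at h1
  obtain ⟨c, hc⟩ := h.lead u 1 hu0 one_ne_zero (by rw [h.deg_one]; omega)
  rw [h.deg_one] at hc
  rcases hc with hc | hc
  · have h2 : u = algebraMap k B c := by rw [hc, Algebra.algebraMap_eq_smul_one]
    refine ⟨c, ?_, h2⟩
    rintro rfl
    exact hu0 (by rw [h2, map_zero])
  · omega

end Units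

section Root

variable {E : Type u} {B : Type v} {Ω : Type w} [Field E] [CommRing B] [IsDomain B] [Algebra E B]
  [Field Ω] [Algebra B Ω]

/-- `w` is a root of a generator of a power of `I` -/
def RootOf (ℓ : ℕ) (I : Ideal B) (w : Ω) : Prop :=
  I ≠ ⊥ ∧ ∃ (n : ℕ) (g : B), I ^ ℓ ^ n = Ideal.span {g} ∧ w ^ ℓ ^ n = algebraMap B Ω g

theorem RootOf.at_level {ℓ : ℕ} {I : Ideal B} {w : Ω} (h : RootOf ℓ I w) :
    ∃ n : ℕ, ∀ m, n ≤ m → ∃ g : B, I ^ ℓ ^ m = Ideal.span {g} ∧ w ^ ℓ ^ m = algebraMap B Ω g := by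
  obtain ⟨-, n, g, h1, h2⟩ := h
  refine ⟨n, fun m hm => ⟨g ^ ℓ ^ (m - n), ?_, ?_⟩⟩
  · have : ℓ ^ m = ℓ ^ n * ℓ ^ (m - n) := by rw [← pow_add]; congr 1; omega
    rw [this, pow_mul, h1, Ideal.span_singleton_pow]
  · have : ℓ ^ m = ℓ ^ n * ℓ ^ (m - n) := by rw [← pow_add]; congr 1; omega
    rw [this, pow_mul, h2, map_pow]

theorem RootOf.powTor {ℓ : ℕ} {I : Ideal B} {w : Ω} (h : RootOf ℓ I w) : PowTor ℓ I := by
  obtain ⟨h0, n, g, h1, -⟩ := h
  exact ⟨h0, n, ⟨⟨g, h1⟩⟩⟩

theorem RootOf.ne_zero {ℓ : ℕ} (hinj : Function.Injective (algebraMap B Ω)) {I : Ideal B} {w : Ω}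
    (h : RootOf ℓ I w) (hℓ : ℓ ≠ 0) : w ≠ 0 := by
  obtain ⟨h0, n, g, h1, h2⟩ := h
  rintro rfl
  rw [zero_pow (pow_ne_zero _ hℓ)] at h2
  have hg : g = 0 := hinj (by rw [map_zero, ← h2])
  rw [hg, Ideal.span_singleton_zero] at h1
  exact h0 (pow_eq_zero_iff (pow_ne_zero _ hℓ) |>.1 h1)

end Root

section Mul

variable {E : Type u} {B : Type v} {Ω : Type w} [Field E] [IsAlgClosed E] [CommRing B] [IsDomain B]
  [Algebra E B] {deg : B → ℕ} [Field Ω] [Algebra E Ω] [Algebra B Ω] [IsScalarTower E B Ω]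

omit [CommRing B] [IsDomain B] in
/-- Roots of unity are constants. -/
theorem exists_const_of_pow_eq_one {ζ : Ω} {M : ℕ} (hM : M ≠ 0) (h : ζ ^ M = 1) :
    ∃ c : E, algebraMap E Ω c = ζ := by
  have hint : IsIntegral E ζ := IsIntegral.of_pow (Nat.pos_of_ne_zero hM) (by rw [h]; exact isIntegral_one)
  have h1 := IsAlgClosed.degree_eq_one_of_irreducible E (minpoly.irreducible hint)
  exact minpoly.mem_range_of_degree_eq_one E ζ h1

/-- The multiplicativity of Kummer characters. -/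
theorem RootOf.mul_rel (hB : OnePt E B deg) (hinj : Function.Injective (algebraMap B Ω)) {ℓ : ℕ}
    (hℓ : ℓ ≠ 0) {α : Ω ≃+* Ω} (hα : ∀ b : B, α (algebraMap B Ω b) = algebraMap B Ω b)
    {I I' I'' : Ideal B} {w w' w'' : Ω} (h : RootOf ℓ I w) (h' : RootOf ℓ I' w')
    (h'' : RootOf ℓ I'' w'') (hI : SameClass (I * I') I'') :
    α w / w * (α w' / w') = α w'' / w'' := by
  have hw0 := h.ne_zero hinj hℓ
  have hw0' := h'.ne_zero hinj hℓ
  have hw0'' := h''.ne_zero hinj hℓ
  obtain ⟨a, b, ha, hb, hab⟩ := hI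
  obtain ⟨n, hn⟩ := h.at_level
  obtain ⟨n', hn'⟩ := h'.at_level
  obtain ⟨n'', hn''⟩ := h''.at_level
  set m := max n (max n' n'') with hm
  obtain ⟨g, hg, hwg⟩ := hn m (le_max_left _ _)
  obtain ⟨g', hg', hwg'⟩ := hn' m ((le_max_left _ _).trans (le_max_right _ _))
  obtain ⟨g'', hg'', hwg''⟩ := hn'' m ((le_max_right _ _).trans (le_max_right _ _))
  set M := ℓ ^ m with hMdef
  have hM : M ≠ 0 := pow_ne_zero _ hℓ
  have h1 : Ideal.span {a ^ M * (g * g')} = Ideal.span {b ^ M * g''} := by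
    have h2 := congrArg (fun J => J ^ M) hab
    simp only [mul_pow, hg, hg', hg'', Ideal.span_singleton_pow,
      Ideal.span_singleton_mul_span_singleton] at h2
    exact h2
  rw [Ideal.span_singleton_eq_span_singleton] at h1
  obtain ⟨ε, hε⟩ := h1
  obtain ⟨c, hc0, hc⟩ := unit_const8 hB ε.isUnit
  obtain ⟨e, he⟩ := IsAlgClosed.exists_pow_nat_eq c (Nat.pos_of_ne_zero hM)
  have he0 : e ≠ 0 := by
    rintro rfl
    rw [zero_pow hM] at he
    exact hc0 he.symm
  have hφe : ∀ x : E, α (algebraMap E Ω x) = algebraMap E Ω x := by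
    intro x
    rw [IsScalarTower.algebraMap_apply E B Ω, hα]
  have ha' : algebraMap B Ω a ≠ 0 := fun h0 => ha (hinj (by rw [h0, map_zero]))
  have hb' : algebraMap B Ω b ≠ 0 := fun h0 => hb (hinj (by rw [h0, map_zero]))
  have he' : algebraMap E Ω e ≠ 0 := by simpa using he0
  set ρ : Ω := (algebraMap B Ω a * (w * w') * algebraMap E Ω e) / (algebraMap B Ω b * w'') with hρ
  have hρM : ρ ^ M = 1 := by
    rw [hρ, div_pow, div_eq_one_iff_eq (pow_ne_zero _ (mul_ne_zero hb' hw0''))]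
    rw [mul_pow, mul_pow, mul_pow, mul_pow, hwg, hwg', hwg'', ← map_pow, ← map_pow, he, ← map_pow,
      ← map_mul, ← map_mul, ← map_mul, ← hε, hc, IsScalarTower.algebraMap_apply E B Ω c, ← map_mul]
  obtain ⟨r, hr⟩ := exists_const_of_pow_eq_one (E := E) hM hρM
  have hρ1 : α ρ = ρ := by rw [← hr, hφe]
  have h3 : algebraMap B Ω a * (w * w') * algebraMap E Ω e = ρ * (algebraMap B Ω b * w'') := by
    rw [hρ]; field_simp
  have h4 := congrArg α h3
  simp only [map_mul, hα, hφe, hρ1] at h4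
  have hρ0 : ρ ≠ 0 := by
    intro h0
    rw [h0, zero_pow hM] at hρM
    exact zero_ne_one hρM
  -- divide
  rw [div_mul_div_comm, div_eq_div_iff (mul_ne_zero hw0 hw0') hw0'']
  have h5 : (algebraMap B Ω a * algebraMap E Ω e) * (α w * α w' * w'') =
      (algebraMap B Ω a * algebraMap E Ω e) * (α w'' * (w * w')) := by
    calc (algebraMap B Ω a * algebraMap E Ω e) * (α w * α w' * w'')
        = (algebraMap B Ω a * (α w * α w') * algebraMap E Ω e) * w'' := by ring
      _ = (ρ * (algebraMap B Ω b * α w'')) * w'' := by rw [h4]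
      _ = (ρ * (algebraMap B Ω b * w'')) * α w'' := by ring
      _ = (algebraMap B Ω a * (w * w') * algebraMap E Ω e) * α w'' := by rw [h3]
      _ = _ := by ring
  exact mul_left_cancel₀ (mul_ne_zero ha' he') h5

end Mul

section Main

variable (E : Type u) {Ω : Type w} [Field E] [Field Ω] [Algebra E Ω]

/-- `H` contains Frobenius elements (at rank one places of the constant field at which finitely
many given nonzero constants are units) which fix finitely many given elements. -/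
def HasFrob (H : Subgroup (Ω ≃+* Ω)) : Prop :=
  ∀ (Z : Finset Ω) (S : Finset E), (∀ s ∈ S, s ≠ 0) → ∃ h ∈ H, (∀ z ∈ Z, h z = z) ∧
    ∃ (O : ValuationSubring E) (σ : E ≃+* E) (p f : ℕ), IsFrobAt O σ p f ∧
      (∀ c, h (algebraMap E Ω c) = algebraMap E Ω (σ c)) ∧ ∀ s ∈ S, O.valuation s = 1

omit E in
/-- `h α h⁻¹ = α ^ χ(h)` for all `h ∈ H`, where `χ` is the cyclotomic character. -/
def CyclRel (H : Subgroup (Ω ≃+* Ω)) (α : Ω ≃+* Ω) : Prop :=
  ∀ h ∈ H, ∀ (z : Ω) (M : ℕ), M ≠ 0 → ∃ j : ℕ, (∀ ζ : Ω, ζ ^ M = 1 → h ζ = ζ ^ j) ∧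
    h (α (h.symm z)) = (α ^ j) z

variable {E} {B : Type v} [IsAlgClosed E] [CommRing B] [IsDomain B] [IsDedekindDomain B]
  [Algebra E B] {deg : B → ℕ} [Algebra B Ω] [IsScalarTower E B Ω]

theorem CyclRel.root {H : Subgroup (Ω ≃+* Ω)} {α : Ω ≃+* Ω} (hrel : CyclRel H α)
    (hαE : ∀ c : E, α (algebraMap E Ω c) = algebraMap E Ω c) {h : Ω ≃+* Ω} (hh : h ∈ H) {u : Ω}
    (hu0 : u ≠ 0) {M : ℕ} (hM : M ≠ 0) (hu : α (u ^ M) = u ^ M) :
    α (h u) / h u = α u / u := by
  set ξ := α u / u with hξ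
  have hαu : α u = ξ * u := by rw [hξ]; field_simp
  have hξM : ξ ^ M = 1 := by
    rw [hξ, div_pow, ← map_pow, hu]
    exact div_self (pow_ne_zero _ hu0)
  obtain ⟨c, hc⟩ := exists_const_of_pow_eq_one (E := E) hM hξM
  have hαξ : α ξ = ξ := by rw [← hc, hαE]
  obtain ⟨j, hj1, hj2⟩ := hrel h⁻¹ (H.inv_mem hh) u M hM
  have h1 : ∀ i : ℕ, (α ^ i) u = ξ ^ i * u := by
    intro i
    induction i with
    | zero => rw [pow_zero, pow_zero, one_mul]; rfl
    | succ i ih =>
      rw [pow_succ']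
      change α ((α ^ i) u) = _
      rw [ih, map_mul, map_pow, hαξ, hαu]; ring
  rw [h1, ← hj1 ξ hξM] at hj2
  have h2 : h (h⁻¹ (α ((h⁻¹ : Ω ≃+* Ω).symm u))) = α (h u) := by
    change h (h.symm (α (h u))) = α (h u)
    exact h.apply_symm_apply _
  have h3 : h (h⁻¹ ξ) = ξ := h.apply_symm_apply ξ
  rw [hj2, map_mul, h3] at h2
  rw [← h2, mul_div_assoc, div_self, mul_one]
  simpa using hu0

/-- **The weights theorem, ring form.** -/
theorem weights_ring (hB : OnePt E B deg) (hinj : Function.Injective (algebraMap B Ω)) {ℓ : ℕ}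
    (hℓ : ℓ.Prime) (hℓ0 : (ℓ : E) ≠ 0)
    (hdiv : ∀ I : Ideal B, I ≠ ⊥ → ∀ n : ℕ, 0 < n → ∃ J : Ideal B, J ≠ ⊥ ∧ SameClass I (J ^ n))
    (hroot : ∀ I : Ideal B, PowTor ℓ I → ∃ w : Ω, RootOf ℓ I w)
    {α : Ω ≃+* Ω} (hα : ∀ b : B, α (algebraMap B Ω b) = algebraMap B Ω b)
    {H : Subgroup (Ω ≃+* Ω)} (hrel : CyclRel H α) (hfrob : HasFrob E H)
    {I : Ideal B} {w : Ω} (hw : RootOf ℓ I w) : α w = w := by
  classical
  have hℓn : ℓ ≠ 0 := hℓ.ne_zero
  have hαE : ∀ c : E, α (algebraMap E Ω c) = algebraMap E Ω c := by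
    intro x
    rw [IsScalarTower.algebraMap_apply E B Ω, hα]
  obtain ⟨Eb, F, S, hS, hEF, hO⟩ := exists_model hB
  obtain ⟨h, hh, hZ, O, σ, p, f, hF, hσ, hSO⟩ := hfrob (F.image (algebraMap B Ω))
    (insert (ℓ : E) S) (by
      intro s hs
      rcases Finset.mem_insert.1 hs with rfl | hs
      · exact hℓ0
      · exact hS s hs)
  obtain ⟨hE, hDed⟩ := hO O (fun s hs => hSO s (Finset.mem_insert_of_mem hs))
  -- `h` fixes the basis
  have h1 : ∀ m, h (algebraMap B Ω (Eb m)) = algebraMap B Ω (Eb m) := by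
    have key : ∀ x ∈ Submonoid.closure (F : Set B), h (algebraMap B Ω x) = algebraMap B Ω x := by
      intro x hx
      induction hx using Submonoid.closure_induction with
      | mem x hx => exact hZ _ (Finset.mem_image_of_mem _ hx)
      | one => rw [map_one, map_one]
      | mul x y _ _ hx hy => rw [map_mul, map_mul, hx, hy]
    exact fun m => key _ (hEF m)
  have hgen : ∀ (g : Ω ≃+* Ω) (τ : E ≃+* E), (∀ c, g (algebraMap E Ω c) = algebraMap E Ω (τ c)) →
      (∀ m, g (algebraMap B Ω (Eb m)) = algebraMap B Ω (Eb m)) → ∀ b : B, ∃ b' : B,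
        g (algebraMap B Ω b) = algebraMap B Ω b' := by
    intro g τ hg1 hg2 b
    have hb := Eb.mem_span b
    induction hb using Submodule.span_induction with
    | mem x hx =>
      obtain ⟨m, rfl⟩ := hx
      exact ⟨Eb m, hg2 m⟩
    | zero => exact ⟨0, by rw [map_zero, map_zero]⟩
    | add x y _ _ hx hy =>
      obtain ⟨x', hx⟩ := hx
      obtain ⟨y', hy⟩ := hy
      exact ⟨x' + y', by rw [map_add, map_add, hx, hy, map_add]⟩
    | smul c x _ hx =>
      obtain ⟨x', hx⟩ := hx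
      refine ⟨τ c • x', ?_⟩
      rw [Algebra.smul_def, Algebra.smul_def, map_mul, map_mul, map_mul, hx,
        ← IsScalarTower.algebraMap_apply, ← IsScalarTower.algebraMap_apply, hg1]
  have hinv1 : ∀ c, h.symm (algebraMap E Ω c) = algebraMap E Ω (σ.symm c) := by
    intro c
    rw [RingEquiv.symm_apply_eq, hσ, RingEquiv.apply_symm_apply]
  have hinv2 : ∀ m, h.symm (algebraMap B Ω (Eb m)) = algebraMap B Ω (Eb m) := by
    intro m
    rw [RingEquiv.symm_apply_eq, h1]
  choose g1 hg1 using hgen h σ hσ h1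
  choose g2 hg2 using hgen h.symm σ.symm hinv1 hinv2
  let γ : B ≃+* B :=
    { toFun := g1
      invFun := g2
      left_inv := fun b => hinj (by rw [← hg2, ← hg1, h.symm_apply_apply])
      right_inv := fun b => hinj (by rw [← hg1, ← hg2, h.apply_symm_apply])
      map_mul' := fun a b => hinj (by rw [← hg1, map_mul, map_mul, map_mul, hg1, hg1])
      map_add' := fun a b => hinj (by rw [← hg1, map_add, map_add, map_add, hg1, hg1]) }
  have hγ : ∀ b, h (algebraMap B Ω b) = algebraMap B Ω (γ b) := hg1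
  have hγσ : ∀ c, γ (algebraMap E B c) = algebraMap E B (σ c) := by
    intro c
    apply hinj
    rw [← hγ, ← IsScalarTower.algebraMap_apply, ← IsScalarTower.algebraMap_apply, hσ]
  have hγE : ∀ m, γ (Eb m) = Eb m := fun m => hinj (by rw [← hγ, h1])
  obtain ⟨J, hJ, hJI⟩ := frob_surj hB hE hF.rank hℓ (hSO _ (Finset.mem_insert_self _ _)) hdiv
    hF.prime hF.pos hγσ hγE hF.residue hF.stable hF.frob hF.orb hw.powTor
  obtain ⟨u, hu⟩ := hroot J hJ
  have hu0 := hu.ne_zero hinj hℓn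
  have hhu : RootOf ℓ (J.map (γ : B →+* B)) (h u) := by
    obtain ⟨h0, n, g, hg, hug⟩ := hu
    refine ⟨?_, n, γ g, ?_, ?_⟩
    · intro hbot
      apply h0
      have hk := Ideal.map_eq_bot_iff_of_injective (f := (γ : B →+* B)) (I := J) γ.injective
      exact hk.1 hbot
    · rw [← Ideal.map_pow, hg, Ideal.map_span, Set.image_singleton]
      rfl
    · rw [← map_pow, hug, hγ]
  have hkey := RootOf.mul_rel hB hinj hℓn hα hu hw hhu hJI
  have hroot2 : α (h u) / h u = α u / u := by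
    obtain ⟨h0, n, g, hg, hug⟩ := hu
    refine hrel.root hαE hh hu0 (pow_ne_zero n hℓn) ?_
    rw [hug, hα]
  rw [hroot2] at hkey
  have hne : α u / u ≠ 0 := div_ne_zero (by simpa using hu0) hu0
  have h6 : α w / w = 1 := mul_left_cancel₀ hne (by rw [hkey, mul_one])
  have hw0 := hw.ne_zero hinj hℓn
  rwa [div_eq_one_iff_eq hw0] at h6

end Main

end Pool.Agent.SC
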