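import Mathlib
import Pool.Agent.SC.C1
import Pool.Agent.SC.Ext
import Pool.Agent.SC.LinDisj

/-!
# MP_e66f84_ag, block C3: the twisted Kummer curve `t y ^ n = g` over `F(t)`

The model `M1 = E K1(s1 y)`, `s1 ^ n = t`, is stable under `Gal(Kb / K)`; the elements of `kbar`
fixed by the automorphisms which fix `M1` are `E(s1)`; some automorphism fixes `E` and moves
`s1 y` if `s1 y` is not in `E K1`.
-/

universe u

namespace Pool.Agent.SC

open VC Module Pool.Agent.Helper91.Sect IntermediateField

namespace C3

variable {F k K : Type u} [Field F] [Field k] [Field K] [Algebra F k] [Algebra k K]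
  [Algebra F K] [IsScalarTower F k K]
  {E : Type u} [Field E] [Algebra E (kbar k K)] [Algebra E (AlgebraicClosure K)]
  [IsScalarTower E (kbar k K) (AlgebraicClosure K)]

/-- The constants: `E` is the set of the elements of `kbar` algebraic over `F`. -/
theorem exists_const (hE : ∀ z : kbar k K, IsAlgebraic F z ↔ z ∈ Set.range (algebraMap E (kbar k K)))
    {z : AlgebraicClosure K} (hz : IsAlgebraic F z) :
    ∃ e : E, algebraMap E (AlgebraicClosure K) e = z := by
  have h1 : IsAlgebraic k z := hz.extendScalars (algebraMap F k).injective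
  let z' : kbar k K := ⟨z, mem_algebraicClosure_iff.2 h1⟩
  have := scalarTower_kbar (F := F) (k := k) (K := K)
  have h2 : IsAlgebraic F z' :=
    (isAlgebraic_algebraMap_iff (A := AlgebraicClosure K)
      (algebraMap (kbar k K) (AlgebraicClosure K)).injective).1 hz
  obtain ⟨e, he⟩ := (hE z').1 h2
  refine ⟨e, ?_⟩
  rw [IsScalarTower.algebraMap_apply E (kbar k K) (AlgebraicClosure K), he]
  rfl

theorem isAlgebraic_const
    (hE : ∀ z : kbar k K, IsAlgebraic F z ↔ z ∈ Set.range (algebraMap E (kbar k K))) (e : E) :
    IsAlgebraic F (algebraMap E (AlgebraicClosure K) e) := by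
  have := scalarTower_kbar (F := F) (k := k) (K := K)
  have h1 := (hE (algebraMap E (kbar k K) e)).2 ⟨e, rfl⟩
  rw [IsScalarTower.algebraMap_apply E (kbar k K) (AlgebraicClosure K)]
  exact h1.algebraMap

variable {t : k} {K1 : IntermediateField F K} {y : K} {n : ℕ} {s1 : kbar k K}

/-- C3 (1): the model is stable. -/
theorem stable (hE : ∀ z : kbar k K, IsAlgebraic F z ↔ z ∈ Set.range (algebraMap E (kbar k K)))
    (ht : t ≠ 0) (hn : 0 < n) (hs1 : s1 ^ n = algebraMap k (kbar k K) t)
    (ρ : AlgebraicClosure K ≃ₐ[K] AlgebraicClosure K) {w : AlgebraicClosure K}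
    (hw : w ∈ MT E K1 ((s1 : AlgebraicClosure K) * algebraMap K (AlgebraicClosure K) y)) :
    ρ w ∈ MT E K1 ((s1 : AlgebraicClosure K) * algebraMap K (AlgebraicClosure K) y) := by
  have hs1' : (s1 : AlgebraicClosure K) ^ n = algebraMap K (AlgebraicClosure K) (algebraMap k K t) := by
    rw [← IsScalarTower.algebraMap_apply k K (AlgebraicClosure K)]
    exact congrArg Subtype.val hs1
  have hs0 : (s1 : AlgebraicClosure K) ≠ 0 := by
    intro h
    rw [h, zero_pow hn.ne'] at hs1'
    have h2 : algebraMap k K t = 0 := (map_eq_zero _).1 hs1'.symm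
    exact ht ((map_eq_zero _).1 h2)
  have hFK : ∀ z : AlgebraicClosure K, IsAlgebraic F z → IsAlgebraic F (ρ z) := fun z hz =>
    hz.algHom ((ρ : AlgebraicClosure K →ₐ[K] AlgebraicClosure K).restrictScalars F)
  induction hw using IntermediateField.adjoin_induction with
  | mem x hx =>
    rcases hx with ⟨c, hc, rfl⟩ | hx
    · rw [ρ.commutes]
      exact IntermediateField.subset_adjoin _ _ (Or.inl ⟨c, hc, rfl⟩)
    · rw [Set.mem_singleton_iff] at hx
      rw [hx, map_mul, ρ.commutes]
      set ζ := ρ (s1 : AlgebraicClosure K) / s1 with hζ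
      have h1 : ρ (s1 : AlgebraicClosure K) = ζ * s1 := by rw [hζ]; field_simp
      have h2 : ζ ^ n = 1 := by
        rw [hζ, div_pow, ← map_pow, hs1', ρ.commutes, ← hs1']
        exact div_self (pow_ne_zero _ hs0)
      have h3 : IsAlgebraic F ζ := IsAlgebraic.of_pow hn (by rw [h2]; exact isAlgebraic_one)
      obtain ⟨e, he⟩ := exists_const hE h3
      rw [h1, mul_assoc, ← he]
      exact mul_mem (IntermediateField.algebraMap_mem _ e)
        (IntermediateField.subset_adjoin _ _ (Or.inr rfl))
  | algebraMap e =>
    obtain ⟨e', he'⟩ := exists_const hE (hFK _ (isAlgebraic_const hE e))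
    rw [← he']
    exact IntermediateField.algebraMap_mem _ e'
  | add x y _ _ hx hy => rw [map_add]; exact add_mem hx hy
  | inv x _ hx => rw [map_inv₀]; exact inv_mem hx
  | mul x y _ _ hx hy => rw [map_mul]; exact mul_mem hx hy

/-- `E(s1)` inside the algebraic closure of `K`. -/
theorem mem_of_adjoin
    (hE : ∀ z : kbar k K, IsAlgebraic F z ↔ z ∈ Set.range (algebraMap E (kbar k K)))
    {w : AlgebraicClosure K} (hw : w ∈ IntermediateField.adjoin E {(s1 : AlgebraicClosure K)}) :
    ∃ z ∈ IntermediateField.adjoin F ({z : kbar k K | IsAlgebraic F z} ∪ {s1}),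
      (z : AlgebraicClosure K) = w := by
  induction hw using IntermediateField.adjoin_induction with
  | mem x hx =>
    rw [Set.mem_singleton_iff] at hx
    exact ⟨s1, IntermediateField.subset_adjoin _ _ (Or.inr rfl), hx.symm⟩
  | algebraMap e =>
    refine ⟨algebraMap E (kbar k K) e,
      IntermediateField.subset_adjoin _ _ (Or.inl ((hE _).2 ⟨e, rfl⟩)), ?_⟩
    rw [IsScalarTower.algebraMap_apply E (kbar k K) (AlgebraicClosure K)]
    rfl
  | add x y _ _ hx hy =>
    obtain ⟨a, ha, rfl⟩ := hx
    obtain ⟨b, hb, rfl⟩ := hy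
    exact ⟨a + b, add_mem ha hb, rfl⟩
  | inv x _ hx =>
    obtain ⟨a, ha, rfl⟩ := hx
    exact ⟨a⁻¹, inv_mem ha, rfl⟩
  | mul x y _ _ hx hy =>
    obtain ⟨a, ha, rfl⟩ := hx
    obtain ⟨b, hb, rfl⟩ := hy
    exact ⟨a * b, mul_mem ha hb, rfl⟩

/-- The constants of `M1(s1)` are `E(s1)`. -/
theorem const_of_mem {M1 : IntermediateField E (AlgebraicClosure K)} [IsAlgClosed E] [CharZero E]
    (htr : Transcendental M1 (algebraMap k (AlgebraicClosure K) t))
    (halg : Algebra.IsAlgebraic (IntermediateField.adjoin E {algebraMap k (kbar k K) t}) (kbar k K))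
    {z : kbar k K}
    (hz : (z : AlgebraicClosure K) ∈ IntermediateField.adjoin M1
      (Set.range (algebraMap (IntermediateField.adjoin E {(s1 : AlgebraicClosure K)})
        (AlgebraicClosure K)))) :
    (z : AlgebraicClosure K) ∈ IntermediateField.adjoin E {(s1 : AlgebraicClosure K)} := by
  classical
  set S := IntermediateField.adjoin E {(s1 : AlgebraicClosure K)} with hS
  have hSk : ∀ w : S, ∃ c : kbar k K, (c : AlgebraicClosure K) = w := by
    rintro ⟨w, hw⟩
    refine ⟨⟨w, ?_⟩, rfl⟩
    induction hw using IntermediateField.adjoin_induction with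
    | mem x hx =>
      rw [Set.mem_singleton_iff] at hx
      rw [hx]; exact s1.2
    | algebraMap e =>
      rw [IsScalarTower.algebraMap_apply E (kbar k K) (AlgebraicClosure K)]
      exact (algebraMap E (kbar k K) e).2
    | add x y _ _ hx hy => exact add_mem hx hy
    | inv x _ hx => exact inv_mem hx
    | mul x y _ _ hx hy => exact mul_mem hx hy
  let b := Module.Basis.ofVectorSpace E M1
  have hLD : LinearIndependent (kbar k K)
      (fun i => algebraMap M1 (AlgebraicClosure K) (b i)) :=
    _root_.SC.linearIndependent_of_transcendental (E := E) (x := algebraMap k (kbar k K) t)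
      (by rw [← IsScalarTower.algebraMap_apply k (kbar k K) (AlgebraicClosure K)]; exact htr)
      halg b.linearIndependent
  obtain ⟨r, hr, s, hs, hrs⟩ := IntermediateField.mem_adjoin_iff_div.1 hz
  obtain ⟨v, hv⟩ := exists_repr b hs
  obtain ⟨w, hw⟩ := exists_repr b hr
  by_cases hs0 : s = 0
  · rw [hrs, hs0, div_zero]
    exact zero_mem _
  choose g hg using hSk
  have hg0 : g 0 = 0 := by
    have h1 := hg 0
    exact Subtype.ext (by rw [h1]; rfl)
  -- compare the coefficients
  have hsum : ∑ i ∈ v.support ∪ w.support,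
      (z * g (v i) - g (w i)) • algebraMap M1 (AlgebraicClosure K) (b i) = 0 := by
    have h1 : (z : AlgebraicClosure K) * s = r := by
      rw [hrs, div_mul_cancel₀ _ hs0]
    have h2 : s = ∑ i ∈ v.support ∪ w.support,
        algebraMap M1 (AlgebraicClosure K) (b i) * algebraMap S (AlgebraicClosure K) (v i) := by
      rw [hv, Finsupp.sum]
      apply Finset.sum_subset Finset.subset_union_left
      intro i _ hi
      rw [Finsupp.notMem_support_iff.1 hi, map_zero, mul_zero]
    have h3 : r = ∑ i ∈ v.support ∪ w.support,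
        algebraMap M1 (AlgebraicClosure K) (b i) * algebraMap S (AlgebraicClosure K) (w i) := by
      rw [hw, Finsupp.sum]
      apply Finset.sum_subset Finset.subset_union_right
      intro i _ hi
      rw [Finsupp.notMem_support_iff.1 hi, map_zero, mul_zero]
    have h4 : (z : AlgebraicClosure K) * s - r = 0 := by rw [h1, sub_self]
    rw [← h4, h2, h3, Finset.mul_sum, ← Finset.sum_sub_distrib]
    apply Finset.sum_congr rfl
    intro i _
    rw [Algebra.smul_def, map_sub, map_mul]
    have e1 : algebraMap (kbar k K) (AlgebraicClosure K) (g (v i)) =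
        algebraMap S (AlgebraicClosure K) (v i) := hg (v i)
    have e2 : algebraMap (kbar k K) (AlgebraicClosure K) (g (w i)) =
        algebraMap S (AlgebraicClosure K) (w i) := hg (w i)
    have e3 : algebraMap (kbar k K) (AlgebraicClosure K) z = z := rfl
    rw [e1, e2, e3]
    ring
  have hzero := linearIndependent_iff'.1 hLD _ _ hsum
  have hv0 : v ≠ 0 := by
    rintro rfl
    apply hs0
    rw [hv, Finsupp.sum_zero_index]
  obtain ⟨i, hi⟩ := Finsupp.ne_iff.1 hv0
  have hi' : i ∈ v.support := Finsupp.mem_support_iff.2 hi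
  have h1 := hzero i (Finset.mem_union_left _ hi')
  have h2 : z * g (v i) = g (w i) := sub_eq_zero.1 h1
  have h3 : (z : AlgebraicClosure K) * (v i : S) = (w i : S) := by
    rw [← hg (v i), ← hg (w i)]
    exact congrArg Subtype.val h2
  have h4 : ((v i : S) : AlgebraicClosure K) ≠ 0 := by
    intro h5
    exact hi (Subtype.ext h5)
  have h5 : (z : AlgebraicClosure K) = (w i : S) / (v i : S) := by
    rw [← h3]; field_simp
  rw [h5]
  exact div_mem (w i).2 (v i).2

section Main

variable [Algebra F E] [IsScalarTower F E (kbar k K)]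

/-- C3 (2): the elements of `kbar` fixed by the automorphisms which fix the model are `E(s1)`. -/
theorem fixed_iff [CharZero k] [IsAlgClosed E] [CharZero E] [Algebra.IsAlgebraic F E]
    (htop : IntermediateField.adjoin F {t} = ⊤)
    (ht1 : Transcendental K1 (algebraMap k K t)) (hn : 0 < n)
    {g : K} (hg : g ∈ K1) (hy : algebraMap k K t * y ^ n = g) (hg0 : g ≠ 0)
    (hgen : IntermediateField.adjoin k ((K1 : Set K) ∪ {y}) = ⊤)
    (hs1 : s1 ^ n = algebraMap k (kbar k K) t)
    (hE : ∀ z : kbar k K, IsAlgebraic F z ↔ z ∈ Set.range (algebraMap E (kbar k K)))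
    (z : kbar k K) :
    (∀ ρ : AlgebraicClosure K ≃ₐ[K] AlgebraicClosure K,
      (∀ m ∈ MT E K1 ((s1 : AlgebraicClosure K) * algebraMap K (AlgebraicClosure K) y),
        ρ m = m) → ρ z = z) ↔
      z ∈ IntermediateField.adjoin F ({z : kbar k K | IsAlgebraic F z} ∪ {s1}) := by
  have hcK : CharZero K := charZero_of_injective_algebraMap (algebraMap k K).injective
  have hFE := scalarTower_E F k K E
  have hFkb := scalarTower_kbar (F := F) (k := k) (K := K)
  have hy0 : y ≠ 0 := by
    rintro rfl
    rw [zero_pow hn.ne', mul_zero] at hy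
    exact hg0 hy.symm
  have ht0 : t ≠ 0 := by
    rintro rfl
    rw [map_zero, zero_mul] at hy
    exact hg0 hy.symm
  have hs1' : (s1 : AlgebraicClosure K) ^ n = algebraMap K (AlgebraicClosure K) (algebraMap k K t) := by
    rw [← IsScalarTower.algebraMap_apply k K (AlgebraicClosure K)]
    exact congrArg Subtype.val hs1
  have hs0 : (s1 : AlgebraicClosure K) ≠ 0 := by
    intro h
    rw [h, zero_pow hn.ne'] at hs1'
    have h2 : algebraMap k K t = 0 := (map_eq_zero _).1 hs1'.symm
    exact ht0 ((map_eq_zero _).1 h2)
  set y1 := (s1 : AlgebraicClosure K) * algebraMap K (AlgebraicClosure K) y with hy1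
  constructor
  · intro hz
    set L := IntermediateField.adjoin K (MT E K1 y1 : Set (AlgebraicClosure K)) with hL
    have h1 : (z : AlgebraicClosure K) ∈ L := by
      rw [← InfiniteGalois.fixedField_fixingSubgroup L]
      rintro ⟨ρ, hρ⟩
      exact hz ρ fun m hm => hρ ⟨m, IntermediateField.subset_adjoin _ _ hm⟩
    set S := IntermediateField.adjoin E {(s1 : AlgebraicClosure K)} with hS
    set T := IntermediateField.adjoin (MT E K1 y1)
      (Set.range (algebraMap S (AlgebraicClosure K))) with hT
    have hTM : ∀ m ∈ MT E K1 y1, m ∈ T := fun m hm => T.algebraMap_mem ⟨m, hm⟩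
    have hTs : (s1 : AlgebraicClosure K) ∈ T := IntermediateField.subset_adjoin _ _
      ⟨⟨s1, IntermediateField.mem_adjoin_simple_self E _⟩, rfl⟩
    have hTF : ∀ c : F, algebraMap F (AlgebraicClosure K) c ∈ T := fun c => by
      rw [IsScalarTower.algebraMap_apply F E (AlgebraicClosure K)]
      exact hTM _ (IntermediateField.algebraMap_mem _ _)
    let TF : IntermediateField F (AlgebraicClosure K) :=
      { T.toSubfield with algebraMap_mem' := hTF }
    have hTk : ∀ c : k, algebraMap k (AlgebraicClosure K) c ∈ T := by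
      have h2 : (⊤ : IntermediateField F k) ≤ TF.comap
          (IsScalarTower.toAlgHom F k (AlgebraicClosure K)) := by
        rw [← htop, IntermediateField.adjoin_simple_le_iff]
        change algebraMap k (AlgebraicClosure K) t ∈ T
        rw [IsScalarTower.algebraMap_apply k K (AlgebraicClosure K), ← hs1']
        exact pow_mem hTs n
      exact fun c => h2 (IntermediateField.mem_top (x := c))
    let Tk : IntermediateField k (AlgebraicClosure K) :=
      { T.toSubfield with algebraMap_mem' := hTk }
    have hTK : ∀ c : K, algebraMap K (AlgebraicClosure K) c ∈ T := by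
      have h2 : (⊤ : IntermediateField k K) ≤ Tk.comap
          (IsScalarTower.toAlgHom k K (AlgebraicClosure K)) := by
        rw [← hgen, IntermediateField.adjoin_le_iff]
        rintro c (hc | rfl)
        · exact hTM _ (K1_mem_MT hc)
        · change algebraMap K (AlgebraicClosure K) c ∈ T
          have h3 : algebraMap K (AlgebraicClosure K) c = y1 / s1 := by
            rw [hy1]; field_simp
          rw [h3]
          exact div_mem (hTM _ y1_mem_MT) hTs
      exact fun c => h2 (IntermediateField.mem_top (x := c))
    let TK : IntermediateField K (AlgebraicClosure K) :=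
      { T.toSubfield with algebraMap_mem' := hTK }
    have h2 : L ≤ TK := by
      rw [hL, IntermediateField.adjoin_le_iff]
      exact hTM
    have h3 : (z : AlgebraicClosure K) ∈ S := by
      refine const_of_mem (t := t) ?_ ?_ (h2 h1)
      · exact twist_tr ht1 hn hg hy hs1
      · have h4 := twist_alg (E := E) (K := K) htop
        rwa [Set.range_const] at h4
    obtain ⟨z', hz', h5⟩ := mem_of_adjoin hE h3
    have h6 : z' = z := Subtype.ext h5
    rwa [← h6]
  · intro hz ρ hρ
    have hρs : ρ s1 = s1 := by
      have h1 := hρ _ (y1_mem_MT (E := E) (K1 := K1))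
      rw [hy1, map_mul, ρ.commutes] at h1
      exact mul_right_cancel₀ (fun h => hy0 ((map_eq_zero _).1 h)) h1
    induction hz using IntermediateField.adjoin_induction with
    | mem x hx =>
      rcases hx with hx | hx
      · obtain ⟨e, he⟩ := exists_const (K := K) hE (z := (x : AlgebraicClosure K))
          (by
            have : (x : AlgebraicClosure K) = algebraMap (kbar k K) (AlgebraicClosure K) x := rfl
            rw [this]
            exact IsAlgebraic.algebraMap hx)
        rw [← he]
        exact hρ _ (IntermediateField.algebraMap_mem _ _)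
      · rw [Set.mem_singleton_iff] at hx
        rw [hx]; exact hρs
    | algebraMap c =>
      have : ((algebraMap F (kbar k K) c : kbar k K) : AlgebraicClosure K) =
          algebraMap K (AlgebraicClosure K) (algebraMap F K c) := by
        rw [← IsScalarTower.algebraMap_apply F K (AlgebraicClosure K),
          IsScalarTower.algebraMap_apply F (kbar k K) (AlgebraicClosure K)]
        rfl
      rw [this, ρ.commutes]
    | add a b _ _ ha hb =>
      change ρ ((a : AlgebraicClosure K) + b) = (a : AlgebraicClosure K) + b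
      rw [map_add, ha, hb]
    | inv a _ ha =>
      change ρ (a : AlgebraicClosure K)⁻¹ = (a : AlgebraicClosure K)⁻¹
      rw [map_inv₀, ha]
    | mul a b _ _ ha hb =>
      change ρ ((a : AlgebraicClosure K) * b) = (a : AlgebraicClosure K) * b
      rw [map_mul, ha, hb]

/-- An element algebraic over `N` of the purely transcendental extension `N(y)` is in `N`. -/
theorem mem_range_of_adjoin {N L : Type*} [Field N] [Field L] [Algebra N L] {y z : L}
    (hy : Transcendental N y) (hz : z ∈ IntermediateField.adjoin N {y}) (hza : IsAlgebraic N z) :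
    z ∈ Set.range (algebraMap N L) := by
  let f := RatFunc.algEquivOfTranscendental y hy
  set r := f.symm ⟨z, hz⟩ with hr
  by_cases h : ∃ c, r = RatFunc.C c
  · obtain ⟨c, hc⟩ := h
    refine ⟨c, ?_⟩
    have h1 : f r = ⟨z, hz⟩ := by rw [hr, AlgEquiv.apply_symm_apply]
    rw [hc, ← RatFunc.algebraMap_eq_C, f.commutes] at h1
    exact congrArg Subtype.val h1
  · exfalso
    apply RatFunc.transcendental_of_ne_C r h
    have h1 : IsAlgebraic N (⟨z, hz⟩ : N⟮y⟯) :=
      (isAlgebraic_algebraMap_iff (A := L) (algebraMap N⟮y⟯ L).injective).1 hza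
    rw [hr]
    exact h1.algHom (f.symm : N⟮y⟯ →ₐ[N] RatFunc N)

/-- C3 (3): some automorphism fixes the constants and moves an element of the model. -/
theorem exists_move [CharZero k] [Algebra.IsAlgebraic F E]
    (htop : IntermediateField.adjoin F {t} = ⊤)
    (ht1 : Transcendental K1 (algebraMap k K t)) (hn : 0 < n)
    {g : K} (hg : g ∈ K1) (hy : algebraMap k K t * y ^ n = g) (hg0 : g ≠ 0)
    (hgen : IntermediateField.adjoin k ((K1 : Set K) ∪ {y}) = ⊤)
    (hs1 : s1 ^ n = algebraMap k (kbar k K) t)
    (hN : ((s1 : AlgebraicClosure K) * algebraMap K (AlgebraicClosure K) y) ∉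
      IntermediateField.adjoin E (algebraMap K (AlgebraicClosure K) '' (K1 : Set K))) :
    ∃ ρ : AlgebraicClosure K ≃ₐ[K] AlgebraicClosure K,
      (∀ c : E, ρ (algebraMap E (AlgebraicClosure K) c) = algebraMap E (AlgebraicClosure K) c) ∧
      ∃ m ∈ MT E K1 ((s1 : AlgebraicClosure K) * algebraMap K (AlgebraicClosure K) y),
        ρ m ≠ m := by
  have hcK : CharZero K := charZero_of_injective_algebraMap (algebraMap k K).injective
  have hFE := scalarTower_E F k K E
  have hFkb := scalarTower_kbar (F := F) (k := k) (K := K)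
  have hyn := y1_pow hy hs1
  set y1 := (s1 : AlgebraicClosure K) * algebraMap K (AlgebraicClosure K) y with hy1
  by_contra hcon
  push Not at hcon
  set P := IntermediateField.adjoin K (Set.range (algebraMap E (AlgebraicClosure K))) with hP
  have h1 : y1 ∈ P := by
    rw [← InfiniteGalois.fixedField_fixingSubgroup P]
    rintro ⟨ρ, hρ⟩
    exact hcon ρ (fun c => hρ ⟨_, IntermediateField.subset_adjoin _ _ ⟨c, rfl⟩⟩) _ y1_mem_MT
  set N := IntermediateField.adjoin E (algebraMap K (AlgebraicClosure K) '' (K1 : Set K))
  apply hN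
  have hNalg : IsAlgebraic N y1 := by
    refine IsAlgebraic.of_pow hn ?_
    rw [hyn]
    exact isAlgebraic_algebraMap (A := AlgebraicClosure K)
      (⟨_, IntermediateField.subset_adjoin _ _ ⟨g, hg, rfl⟩⟩ : N)
  have hNt : Transcendental N (algebraMap k (AlgebraicClosure K) t) := by
    have h2 := twist_tr (E := E) ht1 hn hg hy hs1
    intro h3
    exact h2 (isAlgebraic_of_range_le (fun a => ⟨⟨a, by
      exact IntermediateField.adjoin.mono E _ _ Set.subset_union_left a.2⟩, rfl⟩) h3)
  have hgN : algebraMap K (AlgebraicClosure K) g ∈ N :=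
    IntermediateField.subset_adjoin _ _ ⟨g, hg, rfl⟩
  have hyN : Transcendental N (algebraMap K (AlgebraicClosure K) y) := by
    intro h3
    apply hNt
    have h4 : algebraMap k (AlgebraicClosure K) t = algebraMap K (AlgebraicClosure K) g *
        ((algebraMap K (AlgebraicClosure K) y) ^ n)⁻¹ := by
      have hy0 : y ≠ 0 := by
        rintro rfl
        rw [zero_pow hn.ne', mul_zero] at hy
        exact hg0 hy.symm
      have hy0' : algebraMap K (AlgebraicClosure K) y ≠ 0 := fun h => hy0 ((map_eq_zero _).1 h)
      rw [← hy, map_mul, map_pow, ← IsScalarTower.algebraMap_apply k K (AlgebraicClosure K)]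
      field_simp
    rw [h4]
    exact (isAlgebraic_algebraMap (A := AlgebraicClosure K) (⟨_, hgN⟩ : N)).mul (h3.pow n).inv
  -- `y1` is in `N(y)`
  set T := IntermediateField.adjoin N {algebraMap K (AlgebraicClosure K) y} with hT
  have hTN : ∀ m ∈ N, m ∈ T := fun m hm => T.algebraMap_mem ⟨m, hm⟩
  have hTy : algebraMap K (AlgebraicClosure K) y ∈ T := IntermediateField.mem_adjoin_simple_self _ _
  have hTF : ∀ c : F, algebraMap F (AlgebraicClosure K) c ∈ T := fun c => by
    rw [IsScalarTower.algebraMap_apply F E (AlgebraicClosure K)]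
    exact hTN _ (IntermediateField.algebraMap_mem _ _)
  let TF : IntermediateField F (AlgebraicClosure K) :=
    { T.toSubfield with algebraMap_mem' := hTF }
  have hTk : ∀ c : k, algebraMap k (AlgebraicClosure K) c ∈ T := by
    have h2 : (⊤ : IntermediateField F k) ≤ TF.comap
        (IsScalarTower.toAlgHom F k (AlgebraicClosure K)) := by
      rw [← htop, IntermediateField.adjoin_simple_le_iff]
      change algebraMap k (AlgebraicClosure K) t ∈ T
      have h4 : algebraMap k (AlgebraicClosure K) t = algebraMap K (AlgebraicClosure K) g *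
          ((algebraMap K (AlgebraicClosure K) y) ^ n)⁻¹ := by
        have hy0 : y ≠ 0 := by
          rintro rfl
          rw [zero_pow hn.ne', mul_zero] at hy
          exact hg0 hy.symm
        have hy0' : algebraMap K (AlgebraicClosure K) y ≠ 0 := fun h => hy0 ((map_eq_zero _).1 h)
        rw [← hy, map_mul, map_pow, ← IsScalarTower.algebraMap_apply k K (AlgebraicClosure K)]
        field_simp
      rw [h4]
      exact mul_mem (hTN _ hgN) (inv_mem (pow_mem hTy n))
    exact fun c => h2 (IntermediateField.mem_top (x := c))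
  let Tk : IntermediateField k (AlgebraicClosure K) :=
    { T.toSubfield with algebraMap_mem' := hTk }
  have hTK : ∀ c : K, algebraMap K (AlgebraicClosure K) c ∈ T := by
    have h2 : (⊤ : IntermediateField k K) ≤ Tk.comap
        (IsScalarTower.toAlgHom k K (AlgebraicClosure K)) := by
      rw [← hgen, IntermediateField.adjoin_le_iff]
      rintro c (hc | rfl)
      · exact hTN _ (IntermediateField.subset_adjoin _ _ ⟨c, hc, rfl⟩)
      · exact hTy
    exact fun c => h2 (IntermediateField.mem_top (x := c))
  let TK : IntermediateField K (AlgebraicClosure K) :=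
    { T.toSubfield with algebraMap_mem' := hTK }
  have h2 : P ≤ TK := by
    rw [hP, IntermediateField.adjoin_le_iff]
    rintro _ ⟨c, rfl⟩
    exact hTN _ (IntermediateField.algebraMap_mem _ _)
  obtain ⟨m, hm⟩ := mem_range_of_adjoin hyN (h2 h1) hNalg
  rw [← hm]
  exact m.2

end Main

end C3

end Pool.Agent.SC
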