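import Mathlib
import Pool.Agent.SC.Pub
import Pool.Agent.SC.C3

/-!
# The family `t yⁿ = g`
-/

universe u

namespace Pool.Agent.SC

open VC IntermediateField Module Pool.Agent.Helper91.Sect C3

section Abs

variable {F E L : Type u} [Field F] [Field E] [Field L] [Algebra F E] [Algebra E L] [Algebra F L]
  [IsScalarTower F E L]

omit [Field F] [Algebra F E] [Algebra F L] [IsScalarTower F E L] in
theorem exists_generators (N : IntermediateField E L) (hN : IsFunctionField E N) :
    ∃ S : Finset L, N.toSubfield = Subfield.closure (Set.range (algebraMap E L) ∪ S) := by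
  classical
  obtain ⟨t, -, hfin⟩ := hN
  obtain ⟨B, hB⟩ := hfin.fg_top
  let S : Finset L := insert (t : L) (B.image (algebraMap N L))
  refine ⟨S, le_antisymm ?_ ?_⟩
  · have h0 : ∀ a : IntermediateField.adjoin E {t}, ((a : N) : L) ∈
        Subfield.closure (Set.range (algebraMap E L) ∪ (S : Set L)) := by
      intro a
      let T : IntermediateField E N :=
        { (Subfield.closure (Set.range (algebraMap E L) ∪ (S : Set L))).comap (algebraMap N L) with
          algebraMap_mem' := fun c => Subfield.subset_closure (Or.inl ⟨c, rfl⟩) }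
      have h1 : IntermediateField.adjoin E {t} ≤ T := by
        refine IntermediateField.adjoin_le_iff.2 ?_
        rintro _ rfl
        exact Subfield.subset_closure (Or.inr (by simp [S]))
      exact h1 a.2
    intro z hz
    have h1 : (⟨z, hz⟩ : N) ∈ Submodule.span (IntermediateField.adjoin E {t}) (B : Set N) := by
      rw [hB]; trivial
    have key : ∀ w ∈ Submodule.span (IntermediateField.adjoin E {t}) (B : Set N), (w : L) ∈
        Subfield.closure (Set.range (algebraMap E L) ∪ (S : Set L)) := by
      intro w hw
      induction hw using Submodule.span_induction with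
      | mem x hx =>
        refine Subfield.subset_closure (Or.inr ?_)
        have : (x : L) ∈ B.image (algebraMap N L) := Finset.mem_image_of_mem _ hx
        exact Finset.mem_coe.2 (Finset.mem_insert_of_mem this)
      | zero => exact zero_mem _
      | add x y _ _ hx hy => exact add_mem hx hy
      | smul a x _ hx =>
        have h2 : ((a • x : N) : L) = ((a : N) : L) * x := rfl
        rw [h2]
        exact mul_mem (h0 a) hx
    exact key _ h1
  · rw [Subfield.closure_le]
    rintro w (⟨c, rfl⟩ | hw)
    · exact N.algebraMap_mem c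
    · rcases Finset.mem_insert.1 (Finset.mem_coe.1 hw) with rfl | h
      · exact t.2
      · obtain ⟨b, -, rfl⟩ := Finset.mem_image.1 h
        exact b.2

theorem exists_trdeg_one [Algebra.IsAlgebraic F E] (N : IntermediateField E L)
    (hN : IsFunctionField E N) : ∃ t ∈ N, Transcendental F t ∧
      ∀ z ∈ N, IsAlgebraic (IntermediateField.adjoin F {t}) z := by
  obtain ⟨t, ht, hfin⟩ := hN
  refine ⟨t, t.2, ?_, fun z hz => ?_⟩
  · intro h
    apply ht
    have h1 : IsAlgebraic E (t : L) := h.extendScalars (algebraMap F E).injective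
    exact (isAlgebraic_algebraMap_iff (A := L) (algebraMap N L).injective).1 h1
  · have h1 : IsAlgebraic (IntermediateField.adjoin E {t}) (⟨z, hz⟩ : N) :=
      Algebra.IsAlgebraic.isAlgebraic _
    let A := IntermediateField.adjoin F {(t : L)}
    let B := IntermediateField.adjoin A (Set.range (algebraMap E L))
    have h2 : Algebra.IsAlgebraic A B := by
      refine IntermediateField.isAlgebraic_adjoin ?_
      rintro _ ⟨c, rfl⟩
      have h3 : IsAlgebraic F c := Algebra.IsAlgebraic.isAlgebraic c
      have h4 : IsAlgebraic F (algebraMap E L c) :=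
        h3.algHom (IsScalarTower.toAlgHom F E L)
      exact (h4.extendScalars (algebraMap F A).injective).isIntegral
    have h3 : IsAlgebraic B z := by
      let C := IntermediateField.adjoin E {t}
      let i1 : Algebra C L := ((algebraMap N L).comp (algebraMap C N)).toAlgebra
      have st1 : @IsScalarTower C N L _ _ (i1.toSMul) :=
        @IsScalarTower.of_algebraMap_eq C N L _ _ _ _ _ i1 fun _ => rfl
      have h4 : IsAlgebraic C z :=
        (isAlgebraic_algebraMap_iff (A := L) (algebraMap N L).injective).2 h1
      refine isAlgebraic_of_range_le (fun a => ?_) h4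
      let T : IntermediateField E N :=
        { (B.toSubfield).comap (algebraMap N L) with
          algebraMap_mem' := fun c => IntermediateField.subset_adjoin _ _ ⟨c, rfl⟩ }
      have h5 : C ≤ T := by
        refine IntermediateField.adjoin_le_iff.2 ?_
        intro x hx
        rw [Set.mem_singleton_iff.1 hx]
        exact B.algebraMap_mem (⟨_, IntermediateField.mem_adjoin_simple_self F (t : L)⟩ : A)
      exact ⟨⟨_, h5 a.2⟩, rfl⟩
    exact h3.restrictScalars A

end Abs

section Fam

variable {F k K : Type u} [Field F] [Field k] [Field K]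
  [Algebra F k] [Algebra k K] [Algebra F K] [IsScalarTower F k K]

theorem curveOverE_of_isFunctionField
    (N : IntermediateField (algebraicClosure F (kbar k K)) (AlgebraicClosure K))
    (hN : IsFunctionField (algebraicClosure F (kbar k K)) N) :
    CurveOverE F K N.toSubfield := by
  have st := scalarTower_kbar (F := F) (k := k) (K := K)
  have h1 : IsScalarTower F (algebraicClosure F (kbar k K)) (AlgebraicClosure K) :=
    scalarTower_E F k K (algebraicClosure F (kbar k K))
  refine ⟨?_, exists_trdeg_one N hN⟩
  obtain ⟨S, hS⟩ := exists_generators N hN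
  rw [range_algF] at hS
  exact ⟨S, hS⟩

/-- The family `t yⁿ = g`: all Galois sections are geometric. Here `K1` is the function field of a
curve over `F`, `k = F(t)` is rational, and `K = k K1(y)`. -/
theorem family_geometric [CharZero F]
    (hF : ∃ S : Finset F, Subfield.closure (S : Set F) = ⊤) {t : k} (ht : Transcendental F t)
    (htop : IntermediateField.adjoin F {t} = ⊤) {K1 : IntermediateField F K}
    (hK1 : IsFunctionField F K1) (ht1 : Transcendental K1 (algebraMap k K t)) {n : ℕ} (hn : 0 < n)
    {y g : K} (hg : g ∈ K1) (hy : algebraMap k K t * y ^ n = g) (hg0 : g ≠ 0)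
    (hgen : IntermediateField.adjoin k ((K1 : Set K) ∪ {y}) = ⊤)
    (hw : ∀ w : AlgebraicClosure K, w ^ n = algebraMap K (AlgebraicClosure K) g →
      w ∉ Subfield.closure ({c | IsAlgebraic F c} ∪ algebraMap K (AlgebraicClosure K) '' K1) ∧
      NotRational F K (Subfield.closure
        ({c | IsAlgebraic F c} ∪ (algebraMap K (AlgebraicClosure K) '' K1 ∪ {w}))))
    (s : GaloisSection k K) : IsGeometric s := by
  have hck : CharZero k := charZero_of_injective_algebraMap (algebraMap F k).injective
  let E := algebraicClosure F (kbar k K)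
  have i1 : IsAlgClosed E := isAlgClosed_algF
  have i2 : CharZero E := charZero_of_injective_algebraMap (algebraMap F E).injective
  have hE : ∀ z : kbar k K, IsAlgebraic F z ↔ z ∈ Set.range (algebraMap E (kbar k K)) := by
    intro z
    constructor
    · intro hz
      exact ⟨⟨z, mem_algebraicClosure_iff.2 hz⟩, rfl⟩
    · rintro ⟨e, rfl⟩
      exact mem_algebraicClosure_iff.1 e.2
  have ht0 : t ≠ 0 := fun h => ht (by rw [h]; exact isAlgebraic_zero)
  obtain ⟨s1, hs⟩ := IsAlgClosed.exists_pow_nat_eq (algebraMap k (kbar k K) t) hn
  have hy1 := y1_pow (y := y) (g := g) hy hs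
  set y1 := (s1 : AlgebraicClosure K) * algebraMap K (AlgebraicClosure K) y with hy1def
  let N := MT E K1 y1
  have hff : IsFunctionField E N := twist_ff hK1 hn hg hy hs
  have hM := curveOverE_of_isFunctionField (F := F) (k := k) N hff
  obtain ⟨hw1, hw2⟩ := hw y1 hy1
  have hadj : ∀ S : Set (AlgebraicClosure K), (IntermediateField.adjoin E S).toSubfield =
      Subfield.closure ({c | IsAlgebraic F c} ∪ S) := by
    intro S
    rw [← range_algF (F := F) (k := k) (K := K)]
    rfl
  have hs1t : Transcendental F s1 := by
    intro h
    have h1 : IsAlgebraic F (s1 ^ n) := h.pow n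
    rw [hs] at h1
    exact ht ((isAlgebraic_algebraMap_iff (A := kbar k K)
      (algebraMap k (kbar k K)).injective).1 h1)
  refine isGeometric_of_twist hF (twist_ffK htop hK1 ht1 hn hg hy hg0 hgen) N.toSubfield hM ?_
    ⟨?_, fun ρ m hm => stable hE ht0 hn hs ρ hm⟩ ?_ (Or.inr ⟨⟨t, ht, htop⟩, s1, hs1t, ?_⟩) s
  · have h1 : N.toSubfield = Subfield.closure
        ({c | IsAlgebraic F c} ∪ (algebraMap K (AlgebraicClosure K) '' K1 ∪ {y1})) := hadj _
    rw [h1]
    exact hw2
  · have h1 := twist_comp (E := E) hn hy hg0 hgen hs
    have h2 : (IntermediateField.adjoin (kbar k K) (N : Set (AlgebraicClosure K))).toSubfield =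
        (KK k K).toSubfield := congrArg IntermediateField.toSubfield h1
    rw [← range_kbar]
    exact h2
  · obtain ⟨ρ, hρ, m, hm, hne⟩ := exists_move (E := E) htop ht1 hn hg hy hg0 hgen hs (by
      intro h
      apply hw1
      rw [← hadj]
      exact h)
    refine ⟨ρ, fun z hz => ?_, m, hm, hne⟩
    have h1 : z ∈ Set.range (algebraMap E (AlgebraicClosure K)) := by
      rw [range_algF]
      exact hz
    obtain ⟨c, rfl⟩ := h1
    exact hρ c
  · rw [← adjoin_eq_closure]
    ext z
    have h1 := fixed_iff (E := E) htop ht1 hn hg hy hg0 hgen hs hE z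
    exact mem_splittingField_iff.trans h1

/-- A henselian place: if `Gal(kbar / k)` is the decomposition group of a valuation ring `W` of
`kbar`, and the twist is ramified at `W`, then all Galois sections are geometric. -/
theorem henselian_geometric [CharZero F]
    (hF : ∃ S : Finset F, Subfield.closure (S : Set F) = ⊤) (hK : IsFunctionField k K)
    (M : Subfield (AlgebraicClosure K)) (hM : CurveOverE F K M) (hrat : NotRational F K M)
    (hT : TwistedForm k K M) (W : ValuationSubring (kbar k K)) (hW : IsPlaceOver F k W)
    (hD : ∀ τ : Gk k K, InDecomp W τ) (hram : RamifiedAt W M) (s : GaloisSection k K) :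
    IsGeometric s := by
  have hck : CharZero k := charZero_of_injective_algebraMap (algebraMap F k).injective
  obtain ⟨V, h1, h2, h3, h4⟩ := isGeometricAt_of_twist hF hK M hM hrat hT W hW hram s
  refine ⟨V, h1, h2, fun γ w => h3 γ (hD γ) w, fun z hz => ?_⟩
  obtain ⟨c, hc, hfix, hres⟩ := h4 z hz
  have hca : IsAlgebraic k (c : AlgebraicClosure K) := hc.1
  let d : kbar k K := ⟨c, mem_algebraicClosure_iff.2 hca⟩
  have hd : toKur k K d = c := rfl
  have h5 : ∀ γ : Gk k K, γ d = d := by
    intro γ
    have h6 := hfix γ (hD γ)
    rw [← hd, section_toKur] at h6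
    exact Subtype.ext (congrArg (fun w : Kur k K => (w : AlgebraicClosure K)) h6)
  obtain ⟨e, he⟩ := (InfiniteGalois.mem_range_algebraMap_iff_fixed (k := k) d).2 h5
  refine ⟨e, ?_⟩
  have h7 : algebraMap K (Kur k K) (z - algebraMap k K e) = algebraMap K (Kur k K) z - c := by
    rw [map_sub, ← hd, ← he]
    rfl
  rw [h7]
  exact hres

end Fam

end Pool.Agent.SC
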