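import Mathlib
import Pool.Agent.SC.C1b

/-!
# MP_e66f84_ag, BAS: the family of constants can be chosen
-/

universe u

namespace Pool.Agent.SC

open VC Module Pool.Agent.Helper91.Sect IntermediateField

variable {k K : Type u} [Field k] [Field K] [Algebra k K]
  {E : Type u} [Field E] [Algebra E (kbar k K)]
  [Algebra E (AlgebraicClosure K)] [IsScalarTower E (kbar k K) (AlgebraicClosure K)]

/-- BAS.  If `M1` becomes `KK k K` over `kbar`, then `K / k` is isotrivial with respect to any
transcendence basis of the constants. -/
theorem exists_isotrivial (hK : IsFunctionField k K)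
    {M1 : IntermediateField E (AlgebraicClosure K)} (hM : IsFunctionField E M1)
    (hcomp : IntermediateField.adjoin (kbar k K) (M1 : Set (AlgebraicClosure K)) = KK k K) :
    ∃ (ι : Type u) (x : ι → kbar k K), Isotrivial k K M1 x := by
  have : FaithfulSMul E (kbar k K) :=
    (faithfulSMul_iff_algebraMap_injective E (kbar k K)).2 (algebraMap E (kbar k K)).injective
  obtain ⟨ι, x, hx⟩ := exists_isTranscendenceBasis' E (kbar k K)
  exact ⟨ι, x, isotrivial_of_comp hK hM hcomp hx⟩

end Pool.Agent.SC
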