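import Mathlib
import Pool.Agent.SC.G5
import Pool.Agent.SC.G6core

/-!
# FG: a finite group of automorphisms of a cover fixes a unique place and is cyclic
-/

set_option linter.unusedSectionVars false

universe u

namespace Pool.Agent.SC

namespace FG

/-! ### The counting lemma -/

section Count

open MulAction

variable {G X : Type*} [Group G] [Finite G] [MulAction G X]

/-- If every element of prime order has a unique fixed point, so has every element `≠ 1`. -/
theorem existsUnique_of_prime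
    (h : ∀ g : G, (orderOf g).Prime → ∃! x : X, g • x = x) (g : G) (hg : g ≠ 1) :
    ∃! x : X, g • x = x := by
  obtain ⟨p, hp, hpd⟩ := Nat.exists_prime_and_dvd (mt orderOf_eq_one_iff.1 hg)
  obtain ⟨m, hm⟩ := hpd
  have h0 : orderOf g ≠ 0 := (orderOf_pos g).ne'
  have hm0 : m ≠ 0 := by
    rintro rfl
    rw [mul_zero] at hm
    exact h0 hm
  have hord : orderOf (g ^ m) = p := by
    rw [orderOf_pow' g hm0, hm, Nat.gcd_mul_left_left, Nat.mul_div_cancel _ (Nat.pos_of_ne_zero hm0)]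
  obtain ⟨x, hx, hxu⟩ := h (g ^ m) (by rw [hord]; exact hp)
  refine ⟨x, ?_, fun y hy => ?_⟩
  · apply hxu
    change g ^ m • g • x = g • x
    rw [smul_smul, ← pow_succ, pow_succ', ← smul_smul]
    congr 1
  · apply hxu
    change g ^ m • y = y
    have hy' : g • y = y := hy
    clear hm hm0 hord hx hxu
    induction m with
    | zero => rw [pow_zero, one_smul]
    | succ m ih => rw [pow_succ, ← smul_smul, hy', ih]

/-- **The counting lemma.**  If every element of prime order has a unique fixed point, the group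
has a unique fixed point. -/
theorem existsUnique_fixed [Nontrivial G]
    (h : ∀ g : G, (orderOf g).Prime → ∃! x : X, g • x = x) : ∃! x : X, ∀ g : G, g • x = x := by
  classical
  have hall := existsUnique_of_prime h
  have : Fintype G := Fintype.ofFinite G
  -- the set of the fixed points
  let Y : SubMulAction G X :=
    { carrier := {x | ∃ g : G, g ≠ 1 ∧ g • x = x}
      smul_mem' := by
        rintro a x ⟨g, hg, hgx⟩
        refine ⟨a * g * a⁻¹, ?_, ?_⟩
        · intro h1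
          apply hg
          have h2 : g = a⁻¹ * (a * g * a⁻¹) * a := by group
          rw [h2, h1]
          group
        · rw [smul_smul, mul_assoc, inv_mul_cancel, mul_one, ← smul_smul, hgx] }
  have hYmem : ∀ x : X, x ∈ Y ↔ ∃ g : G, g ≠ 1 ∧ g • x = x := fun x => Iff.rfl
  have hfinY : Finite Y := by
    choose f hf hfu using hall
    let F : {g : G // g ≠ 1} → Y := fun g => ⟨f g.1 g.2, ⟨g.1, g.2, hf g.1 g.2⟩⟩
    refine Finite.of_surjective F ?_
    rintro ⟨x, g, hg, hgx⟩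
    exact ⟨⟨g, hg⟩, Subtype.ext (hfu g hg x hgx).symm⟩
  have : Fintype Y := Fintype.ofFinite Y
  have hstab : ∀ y : Y, 2 ≤ Fintype.card (stabilizer G y) := by
    rintro ⟨x, g, hg, hgx⟩
    have h1 : 1 < Fintype.card (stabilizer G (⟨x, g, hg, hgx⟩ : Y)) := by
      rw [Fintype.one_lt_card_iff]
      refine ⟨⟨g, ?_⟩, 1, ?_⟩
      · rw [mem_stabilizer_iff]
        exact Subtype.ext hgx
      · intro h2
        exact hg (congrArg Subtype.val h2)
    exact h1
  -- Burnside
  have hfixcard : ∀ g : G, g ≠ 1 → Fintype.card (fixedBy Y g) = 1 := by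
    intro g hg
    rw [Fintype.card_eq_one_iff]
    obtain ⟨x, hx, hxu⟩ := hall g hg
    refine ⟨⟨⟨x, g, hg, hx⟩, Subtype.ext hx⟩, ?_⟩
    rintro ⟨⟨y, hy⟩, hy2⟩
    apply Subtype.ext
    apply Subtype.ext
    exact hxu y (congrArg Subtype.val hy2)
  have hburn := sum_card_fixedBy_eq_card_orbits_mul_card_group G Y
  have hone : Fintype.card (fixedBy Y (1 : G)) = Fintype.card Y := by
    refine Fintype.card_congr (Equiv.subtypeUnivEquiv fun y => ?_)
    exact one_smul G y
  rw [← Finset.add_sum_erase _ _ (Finset.mem_univ (1 : G)), hone,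
    Finset.sum_congr rfl (g := fun _ => 1) (fun g hg => hfixcard g (Finset.ne_of_mem_erase hg)),
    Finset.sum_const, smul_eq_mul, mul_one, Finset.card_erase_of_mem (Finset.mem_univ _),
    Finset.card_univ] at hburn
  -- the orbits are small
  have hcard : 2 * Fintype.card Y ≤ Fintype.card (orbitRel.Quotient G Y) * Fintype.card G := by
    have h1 : Fintype.card Y =
        ∑ ω : orbitRel.Quotient G Y, Fintype.card (orbit G ω.out) := by
      rw [← Fintype.card_sigma]
      exact Fintype.card_congr (selfEquivSigmaOrbits G Y)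
    rw [h1, Finset.mul_sum, Fintype.card, ← smul_eq_mul, ← Finset.sum_const]
    refine Finset.sum_le_sum fun ω _ => ?_
    have h2 := card_orbit_mul_card_stabilizer_eq_card_group G ω.out
    have h3 := hstab ω.out
    rw [← h2, mul_comm]
    exact Nat.mul_le_mul_left _ h3
  have hG : 2 ≤ Fintype.card G := Fintype.one_lt_card
  have hY1 : Fintype.card Y = 1 := by
    set r := Fintype.card (orbitRel.Quotient G Y) with hr
    set N := Fintype.card G with hN
    rcases Nat.lt_or_ge r 2 with hr2 | hr2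
    · interval_cases r
      · omega
      · omega
    · have h3 : 2 * N ≤ r * N := Nat.mul_le_mul_right _ hr2
      omega
  rw [Fintype.card_eq_one_iff] at hY1
  obtain ⟨⟨x, hx⟩, hxu⟩ := hY1
  obtain ⟨g, hg⟩ := exists_ne (1 : G)
  refine ⟨x, fun a => ?_, fun y hy => ?_⟩
  · exact congrArg Subtype.val (hxu ⟨a • x, Y.smul_mem a hx⟩)
  · exact congrArg Subtype.val (hxu ⟨y, g, hg, hy g⟩)

end Count

/-! ### The action on places -/

section Act

variable {E U : Type u} [Field E] [Field U] [Algebra E U]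

/-- The nontrivial valuation rings which contain the constants. -/
def Pl (E U : Type u) [Field E] [Field U] [Algebra E U] : Type u :=
  {W : ValuationSubring U // (∀ c : E, algebraMap E U c ∈ W) ∧ W ≠ ⊤}

/-- The action of the automorphisms. -/
instance (G : Subgroup (U ≃ₐ[E] U)) : MulAction G (Pl E U) where
  smul g W := ⟨W.1.comap (((g⁻¹ : G) : U ≃ₐ[E] U) : U →+* U), by
    constructor
    · intro c
      change ((g⁻¹ : G) : U ≃ₐ[E] U) (algebraMap E U c) ∈ W.1
      rw [AlgEquiv.commutes]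
      exact W.2.1 c
    · intro htop
      apply W.2.2
      rw [eq_top_iff]
      intro z _
      have h1 : (g : U ≃ₐ[E] U) z ∈
          W.1.comap (((g⁻¹ : G) : U ≃ₐ[E] U) : U →+* U) := by rw [htop]; trivial
      have h2 : ((g⁻¹ : G) : U ≃ₐ[E] U) ((g : U ≃ₐ[E] U) z) ∈ W.1 := h1
      rwa [← AlgEquiv.mul_apply, ← Subgroup.coe_mul, inv_mul_cancel] at h2⟩
  one_smul W := by
    apply Subtype.ext
    ext z
    change (((1 : G)⁻¹ : G) : U ≃ₐ[E] U) z ∈ W.1 ↔ z ∈ W.1
    rw [inv_one]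
    rfl
  mul_smul a b W := by
    apply Subtype.ext
    ext z
    change (((a * b)⁻¹ : G) : U ≃ₐ[E] U) z ∈ W.1 ↔
      ((b⁻¹ : G) : U ≃ₐ[E] U) (((a⁻¹ : G) : U ≃ₐ[E] U) z) ∈ W.1
    rw [mul_inv_rev, Subgroup.coe_mul]
    rfl

theorem smul_eq_iff {G : Subgroup (U ≃ₐ[E] U)} (g : G) (W : Pl E U) :
    g • W = W ↔ ∀ z, (g : U ≃ₐ[E] U) z ∈ W.1 ↔ z ∈ W.1 := by
  have hmem : ∀ z, z ∈ (g • W).1 ↔ ((g⁻¹ : G) : U ≃ₐ[E] U) z ∈ W.1 := fun z => Iff.rfl
  have hinv : ∀ z, ((g⁻¹ : G) : U ≃ₐ[E] U) ((g : U ≃ₐ[E] U) z) = z := by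
    intro z
    rw [← AlgEquiv.mul_apply, ← Subgroup.coe_mul, inv_mul_cancel]
    rfl
  have hinv' : ∀ z, (g : U ≃ₐ[E] U) (((g⁻¹ : G) : U ≃ₐ[E] U) z) = z := by
    intro z
    rw [← AlgEquiv.mul_apply, ← Subgroup.coe_mul, mul_inv_cancel]
    rfl
  constructor
  · intro h z
    have h1 := hmem ((g : U ≃ₐ[E] U) z)
    rw [h, hinv] at h1
    exact h1
  · intro h
    apply Subtype.ext
    ext z
    rw [hmem, ← h, hinv']

end Act

/-! ### The action on the cotangent line -/

section Cyc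

open VC

variable {E N : Type u} [Field E] [IsAlgClosed E] [Field N] [Algebra E N]

theorem map_nonunits {R : ValuationSubring N} {σ : N ≃ₐ[E] N} (hQ : ∀ x, σ x ∈ R ↔ x ∈ R) {x : N}
    (hx : x ∈ R.nonunits) : σ x ∈ R.nonunits := by
  rcases (ValuationSubring.mem_nonunits_iff_or _).1 hx with h | h
  · rw [h, map_zero]
    exact (ValuationSubring.mem_nonunits_iff_or _).2 (Or.inl rfl)
  · refine (ValuationSubring.mem_nonunits_iff_or _).2 (Or.inr ?_)
    rwa [← map_inv₀, hQ]

theorem ev_map (hN : IsFunctionField E N) (Q : Place E N) {σ : N ≃ₐ[E] N}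
    (hQ : ∀ x, σ x ∈ Q.ring ↔ x ∈ Q.ring) {u : N} (hu : u ∈ Q.ring) :
    FF.ev hN Q ⟨σ u, (hQ u).2 hu⟩ = FF.ev hN Q ⟨u, hu⟩ := by
  rw [FF.ev_eq_iff]
  change σ u - algebraMap E N (FF.ev hN Q ⟨u, hu⟩) ∈ Q.ring.nonunits
  have h1 := map_nonunits hQ (FF.ev_spec hN Q ⟨u, hu⟩)
  rw [map_sub, AlgEquiv.commutes] at h1
  exact h1

/-- For a unit `u`, the quotient `σ u / u` is a principal unit. -/
theorem val_ratio_sub_one (hN : IsFunctionField E N) (Q : Place E N) {σ : N ≃ₐ[E] N}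
    (hQ : ∀ x, σ x ∈ Q.ring ↔ x ∈ Q.ring) {u : N} (hu0 : u ≠ 0) (hu : u ∈ Q.ring)
    (hu' : u⁻¹ ∈ Q.ring) : σ u / u - 1 ∈ Q.ring.nonunits := by
  obtain ⟨c, hc⟩ := FF.exists_residue hN Q hu
  have h1 := map_nonunits hQ hc
  rw [map_sub, AlgEquiv.commutes] at h1
  have h2 := G6.nonunits_sub h1 hc
  have h3 := G6.nonunits_mul_left hu' h2
  have h4 : u⁻¹ * (σ u - algebraMap E N c - (u - algebraMap E N c)) = σ u / u - 1 := by
    field_simp
    ring
  rwa [h4] at h3

/-- A finite group of automorphisms of a function field which fix a place is cyclic. -/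
theorem isCyclic_of_fixed [CharZero E] (hN : IsFunctionField E N) {G : Type*} [Group G] [Finite G]
    (r : G →* (N ≃ₐ[E] N)) (hr : Function.Injective r) (Q : Place E N)
    (hQ : ∀ g x, r g x ∈ Q.ring ↔ x ∈ Q.ring) : IsCyclic G := by
  classical
  obtain ⟨π, hπ0, hπ⟩ := FF.exists_uniformizer hN Q
  have hσ0 : ∀ g {y : N}, y ≠ 0 → r g y ≠ 0 := fun g {y} hy h => hy (by simpa using h)
  have hunit : ∀ g, r g π / π ∈ Q.ring ∧ (r g π / π)⁻¹ ∈ Q.ring := by
    intro g
    apply G6.mem_of_ord_zero hN (div_ne_zero (hσ0 g hπ0) hπ0)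
    rw [FF.ord_div hN Q (hσ0 g hπ0) hπ0, G6.ord_sigma hN (hQ g) hπ0, sub_self]
  let χ : G →* E :=
    { toFun := fun g => FF.ev hN Q ⟨r g π / π, (hunit g).1⟩
      map_one' := by
        have h1 : (⟨r 1 π / π, (hunit 1).1⟩ : Q.ring) = 1 := by
          apply Subtype.ext
          change r 1 π / π = 1
          rw [map_one]
          exact div_self hπ0
        rw [h1, map_one]
      map_mul' := by
        intro g h
        have h1 : (⟨r (g * h) π / π, (hunit (g * h)).1⟩ : Q.ring) =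
            ⟨r g π / π, (hunit g).1⟩ * ⟨r g (r h π / π), (hQ g _).2 (hunit h).1⟩ := by
          apply Subtype.ext
          change r (g * h) π / π = r g π / π * r g (r h π / π)
          rw [map_mul, AlgEquiv.mul_apply, map_div₀]
          have := hσ0 g hπ0
          field_simp
        rw [h1, map_mul, ev_map hN Q (hQ g)] }
  have hχ : ∀ g, χ g = FF.ev hN Q ⟨r g π / π, (hunit g).1⟩ := fun g => rfl
  refine isCyclic_of_injective_ringHom χ ((injective_iff_map_eq_one χ).2 fun g hg1 => ?_)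
  by_contra hg
  obtain ⟨p, hp, hpd⟩ := Nat.exists_prime_and_dvd (mt orderOf_eq_one_iff.1 hg)
  obtain ⟨m, hm⟩ := hpd
  have h0 : orderOf g ≠ 0 := (orderOf_pos g).ne'
  have hm0 : m ≠ 0 := by
    rintro rfl
    rw [mul_zero] at hm
    exact h0 hm
  have hord : orderOf (g ^ m) = p := by
    rw [orderOf_pow' g hm0, hm, Nat.gcd_mul_left_left, Nat.mul_div_cancel _ (Nat.pos_of_ne_zero hm0)]
  set h := g ^ m with hh
  have hh1 : χ h = 1 := by rw [hh, map_pow, hg1, one_pow]
  have hhp : (r h) ^ p = 1 := by rw [← map_pow, ← hord, pow_orderOf_eq_one, map_one]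
  have hne : r h ≠ 1 := by
    intro h1
    have h2 : h = 1 := hr (by rw [h1, map_one])
    rw [h2, orderOf_one] at hord
    exact hp.one_lt.ne hord
  obtain ⟨x₀, hx₀⟩ : ∃ x, r h x ≠ x := by
    by_contra hcon
    push Not at hcon
    exact hne (AlgEquiv.ext hcon)
  obtain ⟨ζ, hζ, v, -, hv0, hv⟩ := exists_eigenvector hp hhp (N := ⊤) (fun x _ => trivial)
    (x := x₀) trivial hx₀
  -- principal units
  set n := ord Q.ring v with hn
  have hu0 : v / π ^ n ≠ 0 := div_ne_zero hv0 (zpow_ne_zero _ hπ0)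
  have hu : ord Q.ring (v / π ^ n) = 0 := by
    rw [FF.ord_div hN Q hv0 (zpow_ne_zero _ hπ0), FF.ord_zpow hN Q hπ0, hπ]; ring
  obtain ⟨h1, h2⟩ := G6.mem_of_ord_zero hN hu0 hu
  have h3 := val_ratio_sub_one hN Q (hQ h) hu0 h1 h2
  have hζ0 : ζ ≠ 0 := hζ.ne_zero hp.ne_zero
  let a : Nˣ := Units.mk0 (r h (v / π ^ n) / (v / π ^ n)) (div_ne_zero (hσ0 h hu0) hu0)
  let w : Nˣ := Units.mk0 (r h π / π) (div_ne_zero (hσ0 h hπ0) hπ0)
  have ha : a ∈ Q.ring.principalUnitGroup := h3
  have hw : w ∈ Q.ring.principalUnitGroup := by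
    have h4 := (FF.ev_eq_iff hN Q ⟨r h π / π, (hunit h).1⟩ 1).1 hh1
    rw [map_one] at h4
    exact h4
  have haw : a * w ^ n ∈ Q.ring.principalUnitGroup :=
    Subgroup.mul_mem _ ha (Subgroup.zpow_mem _ hw n)
  have hval : ((a * w ^ n : Nˣ) : N) = algebraMap E N ζ := by
    rw [Units.val_mul, Units.val_zpow_eq_zpow_val, Units.val_mk0, Units.val_mk0, map_div₀,
      map_zpow₀, hv, div_zpow]
    have h5 := hσ0 h hπ0
    have h6 := zpow_ne_zero n h5
    have h7 := zpow_ne_zero n hπ0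
    field_simp
  have h8 : Q.ring.valuation (((a * w ^ n : Nˣ) : N) - 1) < 1 := haw
  rw [hval, ← map_one (algebraMap E N), ← map_sub] at h8
  have h9 : ζ - 1 = 0 := G6.const_eq_zero (W := Q.ring) Q.algebraMap_mem h8
  exact hζ.ne_one hp.one_lt (sub_eq_zero.1 h9)

end Cyc

end FG

section Main

open VC

variable {E U : Type u} [Field E] [IsAlgClosed E] [CharZero E] [Field U] [Algebra E U]

/-- **FG.**  If every element of prime order of the finite group `G` of automorphisms of the cover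
`U` has at most one fixed place, `G` fixes a unique place. -/
theorem finite_group_fixed (M : IntermediateField E U) (hc : IsCover M)
    (hdiv : ∀ N : IntermediateField E U, IsFunctionField E N → PicDiv E N)
    (G : Subgroup (U ≃ₐ[E] U)) [Finite G] [Nontrivial G] (hGM : ∀ g ∈ G, ∀ x ∈ M, g x ∈ M)
    (_hinj : ∀ g ∈ G, (∀ x ∈ M, g x = x) → g = 1)
    (huniq : ∀ g ∈ G, (orderOf g).Prime → ∀ W W' : ValuationSubring U,
      (∀ c : E, algebraMap E U c ∈ W) → W ≠ ⊤ → (∀ z, g z ∈ W ↔ z ∈ W) →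
      (∀ c : E, algebraMap E U c ∈ W') → W' ≠ ⊤ → (∀ z, g z ∈ W' ↔ z ∈ W') → W = W') :
    ∃! W : ValuationSubring U, (∀ c : E, algebraMap E U c ∈ W) ∧ W ≠ ⊤ ∧
      ∀ g ∈ G, ∀ z, g z ∈ W ↔ z ∈ W := by
  have hGM' : ∀ g ∈ G, ∀ x, x ∈ M ↔ g x ∈ M := by
    intro g hg x
    refine ⟨hGM g hg x, fun h => ?_⟩
    have h1 := hGM g⁻¹ (G.inv_mem hg) _ h
    rwa [← AlgEquiv.mul_apply, inv_mul_cancel] at h1
  have hex : ∀ g : G, (orderOf g).Prime → ∃! W : FG.Pl E U, g • W = W := by
    intro g hg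
    have hg' : (orderOf (g : U ≃ₐ[E] U)).Prime := by rwa [Subgroup.orderOf_coe]
    obtain ⟨W, hW, hW1, hWg⟩ := exists_fixed M hc hdiv hg' (g : U ≃ₐ[E] U) (hGM' g g.2)
      (pow_orderOf_eq_one _) (fun h => hg'.ne_one (by rw [h, orderOf_one]))
    refine ⟨⟨W, hW, hW1⟩, (FG.smul_eq_iff g _).2 hWg, ?_⟩
    rintro ⟨W', hW', hW1'⟩ h
    apply Subtype.ext
    exact huniq g g.2 hg' _ _ hW' hW1' ((FG.smul_eq_iff g _).1 h) hW hW1 hWg
  obtain ⟨W, hW, hWu⟩ := FG.existsUnique_fixed hex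
  refine ⟨W.1, ⟨W.2.1, W.2.2, fun g hg z => (FG.smul_eq_iff ⟨g, hg⟩ W).1 (hW ⟨g, hg⟩) z⟩, ?_⟩
  rintro W' ⟨h1, h2, h3⟩
  have h4 := hWu ⟨W', h1, h2⟩ (fun g => (FG.smul_eq_iff g _).2 (h3 g g.2))
  exact congrArg Subtype.val h4

/-- **FG.**  A finite group of automorphisms of the cover `U` of `M`, which is faithful on `M` and
fixes a place, is cyclic. -/
theorem finite_group_cyclic (M : IntermediateField E U) (hc : IsCover M)
    (G : Subgroup (U ≃ₐ[E] U)) [Finite G] (hGM : ∀ g ∈ G, ∀ x ∈ M, g x ∈ M)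
    (hinj : ∀ g ∈ G, (∀ x ∈ M, g x = x) → g = 1) {W : ValuationSubring U}
    (hW : ∀ c : E, algebraMap E U c ∈ W) (hW1 : W ≠ ⊤)
    (hWg : ∀ g ∈ G, ∀ z, g z ∈ W ↔ z ∈ W) : IsCyclic G := by
  have hgal := hc.gal
  let r : G →* (M ≃ₐ[E] M) :=
    { toFun := fun g =>
        { toFun := fun x => ⟨(g : U ≃ₐ[E] U) x, hGM g g.2 x x.2⟩
          invFun := fun x => ⟨(g⁻¹ : U ≃ₐ[E] U) x, hGM g⁻¹ (G.inv_mem g.2) x x.2⟩
          left_inv := fun x => Subtype.ext (by
            change ((g : U ≃ₐ[E] U)⁻¹) ((g : U ≃ₐ[E] U) x) = x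
            rw [← AlgEquiv.mul_apply, inv_mul_cancel]
            rfl)
          right_inv := fun x => Subtype.ext (by
            change (g : U ≃ₐ[E] U) (((g : U ≃ₐ[E] U)⁻¹) x) = x
            rw [← AlgEquiv.mul_apply, mul_inv_cancel]
            rfl)
          map_mul' := fun x y => Subtype.ext (map_mul (g : U ≃ₐ[E] U) _ _)
          map_add' := fun x y => Subtype.ext (map_add (g : U ≃ₐ[E] U) _ _)
          commutes' := fun c => Subtype.ext ((g : U ≃ₐ[E] U).commutes c) }
      map_one' := AlgEquiv.ext fun x => Subtype.ext rfl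
      map_mul' := fun g h => AlgEquiv.ext fun x => Subtype.ext rfl }
  have hr : ∀ (g : G) (x : M), ((r g x : M) : U) = (g : U ≃ₐ[E] U) x := fun g x => rfl
  have hex : ∃ x ∈ M, x ∉ W := exists_notMem_of_algebraic hW1
  refine FG.isCyclic_of_fixed hc.ff r ?_ (resPlace W hW M hex) ?_
  · rw [injective_iff_map_eq_one]
    intro g hg
    apply Subtype.ext
    apply hinj g g.2
    intro x hx
    have h1 := congrArg (fun σ => ((σ ⟨x, hx⟩ : M) : U)) hg
    exact h1
  · intro g x
    rw [mem_resPlace, mem_resPlace, hr]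
    exact hWg g g.2 _

end Main

end Pool.Agent.SC
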