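import Pool.Agent.SC.T1
import Pool.Agent.SC.Ext
import Pool.Agent.SC.RigidKur
import Pool.Agent.SC.G5
import Pool.Agent.SC.CoverKur0
import Pool.Agent.SC.FinGroup

/-!
# The Galois group acts on `Kur0` through a finite group and fixes a place
-/

universe u

set_option linter.unusedSectionVars false

namespace Pool.Agent.SC

open VC IntermediateField Module Pool.Agent.Helper91.Sect

section Fix

variable {k K : Type u} [Field k] [CharZero k] [Field K] [Algebra k K]
  {E : Type u} [Field E] [Algebra E (kbar k K)]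
  [Algebra E (AlgebraicClosure K)] [IsScalarTower E (kbar k K) (AlgebraicClosure K)]
  (s : GaloisSection k K)

/-- `Λ` has no extension in `kbar` which is unramified at the places with Frobenius elements. -/
def GenByFrob (E : Type u) [Field E] [Algebra E (kbar k K)] (Λ : Set (kbar k K)) : Prop :=
  ∀ z : kbar k K,
    (∀ (O : ValuationSubring k) (Q : IC O (kbar k K)) (_ : Q.IsPrime),
      (∀ n : ℕ, n ≠ 0 → (locW Q).valuation (n : kbar k K) = 1) → FrobAt s E Q →
      ∀ τ : Gk k K, InI Q τ → (∀ x ∈ Λ, τ x = x) → τ z = z) → z ∈ Λ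

variable {U : IntermediateField E (AlgebraicClosure K)} (hle : ∀ z ∈ U, z ∈ Kur k K)
  (hst : ∀ (γ : Gk k K) (w : Kur k K), (w : AlgebraicClosure K) ∈ U →
    (s.toHom γ w : AlgebraicClosure K) ∈ U)

theorem isClosed_fix (z : kbar k K) : IsClosed {γ : Gk k K | γ z = z} := by
  have h1 := stabilizer_isOpen_of_isIntegral (K := k) (L := kbar k K) z
  exact Subgroup.isClosed_of_isOpen (MulAction.stabilizer (Gk k K) z) h1

theorem isClosed_fix_section (w : Kur k K) : IsClosed {γ : Gk k K | s.toHom γ w = w} := by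
  have h1 := stabilizer_isOpen_of_isIntegral (K := K) (L := Kur k K) w
  have h2 := Subgroup.isClosed_of_isOpen (MulAction.stabilizer (Pi1 k K) w) h1
  exact h2.preimage s.continuous_toHom

/-- The elements of `Gal(kbar / Λ)` act trivially on `U`. -/
theorem act_of_fix [IsAlgClosed E] [CharZero E] {M : IntermediateField E U} (hc : IsCover M)
    (hR : ∀ N : IntermediateField E U, IsFunctionField E N → Riemann E N ∧ PicDiv E N)
    {Λ : Set (kbar k K)} (hΛ : GenByFrob s E Λ)
    (hfix : ∀ γ : Gk k K, (∀ x ∈ Λ, γ x = x) → ∀ m ∈ M, act s hle hst γ m = m)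
    {γ : Gk k K} (hγ : ∀ x ∈ Λ, γ x = x) (z : U) : act s hle hst γ z = z := by
  let w : Kur k K := ⟨z, hle _ z.2⟩
  let H : ClosedSubgroup (Gk k K) :=
    { carrier := {γ | s.toHom γ w = w ∧ ∀ x ∈ Λ, γ x = x}
      mul_mem' := fun {a b} ha hb => ⟨by rw [map_mul, AlgEquiv.mul_apply, hb.1, ha.1],
        fun x hx => by rw [AlgEquiv.mul_apply, hb.2 x hx, ha.2 x hx]⟩
      one_mem' := ⟨by rw [map_one]; rfl, fun x _ => rfl⟩
      inv_mem' := fun {a} ha => ⟨by
        have h1 := congrArg (s.toHom a⁻¹) ha.1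
        rw [← AlgEquiv.mul_apply, ← map_mul, inv_mul_cancel, map_one] at h1
        exact h1.symm, fun x hx => by
        have h1 := congrArg (a⁻¹ : Gk k K) (ha.2 x hx)
        rw [← AlgEquiv.mul_apply, inv_mul_cancel] at h1
        exact h1.symm⟩
      isClosed' := by
        have h1 : {γ : Gk k K | s.toHom γ w = w ∧ ∀ x ∈ Λ, γ x = x} =
            {γ : Gk k K | s.toHom γ w = w} ∩ ⋂ x ∈ Λ, {γ : Gk k K | γ x = x} := by
          ext γ
          simp
        change IsClosed {γ : Gk k K | s.toHom γ w = w ∧ ∀ x ∈ Λ, γ x = x}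
        rw [h1]
        exact (isClosed_fix_section s w).inter
          (isClosed_biInter fun x _ => isClosed_fix x) }
  have hH := InfiniteGalois.fixingSubgroup_fixedField H
  have h1 : γ ∈ (IntermediateField.fixedField H.toSubgroup).fixingSubgroup := by
    rw [IntermediateField.mem_fixingSubgroup_iff]
    intro y hy
    refine hγ y (hΛ y fun O Q hQ hres hF τ hτ hτΛ => ?_)
    refine hy ⟨τ, ?_⟩
    refine ⟨?_, hτΛ⟩
    have h2 := act_inertia s hle hst hc hR Q hres hF hτ (hfix τ hτΛ) z
    have h3 := congrArg (fun y : U => (y : AlgebraicClosure K)) h2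
    exact Subtype.ext h3
  rw [hH] at h1
  have h3 := congrArg (fun y : Kur k K => (y : AlgebraicClosure K)) h1.1
  exact Subtype.ext h3

end Fix

/-- Function fields are finitely generated. -/
theorem exists_finset_adjoin {E M : Type*} [Field E] [Field M] [Algebra E M]
    (hM : IsFunctionField E M) : ∃ S : Finset M, IntermediateField.adjoin E (S : Set M) = ⊤ := by
  classical
  obtain ⟨t, -, hfin⟩ := hM
  obtain ⟨n, b, hb⟩ := Module.Finite.exists_fin (R := E⟮t⟯) (M := M)
  refine ⟨insert t (Finset.univ.image b), ?_⟩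
  rw [eq_top_iff]
  intro x _
  have hx : x ∈ Submodule.span E⟮t⟯ (Set.range b) := by rw [hb]; trivial
  have hle : E⟮t⟯ ≤ IntermediateField.adjoin E ((insert t (Finset.univ.image b) : Finset M) :
      Set M) := by
    rw [IntermediateField.adjoin_le_iff, Set.singleton_subset_iff]
    exact IntermediateField.subset_adjoin _ _ (by simp)
  induction hx using Submodule.span_induction with
  | mem x hx =>
    obtain ⟨i, rfl⟩ := hx
    exact IntermediateField.subset_adjoin _ _ (by simp)
  | zero => exact zero_mem _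
  | add x y _ _ hx hy => exact add_mem (hx trivial) (hy trivial)
  | smul c x _ hx =>
    rw [Algebra.smul_def]
    exact mul_mem (hle c.2) (hx trivial)

section Final

variable {k K : Type u} [Field k] [CharZero k] [Field K] [Algebra k K]
  {E : Type u} [Field E] [IsAlgClosed E] [CharZero E] [Algebra E (kbar k K)]
  [Algebra E (AlgebraicClosure K)] [IsScalarTower E (kbar k K) (AlgebraicClosure K)]
  (s : GaloisSection k K)
  {U : IntermediateField E (AlgebraicClosure K)} (hle : ∀ z ∈ U, z ∈ Kur k K)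
  (hst : ∀ (γ : Gk k K) (w : Kur k K), (w : AlgebraicClosure K) ∈ U →
    (s.toHom γ w : AlgebraicClosure K) ∈ U)

/-- Elements of the Galois group which are the identity on `E` act `E`-linearly. -/
noncomputable def actE {σ : Gk k K}
    (hσ : ∀ c : E, σ (algebraMap E (kbar k K) c) = algebraMap E (kbar k K) c) : U ≃ₐ[E] U :=
  AlgEquiv.ofRingEquiv (f := act s hle hst σ) (fun c => act_const s hle hst (hσ c))

/-- The group of the automorphisms of `U / E` given by the elements of the Galois group which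
are the identity on `E`. -/
noncomputable def geomGroup : Subgroup (U ≃ₐ[E] U) where
  carrier := {g | ∃ γ : Gk k K,
    (∀ c : E, γ (algebraMap E (kbar k K) c) = algebraMap E (kbar k K) c) ∧
    ∀ z, g z = act s hle hst γ z}
  mul_mem' := by
    rintro g g' ⟨γ, h1, h2⟩ ⟨γ', h1', h2'⟩
    refine ⟨γ * γ', fun c => by rw [AlgEquiv.mul_apply, h1', h1], fun z => ?_⟩
    rw [AlgEquiv.mul_apply, h2, h2', map_mul]
    rfl
  one_mem' := ⟨1, fun c => rfl, fun z => by rw [map_one]; rfl⟩
  inv_mem' := by
    rintro g ⟨γ, h1, h2⟩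
    refine ⟨γ⁻¹, fun c => ?_, fun z => ?_⟩
    · conv_lhs => rw [← h1 c]
      rw [← AlgEquiv.mul_apply, inv_mul_cancel, AlgEquiv.one_apply]
    · have h3 : g (act s hle hst γ⁻¹ z) = z := by
        rw [h2]
        have h4 : act s hle hst γ * act s hle hst γ⁻¹ = 1 := by
          rw [← map_mul, mul_inv_cancel, map_one]
        exact congrArg (fun f : U ≃+* U => f z) h4
      conv_lhs => rw [← h3]
      rw [← AlgEquiv.mul_apply, inv_mul_cancel, AlgEquiv.one_apply]

/-- There is a place of `U` fixed by all `s γ`. -/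
theorem exists_stable_place {M : IntermediateField E U} (hc : IsCover M)
    (hR : ∀ N : IntermediateField E U, IsFunctionField E N → Riemann E N ∧ PicDiv E N)
    {Λ : Set (kbar k K)} (hΛ : GenByFrob s E Λ)
    (hfix : ∀ γ : Gk k K, (∀ x ∈ Λ, γ x = x) → ∀ m ∈ M, act s hle hst γ m = m)
    (hfix' : ∀ γ : Gk k K, (∀ m ∈ M, act s hle hst γ m = m) → ∀ x ∈ Λ, γ x = x)
    (hE : ∀ (γ : Gk k K) (c : E), ∃ d : E,
      γ (algebraMap E (kbar k K) c) = algebraMap E (kbar k K) d)
    (hM : ∀ (γ : Gk k K), ∀ m ∈ M, act s hle hst γ m ∈ M)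
    (hfin : ∀ m ∈ M, {y : U | ∃ γ : Gk k K, act s hle hst γ m = y}.Finite)
    (hne : ∃ γ : Gk k K, (∀ c : E, γ (algebraMap E (kbar k K) c) = algebraMap E (kbar k K) c) ∧
      ∃ m ∈ M, act s hle hst γ m ≠ m)
    (huniq : ∀ g : U ≃ₐ[E] U, (orderOf g).Prime → (∀ x, x ∈ M ↔ g x ∈ M) → (∃ x ∈ M, g x ≠ x) →
      ∀ W W' : ValuationSubring U,
      (∀ c : E, algebraMap E U c ∈ W) → W ≠ ⊤ → (∀ z, g z ∈ W ↔ z ∈ W) →
      (∀ c : E, algebraMap E U c ∈ W') → W' ≠ ⊤ → (∀ z, g z ∈ W' ↔ z ∈ W') → W = W') :
    ∃ W : ValuationSubring U, (∀ c : E, algebraMap E U c ∈ W) ∧ W ≠ ⊤ ∧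
      ∀ (γ : Gk k K) (z : U), act s hle hst γ z ∈ W ↔ z ∈ W := by
  classical
  have htriv := fun (γ : Gk k K) (hγ : ∀ x ∈ Λ, γ x = x) (z : U) =>
    act_of_fix s hle hst hc hR hΛ hfix hγ z
  let G := geomGroup s hle hst
  have hGM : ∀ g ∈ G, ∀ x ∈ M, g x ∈ M := by
    rintro g ⟨γ, -, h2⟩ x hx
    rw [h2]
    exact hM γ x hx
  have hinj : ∀ g ∈ G, (∀ x ∈ M, g x = x) → g = 1 := by
    rintro g ⟨γ, -, h2⟩ hx
    apply AlgEquiv.ext
    intro z
    rw [h2, AlgEquiv.one_apply]
    exact htriv γ (hfix' γ fun m hm => by rw [← h2, hx m hm]) z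
  -- finiteness
  obtain ⟨S, hS⟩ := exists_finset_adjoin hc.ff
  have hGfin : Finite G := by
    let f : G → (S → U) := fun g m => g.1 (m : M)
    have hf : Function.Injective f := by
      intro g g' hgg
      have h0 : ∀ x : M, g.1 (x : U) = g'.1 (x : U) := by
        let Eq : IntermediateField E M :=
          { carrier := {x | g.1 (x : U) = g'.1 (x : U)}
            mul_mem' := fun {x y} hx hy => by
              change g.1 ((x : U) * y) = g'.1 ((x : U) * y)
              rw [map_mul, map_mul, show g.1 (x : U) = g'.1 (x : U) from hx,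
                show g.1 (y : U) = g'.1 (y : U) from hy]
            add_mem' := fun {x y} hx hy => by
              change g.1 ((x : U) + y) = g'.1 ((x : U) + y)
              rw [map_add, map_add, show g.1 (x : U) = g'.1 (x : U) from hx,
                show g.1 (y : U) = g'.1 (y : U) from hy]
            algebraMap_mem' := fun c => by
              change g.1 (algebraMap E U c) = g'.1 (algebraMap E U c)
              rw [AlgEquiv.commutes, AlgEquiv.commutes]
            inv_mem' := fun x hx => by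
              change g.1 ((x : U)⁻¹) = g'.1 ((x : U)⁻¹)
              rw [map_inv₀, map_inv₀, show g.1 (x : U) = g'.1 (x : U) from hx] }
        have hle' : IntermediateField.adjoin E (S : Set M) ≤ Eq := by
          rw [IntermediateField.adjoin_le_iff]
          intro m hm
          exact congrFun hgg ⟨m, hm⟩
        intro x
        exact hle' (hS ▸ IntermediateField.mem_top)
      have h1 : ∀ x ∈ M, (g.1⁻¹ * g'.1) x = x := by
        intro x hx
        rw [AlgEquiv.mul_apply, ← h0 ⟨x, hx⟩, ← AlgEquiv.mul_apply, inv_mul_cancel,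
          AlgEquiv.one_apply]
      have h2 := hinj _ (G.mul_mem (G.inv_mem g.2) g'.2) h1
      rw [inv_mul_eq_one] at h2
      exact Subtype.ext h2
    have hrange : (Set.range f).Finite := by
      refine (Set.Finite.pi' (ι := S) fun m : S => hfin _ (m : M).2).subset ?_
      rintro _ ⟨g, rfl⟩ m
      obtain ⟨γ, -, h2⟩ := g.2
      exact ⟨γ, (h2 _).symm⟩
    have := hrange.to_subtype
    exact Finite.of_injective_finite_range hf
  have hGnt : Nontrivial G := by
    obtain ⟨γ, hγ, m, hm, hne⟩ := hne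
    refine ⟨⟨⟨actE s hle hst hγ, γ, hγ, fun z => rfl⟩, 1, fun h => hne ?_⟩⟩
    have h1 := congrArg (fun g : G => g.1 m) h
    exact h1
  obtain ⟨W, ⟨hWE, hWt, hWG⟩, hWu⟩ := finite_group_fixed M hc (fun N hN => (hR N hN).2) G hGM
    hinj (fun g hg hp => by
      refine huniq g hp (fun x => ⟨hGM g hg x, fun hx => ?_⟩) ?_
      · have := hGM g⁻¹ (G.inv_mem hg) _ hx
        rwa [← AlgEquiv.mul_apply, inv_mul_cancel, AlgEquiv.one_apply] at this
      · by_contra hcon
        push Not at hcon
        rw [hinj g hg hcon, orderOf_one] at hp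
        exact Nat.not_prime_one hp)
  refine ⟨W, hWE, hWt, fun γ z => ?_⟩
  -- the transported place
  let W' : ValuationSubring U := W.comap (act s hle hst γ : U →+* U)
  have hW' : ∀ z, z ∈ W' ↔ act s hle hst γ z ∈ W := fun z => Iff.rfl
  have hW'E : ∀ c : E, algebraMap E U c ∈ W' := by
    intro c
    obtain ⟨d, hd⟩ := hE γ c
    rw [hW', act_const s hle hst hd]
    exact hWE d
  have hW't : W' ≠ ⊤ := by
    intro h1
    apply hWt
    rw [eq_top_iff]
    intro y _
    obtain ⟨x, rfl⟩ := (act s hle hst γ).surjective y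
    have : x ∈ W' := by rw [h1]; trivial
    exact this
  have hW'g : ∀ g ∈ G, ∀ z, g z ∈ W' ↔ z ∈ W' := by
    rintro g ⟨σ, hσ, h2⟩ z
    rw [hW', hW', h2]
    have hσ' : ∀ c : E, (γ * σ * γ⁻¹) (algebraMap E (kbar k K) c) =
        algebraMap E (kbar k K) c := by
      intro c
      obtain ⟨d, hd⟩ := hE γ⁻¹ c
      rw [AlgEquiv.mul_apply, AlgEquiv.mul_apply, hd, hσ, ← hd, ← AlgEquiv.mul_apply,
        mul_inv_cancel, AlgEquiv.one_apply]
    have h3 : act s hle hst γ (act s hle hst σ z) =
        act s hle hst (γ * σ * γ⁻¹) (act s hle hst γ z) := by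
      have h5 : γ * σ = (γ * σ * γ⁻¹) * γ := by group
      have h4 : act s hle hst γ * act s hle hst σ =
          act s hle hst (γ * σ * γ⁻¹) * act s hle hst γ := by
        rw [← map_mul, ← map_mul, ← h5]
      exact congrArg (fun f : U ≃+* U => f z) h4
    rw [h3]
    exact hWG (actE s hle hst hσ') ⟨_, hσ', fun z => rfl⟩ _
  have h5 := hWu W' ⟨hW'E, hW't, hW'g⟩
  rw [← hW', h5]

end Final

end Pool.Agent.SC
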